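import Pool.Agent.Lib.MP_e95c01_co.U.Defs37
import Pool.Agent.Lib.MP_e95c01_co.N.Charge76

/-!
# Auxiliary facts on covers and numbers of neighbours (U8, U9, U10)
-/

namespace Pool.Agent.Lib.MP_e95c01_co.N

open Finset

variable {V : Type} [Fintype V] [DecidableEq V]

namespace CG

variable {G : CG V} {Fa : Finset (Finset V)}

theorem ne_of_nb5 {a b : V} (h : b ∈ G.nb a) : a ≠ b := by
  rintro rfl
  exact G.irr _ h

theorem HL_nb5 {a b t : V} (h : G.HL a b t) : t ∈ G.nb a := by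
  obtain ⟨-, -, h3, h4, h5⟩ := h
  have h6 : t ∈ G.cl a := by
    rw [h5]
    exact mem_insert_self _ _
  rw [cl, mem_insert] at h6
  rcases h6 with h6 | h6
  · exfalso
    subst h6
    exact h4 (by rw [cl]; exact mem_insert_of_mem (G.sym _ _ h3))
  · exact h6

theorem LL_nb5 {a b t u : V} (h : G.LL a b t u) : t ∈ G.nb a := by
  obtain ⟨-, -, h3, h4, h5, -, h7⟩ := h
  have h6 : t ∈ insert u (G.cl a) := by
    rw [h7]
    exact mem_insert_self _ _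
  rw [mem_insert] at h6
  rcases h6 with h6 | h6
  · exact absurd h6 h4
  · rw [cl, mem_insert] at h6
    rcases h6 with h6 | h6
    · exfalso
      subst h6
      exact h5 (by rw [cl]; exact mem_insert_of_mem (G.sym _ _ h3))
    · exact h6

theorem Tw_nb5 {v w x : V} (h : G.Tw v w) (hx : x ∈ G.nb v) (hne : x ≠ w) : x ∈ G.nb w := by
  have h1 : x ∈ G.cl w := by
    rw [← h.2.2, cl]
    exact mem_insert_of_mem hx
  rw [cl, mem_insert] at h1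
  rcases h1 with h1 | h1
  · exact absurd h1 hne
  · exact h1

theorem nR_of5 {z x : V} (hz : z ∈ R Fa) (hx : x ∈ G.nb z) (h : ∀ B ∈ G.I Fa z, x ∉ B) :
    x ∈ G.nR Fa z := by
  rw [mem_nR76]
  refine ⟨hx, ?_⟩
  rw [mem_R76]
  intro B hB hxB
  exact h B (I_of_nb76 hz hB hx hxB) hxB

theorem nR_Co5 {z x : V} {B : Finset V} (hz : z ∈ R Fa) (hI : G.I Fa z = {B})
    (hx : x ∈ G.nb z ∩ G.Co B) : x ∈ G.nR Fa z := by
  rw [mem_inter] at hx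
  refine nR_of5 hz hx.1 ?_
  intro B' hB'
  rw [hI, mem_singleton] at hB'
  subst hB'
  exact (mem_Co76.1 hx.2).1

theorem m_Co5 {z x : V} {B : Finset V} (hI : G.I Fa z = {B}) (hx : x ∈ G.Co B) :
    G.m Fa z x = 0 := by
  rw [m, hI, Finset.card_eq_zero, Finset.singleton_inter_of_notMem]
  intro h
  exact (mem_Co76.1 hx).2 (mem_I76.1 h).2

theorem m_empty5 {z x : V} (hI : G.I Fa z = ∅) : G.m Fa z x = 0 := by
  rw [m, hI, Finset.empty_inter, Finset.card_empty]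

/-- the five forms of a cover of the edge `z x`, seen from `z` -/
theorem cov5 (hT : G.TorsoU Fa) {z x : V} (hz : z ∈ R Fa) (hx : x ∈ G.nR Fa z)
    (hm : G.m Fa z x = 0) :
    (∃ w, w ∈ G.nR Fa z ∧ G.Low w ∧ x ∈ G.nb w) ∨
    (∃ v w, v ∈ G.nR Fa z ∧ w ∈ G.nR Fa z ∧ G.Tw v w ∧ x ∈ G.nb v ∧ x ∈ G.nb w) ∨
    (∃ a b, a ∈ G.nR Fa z ∧ G.HL a b z) ∨
    (∃ a b, b ∈ G.nR Fa z ∧ G.HL a b x ∧ z ≠ a) ∨
    (∃ a b, a ∈ G.nR Fa z ∧ G.LL a b z x) := by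
  rw [mem_nR76] at hx
  rcases hT.cov z hz x hx.2 hx.1 hm with h | h | h | h | h
  · obtain ⟨w, hw, h1, h2, h3⟩ := h
    exact Or.inl ⟨w, mem_nR76.2 ⟨G.sym _ _ h2, hw⟩, h1, h3⟩
  · obtain ⟨v, hv, w, hw, h1, h2, h3, h4, h5⟩ := h
    refine Or.inr (Or.inl ⟨v, w, mem_nR76.2 ⟨G.sym _ _ h2, hv⟩,
      mem_nR76.2 ⟨G.sym _ _ (Tw_nb5 h1 h2 h4), hw⟩, h1, h3, Tw_nb5 h1 h3 h5⟩)
  · obtain ⟨a, ha, b, hb, h1, h2, h3⟩ := h
    exact Or.inr (Or.inr (Or.inl ⟨a, b, mem_nR76.2 ⟨G.sym _ _ (HL_nb5 h1), ha⟩, h1⟩))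
  · obtain ⟨a, ha, b, hb, h1, h2, h3⟩ := h
    exact Or.inr (Or.inr (Or.inr (Or.inl ⟨a, b, mem_nR76.2 ⟨G.sym _ _ h2, hb⟩, h1, h3⟩)))
  · obtain ⟨a, ha, b, hb, h1⟩ := h
    exact Or.inr (Or.inr (Or.inr (Or.inr ⟨a, b, mem_nR76.2 ⟨G.sym _ _ (LL_nb5 h1), ha⟩, h1⟩)))

omit [Fintype V] in
theorem two_le5 {S : Finset V} {a b : V} (ha : a ∈ S) (hb : b ∈ S) (h : a ≠ b) : 2 ≤ S.card := by
  rw [← Finset.card_pair h]
  apply Finset.card_le_card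
  intro x hx
  rw [mem_insert, mem_singleton] at hx
  rcases hx with rfl | rfl <;> assumption

omit [Fintype V] in
theorem four_le5 {S : Finset V} {a b c d : V} (ha : a ∈ S) (hb : b ∈ S) (hc : c ∈ S)
    (hd : d ∈ S) (h1 : a ≠ b) (h2 : a ≠ c) (h3 : a ≠ d) (h4 : b ≠ c) (h5 : b ≠ d) (h6 : c ≠ d) :
    4 ≤ S.card := by
  have h : ({a, b, c, d} : Finset V).card = 4 := by
    rw [Finset.card_insert_of_notMem, Finset.card_insert_of_notMem, Finset.card_pair h6]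
    · simp [h4, h5]
    · simp [h1, h2, h3]
  rw [← h]
  apply Finset.card_le_card
  intro x hx
  simp only [mem_insert, mem_singleton] at hx
  rcases hx with rfl | rfl | rfl | rfl <;> assumption

theorem tl_mem5 {z w : V} (h1 : w ∈ G.nR Fa z) (h2 : G.Low w) : 1 ≤ G.tl Fa z := by
  classical
  rw [tl, Nat.succ_le_iff, Finset.card_pos]
  exact ⟨w, mem_filter.2 ⟨h1, h2⟩⟩

theorem tl_two5 {z w w' : V} (h1 : w ∈ G.nR Fa z) (h2 : G.Low w) (h3 : w' ∈ G.nR Fa z)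
    (h4 : G.Low w') (h5 : w ≠ w') : 2 ≤ G.tl Fa z := by
  rw [tl]
  exact two_le5 (mem_filter.2 ⟨h1, h2⟩) (mem_filter.2 ⟨h3, h4⟩) h5

theorem tA_mem5 {z a b : V} (h1 : a ∈ G.nR Fa z) (h2 : G.HL a b z) : 1 ≤ G.tA Fa z := by
  classical
  rw [tA, Nat.succ_le_iff, Finset.card_pos]
  refine ⟨a, ?_⟩
  rw [mem_filter]
  exact ⟨h1, b, h2⟩

theorem tp_mem5 {z x : V} (h1 : x ∈ G.nR Fa z) (h2 : G.Low x) (h3 : ¬ ∃ b, G.HL z b x) :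
    1 ≤ G.tp Fa z := by
  classical
  rw [tp, Nat.succ_le_iff, Finset.card_pos]
  refine ⟨x, ?_⟩
  rw [mem_filter]
  exact ⟨h1, h2, h3⟩

theorem tp_two5 {z x y : V} (h1 : x ∈ G.nR Fa z) (h2 : G.Low x) (h3 : ¬ ∃ b, G.HL z b x)
    (h4 : y ∈ G.nR Fa z) (h5 : G.Low y) (h6 : ¬ ∃ b, G.HL z b y) (h7 : x ≠ y) :
    2 ≤ G.tp Fa z := by
  classical
  rw [tp]
  refine two_le5 (a := x) (b := y) ?_ ?_ h7 <;> rw [mem_filter]
  exacts [⟨h1, h2, h3⟩, ⟨h4, h5, h6⟩]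

theorem tt_two5 {z v w : V} (h1 : v ∈ G.nR Fa z) (h2 : G.IsTw v ∧ ¬ G.Tw z v)
    (h3 : w ∈ G.nR Fa z) (h4 : G.IsTw w ∧ ¬ G.Tw z w) (h5 : v ≠ w) : 2 ≤ G.tt Fa z := by
  classical
  rw [tt]
  refine two_le5 (a := v) (b := w) ?_ ?_ h5 <;> rw [mem_filter]
  exacts [⟨h1, h2⟩, ⟨h3, h4⟩]

theorem tt_four5 {z v w v' w' : V} (h1 : v ∈ G.nR Fa z) (h2 : G.IsTw v ∧ ¬ G.Tw z v)
    (h3 : w ∈ G.nR Fa z) (h4 : G.IsTw w ∧ ¬ G.Tw z w)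
    (h5 : v' ∈ G.nR Fa z) (h6 : G.IsTw v' ∧ ¬ G.Tw z v')
    (h7 : w' ∈ G.nR Fa z) (h8 : G.IsTw w' ∧ ¬ G.Tw z w')
    (e1 : v ≠ w) (e2 : v ≠ v') (e3 : v ≠ w') (e4 : w ≠ v') (e5 : w ≠ w') (e6 : v' ≠ w') :
    4 ≤ G.tt Fa z := by
  classical
  rw [tt]
  refine four_le5 (a := v) (b := w) (c := v') (d := w') ?_ ?_ ?_ ?_ e1 e2 e3 e4 e5 e6 <;>
    rw [mem_filter]
  exacts [⟨h1, h2⟩, ⟨h3, h4⟩, ⟨h5, h6⟩, ⟨h7, h8⟩]

/-- two pairs of twins `v w` and `v' w'` with `v` adjacent to both `v'` and `w'` are disjoint -/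
theorem pairs5 (h7 : G.StTwHL) (n9 : 9 ≤ Fintype.card V) {v w v' w' : V} (h1 : G.Tw v w)
    (h2 : G.Tw v' w') (h3 : v ∈ G.nb v') (h4 : v ∈ G.nb w') :
    v ≠ w ∧ v ≠ v' ∧ v ≠ w' ∧ w ≠ v' ∧ w ≠ w' ∧ v' ≠ w' := by
  have e1 : v ≠ v' := fun h => by subst h; exact G.irr _ h3
  have e2 : v ≠ w' := fun h => by subst h; exact G.irr _ h4
  refine ⟨ne_of_nb5 h1.1, e1, e2, ?_, ?_, ne_of_nb5 h2.1⟩
  · intro h
    subst h
    exact e2 (h7.uniq n9 _ _ _ (h7.symm _ _ h1) h2)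
  · intro h
    subst h
    exact e1 (h7.uniq n9 _ _ _ (h7.symm _ _ h1) (h7.symm _ _ h2))

end CG

end Pool.Agent.Lib.MP_e95c01_co.N
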