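import Pool.Agent.Lib.MP_e95c01_co.U.Aux5
import Pool.Agent.Lib.MP_e95c01_co.N.Basic37

/-!
# U7: twins and `HL`
-/

namespace Pool.Agent.Lib.MP_e95c01_co.N

open Finset

variable {V : Type} [Fintype V] [DecidableEq V]

namespace CG

variable {G : CG V} {Fa : Finset (Finset V)}

theorem mem_cl5 {v x : V} : x ∈ G.cl v ↔ x = v ∨ x ∈ G.nb v := by
  rw [cl, mem_insert]

theorem cl_self5 (v : V) : v ∈ G.cl v := mem_cl5.2 (Or.inl rfl)

theorem cl_symm5 {v x : V} : x ∈ G.cl v ↔ v ∈ G.cl x := by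
  rw [mem_cl5, mem_cl5]
  constructor
  · rintro (h | h)
    · exact Or.inl h.symm
    · exact Or.inr (G.sym _ _ h)
  · rintro (h | h)
    · exact Or.inl h.symm
    · exact Or.inr (G.sym _ _ h)

theorem card_cl5 (v : V) : (G.cl v).card = (G.nb v).card + 1 := by
  rw [cl, Finset.card_insert_of_notMem (G.irr v)]

/-- three vertices with closed neighbourhoods inside eight vertices -/
theorem three5 (n9 : 9 ≤ Fintype.card V) {C : Finset V} (hC : C.card ≤ 8) {a b c : V}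
    (ha : G.cl a ⊆ C) (hb : G.cl b ⊆ C) (hc : G.cl c ⊆ C) (h1 : a ≠ b) (h2 : a ≠ c)
    (h3 : b ≠ c) : False := by
  have hS : ({a, b, c} : Finset V).card = 3 := by
    rw [Finset.card_insert_of_notMem, Finset.card_pair h3]
    simp [h1, h2]
  have hSC : ({a, b, c} : Finset V) ⊆ C := by
    intro y hy
    simp only [mem_insert, mem_singleton] at hy
    rcases hy with rfl | rfl | rfl
    · exact ha (cl_self5 _)
    · exact hb (cl_self5 _)
    · exact hc (cl_self5 _)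
  have hN : G.N {a, b, c} ⊆ C \ {a, b, c} := by
    intro y hy
    obtain ⟨k1, u, hu, k2⟩ := mem_N76.1 hy
    rw [mem_sdiff]
    refine ⟨?_, k1⟩
    simp only [mem_insert, mem_singleton] at hu
    rcases hu with rfl | rfl | rfl
    · exact ha (mem_cl5.2 (Or.inr k2))
    · exact hb (mem_cl5.2 (Or.inr k2))
    · exact hc (mem_cl5.2 (Or.inr k2))
  have k1 := Finset.card_le_card hN
  rw [Finset.card_sdiff_of_subset hSC, hS] at k1
  have hne : (G.Co {a, b, c}).Nonempty := by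
    rw [← Finset.card_pos, Co, Finset.card_compl]
    have k2 : ({a, b, c} ∪ G.N {a, b, c}).card ≤ 8 := by
      refine (Finset.card_le_card ?_).trans hC
      intro y hy
      rw [mem_union] at hy
      rcases hy with hy | hy
      · exact hSC hy
      · exact (mem_sdiff.1 (hN hy)).1
    omega
  have k3 := G.stN6_37 {a, b, c} ⟨a, by simp⟩ hne
  omega

theorem cl_HL5 {a b t : V} (h : G.HL a b t) : G.cl b ⊆ G.cl a := by
  rw [h.2.2.2.2]
  exact subset_insert _ _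

theorem cc_HL5 {a b t : V} (h : G.HL a b t) : (G.cl a).card ≤ 8 := by
  rw [card_cl5, h.1]

theorem symm_5 {v w : V} (h : G.Tw v w) : G.Tw w v := by
  refine ⟨G.sym _ _ h.1, ?_, h.2.2.symm⟩
  have h1 := card_cl5 (G := G) v
  have h2 := card_cl5 (G := G) w
  rw [h.2.2] at h1
  have h3 := h.2.1
  omega

theorem uniq_5 (n9 : 9 ≤ Fintype.card V) {v w w' : V} (h : G.Tw v w) (h' : G.Tw v w') :
    w = w' := by
  by_contra hne
  refine three5 n9 (C := G.cl v) (a := v) (b := w) (c := w') ?_ (Subset.refl _) ?_ ?_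
    (ne_of_nb5 h.1) (ne_of_nb5 h'.1) hne
  · rw [card_cl5, h.2.1]
  · rw [h.2.2]
  · rw [h'.2.2]

theorem b_uniq_5 (n9 : 9 ≤ Fintype.card V) {a b t b' t' : V} (h : G.HL a b t)
    (h' : G.HL a b' t') : b = b' := by
  by_contra hne
  exact three5 n9 (C := G.cl a) (a := a) (b := b) (c := b') (cc_HL5 h) (Subset.refl _)
    (cl_HL5 h) (cl_HL5 h') (ne_of_nb5 h.2.2.1) (ne_of_nb5 h'.2.2.1) hne

theorem twLL_5 {a b t u : V} (h : G.LL a b t u) : ¬ G.IsTw t := by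
  rintro ⟨w, hw⟩
  have hta := LL_nb5 h
  obtain ⟨h1, h2, h3, h4, h5, h6, h7⟩ := h
  have k1 : a ∈ G.cl w := by
    rw [← hw.2.2]
    exact mem_cl5.2 (Or.inr (G.sym _ _ hta))
  have hwt : w ≠ t := (ne_of_nb5 hw.1).symm
  have k3 : w ∈ insert t (G.cl b) := by
    rw [← h7]
    exact mem_insert_of_mem (cl_symm5.1 k1)
  rw [mem_insert] at k3
  rcases k3 with k3 | k3
  · exact hwt k3
  · have k4 : b ∈ G.cl t := by
      rw [hw.2.2]
      exact cl_symm5.1 k3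
    exact h5 (cl_symm5.1 k4)

theorem LL_symm5 {a b t u : V} (h : G.LL a b t u) : G.LL b a u t :=
  ⟨h.2.1, h.1, G.sym _ _ h.2.2.1, h.2.2.2.1.symm, h.2.2.2.2.2.1, h.2.2.2.2.1, h.2.2.2.2.2.2.symm⟩

theorem twI_sub5 {v w : V} (hv : v ∈ R Fa) (hw : w ∈ R Fa) (h : G.cl v ⊆ G.cl w) :
    G.I Fa v ⊆ G.I Fa w := by
  intro B hB
  rw [mem_I76] at hB ⊢
  refine ⟨hB.1, ?_⟩
  obtain ⟨-, u, hu, hvu⟩ := mem_N76.1 hB.2
  have h1 : u ∈ G.cl w := h (mem_cl5.2 (Or.inr (G.sym _ _ hvu)))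
  rw [mem_cl5] at h1
  rcases h1 with h1 | h1
  · subst h1
    exact absurd hu (mem_R76.1 hw B hB.1)
  · exact mem_N76.2 ⟨mem_R76.1 hw B hB.1, u, hu, G.sym _ _ h1⟩

theorem twR_5 (hr : G.Reg Fa) {v w : V} (hv : v ∈ R Fa) (h : G.Tw v w) : w ∈ R Fa := by
  rw [mem_R76]
  intro B hB hw
  have h1 : v ∈ G.N B := mem_N76.2 ⟨mem_R76.1 hv B hB, w, hw, (symm_5 h).1⟩
  have h2 := d_Co_pos76 (hr.frag B hB) h1
  rw [d, Nat.succ_le_iff, Finset.card_pos] at h2
  obtain ⟨x, hx⟩ := h2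
  rw [mem_inter] at hx
  have h3 : x ∈ G.cl w := by
    rw [← h.2.2]
    exact mem_cl5.2 (Or.inr hx.1)
  rw [mem_cl5] at h3
  rcases h3 with h3 | h3
  · subst h3
    exact (mem_Co76.1 hx.2).1 hw
  · exact nb_Co76 hx.2 (G.sym _ _ h3) hw

theorem twI_5 (hr : G.Reg Fa) {v w : V} (hv : v ∈ R Fa) (h : G.Tw v w) :
    w ∈ R Fa ∧ G.I Fa w = G.I Fa v := by
  have hw := twR_5 hr hv h
  refine ⟨hw, Subset.antisymm (twI_sub5 hw hv ?_) (twI_sub5 hv hw ?_)⟩
  · rw [h.2.2]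
  · rw [h.2.2]

theorem hlI_5 {a b t : V} (ha : a ∈ R Fa) (hb : b ∈ R Fa) (ht : t ∈ R Fa)
    (h : G.HL a b t) : G.I Fa a = G.I Fa b := by
  refine Subset.antisymm ?_ (twI_sub5 hb ha (cl_HL5 h))
  intro B hB
  rw [mem_I76] at hB ⊢
  refine ⟨hB.1, ?_⟩
  obtain ⟨-, u, hu, hvu⟩ := mem_N76.1 hB.2
  have h1 : u ∈ insert t (G.cl b) := by
    rw [← h.2.2.2.2]
    exact mem_cl5.2 (Or.inr (G.sym _ _ hvu))
  rw [mem_insert, mem_cl5] at h1
  rcases h1 with h1 | h1 | h1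
  · subst h1
    exact absurd hu (mem_R76.1 ht B hB.1)
  · subst h1
    exact absurd hu (mem_R76.1 hb B hB.1)
  · exact mem_N76.2 ⟨mem_R76.1 hb B hB.1, u, hu, G.sym _ _ h1⟩

theorem hid_5 (hr : G.Reg Fa) (hbig : ∀ B ∈ Fa, 3 ≤ B.card) {v : V} (hv : v ∈ R Fa)
    (ht : G.IsTw v) {B : Finset V} (hB : B ∈ G.I Fa v) : 2 ≤ G.d v B := by
  obtain ⟨w, hw⟩ := ht
  obtain ⟨hwR, hwI⟩ := twI_5 hr hv hw
  obtain ⟨hBF, hvN⟩ := mem_I76.1 hB
  have hwN : w ∈ G.N B := by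
    rw [← hwI] at hB
    exact (mem_I76.1 hB).2
  have hfr := hr.frag B hBF
  have h1 := d_pos76 hvN
  by_contra hc
  have hd1 : (G.nb v ∩ B).card = 1 := by
    unfold d at h1 hc
    omega
  obtain ⟨u, hu⟩ := Finset.card_eq_one.1 hd1
  have huB : u ∈ G.nb v ∩ B := by
    rw [hu]
    exact mem_singleton_self _
  rw [mem_inter] at huB
  have hvu : ∀ x ∈ B, v ∈ G.nb x → x = u := by
    intro x hx hvx
    have : x ∈ G.nb v ∩ B := mem_inter.2 ⟨G.sym _ _ hvx, hx⟩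
    rwa [hu, mem_singleton] at this
  have hwu : ∀ x ∈ B, w ∈ G.nb x → x = u := by
    intro x hx hwx
    have h2 : x ∈ G.cl v := by
      rw [hw.2.2]
      exact mem_cl5.2 (Or.inr (G.sym _ _ hwx))
    rw [mem_cl5] at h2
    rcases h2 with h2 | h2
    · subst h2
      exact absurd hx (mem_N76.1 hvN).1
    · exact hvu x hx (G.sym _ _ h2)
  have hsub : G.N (B.erase u) ⊆ insert u (((G.N B).erase v).erase w) := by
    intro x hx
    obtain ⟨k1, y, hy, hxy⟩ := mem_N76.1 hx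
    rw [mem_erase] at hy
    rw [mem_insert]
    by_cases hxu : x = u
    · exact Or.inl hxu
    right
    have hxB : x ∉ B := fun h => k1 (mem_erase.2 ⟨hxu, h⟩)
    rw [mem_erase, mem_erase]
    refine ⟨?_, ?_, mem_N76.2 ⟨hxB, y, hy.2, hxy⟩⟩
    · rintro rfl
      exact hy.1 (hwu y hy.2 hxy)
    · rintro rfl
      exact hy.1 (hvu y hy.2 hxy)
  have hvw : v ≠ w := ne_of_nb5 hw.1
  have hc1 : (((G.N B).erase v).erase w).card = 4 := by
    rw [Finset.card_erase_of_mem (mem_erase.2 ⟨hvw.symm, hwN⟩), Finset.card_erase_of_mem hvN,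
      hfr.2.1]
  have hc2 := Finset.card_le_card hsub
  have hc3 := Finset.card_insert_le u (((G.N B).erase v).erase w)
  have hne1 : (B.erase u).Nonempty := by
    rw [← Finset.card_pos, Finset.card_erase_of_mem huB.2]
    have := hbig B hBF
    omega
  have hne2 : (G.Co (B.erase u)).Nonempty := by
    obtain ⟨c, hc⟩ := hfr.2.2
    refine ⟨c, mem_Co76.2 ⟨fun h => (mem_Co76.1 hc).1 (mem_erase.1 h).2, ?_⟩⟩
    intro h
    obtain ⟨k1, y, hy, hxy⟩ := mem_N76.1 h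
    exact nb_Co76 hc (G.sym _ _ hxy) (mem_erase.1 hy).2
  have := G.stN6_37 _ hne1 hne2
  omega

theorem stTwHL_5 (G : CG V) : G.StTwHL where
  symm _ _ h := symm_5 h
  uniq n9 _ _ _ h h' := uniq_5 n9 h h'
  notHL n9 a b t h := by
    rintro ⟨w, hw⟩
    have h1 : w ≠ b := by
      rintro rfl
      have k1 := (symm_5 hw).2.1
      have k2 : (G.nb w).card = 6 := h.2.1
      omega
    exact three5 n9 (C := G.cl a) (a := a) (b := w) (c := b) (cc_HL5 h) (Subset.refl _)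
      (by rw [hw.2.2]) (cl_HL5 h) (ne_of_nb5 hw.1) (ne_of_nb5 h.2.2.1) h1
  nomut n9 a b t b' t' h h' := by
    have h1 := b_uniq_5 n9 h h'
    rintro rfl
    subst h1
    exact h.2.2.2.1 (cl_self5 _)
  two n9 a b t b' t' h h' ht := by
    exfalso
    have h1 := b_uniq_5 n9 h h'
    subst h1
    have h2 : t ∈ insert t' (G.cl b) := by
      rw [← h'.2.2.2.2, h.2.2.2.2]
      exact mem_insert_self _ _
    rw [mem_insert] at h2
    rcases h2 with h2 | h2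
    · exact ht h2
    · exact h.2.2.2.1 h2
  one n9 a a' b t h h' := by
    by_contra hne
    exact three5 n9 (C := G.cl a) (a := a) (b := a') (c := b) (cc_HL5 h) (Subset.refl _)
      (by rw [h.2.2.2.2, h'.2.2.2.2]) (cl_HL5 h) hne (ne_of_nb5 h.2.2.1) (ne_of_nb5 h'.2.2.1)
  twLL _ _ _ _ h := ⟨twLL_5 h, twLL_5 (LL_symm5 h)⟩
  twI _ hr _ hv _ h := twI_5 hr hv h
  hlI _ _ _ ha _ hb _ ht h := hlI_5 ha hb ht h
  hid _ hr hbig _ hv ht _ hB := hid_5 hr hbig hv ht hB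

end CG

end Pool.Agent.Lib.MP_e95c01_co.N
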