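import Pool.Agent.Lib.MP_e95c01_co.U.Defs37
import Pool.Agent.Lib.MP_e95c01_co.N4.Dom76

/-!
# `Tw`, `HL`, `Sat`, `LL` of `U.Defs37` and `Tw76`, `HL76`, `Sat76` of `N4`; `StSmall`
-/

namespace Pool.Agent.Lib.MP_e95c01_co.N

open Finset

variable {V : Type} [Fintype V] [DecidableEq V]

namespace CG

theorem mem_cl76 {G : CG V} {v x : V} : x ∈ G.cl v ↔ x = v ∨ x ∈ G.nb v := by
  rw [cl, mem_insert]

theorem tw_iff76 {G : CG V} {u v : V} : G.Tw u v ↔ G.Tw76 u v := by
  constructor
  · rintro ⟨h1, h2, h3⟩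
    have h4 : ∀ x, (x = u ∨ x ∈ G.nb u) ↔ (x = v ∨ x ∈ G.nb v) := by
      intro x
      rw [← mem_cl76, ← mem_cl76, h3]
    refine ⟨(nb_ne76 h1).symm, h1, h2, ?_⟩
    ext x
    rw [mem_erase, mem_erase]
    constructor
    · rintro ⟨h5, h6⟩
      refine ⟨nb_ne76 h6, ?_⟩
      rcases (h4 x).1 (Or.inr h6) with h7 | h7
      · exact absurd h7 h5
      · exact h7
    · rintro ⟨h5, h6⟩
      refine ⟨nb_ne76 h6, ?_⟩
      rcases (h4 x).2 (Or.inr h6) with h7 | h7
      · exact absurd h7 h5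
      · exact h7
  · intro h
    refine ⟨h.adj, h.deg, ?_⟩
    ext x
    rw [mem_cl76, mem_cl76]
    by_cases hu : x = u
    · rw [hu]
      exact ⟨fun _ => Or.inr (G.sym _ _ h.adj), fun _ => Or.inl rfl⟩
    by_cases hv : x = v
    · rw [hv]
      exact ⟨fun _ => Or.inl rfl, fun _ => Or.inr h.adj⟩
    · have := h.iff hu hv
      tauto

theorem isTw_iff76 {G : CG V} {u : V} : G.IsTw u ↔ ∃ v, G.Tw76 u v := by
  unfold IsTw
  simp only [tw_iff76]

theorem HL76.card {G : CG V} {a b t : V} (h : G.HL76 a b t) (hb : G.Low b) :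
    (G.nb a).card = 7 := by
  have h9 : (G.nb b).card = 6 := hb
  have h11 : t ∉ insert b ((G.nb b).erase a) := by
    rw [mem_insert, mem_erase, not_or]
    exact ⟨h.tb, fun hh => h.nt hh.2⟩
  have h12 : b ∉ (G.nb b).erase a := by
    rw [mem_erase]
    exact fun hh => G.irr _ hh.2
  rw [h.eq, card_insert_of_notMem h11, card_insert_of_notMem h12, card_erase_of_mem h.ab]
  omega

theorem hl_iff76 {G : CG V} {a b t : V} : G.HL a b t ↔ G.HL76 a b t ∧ G.Low b := by
  constructor
  · rintro ⟨h1, h2, h3, h4, h5⟩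
    have hab : a ∈ G.nb b := G.sym _ _ h3
    rw [mem_cl76, not_or] at h4
    have hta : t ≠ a := by
      rintro rfl
      exact h4.2 hab
    have h6 : ∀ x, (x = a ∨ x ∈ G.nb a) ↔ (x = t ∨ x = b ∨ x ∈ G.nb b) := by
      intro x
      rw [← mem_cl76, h5, mem_insert, mem_cl76]
    refine ⟨⟨hab, h4.1, h4.2, ?_⟩, h2⟩
    ext x
    rw [mem_insert, mem_insert, mem_erase]
    constructor
    · intro hx
      rcases (h6 x).1 (Or.inr hx) with h7 | h7 | h7
      · exact Or.inl h7
      · exact Or.inr (Or.inl h7)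
      · exact Or.inr (Or.inr ⟨nb_ne76 hx, h7⟩)
    · rintro (h7 | h7 | h7)
      · rcases (h6 x).2 (Or.inl h7) with h8 | h8
        · exact absurd (h7.symm.trans h8) hta
        · exact h8
      · rw [h7]; exact h3
      · rcases (h6 x).2 (Or.inr (Or.inr h7.2)) with h8 | h8
        · exact absurd h8 h7.1
        · exact h8
  · rintro ⟨h, hb⟩
    refine ⟨h.card hb, hb, G.sym _ _ h.ab, ?_, ?_⟩
    · rw [mem_cl76, not_or]
      exact ⟨h.tb, h.nt⟩
    · ext x
      rw [mem_insert, mem_cl76, mem_cl76, h.eq, mem_insert, mem_insert, mem_erase]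
      have := h.ab
      constructor
      · rintro (h1 | h1 | h1 | h1)
        · rw [h1]; exact Or.inr (Or.inr h.ab)
        · exact Or.inl h1
        · exact Or.inr (Or.inl h1)
        · exact Or.inr (Or.inr h1.2)
      · rintro (h1 | h1 | h1)
        · exact Or.inr (Or.inl h1)
        · exact Or.inr (Or.inr (Or.inl h1))
        · by_cases hx : x = a
          · exact Or.inl hx
          · exact Or.inr (Or.inr (Or.inr ⟨hx, h1⟩))

theorem sat_iff76 {G : CG V} : G.Sat ↔ G.Sat76 := by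
  constructor
  · intro h a b t h1 h2
    exact h a b t (hl_iff76.2 ⟨h1, h2⟩)
  · intro h a b t h1
    exact h a b t (hl_iff76.1 h1).1 (hl_iff76.1 h1).2

theorem ll_of76 {G : CG V} {b b' x y : V} (h1 : G.Low b) (h2 : G.Low b') (h3 : b' ∈ G.nb b)
    (h4 : x ∈ G.nb b) (h5 : y ∈ G.nb b') (h6 : x ∉ G.nb b') (h7 : y ∉ G.nb b) (h8 : x ≠ b')
    (h9 : y ≠ b) (h10 : ∀ z ∈ G.nb b, z ≠ b' → z ≠ x → z ∈ G.nb b')
    (h11 : ∀ z ∈ G.nb b', z ≠ b → z ≠ y → z ∈ G.nb b) : G.LL b b' x y := by
  refine ⟨h1, h2, h3, ?_, ?_, ?_, ?_⟩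
  · rintro rfl
    exact h7 h4
  · rw [mem_cl76, not_or]
    exact ⟨h8, h6⟩
  · rw [mem_cl76, not_or]
    exact ⟨h9, h7⟩
  · ext z
    rw [mem_insert, mem_insert, mem_cl76, mem_cl76]
    constructor
    · rintro (h | h | h)
      · rw [h]; exact Or.inr (Or.inr h5)
      · rw [h]; exact Or.inr (Or.inr (G.sym _ _ h3))
      · by_cases hz : z = b'
        · exact Or.inr (Or.inl hz)
        by_cases hx : z = x
        · exact Or.inl hx
        exact Or.inr (Or.inr (h10 z h hz hx))
    · rintro (h | h | h)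
      · rw [h]; exact Or.inr (Or.inr h4)
      · rw [h]; exact Or.inr (Or.inr h3)
      · by_cases hz : z = b
        · exact Or.inr (Or.inl hz)
        by_cases hx : z = y
        · exact Or.inl hx
        exact Or.inr (Or.inr (h11 z h hz hx))

/-- U1 -/
theorem stSmall_76 (G : CG V) : G.StSmall := by
  intro E hE hc x y hx hy hxy
  have h0 : 0 < E.card := hE.1.card_pos
  rcases Nat.lt_or_ge E.card 2 with h1 | h1
  · obtain ⟨w, rfl⟩ := card_eq_one.1 (by omega : E.card = 1)
    have h2 := hE.2.1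
    rw [N_single76] at h2 hx hy
    exact Or.inl ⟨w, mem_singleton_self _, h2, hx, hy⟩
  obtain ⟨a, b, hab, rfl⟩ := card_eq_two.1 (by omega : E.card = 2)
  have hN := hE.2.1
  have hx' := mem_N_pair76.1 hx
  have hy' := mem_N_pair76.1 hy
  have maE : a ∈ ({a, b} : Finset V) := mem_insert_self _ _
  have mbE : b ∈ ({a, b} : Finset V) := mem_insert_of_mem (mem_singleton_self _)
  by_cases hadj : b ∈ G.nb a
  swap
  · have hba : a ∉ G.nb b := fun h => hadj (G.sym _ _ h)
    have h2 : G.nb a = G.N {a, b} := by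
      apply eq_of_subset_of_card_le
      · intro v hv
        exact mem_N_pair76.2 ⟨nb_ne76 hv, fun h => hadj (by rw [← h]; exact hv), Or.inl hv⟩
      · rw [hN]
        exact G.deg a
    refine Or.inl ⟨a, maE, ?_, by rw [h2]; exact hx, by rw [h2]; exact hy⟩
    change (G.nb a).card = 6
    rw [h2, hN]
  have hadj' := G.sym _ _ hadj
  have ha : (G.nb a).erase b ⊆ G.N {a, b} := by
    intro v hv
    rw [mem_erase] at hv
    exact mem_N_pair76.2 ⟨nb_ne76 hv.2, hv.1, Or.inl hv.2⟩
  have hb : (G.nb b).erase a ⊆ G.N {a, b} := by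
    intro v hv
    rw [mem_erase] at hv
    exact mem_N_pair76.2 ⟨hv.1, nb_ne76 hv.2, Or.inr hv.2⟩
  have ca := card_le_card ha
  have cb := card_le_card hb
  rw [card_erase_of_mem hadj, hN] at ca
  rw [card_erase_of_mem hadj', hN] at cb
  have da := G.deg a
  have db := G.deg b
  have hl : ∀ E : Finset V, ∀ a ∈ E, ∀ b ∈ E, a ≠ b → b ∈ G.nb a → (G.N {a, b}).card = 6 →
      (G.nb b).card = 6 → (G.nb a).card = 7 → x ∈ G.N {a, b} → y ∈ G.N {a, b} →
      G.CovIn E x y := by
    intro E a haE b hbE hab hadj hN hb6 ha7 hx hy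
    obtain ⟨t, ht⟩ := hl_of76 hadj hN hb6 ha7
    rw [mem_N_pair76] at hx hy
    have h6 : ∀ z, z ≠ a → z ≠ b → (z ∈ G.nb a ∨ z ∈ G.nb b) → z ≠ t → z ∈ G.nb b := by
      intro z h1 h2 h3 h4
      rcases h3 with h3 | h3
      · exact ht.mem_b h3 h2 h4
      · exact h3
    have hHL : G.HL a b t := hl_iff76.2 ⟨ht, hb6⟩
    by_cases hxt : x = t
    · right; right; left
      refine ⟨a, haE, b, hbE, by rw [hxt]; exact hHL, ?_, hy.1⟩
      exact h6 y hy.1 hy.2.1 hy.2.2 (fun h => hxy (hxt.trans h.symm))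
    by_cases hyt : y = t
    · right; right; right; left
      refine ⟨a, haE, b, hbE, by rw [hyt]; exact hHL, ?_, hx.1⟩
      exact h6 x hx.1 hx.2.1 hx.2.2 hxt
    · exact Or.inl ⟨b, hbE, hb6, h6 x hx.1 hx.2.1 hx.2.2 hxt, h6 y hy.1 hy.2.1 hy.2.2 hyt⟩
  by_cases ha7 : (G.nb a).card = 7
  · by_cases hb7 : (G.nb b).card = 7
    · have h2 : (G.nb a).erase b = G.N {a, b} := eq_of_subset_of_card_le ha (by
        rw [hN, card_erase_of_mem hadj, ha7])
      have h3 : (G.nb b).erase a = G.N {a, b} := eq_of_subset_of_card_le hb (by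
        rw [hN, card_erase_of_mem hadj', hb7])
      refine Or.inr (Or.inl ⟨a, maE, b, mbE, tw_iff76.2 ⟨hab, hadj, ha7, h2.trans h3.symm⟩,
        ?_, ?_, hx'.2.1, hy'.2.1⟩)
      · rw [← h2] at hx
        exact mem_of_mem_erase hx
      · rw [← h2] at hy
        exact mem_of_mem_erase hy
    · exact hl _ a maE b mbE hab hadj hN (by omega) ha7 hx hy
  · by_cases hb7 : (G.nb b).card = 7
    · have h2 : ({a, b} : Finset V) = {b, a} := pair_comm a b
      rw [h2] at hN hx hy
      exact hl _ b mbE a maE hab.symm hadj' hN (by omega) hb7 hx hy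
    · have ha6 : (G.nb a).card = 6 := by omega
      have hb6 : (G.nb b).card = 6 := by omega
      by_cases h2 : x ∈ G.nb a ∧ y ∈ G.nb a
      · exact Or.inl ⟨a, maE, ha6, h2.1, h2.2⟩
      by_cases h3 : x ∈ G.nb b ∧ y ∈ G.nb b
      · exact Or.inl ⟨b, mbE, hb6, h3.1, h3.2⟩
      -- the private neighbours
      have main : ∀ E : Finset V, ∀ a ∈ E, ∀ b ∈ E, b ∈ G.nb a → (G.N {a, b}).card = 6 →
          (G.nb a).card = 6 → (G.nb b).card = 6 → x ∈ G.N {a, b} → y ∈ G.N {a, b} →
          x ∈ G.nb a → y ∉ G.nb a → x ∉ G.nb b → y ∈ G.nb b → G.CovIn E x y := by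
        intro E a haE b hbE hadj hN ha6 hb6 hx hy hxa hya hxb hyb
        have hx' := mem_N_pair76.1 hx
        have hy' := mem_N_pair76.1 hy
        have hba := G.sym _ _ hadj
        have e1 : (G.nb a).erase b = (G.N {a, b}).erase y := by
          apply eq_of_subset_of_card_le
          · intro v hv
            rw [mem_erase] at hv ⊢
            refine ⟨fun h => hya (by rw [← h]; exact hv.2), ?_⟩
            exact mem_N_pair76.2 ⟨nb_ne76 hv.2, hv.1, Or.inl hv.2⟩
          · rw [card_erase_of_mem hy, card_erase_of_mem hadj, hN, ha6]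
        have e2 : (G.nb b).erase a = (G.N {a, b}).erase x := by
          apply eq_of_subset_of_card_le
          · intro v hv
            rw [mem_erase] at hv ⊢
            refine ⟨fun h => hxb (by rw [← h]; exact hv.2), ?_⟩
            exact mem_N_pair76.2 ⟨hv.1, nb_ne76 hv.2, Or.inr hv.2⟩
          · rw [card_erase_of_mem hx, card_erase_of_mem hba, hN, hb6]
        refine Or.inr (Or.inr (Or.inr (Or.inr ⟨a, haE, b, hbE, ll_of76 ha6 hb6 hadj hxa hyb hxb
          hya hx'.2.1 hy'.1 ?_ ?_⟩)))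
        · intro z hz hzb hzx
          have h4 : z ∈ (G.nb a).erase b := mem_erase.2 ⟨hzb, hz⟩
          rw [e1] at h4
          have h5 : z ∈ (G.nb b).erase a := by
            rw [e2]
            exact mem_erase.2 ⟨hzx, mem_of_mem_erase h4⟩
          exact mem_of_mem_erase h5
        · intro z hz hza hzy
          have h4 : z ∈ (G.nb b).erase a := mem_erase.2 ⟨hza, hz⟩
          rw [e2] at h4
          have h5 : z ∈ (G.nb a).erase b := by
            rw [e1]
            exact mem_erase.2 ⟨hzy, mem_of_mem_erase h4⟩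
          exact mem_of_mem_erase h5
      by_cases hxa : x ∈ G.nb a
      · have hya : y ∉ G.nb a := fun h => h2 ⟨hxa, h⟩
        have hyb : y ∈ G.nb b := by
          rcases hy'.2.2 with h | h
          · exact absurd h hya
          · exact h
        have hxb : x ∉ G.nb b := fun h => h3 ⟨h, hyb⟩
        exact main _ a maE b mbE hadj hN ha6 hb6 hx hy hxa hya hxb hyb
      · have hxb : x ∈ G.nb b := by
          rcases hx'.2.2 with h | h
          · exact absurd h hxa
          · exact h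
        have hyb : y ∉ G.nb b := fun h => h3 ⟨hxb, h⟩
        have hya : y ∈ G.nb a := by
          rcases hy'.2.2 with h | h
          · exact h
          · exact absurd h hyb
        have h4 : ({a, b} : Finset V) = {b, a} := pair_comm a b
        rw [h4] at hN hx hy
        exact main _ b mbE a maE hadj' hN hb6 ha6 hx hy hxb hyb hxa hya

end CG

end Pool.Agent.Lib.MP_e95c01_co.N
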