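import Pool.Agent.Lib.MP_e95c01_co.U.Defs37
import Pool.Agent.Lib.MP_e95c01_co.N.Ident76
import Pool.Agent.Lib.MP_e95c01_co.N.Basic37

/-!
# U5: the identity and the formulas for `P4`
-/

namespace Pool.Agent.Lib.MP_e95c01_co.N

open Finset

variable {V : Type} [Fintype V] [DecidableEq V]

namespace CG

variable {G : CG V} {Fa : Finset (Finset V)}

theorem swap11 (f : V → V → ℤ) (hf : ∀ x z, f x z = - f z x) :
    ∑ z ∈ R Fa, ∑ x ∈ G.nR Fa z, f x z = 0 := by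
  have h1 : ∑ z ∈ R Fa, ∑ x ∈ G.nR Fa z, f x z = ∑ z ∈ R Fa, ∑ x ∈ G.nR Fa z, f z x := by
    apply Finset.sum_comm'
    intro x y
    simp only [nR, mem_inter]
    constructor
    · rintro ⟨h1, h2, h3⟩
      exact ⟨⟨G.sym _ _ h2, h1⟩, h3⟩
    · rintro ⟨⟨h1, h2⟩, h3⟩
      exact ⟨h2, G.sym _ _ h1, h3⟩
  have h2 : ∑ z ∈ R Fa, ∑ x ∈ G.nR Fa z, f z x = - ∑ z ∈ R Fa, ∑ x ∈ G.nR Fa z, f x z := by
    rw [← sum_neg_distrib]
    refine sum_congr rfl fun z _ => ?_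
    rw [← sum_neg_distrib]
    exact sum_congr rfl fun x _ => hf z x
  omega

/-- the sum of the differences of the degrees -/
theorem sum_d11 (h : G.Reg Fa) {z : V} (hz : z ∈ R Fa) :
    ∑ B ∈ G.I Fa z, ((G.d z B : ℤ) - (G.d z (G.Co B) : ℤ)) =
      - ((((G.I Fa z).card : ℤ) - 2) * ((G.nb z).card : ℤ) +
        ∑ x ∈ G.nR Fa z, (2 - (G.m Fa x z : ℤ))) := by
  have h3 := nb_split76 h hz
  have h4 := sum_m76 h (w := z)
  have h5 : ∑ B ∈ G.I Fa z, ((G.d z B : ℤ) - (G.d z (G.Co B) : ℤ)) =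
      ∑ B ∈ G.I Fa z, (2 * (G.d z B : ℤ) + ((G.nb z ∩ G.N B).card : ℤ) - ((G.nb z).card : ℤ)) := by
    refine sum_congr rfl fun B _ => ?_
    have := d_split76 (G := G) z B
    omega
  rw [h5, sum_sub_distrib, sum_add_distrib, ← mul_sum, h4, sum_sub_distrib]
  simp only [sum_const, nsmul_eq_mul]
  linarith

theorem stIdentU_11 (G : CG V) : G.StIdentU := by
  classical
  intro Fa h
  have h1 := sum_split76 h (fun v => 2 * G.a4 v)
  have h2 := sum_N76 h (fun B w => G.a4 w + G.c4 w * ((G.d w B : ℤ) - (G.d w (G.Co B) : ℤ)))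
  have hP : ∑ B ∈ Fa, G.P4 B = ∑ B ∈ Fa, ∑ v ∈ B, 2 * G.a4 v +
      ∑ B ∈ Fa, ∑ w ∈ G.N B, (G.a4 w + G.c4 w * ((G.d w B : ℤ) - (G.d w (G.Co B) : ℤ))) := by
    rw [← sum_add_distrib]
    rfl
  have h3 : ∑ z ∈ R Fa, ∑ x ∈ G.nR Fa z,
      (if G.m Fa x z ≤ 1 then G.pi4 x z - G.pi4 z x else 0) = 0 := by
    apply swap11
    intro x z
    rw [m_comm76 z x]
    split_ifs <;> ring
  have hz : ∀ z ∈ R Fa, G.ch4 Fa z = (2 * G.a4 z - ∑ B ∈ G.I Fa z,
      (G.a4 z + G.c4 z * ((G.d z B : ℤ) - (G.d z (G.Co B) : ℤ)))) +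
      ∑ x ∈ G.nR Fa z, (if G.m Fa x z ≤ 1 then G.pi4 x z - G.pi4 z x else 0) := by
    intro z hz
    rw [sum_add_distrib, ← mul_sum, sum_d11 h hz, sum_const, nsmul_eq_mul, ch4]
    ring
  rw [sum_congr rfl hz, sum_add_distrib, h3, add_zero, sum_sub_distrib, ← h2, hP, h1]
  ring

theorem sum_a4_11 (G : CG V) (S : Finset V) :
    ∑ v ∈ S, 2 * G.a4 v = 16 * (G.l S : ℤ) - 4 * (S.card : ℤ) := by
  have h1 : ∀ v ∈ S, 2 * G.a4 v = 16 * (if G.Low v then 1 else 0) - 4 := by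
    intro v _
    rw [a4]
    split_ifs <;> ring
  rw [sum_congr rfl h1, sum_sub_distrib, ← mul_sum, l, card_filter]
  push_cast
  rw [sum_const, nsmul_eq_mul]
  ring

theorem part11 (G : CG V) (F : Finset V) (f : V → ℤ) :
    ∑ v, f v = ∑ v ∈ F, f v + ∑ v ∈ G.N F, f v + ∑ v ∈ G.Co F, f v := by
  have h2 : Disjoint (F ∪ G.N F) (G.Co F) := by
    rw [Co]
    exact disjoint_compl_right
  have h3 : Disjoint F (G.N F) := by
    rw [disjoint_right]
    intro v hv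
    exact (mem_N76.1 hv).1
  rw [← sum_union h3, ← sum_union h2]
  congr 1
  rw [Co, union_compl]

theorem stPsumU_11 (G : CG V) : G.StPsumU := by
  intro F hF
  have h0 : ∑ v : V, 2 * G.a4 v = 16 * (G.l univ : ℤ) - 4 * (Fintype.card V : ℤ) :=
    G.sum_a4_11 univ
  refine ⟨?_, h0⟩
  obtain ⟨h1, h2, h3⟩ := G.stCo_37 F hF
  rw [P4, P4, h2, h3, ← h0, G.part11 F]
  have h4 : ∑ w ∈ G.N F, (G.a4 w + G.c4 w * ((G.d w F : ℤ) - (G.d w (G.Co F) : ℤ))) +
      ∑ w ∈ G.N F, (G.a4 w + G.c4 w * ((G.d w (G.Co F) : ℤ) - (G.d w F : ℤ))) =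
      ∑ w ∈ G.N F, 2 * G.a4 w := by
    rw [← sum_add_distrib]
    exact sum_congr rfl fun w _ => by ring
  linarith

theorem tw_not_low11 {G : CG V} {w : V} (h : G.IsTw w) : ¬ G.Low w := by
  obtain ⟨v, hv⟩ := h
  intro h1
  have h2 : (G.nb w).card = 7 := hv.2.1
  have h3 : (G.nb w).card = 6 := h1
  omega

theorem tw_card11 {G : CG V} {w : V} (h : G.IsTw w) : (G.nb w).card = 7 := by
  obtain ⟨v, hv⟩ := h
  exact hv.2.1

theorem stP4_11 (G : CG V) : G.StP4 := by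
  classical
  intro F hF
  rw [P4, sum_a4_11]
  have h6 : (G.N F).card = 6 := hF.2.1
  have h1 : ∀ w ∈ G.N F, G.a4 w + G.c4 w * ((G.d w F : ℤ) - (G.d w (G.Co F) : ℤ)) =
      -2 + (if G.Low w then (4 * (G.d w F : ℤ) + 2 * (G.d w (G.N F) : ℤ) - 4) else 0) +
        (if G.IsTw w then (2 * (G.d w F : ℤ) + (G.d w (G.N F) : ℤ) - 7) else 0) := by
    intro w _
    have h2 := d_split76 (G := G) w F
    have h3 : (G.nb w ∩ G.N F).card = G.d w (G.N F) := rfl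
    rw [h3] at h2
    rw [a4, c4]
    by_cases hl : G.Low w
    · have ht : ¬ G.IsTw w := fun h => tw_not_low11 h hl
      rw [if_pos hl, if_pos hl, if_pos hl, if_neg ht]
      have h4 : (G.nb w).card = 6 := hl
      omega
    · by_cases ht : G.IsTw w
      · rw [if_neg hl, if_neg hl, if_neg hl, if_pos ht, if_pos ht]
        have h4 := tw_card11 ht
        omega
      · rw [if_neg hl, if_neg hl, if_neg hl, if_neg ht, if_neg ht]
        ring
  rw [sum_congr rfl h1, sum_add_distrib, sum_add_distrib, sum_const, h6, ← sum_filter,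
    ← sum_filter]
  have h7 : ∀ p : V → Prop, ∀ i1 i2 : DecidablePred p, ∀ f : V → ℤ,
      ∑ w ∈ @Finset.filter V p i1 (G.N F), f w = ∑ w ∈ @Finset.filter V p i2 (G.N F), f w := by
    intro p i1 i2 f
    congr
  simp only [nsmul_eq_mul]
  push_cast
  rw [h7 (fun w => G.IsTw w) _ (fun a => Classical.propDecidable _)]
  ring

end CG

end Pool.Agent.Lib.MP_e95c01_co.N
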