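import Pool.Agent.Lib.MP_e95c01_co.U.Defs37
import Pool.Agent.Lib.MP_e95c01_co.N.Charge76

/-!
# U12: nobody pays too much
-/

namespace Pool.Agent.Lib.MP_e95c01_co.N

open Finset

variable {V : Type} [Fintype V] [DecidableEq V]

namespace CG

namespace Cap26

variable {G : CG V} {Fa : Finset (Finset V)}

theorem mem_cl {v x : V} : x ∈ G.cl v ↔ x = v ∨ x ∈ G.nb v := by
  unfold cl
  rw [mem_insert]

theorem nb_ne {v x : V} (h : x ∈ G.nb v) : x ≠ v := by
  rintro rfl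
  exact G.irr _ h

theorem nb_ne' {v x : V} (h : x ∈ G.nb v) : v ≠ x := (nb_ne h).symm

theorem tw_iff {v w x : V} (h : G.Tw v w) (h1 : x ≠ v) (h2 : x ≠ w) :
    x ∈ G.nb v ↔ x ∈ G.nb w := by
  have h3 : x ∈ G.cl v ↔ x ∈ G.cl w := by rw [h.2.2]
  rw [mem_cl, mem_cl] at h3
  tauto

theorem tw_low {v w : V} (h : G.Tw v w) : ¬ G.Low v := by
  intro h1
  have h2 := h.2.1
  have h3 : (G.nb v).card = 6 := h1
  omega

theorem istw_low {v : V} (h : G.IsTw v) : ¬ G.Low v := by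
  obtain ⟨w, hw⟩ := h
  exact tw_low hw

omit [Fintype V] in
/-- distinct elements -/
theorem len_le {s : Finset V} {l : List V} (h : l.Nodup) (hs : ∀ x ∈ l, x ∈ s) :
    l.length ≤ s.card := by
  rw [← List.toFinset_card_of_nodup h]
  exact card_le_card fun x hx => hs x (List.mem_toFinset.1 hx)

theorem nbR {v x : V} (hv : v ∈ R Fa) (hI : G.I Fa v = ∅) (hx : x ∈ G.nb v) : x ∈ R Fa := by
  rw [mem_R76]
  intro B hB hxB
  have := I_of_nb76 hv hB hx hxB
  rw [hI] at this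
  exact absurd this (notMem_empty _)

theorem hidden {v : V} {B : Finset V} (hB : B ∈ G.I Fa v) : ∃ h ∈ G.nb v, h ∈ B ∧ h ∉ R Fa := by
  have h1 := (mem_I76.1 hB)
  have h2 := d_pos76 h1.2
  unfold d at h2
  rw [Nat.one_le_iff_ne_zero, ← Nat.pos_iff_ne_zero, card_pos] at h2
  obtain ⟨h, hh⟩ := h2
  rw [mem_inter] at hh
  refine ⟨h, hh.1, hh.2, fun h3 => ?_⟩
  exact mem_R76.1 h3 B h1.1 hh.2

theorem m_left {v x : V} (hI : G.I Fa v = ∅) : G.m Fa v x = 0 := by
  unfold m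
  rw [hI, empty_inter, card_empty]

theorem m_right {v x : V} (hI : G.I Fa v = ∅) : G.m Fa x v = 0 := by
  unfold m
  rw [hI, inter_empty, card_empty]

/-- the context of a needy twin vertex -/
structure Ctx (G : CG V) (Fa : Finset (Finset V)) (v v' : V) : Prop where
  t : G.TorsoU Fa
  e : G.Exp0 Fa
  h7 : G.StTwHL
  tw : G.Tw v v'
  vR : v ∈ R Fa
  vI : G.I Fa v = ∅
  le : 3 * G.tl Fa v + G.tt Fa v ≤ 9

theorem ctx_of {v : V} (t : G.TorsoU Fa) (e : G.Exp0 Fa) (h7 : G.StTwHL) (h6 : G.StCh4)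
    (hv : G.Needy Fa v) : ∃ v', Ctx G Fa v v' := by
  obtain ⟨h1, h2, h3, h4⟩ := hv
  obtain ⟨v', hv'⟩ := h2
  refine ⟨v', t, e, h7, hv', h1, h3, ?_⟩
  have h5 := ((h6 t.n9 Fa t.reg v h1).2.1 ⟨v', hv'⟩).1 h3
  rw [h5] at h4
  omega

variable {v v' : V}

namespace Ctx

theorem nR_eq (c : Ctx G Fa v v') : G.nR Fa v = G.nb v := by
  unfold nR
  rw [inter_eq_left]
  intro x hx
  exact nbR c.vR c.vI hx

theorem card_nb (c : Ctx G Fa v v') : (G.nb v).card = 7 := c.tw.2.1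

theorem mem' (c : Ctx G Fa v v') : v' ∈ G.nb v := c.tw.1

/-- adjacency to the mate -/
theorem adj' (c : Ctx G Fa v v') {x : V} (hx : x ∈ G.nb v) (hne : x ≠ v') : v' ∈ G.nb x :=
  G.sym _ _ ((tw_iff c.tw (nb_ne hx) hne).1 hx)

/-- mates of the twin neighbours -/
theorem mate (c : Ctx G Fa v v') {x x' : V} (hx : x ∈ G.nb v) (hne : x ≠ v') (hT : G.Tw x x') :
    x' ∈ G.nb v ∧ x' ≠ v' ∧ x' ≠ v ∧ x' ≠ x := by
  have h1 : x' ≠ v := by
    rintro rfl
    exact hne (c.h7.uniq c.t.n9 _ _ _ c.tw (c.h7.symm _ _ hT)).symm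
  have h2 : x' ≠ v' := by
    rintro rfl
    have := c.h7.uniq c.t.n9 _ _ _ (c.h7.symm _ _ hT) (c.h7.symm _ _ c.tw)
    exact nb_ne hx this
  have h3 : v ∈ G.nb x := G.sym _ _ hx
  exact ⟨G.sym _ _ ((tw_iff hT (nb_ne' hx) h1.symm).1 h3), h2, h1, nb_ne hT.1⟩

/-- domination -/
theorem dom (c : Ctx G Fa v v') {u : V} (hu : u ∈ G.nb v) (hne : u ≠ v') :
    (∃ w, G.Low w ∧ w ∈ G.nb v ∧ u ∈ G.nb w) ∨
    (∃ a b, G.Tw a b ∧ a ∈ G.nb v ∧ b ∈ G.nb v ∧ a ≠ v' ∧ b ≠ v' ∧ u ∈ G.nb a ∧ u ≠ b) ∨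
    (G.Low u ∧ ∃ a b, a ∈ G.nb v ∧ b ∈ G.nb v ∧ G.Low b ∧ G.HL a b u) := by
  have h1 := c.t.cov v c.vR u (nbR c.vR c.vI hu) hu (m_left c.vI)
  rcases h1 with h1 | h1 | h1 | h1 | h1
  · obtain ⟨w, -, h2, h3, h4⟩ := h1
    exact Or.inl ⟨w, h2, G.sym _ _ h3, h4⟩
  · obtain ⟨a, -, b, -, h2, h3, h4, h5, h6⟩ := h1
    have h8 : a ∈ G.nb v := G.sym _ _ h3
    have h9 : a ≠ v' := by
      rintro rfl
      exact h5 (c.h7.uniq c.t.n9 _ _ _ (c.h7.symm _ _ c.tw) h2)
    obtain ⟨h10, h11, -, -⟩ := c.mate h8 h9 h2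
    exact Or.inr (Or.inl ⟨a, b, h2, h8, h10, h9, h11, h4, h6⟩)
  · obtain ⟨a, -, b, -, h2, -⟩ := h1
    exact absurd (c.t.sat _ _ _ h2) (tw_low c.tw)
  · obtain ⟨a, -, b, -, h2, h3, h4⟩ := h1
    refine Or.inr (Or.inr ⟨c.t.sat _ _ _ h2, a, b, ?_, G.sym _ _ h3, h2.2.1, h2⟩)
    have h5 : v ∈ G.cl a := by
      rw [h2.2.2.2.2, mem_insert]
      exact Or.inr (mem_cl.2 (Or.inr h3))
    exact G.sym _ _ ((mem_cl.1 h5).resolve_left h4)
  · obtain ⟨a, -, b, -, h2⟩ := h1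
    exact absurd ⟨v', c.tw⟩ (c.h7.twLL _ _ _ _ h2).1

/-- few common neighbours with a low vertex -/
theorem f1 (c : Ctx G Fa v v') {l : V} (hl : G.Low l) (hlv : l ∈ G.nb v) :
    (G.nb l ∩ G.nb v).card ≤ 4 := by
  rcases (G.I Fa l).eq_empty_or_nonempty with h0 | ⟨B, hB⟩
  · have := c.e.e4 l (nbR c.vR c.vI hlv) v c.vR h0 c.vI hl ⟨v', c.tw⟩ hlv
    omega
  · obtain ⟨h, h1, h2, h3⟩ := hidden hB
    have h4 : h ∉ G.nb v := fun h5 => h3 (nbR c.vR c.vI h5)
    have h5 : h ≠ v := by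
      rintro rfl
      exact h3 c.vR
    have h6 : insert v (insert h (G.nb l ∩ G.nb v)) ⊆ G.nb l := by
      intro y hy
      rw [mem_insert, mem_insert, mem_inter] at hy
      rcases hy with rfl | rfl | hy
      · exact G.sym _ _ hlv
      · exact h1
      · exact hy.1
    have h7 := card_le_card h6
    rw [card_insert_of_notMem, card_insert_of_notMem] at h7
    · have h8 : (G.nb l).card = 6 := hl
      omega
    · rw [mem_inter]
      exact fun h8 => h4 h8.2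
    · rw [mem_insert, mem_inter, not_or]
      exact ⟨h5.symm, fun h8 => G.irr _ h8.2⟩

/-- few common neighbours with a twin vertex -/
theorem f2 (c : Ctx G Fa v v') {p : V} (hp : G.IsTw p) (hpv : p ∈ G.nb v) (hne : p ≠ v') :
    (G.nb p ∩ G.nb v).card ≤ 4 ∧ ((G.nb p ∩ G.nb v).card = 4 → ∀ y ∈ G.nb p, y ∈ R Fa →
      y = v ∨ y ∈ G.nb v) := by
  have hnt : ¬ G.Tw v p := fun h => hne (c.h7.uniq c.t.n9 _ _ _ h c.tw)
  have hpR := nbR c.vR c.vI hpv
  obtain ⟨p', hp'⟩ := hp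
  rcases (G.I Fa p).eq_empty_or_nonempty with h0 | ⟨B, hB⟩
  · have := c.e.e5 p hpR v c.vR h0 c.vI ⟨p', hp'⟩ ⟨v', c.tw⟩ hpv hnt
    exact ⟨by omega, fun h => by omega⟩
  · have h1 := c.h7.hid Fa c.t.reg c.t.big p hpR ⟨p', hp'⟩ B hB
    unfold d at h1
    have hBF := (mem_I76.1 hB).1
    have h2 : Disjoint (G.nb p ∩ B) (G.nb p ∩ G.nb v) := by
      rw [disjoint_left]
      intro y hy hy'
      rw [mem_inter] at hy hy'
      exact mem_R76.1 (nbR c.vR c.vI hy'.2) B hBF hy.2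
    have h3 : v ∉ (G.nb p ∩ B) ∪ (G.nb p ∩ G.nb v) := by
      rw [mem_union, mem_inter, mem_inter]
      rintro (h | h)
      · exact mem_R76.1 c.vR B hBF h.2
      · exact G.irr _ h.2
    have h4 : insert v ((G.nb p ∩ B) ∪ (G.nb p ∩ G.nb v)) ⊆ G.nb p := by
      intro y hy
      rw [mem_insert, mem_union, mem_inter, mem_inter] at hy
      rcases hy with rfl | hy | hy
      · exact G.sym _ _ hpv
      · exact hy.1
      · exact hy.1
    have h5 := card_le_card h4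
    rw [card_insert_of_notMem h3, card_union_of_disjoint h2, hp'.2.1] at h5
    refine ⟨by omega, fun h6 y hy hyR => ?_⟩
    by_contra hcon
    rw [not_or] at hcon
    have h7 : y ∉ insert v ((G.nb p ∩ B) ∪ (G.nb p ∩ G.nb v)) := by
      rw [mem_insert, mem_union, mem_inter, mem_inter]
      rintro (h | h | h)
      · exact hcon.1 h
      · exact mem_R76.1 hyR B hBF h.2
      · exact hcon.2 h.2
    have h8 := card_le_card (insert_subset hy h4)
    rw [card_insert_of_notMem h7, card_insert_of_notMem h3, card_union_of_disjoint h2,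
      hp'.2.1] at h8
    omega

open Classical in
/-- the twin neighbours of `v` other than the mate -/
theorem mem_tt (c : Ctx G Fa v v') {x : V} (hx : x ∈ G.nb v) (hne : x ≠ v') (hT : G.IsTw x) :
    x ∈ (G.nR Fa v).filter fun x => G.IsTw x ∧ ¬ G.Tw v x := by
  rw [mem_filter, c.nR_eq]
  exact ⟨hx, hT, fun h => hne (c.h7.uniq c.t.n9 _ _ _ h c.tw)⟩

theorem low_one (c : Ctx G Fa v v') {l w : V} (h1 : G.tl Fa v = 1) (hl : G.Low l)
    (hlv : l ∈ G.nb v) (hw : G.Low w) (hwv : w ∈ G.nb v) : w = l := by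
  unfold tl at h1
  rw [c.nR_eq, card_eq_one] at h1
  obtain ⟨z, hz⟩ := h1
  have h2 : l ∈ (G.nb v).filter fun x => G.Low x := mem_filter.2 ⟨hlv, hl⟩
  have h3 : w ∈ (G.nb v).filter fun x => G.Low x := mem_filter.2 ⟨hwv, hw⟩
  rw [hz, mem_singleton] at h2 h3
  rw [h2, h3]

/-- two twin pairs `{p, p'}`, `{r, r'}` are different as soon as `p` is adjacent to `r` and is
not the mate of `r` -/
theorem pair_ne {G : CG V} (h7 : G.StTwHL) (h9 : 9 ≤ Fintype.card V) {p p' r r' : V}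
    (hp : G.Tw p p') (hr : G.Tw r r') (h : p ∈ G.nb r) (hne : p ≠ r') :
    p ≠ r ∧ p' ≠ r ∧ p' ≠ r' := by
  refine ⟨nb_ne h, ?_, ?_⟩
  · rintro rfl
    exact hne (h7.uniq h9 _ _ _ (h7.symm _ _ hp) hr)
  · rintro rfl
    exact nb_ne h (h7.uniq h9 _ _ _ (h7.symm _ _ hp) (h7.symm _ _ hr))

/-- the pair is adjacent as a whole -/
theorem tw_adj {G : CG V} {r r' x : V} (hr : G.Tw r r') (hx : x ∈ G.nb r) (hne : x ≠ r') :
    r ∈ G.nb x ∧ r' ∈ G.nb x ∧ x ∈ G.nb r' := by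
  have h1 := (tw_iff hr (nb_ne hx) hne).1 hx
  exact ⟨G.sym _ _ hx, G.sym _ _ h1, h1⟩

theorem no_zero (c : Ctx G Fa v v') (h0 : G.tl Fa v = 0) {p : V} (hp : G.IsTw p)
    (hpv : p ∈ G.nb v) (hne : p ≠ v') : False := by
  have hlow : ∀ w, G.Low w → w ∈ G.nb v → False := by
    intro w hw hwv
    unfold tl at h0
    rw [card_eq_zero, c.nR_eq] at h0
    have : w ∈ (G.nb v).filter fun x => G.Low x := mem_filter.2 ⟨hwv, hw⟩
    rw [h0] at this
    exact absurd this (notMem_empty _)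
  have hdom : ∀ u ∈ G.nb v, u ≠ v' → ∃ a b, G.Tw a b ∧ a ∈ G.nb v ∧ b ∈ G.nb v ∧ a ≠ v' ∧
      b ≠ v' ∧ u ∈ G.nb a ∧ u ≠ b := by
    intro u hu hun
    rcases c.dom hu hun with h | h | h
    · obtain ⟨w, h1, h2, -⟩ := h
      exact (hlow w h1 h2).elim
    · exact h
    · obtain ⟨-, a, b, -, h1, h2, -⟩ := h
      exact (hlow b h2 h1).elim
  obtain ⟨p', hp'⟩ := hp
  obtain ⟨m1, m2, m3, m4⟩ := c.mate hpv hne hp'
  obtain ⟨r, r', hr, r1, r2, r3, r4, r5, r6⟩ := hdom p hpv hne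
  obtain ⟨n1, n2, n3⟩ := pair_ne c.h7 c.t.n9 hp' hr r5 r6
  obtain ⟨a1, a2, a3⟩ := tw_adj hr r5 r6
  have hr' := nb_ne hr.1
  -- the common neighbours
  have key : ∀ {p p' r r' : V}, G.Tw p p' → G.Tw r r' → p ∈ G.nb v → p' ∈ G.nb v →
      r ∈ G.nb v → r' ∈ G.nb v → p ≠ v' → p' ≠ v' → r ≠ v' → r' ≠ v' → r ∈ G.nb p →
      r' ∈ G.nb p → p' ≠ r → p' ≠ r' → r ≠ r' → ∀ u ∈ G.nb p, u ∈ G.nb v → u ≠ v' → u ≠ p' →
      u ≠ r → u ≠ r' → False := by
    intro p p' r r' hp hr x1 x2 x3 x4 x5 x6 x7 x8 x9 x10 x11 x12 x13 u y1 y2 y3 y4 y5 y6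
    have h1 := (c.f2 ⟨p', hp⟩ x1 x5).1
    have h2 : 5 ≤ (G.nb p ∩ G.nb v).card := by
      refine len_le (l := [v', p', r, r', u]) ?_ ?_
      · simp only [List.nodup_cons, List.mem_cons, List.not_mem_nil, or_false, not_or,
          List.nodup_nil, and_true, not_false_eq_true]
        exact ⟨⟨x6.symm, x7.symm, x8.symm, y3.symm⟩, ⟨x11, x12, y4.symm⟩, ⟨x13, y5.symm⟩, y6.symm⟩
      · intro x hx
        simp only [List.mem_cons, List.not_mem_nil, or_false] at hx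
        rw [mem_inter]
        rcases hx with rfl | rfl | rfl | rfl | rfl
        · exact ⟨c.adj' x1 x5, c.mem'⟩
        · exact ⟨hp.1, x2⟩
        · exact ⟨x9, x3⟩
        · exact ⟨x10, x4⟩
        · exact ⟨y1, y2⟩
    omega
  have keyp := key hp' hr hpv m1 r1 r2 hne m2 r3 r4 a1 a2 n2 n3 hr'.symm
  have keyr := key hr hp' r1 r2 hpv m1 r3 r4 hne m2 r5
    (tw_adj hp' a1 n2.symm).2.1 (Ne.symm r6) n3.symm (Ne.symm m4)
  -- a fifth vertex
  obtain ⟨u, hu, hu2⟩ : ∃ u ∈ G.nb v, u ∉ ({v', p, p', r, r'} : Finset V) := by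
    by_contra hcon
    push Not at hcon
    have h1 := card_le_card (show G.nb v ⊆ {v', p, p', r, r'} from hcon)
    have h2 : ({v', p, p', r, r'} : Finset V).card ≤ 5 := card_le_five
    rw [c.card_nb] at h1
    omega
  simp only [mem_insert, mem_singleton, not_or] at hu2
  obtain ⟨u1, u2, u3, u4, u5⟩ := hu2
  obtain ⟨s, s', hs, s1, s2, s3, s4, s5, s6⟩ := hdom u hu u1
  have us := nb_ne s5
  have hsne := nb_ne hs.1
  -- `s` is in one of the two pairs
  by_cases e1 : s = p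
  · subst e1
    exact keyp u s5 hu u1 u3 u4 u5
  by_cases e2 : s = p'
  · subst e2
    exact keyp u ((tw_iff hp' u2 u3).2 s5) hu u1 u3 u4 u5
  by_cases e3 : s = r
  · subst e3
    exact keyr u s5 hu u1 u5 u2 u3
  by_cases e4 : s = r'
  · subst e4
    exact keyr u ((tw_iff hr u4 u5).2 s5) hu u1 u5 u2 u3
  have e5 : s' ≠ p := by
    rintro rfl
    exact e2 (c.h7.uniq c.t.n9 _ _ _ (c.h7.symm _ _ hs) hp')
  have e6 : s' ≠ p' := by
    rintro rfl
    exact e1 (c.h7.uniq c.t.n9 _ _ _ (c.h7.symm _ _ hs) (c.h7.symm _ _ hp'))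
  have e7 : s' ≠ r := by
    rintro rfl
    exact e4 (c.h7.uniq c.t.n9 _ _ _ (c.h7.symm _ _ hs) hr)
  have e8 : s' ≠ r' := by
    rintro rfl
    exact e3 (c.h7.uniq c.t.n9 _ _ _ (c.h7.symm _ _ hs) (c.h7.symm _ _ hr))
  have h8 : 8 ≤ (G.nb v).card := by
    refine len_le (l := [v', p, p', r, r', s, s', u]) ?_ ?_
    · simp only [List.nodup_cons, List.mem_cons, List.not_mem_nil, or_false, not_or,
        List.nodup_nil, and_true, not_false_eq_true]
      exact ⟨⟨hne.symm, m2.symm, r3.symm, r4.symm, s3.symm, s4.symm, Ne.symm u1⟩,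
        ⟨m4.symm, n1, r6, Ne.symm e1, e5.symm, Ne.symm u2⟩,
        ⟨n2, n3, Ne.symm e2, e6.symm, Ne.symm u3⟩, ⟨hr'.symm, Ne.symm e3, e7.symm, Ne.symm u4⟩,
        ⟨Ne.symm e4, e8.symm, Ne.symm u5⟩, ⟨hsne.symm, us.symm⟩, s6.symm⟩
    · intro x hx
      simp only [List.mem_cons, List.not_mem_nil, or_false] at hx
      rcases hx with rfl | rfl | rfl | rfl | rfl | rfl | rfl | rfl
      exacts [c.mem', hpv, m1, r1, r2, s1, s2, hu]
  rw [c.card_nb] at h8
  omega

theorem mate_ne {G : CG V} (h7 : G.StTwHL) (h9 : 9 ≤ Fintype.card V) {s s' r r' : V}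
    (hs : G.Tw s s') (hr : G.Tw r r') (h1 : s ≠ r) (h2 : s ≠ r') : s' ≠ r ∧ s' ≠ r' := by
  constructor
  · rintro rfl
    exact h2 (h7.uniq h9 _ _ _ (h7.symm _ _ hs) hr)
  · rintro rfl
    exact h1 (h7.uniq h9 _ _ _ (h7.symm _ _ hs) (h7.symm _ _ hr))

theorem no_one (c : Ctx G Fa v v') (h1 : G.tl Fa v = 1) : False := by
  obtain ⟨l, hl, hlv⟩ : ∃ l, G.Low l ∧ l ∈ G.nb v := by
    have h2 : 0 < G.tl Fa v := by omega
    unfold tl at h2
    rw [c.nR_eq, card_pos] at h2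
    obtain ⟨l, hl⟩ := h2
    rw [mem_filter] at hl
    exact ⟨l, hl.2, hl.1⟩
  have lone := fun w (hw : G.Low w) (hwv : w ∈ G.nb v) => c.low_one h1 hl hlv hw hwv
  have hlv' : l ≠ v' := by
    rintro rfl
    exact tw_low (c.h7.symm _ _ c.tw) hl
  -- the low vertex is dominated by a pair
  obtain ⟨r, r', hr, r1, r2, r3, r4, r5, r6⟩ : ∃ a b, G.Tw a b ∧ a ∈ G.nb v ∧ b ∈ G.nb v ∧
      a ≠ v' ∧ b ≠ v' ∧ l ∈ G.nb a ∧ l ≠ b := by
    rcases c.dom hlv hlv' with h | h | h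
    · obtain ⟨w, h2, h3, h4⟩ := h
      rw [lone w h2 h3] at h4
      exact absurd h4 (G.irr _)
    · exact h
    · obtain ⟨-, a, b, -, h2, h3, h4⟩ := h
      rw [lone b h3 h2] at h4
      exact absurd (mem_cl.2 (Or.inl rfl)) h4.2.2.2.1
  obtain ⟨a1, a2, a3⟩ := tw_adj hr r5 r6
  have hlr : l ≠ r := nb_ne r5
  have hr' := nb_ne hr.1
  have kl : ∀ s s', G.Tw s s' → s ∈ G.nb v → s' ∈ G.nb v → s ≠ v' → s' ≠ v' → s ≠ r → s ≠ r' →
      s ∈ G.nb l → False := by
    intro s s' hs x1 x2 x3 x4 x5 x6 x7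
    obtain ⟨x8, x9⟩ := mate_ne c.h7 c.t.n9 hs hr x5 x6
    have h2 := c.f1 hl hlv
    have h3 : s' ∈ G.nb l := by
      have : l ∈ G.nb s' := (tw_iff hs (fun h => tw_low hs (h ▸ hl))
        (fun h => tw_low (c.h7.symm _ _ hs) (h ▸ hl))).1 (G.sym _ _ x7)
      exact G.sym _ _ this
    have h4 : 5 ≤ (G.nb l ∩ G.nb v).card := by
      refine len_le (l := [v', r, r', s, s']) ?_ ?_
      · simp only [List.nodup_cons, List.mem_cons, List.not_mem_nil, or_false, not_or,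
          List.nodup_nil, and_true, not_false_eq_true]
        exact ⟨⟨r3.symm, r4.symm, x3.symm, x4.symm⟩, ⟨hr'.symm, x5.symm, x8.symm⟩,
          ⟨x6.symm, x9.symm⟩, (nb_ne hs.1).symm⟩
      · intro x hx
        simp only [List.mem_cons, List.not_mem_nil, or_false] at hx
        rw [mem_inter]
        rcases hx with rfl | rfl | rfl | rfl | rfl
        · exact ⟨c.adj' hlv hlv', c.mem'⟩
        · exact ⟨a1, r1⟩
        · exact ⟨a2, r2⟩
        · exact ⟨x7, x1⟩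
        · exact ⟨h3, x2⟩
    omega
  have kr : ∀ s s', G.Tw s s' → s ∈ G.nb v → s' ∈ G.nb v → s ≠ v' → s' ≠ v' → s ≠ r → s ≠ r' →
      s ∈ G.nb r → False := by
    intro s s' hs x1 x2 x3 x4 x5 x6 x7
    obtain ⟨x8, x9⟩ := mate_ne c.h7 c.t.n9 hs hr x5 x6
    have h2 := (c.f2 ⟨r', hr⟩ r1 r3).1
    have h3 : s' ∈ G.nb r := by
      have : r ∈ G.nb s' := (tw_iff hs x5.symm x8.symm).1 (G.sym _ _ x7)
      exact G.sym _ _ this
    have h4 : 5 ≤ (G.nb r ∩ G.nb v).card := by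
      refine len_le (l := [v', r', l, s, s']) ?_ ?_
      · simp only [List.nodup_cons, List.mem_cons, List.not_mem_nil, or_false, not_or,
          List.nodup_nil, and_true, not_false_eq_true]
        exact ⟨⟨r4.symm, hlv'.symm, x3.symm, x4.symm⟩, ⟨Ne.symm r6, x6.symm, x9.symm⟩,
          ⟨fun h => tw_low hs (h ▸ hl), fun h => tw_low (c.h7.symm _ _ hs) (h ▸ hl)⟩,
          (nb_ne hs.1).symm⟩
      · intro x hx
        simp only [List.mem_cons, List.not_mem_nil, or_false] at hx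
        rw [mem_inter]
        rcases hx with rfl | rfl | rfl | rfl | rfl
        · exact ⟨c.adj' r1 r3, c.mem'⟩
        · exact ⟨hr.1, r2⟩
        · exact ⟨r5, hlv⟩
        · exact ⟨x7, x1⟩
        · exact ⟨h3, x2⟩
    omega
  -- the other vertices
  set X : Finset V := G.nb v \ {v', l, r, r'} with hX
  have hXc : 3 ≤ X.card := by
    have h2 := le_card_sdiff ({v', l, r, r'} : Finset V) (G.nb v)
    have h3 : ({v', l, r, r'} : Finset V).card ≤ 4 := card_le_four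
    rw [c.card_nb, ← hX] at h2
    omega
  have memX : ∀ u ∈ X, u ∈ G.nb v ∧ u ≠ v' ∧ u ≠ l ∧ u ≠ r ∧ u ≠ r' := by
    intro u hu
    rw [hX, mem_sdiff] at hu
    simp only [mem_insert, mem_singleton, not_or] at hu
    exact hu
  have h2 : (X ∩ G.nb l).card ≤ 1 := by
    have h3 := c.f1 hl hlv
    have h4 : Disjoint (X ∩ G.nb l) {v', r, r'} := by
      rw [disjoint_left]
      intro u hu hu'
      obtain ⟨-, b1, b2, b3, b4⟩ := memX u (mem_inter.1 hu).1
      simp only [mem_insert, mem_singleton] at hu'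
      rcases hu' with h | h | h
      · exact b1 h
      · exact b3 h
      · exact b4 h
    have h5 : (X ∩ G.nb l) ∪ {v', r, r'} ⊆ G.nb l ∩ G.nb v := by
      intro u hu
      rw [mem_union, mem_inter] at hu
      simp only [mem_insert, mem_singleton] at hu
      rw [mem_inter]
      rcases hu with hu | rfl | rfl | rfl
      · exact ⟨hu.2, (memX u hu.1).1⟩
      · exact ⟨c.adj' hlv hlv', c.mem'⟩
      · exact ⟨a1, r1⟩
      · exact ⟨a2, r2⟩
    have h6 := card_le_card h5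
    rw [card_union_of_disjoint h4, card_eq_three.2 ⟨v', r, r', r3.symm, r4.symm, hr'.symm, rfl⟩]
      at h6
    omega
  have h3 : (X ∩ G.nb r).card ≤ 1 := by
    have h3 := (c.f2 ⟨r', hr⟩ r1 r3).1
    have h4 : Disjoint (X ∩ G.nb r) {v', r', l} := by
      rw [disjoint_left]
      intro u hu hu'
      obtain ⟨-, b1, b2, b3, b4⟩ := memX u (mem_inter.1 hu).1
      simp only [mem_insert, mem_singleton] at hu'
      rcases hu' with h | h | h
      · exact b1 h
      · exact b4 h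
      · exact b2 h
    have h5 : (X ∩ G.nb r) ∪ {v', r', l} ⊆ G.nb r ∩ G.nb v := by
      intro u hu
      rw [mem_union, mem_inter] at hu
      simp only [mem_insert, mem_singleton] at hu
      rw [mem_inter]
      rcases hu with hu | rfl | rfl | rfl
      · exact ⟨hu.2, (memX u hu.1).1⟩
      · exact ⟨c.adj' r1 r3, c.mem'⟩
      · exact ⟨hr.1, r2⟩
      · exact ⟨r5, hlv⟩
    have h6 := card_le_card h5
    rw [card_union_of_disjoint h4, card_eq_three.2 ⟨v', r', l, r4.symm, hlv'.symm, Ne.symm r6, rfl⟩]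
      at h6
    omega
  obtain ⟨u, hu, hul, hur⟩ : ∃ u ∈ X, u ∉ G.nb l ∧ u ∉ G.nb r := by
    by_contra hcon
    push Not at hcon
    have h4 : X ⊆ (X ∩ G.nb l) ∪ (X ∩ G.nb r) := by
      intro u hu
      rw [mem_union, mem_inter, mem_inter]
      by_cases h : u ∈ G.nb l
      · exact Or.inl ⟨hu, h⟩
      · exact Or.inr ⟨hu, hcon u hu h⟩
    have h5 := (card_le_card h4).trans (card_union_le _ _)
    omega
  obtain ⟨b0, b1, b2, b3, b4⟩ := memX u hu
  -- `u` is dominated by another pair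
  rcases c.dom b0 b1 with h | h | h
  · obtain ⟨w, g1, g2, g3⟩ := h
    rw [lone w g1 g2] at g3
    exact hul g3
  · obtain ⟨s, s', hs, s1, s2, s3, s4, s5, s6⟩ := h
    have e3 : s ≠ r := by
      rintro rfl
      exact hur s5
    have e4 : s ≠ r' := by
      rintro rfl
      exact hur ((tw_iff hr b3 b4).2 s5)
    obtain ⟨e7, e8⟩ := mate_ne c.h7 c.t.n9 hs hr e3 e4
    -- the pair `s` is dominated
    rcases c.dom s1 s3 with h | h | h
    · obtain ⟨w, g1, g2, g3⟩ := h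
      rw [lone w g1 g2] at g3
      exact kl s s' hs s1 s2 s3 s4 e3 e4 g3
    · obtain ⟨t, t', ht, t1, t2, t3, t4, t5, t6⟩ := h
      have f3 : t ≠ r := by
        rintro rfl
        exact kr s s' hs s1 s2 s3 s4 e3 e4 t5
      have f4 : t ≠ r' := by
        rintro rfl
        exact kr s s' hs s1 s2 s3 s4 e3 e4 ((tw_iff hr e3 e4).2 t5)
      obtain ⟨f7, f8⟩ := mate_ne c.h7 c.t.n9 ht hr f3 f4
      have f5 : t ≠ s := (nb_ne t5).symm
      have f6 : t ≠ s' := by
        rintro rfl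
        exact t6 (c.h7.uniq c.t.n9 _ _ _ (c.h7.symm _ _ hs) ht)
      obtain ⟨f9, f10⟩ := mate_ne c.h7 c.t.n9 ht hs f5 f6
      have h8 : 8 ≤ (G.nb v).card := by
        refine len_le (l := [v', l, r, r', s, s', t, t']) ?_ ?_
        · simp only [List.nodup_cons, List.mem_cons, List.not_mem_nil, or_false, not_or,
            List.nodup_nil, and_true, not_false_eq_true]
          exact ⟨⟨hlv'.symm, r3.symm, r4.symm, s3.symm, s4.symm, t3.symm, t4.symm⟩,
            ⟨hlr, r6, fun h => tw_low hs (h ▸ hl), fun h => tw_low (c.h7.symm _ _ hs) (h ▸ hl),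
              fun h => tw_low ht (h ▸ hl), fun h => tw_low (c.h7.symm _ _ ht) (h ▸ hl)⟩,
            ⟨hr'.symm, e3.symm, e7.symm, f3.symm, f7.symm⟩, ⟨e4.symm, e8.symm, f4.symm, f8.symm⟩,
            ⟨(nb_ne hs.1).symm, f5.symm, f9.symm⟩, ⟨f6.symm, f10.symm⟩, (nb_ne ht.1).symm⟩
        · intro x hx
          simp only [List.mem_cons, List.not_mem_nil, or_false] at hx
          rcases hx with rfl | rfl | rfl | rfl | rfl | rfl | rfl | rfl
          exacts [c.mem', hlv, r1, r2, s1, s2, t1, t2]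
      rw [c.card_nb] at h8
      omega
    · exact tw_low hs h.1
  · exact b2 (lone u h.1 b0)

open Classical in
/-- a needy twin vertex with a twin neighbour -/
theorem types (c : Ctx G Fa v v') {p p' : V} (hp : G.Tw p p') (hpv : p ∈ G.nb v) (hne : p ≠ v') :
    G.tl Fa v = 2 ∧ ∀ x ∈ G.nb v, x ≠ v' → G.IsTw x → x = p ∨ x = p' := by
  obtain ⟨m1, m2, m3, m4⟩ := c.mate hpv hne hp
  have hle := c.le
  have a1 := c.mem_tt hpv hne ⟨p', hp⟩
  have a2 := c.mem_tt m1 m2 ⟨p, c.h7.symm _ _ hp⟩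
  have h2 : 2 ≤ G.tt Fa v := by
    unfold tt
    refine len_le (l := [p, p']) ?_ ?_
    · simp only [List.nodup_cons, List.mem_cons, List.not_mem_nil, or_false, not_or,
        List.nodup_nil, and_true, not_false_eq_true]
      exact m4.symm
    · intro x hx
      simp only [List.mem_cons, List.not_mem_nil, or_false] at hx
      rcases hx with rfl | rfl
      · exact a1
      · exact a2
  have h3 : G.tl Fa v ≠ 0 := fun h => c.no_zero h ⟨p', hp⟩ hpv hne
  have h4 : G.tl Fa v ≠ 1 := fun h => c.no_one h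
  refine ⟨by omega, fun x hx hxv hxT => ?_⟩
  by_contra hcon
  rw [not_or] at hcon
  obtain ⟨x', hx'⟩ := hxT
  obtain ⟨n1, n2, n3, n4⟩ := c.mate hx hxv hx'
  obtain ⟨n5, n6⟩ := mate_ne c.h7 c.t.n9 hx' hp hcon.1 hcon.2
  have b1 := c.mem_tt hx hxv ⟨x', hx'⟩
  have b2 := c.mem_tt n1 n2 ⟨x, c.h7.symm _ _ hx'⟩
  have h5 : 4 ≤ G.tt Fa v := by
    unfold tt
    refine len_le (l := [p, p', x, x']) ?_ ?_
    · simp only [List.nodup_cons, List.mem_cons, List.not_mem_nil, or_false, not_or,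
        List.nodup_nil, and_true, not_false_eq_true]
      exact ⟨⟨m4.symm, Ne.symm hcon.1, n5.symm⟩, ⟨Ne.symm hcon.2, n6.symm⟩, n4.symm⟩
    · intro y hy
      simp only [List.mem_cons, List.not_mem_nil, or_false] at hy
      rcases hy with rfl | rfl | rfl | rfl
      exacts [a1, a2, b1, b2]
  omega

/-- the pair is dominated by a low vertex -/
theorem low_of (c : Ctx G Fa v v') {p p' : V} (hp : G.Tw p p') (hpv : p ∈ G.nb v)
    (hne : p ≠ v') : ∃ l, G.Low l ∧ l ∈ G.nb v ∧ p ∈ G.nb l := by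
  have ht := (c.types hp hpv hne).2
  rcases c.dom hpv hne with h | h | h
  · exact h
  · obtain ⟨a, b, hab, h1, h2, h3, h4, h5, h6⟩ := h
    rcases ht a h1 h3 ⟨b, hab⟩ with h7 | h7
    · rw [h7] at h5
      exact absurd h5 (G.irr _)
    · rw [h7] at hab
      exact absurd (c.h7.uniq c.t.n9 _ _ _ (c.h7.symm _ _ hp) hab) h6
  · exact absurd h.1 (tw_low hp)

/-- the two low vertices -/
theorem lows (c : Ctx G Fa v v') (h2 : G.tl Fa v = 2) {l : V} (hl : G.Low l) (hlv : l ∈ G.nb v) :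
    ∃ l2, l2 ≠ l ∧ G.Low l2 ∧ l2 ∈ G.nb v ∧ ∀ w, G.Low w → w ∈ G.nb v → w = l ∨ w = l2 := by
  unfold tl at h2
  rw [c.nR_eq] at h2
  have h3 : l ∈ (G.nb v).filter fun x => G.Low x := mem_filter.2 ⟨hlv, hl⟩
  have h4 : (((G.nb v).filter fun x => G.Low x).erase l).card = 1 := by
    rw [card_erase_of_mem h3, h2]
  rw [card_eq_one] at h4
  obtain ⟨l2, h5⟩ := h4
  have h6 : l2 ∈ ((G.nb v).filter fun x => G.Low x).erase l := by
    rw [h5]
    exact mem_singleton_self _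
  rw [mem_erase, mem_filter] at h6
  refine ⟨l2, h6.1, h6.2.2, h6.2.1, fun w hw hwv => ?_⟩
  by_cases h7 : w = l
  · exact Or.inl h7
  · have h8 : w ∈ ((G.nb v).filter fun x => G.Low x).erase l :=
      mem_erase.2 ⟨h7, mem_filter.2 ⟨hwv, hw⟩⟩
    rw [h5, mem_singleton] at h8
    exact Or.inr h8

/-- common neighbours of two needy vertices -/
theorem comm {q q' : V} (c : Ctx G Fa v v') (c2 : Ctx G Fa q q') (hq : q ∈ G.nb v)
    (hne : q ≠ v') {l : V} (hl : G.Low l) (hlv : l ∈ G.nb v) (hql : q ∈ G.nb l) :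
    ∀ x ∈ G.nb q, x ∈ G.nb v → x = v' ∨ x = q' ∨ x = l := by
  obtain ⟨m1, m2, m3, m4⟩ := c.mate hq hne c2.tw
  have hnt : ¬ G.Tw v q := fun h => hne (c.h7.uniq c.t.n9 _ _ _ h c.tw)
  have h1 := c.e.e5 q c2.vR v c.vR c2.vI c.vI ⟨q', c2.tw⟩ ⟨v', c.tw⟩ hq hnt
  intro x hx hxv
  by_contra hcon
  rw [not_or, not_or] at hcon
  obtain ⟨x1, x2, x3⟩ := hcon
  have h4 : 4 ≤ (G.nb q ∩ G.nb v).card := by
    refine len_le (l := [v', q', l, x]) ?_ ?_
    · simp only [List.nodup_cons, List.mem_cons, List.not_mem_nil, or_false, not_or,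
        List.nodup_nil, and_true, not_false_eq_true]
      exact ⟨⟨m2.symm, fun h => tw_low (c.h7.symm _ _ c.tw) (h ▸ hl), Ne.symm x1⟩,
        ⟨fun h => tw_low (c.h7.symm _ _ c2.tw) (h ▸ hl), Ne.symm x2⟩, Ne.symm x3⟩
    · intro y hy
      simp only [List.mem_cons, List.not_mem_nil, or_false] at hy
      rw [mem_inter]
      rcases hy with rfl | rfl | rfl | rfl
      · exact ⟨c.adj' hq hne, c.mem'⟩
      · exact ⟨c2.tw.1, m1⟩
      · exact ⟨G.sym _ _ hql, hlv⟩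
      · exact ⟨hx, hxv⟩
  omega

/-- the other low vertex is adjacent to `l` -/
theorem other {q q' : V} (c : Ctx G Fa v v') (c2 : Ctx G Fa q q') (hq : q ∈ G.nb v)
    (hne : q ≠ v') {l : V} (hl : G.Low l) (hlv : l ∈ G.nb v) (hql : q ∈ G.nb l) :
    ∃ l2, l2 ≠ l ∧ G.Low l2 ∧ l2 ∈ G.nb v ∧ l2 ∈ G.nb l := by
  obtain ⟨h2, h3⟩ := c.types c2.tw hq hne
  obtain ⟨l2, k1, k2, k3, k4⟩ := c.lows h2 hl hlv
  have hc := c.comm c2 hq hne hl hlv hql
  refine ⟨l2, k1, k2, k3, ?_⟩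
  have k5 : l2 ≠ v' := by
    rintro rfl
    exact tw_low (c.h7.symm _ _ c.tw) k2
  have k6 : l2 ≠ q' := by
    rintro rfl
    exact tw_low (c.h7.symm _ _ c2.tw) k2
  have k7 : l2 ≠ q := by
    rintro rfl
    exact tw_low c2.tw k2
  rcases c.dom k3 k5 with h | h | h
  · obtain ⟨w, g1, g2, g3⟩ := h
    rcases k4 w g1 g2 with rfl | rfl
    · exact g3
    · exact absurd g3 (G.irr _)
  · exfalso
    obtain ⟨a, b, hab, g1, g2, g3, g4, g5, g6⟩ := h
    have g7 : l2 ∈ G.nb q := by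
      rcases h3 a g1 g3 ⟨b, hab⟩ with g8 | g8
      · rw [← g8]
        exact g5
      · rw [g8] at g5
        exact (tw_iff c2.tw k7 k6).2 g5
    rcases hc l2 g7 k3 with h | h | h
    · exact k5 h
    · exact k6 h
    · exact k1 h
  · exfalso
    obtain ⟨-, a, b, g1, g2, g3, g4⟩ := h
    have g5 : b = l := by
      rcases k4 b g3 g2 with h | h
      · exact h
      · rw [h] at g4
        exact absurd (mem_cl.2 (Or.inl rfl)) g4.2.2.2.1
    rw [g5] at g4
    have g6 : ¬ G.IsTw a := c.h7.notHL c.t.n9 _ _ _ g4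
    have g7 : q ∈ G.cl a := by
      rw [g4.2.2.2.2, mem_insert]
      exact Or.inr (mem_cl.2 (Or.inr hql))
    have g8 : q ≠ a := by
      rintro rfl
      exact g6 ⟨q', c2.tw⟩
    have g9 : a ∈ G.nb q := G.sym _ _ ((mem_cl.1 g7).resolve_left g8)
    rcases hc a g9 g1 with h | h | h
    · exact g6 ⟨v, h ▸ c.h7.symm _ _ c.tw⟩
    · exact g6 ⟨q, h ▸ c.h7.symm _ _ c2.tw⟩
    · have e1 := g4.1
      have e2 : (G.nb l).card = 6 := hl
      rw [h] at e1
      omega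

/-- two needy vertices of different pairs are not adjacent -/
theorem P {q q' : V} (c : Ctx G Fa v v') (c2 : Ctx G Fa q q') (hq : q ∈ G.nb v)
    (hne : q ≠ v') : False := by
  obtain ⟨l, hl, hlv, hql⟩ := c.low_of c2.tw hq hne
  obtain ⟨m1, m2, m3, m4⟩ := c.mate hq hne c2.tw
  have hvq : v ∈ G.nb q := G.sym _ _ hq
  obtain ⟨l2, k1, k2, k3, k4⟩ := c.other c2 hq hne hl hlv hql
  obtain ⟨j2, i1, i2, i3, i4⟩ := c2.other c hvq m3.symm hl (G.sym _ _ hql) (G.sym _ _ hlv)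
  have hc := c.comm c2 hq hne hl hlv hql
  have z1 : l2 ≠ j2 := by
    rintro rfl
    rcases hc l2 i3 k3 with h | h | h
    · exact tw_low (c.h7.symm _ _ c.tw) (h ▸ k2)
    · exact tw_low (c.h7.symm _ _ c2.tw) (h ▸ k2)
    · exact k1 h
  have nl : ∀ {a b x : V}, G.Tw a b → G.Low x → a ≠ x := by
    rintro a b x hab hx rfl
    exact tw_low hab hx
  have tv := c.tw
  have tv' := c.h7.symm _ _ c.tw
  have tq := c2.tw
  have tq' := c.h7.symm _ _ c2.tw
  have lv' : l ≠ v' := (nl tv' hl).symm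
  have y1 : v' ∈ G.nb l := c.adj' hlv lv'
  have y2 : q' ∈ G.nb l := G.sym _ _ ((tw_iff tq (nl tq hl).symm (nl tq' hl).symm).1 (G.sym _ _ hql))
  have hlR : l ∈ R Fa := nbR c.vR c.vI hlv
  -- all neighbours of `l` are outside of the family
  have hI : G.I Fa l = ∅ := by
    by_contra hcon
    obtain ⟨B, hB⟩ := nonempty_iff_ne_empty.2 hcon
    obtain ⟨h, h1, h2, h3⟩ := hidden hB
    have hh : ∀ x ∈ R Fa, x ≠ h := by
      rintro x hx rfl
      exact h3 hx
    have h7 : 7 ≤ (G.nb l).card := by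
      refine len_le (l := [v, v', q, q', l2, j2, h]) ?_ ?_
      · simp only [List.nodup_cons, List.mem_cons, List.not_mem_nil, or_false, not_or,
          List.nodup_nil, and_true, not_false_eq_true]
        exact ⟨⟨(nb_ne c.mem').symm, (nb_ne hq).symm, m3.symm, nl tv k2, nl tv i2, hh _ c.vR⟩,
          ⟨hne.symm, m2.symm, nl tv' k2, nl tv' i2, hh _ (nbR c.vR c.vI c.mem')⟩,
          ⟨m4.symm, nl tq k2, nl tq i2, hh _ c2.vR⟩,
          ⟨nl tq' k2, nl tq' i2, hh _ (nbR c.vR c.vI m1)⟩,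
          ⟨z1, hh _ (nbR c.vR c.vI k3)⟩, hh _ (nbR c2.vR c2.vI i3)⟩
      · intro y hy
        simp only [List.mem_cons, List.not_mem_nil, or_false] at hy
        rcases hy with rfl | rfl | rfl | rfl | rfl | rfl | rfl
        exacts [G.sym _ _ hlv, y1, hql, y2, k4, i4, h1]
    have h8 : (G.nb l).card = 6 := hl
    omega
  have h4 := c.e.e4 l hlR v c.vR hI c.vI hl ⟨v', tv⟩ hlv
  have h5 : 4 ≤ (G.nb l ∩ G.nb v).card := by
    refine len_le (l := [v', q, q', l2]) ?_ ?_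
    · simp only [List.nodup_cons, List.mem_cons, List.not_mem_nil, or_false, not_or,
        List.nodup_nil, and_true, not_false_eq_true]
      exact ⟨⟨hne.symm, m2.symm, nl tv' k2⟩, ⟨m4.symm, nl tq k2⟩, nl tq' k2⟩
    · intro y hy
      simp only [List.mem_cons, List.not_mem_nil, or_false] at hy
      rw [mem_inter]
      rcases hy with rfl | rfl | rfl | rfl
      exacts [⟨y1, c.mem'⟩, ⟨hql, hq⟩, ⟨y2, m1⟩, ⟨k4, k3⟩]
  omega

/-- a hub adjacent to `v` and to a twin neighbour of `v` -/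
theorem hubq (c : Ctx G Fa v v') {x q q' : V} (hx : G.Hub x) (hxv : x ∈ G.nb v)
    (hqv : q ∈ G.nb v) (hqx : q ∈ G.nb x) (hq : G.Tw q q') (hne : q ≠ v') :
    (∀ y ∈ G.nb q, y ∈ R Fa → y = v ∨ y ∈ G.nb v) ∧
    (∀ y ∈ G.nb q, y ∈ R Fa → G.IsTw y → y = v ∨ y = v' ∨ y = q') ∧
    ((G.nb v).filter fun y => y ≠ v' ∧ ¬ G.Low y ∧ y ≠ q ∧ y ≠ q' ∧ y ≠ x).card ≤ 1 := by
  obtain ⟨m1, m2, m3, m4⟩ := c.mate hqv hne hq
  obtain ⟨l, hl, hlv, hql⟩ := c.low_of hq hqv hne
  obtain ⟨h2, h3⟩ := c.types hq hqv hne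
  obtain ⟨l2, k1, k2, k3, k4⟩ := c.lows h2 hl hlv
  have tv' := c.h7.symm _ _ c.tw
  have tq' := c.h7.symm _ _ hq
  have nl : ∀ {a b x : V}, G.Tw a b → G.Low x → a ≠ x := by
    rintro a b x hab hx rfl
    exact tw_low hab hx
  have xt : ∀ {a b : V}, G.Tw a b → a ≠ x := by
    rintro a b hab rfl
    exact hx.2 ⟨b, hab⟩
  have xl : ∀ {w : V}, G.Low w → w ≠ x := by
    rintro w hw rfl
    exact hx.1 hw
  have hf := c.f2 ⟨q', hq⟩ hqv hne
  have sub : ∀ y ∈ ([v', q', l, x] : List V), y ∈ G.nb q ∩ G.nb v := by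
    intro y hy
    simp only [List.mem_cons, List.not_mem_nil, or_false] at hy
    rw [mem_inter]
    rcases hy with rfl | rfl | rfl | rfl
    exacts [⟨c.adj' hqv hne, c.mem'⟩, ⟨hq.1, m1⟩, ⟨G.sym _ _ hql, hlv⟩, ⟨G.sym _ _ hqx, hxv⟩]
  have nd : ([v', q', l, x] : List V).Nodup := by
    simp only [List.nodup_cons, List.mem_cons, List.not_mem_nil, or_false, not_or,
      List.nodup_nil, and_true, not_false_eq_true]
    exact ⟨⟨m2.symm, nl tv' hl, xt tv'⟩, ⟨nl tq' hl, xt tq'⟩, xl hl⟩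
  have h4 : 4 ≤ (G.nb q ∩ G.nb v).card := len_le nd sub
  have h5 : (G.nb q ∩ G.nb v).card = 4 := by omega
  refine ⟨hf.2 h5, fun y hy hyR hyT => ?_, ?_⟩
  · rcases hf.2 h5 y hy hyR with h | h
    · exact Or.inl h
    · by_cases h6 : y = v'
      · exact Or.inr (Or.inl h6)
      · rcases h3 y h h6 hyT with h7 | h7
        · rw [h7] at hy
          exact absurd hy (G.irr _)
        · exact Or.inr (Or.inr h7)
  · have h6 : Disjoint ((G.nb v).filter fun y => y ≠ v' ∧ ¬ G.Low y ∧ y ≠ q ∧ y ≠ q' ∧ y ≠ x)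
        ([v', q, q', l, l2, x] : List V).toFinset := by
      rw [disjoint_left]
      intro y hy hy'
      rw [mem_filter] at hy
      obtain ⟨-, g1, g2, g3, g4, g5⟩ := hy
      rw [List.mem_toFinset] at hy'
      simp only [List.mem_cons, List.not_mem_nil, or_false] at hy'
      rcases hy' with h | h | h | h | h | h
      · exact g1 h
      · exact g3 h
      · exact g4 h
      · exact g2 (h ▸ hl)
      · exact g2 (h ▸ k2)
      · exact g5 h
    have h7 : ((G.nb v).filter fun y => y ≠ v' ∧ ¬ G.Low y ∧ y ≠ q ∧ y ≠ q' ∧ y ≠ x) ∪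
        ([v', q, q', l, l2, x] : List V).toFinset ⊆ G.nb v := by
      intro y hy
      rw [mem_union, mem_filter, List.mem_toFinset] at hy
      simp only [List.mem_cons, List.not_mem_nil, or_false] at hy
      rcases hy with h | rfl | rfl | rfl | rfl | rfl | rfl
      exacts [h.1, c.mem', hqv, m1, hlv, k3, hxv]
    have h8 := card_le_card h7
    rw [card_union_of_disjoint h6, List.toFinset_card_of_nodup, c.card_nb] at h8
    · simp only [List.length_cons, List.length_nil] at h8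
      omega
    · simp only [List.nodup_cons, List.mem_cons, List.not_mem_nil, or_false, not_or,
        List.nodup_nil, and_true, not_false_eq_true]
      exact ⟨⟨hne.symm, m2.symm, nl tv' hl, nl tv' k2, xt tv'⟩,
        ⟨m4.symm, nl hq hl, nl hq k2, xt hq⟩, ⟨nl tq' hl, nl tq' k2, xt tq'⟩,
        ⟨k1.symm, xl hl⟩, xl k2⟩

end Ctx

open Classical in
/-- the mate of a needy vertex is needy -/
theorem needy_mate {G : CG V} {Fa : Finset (Finset V)} {v v' : V} (t : G.TorsoU Fa)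
    (h7 : G.StTwHL) (h6 : G.StCh4) (hT : G.Tw v v') (hv : G.Needy Fa v) : G.Needy Fa v' := by
  obtain ⟨h1, h2, h3, h4⟩ := hv
  have hT' := h7.symm _ _ hT
  obtain ⟨h5, h8⟩ := h7.twI Fa t.reg v h1 v' hT
  have h9 : G.I Fa v' = ∅ := by rw [h8, h3]
  refine ⟨h5, ⟨v, hT'⟩, h9, ?_⟩
  have e1 := ((h6 t.n9 Fa t.reg v h1).2.1 h2).1 h3
  have e2 := ((h6 t.n9 Fa t.reg v' h5).2.1 ⟨v, hT'⟩).1 h9
  have n1 : G.nR Fa v = G.nb v := by
    unfold nR
    rw [inter_eq_left]
    exact fun x hx => nbR h1 h3 hx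
  have n2 : G.nR Fa v' = G.nb v' := by
    unfold nR
    rw [inter_eq_left]
    exact fun x hx => nbR h5 h9 hx
  have e3 : G.tl Fa v' = G.tl Fa v := by
    unfold tl
    rw [n1, n2]
    congr 1
    ext x
    rw [mem_filter, mem_filter]
    constructor
    · rintro ⟨h, hl⟩
      exact ⟨(tw_iff hT' (fun e => tw_low hT' (e ▸ hl)) (fun e => tw_low hT (e ▸ hl))).1 h, hl⟩
    · rintro ⟨h, hl⟩
      exact ⟨(tw_iff hT (fun e => tw_low hT (e ▸ hl)) (fun e => tw_low hT' (e ▸ hl))).1 h, hl⟩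
  have e4 : G.tt Fa v' = G.tt Fa v := by
    unfold tt
    rw [n1, n2]
    congr 1
    ext x
    rw [mem_filter, mem_filter]
    constructor
    · rintro ⟨h, hl, hn⟩
      have g1 : x ≠ v := by
        rintro rfl
        exact hn hT'
      have g2 : x ≠ v' := nb_ne h
      refine ⟨(tw_iff hT' g2 g1).1 h, hl, fun e => g2 (h7.uniq t.n9 _ _ _ e hT)⟩
    · rintro ⟨h, hl, hn⟩
      have g1 : x ≠ v' := by
        rintro rfl
        exact hn hT
      have g2 : x ≠ v := nb_ne h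
      refine ⟨(tw_iff hT g2 g1).1 h, hl, fun e => g2 (h7.uniq t.n9 _ _ _ e hT')⟩
  rw [e2, e3, e4, ← e1]
  exact h4

/-- `(P)` for needy vertices -/
theorem PP {G : CG V} {Fa : Finset (Finset V)} {v q v' : V} (t : G.TorsoU Fa) (e : G.Exp0 Fa)
    (h7 : G.StTwHL) (h6 : G.StCh4) (hv : G.Needy Fa v) (hq : G.Needy Fa q) (hT : G.Tw v v')
    (hqv : q ∈ G.nb v) (hne : q ≠ v') : False := by
  obtain ⟨w, c⟩ := ctx_of t e h7 h6 hv
  obtain ⟨q', c2⟩ := ctx_of t e h7 h6 hq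
  have : w = v' := h7.uniq t.n9 _ _ _ c.tw hT
  subst this
  exact c.P c2 hqv hne

open Classical in
theorem cap_low {G : CG V} (h7 : G.StTwHL) (h6 : G.StCh4) (Fa : Finset (Finset V))
    (t : G.TorsoU Fa) (e : G.Exp0 Fa) (l : V) : (univ.filter fun v => G.PL Fa l v).card ≤ 2 := by
  rcases (univ.filter fun v => G.PL Fa l v).eq_empty_or_nonempty with h0 | ⟨v, hv⟩
  · rw [h0, card_empty]
    omega
  rw [mem_filter] at hv
  obtain ⟨-, hn, hl, hlv, hI, hc⟩ := hv
  obtain ⟨v', c⟩ := ctx_of t e h7 h6 hn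
  have hsub : (univ.filter fun v => G.PL Fa l v) ⊆ {v, v'} := by
    intro w hw
    rw [mem_filter] at hw
    obtain ⟨-, wn, -, hlw, -, -⟩ := hw
    rw [mem_insert, mem_singleton]
    by_contra hcon
    rw [not_or] at hcon
    obtain ⟨w', c2⟩ := ctx_of t e h7 h6 wn
    have hwv : w ∉ G.nb v := fun h => c.P c2 h hcon.2
    obtain ⟨n1, n2⟩ := Ctx.mate_ne h7 t.n9 c2.tw c.tw hcon.1 hcon.2
    have hw'v : w' ∉ G.nb v := by
      intro h
      apply hwv
      have h1 : v ∈ G.nb w := (tw_iff c2.tw (Ne.symm hcon.1) n1.symm).2 (G.sym _ _ h)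
      exact G.sym _ _ h1
    obtain ⟨B, hB⟩ := nonempty_iff_ne_empty.2 hI
    obtain ⟨h, h1, h2, h3⟩ := hidden hB
    have nl : ∀ {a b x : V}, G.Tw a b → G.Low x → a ≠ x := by
      rintro a b x hab hx rfl
      exact tw_low hab hx
    have lv' : l ≠ v' := (nl (h7.symm _ _ c.tw) hl).symm
    -- the seven neighbours
    have hd : Disjoint (G.nb l ∩ G.nb v) {v, w, w', h} := by
      rw [disjoint_left]
      intro y hy hy'
      rw [mem_inter] at hy
      simp only [mem_insert, mem_singleton] at hy'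
      rcases hy' with rfl | rfl | rfl | rfl
      · exact G.irr _ hy.2
      · exact hwv hy.2
      · exact hw'v hy.2
      · exact h3 (nbR c.vR c.vI hy.2)
    have hs : (G.nb l ∩ G.nb v) ∪ {v, w, w', h} ⊆ G.nb l := by
      intro y hy
      rw [mem_union, mem_inter] at hy
      simp only [mem_insert, mem_singleton] at hy
      rcases hy with hy | rfl | rfl | rfl | rfl
      · exact hy.1
      · exact G.sym _ _ hlv
      · exact G.sym _ _ hlw
      · exact c2.adj' hlw (nl (h7.symm _ _ c2.tw) hl).symm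
      · exact h1
    have h4 := card_le_card hs
    have h5 : 4 ≤ ({v, w, w', h} : Finset V).card := by
      refine len_le (l := [v, w, w', h]) ?_ ?_
      · simp only [List.nodup_cons, List.mem_cons, List.not_mem_nil, or_false, not_or,
          List.nodup_nil, and_true, not_false_eq_true]
        refine ⟨⟨Ne.symm hcon.1, n1.symm, ?_⟩, ⟨(nb_ne c2.mem').symm, ?_⟩, ?_⟩
        · rintro rfl
          exact h3 c.vR
        · rintro rfl
          exact h3 c2.vR
        · rintro rfl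
          exact h3 (nbR c2.vR c2.vI c2.mem')
      · intro y hy
        simp only [List.mem_cons, List.not_mem_nil, or_false] at hy
        simp only [mem_insert, mem_singleton]
        exact hy
    rw [card_union_of_disjoint hd] at h4
    have h6' : (G.nb l).card = 6 := hl
    omega
  exact (card_le_card hsub).trans card_le_two

open Classical in
/-- the paid vertices are twin neighbours -/
theorem qual_tt {G : CG V} {Fa : Finset (Finset V)} {x v : V} (h : G.Qual Fa x v) :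
    v ∈ (G.nR Fa x).filter fun y => G.IsTw y ∧ ¬ G.Tw x y := by
  obtain ⟨h1, h2, h3, -⟩ := h
  rw [mem_filter, mem_nR76]
  exact ⟨⟨G.sym _ _ h3, h1.1⟩, h1.2.1, fun h4 => h2.2 ⟨v, h4⟩⟩

open Classical in
theorem qn_le {G : CG V} {Fa : Finset (Finset V)} {x : V} : G.qn Fa x ≤ G.tt Fa x := by
  unfold qn tt
  apply card_le_card
  intro v hv
  exact qual_tt (mem_filter.1 hv).2

open Classical in
/-- no low vertex pays a hub without low neighbour -/
theorem tp_zero {G : CG V} {Fa : Finset (Finset V)} (t : G.TorsoU Fa) (h7 : G.StTwHL) {x : V}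
    (h0 : G.tp Fa x = 0) (hb : ∀ b t, G.HL x b t → b ∈ R Fa) :
    (∀ b t, ¬ G.HL x b t) ∧ ∀ w ∈ G.nR Fa x, ¬ G.Low w := by
  unfold tp at h0
  rw [card_eq_zero] at h0
  have h1 : ∀ w ∈ G.nR Fa x, G.Low w → ∃ b, G.HL x b w := by
    intro w hw hl
    by_contra hcon
    have : w ∈ (G.nR Fa x).filter fun w => G.Low w ∧ ¬ ∃ b, G.HL x b w :=
      mem_filter.2 ⟨hw, hl, hcon⟩
    rw [h0] at this
    exact absurd this (notMem_empty _)
  have h2 : ∀ b t, ¬ G.HL x b t := by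
    intro b s hbs
    have h3 : b ∈ G.nR Fa x := mem_nR76.2 ⟨hbs.2.2.1, hb b s hbs⟩
    obtain ⟨b', h4⟩ := h1 b h3 hbs.2.1
    exact h7.nomut t.n9 _ _ _ _ _ h4 hbs rfl
  refine ⟨h2, fun w hw hl => ?_⟩
  obtain ⟨b, hb'⟩ := h1 w hw hl
  exact h2 _ _ hb'

open Classical in
/-- cover of an edge from a hub without low neighbours -/
theorem hub_cov {G : CG V} {Fa : Finset (Finset V)} (t : G.TorsoU Fa) {x : V}
    (hx : x ∈ R Fa) (hub : G.Hub x) (hlow : ∀ w ∈ G.nR Fa x, ¬ G.Low w) {u : V} (hu : u ∈ R Fa)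
    (hux : u ∈ G.nb x) (hul : ¬ G.Low u) (hm : G.m Fa x u = 0) :
    ∃ a b, a ∈ R Fa ∧ b ∈ R Fa ∧ G.Tw a b ∧ x ∈ G.nb a ∧ u ∈ G.nb a ∧ x ≠ b ∧ u ≠ b := by
  rcases t.cov x hx u hu hux hm with h | h | h | h | h
  · obtain ⟨w, h1, h2, h3, h4⟩ := h
    exact absurd h2 (hlow w (mem_nR76.2 ⟨G.sym _ _ h3, h1⟩))
  · obtain ⟨a, h1, b, h2, h3, h4, h5, h6, h7⟩ := h
    exact ⟨a, b, h1, h2, h3, h4, h5, h6, h7⟩
  · obtain ⟨a, -, b, -, h3, -⟩ := h
    exact absurd (t.sat _ _ _ h3) hub.1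
  · obtain ⟨a, -, b, -, h3, -⟩ := h
    exact absurd (t.sat _ _ _ h3) hul
  · obtain ⟨a, h1, b, h2, h3⟩ := h
    -- `a` is low and adjacent to `x`
    have h4 : G.Low a := h3.1
    obtain ⟨-, -, -, h5, h6, -, h8⟩ := h3
    have h9 : x ∈ G.cl a := by
      have h10 : x ∈ insert u (G.cl a) := by
        rw [h8]
        exact mem_insert_self _ _
      rw [mem_insert] at h10
      exact h10.resolve_left h5
    have h10 : x ≠ a := by
      rintro rfl
      exact hub.1 h4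
    exact absurd h4 (hlow a (mem_nR76.2 ⟨G.sym _ _ ((mem_cl.1 h9).resolve_left h10), h1⟩))

open Classical in
theorem cap_hub1 {G : CG V} (h7 : G.StTwHL) (h6 : G.StCh4) (h8 : G.StHub)
    (Fa : Finset (Finset V)) (t : G.TorsoU Fa) (e : G.Exp0 Fa) (x : V) (hx : x ∈ R Fa)
    (hub : G.Hub x) (B : Finset V) (hI : G.I Fa x = {B}) (hd : 2 ≤ G.d x (G.Co B)) :
    (G.qn Fa x : ℤ) ≤ G.ch4 Fa x := by
  have hch := ((h6 t.n9 Fa t.reg x hx).2.2 hub).2.1 B hI
  have hBI : B ∈ G.I Fa x := by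
    rw [hI]
    exact mem_singleton_self _
  have hq := qn_le (G := G) (Fa := Fa) (x := x)
  rcases Nat.eq_zero_or_pos (G.tp Fa x) with h0 | h0
  swap
  · rw [hch]
    omega
  -- an HL partner is outside of the family
  have hb : ∀ b s, G.HL x b s → b ∈ R Fa := by
    intro b s hbs
    rw [mem_R76]
    intro B' hB' hbB'
    have h1 := I_of_nb76 hx hB' hbs.2.2.1 hbB'
    rw [hI, mem_singleton] at h1
    subst h1
    have h2 : G.nb x ∩ G.Co B' ⊆ {s} := by
      intro y hy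
      rw [mem_inter] at hy
      rw [mem_singleton]
      by_contra hys
      have h3 : y ∈ G.cl x := mem_cl.2 (Or.inr hy.1)
      rw [hbs.2.2.2.2, mem_insert] at h3
      have h4 := mem_cl.1 (h3.resolve_left hys)
      have h5 := mem_Co76.1 hy.2
      rcases h4 with h4 | h4
      · exact h5.1 (h4 ▸ hbB')
      · exact h5.2 (mem_N76.2 ⟨h5.1, b, hbB', h4⟩)
    have h3 := card_le_card h2
    rw [card_singleton] at h3
    unfold d at hd
    omega
  obtain ⟨-, hlow⟩ := tp_zero t h7 h0 hb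
  rcases Nat.eq_zero_or_pos (G.qn Fa x) with hq0 | hq0
  · rw [hq0]
    exact (h8 Fa t x hx hub).2 B hI hd
  -- a paid vertex
  have hq1 := hq0
  unfold qn at hq1
  rw [gt_iff_lt, card_pos] at hq1
  obtain ⟨v, hv⟩ := hq1
  have hQ := (mem_filter.1 hv).2
  obtain ⟨v', c⟩ := ctx_of t e h7 h6 hQ.1
  have hvx : v ∈ G.nb x := G.sym _ _ hQ.2.2.1
  obtain ⟨a, b, a1, a2, a3, a4, a5, a6, a7⟩ := hub_cov t hx hub hlow c.vR hvx (tw_low c.tw)
    (m_right c.vI)
  have hav : a ∈ G.nb v := G.sym _ _ a5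
  have hav' : a ≠ v' := by
    rintro rfl
    exact a7 (h7.uniq t.n9 _ _ _ (h7.symm _ _ c.tw) a3)
  obtain ⟨m1, m2, m3, m4⟩ := c.mate hav hav' a3
  have nq : ∀ y, y ∈ G.nb v → y ≠ v' → ¬ G.Qual Fa x y := by
    intro y hy hyv hy2
    exact PP t e h7 h6 hQ.1 hy2.1 c.tw hy hyv
  have hxb : b ∈ G.nb x := G.sym _ _ ((tw_iff a3 (nb_ne a4) a6).1 a4)
  have h9 : G.qn Fa x + 2 ≤ G.tt Fa x := by
    have hdj : Disjoint (univ.filter fun v => G.Qual Fa x v) {a, b} := by
      rw [disjoint_left]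
      intro y hy hy'
      rw [mem_filter] at hy
      rw [mem_insert, mem_singleton] at hy'
      rcases hy' with rfl | rfl
      · exact nq _ hav hav' hy.2
      · exact nq _ m1 m2 hy.2
    have hsb : (univ.filter fun v => G.Qual Fa x v) ∪ {a, b} ⊆
        (G.nR Fa x).filter fun y => G.IsTw y ∧ ¬ G.Tw x y := by
      intro y hy
      rw [mem_union, mem_filter, mem_insert, mem_singleton] at hy
      rcases hy with hy | rfl | rfl
      · exact qual_tt hy.2
      · rw [mem_filter, mem_nR76]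
        exact ⟨⟨G.sym _ _ a4, a1⟩, ⟨b, a3⟩, fun h => hub.2 ⟨_, h⟩⟩
      · rw [mem_filter, mem_nR76]
        exact ⟨⟨hxb, a2⟩, ⟨a, h7.symm _ _ a3⟩, fun h => hub.2 ⟨_, h⟩⟩
    have h10 := card_le_card hsb
    rw [card_union_of_disjoint hdj, card_pair m4.symm] at h10
    exact h10
  rw [hch]
  omega

open Classical in
theorem cap_hub0 {G : CG V} (h7 : G.StTwHL) (h6 : G.StCh4) (h8 : G.StHub)
    (Fa : Finset (Finset V)) (t : G.TorsoU Fa) (e : G.Exp0 Fa) (x : V) (hx : x ∈ R Fa)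
    (hub : G.Hub x) (hI : G.I Fa x = ∅) : (G.qn Fa x : ℤ) ≤ G.ch4 Fa x := by
  have hch := ((h6 t.n9 Fa t.reg x hx).2.2 hub).1 hI
  set A : Finset V := univ.filter fun v => G.Qual Fa x v with hA
  have hqn : G.qn Fa x = A.card := rfl
  set T : Finset V := (G.nR Fa x).filter fun y => G.IsTw y ∧ ¬ G.Tw x y with hT
  have htt : G.tt Fa x = T.card := rfl
  have xne : ∀ {a b : V}, G.Tw a b → x ≠ a := by
    rintro a b hab rfl
    exact hub.2 ⟨b, hab⟩
  have memT : ∀ {a b : V}, G.Tw a b → a ∈ G.nb x → a ∈ T := by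
    intro a b hab ha
    rw [hT, mem_filter, mem_nR76]
    exact ⟨⟨ha, nbR hx hI ha⟩, ⟨b, hab⟩, fun h => hub.2 ⟨_, h⟩⟩
  have mateT : ∀ {a b : V}, G.Tw a b → a ∈ G.nb x → b ∈ G.nb x := by
    intro a b hab ha
    exact G.sym _ _ ((tw_iff hab (xne hab) (xne (h7.symm _ _ hab))).1 (G.sym _ _ ha))
  -- the second vertex in a paid situation
  have hq : ∀ v ∈ A, ∃ q q', G.Tw q q' ∧ q ∈ G.nb x ∧ q ∈ G.nb v ∧ ¬ G.Tw v q ∧ G.I Fa q ≠ ∅ := by
    intro v hv
    obtain ⟨h1, h2, h3, h4⟩ := (mem_filter.1 hv).2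
    rcases h4 with h4 | ⟨q, h4, ⟨q', h5⟩, h9, h10⟩
    · exact absurd hI h4
    · rw [mem_inter] at h4
      exact ⟨q, q', h5, h4.1, h4.2, h9, h10⟩
  have hAT : ∀ v ∈ A, v ∈ T := fun v hv => qual_tt (mem_filter.1 hv).2
  -- mates of paid vertices are paid
  have hmA : ∀ v ∈ A, ∀ v', G.Tw v v' → v' ∈ A := by
    intro v hv v' hvv
    obtain ⟨q, q', h1, h2, h3, h4, h5⟩ := hq v hv
    obtain ⟨g1, g2, g3, -⟩ := (mem_filter.1 hv).2
    rw [hA, mem_filter]
    have hvx : v ∈ G.nb x := G.sym _ _ g3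
    have hqv' : q ≠ v' := by
      rintro rfl
      exact h4 hvv
    refine ⟨mem_univ _, needy_mate t h7 h6 hvv g1, g2, G.sym _ _ (mateT hvv hvx), Or.inr
      ⟨q, ?_, ⟨q', h1⟩, ?_, h5⟩⟩
    · rw [mem_inter]
      exact ⟨h2, (tw_iff hvv (nb_ne h3) hqv').1 h3⟩
    · intro h
      exact nb_ne h3 (h7.uniq t.n9 _ _ _ h (h7.symm _ _ hvv))
  set A' : Finset V := T.filter fun q => G.I Fa q ≠ ∅ ∧ ∃ v ∈ A, q ∈ G.nb v ∧ ¬ G.Tw v q with hA'
  have hdis : Disjoint A A' := by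
    rw [disjoint_left]
    intro v hv hv'
    exact (mem_filter.1 hv').2.1 (mem_filter.1 hv).2.1.2.2.1
  have hsub : A ∪ A' ⊆ T := by
    intro v hv
    rw [mem_union] at hv
    rcases hv with hv | hv
    · exact hAT v hv
    · exact (mem_filter.1 hv).1
  have hc1 := card_le_card hsub
  rw [card_union_of_disjoint hdis] at hc1
  -- double counting
  have hc2 : A.card * 2 ≤ A'.card * 2 := by
    apply card_mul_le_card_mul (fun v q => q ∈ G.nb v ∧ ¬ G.Tw v q)
    · intro v hv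
      obtain ⟨q, q', h1, h2, h3, h4, h5⟩ := hq v hv
      obtain ⟨v', c⟩ := ctx_of t e h7 h6 (mem_filter.1 hv).2.1
      have hqv' : q ≠ v' := by
        rintro rfl
        exact h4 c.tw
      obtain ⟨m1, m2, m3, m4⟩ := c.mate h3 hqv' h1
      have h1' := h7.symm _ _ h1
      have h4' : ¬ G.Tw v q' := fun h => m2 (h7.uniq t.n9 _ _ _ h c.tw)
      have h5' : G.I Fa q' ≠ ∅ := by
        rw [(h7.twI Fa t.reg q (nbR hx hI h2) q' h1).2]
        exact h5
      refine len_le (l := [q, q']) ?_ ?_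
      · simp only [List.nodup_cons, List.mem_cons, List.not_mem_nil, or_false,
          List.nodup_nil, and_true, not_false_eq_true]
        exact m4.symm
      · intro y hy
        simp only [List.mem_cons, List.not_mem_nil, or_false] at hy
        rw [mem_bipartiteAbove]
        rcases hy with rfl | rfl
        · exact ⟨mem_filter.2 ⟨memT h1 h2, h5, v, hv, h3, h4⟩, h3, h4⟩
        · exact ⟨mem_filter.2 ⟨memT h1' (mateT h1 h2), h5', v, hv, m1, h4'⟩, m1, h4'⟩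
    · intro q hq'
      obtain ⟨g1, g2, v, g3, g4, g5⟩ := mem_filter.1 hq'
      rw [hT, mem_filter, mem_nR76] at g1
      obtain ⟨⟨g6, g7⟩, ⟨q', g8⟩, -⟩ := g1
      obtain ⟨v', c⟩ := ctx_of t e h7 h6 (mem_filter.1 g3).2.1
      have hqv' : q ≠ v' := by
        rintro rfl
        exact g5 c.tw
      have hx' := (mem_filter.1 g3).2.2.2.1
      obtain ⟨-, k2, -⟩ := c.hubq hub hx' g4 g6 g8 hqv'
      have hsb : A.bipartiteBelow (fun v q => q ∈ G.nb v ∧ ¬ G.Tw v q) q ⊆ {v, v'} := by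
        intro w hw
        rw [mem_bipartiteBelow] at hw
        obtain ⟨w1, w2, w3⟩ := hw
        obtain ⟨n1, n2, n3, n4⟩ := (mem_filter.1 w1).2.1
        rw [mem_insert, mem_singleton]
        rcases k2 w (G.sym _ _ w2) n1 n2 with h | h | h
        · exact Or.inl h
        · exact Or.inr h
        · exact absurd (h ▸ h7.symm _ _ g8) w3
      exact (card_le_card hsb).trans card_le_two
  rcases A.eq_empty_or_nonempty with h0 | ⟨v, hv⟩
  · rw [hqn, h0, card_empty]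
    exact (h8 Fa t x hx hub).1 hI
  obtain ⟨v', c⟩ := ctx_of t e h7 h6 (mem_filter.1 hv).2.1
  have hv' := hmA v hv v' c.tw
  by_cases hall : ∃ w ∈ A, w ≠ v ∧ w ≠ v'
  · obtain ⟨w, w1, w2, w3⟩ := hall
    obtain ⟨w', c2⟩ := ctx_of t e h7 h6 (mem_filter.1 w1).2.1
    have w4 := hmA w w1 w' c2.tw
    obtain ⟨n1, n2⟩ := Ctx.mate_ne h7 t.n9 c2.tw c.tw w2 w3
    have h4 : 4 ≤ A.card := by
      refine len_le (l := [v, v', w, w']) ?_ ?_
      · simp only [List.nodup_cons, List.mem_cons, List.not_mem_nil, or_false, not_or,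
          List.nodup_nil, and_true, not_false_eq_true]
        exact ⟨⟨(nb_ne c.mem').symm, w2.symm, n1.symm⟩, ⟨w3.symm, n2.symm⟩, (nb_ne c2.mem').symm⟩
      · intro y hy
        simp only [List.mem_cons, List.not_mem_nil, or_false] at hy
        rcases hy with rfl | rfl | rfl | rfl
        exacts [hv, hv', w1, w4]
    rw [hch, hqn, htt]
    omega
  · have hAe : A = {v, v'} := by
      ext w
      rw [mem_insert, mem_singleton]
      constructor
      · intro hw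
        by_contra hcon
        rw [not_or] at hcon
        exact hall ⟨w, hw, hcon⟩
      · rintro (rfl | rfl)
        exacts [hv, hv']
    have h2 : A.card = 2 := by
      rw [hAe]
      exact card_pair (nb_ne c.mem').symm
    by_contra hcon
    rw [hch, hqn, htt, h2] at hcon
    have h3 : G.tp Fa x = 0 := by omega
    have h4 : T.card ≤ 5 := by omega
    obtain ⟨-, hlow⟩ := tp_zero t h7 h3 (fun b s hbs => nbR hx hI hbs.2.2.1)
    obtain ⟨q, q', g1, g2, g3, g4, g5⟩ := hq v hv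
    have hqv' : q ≠ v' := by
      rintro rfl
      exact g4 c.tw
    obtain ⟨m1, m2, m3, m4⟩ := c.mate g3 hqv' g1
    have hxv := (mem_filter.1 hv).2.2.2.1
    have hvx : v ∈ G.nb x := G.sym _ _ hxv
    obtain ⟨k1, -, k3⟩ := c.hubq hub hxv g3 g2 g1 hqv'
    have tv' := h7.symm _ _ c.tw
    have tq' := h7.symm _ _ g1
    -- the twin neighbours of `x`
    have htw : ∀ r r', G.Tw r r' → r ∈ G.nb x → r = v ∨ r = v' ∨ r = q ∨ r = q' := by
      intro r r' hr hrx
      by_contra hc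
      rw [not_or, not_or, not_or] at hc
      obtain ⟨e1, e2, e3, e4⟩ := hc
      obtain ⟨e5, e6⟩ := Ctx.mate_ne h7 t.n9 hr c.tw e1 e2
      obtain ⟨e7, e8⟩ := Ctx.mate_ne h7 t.n9 hr g1 e3 e4
      have h6' : 6 ≤ T.card := by
        refine len_le (l := [v, v', q, q', r, r']) ?_ ?_
        · simp only [List.nodup_cons, List.mem_cons, List.not_mem_nil, or_false, not_or,
            List.nodup_nil, and_true, not_false_eq_true]
          exact ⟨⟨(nb_ne c.mem').symm, (nb_ne g3).symm, m3.symm, Ne.symm e1, e5.symm⟩,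
            ⟨hqv'.symm, m2.symm, Ne.symm e2, e6.symm⟩, ⟨m4.symm, Ne.symm e3, e7.symm⟩,
            ⟨Ne.symm e4, e8.symm⟩, (nb_ne hr.1).symm⟩
        · intro y hy
          simp only [List.mem_cons, List.not_mem_nil, or_false] at hy
          rcases hy with rfl | rfl | rfl | rfl | rfl | rfl
          exacts [memT c.tw hvx, memT tv' (mateT c.tw hvx), memT g1 g2, memT tq' (mateT g1 g2),
            memT hr hrx, memT (h7.symm _ _ hr) (mateT hr hrx)]
      omega
    -- the other neighbours of `x`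
    have hsb : G.nb x \ {v, v', q, q'} ⊆
        (G.nb v).filter fun y => y ≠ v' ∧ ¬ G.Low y ∧ y ≠ q ∧ y ≠ q' ∧ y ≠ x := by
      intro u hu
      rw [mem_sdiff] at hu
      simp only [mem_insert, mem_singleton, not_or] at hu
      obtain ⟨u0, u1, u2, u3, u4⟩ := hu
      have hul : ¬ G.Low u := hlow u (mem_nR76.2 ⟨u0, nbR hx hI u0⟩)
      obtain ⟨a, b, a1, a2, a3, a4, a5, a6, a7⟩ := hub_cov t hx hub hlow (nbR hx hI u0) u0 hul
        (m_left hI)
      have huv : u ∈ G.nb v := by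
        rcases htw a b a3 (G.sym _ _ a4) with h | h | h | h
        · rw [← h]
          exact a5
        · rw [h] at a5
          exact (tw_iff c.tw u1 u2).2 a5
        · rw [h] at a5
          exact (k1 u a5 (nbR hx hI u0)).resolve_left u1
        · rw [h] at a5
          exact (k1 u ((tw_iff g1 u3 u4).2 a5) (nbR hx hI u0)).resolve_left u1
      exact mem_filter.2 ⟨huv, u2, hul, u3, u4, nb_ne u0⟩
    have h5 := card_le_card hsb
    have h6' := le_card_sdiff ({v, v', q, q'} : Finset V) (G.nb x)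
    have h7' : ({v, v', q, q'} : Finset V).card ≤ 4 := card_le_four
    have h8' := G.deg x
    omega

end Cap26

/-- U12 -/
theorem stCap_26 (G : CG V) (h7 : G.StTwHL) (h6 : G.StCh4) (h8 : G.StHub) : G.StCap where
  low Fa t e l := Cap26.cap_low h7 h6 Fa t e l
  hub0 Fa t e x hx hub hI := Cap26.cap_hub0 h7 h6 h8 Fa t e x hx hub hI
  hub1 Fa t e x hx hub B hI hd := Cap26.cap_hub1 h7 h6 h8 Fa t e x hx hub B hI hd

end CG

end Pool.Agent.Lib.MP_e95c01_co.N
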