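import Pool.Agent.Lib.MP_e95c01_co.U.Ident11

/-!
# U6: the charges
-/

namespace Pool.Agent.Lib.MP_e95c01_co.N

open Finset

variable {V : Type} [Fintype V] [DecidableEq V]

namespace CG

variable {G : CG V} {Fa : Finset (Finset V)}

/-! ### the gifts -/

theorem pi_to_low11 {x z : V} (hz : G.Low z) : G.pi4 x z = 0 := by
  classical
  unfold pi4
  split_ifs with h1 h2 h3 h4
  · exact absurd hz h2.1
  · rfl
  · exact absurd hz h4.1
  · rfl
  · rfl

theorem hl_not_low11 {a b t : V} (h : G.HL a b t) : ¬ G.Low a := by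
  intro h1
  have h2 : (G.nb a).card = 7 := h.1
  have h3 : (G.nb a).card = 6 := h1
  omega

open Classical in
theorem pi_from_low11 {x z : V} (hz : G.Low z) : G.pi4 z x =
    2 - 2 * (if G.Low x then (1 : ℤ) else 0) - 2 * (if ∃ b, G.HL x b z then (1 : ℤ) else 0) := by
  unfold pi4
  rw [if_pos hz]
  by_cases h1 : G.Low x
  · have h2 : ¬ ∃ b, G.HL x b z := fun ⟨b, hb⟩ => hl_not_low11 hb h1
    rw [if_neg (fun h => h.1 h1), if_pos h1, if_neg h2]
    norm_num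
  · by_cases h2 : ∃ b, G.HL x b z
    · rw [if_neg (fun h => h.2 h2), if_neg h1, if_pos h2]
      norm_num
    · rw [if_pos ⟨h1, h2⟩, if_neg h1, if_neg h2]
      norm_num

open Classical in
theorem pi_to_tw11 {x z : V} (hz : G.IsTw z) (hH : ∀ b t, ¬ G.HL z b t) : G.pi4 x z =
    2 * (if G.Low x then (1 : ℤ) else 0) := by
  unfold pi4
  by_cases h1 : G.Low x
  · have h2 : ¬ G.Low z := tw_not_low11 hz
    rw [if_pos h1, if_pos ⟨h2, fun ⟨b, hb⟩ => hH _ _ hb⟩, if_pos h1]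
    norm_num
  · rw [if_neg h1, if_neg h1]
    have h2 : ¬ G.Hub z := fun h => h.2 hz
    split_ifs <;> simp

open Classical in
theorem pi_from_tw11 {x z : V} (hz : G.IsTw z) : G.pi4 z x =
    1 - (if G.Low x then (1 : ℤ) else 0) - (if G.IsTw x then (1 : ℤ) else 0) := by
  unfold pi4
  rw [if_neg (tw_not_low11 hz), if_pos hz]
  by_cases h1 : G.Low x
  · have h2 : ¬ G.IsTw x := fun h => tw_not_low11 h h1
    rw [if_neg (fun h => h.1 h1), if_pos h1, if_neg h2]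
    norm_num
  · by_cases h2 : G.IsTw x
    · rw [if_neg (fun h => h.2 h2), if_neg h1, if_pos h2]
      norm_num
    · rw [if_pos ⟨h1, h2⟩, if_neg h1, if_neg h2]
      norm_num

open Classical in
theorem pi_to_hub11 {x z : V} (hz : G.Hub z) : G.pi4 x z =
    2 * (if G.Low x ∧ ¬ ∃ b, G.HL z b x then (1 : ℤ) else 0) +
      (if G.IsTw x then (1 : ℤ) else 0) := by
  unfold pi4
  by_cases h1 : G.Low x
  · have h2 : ¬ G.IsTw x := fun h => tw_not_low11 h h1
    rw [if_pos h1, if_neg h2]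
    by_cases h3 : ∃ b, G.HL z b x
    · rw [if_neg (fun h => h.2 h3), if_neg (fun h => h.2 h3)]
      norm_num
    · rw [if_pos ⟨hz.1, h3⟩, if_pos ⟨h1, h3⟩]
      norm_num
  · have h3 : ¬ (G.Low x ∧ ¬ ∃ b, G.HL z b x) := fun h => h1 h.1
    rw [if_neg h1, if_neg h3]
    by_cases h2 : G.IsTw x
    · rw [if_pos h2, if_pos hz, if_pos h2]
      norm_num
    · rw [if_neg h2, if_neg h2]
      norm_num

theorem pi_from_hub11 {x z : V} (hz : G.Hub z) : G.pi4 z x = 0 := by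
  unfold pi4
  rw [if_neg hz.1, if_neg hz.2]

/-! ### the numbers -/

theorem m_le11 (x z : V) : G.m Fa x z ≤ (G.I Fa z).card := card_le_card inter_subset_right

theorem nR_le11 (h : G.Reg Fa) {z : V} (hz : z ∈ R Fa) :
    ((G.nR Fa z).card : ℤ) ≤ ((G.nb z).card : ℤ) - ((G.I Fa z).card : ℤ) := by
  have h1 := nb_split76 h hz
  have h2 : ((G.I Fa z).card : ℤ) ≤ ∑ B ∈ G.I Fa z, (G.d z B : ℤ) := by
    have h3 : ((G.I Fa z).card : ℤ) = ∑ B ∈ G.I Fa z, (1 : ℤ) := by simp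
    rw [h3]
    refine sum_le_sum fun B hB => ?_
    obtain ⟨-, u, hu, hzu⟩ := mem_N76.1 (mem_I76.1 hB).2
    have h4 : 0 < G.d z B := card_pos.2 ⟨u, mem_inter.2 ⟨G.sym _ _ hzu, hu⟩⟩
    exact_mod_cast h4
  linarith

theorem nR_empty11 (h : G.Reg Fa) {z : V} (hz : z ∈ R Fa) (hI : G.I Fa z = ∅) :
    ((G.nR Fa z).card : ℤ) = ((G.nb z).card : ℤ) ∧ ∑ x ∈ G.nR Fa z, (G.m Fa x z : ℤ) = 0 := by
  have h1 := nb_split76 h hz
  have h2 := sum_m76 h (w := z)
  rw [hI] at h1 h2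
  simp only [sum_empty] at h1 h2
  exact ⟨by linarith, h2.symm⟩

theorem nR_single11 (h : G.Reg Fa) {z : V} (hz : z ∈ R Fa) {B : Finset V}
    (hI : G.I Fa z = {B}) : ((G.nR Fa z).card : ℤ) - ∑ x ∈ G.nR Fa z, (G.m Fa x z : ℤ) =
      (G.d z (G.Co B) : ℤ) := by
  have h1 := nb_split76 h hz
  have h2 := sum_m76 h (w := z)
  have h3 := d_split76 (G := G) z B
  rw [hI] at h1 h2
  simp only [sum_singleton] at h1 h2
  omega

open Classical in
theorem tl_sum11 (z : V) : ∑ x ∈ G.nR Fa z, (if G.Low x then (1 : ℤ) else 0) =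
    (G.tl Fa z : ℤ) := by
  rw [tl, card_filter]
  push_cast
  exact sum_congr rfl fun x _ => by split_ifs <;> rfl

open Classical in
theorem tA_sum11 (z : V) : ∑ x ∈ G.nR Fa z, (if ∃ b, G.HL x b z then (1 : ℤ) else 0) =
    (G.tA Fa z : ℤ) := by
  rw [tA, card_filter]
  push_cast
  exact sum_congr rfl fun x _ => by split_ifs <;> rfl

open Classical in
theorem tp_sum11 (z : V) : ∑ x ∈ G.nR Fa z,
    (if G.Low x ∧ ¬ ∃ b, G.HL z b x then (1 : ℤ) else 0) = (G.tp Fa z : ℤ) := by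
  rw [tp, card_filter]
  push_cast
  exact sum_congr rfl fun x _ => by split_ifs <;> rfl

open Classical in
theorem tt_sum11 {z : V} (hz : ¬ G.IsTw z) : ∑ x ∈ G.nR Fa z,
    (if G.IsTw x then (1 : ℤ) else 0) = (G.tt Fa z : ℤ) := by
  rw [tt, card_filter]
  push_cast
  refine sum_congr rfl fun x _ => ?_
  have h1 : ¬ G.Tw z x := fun h => hz ⟨x, h⟩
  by_cases h2 : G.IsTw x
  · rw [if_pos h2, if_pos ⟨h2, h1⟩]
  · rw [if_neg h2, if_neg (fun h => h2 h.1)]

open Classical in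
theorem tt_sum11' (h7 : G.StTwHL) (h9 : 9 ≤ Fintype.card V) (h : G.Reg Fa) {z : V}
    (hzR : z ∈ R Fa) (hz : G.IsTw z) : ∑ x ∈ G.nR Fa z,
    (if G.IsTw x then (1 : ℤ) else 0) = (G.tt Fa z : ℤ) + 1 := by
  obtain ⟨w, hw⟩ := hz
  have hwR := (h7.twI Fa h z hzR w hw).1
  have hwn : w ∈ G.nR Fa z := mem_inter.2 ⟨hw.1, hwR⟩
  have h1 : ∑ x ∈ G.nR Fa z, (if x = w then (1 : ℤ) else 0) = 1 := by
    rw [sum_ite_eq' (G.nR Fa z) w, if_pos hwn]
  have e : (G.tt Fa z : ℤ) + 1 =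
      (G.tt Fa z : ℤ) + ∑ x ∈ G.nR Fa z, (if x = w then (1 : ℤ) else 0) := by rw [h1]
  rw [e, tt, card_filter]
  push_cast
  rw [← sum_add_distrib]
  refine sum_congr rfl fun x _ => ?_
  by_cases h2 : x = w
  · subst h2
    rw [if_pos ⟨z, h7.symm _ _ hw⟩, if_neg (fun h => h.2 hw), if_pos rfl]
    norm_num
  · have h3 : ¬ G.Tw z x := fun h => h2 (h7.uniq h9 z x w h hw)
    rw [if_neg h2]
    by_cases h4 : G.IsTw x
    · rw [if_pos h4, if_pos ⟨h4, h3⟩]
      norm_num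
    · rw [if_neg h4, if_neg (fun h => h4 h.1)]
      norm_num

/-! ### the three kinds of vertices -/

theorem ch_low11 {z : V} (hz : G.Low z)
    (hm : ∀ x, G.m Fa x z ≤ 1) : G.ch4 Fa z =
      (2 - ((G.I Fa z).card : ℤ)) * 6 + 2 * ((((G.I Fa z).card : ℤ) - 2) * 6 +
      (2 * ((G.nR Fa z).card : ℤ) - ∑ x ∈ G.nR Fa z, (G.m Fa x z : ℤ))) -
      2 * ((G.nR Fa z).card : ℤ) + 2 * (G.tl Fa z : ℤ) + 2 * (G.tA Fa z : ℤ) := by
  classical
  have h1 : ∑ x ∈ G.nR Fa z, (if G.m Fa x z ≤ 1 then G.pi4 x z - G.pi4 z x else 0) =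
      - 2 * ((G.nR Fa z).card : ℤ) + 2 * (G.tl Fa z : ℤ) + 2 * (G.tA Fa z : ℤ) := by
    rw [← tl_sum11, ← tA_sum11, mul_sum, mul_sum]
    have h2 : - 2 * ((G.nR Fa z).card : ℤ) = ∑ x ∈ G.nR Fa z, (-2 : ℤ) := by
      rw [sum_const, nsmul_eq_mul]
      ring
    rw [h2, ← sum_add_distrib, ← sum_add_distrib]
    refine sum_congr rfl fun x _ => ?_
    rw [if_pos (hm x), pi_to_low11 hz, pi_from_low11 hz]
    ring
  have h6 : (G.nb z).card = 6 := hz
  rw [ch4, h1, a4, c4, if_pos hz, if_pos hz, h6, sum_sub_distrib, sum_const, nsmul_eq_mul]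
  push_cast
  ring

theorem ch_tw11 (h7 : G.StTwHL) (h9 : 9 ≤ Fintype.card V) (h : G.Reg Fa) {z : V}
    (hzR : z ∈ R Fa) (hz : G.IsTw z) (hm : ∀ x, G.m Fa x z ≤ 1) : G.ch4 Fa z =
      (2 - ((G.I Fa z).card : ℤ)) * (-2) + ((((G.I Fa z).card : ℤ) - 2) * 7 +
      (2 * ((G.nR Fa z).card : ℤ) - ∑ x ∈ G.nR Fa z, (G.m Fa x z : ℤ))) -
      ((G.nR Fa z).card : ℤ) + 3 * (G.tl Fa z : ℤ) + ((G.tt Fa z : ℤ) + 1) := by
  classical
  have hH : ∀ b t, ¬ G.HL z b t := fun b t hb => h7.notHL h9 _ _ _ hb hz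
  have h1 : ∑ x ∈ G.nR Fa z, (if G.m Fa x z ≤ 1 then G.pi4 x z - G.pi4 z x else 0) =
      - ((G.nR Fa z).card : ℤ) + 3 * (G.tl Fa z : ℤ) + ((G.tt Fa z : ℤ) + 1) := by
    rw [← tl_sum11, ← tt_sum11' h7 h9 h hzR hz, mul_sum]
    have h2 : - ((G.nR Fa z).card : ℤ) = ∑ x ∈ G.nR Fa z, (-1 : ℤ) := by
      rw [sum_const, nsmul_eq_mul]
      ring
    rw [h2, ← sum_add_distrib, ← sum_add_distrib]
    refine sum_congr rfl fun x _ => ?_
    rw [if_pos (hm x), pi_to_tw11 hz hH, pi_from_tw11 hz]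
    ring
  have h6 := tw_card11 hz
  rw [ch4, h1, a4, c4, if_neg (tw_not_low11 hz), if_neg (tw_not_low11 hz), if_pos hz, h6,
    sum_sub_distrib, sum_const, nsmul_eq_mul]
  push_cast
  ring

theorem ch_hub11 {z : V} (hz : G.Hub z)
    (hm : ∀ x, G.m Fa x z ≤ 1) : G.ch4 Fa z =
      (2 - ((G.I Fa z).card : ℤ)) * (-2) + 2 * (G.tp Fa z : ℤ) + (G.tt Fa z : ℤ) := by
  classical
  have h1 : ∑ x ∈ G.nR Fa z, (if G.m Fa x z ≤ 1 then G.pi4 x z - G.pi4 z x else 0) =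
      2 * (G.tp Fa z : ℤ) + (G.tt Fa z : ℤ) := by
    rw [← tp_sum11, ← tt_sum11 hz.2, mul_sum, ← sum_add_distrib]
    refine sum_congr rfl fun x _ => ?_
    rw [if_pos (hm x), pi_to_hub11 hz, pi_from_hub11 hz]
    ring
  rw [ch4, h1, a4, c4, if_neg hz.1, if_neg hz.1, if_neg hz.2]
  ring

theorem m_empty11 {z : V} (hI : G.I Fa z = ∅) (x : V) : G.m Fa x z ≤ 1 := by
  have := m_le11 (G := G) (Fa := Fa) x z
  rw [hI, card_empty] at this
  omega

theorem m_single11 {z : V} {B : Finset V} (hI : G.I Fa z = {B}) (x : V) : G.m Fa x z ≤ 1 := by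
  have := m_le11 (G := G) (Fa := Fa) x z
  rwa [hI, card_singleton] at this

/-- U6 -/
theorem stCh4_11 (G : CG V) (h7 : G.StTwHL) : G.StCh4 := by
  classical
  intro h9 Fa h z hzR
  refine ⟨fun hz => ⟨fun hI => ?_, fun B hI => ?_, fun hk => ?_⟩,
    fun hz => ⟨fun hI => ?_, fun B hI => ?_, fun hk => ?_⟩,
    fun hz => ⟨fun hI => ?_, fun B hI => ?_, fun hk => ?_⟩⟩
  · rw [ch_low11 hz (m_empty11 hI)]
    obtain ⟨h1, h2⟩ := nR_empty11 h hzR hI
    have h6 : (G.nb z).card = 6 := hz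
    rw [h2, h1, hI, card_empty, h6]
    push_cast
    ring
  · rw [ch_low11 hz (m_single11 hI), ← nR_single11 h hzR hI, hI, card_singleton]
    push_cast
    ring
  · have h1 : ∀ x ∈ G.nR Fa z, - 2 * (((G.I Fa z).card : ℤ) - 2) ≤
        2 * (2 - (G.m Fa x z : ℤ)) + (if G.m Fa x z ≤ 1 then G.pi4 x z - G.pi4 z x else 0) := by
      intro x _
      have h2 : (G.m Fa x z : ℤ) ≤ ((G.I Fa z).card : ℤ) := by exact_mod_cast m_le11 x z
      have h3 : (2 : ℤ) ≤ ((G.I Fa z).card : ℤ) := by exact_mod_cast hk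
      by_cases h4 : G.m Fa x z ≤ 1
      · have h5 : (G.m Fa x z : ℤ) ≤ 1 := by exact_mod_cast h4
        rw [if_pos h4, pi_to_low11 hz, pi_from_low11 hz]
        split_ifs <;> linarith
      · rw [if_neg h4]
        linarith
    have h2 := sum_le_sum h1
    rw [sum_const, nsmul_eq_mul, sum_add_distrib, ← mul_sum] at h2
    have h3 := nR_le11 h hzR
    have h6 : (G.nb z).card = 6 := hz
    rw [ch4, a4, c4, if_pos hz, if_pos hz, h6]
    rw [h6] at h3
    have h4 : (2 : ℤ) ≤ ((G.I Fa z).card : ℤ) := by exact_mod_cast hk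
    push_cast at h3 ⊢
    have h5 : 0 ≤ (((G.I Fa z).card : ℤ) - 2) *
        (6 - ((G.I Fa z).card : ℤ) - ((G.nR Fa z).card : ℤ)) :=
      mul_nonneg (by linarith) (by linarith)
    have h8 : 0 ≤ (((G.I Fa z).card : ℤ) - 2) * (((G.I Fa z).card : ℤ) - 3) := by
      rcases eq_or_lt_of_le h4 with h | h
      · rw [← h]
        norm_num
      · exact mul_nonneg (by linarith) (by linarith)
    nlinarith
  · rw [ch_tw11 h7 h9 h hzR hz (m_empty11 hI)]
    obtain ⟨h1, h2⟩ := nR_empty11 h hzR hI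
    rw [h2, h1, hI, card_empty, tw_card11 hz]
    push_cast
    ring
  · rw [ch_tw11 h7 h9 h hzR hz (m_single11 hI), ← nR_single11 h hzR hI, hI, card_singleton]
    push_cast
    ring
  · have hH : ∀ b t, ¬ G.HL z b t := fun b t hb => h7.notHL h9 _ _ _ hb hz
    have h1 : ∀ x ∈ G.nR Fa z, - (((G.I Fa z).card : ℤ) - 2) ≤
        (2 - (G.m Fa x z : ℤ)) + (if G.m Fa x z ≤ 1 then G.pi4 x z - G.pi4 z x else 0) := by
      intro x _
      have h2 : (G.m Fa x z : ℤ) ≤ ((G.I Fa z).card : ℤ) := by exact_mod_cast m_le11 x z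
      have h3 : (2 : ℤ) ≤ ((G.I Fa z).card : ℤ) := by exact_mod_cast hk
      by_cases h4 : G.m Fa x z ≤ 1
      · have h5 : (G.m Fa x z : ℤ) ≤ 1 := by exact_mod_cast h4
        rw [if_pos h4, pi_to_tw11 hz hH, pi_from_tw11 hz]
        split_ifs <;> linarith
      · rw [if_neg h4]
        linarith
    have h2 := sum_le_sum h1
    rw [sum_const, nsmul_eq_mul, sum_add_distrib] at h2
    have h3 := nR_le11 h hzR
    have h6 := tw_card11 hz
    rw [ch4, a4, c4, if_neg (tw_not_low11 hz), if_neg (tw_not_low11 hz), if_pos hz, h6]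
    rw [h6] at h3
    have h4 : (2 : ℤ) ≤ ((G.I Fa z).card : ℤ) := by exact_mod_cast hk
    push_cast at h3 ⊢
    nlinarith
  · rw [ch_hub11 hz (m_empty11 hI), hI, card_empty]
    push_cast
    ring
  · rw [ch_hub11 hz (m_single11 hI), hI, card_singleton]
    push_cast
    ring
  · have h1 : (G.qn Fa z : ℤ) ≤ ∑ x ∈ G.nR Fa z,
        (if G.m Fa x z ≤ 1 then G.pi4 x z - G.pi4 z x else 0) := by
      have h2 : (G.qn Fa z : ℤ) ≤ ∑ x ∈ G.nR Fa z, (if G.Qual Fa z x then (1 : ℤ) else 0) := by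
        rw [← sum_filter, sum_const, nsmul_eq_mul, mul_one, qn]
        have h3 : (univ.filter fun v => G.Qual Fa z v) ⊆
            (G.nR Fa z).filter fun v => G.Qual Fa z v := by
          intro v hv
          have hv' : G.Qual Fa z v := (mem_filter.1 hv).2
          refine mem_filter.2 ⟨mem_inter.2 ⟨G.sym _ _ hv'.2.2.1, hv'.1.1⟩, hv'⟩
        exact_mod_cast card_le_card h3
      refine h2.trans (sum_le_sum fun x _ => ?_)
      by_cases hq : G.Qual Fa z x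
      · have hm : G.m Fa x z ≤ 1 := by
          have hI : G.I Fa x = ∅ := hq.1.2.2.1
          have := m_le11 (G := G) (Fa := Fa) z x
          rw [hI, card_empty, m_comm76] at this
          omega
        rw [if_pos hq, if_pos hm, pi_to_hub11 hz, pi_from_hub11 hz, if_pos hq.1.2.1]
        split_ifs <;> norm_num
      · rw [if_neg hq]
        split_ifs with hm
        · rw [pi_to_hub11 hz, pi_from_hub11 hz]
          split_ifs <;> norm_num
        · exact le_rfl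
    rw [ch4, a4, c4, if_neg hz.1, if_neg hz.1, if_neg hz.2]
    have h4 : (2 : ℤ) ≤ ((G.I Fa z).card : ℤ) := by exact_mod_cast hk
    nlinarith

end CG

end Pool.Agent.Lib.MP_e95c01_co.N
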