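import Pool.Agent.Lib.MP_e95c01_co.U.MainU37

/-!
# U22a: graphs without big fragments
-/

namespace Pool.Agent.Lib.MP_e95c01_co.N

open Finset

variable {V : Type} [Fintype V] [DecidableEq V]

namespace CG

variable {G : CG V}

theorem R_empty27 (z : V) : z ∈ R (∅ : Finset (Finset V)) := by
  rw [R, mem_compl, biUnion_empty]
  exact notMem_empty _

theorem I_empty27 (z : V) : G.I (∅ : Finset (Finset V)) z = ∅ := by
  rw [I, filter_empty]

theorem stClosed13_27 (hsm : G.StSmall) (hcovU : G.StCovU) (hid : G.StIdentU)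
    (hps : G.StPsumU) (hgen : G.StGenericU) : G.StClosed13 := by
  intro hcr hsat h13 hno
  have h6 := G.stN6_37
  have hreg : G.Reg (∅ : Finset (Finset V)) := by
    constructor
    · intro B hB
      exact absurd hB (notMem_empty _)
    · intro B hB
      exact absurd hB (notMem_empty _)
  have hbig : ∀ Z : Finset V, 3 ≤ Z.card → Z.card ≤ 4 → (G.N Z).card ≤ 6 → False := by
    intro Z h3 h4 hN
    have hc : Z.card + (G.N Z).card + (G.Co Z).card = Fintype.card V := by
      have h5 := G.part37 Z (fun _ => True)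
      simp only [filter_true, card_univ] at h5
      exact h5.symm
    have hCo : 3 ≤ (G.Co Z).card := by omega
    have hCne : (G.Co Z).Nonempty := card_pos.1 (by omega)
    have hZne : Z.Nonempty := card_pos.1 (by omega)
    have h7 := h6 Z hZne hCne
    exact hno Z ⟨⟨hZne, by omega, hCne⟩, h3, hCo⟩
  have hcov : G.CovU ∅ := by
    intro x hx z hz hxz hm
    refine hcovU hsm ∅ hreg ?_ x hx z hz hxz hm ?_
    · intro y _ B hI
      rw [I_empty27] at hI
      exact absurd hI.symm (singleton_ne_empty _)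
    · obtain ⟨E, hE, h1, h2⟩ := hcr x z hxz
      obtain ⟨h3, h4, -⟩ := G.stCo_37 E hE
      by_cases h5 : E.card ≤ 2
      · exact ⟨E, hE, h5, h1, h2⟩
      · refine ⟨G.Co E, h3, ?_, by rw [h4]; exact h1, by rw [h4]; exact h2⟩
        by_contra h7
        exact hno E ⟨hE, by omega, by omega⟩
  have htor : G.TorsoU ∅ := ⟨hreg, fun B hB => absurd hB (notMem_empty _), by omega, hsat, hcov⟩
  have hnn := hgen ∅ htor ⟨?_, ?_⟩ ?_
  · have h1 := hid ∅ hreg
    rw [sum_empty, sub_zero] at h1
    have hne : Nonempty V := by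
      rw [← Fintype.card_pos_iff]
      omega
    obtain ⟨v⟩ := hne
    have h2 : (G.nb v).Nonempty := card_pos.1 (by have := G.deg v; omega)
    obtain ⟨w, hw⟩ := h2
    obtain ⟨E, hE, -, -⟩ := hcr v w hw
    have h3 := (hps E hE).2
    rw [h1] at h3
    have h4 : (4 * (Fintype.card V : ℤ)) ≤ 16 * (G.l univ : ℤ) := by linarith
    have h5 : 4 * Fintype.card V ≤ 16 * G.l univ := by exact_mod_cast h4
    omega
  · rintro l - v - - - hlow ⟨w, hw⟩ hlv
    by_contra hc
    obtain ⟨h1, h2⟩ := G.N_low_tw37 hlow hw hlv (by omega)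
    exact hbig _ h2.ge (by omega) h1
  · rintro w - v - - - ⟨w', hw'⟩ ⟨v', hv'⟩ hwv hn
    by_contra hc
    obtain ⟨h1, h2⟩ := G.N_tw_tw37 hw' hv' hwv hn (by omega)
    exact hbig _ (by omega) (by omega) h1
  · intro z _ B hI
    rw [I_empty27] at hI
    exact absurd hI.symm (singleton_ne_empty _)

end CG

end Pool.Agent.Lib.MP_e95c01_co.N
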