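import Pool.Agent.Lib.MP_e95c01_co.U.Defs37
import Pool.Agent.Lib.MP_e95c01_co.N.Ident76

/-!
# U4: covers inside `R`
-/

namespace Pool.Agent.Lib.MP_e95c01_co.N

open Finset

variable {V : Type} [Fintype V] [DecidableEq V]

namespace CG

variable {G : CG V} {Fa : Finset (Finset V)}

theorem mem_cl1 {v w : V} : v ∈ G.cl w ↔ v = w ∨ v ∈ G.nb w := by
  unfold cl
  rw [mem_insert]

theorem mem_R1 {v : V} : v ∈ R Fa ↔ ∀ B ∈ Fa, v ∉ B := by
  unfold R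
  simp only [mem_compl, mem_biUnion, id, not_exists, not_and]

theorem mem_N1 {S : Finset V} {v : V} : v ∈ G.N S ↔ v ∉ S ∧ ∃ u ∈ S, v ∈ G.nb u := by
  unfold N
  rw [mem_sdiff, mem_biUnion, and_comm]

theorem mem_Co1 {S : Finset V} {v : V} : v ∈ G.Co S ↔ v ∉ S ∧ v ∉ G.N S := by
  unfold Co
  rw [mem_compl, mem_union, not_or]

theorem nb_B1 {S : Finset V} {u v : V} (hu : u ∈ S) (hv : v ∈ G.nb u) : v ∈ S ∨ v ∈ G.N S := by
  by_cases h : v ∈ S
  · exact Or.inl h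
  · exact Or.inr (mem_N1.2 ⟨h, u, hu, hv⟩)

theorem NR1 (hR : G.Reg Fa) {B : Finset V} (hB : B ∈ Fa) {v : V} (hv : v ∈ G.N B) : v ∈ R Fa := by
  rw [mem_R1]
  intro B' hB'
  by_cases h : B = B'
  · subst h
    exact (mem_N1.1 hv).1
  · exact disjoint_left.1 (hR.dis B hB B' hB' h).2 hv

/-- all neighbours of `p` but `t` are in `B` or `N B` -/
theorem one_cut1 (hR : G.Reg Fa)
    (hd : ∀ z ∈ R Fa, ∀ B, G.I Fa z = {B} → 2 ≤ G.d z (G.Co B)) {B : Finset V} (hB : B ∈ Fa)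
    {p t : V} (hp : p ∈ G.N B) (ht : t ∈ R Fa)
    (hn : ∀ u ∈ G.nb p, u = t ∨ u ∈ B ∨ u ∈ G.N B) : False := by
  have hpR := NR1 hR hB hp
  have hI : G.I Fa p = {B} := by
    ext B'
    unfold I
    rw [mem_filter, mem_singleton]
    constructor
    · rintro ⟨h1, h2⟩
      by_contra hne
      obtain ⟨-, u, hu, hpu⟩ := mem_N1.1 h2
      rcases hn u (G.sym _ _ hpu) with h | h | h
      · subst h
        exact mem_R1.1 ht B' h1 hu
      · exact disjoint_left.1 (hR.dis B hB B' h1 (Ne.symm hne)).1 h hu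
      · exact disjoint_left.1 (hR.dis B hB B' h1 (Ne.symm hne)).2 h hu
    · rintro rfl
      exact ⟨hB, hp⟩
  have h1 := hd p hpR B hI
  have h2 : G.nb p ∩ G.Co B ⊆ {t} := by
    intro u hu
    rw [mem_inter, mem_Co1] at hu
    rw [mem_singleton]
    rcases hn u hu.1 with h | h | h
    · exact h
    · exact absurd h hu.2.1
    · exact absurd h hu.2.2
  have h3 := card_le_card h2
  rw [card_singleton] at h3
  unfold d at h1
  omega

theorem m_zero1 {x z : V} (hm : G.m Fa x z = 0) {B : Finset V} (hB : B ∈ Fa) (hx : x ∈ G.N B) :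
    z ∉ G.N B := by
  intro hz
  have h1 : B ∈ G.I Fa x ∩ G.I Fa z := by
    unfold I
    rw [mem_inter, mem_filter, mem_filter]
    exact ⟨⟨hB, hx⟩, hB, hz⟩
  unfold m at hm
  rw [card_eq_zero] at hm
  rw [hm] at h1
  exact absurd h1 (notMem_empty _)

theorem m_symm1 (x z : V) : G.m Fa x z = G.m Fa z x := by
  unfold m
  rw [inter_comm]

/-- a vertex adjacent to `x` and `z` -/
theorem host1 {x z w : V} (hx : x ∈ R Fa) (hz : z ∈ R Fa) (hm : G.m Fa x z = 0)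
    (hxw : x ∈ G.nb w) (hzw : z ∈ G.nb w) : w ∈ R Fa := by
  rw [mem_R1]
  intro B hB hw
  have h1 := (nb_B1 (G := G) hw hxw).resolve_left (mem_R1.1 hx B hB)
  have h2 := (nb_B1 (G := G) hw hzw).resolve_left (mem_R1.1 hz B hB)
  exact m_zero1 hm hB h1 h2

theorem hl1 (hR : G.Reg Fa)
    (hd : ∀ z ∈ R Fa, ∀ B, G.I Fa z = {B} → 2 ≤ G.d z (G.Co B)) {x z a b : V} (hx : x ∈ R Fa)
    (hz : z ∈ R Fa) (hm : G.m Fa x z = 0) (h : G.HL a b x) (hzb : z ∈ G.nb b) (hza : z ≠ a) :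
    a ∈ R Fa ∧ b ∈ R Fa := by
  obtain ⟨-, -, hba, hxb, hcl⟩ := h
  have hab : a ∈ G.nb b := G.sym _ _ hba
  have hxa : x ∈ G.nb a := by
    have h1 : x ∈ G.cl a := by rw [hcl]; exact mem_insert_self _ _
    rcases mem_cl1.1 h1 with h2 | h2
    · subst h2
      exact absurd (mem_cl1.2 (Or.inr hab)) hxb
    · exact h2
  have hza' : z ∈ G.nb a := by
    have h1 : z ∈ G.cl a := by rw [hcl]; exact mem_insert_of_mem (mem_cl1.2 (Or.inr hzb))
    exact (mem_cl1.1 h1).resolve_left hza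
  have ha := host1 hx hz hm hxa hza'
  refine ⟨ha, ?_⟩
  rw [mem_R1]
  intro B hB hbB
  have haN := (nb_B1 (G := G) hbB hab).resolve_left (mem_R1.1 ha B hB)
  refine one_cut1 hR hd hB haN hx ?_
  intro u hu
  have h1 : u ∈ G.cl a := mem_cl1.2 (Or.inr hu)
  rw [hcl, mem_insert, mem_cl1] at h1
  rcases h1 with h1 | h1 | h1
  · exact Or.inl h1
  · subst h1
    exact Or.inr (Or.inl hbB)
  · exact Or.inr (nb_B1 hbB h1)

theorem ll_symm1 {a b t u : V} (h : G.LL a b t u) : G.LL b a u t := by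
  obtain ⟨h1, h2, h3, h4, h5, h6, h7⟩ := h
  exact ⟨h2, h1, G.sym _ _ h3, h4.symm, h6, h5, h7.symm⟩

theorem ll_nb1 {a b t u : V} (h : G.LL a b t u) : t ∈ G.nb a := by
  obtain ⟨h1, h2, h3, h4, h5, h6, h7⟩ := h
  have h8 : t ∈ insert u (G.cl a) := by rw [h7]; exact mem_insert_self _ _
  rcases mem_insert.1 h8 with h9 | h9
  · exact absurd h9 h4
  · rcases mem_cl1.1 h9 with h9 | h9
    · subst h9
      exact absurd (mem_cl1.2 (Or.inr (G.sym _ _ h3))) h5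
    · exact h9

theorem ll1 (hR : G.Reg Fa)
    (hd : ∀ z ∈ R Fa, ∀ B, G.I Fa z = {B} → 2 ≤ G.d z (G.Co B)) {x z a b : V} (hx : x ∈ R Fa)
    (hz : z ∈ R Fa) (hm : G.m Fa x z = 0) (h : G.LL a b x z) : a ∈ R Fa := by
  have hxa := ll_nb1 h
  have hzb := ll_nb1 (ll_symm1 h)
  obtain ⟨h1, h2, h3, h4, h5, h6, h7⟩ := h
  rw [mem_R1]
  intro B hB haB
  have hxN := (nb_B1 (G := G) haB hxa).resolve_left (mem_R1.1 hx B hB)
  have hzN := m_zero1 hm hB hxN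
  have hbB : b ∉ B := by
    intro hbB
    exact hzN ((nb_B1 (G := G) hbB hzb).resolve_left (mem_R1.1 hz B hB))
  have hbN := (nb_B1 (G := G) haB h3).resolve_left hbB
  refine one_cut1 hR hd hB hbN hz ?_
  intro u hu
  have h8 : u ∈ insert z (G.cl a) := by
    rw [h7]
    exact mem_insert_of_mem (mem_cl1.2 (Or.inr hu))
  rw [mem_insert, mem_cl1] at h8
  rcases h8 with h8 | h8 | h8
  · exact Or.inl h8
  · subst h8
    exact Or.inr (Or.inl haB)
  · exact Or.inr (nb_B1 haB h8)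

/-- U4 -/
theorem stCovU_1 (G : CG V) : G.StCovU := by
  intro hS Fa hR hd x hx z hz hxz hm hcov
  obtain ⟨E, hE, hEc, hxE, hzE⟩ := hcov
  have hne : x ≠ z := by
    rintro rfl
    exact G.irr _ hxz
  have hm' : G.m Fa z x = 0 := by rw [m_symm1, hm]
  rcases hS E hE hEc x z hxE hzE hne with h | h | h | h | h
  · obtain ⟨w, -, h1, h2, h3⟩ := h
    exact Or.inl ⟨w, host1 hx hz hm h2 h3, h1, h2, h3⟩
  · obtain ⟨v, -, w, -, h1, h2, h3, h4, h5⟩ := h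
    refine Or.inr (Or.inl ⟨v, host1 hx hz hm h2 h3, w, ?_, h1, h2, h3, h4, h5⟩)
    obtain ⟨-, -, hcl⟩ := h1
    have hxw : x ∈ G.nb w := by
      have h6 : x ∈ G.cl w := by rw [← hcl]; exact mem_cl1.2 (Or.inr h2)
      exact (mem_cl1.1 h6).resolve_left h4
    have hzw : z ∈ G.nb w := by
      have h6 : z ∈ G.cl w := by rw [← hcl]; exact mem_cl1.2 (Or.inr h3)
      exact (mem_cl1.1 h6).resolve_left h5
    exact host1 hx hz hm hxw hzw
  · obtain ⟨a, -, b, -, h1, h2, h3⟩ := h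
    obtain ⟨h4, h5⟩ := hl1 hR hd hx hz hm h1 h2 h3
    exact Or.inr (Or.inr (Or.inl ⟨a, h4, b, h5, h1, h2, h3⟩))
  · obtain ⟨a, -, b, -, h1, h2, h3⟩ := h
    obtain ⟨h4, h5⟩ := hl1 hR hd hz hx hm' h1 h2 h3
    exact Or.inr (Or.inr (Or.inr (Or.inl ⟨a, h4, b, h5, h1, h2, h3⟩)))
  · obtain ⟨a, -, b, -, h1⟩ := h
    exact Or.inr (Or.inr (Or.inr (Or.inr ⟨a, ll1 hR hd hx hz hm h1, b,
      ll1 hR hd hz hx hm' (ll_symm1 h1), h1⟩)))

end CG

end Pool.Agent.Lib.MP_e95c01_co.N
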