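import Pool.Agent.Lib.MP_e95c01_co.N4.Th36f
import Pool.Agent.Lib.MP_e95c01_co.N4.Th36g
import Pool.Agent.Lib.MP_e95c01_co.U.Ident11
import Pool.Agent.Lib.MP_e95c01_co.U.Bridge76

/-!
# U19: fragments with three vertices
-/

namespace Pool.Agent.Lib.MP_e95c01_co.N

open Finset

variable {V : Type} [Fintype V] [DecidableEq V]

namespace CG

variable {G : CG V} {F : Finset V}

/-- the addition is impossible without low vertices in `F` -/
theorem L0.add (h : G.L0 F) {c p q : V} (a : G.Ad F c p q) : False := by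
  obtain ⟨z3, hz3⟩ := card_eq_one.1 a.f1
  have hm : ∀ v ∈ F, v ∈ G.nb c → v = z3 := by
    intro v hv hvw
    have : v ∈ G.nb c ∩ F := mem_inter.2 ⟨hvw, hv⟩
    rw [hz3, mem_singleton] at this
    exact this
  have hz3m : z3 ∈ G.nb c ∩ F := by rw [hz3]; exact mem_singleton_self _
  rw [mem_inter] at hz3m
  have h3 : 0 < (F.erase z3).card := by
    rw [card_erase_of_mem hz3m.2, h.t3.c3]; omega
  obtain ⟨z1, hz1⟩ := card_pos.1 h3
  have hz1F := mem_of_mem_erase hz1
  have hz13 := ne_of_mem_erase hz1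
  obtain ⟨z2, hz2F, hz21, hz23, -⟩ := h.third hz1F hz3m.2 hz13
  have hw1 : c ∉ G.nb z1 := fun e => hz13 (hm z1 hz1F (G.sym _ _ e))
  have hw2 : c ∉ G.nb z2 := fun e => hz23 (hm z2 hz2F (G.sym _ _ e))
  rcases h.covT hz1F a.pc.2 a.pq with ⟨w, hw, hl, h4, h5⟩ | ⟨r, s, hrs, hr, hs, -, h4, h5⟩
  · have e : w = c := h.one a.pq a.pc.2 hw h5 (a.pq.symm.ne_low hl) a.hc (G.sym _ _ a.pc.1) a.cq
    exact hw1 (e ▸ h4)
  · exact h.nopair hz1F hrs hr hs h4 h5 hz3m.2 hz13.symm hz2F hz21 a.hc (G.sym _ _ hz3m.1) hw2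

theorem ct_m2_36 (hF : G.Big F) {t : V} (ht : t ∈ G.N F) : -2 ≤ G.ct36 F t := by
  by_cases hl : G.Low t
  · rw [ct_low36 hl]
    have := fpos36 ht
    omega
  by_cases hs : ∃ s, G.Tw76 t s
  · obtain ⟨s, hs⟩ := hs
    rw [ct_tw36 hs]
    have := twf36 hF.1 (by have := hF.2.1; omega) hs ht
    have := tw_g36 hF hs ht
    omega
  · rw [ct_hub36 hl hs]
    omega

/-- two low vertices in `F` -/
theorem T3.two (h : G.T3 F) {u v z : V} (huv : u ≠ v) (huz : u ≠ z) (hvz : v ≠ z)
    (hFe : F = {u, v, z}) (hu : G.Low u) (hv : G.Low v) (hz : ¬ G.Low z) :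
    -8 ≤ ∑ t ∈ G.N F, G.ct36 F t ∧
      ∀ c p q, G.Ad F c p q → -2 ≤ ∑ t ∈ G.N F, G.ct36 F t := by
  classical
  have hF := h.big
  have huF : u ∈ F := by rw [hFe]; exact mem_insert_self _ _
  have hvF : v ∈ F := by rw [hFe]; exact mem_insert_of_mem (mem_insert_self _ _)
  have hzF : z ∈ F := by
    rw [hFe]; exact mem_insert_of_mem (mem_insert_of_mem (mem_singleton_self _))
  have hf : ∀ t, (G.nb t ∩ F).card = (G.nb t ∩ {u, v}).card + (if t ∈ G.nb z then 1 else 0) := by
    intro t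
    have h1 := three36 huv huz hvz (G.nb t)
    have h2 : (G.nb t ∩ {u, v}).card = (if u ∈ G.nb t then 1 else 0) +
        (if v ∈ G.nb t then 1 else 0) := by
      have h1 : G.nb t ∩ {u, v} = ({u, v} : Finset V).filter (fun x => x ∈ G.nb t) := by
        ext x
        rw [mem_inter, mem_filter, and_comm]
      rw [h1, card_filter, sum_pair huv]
    have e : z ∈ G.nb t ↔ t ∈ G.nb z := ⟨G.sym _ _, G.sym _ _⟩
    rw [hFe, h1, h2]
    simp only [e]
  have ha2 : ∀ t, (G.nb t ∩ {u, v}).card ≤ 2 := by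
    intro t
    have := card_le_card (inter_subset_right (s₁ := G.nb t) (s₂ := ({u, v} : Finset V)))
    rw [card_pair huv] at this
    exact this
  have hpt : ∀ t ∈ G.N F, 2 * ((G.nb t ∩ {u, v}).card : ℤ) - 4 ≤ G.ct36 F t := by
    intro t ht
    have h2 := ha2 t
    by_cases hl : G.Low t
    · rw [ct_low36 hl]
      have h1 := fpos36 ht
      have h3 := hf t
      omega
    by_cases hs : ∃ s, G.Tw76 t s
    · obtain ⟨s, hs⟩ := hs
      rw [ct_tw36 hs, hf, if_pos (h.tw hzF hz hs ht)]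
      have := tw_g36 hF hs ht
      push_cast
      omega
    · rw [ct_hub36 hl hs]
      omega
  have hdeg : ∀ x ∈ F, G.Low x → 4 ≤ (G.nb x ∩ G.N F).card := by
    intro x hx hl
    have h1 := G.part36 F x
    have h2 : (G.nb x ∩ G.Co F).card = 0 := by
      rw [card_eq_zero]
      apply eq_empty_of_forall_notMem
      intro y hy
      rw [mem_inter] at hy
      exact noed36 hx hy.2 hy.1
    have h3 : (G.nb x).card = 6 := hl
    have h4 : (G.nb x ∩ F).card ≤ 2 := by
      have h5 : G.nb x ∩ F ⊆ F.erase x := by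
        intro y hy
        rw [mem_inter] at hy
        exact mem_erase.2 ⟨nb_ne76 hy.1, hy.2⟩
      have h6 := card_le_card h5
      rw [card_erase_of_mem hx, h.c3] at h6
      exact h6
    omega
  have hdc : ∑ t ∈ G.N F, ((G.nb t ∩ {u, v}).card : ℤ) =
      ((G.nb u ∩ G.N F).card : ℤ) + ((G.nb v ∩ G.N F).card : ℤ) := by
    have h1 := G.dc_36 (G.N F) {u, v}
    rw [sum_pair huv] at h1
    exact_mod_cast h1
  have hu4 := hdeg u huF hu
  have hv4 := hdeg v hvF hv
  constructor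
  · have h1 := sum_le_sum hpt
    rw [sum_sub_distrib, ← mul_sum, hdc, sum_const, hF.1.2.1] at h1
    simp only [nsmul_eq_mul] at h1
    push_cast at h1
    linarith [(Nat.cast_le (α := ℤ)).2 hu4, (Nat.cast_le (α := ℤ)).2 hv4]
  · intro c p q a
    have h2 : ∀ t ∈ G.N F, 2 * ((G.nb t ∩ {u, v}).card : ℤ) - 4 +
        (if t = c then 6 else 0) ≤ G.ct36 F t := by
      intro t ht
      by_cases e : t = c
      · rw [if_pos e, e, a.ct]
        have h3 := hf c
        have h4 := a.f1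
        omega
      · rw [if_neg e]
        have := hpt t ht
        omega
    have h1 := sum_le_sum h2
    rw [sum_add_distrib, sum_sub_distrib, ← mul_sum, hdc, sum_const, hF.1.2.1,
      sum_ite_eq' (G.N F) c (fun _ => (6 : ℤ)), if_pos a.hc] at h1
    simp only [nsmul_eq_mul] at h1
    push_cast at h1
    linarith [(Nat.cast_le (α := ℤ)).2 hu4, (Nat.cast_le (α := ℤ)).2 hv4]

theorem T3.final (h : G.T3 F) : 0 ≤ 16 * (G.l F : ℤ) - 24 + ∑ t ∈ G.N F, G.ct36 F t ∧
    ∀ c p q, G.Ad F c p q → 4 ≤ 16 * (G.l F : ℤ) - 24 + ∑ t ∈ G.N F, G.ct36 F t := by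
  classical
  obtain ⟨a, b, c, hab, hac, hbc, hFe⟩ := card_eq_three.1 h.c3
  have hl : G.l F = (if G.Low a then 1 else 0) + (if G.Low b then 1 else 0) +
      (if G.Low c then 1 else 0) := by
    unfold l
    rw [hFe, card_filter, sum_insert, sum_pair hbc, ← add_assoc]
    rw [mem_insert, mem_singleton, not_or]
    exact ⟨hab, hac⟩
  have e1 : F = {b, a, c} := by rw [hFe, insert_comm]
  have e2 : F = {c, a, b} := by
    rw [hFe, pair_comm b c, insert_comm]
  have e3 : F = {a, c, b} := by rw [hFe, pair_comm b c]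
  have e4 : F = {b, c, a} := by rw [e1, pair_comm a c]
  by_cases h1 : G.Low a <;> by_cases h2 : G.Low b <;> by_cases h3 : G.Low c
  · -- three low vertices
    rw [hl, if_pos h1, if_pos h2, if_pos h3]
    have h4 := sum_le_sum (fun t (ht : t ∈ G.N F) => ct_m2_36 h.big ht)
    rw [sum_const, h.big.1.2.1] at h4
    simp only [nsmul_eq_mul] at h4
    push_cast at h4 ⊢
    refine ⟨by linarith, fun _ _ _ _ => by linarith⟩
  · obtain ⟨k1, k2⟩ := h.two hab hac hbc hFe h1 h2 h3
    rw [hl, if_pos h1, if_pos h2, if_neg h3]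
    push_cast
    exact ⟨by linarith, fun c p q a => by linarith [k2 c p q a]⟩
  · obtain ⟨k1, k2⟩ := h.two hac hab hbc.symm e3 h1 h3 h2
    rw [hl, if_pos h1, if_neg h2, if_pos h3]
    push_cast
    exact ⟨by linarith, fun c p q a => by linarith [k2 c p q a]⟩
  · have hL : G.L1 F a b c := ⟨h, hFe, hab, hac, hbc, h1, h2, h3⟩
    have k1 := hL.main
    rw [hl, if_pos h1, if_neg h2, if_neg h3]
    push_cast
    exact ⟨by linarith, fun c p q a => by linarith [hL.add a]⟩
  · obtain ⟨k1, k2⟩ := h.two hbc hab.symm hac.symm e4 h2 h3 h1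
    rw [hl, if_neg h1, if_pos h2, if_pos h3]
    push_cast
    exact ⟨by linarith, fun c p q a => by linarith [k2 c p q a]⟩
  · have hL : G.L1 F b a c := ⟨h, e1, hab.symm, hbc, hac, h2, h1, h3⟩
    have k1 := hL.main
    rw [hl, if_neg h1, if_pos h2, if_neg h3]
    push_cast
    exact ⟨by linarith, fun c p q a => by linarith [hL.add a]⟩
  · have hL : G.L1 F c a b := ⟨h, e2, hac.symm, hbc.symm, hab, h3, h1, h2⟩
    have k1 := hL.main
    rw [hl, if_neg h1, if_neg h2, if_pos h3]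
    push_cast
    exact ⟨by linarith, fun c p q a => by linarith [hL.add a]⟩
  · have hL : G.L0 F := by
      refine ⟨h, ?_⟩
      intro v hv
      rw [hFe, mem_insert, mem_insert, mem_singleton] at hv
      rcases hv with rfl | rfl | rfl <;> assumption
    have k1 := hL.main
    rw [hl, if_neg h1, if_neg h2, if_neg h3]
    push_cast
    exact ⟨by linarith, fun c p q a => absurd (hL.add a) not_false⟩

theorem stF3_36 (G : CG V) : G.StF3 := by
  classical
  intro hsat F hF h3 hcov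
  have h : G.T3 F := ⟨hF, h3, sat_iff76.1 hsat, fun z hz t ht hzt =>
    cls76 (hcov z hz t hzt (nE36 ht))⟩
  have hP : G.P4 F = 16 * (G.l F : ℤ) - 24 + ∑ t ∈ G.N F, G.ct36 F t := by
    rw [stP4_11 G F hF.1, h3]
    have a1 : ∑ t ∈ G.N F, G.ct36 F t =
        ∑ w ∈ (G.N F).filter (fun w => G.Low w),
          (4 * (G.d w F : ℤ) + 2 * (G.d w (G.N F) : ℤ) - 4) +
        ∑ w ∈ (G.N F).filter (fun w => G.IsTw w),
          (2 * (G.d w F : ℤ) + (G.d w (G.N F) : ℤ) - 7) := by
      rw [sum_filter, sum_filter, ← sum_add_distrib]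
      apply sum_congr rfl
      intro t _
      unfold ct36 d
      congr 1
      have e : G.IsTw t ↔ ∃ s, G.Tw76 t s := isTw_iff76
      simp only [e]
    rw [a1]
    push_cast
    ring
  obtain ⟨h1, h2⟩ := h.final
  rw [hP]
  refine ⟨h1, ?_⟩
  intro c hc q q' hl hd hq hN
  exact h2 c q q' ⟨hc, hl, hd, tw_iff76.1 hq, hN⟩

end CG

end Pool.Agent.Lib.MP_e95c01_co.N
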