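import Pool.Agent.Lib.MP_e95c01_co.U.StCap26

/-!
# U13: torsos without exceptions
-/

namespace Pool.Agent.Lib.MP_e95c01_co.N

open Finset

variable {V : Type} [Fintype V] [DecidableEq V]

namespace CG

open Classical in
theorem stGenericU_26 (G : CG V) (h6 : G.StCh4) (h9 : G.StLowK)
    (h10 : G.StTwK) (h11 : G.StNeedy) (h12 : G.StCap) : G.StGenericU := by
  intro Fa t e hW
  have mem : ∀ z B, G.I Fa z = {B} → B ∈ Fa ∧ z ∈ G.N B := by
    intro z B h
    have : B ∈ G.I Fa z := by
      rw [h]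
      exact mem_singleton_self _
    exact mem_I76.1 this
  -- low vertices
  have hlow : ∀ z ∈ R Fa, G.Low z → 0 ≤ G.ch4 Fa z := by
    intro z hz hl
    obtain ⟨c0, c1, c2⟩ := (h6 t.n9 Fa t.reg z hz).1 hl
    rcases Nat.lt_or_ge (G.I Fa z).card 2 with h | h
    · rcases Nat.lt_or_ge (G.I Fa z).card 1 with h' | h'
      · rw [c0 (card_eq_zero.1 (by omega))]
        positivity
      · obtain ⟨B, hB⟩ := card_eq_one.1 (by omega : (G.I Fa z).card = 1)
        obtain ⟨w1, w2, w3⟩ := hW z hz B hB
        rcases h9 Fa t z hz hl B hB w1 with h2 | ⟨v, h2⟩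
        · exact h2
        · obtain ⟨g1, g2, g3, g4, g5, g6, -⟩ := h2
          have h3 := w3 hl v g2 g1 g3
          have h4 : (G.nb z ∪ G.nb v) ∩ G.Co B ⊆ G.nb v ∩ G.Co B := by
            intro y hy
            rw [mem_inter, mem_union] at hy
            rw [mem_inter]
            rcases hy with ⟨hy | hy, hy2⟩
            · exact ⟨g5 (mem_inter.2 ⟨hy, hy2⟩), hy2⟩
            · exact ⟨hy, hy2⟩
          have h5 := card_le_card h4
          unfold d at g6
          omega
    · exact c2 h
  -- twin vertices in a neighbourhood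
  have htw3 : ∀ z ∈ R Fa, ∀ B, G.I Fa z = {B} → G.IsTw z → 3 ≤ G.d z (G.Co B) :=
    fun z hz B hB hT => (hW z hz B hB).2.1 hT
  have htw : ∀ z ∈ R Fa, G.IsTw z → ¬ G.Needy Fa z → 0 ≤ G.ch4 Fa z := by
    intro z hz hT hn
    obtain ⟨c0, c1, c2⟩ := (h6 t.n9 Fa t.reg z hz).2.1 hT
    rcases Nat.lt_or_ge (G.I Fa z).card 2 with h | h
    · rcases Nat.lt_or_ge (G.I Fa z).card 1 with h' | h'
      · by_contra hc
        exact hn ⟨hz, hT, card_eq_zero.1 (by omega), not_le.1 hc⟩
      · obtain ⟨B, hB⟩ := card_eq_one.1 (by omega : (G.I Fa z).card = 1)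
        rcases h10 Fa t z hz hT B hB (htw3 z hz B hB hT) with h2 | ⟨l, h2⟩
        · exact h2
        · obtain ⟨g1, g2, g3, g4, g5, -⟩ := h2
          have hlR : l ∈ R Fa := N_sub_R76 t.reg (mem l B g3).1 (mem l B g3).2
          have h3 := (hW l hlR B g3).2.2 g1 z (G.sym _ _ g2) hT hB
          have h4 : (G.nb l ∪ G.nb z) ∩ G.Co B ⊆ G.nb z ∩ G.Co B := by
            intro y hy
            rw [mem_inter, mem_union] at hy
            rcases hy with ⟨hy | hy, hy2⟩
            · rw [← g4]
              exact mem_inter.2 ⟨hy, hy2⟩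
            · exact mem_inter.2 ⟨hy, hy2⟩
          have h5 := card_le_card h4
          unfold d at g5
          omega
    · exact c2 h
  -- hubs
  have hhub : ∀ z ∈ R Fa, G.Hub z → (G.qn Fa z : ℤ) ≤ G.ch4 Fa z := by
    intro z hz hu
    rcases Nat.lt_or_ge (G.I Fa z).card 2 with h | h
    · rcases Nat.lt_or_ge (G.I Fa z).card 1 with h' | h'
      · exact h12.hub0 Fa t e z hz hu (card_eq_zero.1 (by omega))
      · obtain ⟨B, hB⟩ := card_eq_one.1 (by omega : (G.I Fa z).card = 1)
        exact h12.hub1 Fa t e z hz hu B hB (hW z hz B hB).1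
    · exact ((h6 t.n9 Fa t.reg z hz).2.2 hu).2.2 h
  have hneed := h11 Fa t e htw3 hlow
  -- where the payers are
  have hQR : ∀ x v, G.Qual Fa x v → x ∈ R Fa ∧ G.Hub x := by
    rintro x v ⟨h1, h2, h3, -⟩
    exact ⟨Cap26.nbR h1.1 h1.2.2.1 h3, h2⟩
  have hPR : ∀ l v, G.PL Fa l v → l ∈ R Fa ∧ G.Low l := by
    rintro l v ⟨h1, h2, h3, -⟩
    exact ⟨Cap26.nbR h1.1 h1.2.2.1 h3, h2⟩
  -- double counting
  have e1 : ∑ v : V, ((univ.filter fun x => G.Qual Fa x v).card : ℤ) =
      ∑ x : V, (G.qn Fa x : ℤ) := by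
    have h1 : ∀ v : V, ((univ.filter fun x => G.Qual Fa x v).card : ℤ) =
        ∑ x : V, if G.Qual Fa x v then (1 : ℤ) else 0 := by
      intro v
      rw [card_filter]
      push_cast
      rfl
    have h2 : ∀ x : V, (G.qn Fa x : ℤ) = ∑ v : V, if G.Qual Fa x v then (1 : ℤ) else 0 := by
      intro x
      unfold qn
      rw [card_filter]
      push_cast
      rfl
    rw [sum_congr rfl fun v _ => h1 v, sum_congr rfl fun x _ => h2 x, sum_comm]
  have e2 : ∑ v : V, ∑ l ∈ univ.filter (fun l => G.PL Fa l v), G.ch4 Fa l =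
      ∑ l : V, ((univ.filter fun v => G.PL Fa l v).card : ℤ) * G.ch4 Fa l := by
    have h1 : ∀ v : V, ∑ l ∈ univ.filter (fun l => G.PL Fa l v), G.ch4 Fa l =
        ∑ l : V, if G.PL Fa l v then G.ch4 Fa l else 0 := by
      intro v
      rw [sum_filter]
    have h2 : ∀ l : V, ((univ.filter fun v => G.PL Fa l v).card : ℤ) * G.ch4 Fa l =
        ∑ v : V, if G.PL Fa l v then G.ch4 Fa l else 0 := by
      intro l
      rw [← sum_filter, sum_const, nsmul_eq_mul]
    rw [sum_congr rfl fun v _ => h1 v, sum_congr rfl fun x _ => h2 x, sum_comm]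
  -- restriction to the torso
  set p : V → ℤ := fun v => 2 * ((univ.filter fun x => G.Qual Fa x v).card : ℤ) +
    ∑ l ∈ univ.filter (fun l => G.PL Fa l v), G.ch4 Fa l with hp
  set q : V → ℤ := fun x => 2 * (G.qn Fa x : ℤ) +
    ((univ.filter fun v => G.PL Fa x v).card : ℤ) * G.ch4 Fa x with hq
  have e3 : ∑ v : V, p v = ∑ x : V, q x := by
    rw [hp, hq, sum_add_distrib, sum_add_distrib, ← mul_sum, ← mul_sum, e1, e2]
  have p0 : ∀ v, ¬ G.Needy Fa v → p v = 0 := by
    intro v hv
    have h1 : (univ.filter fun x => G.Qual Fa x v) = ∅ := by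
      rw [filter_eq_empty_iff]
      intro x _ h
      exact hv h.1
    have h2 : (univ.filter fun l => G.PL Fa l v) = ∅ := by
      rw [filter_eq_empty_iff]
      intro x _ h
      exact hv h.1
    rw [hp]
    simp only
    rw [h1, h2, card_empty, sum_empty]
    norm_num
  have qn0 : ∀ x, ¬ (x ∈ R Fa ∧ G.Hub x) → G.qn Fa x = 0 := by
    intro x hx
    unfold qn
    rw [card_eq_zero, filter_eq_empty_iff]
    intro v _ h
    exact hx (hQR x v h)
  have pl0 : ∀ x, ¬ (x ∈ R Fa ∧ G.Low x) → (univ.filter fun v => G.PL Fa x v).card = 0 := by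
    intro x hx
    rw [card_eq_zero, filter_eq_empty_iff]
    intro v _ h
    exact hx (hPR x v h)
  have q0 : ∀ x, x ∉ R Fa → q x = 0 := by
    intro x hx
    rw [hq]
    simp only
    rw [qn0 x (fun h => hx h.1), pl0 x (fun h => hx h.1)]
    norm_num
  have e4 : ∑ v ∈ R Fa, p v = ∑ v : V, p v := by
    apply sum_subset (subset_univ _)
    intro v _ hv
    exact p0 v (fun h => hv h.1)
  have e5 : ∑ v ∈ R Fa, q v = ∑ v : V, q v := by
    apply sum_subset (subset_univ _)
    intro v _ hv
    exact q0 v hv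
  -- pointwise
  have hpt : ∀ z ∈ R Fa, q z - p z ≤ 2 * G.ch4 Fa z := by
    intro z hz
    by_cases hl : G.Low z
    · have h1 : ¬ G.Needy Fa z := fun h => Cap26.istw_low h.2.1 hl
      have h2 := qn0 z (fun h => h.2.1 hl)
      have h3 := h12.low Fa t e z
      have h4 := hlow z hz hl
      have h5 : ((univ.filter fun v => G.PL Fa z v).card : ℤ) ≤ 2 := by exact_mod_cast h3
      rw [p0 z h1, hq]
      simp only
      rw [h2]
      have h6 := mul_le_mul_of_nonneg_right h5 h4
      push_cast
      linarith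
    · have h0 := pl0 z (fun h => hl h.2)
      by_cases hT : G.IsTw z
      · have h2 := qn0 z (fun h => h.2.2 hT)
        by_cases hn : G.Needy Fa z
        · have h3 := hneed z hn
          rw [hp, hq]
          simp only
          rw [h2, h0]
          push_cast
          linarith
        · have h3 := htw z hz hT hn
          rw [p0 z hn, hq]
          simp only
          rw [h2, h0]
          push_cast
          linarith
      · have h1 : ¬ G.Needy Fa z := fun h => hT h.2.1
        have h3 := hhub z hz ⟨hl, hT⟩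
        rw [p0 z h1, hq]
        simp only
        rw [h0]
        push_cast
        linarith
  have h := sum_le_sum hpt
  rw [sum_sub_distrib, e4, e5, e3, sub_self, ← mul_sum] at h
  linarith

end CG

end Pool.Agent.Lib.MP_e95c01_co.N
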