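import Pool.Agent.Lib.MP_e95c01_co.U.Aux5

/-!
# U8: hubs
-/

namespace Pool.Agent.Lib.MP_e95c01_co.N

open Finset

variable {V : Type} [Fintype V] [DecidableEq V]

namespace CG

variable {G : CG V} {Fa : Finset (Finset V)}

/-- the middle vertex of `HL z b t` pays `z` -/
theorem HLb_paid5 (h7 : G.StTwHL) (hT : G.TorsoU Fa) {z b t : V} (h : G.HL z b t)
    (hb : b ∈ G.nR Fa z) : b ∈ G.nR Fa z ∧ G.Low b ∧ ¬ ∃ b', G.HL z b' b := by
  refine ⟨hb, h.2.1, ?_⟩
  rintro ⟨b', h'⟩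
  exact h7.nomut hT.n9 _ _ _ _ _ h' h rfl

/-- a hub pair of twins gives two -/
theorem hub_tt5 {z v w : V} (hz : G.Hub z) (h1 : v ∈ G.nR Fa z) (h2 : w ∈ G.nR Fa z)
    (h : G.Tw v w) (hs : G.Tw w v) : 2 ≤ G.tt Fa z :=
  tt_two5 h1 ⟨⟨w, h⟩, fun h3 => hz.2 ⟨v, h3⟩⟩ h2 ⟨⟨v, hs⟩, fun h3 => hz.2 ⟨w, h3⟩⟩ (ne_of_nb5 h.1)

theorem hub1_5 (h7 : G.StTwHL) (h6 : G.StCh4) (hT : G.TorsoU Fa) {z : V} (hz : z ∈ R Fa)
    (hh : G.Hub z) {B : Finset V} (hI : G.I Fa z = {B}) (hd : 2 ≤ G.d z (G.Co B)) :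
    0 ≤ G.ch4 Fa z := by
  have hB : B ∈ G.I Fa z := by rw [hI]; exact mem_singleton_self _
  have hch := ((h6 hT.n9 Fa hT.reg z hz).2.2 hh).2.1 B hI
  suffices h0 : 1 ≤ G.tp Fa z ∨ 2 ≤ G.tt Fa z by
    rcases h0 with h0 | h0
    · have : (1 : ℤ) ≤ (G.tp Fa z : ℤ) := by exact_mod_cast h0
      have h2 : (0 : ℤ) ≤ (G.tt Fa z : ℤ) := by positivity
      linarith
    · have : (2 : ℤ) ≤ (G.tt Fa z : ℤ) := by exact_mod_cast h0
      have h2 : (0 : ℤ) ≤ (G.tp Fa z : ℤ) := by positivity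
      linarith
  by_cases hHL : ∃ b t, G.HL z b t
  · left
    obtain ⟨b, t, h⟩ := hHL
    have hb : b ∈ G.nR Fa z := by
      refine nR_of5 hz h.2.2.1 ?_
      intro B' hB' hbB
      rw [hI, mem_singleton] at hB'
      subst hB'
      have h1 : G.nb z ∩ G.Co B' ⊆ {t} := by
        intro x hx
        rw [mem_inter] at hx
        have h2 : x ∈ insert t (G.cl b) := by
          rw [← h.2.2.2.2, cl]
          exact mem_insert_of_mem hx.1
        rw [mem_insert] at h2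
        rcases h2 with h2 | h2
        · rw [mem_singleton]
          exact h2
        · exfalso
          rw [cl, mem_insert] at h2
          rcases h2 with h2 | h2
          · subst h2
            exact (mem_Co76.1 hx.2).1 hbB
          · exact nb_Co76 hx.2 (G.sym _ _ h2) hbB
      have h2 := Finset.card_le_card h1
      rw [Finset.card_singleton] at h2
      unfold d at hd
      omega
    obtain ⟨h1, h2, h3⟩ := HLb_paid5 h7 hT h hb
    exact tp_mem5 h1 h2 h3
  · have hno : ∀ x, ¬ ∃ b, G.HL z b x := fun x ⟨b, h⟩ => hHL ⟨b, x, h⟩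
    have h1 : (G.nb z ∩ G.Co B).Nonempty := by
      rw [← Finset.card_pos]
      unfold d at hd
      omega
    obtain ⟨x, hx⟩ := h1
    rcases cov5 hT hz (nR_Co5 hz hI hx) (m_Co5 hI (mem_inter.1 hx).2) with h | h | h | h | h
    · obtain ⟨w, h1, h2, h3⟩ := h
      exact Or.inl (tp_mem5 h1 h2 (hno _))
    · obtain ⟨v, w, h1, h2, h3, h4, h5⟩ := h
      exact Or.inr (hub_tt5 hh h1 h2 h3 (h7.symm _ _ h3))
    · obtain ⟨a, b, h1, h2⟩ := h
      exact absurd (hT.sat _ _ _ h2) hh.1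
    · obtain ⟨a, b, h1, h2, h3⟩ := h
      exact Or.inl (tp_mem5 h1 h2.2.1 (hno _))
    · obtain ⟨a, b, h1, h2⟩ := h
      exact Or.inl (tp_mem5 h1 h2.1 (hno _))

theorem hub0_5 (h7 : G.StTwHL) (h6 : G.StCh4) (hT : G.TorsoU Fa) {z : V} (hz : z ∈ R Fa)
    (hh : G.Hub z) (hI : G.I Fa z = ∅) : 0 ≤ G.ch4 Fa z := by
  have hch := ((h6 hT.n9 Fa hT.reg z hz).2.2 hh).1 hI
  have hnR : ∀ x ∈ G.nb z, x ∈ G.nR Fa z := by
    intro x hx
    refine nR_of5 hz hx ?_
    intro B hB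
    rw [hI] at hB
    exact absurd hB (Finset.notMem_empty _)
  suffices h0 : 4 ≤ 2 * G.tp Fa z + G.tt Fa z by
    have : (4 : ℤ) ≤ 2 * (G.tp Fa z : ℤ) + (G.tt Fa z : ℤ) := by exact_mod_cast h0
    linarith
  by_cases hHL : ∃ b t, G.HL z b t
  · obtain ⟨b, t, h⟩ := hHL
    have hb := hnR b h.2.2.1
    have hpb := HLb_paid5 h7 hT h hb
    have hp1 := tp_mem5 hpb.1 hpb.2.1 hpb.2.2
    by_contra hcon
    -- no twin neighbours
    have htw : ∀ v w, v ∈ G.nR Fa z → w ∈ G.nR Fa z → ¬ G.Tw v w := by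
      intro v w h1 h2 h3
      have := hub_tt5 hh h1 h2 h3 (h7.symm _ _ h3)
      omega
    -- low neighbours are `b` and `t`
    have hlow : ∀ x ∈ G.nR Fa z, G.Low x → x = b ∨ x = t := by
      intro x hx hxl
      by_cases hxb : x = b
      · exact Or.inl hxb
      right
      by_cases hx2 : ∃ b', G.HL z b' x
      · obtain ⟨b', hb'⟩ := hx2
        by_contra hxt
        have h1 := h7.two hT.n9 _ _ _ _ _ h hb' (fun e => hxt e.symm)
        have hpb' := HLb_paid5 h7 hT hb' (hnR b' hb'.2.2.1)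
        have := tp_two5 hpb.1 hpb.2.1 hpb.2.2 hpb'.1 hpb'.2.1 hpb'.2.2 h1.2.2
        omega
      · exfalso
        have := tp_two5 hpb.1 hpb.2.1 hpb.2.2 hx hxl hx2 (fun e => hxb e.symm)
        omega
    have ht := hnR t (HL_nb5 h)
    have htb : t ∉ G.nb b := fun h1 => h.2.2.2.1 (by rw [cl]; exact mem_insert_of_mem h1)
    have htb' : t ≠ b := fun h1 => h.2.2.2.1 (by rw [cl, h1]; exact mem_insert_self _ _)
    rcases cov5 hT hz ht (m_empty5 hI) with h' | h' | h' | h' | h'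
    · obtain ⟨w, h1, h2, h3⟩ := h'
      rcases hlow w h1 h2 with rfl | rfl
      · exact htb h3
      · exact G.irr _ h3
    · obtain ⟨v, w, h1, h2, h3, -⟩ := h'
      exact htw v w h1 h2 h3
    · obtain ⟨a, b', h1, h2⟩ := h'
      exact hh.1 (hT.sat _ _ _ h2)
    · obtain ⟨a, b', h1, h2, h3⟩ := h'
      rcases hlow b' h1 h2.2.1 with rfl | rfl
      · exact h3 (h7.one hT.n9 _ _ _ _ h h2)
      · exact h2.2.2.2.1 (by rw [cl]; exact mem_insert_self _ _)
    · obtain ⟨a, b', h1, h2⟩ := h'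
      rcases hlow a h1 h2.1 with rfl | rfl
      · have h3 : b' ∈ G.cl z := by
          rw [h.2.2.2.2]
          refine mem_insert_of_mem ?_
          rw [cl]
          exact mem_insert_of_mem h2.2.2.1
        rw [cl, mem_insert] at h3
        rcases h3 with h3 | h3
        · subst h3
          exact hh.1 h2.2.1
        · exact h2.2.2.2.2.1 (by rw [cl]; exact mem_insert_of_mem (G.sym _ _ h3))
      · exact h2.2.2.2.2.2.1 (by rw [cl]; exact mem_insert_self _ _)
  · have hno : ∀ x, ¬ ∃ b, G.HL z b x := fun x ⟨b, h⟩ => hHL ⟨b, x, h⟩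
    by_contra hcon
    by_cases hp : G.tp Fa z = 0
    · have hnl : ∀ x ∈ G.nR Fa z, ¬ G.Low x := by
        intro x hx hxl
        have := tp_mem5 hx hxl (hno x)
        omega
      have hpair : ∀ x ∈ G.nb z, ∃ v w, v ∈ G.nR Fa z ∧ w ∈ G.nR Fa z ∧ G.Tw v w ∧
          x ∈ G.nb v ∧ x ∈ G.nb w := by
        intro x hx
        rcases cov5 hT hz (hnR x hx) (m_empty5 hI) with h' | h' | h' | h' | h'
        · obtain ⟨w, h1, h2, h3⟩ := h'
          exact absurd h2 (hnl w h1)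
        · exact h'
        · obtain ⟨a, b', h1, h2⟩ := h'
          exact absurd (hT.sat _ _ _ h2) hh.1
        · obtain ⟨a, b', h1, h2, h3⟩ := h'
          exact absurd h2.2.1 (hnl b' h1)
        · obtain ⟨a, b', h1, h2⟩ := h'
          exact absurd h2.1 (hnl a h1)
      have hne : (G.nb z).Nonempty := by
        rw [← Finset.card_pos]
        have := G.deg z
        omega
      obtain ⟨x, hx⟩ := hne
      obtain ⟨v, w, h1, h2, h3, -, -⟩ := hpair x hx
      obtain ⟨v', w', k1, k2, k3, k4, k5⟩ := hpair v (mem_nR76.1 h1).1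
      obtain ⟨e1, e2, e3, e4, e5, e6⟩ := pairs5 h7 hT.n9 h3 k3 k4 k5
      have hn : ∀ y, ¬ G.Tw z y := fun y h => hh.2 ⟨y, h⟩
      have := tt_four5 h1 ⟨⟨w, h3⟩, hn _⟩ h2 ⟨⟨v, h7.symm _ _ h3⟩, hn _⟩ k1 ⟨⟨w', k3⟩, hn _⟩
        k2 ⟨⟨v', h7.symm _ _ k3⟩, hn _⟩ e1 e2 e3 e4 e5 e6
      omega
    · have hp1 : G.tp Fa z = 1 := by omega
      have hcl : ∃ l ∈ G.nR Fa z, G.Low l := by
        classical
        by_contra hc
        push Not at hc
        apply hp
        rw [tp, Finset.card_eq_zero, Finset.eq_empty_iff_forall_notMem]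
        intro x hx
        rw [mem_filter] at hx
        exact hc x hx.1 hx.2.1
      obtain ⟨l, hl, hll⟩ := hcl
      have huni : ∀ x ∈ G.nR Fa z, G.Low x → x = l := by
        intro x hx hxl
        by_contra hne
        have := tp_two5 hx hxl (hno _) hl hll (hno _) hne
        omega
      rcases cov5 hT hz hl (m_empty5 hI) with h' | h' | h' | h' | h'
      · obtain ⟨w, h1, h2, h3⟩ := h'
        have := huni w h1 h2
        subst this
        exact G.irr _ h3
      · obtain ⟨v, w, h1, h2, h3, -⟩ := h'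
        have := hub_tt5 hh h1 h2 h3 (h7.symm _ _ h3)
        omega
      · obtain ⟨a, b', h1, h2⟩ := h'
        exact absurd (hT.sat _ _ _ h2) hh.1
      · obtain ⟨a, b', h1, h2, h3⟩ := h'
        have := huni b' h1 h2.2.1
        subst this
        exact h2.2.2.2.1 (by rw [cl]; exact mem_insert_self _ _)
      · obtain ⟨a, b', h1, h2⟩ := h'
        have := huni a h1 h2.1
        subst this
        exact h2.2.2.2.2.2.1 (by rw [cl]; exact mem_insert_self _ _)

theorem stHub_5 (G : CG V) (h7 : G.StTwHL) (h6 : G.StCh4) : G.StHub :=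
  fun _ hT _ hz hh => ⟨fun hI => hub0_5 h7 h6 hT hz hh hI, fun _ hI hd => hub1_5 h7 h6 hT hz hh hI hd⟩

end CG

end Pool.Agent.Lib.MP_e95c01_co.N
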