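import Pool.Agent.Lib.MP_e95c01_co.U.LeafV33

/-!
# U18b: leaves that consist of two adjacent pairs of twins
-/

namespace Pool.Agent.Lib.MP_e95c01_co.N

open Finset

variable {V : Type} [Fintype V] [DecidableEq V]

namespace CG

variable {G : CG V} {F : Finset V}

/-- two adjacent pairs of twins -/
structure K433 (G : CG V) (F : Finset V) (f f' g g' : V) : Prop where
  tf : G.Tw f f'
  tg : G.Tw g g'
  mem : ∀ x, x ∈ F ↔ x = f ∨ x = f' ∨ x = g ∨ x = g'
  adj : ∀ x ∈ F, ∀ y ∈ F, x ≠ y → y ∈ G.nb x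
  tw : ∀ x ∈ F, G.IsTw x
  ne1 : f ≠ g
  ne2 : f ≠ g'
  ne3 : f' ≠ g
  ne4 : f' ≠ g'

namespace K433

variable {f f' g g' : V}

theorem swap (k : K433 G F f f' g g') : K433 G F g g' f f' := by
  refine ⟨k.tg, k.tf, fun x => ?_, k.adj, k.tw, k.ne1.symm, k.ne3.symm, k.ne2.symm, k.ne4.symm⟩
  rw [k.mem]
  tauto

theorem fF (k : K433 G F f f' g g') : f ∈ F := (k.mem f).2 (Or.inl rfl)

theorem fF' (k : K433 G F f f' g g') : f' ∈ F := (k.mem f').2 (Or.inr (Or.inl rfl))

theorem gF (k : K433 G F f f' g g') : g ∈ F := k.swap.fF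

theorem gF' (k : K433 G F f f' g g') : g' ∈ F := k.swap.fF'

theorem nlow (k : K433 G F f f' g g') {x : V} (hx : x ∈ F) : ¬ G.Low x := not_low33 (k.tw x hx)

theorem eqF (k : K433 G F f f' g g') : F = {f, f', g, g'} := by
  ext x
  rw [k.mem]
  simp only [mem_insert, mem_singleton]

theorem F4 (k : K433 G F f f' g g') : F.card = 4 := by
  rw [k.eqF, card_insert_of_notMem, card_insert_of_notMem, card_pair k.tg.ne33]
  · simp [k.ne3, k.ne4]
  · simp [k.ne1, k.ne2, k.tf.ne33]

/-- the vertices of `N F` adjacent to `f` and not to `g` -/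
def AA (G : CG V) (F : Finset V) (f g : V) : Finset V :=
  (G.N F).filter fun w => w ∈ G.nb f ∧ w ∉ G.nb g

/-- the vertices of `N F` adjacent to `f` and to `g` -/
def MM (G : CG V) (F : Finset V) (f g : V) : Finset V :=
  (G.N F).filter fun w => w ∈ G.nb f ∧ w ∈ G.nb g

theorem mm_swap : MM G F g f = MM G F f g := by
  unfold MM
  ext w
  rw [mem_filter, mem_filter]
  tauto

theorem f'w (k : K433 G F f f' g g') (c : Lf33 G F) {w : V} (hw : w ∈ G.N F)
    (h : w ∈ G.nb f) : w ∈ G.nb f' := by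
  refine k.tf.nb33 h ?_
  rintro rfl
  exact c.ndisj k.fF' hw

theorem fw (k : K433 G F f f' g g') (c : Lf33 G F) {w : V} (hw : w ∈ G.N F)
    (h : w ∈ G.nb f') : w ∈ G.nb f := by
  refine k.tf.sym33.nb33 h ?_
  rintro rfl
  exact c.ndisj k.fF hw

theorem all (k : K433 G F f f' g g') (c : Lf33 G F) {w : V} (hw : w ∈ G.N F) :
    w ∈ AA G F f g ∨ w ∈ AA G F g f ∨ w ∈ MM G F f g := by
  obtain ⟨-, u, hu, h⟩ := mem_N37.1 hw
  have h1 : w ∈ G.nb f ∨ w ∈ G.nb g := by
    rcases (k.mem u).1 hu with rfl | rfl | rfl | rfl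
    · exact Or.inl h
    · exact Or.inl (k.fw c hw h)
    · exact Or.inr h
    · exact Or.inr (k.swap.fw c hw h)
  unfold AA MM
  rw [mem_filter, mem_filter, mem_filter]
  tauto

theorem dA (k : K433 G F f f' g g') (c : Lf33 G F) {w : V} (hw : w ∈ AA G F f g) :
    G.d w F = 2 := by
  unfold AA at hw
  rw [mem_filter] at hw
  obtain ⟨hw, h1, h2⟩ := hw
  have : G.nb w ∩ F = {f, f'} := by
    ext x
    rw [mem_inter, mem_insert, mem_singleton, k.mem]
    constructor
    · rintro ⟨h3, h4 | h4 | h4 | h4⟩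
      · exact Or.inl h4
      · exact Or.inr h4
      · exact absurd (G.sym _ _ (h4 ▸ h3)) h2
      · exact absurd (k.swap.fw c hw (G.sym _ _ (h4 ▸ h3))) h2
    · rintro (h3 | h3)
      · exact ⟨h3 ▸ G.sym _ _ h1, Or.inl h3⟩
      · exact ⟨h3 ▸ G.sym _ _ (k.f'w c hw h1), Or.inr (Or.inl h3)⟩
  unfold d
  rw [this, card_pair k.tf.ne33]

theorem dM (k : K433 G F f f' g g') (c : Lf33 G F) {w : V} (hw : w ∈ MM G F f g) :
    G.d w F = 4 := by
  unfold MM at hw
  rw [mem_filter] at hw
  obtain ⟨hw, h1, h2⟩ := hw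
  rw [← k.F4]
  apply d_full33
  intro x hx
  rcases (k.mem x).1 hx with rfl | rfl | rfl | rfl
  · exact G.sym _ _ h1
  · exact G.sym _ _ (k.f'w c hw h1)
  · exact G.sym _ _ h2
  · exact G.sym _ _ (k.swap.f'w c hw h2)

theorem dfT (k : K433 G F f f' g g') (c : Lf33 G F) : G.d f (G.N F) = 4 := by
  have h1 := c.dF k.fF
  have h2 : G.d f F = 3 := by
    have : G.nb f ∩ F = F.erase f := by
      ext x
      rw [mem_inter, mem_erase]
      constructor
      · rintro ⟨h3, h4⟩
        exact ⟨(ne_of_nb5 h3).symm, h4⟩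
      · rintro ⟨h3, h4⟩
        exact ⟨k.adj f k.fF x h4 h3.symm, h4⟩
    unfold d
    rw [this, card_erase_of_mem k.fF, k.F4]
  have h3 := k.tf.2.1
  omega

theorem cA (k : K433 G F f f' g g') (c : Lf33 G F) :
    (AA G F f g).card + (MM G F f g).card = 4 := by
  rw [← k.dfT c]
  unfold AA MM d
  rw [← card_union_of_disjoint]
  · congr 1
    ext w
    rw [mem_union, mem_filter, mem_filter, mem_inter]
    tauto
  · rw [disjoint_filter]
    tauto

theorem cT (k : K433 G F f f' g g') (c : Lf33 G F) :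
    (AA G F f g).card + (AA G F g f).card + (MM G F f g).card = 6 := by
  rw [← c.cardT]
  have h1 : G.N F = (AA G F f g ∪ AA G F g f) ∪ MM G F f g := by
    ext w
    rw [mem_union, mem_union]
    constructor
    · intro h
      rcases k.all c h with h | h | h
      · exact Or.inl (Or.inl h)
      · exact Or.inl (Or.inr h)
      · exact Or.inr h
    · rintro ((h | h) | h)
      · exact (mem_filter.1 h).1
      · exact (mem_filter.1 h).1
      · exact (mem_filter.1 h).1
  conv_rhs => rw [h1]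
  rw [card_union_of_disjoint, card_union_of_disjoint]
  · unfold AA
    rw [disjoint_filter]
    tauto
  · rw [disjoint_union_left]
    unfold AA MM
    rw [disjoint_filter, disjoint_filter]
    tauto

theorem cards (k : K433 G F f f' g g') (c : Lf33 G F) :
    (AA G F f g).card = 2 ∧ (AA G F g f).card = 2 ∧ (MM G F f g).card = 2 := by
  have h1 := k.cA c
  have h2 := k.swap.cA c
  have h3 := k.cT c
  rw [mm_swap] at h2
  omega

/-- the twin of a vertex of `A` is in `A`, the twin of a vertex of `M` is in `M` -/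
theorem twA (k : K433 G F f f' g g') (c : Lf33 G F) {w w' : V} (hw : w ∈ AA G F f g)
    (h : G.Tw w w') : w' ∈ AA G F f g := by
  unfold AA at hw ⊢
  rw [mem_filter] at hw ⊢
  have hw' := c.twT hw.1 h
  refine ⟨hw', ?_, ?_⟩
  · exact G.sym _ _ (h.nb33 (G.sym _ _ hw.2.1) (fun e => c.ndisj k.fF (e ▸ hw')))
  · intro h1
    exact hw.2.2 (G.sym _ _ (h.sym33.nb33 (G.sym _ _ h1) (fun e => c.ndisj k.gF (e ▸ hw.1))))

theorem twM (k : K433 G F f f' g g') (c : Lf33 G F) {w w' : V} (hw : w ∈ MM G F f g)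
    (h : G.Tw w w') : w' ∈ MM G F f g := by
  unfold MM at hw ⊢
  rw [mem_filter] at hw ⊢
  have hw' := c.twT hw.1 h
  refine ⟨hw', ?_, ?_⟩
  · exact G.sym _ _ (h.nb33 (G.sym _ _ hw.2.1) (fun e => c.ndisj k.fF (e ▸ hw')))
  · exact G.sym _ _ (h.nb33 (G.sym _ _ hw.2.2) (fun e => c.ndisj k.gF (e ▸ hw')))

theorem MT {w : V} (hw : w ∈ MM G F f g) : w ∈ G.N F := (mem_filter.1 hw).1

theorem AT {w : V} (hw : w ∈ AA G F f g) : w ∈ G.N F := (mem_filter.1 hw).1

theorem AM {w : V} (hw : w ∈ AA G F f g) : w ∉ MM G F f g := fun h =>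
  (mem_filter.1 hw).2.2 (mem_filter.1 h).2.2

/-- covers of the edge `f a` -/
theorem covA (k : K433 G F f f' g g') (c : Lf33 G F) {a : V} (ha : a ∈ AA G F f g) :
    (∃ a' ∈ AA G F f g, G.Low a' ∧ a' ∈ G.nb a) ∨ (∃ m ∈ MM G F f g, G.Low m ∧ m ∈ G.nb a) ∨
    (G.Low a ∧ ∃ x ∈ MM G F f g, ∃ y ∈ MM G F f g, G.HL x y a) := by
  have haT := AT ha
  have haf : a ∈ G.nb f := (mem_filter.1 ha).2.1
  have hag : a ∉ G.nb g := (mem_filter.1 ha).2.2
  -- a vertex of `N F` adjacent to `f`
  have cl : ∀ w, w ∈ G.N F → w ∈ G.nb f → w ∈ AA G F f g ∨ w ∈ MM G F f g := by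
    intro w hw h
    unfold AA MM
    rw [mem_filter, mem_filter]
    tauto
  have notwo : ∀ x y : V, x ∈ AA G F f g → y ∈ AA G F f g → x ≠ a → y ≠ a → x ≠ y → False := by
    intro x y hx hy h1 h2 h3
    have h4 := three_le33 ha hx hy h1.symm h2.symm h3
    have h5 := (k.cards c).1
    omega
  rcases c.covT (Or.inl k.fF) (Or.inr haT) (Or.inl k.fF) haf ⟨_, k.tf⟩ with h | h | h
  · obtain ⟨w, h1, h2, h3, h4⟩ := h
    rcases h1 with h1 | h1
    · exact absurd h2 (k.nlow h1)
    · rcases cl w h1 h3 with h5 | h5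
      · exact Or.inl ⟨w, h5, h2, h4⟩
      · exact Or.inr (Or.inl ⟨w, h5, h2, h4⟩)
  · exfalso
    obtain ⟨v, v', h1, h1', h2, h3, h4, h5, h6⟩ := h
    rcases h1 with h1 | h1
    · rcases (k.mem v).1 h1 with h7 | h7 | h7 | h7
      · exact G.irr _ (h7 ▸ h3)
      · rw [h7] at h2
        have h8 := c.th.uniq c.n9 _ _ _ h2 k.tf.sym33
        rw [h8] at h4
        exact G.irr _ h4
      · exact hag (G.sym _ _ (h7 ▸ h5))
      · exact hag (k.swap.fw c haT (G.sym _ _ (h7 ▸ h5)))
    · rcases cl v h1 h3 with h7 | h7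
      · exact notwo v v' h7 (k.twA c h7 h2) (ne_of_nb5 h5).symm (ne_of_nb5 h6).symm h2.ne33
      · have h8 := c.vis h1 (Or.inr ⟨_, h2⟩)
        rw [k.dM c h7] at h8
        have h9 : 2 ≤ G.d v (G.N F) :=
          d_two33 haT (G.sym _ _ h5) (MT (k.twM c h7 h2)) h2.1 (ne_of_nb5 h6)
        omega
  · obtain ⟨x, y, h1, h2, h3, h4, h5, h6, h7⟩ := h
    right; right
    have hy : y ∈ G.N F := h2.resolve_left (fun h => k.nlow h h3.2.1)
    have hx : x ∈ G.N F := h1.resolve_left (fun h =>
      c.ndisj ((c.hlF h1 h2 (Or.inr haT) h3).1 h) hy)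
    have hgx : g ≠ x := fun e => c.ndisj k.gF (e ▸ hx)
    have hgy : g ≠ y := fun e => c.ndisj k.gF (e ▸ hy)
    have hga : g ≠ a := fun e => c.ndisj k.gF (e ▸ haT)
    refine ⟨h4, ?_⟩
    rcases cl y hy h7 with h8 | h8
    · exfalso
      rcases cl x hx h6 with h9 | h9
      · exact notwo x y h9 h8 (ne_of_nb5 h5).symm (HL_ne33 h3) (ne_of_nb5 h3.2.2.1)
      · have h10 : g ∈ G.nb x := G.sym _ _ (mem_filter.1 h9).2.2
        rcases HL_cl33 h3 h10 with h11 | h11 | h11
        · exact hga h11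
        · exact hgy h11
        · exact (mem_filter.1 h8).2.2 (G.sym _ _ h11)
    · rcases cl x hx h6 with h9 | h9
      · exfalso
        have h10 : g ∈ G.nb y := G.sym _ _ (mem_filter.1 h8).2.2
        exact (mem_filter.1 h9).2.2 (G.sym _ _ (HL_nb33 h3 h10 hgx))
      · exact ⟨x, h9, y, h8, h3⟩

/-- a low vertex of `M` has at most one neighbour in `N F` -/
theorem oneM (k : K433 G F f f' g g') (c : Lf33 G F) {m : V} (hm : m ∈ MM G F f g)
    (hl : G.Low m ∨ G.IsTw m) {x y : V} (hx : x ∈ G.N F) (hy : y ∈ G.N F) (h1 : x ∈ G.nb m)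
    (h2 : y ∈ G.nb m) : x = y := by
  by_contra hne
  have h3 := c.vis (MT hm) hl
  rw [k.dM c hm] at h3
  have h4 : 2 ≤ G.d m (G.N F) := d_two33 hx h1 hy h2 hne
  omega

theorem valM (k : K433 G F f f' g g') (c : Lf33 G F) {m : V} (hm : m ∈ MM G F f g)
    (hl : G.Low m) : 12 ≤ G.val33 F m := by
  rw [val_low33 hl, k.dM c hm]
  push_cast
  have : (0 : ℤ) ≤ (G.d m (G.N F) : ℤ) := by positivity
  linarith

theorem valMt (k : K433 G F f f' g g') (c : Lf33 G F) {m : V} (hm : m ∈ MM G F f g)
    (hl : G.IsTw m) : 2 ≤ G.val33 F m := by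
  rw [val_tw33 hl, k.dM c hm]
  obtain ⟨m', h⟩ := hl
  have h1 : 1 ≤ G.d m (G.N F) := d_one33 (c.twT (MT hm) h) h.1
  omega

theorem valA (k : K433 G F f f' g g') (c : Lf33 G F) {a : V} (ha : a ∈ AA G F f g)
    (hl : G.Low a) : 4 ≤ G.val33 F a := by
  rw [val_low33 hl, k.dA c ha]
  push_cast
  have : (0 : ℤ) ≤ (G.d a (G.N F) : ℤ) := by positivity
  linarith

theorem valA' (k : K433 G F f f' g g') (c : Lf33 G F) {a a' : V} (ha : a ∈ AA G F f g)
    (hl : G.Low a) (ha' : a' ∈ AA G F f g) (h : a' ∈ G.nb a) : 6 ≤ G.val33 F a := by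
  rw [val_low33 hl, k.dA c ha]
  have h1 : 1 ≤ G.d a (G.N F) := d_one33 (AT ha') h
  omega

/-- the sum over `A` if each vertex of `A` has a low neighbour in `A` -/
theorem sumA (k : K433 G F f f' g g') (c : Lf33 G F)
    (h : ∀ a ∈ AA G F f g, ∃ a' ∈ AA G F f g, G.Low a' ∧ a' ∈ G.nb a) :
    12 ≤ ∑ a ∈ AA G F f g, G.val33 F a := by
  obtain ⟨a, b, hne, hA⟩ := card_eq_two.1 (k.cards c).1
  have ha : a ∈ AA G F f g := by rw [hA]; simp
  have hb : b ∈ AA G F f g := by rw [hA]; simp
  have other : ∀ x ∈ AA G F f g, ∀ y ∈ AA G F f g, y ∈ G.nb x → (x = a → y = b) ∧ (x = b → y = a) := by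
    intro x hx y hy hxy
    rw [hA, mem_insert, mem_singleton] at hy
    constructor
    · rintro rfl
      exact hy.resolve_left (ne_of_nb5 hxy).symm
    · rintro rfl
      exact hy.resolve_right (ne_of_nb5 hxy).symm
  obtain ⟨a', h1, h2, h3⟩ := h a ha
  obtain ⟨b', h4, h5, h6⟩ := h b hb
  have e1 := (other a ha a' h1 h3).1 rfl
  have e2 := (other b hb b' h4 h6).2 rfl
  rw [e1] at h2 h3
  rw [e2] at h5 h6
  have v1 := k.valA' c ha h5 hb h3
  have v2 := k.valA' c hb h2 ha h6
  rw [hA, sum_pair hne]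
  linarith

/-- the sum over `A` if one vertex of `A` has a low neighbour in `A` -/
theorem sumA' (k : K433 G F f f' g g') (c : Lf33 G F) {a : V} (ha : a ∈ AA G F f g)
    (h : ∃ a' ∈ AA G F f g, G.Low a' ∧ a' ∈ G.nb a) :
    6 ≤ ∑ a ∈ AA G F f g, G.val33 F a := by
  obtain ⟨b, hb, h1, h2⟩ := h
  have hne : a ≠ b := ne_of_nb5 h2
  have hA : AA G F f g = {a, b} := by
    symm
    apply eq_of_subset_of_card_le
    · intro x hx
      rw [mem_insert, mem_singleton] at hx
      rcases hx with rfl | rfl <;> assumption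
    · rw [card_pair hne, (k.cards c).1]
  have v1 := k.valA' c hb h1 ha (G.sym _ _ h2)
  have v2 : 0 ≤ G.val33 F a := by
    by_cases hl : G.Low a
    · have := k.valA c ha hl
      linarith
    · rw [val_hub33 hl]
      rintro ⟨a', h3⟩
      have h4 := k.twA c ha h3
      rw [hA, mem_insert, mem_singleton] at h4
      rcases h4 with rfl | rfl
      · exact h3.ne33 rfl
      · exact not_low33 ⟨_, h3.sym33⟩ h1
  rw [hA, sum_pair hne]
  linarith

theorem sumT (k : K433 G F f f' g g') (c : Lf33 G F) :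
    ∑ w ∈ G.N F, G.val33 F w = ∑ w ∈ AA G F f g, G.val33 F w + ∑ w ∈ AA G F g f, G.val33 F w +
      ∑ w ∈ MM G F f g, G.val33 F w := by
  have h1 : G.N F = (AA G F f g ∪ AA G F g f) ∪ MM G F f g := by
    ext w
    rw [mem_union, mem_union]
    constructor
    · intro h
      rcases k.all c h with h | h | h
      · exact Or.inl (Or.inl h)
      · exact Or.inl (Or.inr h)
      · exact Or.inr h
    · rintro ((h | h) | h)
      · exact (mem_filter.1 h).1
      · exact (mem_filter.1 h).1
      · exact (mem_filter.1 h).1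
  conv_lhs => rw [h1]
  rw [sum_union, sum_union]
  · unfold AA
    rw [disjoint_filter]
    tauto
  · rw [disjoint_union_left]
    unfold AA MM
    rw [disjoint_filter, disjoint_filter]
    tauto

/-- if `M` consists of two low vertices then `A` has no twins -/
theorem notwA (k : K433 G F f f' g g') (c : Lf33 G F) {a a' : V} (ha : a ∈ AA G F f g) :
    ¬ G.Tw a a' := by
  intro h
  have ha' := k.twA c ha h
  rcases k.covA c ha with g | g | g
  · obtain ⟨b, h1, h2, h3⟩ := g
    have hb : b ≠ a' := by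
      rintro rfl
      exact not_low33 ⟨_, h.sym33⟩ h2
    have h4 := three_le33 ha ha' h1 h.ne33 (ne_of_nb5 h3) hb.symm
    have h5 := (k.cards c).1
    omega
  · obtain ⟨m, h1, h2, h3⟩ := g
    refine h.ne33 (k.oneM c h1 (Or.inl h2) (AT ha) (AT ha') (G.sym _ _ h3)
      (G.sym _ _ (h.nb33 h3 ?_)))
    rintro rfl
    exact AM ha' h1
  · exact not_low33 ⟨_, h⟩ g.1

theorem valA0 (k : K433 G F f f' g g') (c : Lf33 G F) {a : V} (ha : a ∈ AA G F f g) :
    0 ≤ G.val33 F a := by
  by_cases hl : G.Low a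
  · have := k.valA c ha hl
    linarith
  · rw [val_hub33 hl]
    rintro ⟨a', h⟩
    exact k.notwA c ha h

theorem main (k : K433 G F f f' g g') (c : Lf33 G F) : 28 ≤ ∑ w ∈ G.N F, G.val33 F w := by
  have ks := k.swap
  obtain ⟨hcA, hcB, hcM⟩ := k.cards c
  rw [k.sumT c]
  have sA0 : 0 ≤ ∑ w ∈ AA G F f g, G.val33 F w := sum_nonneg fun w hw => k.valA0 c hw
  have sB0 : 0 ≤ ∑ w ∈ AA G F g f, G.val33 F w := sum_nonneg fun w hw => ks.valA0 c hw
  by_cases hlowM : ∃ m ∈ MM G F f g, G.Low m
  · obtain ⟨m, hm, hml⟩ := hlowM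
    obtain ⟨h, hh, hne⟩ : ∃ h ∈ MM G F f g, h ≠ m := by
      by_contra hcon
      push Not at hcon
      have : MM G F f g ⊆ {m} := fun z hz => mem_singleton.2 (hcon z hz)
      have := card_le_card this
      rw [hcM, card_singleton] at this
      omega
    have hM : MM G F f g = {m, h} := by
      symm
      apply eq_of_subset_of_card_le
      · intro x hx
        rw [mem_insert, mem_singleton] at hx
        rcases hx with rfl | rfl <;> assumption
      · rw [card_pair hne.symm, hcM]
    have vm := k.valM c hm hml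
    by_cases hhl : G.Low h
    · -- two low vertices
      have vh := k.valM c hh hhl
      have sM : 24 ≤ ∑ w ∈ MM G F f g, G.val33 F w := by
        rw [hM, sum_pair hne.symm]
        linarith
      by_cases h1 : ∃ a ∈ AA G F f g, G.Low a
      · obtain ⟨a, ha, hal⟩ := h1
        have h2 := single_le_sum (fun w hw => k.valA0 c (a := w) hw) ha
        have h3 := k.valA c ha hal
        linarith
      · by_cases h2 : ∃ a ∈ AA G F g f, G.Low a
        · obtain ⟨a, ha, hal⟩ := h2
          have h3 := single_le_sum (fun w hw => ks.valA0 c (a := w) hw) ha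
          have h4 := ks.valA c ha hal
          linarith
        · exfalso
          push Not at h1 h2
          have q1 : ∀ a ∈ AA G F f g, ∃ n ∈ MM G F f g, G.Low n ∧ n ∈ G.nb a := by
            intro a ha
            rcases k.covA c ha with g | g | g
            · obtain ⟨b, e1, e2, -⟩ := g
              exact absurd e2 (h1 b e1)
            · exact g
            · exact absurd g.1 (h1 a ha)
          have q2 : ∀ a ∈ AA G F g f, ∃ n ∈ MM G F f g, G.Low n ∧ n ∈ G.nb a := by
            intro a ha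
            rcases ks.covA c ha with g | g | g
            · obtain ⟨b, e1, e2, -⟩ := g
              exact absurd e2 (h2 b e1)
            · rw [mm_swap] at g
              exact g
            · exact absurd g.1 (h2 a ha)
          obtain ⟨a, b, hab, hA⟩ := card_eq_two.1 hcA
          have ha : a ∈ AA G F f g := by rw [hA]; simp
          have hb : b ∈ AA G F f g := by rw [hA]; simp
          obtain ⟨b1, hb1⟩ : (AA G F g f).Nonempty := by
            rw [← Finset.card_pos, hcB]; norm_num
          have hab1 : a ≠ b1 := by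
            rintro rfl
            exact (mem_filter.1 ha).2.2 (mem_filter.1 hb1).2.1
          have hbb1 : b ≠ b1 := by
            rintro rfl
            exact (mem_filter.1 hb).2.2 (mem_filter.1 hb1).2.1
          obtain ⟨n1, e1, e2, e3⟩ := q1 a ha
          obtain ⟨n2, f1, f2, f3⟩ := q1 b hb
          obtain ⟨n3, g1, g2, g3⟩ := q2 b1 hb1
          have d12 : n1 ≠ n2 := by
            rintro rfl
            exact hab (k.oneM c e1 (Or.inl e2) (AT ha) (AT hb) (G.sym _ _ e3) (G.sym _ _ f3))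
          have d13 : n1 ≠ n3 := by
            rintro rfl
            exact hab1 (k.oneM c e1 (Or.inl e2) (AT ha) (AT hb1) (G.sym _ _ e3) (G.sym _ _ g3))
          have d23 : n2 ≠ n3 := by
            rintro rfl
            exact hbb1 (k.oneM c f1 (Or.inl f2) (AT hb) (AT hb1) (G.sym _ _ f3) (G.sym _ _ g3))
          have := three_le33 e1 f1 g1 d12 d13 d23
          omega
    · -- one low vertex
      have hht : ¬ G.IsTw h := by
        rintro ⟨h', e⟩
        have e1 := k.twM c hh e
        rw [hM, mem_insert, mem_singleton] at e1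
        rcases e1 with rfl | rfl
        · exact not_low33 ⟨_, e.sym33⟩ hml
        · exact e.ne33 rfl
      have vh := val_hub33 (F := F) hhl hht
      have sM : 12 ≤ ∑ w ∈ MM G F f g, G.val33 F w := by
        rw [hM, sum_pair hne.symm]
        linarith
      -- bad vertices
      have hlowm : ∀ n ∈ MM G F f g, G.Low n → n = m := by
        intro n hn hnl
        rw [hM, mem_insert, mem_singleton] at hn
        rcases hn with h1 | h1
        · exact h1
        · exact absurd hnl (h1 ▸ hhl)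
      have bad : ∀ s, (G.Low s ∧ ∃ x ∈ MM G F f g, ∃ y ∈ MM G F f g, G.HL x y s) →
          G.HL h m s := by
        rintro s ⟨-, x, hx, y, hy, e⟩
        have e1 := hlowm y hy e.2.1
        rw [e1] at e
        rw [hM, mem_insert, mem_singleton] at hx
        rcases hx with h1 | h1
        · rw [h1] at e
          exact absurd e.2.2.1 (G.irr _)
        · rw [h1] at e
          exact e
      have uniq : ∀ s t : V, s ∈ G.N F → t ∈ G.N F → s ≠ h → t ≠ h →
          (m ∈ G.nb s ∨ G.HL h m s) → (m ∈ G.nb t ∨ G.HL h m t) → s = t := by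
        intro s t hs ht hsh hth g1 g2
        rcases g1 with g1 | g1
        · rcases g2 with g2 | g2
          · exact k.oneM c hm (Or.inl hml) hs ht (G.sym _ _ g1) (G.sym _ _ g2)
          · exact absurd (k.oneM c hm (Or.inl hml) hs (MT hh) (G.sym _ _ g1)
              (G.sym _ _ g2.2.2.1)) hsh
        · rcases g2 with g2 | g2
          · exact absurd (k.oneM c hm (Or.inl hml) ht (MT hh) (G.sym _ _ g2)
              (G.sym _ _ g1.2.2.1)) hth
          · have e1 : s ∈ insert t (G.cl m) := by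
              rw [← g2.2.2.2.2, g1.2.2.2.2]
              exact mem_insert_self _ _
            rw [mem_insert] at e1
            exact e1.resolve_right g1.2.2.2.1
      have covA : ∀ a ∈ AA G F f g, (∃ a' ∈ AA G F f g, G.Low a' ∧ a' ∈ G.nb a) ∨
          (m ∈ G.nb a ∨ G.HL h m a) := by
        intro a ha
        rcases k.covA c ha with g | g | g
        · exact Or.inl g
        · obtain ⟨n, e1, e2, e3⟩ := g
          rw [hlowm n e1 e2] at e3
          exact Or.inr (Or.inl e3)
        · exact Or.inr (Or.inr (bad a g))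
      have covB : ∀ a ∈ AA G F g f, (∃ a' ∈ AA G F g f, G.Low a' ∧ a' ∈ G.nb a) ∨
          (m ∈ G.nb a ∨ G.HL h m a) := by
        intro a ha
        rcases ks.covA c ha with g | g | g
        · exact Or.inl g
        · obtain ⟨n, e1, e2, e3⟩ := g
          rw [mm_swap] at e1
          rw [hlowm n e1 e2] at e3
          exact Or.inr (Or.inl e3)
        · rw [mm_swap] at g
          exact Or.inr (Or.inr (bad a g))
      have hAh : ∀ a ∈ AA G F f g, a ≠ h := fun a ha e => AM ha (e ▸ hh)
      have hBh : ∀ a ∈ AA G F g f, a ≠ h := fun a ha e => by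
        have : a ∉ MM G F g f := AM ha
        rw [mm_swap] at this
        exact this (e ▸ hh)
      have hABne : ∀ a ∈ AA G F f g, ∀ b ∈ AA G F g f, a ≠ b := by
        rintro a ha b hb rfl
        exact (mem_filter.1 ha).2.2 (mem_filter.1 hb).2.1
      -- a vertex of a pair different from a given one
      have pick : ∀ S : Finset V, S.card = 2 → ∀ x : V, ∃ y ∈ S, y ≠ x := by
        intro S hS x
        by_contra hcon
        push Not at hcon
        have : S ⊆ {x} := fun z hz => mem_singleton.2 (hcon z hz)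
        have := card_le_card this
        rw [hS, card_singleton] at this
        omega
      by_cases hA : ∀ a ∈ AA G F f g, ∃ a' ∈ AA G F f g, G.Low a' ∧ a' ∈ G.nb a
      · have s1 := k.sumA c hA
        by_cases hB : ∀ a ∈ AA G F g f, ∃ a' ∈ AA G F g f, G.Low a' ∧ a' ∈ G.nb a
        · have s2 := ks.sumA c hB
          linarith
        · push Not at hB
          obtain ⟨b, hb, hb'⟩ := hB
          have hbb : m ∈ G.nb b ∨ G.HL h m b := (covB b hb).resolve_left (by
            rintro ⟨a', e1, e2, e3⟩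
            exact hb' a' e1 e2 e3)
          obtain ⟨b1, hb1, hne1⟩ := pick _ hcB b
          have e1 : ∃ a' ∈ AA G F g f, G.Low a' ∧ a' ∈ G.nb b1 :=
            (covB b1 hb1).resolve_right (fun e => hne1 (uniq _ _ (AT hb1) (AT hb) (hBh _ hb1)
              (hBh _ hb) e hbb))
          have s2 := ks.sumA' c hb1 e1
          linarith
      · push Not at hA
        obtain ⟨a, ha, ha'⟩ := hA
        have haa : m ∈ G.nb a ∨ G.HL h m a := (covA a ha).resolve_left (by
          rintro ⟨a', e1, e2, e3⟩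
          exact ha' a' e1 e2 e3)
        obtain ⟨a1, ha1, hne1⟩ := pick _ hcA a
        have e1 : ∃ a' ∈ AA G F f g, G.Low a' ∧ a' ∈ G.nb a1 :=
          (covA a1 ha1).resolve_right (fun e => hne1 (uniq _ _ (AT ha1) (AT ha) (hAh _ ha1)
            (hAh _ ha) e haa))
        have s1 := k.sumA' c ha1 e1
        have hB : ∀ b ∈ AA G F g f, ∃ a' ∈ AA G F g f, G.Low a' ∧ a' ∈ G.nb b := by
          intro b hb
          exact (covB b hb).resolve_right (fun e => hABne a ha b hb (uniq _ _ (AT ha) (AT hb)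
            (hAh _ ha) (hBh _ hb) haa e))
        have s2 := ks.sumA c hB
        linarith
  · -- `M` is a pair of twins
    push Not at hlowM
    have hA : ∀ a ∈ AA G F f g, ∃ a' ∈ AA G F f g, G.Low a' ∧ a' ∈ G.nb a := by
      intro a ha
      rcases k.covA c ha with g | g | g
      · exact g
      · obtain ⟨n, e1, e2, -⟩ := g
        exact absurd e2 (hlowM n e1)
      · obtain ⟨-, x, -, y, e1, e2⟩ := g
        exact absurd e2.2.1 (hlowM y e1)
    have hB : ∀ a ∈ AA G F g f, ∃ a' ∈ AA G F g f, G.Low a' ∧ a' ∈ G.nb a := by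
      intro a ha
      rcases ks.covA c ha with g | g | g
      · exact g
      · obtain ⟨n, e1, e2, -⟩ := g
        rw [mm_swap] at e1
        exact absurd e2 (hlowM n e1)
      · obtain ⟨-, x, -, y, e1, e2⟩ := g
        rw [mm_swap] at e1
        exact absurd e2.2.1 (hlowM y e1)
    have s1 := k.sumA c hA
    have s2 := ks.sumA c hB
    have hfg : g ∈ G.nb f := k.adj f k.fF g k.gF k.ne1
    have hv : ∃ v ∈ MM G F f g, G.IsTw v := by
      rcases c.covT (Or.inl k.fF) (Or.inl k.gF) (Or.inl k.fF) hfg ⟨_, k.tf⟩ with e | e | e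
      · obtain ⟨w, e1, e2, e3, e4⟩ := e
        rcases e1 with e1 | e1
        · exact absurd e2 (k.nlow e1)
        · exact absurd e2 (hlowM w (mem_filter.2 ⟨e1, e3, e4⟩))
      · obtain ⟨v, v', e1, e1', e2, e3, e4, e5, e6⟩ := e
        rcases e1 with e1 | e1
        · exfalso
          rcases (k.mem v).1 e1 with h7 | h7 | h7 | h7
          · exact G.irr _ (h7 ▸ e3)
          · rw [h7] at e2
            have h8 := c.th.uniq c.n9 _ _ _ e2 k.tf.sym33
            rw [h8] at e4
            exact G.irr _ e4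
          · exact G.irr _ (h7 ▸ e5)
          · rw [h7] at e2
            have h8 := c.th.uniq c.n9 _ _ _ e2 k.tg.sym33
            rw [h8] at e6
            exact G.irr _ e6
        · exact ⟨v, mem_filter.2 ⟨e1, e3, e5⟩, ⟨_, e2⟩⟩
      · obtain ⟨a, b, -, -, -, e1, -⟩ := e
        exact absurd e1 (k.nlow k.gF)
    obtain ⟨v, hvM, v', hvv⟩ := hv
    have hvM' := k.twM c hvM hvv
    have hM : MM G F f g = {v, v'} := by
      symm
      apply eq_of_subset_of_card_le
      · intro x hx
        rw [mem_insert, mem_singleton] at hx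
        rcases hx with rfl | rfl <;> assumption
      · rw [card_pair hvv.ne33, hcM]
    have s3 : 4 ≤ ∑ w ∈ MM G F f g, G.val33 F w := by
      rw [hM, sum_pair hvv.ne33]
      have e1 := k.valMt c hvM ⟨_, hvv⟩
      have e2 := k.valMt c hvM' ⟨_, hvv.sym33⟩
      linarith
    linarith

end K433

/-- U18b -/
theorem stK4_33 (G : CG V) (hst : G.StLeaf) (hth : G.StTwHL) (hP : G.StP4) : G.StK4 := by
  intro F hF h4 hall
  have c : Lf33 G F := ⟨hF, hst, hth⟩
  obtain ⟨f, hf⟩ : F.Nonempty := by rw [← Finset.card_pos, h4]; norm_num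
  obtain ⟨f', tf⟩ := (hall f hf f hf).1
  have hf' := c.twF hf tf
  obtain ⟨g, hg, hgn⟩ : ∃ g ∈ F, g ∉ ({f, f'} : Finset V) := by
    by_contra hcon
    push Not at hcon
    have := card_le_card (show F ⊆ {f, f'} from fun z hz => hcon z hz)
    rw [h4, card_pair tf.ne33] at this
    omega
  rw [mem_insert, mem_singleton, not_or] at hgn
  obtain ⟨g', tg⟩ := (hall g hg g hg).1
  have hg' := c.twF hg tg
  have n2 : f ≠ g' := by
    rintro rfl
    exact hgn.2 (c.th.uniq c.n9 _ _ _ tg.sym33 tf)
  have n4 : f' ≠ g' := by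
    rintro rfl
    exact hgn.1 (c.th.uniq c.n9 _ _ _ tg.sym33 tf.sym33)
  have n1 : f ≠ g := fun e => hgn.1 e.symm
  have n3 : f' ≠ g := fun e => hgn.2 e.symm
  have hFe : ({f, f', g, g'} : Finset V) = F := by
    apply eq_of_subset_of_card_le
    · intro x hx
      simp only [mem_insert, mem_singleton] at hx
      rcases hx with rfl | rfl | rfl | rfl <;> assumption
    · rw [card_insert_of_notMem, card_insert_of_notMem, card_pair tg.ne33, h4]
      · simp [n3, n4]
      · simp [n1, n2, tf.ne33]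
  have k : K433 G F f f' g g' := by
    refine ⟨tf, tg, fun x => ?_, fun x hx y hy => (hall x hx y hy).2, fun x hx =>
      (hall x hx x hx).1, n1, n2, n3, n4⟩
    rw [← hFe]
    simp only [mem_insert, mem_singleton]
  have hl : G.l F = 0 := by
    unfold l
    rw [Finset.card_eq_zero, filter_eq_empty_iff]
    exact fun x hx => k.nlow hx
  rw [P4_val33 hP c.frag, hl, h4]
  have := k.main c
  push_cast
  linarith

end CG

end Pool.Agent.Lib.MP_e95c01_co.N
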