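import Pool.Agent.Lib.MP_e95c01_co.U.MainU37

/-!
# U18a, U18e: the torso of a leaf; leaves with at least six vertices
-/

namespace Pool.Agent.Lib.MP_e95c01_co.N

open Finset

variable {V : Type} [Fintype V] [DecidableEq V]

namespace CG

variable {G : CG V}

theorem memR27 {F : Finset V} {z : V} : z ∈ R {G.Co F} ↔ z ∈ F ∨ z ∈ G.N F := by
  rw [R, mem_compl, singleton_biUnion, id, mem_Co37]
  tauto

theorem memI27 {F : Finset V} (hN : G.N (G.Co F) = G.N F) {z : V} {B : Finset V} :
    B ∈ G.I {G.Co F} z ↔ B = G.Co F ∧ z ∈ G.N F := by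
  rw [I, mem_filter, mem_singleton]
  constructor
  · rintro ⟨rfl, h⟩
    rw [hN] at h
    exact ⟨rfl, h⟩
  · rintro ⟨rfl, h⟩
    refine ⟨rfl, ?_⟩
    rw [hN]
    exact h

theorem exp27 {F : Finset V} (hL : G.Leaf F) : ∀ Z : Finset V, Z.Nonempty → Z ⊆ G.N F →
    F ⊆ G.N Z ∨ Z.card < (G.N Z ∩ F).card ∨ ((G.N Z ∩ F).card = Z.card ∧ G.Frag (F \ G.N Z) ∧
      (F \ G.N Z).card ≤ 2 ∧ G.N (F \ G.N Z) = (G.N F \ Z) ∪ (G.N Z ∩ F)) := by
  intro Z hZ hZF
  by_cases hF : F ⊆ G.N Z
  · exact Or.inl hF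
  right
  have hW : (F \ G.N Z).Nonempty := by
    rw [nonempty_iff_ne_empty]
    intro h
    exact hF (sdiff_eq_empty_iff_subset.1 h)
  have hsub : G.N (F \ G.N Z) ⊆ (G.N F \ Z) ∪ (G.N Z ∩ F) := by
    intro v hv
    obtain ⟨h1, u, hu, hvu⟩ := mem_N37.1 hv
    rw [mem_sdiff] at hu h1
    rw [mem_union, mem_sdiff, mem_inter]
    by_cases hvF : v ∈ F
    · right
      refine ⟨?_, hvF⟩
      by_contra h
      exact h1 ⟨hvF, h⟩
    · left
      refine ⟨mem_N37.2 ⟨hvF, u, hu.1, hvu⟩, ?_⟩
      intro hvZ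
      refine hu.2 (mem_N37.2 ⟨?_, v, hvZ, G.sym _ _ hvu⟩)
      intro h
      exact (mem_N37.1 (hZF h)).1 hu.1
  have hCo : G.Co F ⊆ G.Co (F \ G.N Z) := Co_anti37 sdiff_subset
  have h6 := G.stN6_37 _ hW (hL.big.1.2.2.mono hCo)
  have hdis : Disjoint (G.N F \ Z) (G.N Z ∩ F) := by
    rw [disjoint_left]
    intro v hv hv'
    exact (mem_N37.1 (mem_sdiff.1 hv).1).1 (mem_inter.1 hv').2
  have hc := card_union_of_disjoint hdis
  have h7 := card_le_card hsub
  have h8 : (G.N F \ Z).card = 6 - Z.card := by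
    rw [card_sdiff_of_subset hZF, hL.big.1.2.1]
  have h9 : Z.card ≤ 6 := by
    rw [← hL.big.1.2.1]
    exact card_le_card hZF
  by_cases hlt : Z.card < (G.N Z ∩ F).card
  · exact Or.inl hlt
  right
  have he : (G.N Z ∩ F).card = Z.card := by omega
  have hN : G.N (F \ G.N Z) = (G.N F \ Z) ∪ (G.N Z ∩ F) :=
    eq_of_subset_of_card_le hsub (by omega)
  have hfr : G.Frag (F \ G.N Z) := ⟨hW, by rw [hN, hc]; omega, hL.big.1.2.2.mono hCo⟩
  refine ⟨he, hfr, ?_, hN⟩
  by_contra h3
  refine hL.none (F \ G.N Z) ⟨hfr, by omega, hL.big.2.2.trans (card_le_card hCo)⟩ ?_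
  obtain ⟨z, hz⟩ := hZ
  obtain ⟨hzF, u, hu, hzu⟩ := mem_N37.1 (hZF hz)
  refine ⟨sdiff_subset, fun h => ?_⟩
  have h10 : u ∈ G.N Z := mem_N37.2
    ⟨fun h => (mem_N37.1 (hZF h)).1 hu, z, hz, G.sym _ _ hzu⟩
  exact (mem_sdiff.1 (h hu)).2 h10

theorem stLeaf_27 (hsm : G.StSmall) (htw : G.StTwHL) (hcovU : G.StCovU) (hid : G.StIdentU)
    (hps : G.StPsumU) : G.StLeaf := by
  have hco := G.stCo_37
  have h6 := G.stN6_37
  have hreg : ∀ F, G.Leaf F → G.Reg {G.Co F} := by
    intro F hL
    constructor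
    · intro B hB
      rw [mem_singleton] at hB
      rw [hB]
      exact (hco F hL.big.1).1
    · intro B hB B' hB' hne
      rw [mem_singleton] at hB hB'
      exact absurd (hB.trans hB'.symm) hne
  have hmem : ∀ F, G.Leaf F → ∀ z, (z ∈ R {G.Co F} ↔ z ∈ F ∨ z ∈ G.N F) ∧
      (z ∈ F → G.I {G.Co F} z = ∅) ∧ (z ∈ G.N F → G.I {G.Co F} z = {G.Co F}) := by
    intro F hL z
    have hN := (hco F hL.big.1).2.1
    refine ⟨memR27, ?_, ?_⟩
    · intro hz
      rw [eq_empty_iff_forall_notMem]
      intro B hB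
      exact (mem_N37.1 ((memI27 hN).1 hB).2).1 hz
    · intro hz
      ext B
      rw [memI27 hN, mem_singleton]
      exact ⟨fun h => h.1, fun h => ⟨h, hz⟩⟩
  -- twins of vertices of `F`
  have htwF : ∀ F, G.Leaf F → ∀ v ∈ F, ∀ w, G.Tw v w → w ∈ F := by
    intro F hL v hv w hw
    have h1 := htw.twI _ (hreg F hL) v (((hmem F hL v).1).2 (Or.inl hv)) w hw
    rcases ((hmem F hL w).1).1 h1.1 with h | h
    · exact h
    · exfalso
      have h2 := h1.2
      rw [((hmem F hL v).2.1) hv, ((hmem F hL w).2.2) h] at h2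
      exact singleton_ne_empty _ h2
  have hbig : ∀ F, G.Leaf F → ∀ Z : Finset V, Z ⊆ F → 3 ≤ Z.card → (G.N Z).card ≤ 6 → Z = F := by
    intro F hL Z hZ h3 hN
    by_contra hne
    exact hL.none Z (big_of37 h6 hL.big hZ h3 hN) (hZ.ssubset_of_ne hne)
  refine ⟨?_, ?_, hmem, fun F hL => exp27 hL, ?_, ?_⟩
  · intro F hL
    have hCC := (hco F hL.big.1).2.2
    refine ⟨hreg F hL, ?_, by have := hL.n13; omega, hL.sat, ?_⟩
    · intro B hB
      rw [mem_singleton] at hB
      rw [hB]
      exact hL.big.2.2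
    · intro x hx z hz hxz hm
      refine hcovU hsm _ (hreg F hL) ?_ x hx z hz hxz hm ?_
      · intro y hy B hI
        rcases ((hmem F hL y).1).1 hy with h | h
        · rw [((hmem F hL y).2.1) h] at hI
          exact absurd hI.symm (singleton_ne_empty _)
        · rw [((hmem F hL y).2.2) h] at hI
          have hB : B = G.Co F := (singleton_injective hI).symm
          rw [hB, hCC]
          have h4 := hL.four
          rcases exp27 hL {y} (singleton_nonempty _) (singleton_subset_iff.2 h) with h1 | h1 | h1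
          · rw [N_single37] at h1
            rw [d, inter_eq_right.2 h1]
            omega
          · rw [N_single37, card_singleton] at h1
            exact h1
          · exfalso
            have h2 := card_sdiff_add_card_inter F (G.N {y})
            rw [inter_comm, h1.1, card_singleton] at h2
            have h3 := h1.2.2.1
            omega
      · rw [m, card_eq_zero] at hm
        rcases ((hmem F hL x).1).1 hx with h | h
        · exact hL.cov x h z hxz
        rcases ((hmem F hL z).1).1 hz with h' | h'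
        · obtain ⟨E, h1, h2, h3, h4⟩ := hL.cov z h' x (G.sym _ _ hxz)
          exact ⟨E, h1, h2, h4, h3⟩
        · exfalso
          rw [((hmem F hL x).2.2) h, ((hmem F hL z).2.2) h', inter_self] at hm
          exact singleton_ne_empty _ hm
  · intro F hL
    have h1 := hid _ (hreg F hL)
    have h2 := hps F hL.big.1
    rw [sum_singleton] at h1
    linarith
  · rintro F hL l hl v hv hlow ⟨w, hw⟩ hlv
    by_contra hc
    obtain ⟨h1, h2⟩ := G.N_low_tw37 hlow hw hlv (by omega)
    have h3 := hbig F hL {l, v, w} (by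
      intro y hy
      rw [mem_insert, mem_insert, mem_singleton] at hy
      rcases hy with rfl | rfl | rfl
      · exact hl
      · exact hv
      · exact htwF F hL v hv _ hw) h2.ge h1
    have h4 := hL.four
    rw [h3] at h2
    omega
  · rintro F hL w hwF v hv ⟨w', hw'⟩ ⟨v', hv'⟩ hwv hn
    by_cases hc : (G.nb w ∩ G.nb v).card ≤ 3
    · exact Or.inl hc
    right
    obtain ⟨h1, h2⟩ := G.N_tw_tw37 hw' hv' hwv hn (by omega)
    have h3 := hbig F hL {w, w', v, v'} (by
      intro y hy
      rw [mem_insert, mem_insert, mem_insert, mem_singleton] at hy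
      rcases hy with rfl | rfl | rfl | rfl
      · exact hwF
      · exact htwF F hL w hwF _ hw'
      · exact hv
      · exact htwF F hL v hv _ hv') (by omega) h1
    refine ⟨by rw [← h3]; exact h2, ?_⟩
    -- adjacency
    have adj : ∀ a b a' : V, G.Tw a a' → b ∈ G.nb a → b ≠ a' → b ∈ G.nb a' := by
      intro a b a' h h' hne
      have h4 : b ∈ G.cl a' := by
        rw [← h.2.2]
        exact mem_cl37.2 (Or.inr h')
      rcases mem_cl37.1 h4 with h5 | h5
      · exact absurd h5 hne
      · exact h5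
    have e1 : v ≠ w' := by
      rintro rfl
      exact hn (Tw.symm37 hw')
    have e2 : w ≠ v' := by
      rintro rfl
      exact hn hv'
    have e3 : v' ≠ w' := by
      rintro rfl
      apply hn
      exact ⟨hwv, hv'.2.1, by rw [hv'.2.2, hw'.2.2]⟩
    have k1 : v ∈ G.nb w := G.sym _ _ hwv
    have k2 : v ∈ G.nb w' := adj w v w' hw' k1 e1
    have k3 : w ∈ G.nb v' := adj v w v' hv' hwv e2
    have k4 : v' ∈ G.nb w := G.sym _ _ k3
    have k5 : v' ∈ G.nb w' := adj w v' w' hw' k4 e3
    intro x hx y hy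
    rw [← h3, mem_insert, mem_insert, mem_insert, mem_singleton] at hx hy
    constructor
    · rcases hx with rfl | rfl | rfl | rfl
      · exact ⟨_, hw'⟩
      · exact ⟨_, Tw.symm37 hw'⟩
      · exact ⟨_, hv'⟩
      · exact ⟨_, Tw.symm37 hv'⟩
    · intro hne
      rcases hx with rfl | rfl | rfl | rfl <;> rcases hy with rfl | rfl | rfl | rfl
      · exact absurd rfl hne
      · exact hw'.1
      · exact k1
      · exact k4
      · exact (Tw.symm37 hw').1
      · exact absurd rfl hne
      · exact k2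
      · exact k5
      · exact hwv
      · exact G.sym _ _ k2
      · exact absurd rfl hne
      · exact hv'.1
      · exact k3
      · exact G.sym _ _ k5
      · exact (Tw.symm37 hv').1
      · exact absurd rfl hne

theorem stLeaf6_27 (hleaf : G.StLeaf) (htw : G.StTwHL) (hgen : G.StGenericU) : G.StLeaf6 := by
  intro F hL h6
  have hco := G.stCo_37
  rw [hleaf.sum F hL]
  have hCC := (hco F hL.big.1).2.2
  have htor := hleaf.torso F hL
  have hF : ∀ z ∈ R {G.Co F}, G.I {G.Co F} z = ∅ → z ∈ F := by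
    intro z hz hI
    rcases ((hleaf.mem F hL z).1).1 hz with h | h
    · exact h
    · rw [((hleaf.mem F hL z).2.2) h] at hI
      exact absurd hI (singleton_ne_empty _)
  refine hgen _ htor ⟨?_, ?_⟩ ?_
  · intro l hl v hv hlI hvI
    exact hleaf.e4 F hL l (hF l hl hlI) v (hF v hv hvI)
  · intro w hw v hv hwI hvI h1 h2 h3 h4
    rcases hleaf.e5 F hL w (hF w hw hwI) v (hF v hv hvI) h1 h2 h3 h4 with h | h
    · exact h
    · omega
  · intro z hz B hI
    have hB : B = G.Co F ∧ z ∈ G.N F := by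
      have h1 : B ∈ G.I {G.Co F} z := by rw [hI]; exact mem_singleton_self _
      exact (memI27 (hco F hL.big.1).2.1).1 h1
    refine wide37 htw htor.reg hz hI ?_
    intro Z hZ h3 hK
    rw [hB.1, hCC]
    have hZF : Z ⊆ G.N F := by
      intro y hy
      have h1 : B ∈ G.I {G.Co F} y := by rw [(hK y hy).2]; exact mem_singleton_self _
      exact ((memI27 (hco F hL.big.1).2.1).1 h1).2
    rcases exp27 hL Z hZ hZF with h | h | h
    · rw [inter_eq_right.2 h]
      omega
    · exact h
    · exfalso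
      have h2 := card_sdiff_add_card_inter F (G.N Z)
      rw [inter_comm, h.1] at h2
      have h4 := h.2.2.1
      omega

end CG

end Pool.Agent.Lib.MP_e95c01_co.N
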