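import Pool.Agent.Lib.MP_e95c01_co.U.StLeaf5_33

/-!
# U18c: leaves with four vertices
-/

namespace Pool.Agent.Lib.MP_e95c01_co.N

open Finset

variable {V : Type} [Fintype V] [DecidableEq V]

namespace CG

variable {G : CG V} {F : Finset V}

/-! ### general bounds -/

theorem Lf33.val_tw (c : Lf33 G F) {w w' : V} (hw : w ∈ G.N F) (h : G.Tw w w') :
    G.val33 F w = G.val33 F w' := by
  have hw' := c.twT hw h
  have h1 : G.d w F = G.d w' F :=
    h.d33 (fun e => c.ndisj e hw) (fun e => c.ndisj e hw')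
  have h2 : G.d w (G.Co F) = G.d w' (G.Co F) :=
    h.d33 (fun e => (mem_Co37.1 e).2 hw) (fun e => (mem_Co37.1 e).2 hw')
  have h3 := c.dT w
  have h4 := c.dT w'
  have h5 := h.2.1
  have h6 := h.deg33
  rw [val_tw33 ⟨_, h⟩, val_tw33 ⟨_, h.sym33⟩]
  have h7 : G.d w (G.N F) = G.d w' (G.N F) := by omega
  rw [h1, h7]

theorem Lf33.val_ge (c : Lf33 G F) {w : V} (hw : w ∈ G.N F) : -2 ≤ G.val33 F w := by
  have h1 := c.exp1 hw
  by_cases h : G.Low w
  · rw [val_low33 h]
    omega
  · by_cases h' : G.IsTw w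
    · rw [val_tw33 h']
      obtain ⟨w', hww⟩ := h'
      have h2 : 1 ≤ G.d w (G.N F) := d_one33 (c.twT hw hww) hww.1
      omega
    · rw [val_hub33 h h']
      norm_num

theorem Lf33.val_neg (c : Lf33 G F) {w : V} (hw : w ∈ G.N F) (h : G.val33 F w < 0) :
    (∃ w', G.Tw w w') ∧ G.d w F = 2 ∧ G.d w (G.N F) ≤ 2 := by
  have h1 := c.exp1 hw
  by_cases hl : G.Low w
  · rw [val_low33 hl] at h
    omega
  · by_cases h' : G.IsTw w
    · rw [val_tw33 h'] at h
      obtain ⟨w', hww⟩ := h'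
      have h2 : 1 ≤ G.d w (G.N F) := d_one33 (c.twT hw hww) hww.1
      exact ⟨⟨_, hww⟩, by omega, by omega⟩
    · rw [val_hub33 hl h'] at h
      exact absurd h (lt_irrefl _)

theorem Lf33.val_low4 (c : Lf33 G F) {w : V} (hw : w ∈ G.N F) (h : G.Low w) :
    4 ≤ G.val33 F w := by
  have h1 := c.exp1 hw
  rw [val_low33 h]
  omega

/-- a set closed under taking the twin has an even number of elements -/
theorem even33 (hth : G.StTwHL) (n9 : 9 ≤ Fintype.card V) (S : Finset V)
    (hS : ∀ w ∈ S, ∃ w' ∈ S, G.Tw w w') : Even S.card := by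
  classical
  choose! g hg using hS
  have h1 : ∑ _x ∈ S, (1 : ZMod 2) = 0 := by
    refine sum_involution (fun a _ => g a) ?_ ?_ ?_ ?_
    · intro a _
      decide
    · intro a ha _ h
      exact (hg a ha).2.ne33 h.symm
    · intro a ha
      exact (hg a ha).1
    · intro a ha
      have h2 := (hg a ha).2
      have h3 := (hg _ (hg a ha).1).2
      exact hth.uniq n9 _ _ _ h3 h2.sym33
  rw [sum_const, nsmul_eq_mul, mul_one] at h1
  exact (ZMod.natCast_eq_zero_iff_even).1 h1

/-- two low vertices in `F` -/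
theorem Lf33.two (c : Lf33 G F) (_ : F.card = 4) (hL : 2 ≤ G.l F) :
    28 ≤ 16 * (G.l F : ℤ) + ∑ w ∈ G.N F, G.val33 F w := by
  classical
  set Nn := (G.N F).filter (fun w => G.val33 F w < 0) with hNn
  have hsum : -2 * (Nn.card : ℤ) + ∑ w ∈ (G.N F).filter (fun w => ¬ G.val33 F w < 0),
      G.val33 F w ≤ ∑ w ∈ G.N F, G.val33 F w := by
    rw [← sum_filter_add_sum_filter_not (G.N F) (fun w => G.val33 F w < 0)]
    have : ∑ _w ∈ Nn, (-2 : ℤ) ≤ ∑ w ∈ Nn, G.val33 F w :=
      sum_le_sum fun w hw => c.val_ge (mem_filter.1 hw).1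
    rw [sum_const, nsmul_eq_mul] at this
    linarith
  have hpos : ∀ w ∈ (G.N F).filter (fun w => ¬ G.val33 F w < 0), 0 ≤ G.val33 F w :=
    fun w hw => not_lt.1 (mem_filter.1 hw).2
  have hpos' := sum_nonneg hpos
  have hc6 : Nn.card ≤ 6 := by
    rw [← c.cardT]
    exact card_le_card (filter_subset _ _)
  rcases Nat.lt_or_ge (G.l F) 3 with h3 | h3
  · have hL2 : G.l F = 2 := by omega
    rw [hL2]
    by_cases hlow : ∃ w ∈ G.N F, G.Low w
    · obtain ⟨w0, hw0, hl0⟩ := hlow
      have hv := c.val_low4 hw0 hl0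
      have hm0 : w0 ∈ (G.N F).filter (fun w => ¬ G.val33 F w < 0) :=
        mem_filter.2 ⟨hw0, by omega⟩
      have h5 := single_le_sum hpos hm0
      have h6 : Nn.card ≤ 5 := by
        have : Nn ⊆ (G.N F).erase w0 := by
          intro w hw
          rw [hNn, mem_filter] at hw
          rw [mem_erase]
          refine ⟨?_, hw.1⟩
          rintro rfl
          omega
        have := card_le_card this
        rw [card_erase_of_mem hw0, c.cardT] at this
        exact this
      have h7 : Even Nn.card := by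
        apply even33 c.th c.n9
        intro w hw
        rw [hNn, mem_filter] at hw
        obtain ⟨⟨w', hww⟩, -, -⟩ := c.val_neg hw.1 hw.2
        refine ⟨w', ?_, hww⟩
        rw [hNn, mem_filter, ← c.val_tw hw.1 hww]
        exact ⟨c.twT hw.1 hww, hw.2⟩
      have h8 : Nn.card ≤ 4 := by
        obtain ⟨r, hr⟩ := h7
        omega
      have h9 : (Nn.card : ℤ) ≤ 4 := by exact_mod_cast h8
      push_cast
      linarith
    · push Not at hlow
      -- a negative vertex has two low neighbours in `F`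
      have key : ∀ q ∈ Nn, ∀ x ∈ F, x ∈ G.nb q → ∃ w ∈ F, w ∈ G.nb q ∧ G.Low w ∧ w ≠ x := by
        intro q hq x hx hxq
        rw [hNn, mem_filter] at hq
        obtain ⟨⟨q', hqq⟩, hd, hdT⟩ := c.val_neg hq.1 hq.2
        rcases c.covT (Or.inr hq.1) (Or.inl hx) (Or.inr hx) hxq ⟨_, hqq⟩ with g | g | g
        · obtain ⟨w, e1, e2, e3, e4⟩ := g
          rcases e1 with e1 | e1
          · exact ⟨w, e1, e3, e2, (ne_of_nb5 e4).symm⟩
          · exact absurd e2 (hlow w e1)
        · exfalso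
          obtain ⟨v, v', e1, -, e2, e3, e4, e5, e6⟩ := g
          rcases e1 with e1 | e1
          · have : 3 ≤ G.d q F := d_three33 hx hxq e1 e3 (c.twF e1 e2) e4 (ne_of_nb5 e5)
              (ne_of_nb5 e6) e2.ne33
            omega
          · have n1 : v ≠ q' := by
              rintro rfl
              have := c.th.uniq c.n9 _ _ _ e2 hqq.sym33
              rw [this] at e4
              exact G.irr _ e4
            have n2 : v' ≠ q' := by
              rintro rfl
              have := c.th.uniq c.n9 _ _ _ e2.sym33 hqq.sym33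
              rw [this] at e3
              exact G.irr _ e3
            have : 3 ≤ G.d q (G.N F) := d_three33 e1 e3 (c.twT e1 e2) e4 (c.twT hq.1 hqq)
              hqq.1 e2.ne33 n1 n2
            omega
        · exfalso
          obtain ⟨a, b, e1, e2, e3, e4, e5, e6, e7⟩ := g
          have hb : b ∈ F := e2.resolve_right (fun h => hlow b h e3.2.1)
          have ha : a ∈ F := (c.hlF e1 e2 (Or.inl hx) e3).2 hb
          have : 3 ≤ G.d q F := d_three33 hx hxq ha e6 hb e7 (ne_of_nb5 e5)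
            (HL_ne33 e3).symm (ne_of_nb5 e3.2.2.1)
          omega
      have key2 : ∀ q ∈ Nn, ∀ x ∈ F, x ∈ G.nb q → G.Low x := by
        intro q hq x hx hxq
        obtain ⟨w, e1, e2, e3, e4⟩ := key q hq x hx hxq
        obtain ⟨y, f1, f2, f3, f4⟩ := key q hq w e1 e2
        by_cases hyx : y = x
        · exact hyx ▸ f3
        · exfalso
          have hq' := hq
          rw [hNn, mem_filter] at hq'
          obtain ⟨-, hd, -⟩ := c.val_neg hq'.1 hq'.2
          have : 3 ≤ G.d q F := d_three33 hx hxq e1 e2 f1 f2 e4.symm (Ne.symm hyx) f4.symm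
          omega
      have h5 : Nn.card ≤ 2 := by
        by_cases hne : Nn.Nonempty
        · obtain ⟨q, hq⟩ := hne
          have hq' := hq
          rw [hNn, mem_filter] at hq'
          obtain ⟨⟨q', hqq⟩, hd, hdT⟩ := c.val_neg hq'.1 hq'.2
          have hsub : Nn ⊆ {q, q'} := by
            intro p hp
            by_contra hpn
            have hp' := hp
            rw [hNn, mem_filter] at hp'
            rcases c.exp2 hq'.1 hqq with h6 | ⟨-, -, -, h8⟩
            · omega
            · have h9 : p ∈ G.N (F \ G.nb q) := by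
                rw [h8, mem_union, mem_sdiff]
                exact Or.inl ⟨hp'.1, hpn⟩
              obtain ⟨-, e, he, hpe⟩ := mem_N37.1 h9
              rw [mem_sdiff] at he
              have hel := key2 p hp e he.1 (G.sym _ _ hpe)
              have hd' : (G.nb q ∩ F).card = 2 := hd
              obtain ⟨x, y, hxy, hxye⟩ := card_eq_two.1 hd'
              have hx : x ∈ G.nb q ∩ F := by rw [hxye]; simp
              have hy : y ∈ G.nb q ∩ F := by rw [hxye]; simp
              rw [mem_inter] at hx hy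
              have hxl := key2 q hq x hx.2 hx.1
              have hyl := key2 q hq y hy.2 hy.1
              have : 3 ≤ G.l F := by
                unfold l
                refine three_le33 (mem_filter.2 ⟨hx.2, hxl⟩) (mem_filter.2 ⟨hy.2, hyl⟩)
                  (mem_filter.2 ⟨he.1, hel⟩) hxy ?_ ?_
                · rintro rfl
                  exact he.2 hx.1
                · rintro rfl
                  exact he.2 hy.1
              omega
          exact (card_le_card hsub).trans card_le_two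
        · rw [not_nonempty_iff_eq_empty] at hne
          rw [hne]
          norm_num
      have h9 : (Nn.card : ℤ) ≤ 2 := by exact_mod_cast h5
      push_cast
      linarith
  · have h5 : (3 : ℤ) ≤ (G.l F : ℤ) := by exact_mod_cast h3
    have h6 : (Nn.card : ℤ) ≤ 6 := by exact_mod_cast hc6
    linarith

/-! ### a low vertex and twins in `N F` with three neighbours in `F` -/

theorem Sit33.four (c : Lf33 G F) {l q q' : V} {X TT : Finset V} (s : Sit33 G F l q q' X TT)
    (h4 : F.card = 4) (hL : G.l F ≤ 1) (hpos : ∀ w ∈ TT, 0 ≤ G.val33 F w) :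
    28 ≤ 16 * (G.l F : ℤ) + ∑ w ∈ G.N F, G.val33 F w := by
  have hE1 : (F \ X).card = 1 := by
    rw [card_sdiff_of_subset s.XF, s.X3, h4]
  obtain ⟨x4, hE⟩ := card_eq_one.1 hE1
  have hx4 : x4 ∈ F ∧ x4 ∉ X := by
    rw [← mem_sdiff, hE]
    simp
  have hNE : ∀ w, w ∈ G.nb x4 ↔ w ∈ TT ∨ w ∈ X := by
    intro w
    rw [← mem_union, ← s.NE, hE, mem_N37]
    constructor
    · intro h
      refine ⟨?_, x4, mem_singleton_self _, h⟩
      rw [mem_singleton]
      exact (ne_of_nb5 h).symm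
    · rintro ⟨-, u, hu, h⟩
      rw [mem_singleton] at hu
      exact hu ▸ h
  have hlx4 : G.Low x4 := by
    have h1 : G.nb x4 = TT ∪ X := by
      ext w
      rw [hNE, mem_union]
    unfold Low
    rw [h1, card_union_of_disjoint, s.TT3 c, s.X3]
    rw [disjoint_left]
    exact fun w hw hw' => c.ndisj (s.XF hw') (s.TTT hw)
  have hL1 : G.l F = 1 := by
    have := l_one33 hx4.1 hlx4
    omega
  have huniq : ∀ y ∈ F, G.Low y → y = x4 := fun y hy hy' => l_uniq33 hL hy hy' hx4.1 hlx4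
  have hXl : ∀ y ∈ X, ¬ G.Low y := fun y hy hy' => hx4.2 (huniq y (s.XF hy) hy' ▸ hy)
  rw [s.valZ c, hL1]
  have hs := sum_nonneg hpos
  rcases s.cases c with ⟨-, h1, h2⟩ | ⟨x3, hx3, h1, h2, h3⟩
  · rw [h1, h2]
    push_cast
    linarith
  · rw [h3]
    have hlT := s.dlT c
    by_cases h5 : 3 ≤ G.d l (G.N F)
    · have : (3 : ℤ) ≤ (G.d l (G.N F) : ℤ) := by exact_mod_cast h5
      push_cast
      linarith
    · have h6 : G.d l (G.N F) = 2 := by omega
      rw [h6]
      by_cases h7 : ∃ t ∈ TT, G.Low t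
      · obtain ⟨t, ht, htl⟩ := h7
        have h8 := c.val_low4 (s.TTT ht) htl
        have h9 := single_le_sum hpos ht
        push_cast
        linarith
      · exfalso
        push Not at h7
        have hx3F := s.XF hx3
        have hql : ¬ G.Low q' := not_low33 ⟨_, s.tw.sym33⟩
        -- the cover of `q x3`
        obtain ⟨v, v', g1, g2, g3, g4, g5⟩ : ∃ v v', G.Tw v v' ∧ v ∈ X ∧ v' ∈ X ∧
            v ∈ G.nb x3 ∧ v' ∈ G.nb x3 := by
          rcases c.covT (Or.inr s.qT) (Or.inl hx3F) (Or.inr hx3F) ((s.qX x3 hx3F).2 hx3)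
            ⟨_, s.tw⟩ with h | h | h
          · obtain ⟨w, e1, e2, e3, e4⟩ := h
            exfalso
            rcases s.nbq c e3 e1 with e5 | e5 | e5
            · exact h1 (G.sym _ _ (e5 ▸ e4))
            · exact hql (e5 ▸ e2)
            · exact hXl w e5 e2
          · obtain ⟨v, v', e1, e1', e2, e3, e4, e5, e6⟩ := h
            have g : ∀ u u', (u ∈ F ∨ u ∈ G.N F) → G.Tw u u' → u ∈ G.nb q → u' ∈ G.nb q →
                u ∈ X := by
              intro u u' g1 g2 g3 g4
              rcases s.nbq c g3 g1 with h7 | h7 | h7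
              · exact absurd s.low (h7 ▸ not_low33 ⟨_, g2⟩)
              · rw [h7] at g2
                have := c.th.uniq c.n9 _ _ _ g2 s.tw.sym33
                rw [this] at g4
                exact absurd g4 (G.irr _)
              · exact h7
            exact ⟨v, v', e2, g v v' e1 e2 e3 e4, g v' v e1' e2.sym33 e4 e3, e5, e6⟩
          · obtain ⟨a, b, -, -, -, e4, -⟩ := h
            exact absurd e4 (hXl x3 hx3)
        have hvx3 : v ≠ x3 := (ne_of_nb5 g4).symm
        have hvx3' : v' ≠ x3 := (ne_of_nb5 g5).symm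
        have hvl := h2 v g2 hvx3
        have hvF := s.XF g2
        have hdeg := s.deg c hvF
        have hdZ := s.dxZ3 c g2 hvl
        have hdX : 2 ≤ G.d v X := d_two33 g3 g1.1 hx3 (G.sym _ _ g4) hvx3'
        have hvx4 : v ∈ G.nb x4 := (hNE v).2 (Or.inr g2)
        have hdE : 1 ≤ G.d v (F \ X) :=
          d_one33 (mem_sdiff.2 hx4) (G.sym _ _ hvx4)
        have hv7 := g1.2.1
        have hdTT : G.d v TT ≤ 1 := by omega
        have hz := s.zE c (mem_sdiff.2 hx4)
        have inTT : ∀ w, w ∈ G.N F → w ∈ G.nb x4 → w ∈ TT := by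
          intro w hw hwx
          rcases (s.memT c).1 hw with h | h | h | h
          · exact absurd hwx (h ▸ hz.1)
          · exact absurd hwx (h ▸ hz.2.1)
          · exact absurd hwx (h ▸ hz.2.2)
          · exact h
        rcases c.covT (Or.inl hvF) (Or.inl hx4.1) (Or.inl hvF) (G.sym _ _ hvx4) ⟨_, g1⟩ with
          h | h | h
        · obtain ⟨w, e1, e2, e3, e4⟩ := h
          rcases e1 with e1 | e1
          · rw [huniq w e1 e2] at e4
            exact G.irr _ e4
          · exact h7 w (inTT w e1 e4) e2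
        · obtain ⟨u, u', e1, e1', e2, e3, e4, e5, e6⟩ := h
          rcases e1 with e1 | e1
          · have hX : ∀ w ∈ F, w ∈ G.nb x4 → w ∈ X := by
              intro w hw hwx
              rcases (hNE w).1 hwx with h | h
              · exact absurd (s.TTT h) (c.ndisj hw)
              · exact h
            have k1 := hX u e1 e5
            have k2 := hX u' (c.twF e1 e2) e6
            have e := pairs5 c.th c.n9 g1 e2 (G.sym _ _ e3) (G.sym _ _ e4)
            have h8 := four_le5 g2 g3 k1 k2 e.1 e.2.1 e.2.2.1 e.2.2.2.1 e.2.2.2.2.1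
              e.2.2.2.2.2
            have h9 := s.X3
            omega
          · have k1 := inTT u e1 e5
            have k2 := inTT u' (c.twT e1 e2) e6
            have : 2 ≤ G.d v TT := d_two33 k1 e3 k2 e4 e2.ne33
            omega
        · obtain ⟨a, b, e1, e2, e3, e4, e5, e6, e7⟩ := h
          have hb : b ∈ G.N F := e2.resolve_left (fun h => HL_ne33 e3 (huniq b h e3.2.1))
          have ha : a ∈ G.N F := e1.resolve_left (fun h =>
            c.ndisj ((c.hlF e1 e2 (Or.inl hx4.1) e3).1 h) hb)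
          have haTT := inTT a ha e5
          have hbl : b = l := by
            rcases (s.memT c).1 hb with h | h | h | h
            · exact h
            · exact absurd e3.2.1 (h ▸ not_low33 ⟨_, s.tw⟩)
            · exact absurd e3.2.1 (h ▸ hql)
            · exact absurd e3.2.1 (h7 b h)
          rw [hbl] at e3
          have hqa : q ∈ G.nb a := HL_nb33 e3 (G.sym _ _ s.ql) (s.TTne haTT).2.1.symm
          exact s.qTT c haTT (G.sym _ _ hqa)

/-! ### a pair of twins in `N F` with two neighbours in `F` -/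

/-- three vertices of `N F` -/
theorem rest33 (c : Lf33 G F) (S : Finset V) (hS : S ⊆ G.N F) (h3 : S.card = 3)
    (hcl : ∀ u ∈ S, ∀ u', G.Tw u u' → u' ∈ S)
    (H1 : ∀ u ∈ S, ∀ u', G.Tw u u' → (∃ t ∈ S, G.Low t ∧ t ∈ G.nb u) ∨ 4 ≤ G.d u F)
    (H2 : (∀ w ∈ S, ¬ G.Low w) → (∀ w ∈ S, ¬ G.IsTw w) → False) :
    2 ≤ ∑ w ∈ S, G.val33 F w := by
  by_cases htw : ∃ u ∈ S, G.IsTw u
  · obtain ⟨u, hu, u', huu⟩ := htw
    have hu' := hcl u hu u' huu
    -- the third vertex
    obtain ⟨z, hz, hzn⟩ : ∃ z ∈ S, z ∉ ({u, u'} : Finset V) := by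
      by_contra hcon
      push Not at hcon
      have := card_le_card (show S ⊆ {u, u'} from fun z hz => hcon z hz)
      rw [h3, card_pair huu.ne33] at this
      omega
    rw [mem_insert, mem_singleton, not_or] at hzn
    have hSe : S = {u, u', z} := by
      symm
      apply eq_of_subset_of_card_le
      · intro x hx
        simp only [mem_insert, mem_singleton] at hx
        rcases hx with rfl | rfl | rfl <;> assumption
      · rw [h3, card_eq_three.2 ⟨u, u', z, huu.ne33, Ne.symm hzn.1, Ne.symm hzn.2, rfl⟩]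
    have hsum : ∑ w ∈ S, G.val33 F w = G.val33 F u + G.val33 F u' + G.val33 F z := by
      rw [hSe, sum_insert, sum_insert, sum_singleton, add_assoc]
      · rw [mem_singleton]; exact Ne.symm hzn.2
      · rw [mem_insert, mem_singleton, not_or]; exact ⟨huu.ne33, Ne.symm hzn.1⟩
    have hzt : ¬ G.IsTw z := by
      rintro ⟨z', hzz⟩
      have h5 := hcl z hz z' hzz
      rw [hSe] at h5
      simp only [mem_insert, mem_singleton] at h5
      rcases h5 with rfl | rfl | rfl
      · exact hzn.2 (c.th.uniq c.n9 _ _ _ hzz.sym33 huu)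
      · exact hzn.1 (c.th.uniq c.n9 _ _ _ hzz.sym33 huu.sym33)
      · exact hzz.ne33 rfl
    have hvu := c.val_tw (hS hu) huu
    have hd := c.exp1 (hS hu)
    have hdT : 1 ≤ G.d u (G.N F) := d_one33 (hS hu') huu.1
    have hval := val_tw33 (F := F) ⟨u', huu⟩
    rcases H1 u hu u' huu with ⟨t, ht, htl, htu⟩ | h5
    · have htz : t = z := by
        rw [hSe] at ht
        simp only [mem_insert, mem_singleton] at ht
        rcases ht with rfl | rfl | rfl
        · exact absurd htl (not_low33 ⟨_, huu⟩)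
        · exact absurd htl (not_low33 ⟨_, huu.sym33⟩)
        · rfl
      subst htz
      have htu' : t ∈ G.nb u' := huu.nb33 htu hzn.2
      have h6 : 2 ≤ G.d u (G.N F) :=
        d_two33 (hS hu') huu.1 (hS ht) htu (Ne.symm hzn.2)
      have h7 : 2 ≤ G.d t (G.N F) :=
        d_two33 (hS hu) (G.sym _ _ htu) (hS hu') (G.sym _ _ htu') huu.ne33
      have h8 := c.exp1 (hS ht)
      rw [hsum, ← hvu, hval, val_low33 htl]
      omega
    · have h6 : 0 ≤ G.val33 F z := by
        by_cases hl : G.Low z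
        · have := c.val_low4 (hS hz) hl
          linarith
        · rw [val_hub33 hl hzt]
      rw [hsum, ← hvu, hval]
      omega
  · push Not at htw
    have hpos : ∀ w ∈ S, 0 ≤ G.val33 F w := by
      intro w hw
      by_cases hl : G.Low w
      · have := c.val_low4 (hS hw) hl
        linarith
      · rw [val_hub33 hl (htw w hw)]
    by_cases hlow : ∃ w ∈ S, G.Low w
    · obtain ⟨w, hw, hwl⟩ := hlow
      have h1 := single_le_sum hpos hw
      have h2 := c.val_low4 (hS hw) hwl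
      linarith
    · push Not at hlow
      exact (H2 hlow htw).elim

/-- the situation -/
structure B33 (G : CG V) (F : Finset V) (q q' f f' x1 x2 : V) (TT : Finset V) : Prop where
  qT : q ∈ G.N F
  tw : G.Tw q q'
  mem : ∀ x, x ∈ F ↔ x = x1 ∨ x = x2 ∨ x = f ∨ x = f'
  qx : ∀ x ∈ F, x ∈ G.nb q ↔ x = x1 ∨ x = x2
  n12 : x1 ≠ x2
  nff : f ≠ f'
  n1f : x1 ≠ f
  n1f' : x1 ≠ f'
  n2f : x2 ≠ f
  n2f' : x2 ≠ f'
  NE : ∀ w, w ∈ G.N {f, f'} ↔ w ∈ TT ∨ w = x1 ∨ w = x2
  TTe : TT = G.N F \ {q, q'}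

namespace B33

variable {q q' f f' x1 x2 : V} {TT : Finset V}

theorem swapf (b : B33 G F q q' f f' x1 x2 TT) : B33 G F q q' f' f x1 x2 TT := by
  refine ⟨b.qT, b.tw, fun x => ?_, b.qx, b.n12, b.nff.symm, b.n1f', b.n1f, b.n2f', b.n2f,
    fun w => ?_, b.TTe⟩
  · rw [b.mem]; tauto
  · rw [pair_comm, b.NE]

theorem swapx (b : B33 G F q q' f f' x1 x2 TT) : B33 G F q q' f f' x2 x1 TT := by
  refine ⟨b.qT, b.tw, fun x => ?_, fun x hx => ?_, b.n12.symm, b.nff, b.n2f, b.n2f', b.n1f,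
    b.n1f', fun w => ?_, b.TTe⟩
  · rw [b.mem]; tauto
  · rw [b.qx x hx]; tauto
  · rw [b.NE]; tauto

theorem x1F (b : B33 G F q q' f f' x1 x2 TT) : x1 ∈ F := (b.mem _).2 (Or.inl rfl)

theorem x2F (b : B33 G F q q' f f' x1 x2 TT) : x2 ∈ F := b.swapx.x1F

theorem fF (b : B33 G F q q' f f' x1 x2 TT) : f ∈ F :=
  (b.mem _).2 (Or.inr (Or.inr (Or.inl rfl)))

theorem fF' (b : B33 G F q q' f f' x1 x2 TT) : f' ∈ F := b.swapf.fF

theorem qT' (b : B33 G F q q' f f' x1 x2 TT) (c : Lf33 G F) : q' ∈ G.N F := c.twT b.qT b.tw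

theorem qx' (b : B33 G F q q' f f' x1 x2 TT) (c : Lf33 G F) {x : V} (hx : x ∈ F) :
    x ∈ G.nb q' ↔ x = x1 ∨ x = x2 := by
  rw [← b.qx x hx]
  constructor
  · exact fun h => b.tw.sym33.nb33 h (fun e => c.ndisj hx (e ▸ b.qT))
  · exact fun h => b.tw.nb33 h (fun e => c.ndisj hx (e ▸ b.qT' c))

theorem ZT (b : B33 G F q q' f f' x1 x2 TT) (c : Lf33 G F) : ({q, q'} : Finset V) ⊆ G.N F := by
  intro x hx
  rw [mem_insert, mem_singleton] at hx
  rcases hx with rfl | rfl
  · exact b.qT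
  · exact b.qT' c

theorem TT4 (b : B33 G F q q' f f' x1 x2 TT) (c : Lf33 G F) : TT.card = 4 := by
  rw [b.TTe, card_sdiff_of_subset (b.ZT c), c.cardT, card_pair b.tw.ne33]

theorem TTT (b : B33 G F q q' f f' x1 x2 TT) {w : V} (hw : w ∈ TT) : w ∈ G.N F := by
  rw [b.TTe, mem_sdiff] at hw
  exact hw.1

theorem TTne (b : B33 G F q q' f f' x1 x2 TT) {w : V} (hw : w ∈ TT) : w ≠ q ∧ w ≠ q' := by
  rw [b.TTe, mem_sdiff, mem_insert, mem_singleton, not_or] at hw
  exact hw.2

theorem memT (b : B33 G F q q' f f' x1 x2 TT) {w : V} (hw : w ∈ G.N F) :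
    w = q ∨ w = q' ∨ w ∈ TT := by
  by_cases h : w = q
  · exact Or.inl h
  · by_cases h' : w = q'
    · exact Or.inr (Or.inl h')
    · right; right
      rw [b.TTe, mem_sdiff, mem_insert, mem_singleton, not_or]
      exact ⟨hw, h, h'⟩

/-- `q`, `q'` are not adjacent to `f` -/
theorem fq (b : B33 G F q q' f f' x1 x2 TT) (c : Lf33 G F) : q ∉ G.nb f ∧ q' ∉ G.nb f := by
  constructor
  · intro h
    rcases (b.qx f b.fF).1 (G.sym _ _ h) with h1 | h1
    · exact b.n1f h1.symm
    · exact b.n2f h1.symm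
  · intro h
    rcases (b.qx' c b.fF).1 (G.sym _ _ h) with h1 | h1
    · exact b.n1f h1.symm
    · exact b.n2f h1.symm

/-- a neighbour of `f` in `N F` is in `TT` -/
theorem fT (b : B33 G F q q' f f' x1 x2 TT) (c : Lf33 G F) {w : V} (hw : w ∈ G.N F)
    (h : w ∈ G.nb f) : w ∈ TT := by
  rcases b.memT hw with h1 | h1 | h1
  · exact absurd h (h1 ▸ (b.fq c).1)
  · exact absurd h (h1 ▸ (b.fq c).2)
  · exact h1

theorem dqF (b : B33 G F q q' f f' x1 x2 TT) : G.d q F = 2 := by
  have : G.nb q ∩ F = {x1, x2} := by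
    ext x
    rw [mem_inter, mem_insert, mem_singleton]
    constructor
    · exact fun h => (b.qx x h.2).1 h.1
    · intro h
      have hx : x ∈ F := by
        rcases h with rfl | rfl
        · exact b.x1F
        · exact b.x2F
      exact ⟨(b.qx x hx).2 h, hx⟩
  unfold d
  rw [this, card_pair b.n12]

theorem valq (b : B33 G F q q' f f' x1 x2 TT) : G.val33 F q = (G.d q (G.N F) : ℤ) - 3 := by
  rw [val_tw33 ⟨_, b.tw⟩, b.dqF]
  ring

theorem sumT (b : B33 G F q q' f f' x1 x2 TT) (c : Lf33 G F) :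
    ∑ w ∈ G.N F, G.val33 F w = 2 * ((G.d q (G.N F) : ℤ) - 3) + ∑ w ∈ TT, G.val33 F w := by
  rw [b.TTe, ← sum_sdiff (b.ZT c), add_comm]
  congr 1
  rw [sum_pair b.tw.ne33, ← c.val_tw b.qT b.tw, b.valq]
  ring

/-- the twin of a vertex of `TT` is in `TT` -/
theorem twTT (b : B33 G F q q' f f' x1 x2 TT) (c : Lf33 G F) {u u' : V} (hu : u ∈ TT)
    (h : G.Tw u u') : u' ∈ TT := by
  rcases b.memT (c.twT (b.TTT hu) h) with h1 | h1 | h1
  · rw [h1] at h
    exact absurd (c.th.uniq c.n9 _ _ _ h.sym33 b.tw) (b.TTne hu).2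
  · rw [h1] at h
    exact absurd (c.th.uniq c.n9 _ _ _ h.sym33 b.tw.sym33) (b.TTne hu).1
  · exact h1

/-- neighbours of `x1` in `N F` -/
theorem dx1T (b : B33 G F q q' f f' x1 x2 TT) (c : Lf33 G F) :
    G.d x1 (G.N F) = 2 + G.d x1 TT := by
  have h1 : G.d x1 {q, q'} = 2 := by
    rw [← card_pair b.tw.ne33]
    apply d_full33
    intro x hx
    rw [mem_insert, mem_singleton] at hx
    rcases hx with rfl | rfl
    · exact G.sym _ _ ((b.qx _ b.x1F).2 (Or.inl rfl))
    · exact G.sym _ _ ((b.qx' c b.x1F).2 (Or.inl rfl))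
  rw [b.TTe, ← h1, ← d_union33 x1 disjoint_sdiff, union_sdiff_of_subset (b.ZT c)]

/-- a vertex adjacent to `q` is adjacent to `q'` -/
theorem nbq' (b : B33 G F q q' f f' x1 x2 TT) {w : V} (hw : w ∈ TT) (h : w ∈ G.nb q) :
    w ∈ G.nb q' := b.tw.nb33 h (b.TTne hw).2

/-- the forms of the cover of `q x1`: either `x1` is low, or there is a low vertex `c0` of `TT`
adjacent to `q` and `x1` -/
theorem covq (b : B33 G F q q' f f' x1 x2 TT) (c : Lf33 G F)
    (hno : ∀ y ∈ F, G.Low y → y ∈ G.nb q → y ∉ G.nb x1)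
    (htw : ∀ v ∈ TT, ∀ v', G.Tw v v' → f ∈ G.nb v ∧ f' ∈ G.nb v) :
    (∃ w ∈ TT, G.Low w ∧ w ∈ G.nb q ∧ w ∈ G.nb x1) ∨
    (∃ a b, (a ∈ F ∨ a ∈ G.N F) ∧ (b ∈ F ∨ b ∈ G.N F) ∧ G.HL a b x1 ∧ G.Low x1 ∧ a ∈ G.nb x1 ∧
      a ∈ G.nb q ∧ b ∈ G.nb q) := by
  have hxq : x1 ∈ G.nb q := (b.qx _ b.x1F).2 (Or.inl rfl)
  rcases c.covT (Or.inr b.qT) (Or.inl b.x1F) (Or.inr b.x1F) hxq ⟨_, b.tw⟩ with g | g | g
  · obtain ⟨w, e1, e2, e3, e4⟩ := g
    left
    rcases e1 with e1 | e1
    · exact absurd e4 (hno w e1 e2 e3)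
    · rcases b.memT e1 with h | h | h
      · exact absurd e3 (h ▸ G.irr _)
      · exact absurd e2 (h ▸ not_low33 ⟨_, b.tw.sym33⟩)
      · exact ⟨w, h, e2, e3, e4⟩
  · exfalso
    obtain ⟨v, v', e1, -, e2, e3, e4, e5, e6⟩ := g
    rcases e1 with e1 | e1
    · have h1 : v = x2 := ((b.qx v e1).1 e3).resolve_left (ne_of_nb5 e5).symm
      have h2 : v' = x2 := ((b.qx v' (c.twF e1 e2)).1 e4).resolve_left (ne_of_nb5 e6).symm
      exact e2.ne33 (h1.trans h2.symm)
    · rcases b.memT e1 with h | h | h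
      · exact G.irr _ (h ▸ e3)
      · rw [h] at e2
        have := c.th.uniq c.n9 _ _ _ e2 b.tw.sym33
        rw [this] at e4
        exact G.irr _ e4
      · obtain ⟨h1, h2⟩ := htw v h v' e2
        have h3 : 3 ≤ G.d v F := d_three33 b.x1F (G.sym _ _ e5) b.fF h1 b.fF' h2 b.n1f b.n1f'
          b.nff
        have h4 := b.twTT c h e2
        have h5 : 3 ≤ G.d v (G.N F) := d_three33 b.qT (G.sym _ _ e3) (b.qT' c)
          (G.sym _ _ (b.nbq' h e3)) (b.TTT h4) e2.1 b.tw.ne33 (b.TTne h4).1.symm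
          (b.TTne h4).2.symm
        have h6 := c.vis e1 (Or.inr ⟨_, e2⟩)
        omega
  · exact Or.inr g

/-! #### `f`, `f'` are twins -/

/-- with twins `f`, `f'` -/
structure T (G : CG V) (F : Finset V) (q q' f f' x1 x2 : V) (TT : Finset V) : Prop
    extends B33 G F q q' f f' x1 x2 TT where
  tf : G.Tw f f'
  nf : ∀ x, x ∈ G.nb f ↔ x = f' ∨ x ∈ G.N {f, f'}

namespace T

theorem wf (t : T G F q q' f f' x1 x2 TT) {w : V} (hw : w ∈ TT ∨ w = x1 ∨ w = x2) :
    f ∈ G.nb w ∧ f' ∈ G.nb w := by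
  have h1 : w ∈ G.nb f := (t.nf w).2 (Or.inr ((t.NE w).2 hw))
  refine ⟨G.sym _ _ h1, G.sym _ _ (t.tf.nb33 h1 ?_)⟩
  rintro rfl
  rcases hw with h | h | h
  · exact (mem_N37.1 (t.TTT h)).1 t.fF'
  · exact t.n1f' h.symm
  · exact t.n2f' h.symm

/-- covers of an edge `f w` -/
theorem covf (t : T G F q q' f f' x1 x2 TT) (c : Lf33 G F) {w : V} (hw : w ∈ TT)
    (hx : ¬ G.Tw x1 x2) :
    (∃ y ∈ F, G.Low y ∧ y ∈ G.nb w) ∨ (∃ y ∈ TT, G.Low y ∧ y ∈ G.nb w) ∨
    (∃ v ∈ TT, ∃ v' ∈ TT, G.Tw v v' ∧ v ∈ G.nb w ∧ v' ∈ G.nb w) ∨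
    (G.Low w ∧ ∃ a b, (a ∈ F ∨ a ∈ G.N F) ∧ (b ∈ F ∨ b ∈ G.N F) ∧ G.HL a b w ∧ a ∈ G.nb w ∧
      a ∈ G.nb f ∧ b ∈ G.nb f) := by
  have hwf : w ∈ G.nb f := G.sym _ _ (t.wf (Or.inl hw)).1
  rcases c.covT (Or.inl t.fF) (Or.inr (t.TTT hw)) (Or.inl t.fF) hwf ⟨_, t.tf⟩ with g | g | g
  · obtain ⟨y, e1, e2, e3, e4⟩ := g
    rcases e1 with e1 | e1
    · exact Or.inl ⟨y, e1, e2, e4⟩
    · exact Or.inr (Or.inl ⟨y, t.fT c e1 e3, e2, e4⟩)
  · obtain ⟨v, v', e1, -, e2, e3, e4, e5, e6⟩ := g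
    rcases e1 with e1 | e1
    · exfalso
      have e1' := c.twF e1 e2
      have g : ∀ y y', y ∈ F → G.Tw y y' → y ∈ G.nb f → y' ∈ G.nb f → y = x1 ∨ y = x2 := by
        intro y y' k1 k2 k3 k4
        rcases (t.mem y).1 k1 with h | h | h | h
        · exact Or.inl h
        · exact Or.inr h
        · exact absurd k3 (h ▸ G.irr _)
        · rw [h] at k2
          have := c.th.uniq c.n9 _ _ _ k2 t.tf.sym33
          rw [this] at k4
          exact absurd k4 (G.irr _)
      rcases g v v' e1 e2 e3 e4 with h | h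
      · rcases g v' v e1' e2.sym33 e4 e3 with h' | h'
        · exact e2.ne33 (h.trans h'.symm)
        · exact hx (h ▸ h' ▸ e2)
      · rcases g v' v e1' e2.sym33 e4 e3 with h' | h'
        · exact hx (h ▸ h' ▸ e2.sym33)
        · exact e2.ne33 (h.trans h'.symm)
    · exact Or.inr (Or.inr (Or.inl ⟨v, t.fT c e1 e3, v', t.fT c (c.twT e1 e2) e4, e2, e5, e6⟩))
  · obtain ⟨a, b, e1, e2, e3, e4, e5, e6, e7⟩ := g
    exact Or.inr (Or.inr (Or.inr ⟨e4, a, b, e1, e2, e3, e5, e6, e7⟩))

/-- a low vertex of `TT` adjacent to `q` and `x1` -/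
theorem full (t : T G F q q' f f' x1 x2 TT) (c : Lf33 G F) {w : V} (hw : w ∈ TT)
    (hl : G.Low w) (hq : w ∈ G.nb q) (hx : w ∈ G.nb x1) :
    G.d w F = 3 ∧ G.d w (G.N F) = 2 ∧ (∀ z ∈ TT, z ∉ G.nb w) ∧ x2 ∉ G.nb w := by
  obtain ⟨h1, h2⟩ := t.wf (Or.inl hw)
  have h3 : 3 ≤ G.d w F := d_three33 t.x1F (G.sym _ _ hx) t.fF h1 t.fF' h2 t.n1f t.n1f' t.nff
  have h4 : 2 ≤ G.d w (G.N F) :=
    d_two33 t.qT (G.sym _ _ hq) (t.qT' c) (G.sym _ _ (t.nbq' hw hq)) t.tw.ne33
  have h5 := c.vis (t.TTT hw) (Or.inl hl)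
  refine ⟨by omega, by omega, ?_, ?_⟩
  · intro z hz hzw
    have : 3 ≤ G.d w (G.N F) := d_three33 t.qT (G.sym _ _ hq) (t.qT' c)
      (G.sym _ _ (t.nbq' hw hq)) (t.TTT hz) hzw t.tw.ne33 (t.TTne hz).1.symm (t.TTne hz).2.symm
    omega
  · intro hz
    have h6 : ({x1, f, f'} : Finset V).card = 3 := by
      rw [card_eq_three]
      exact ⟨x1, f, f', t.n1f, t.n1f', t.nff, rfl⟩
    have h7 : ({x2, x1, f, f'} : Finset V).card = 4 := by
      rw [card_insert_of_notMem, h6]
      simp only [mem_insert, mem_singleton, not_or]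
      exact ⟨t.n12.symm, t.n2f, t.n2f'⟩
    have h8 : ({x2, x1, f, f'} : Finset V).card ≤ G.d w F := by
      unfold d
      apply card_le_card
      intro z hz'
      rw [mem_inter]
      simp only [mem_insert, mem_singleton] at hz'
      rcases hz' with rfl | rfl | rfl | rfl
      · exact ⟨hz, t.x2F⟩
      · exact ⟨G.sym _ _ hx, t.x1F⟩
      · exact ⟨h1, t.fF⟩
      · exact ⟨h2, t.fF'⟩
    omega

theorem htw (t : T G F q q' f f' x1 x2 TT) : ∀ v ∈ TT, ∀ v', G.Tw v v' →
    f ∈ G.nb v ∧ f' ∈ G.nb v := fun _ hv _ _ => t.wf (Or.inl hv)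

/-- no low vertex in `F` -/
theorem zero (t : T G F q q' f f' x1 x2 TT) (c : Lf33 G F) (hL : G.l F = 0) : False := by
  rcases t.toB33.covq c (fun y hy hy' => absurd hy' (l_zero33 hL hy)) t.htw with g | g
  · obtain ⟨w, e1, e2, e3, e4⟩ := g
    obtain ⟨h1, h2, h3, h4⟩ := t.full c e1 e2 e3 e4
    have hx : ¬ G.Tw x1 x2 := by
      intro h
      refine h4 (G.sym _ _ (h.nb33 e4 ?_))
      rintro rfl
      exact c.ndisj t.x2F (t.TTT e1)
    rcases t.covf c e1 hx with g | g | g | g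
    · obtain ⟨y, k1, k2, -⟩ := g
      exact l_zero33 hL k1 k2
    · obtain ⟨y, k1, -, k2⟩ := g
      exact h3 y k1 k2
    · obtain ⟨v, k1, v', -, -, k2, -⟩ := g
      exact h3 v k1 k2
    · obtain ⟨-, a, b, k1, k2, k3, k4, k5, k6⟩ := g
      have hb : b ∈ G.N F := k2.resolve_left (fun h => l_zero33 hL h k3.2.1)
      have ha : a ∈ G.N F := k1.resolve_left (fun h =>
        c.ndisj ((c.hlF k1 k2 (Or.inr (t.TTT e1)) k3).1 h) hb)
      exact h3 a (t.fT c ha k5) k4
  · obtain ⟨a, b, -, -, -, h, -⟩ := g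
    exact l_zero33 hL t.x1F h

/-- one low vertex in `F`, namely `x1` -/
theorem one (t : T G F q q' f f' x1 x2 TT) (c : Lf33 G F) (hL : G.l F ≤ 1) (hx1 : G.Low x1) :
    12 ≤ ∑ w ∈ G.N F, G.val33 F w := by
  have huniq : ∀ y ∈ F, G.Low y → y = x1 := fun y hy hy' => l_uniq33 hL hy hy' t.x1F hx1
  have hx : ¬ G.Tw x1 x2 := fun h => not_low33 ⟨_, h⟩ hx1
  obtain ⟨g1, g2⟩ := t.wf (Or.inr (Or.inl rfl))
  -- `x1` has at most two neighbours in `TT`
  have hcap : G.d x1 TT ≤ 2 := by
    have h1 : 2 ≤ G.d x1 F := d_two33 t.fF g1 t.fF' g2 t.nff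
    have h2 := c.dF t.x1F
    have h3 := t.dx1T c
    unfold Low at hx1
    omega
  rw [t.sumT c]
  rcases t.toB33.covq c (fun y hy hy' _ h => by
    rw [huniq y hy hy'] at h
    exact G.irr _ h) t.htw with g | g
  · obtain ⟨w, e1, e2, e3, e4⟩ := g
    obtain ⟨h1, h2, h3, -⟩ := t.full c e1 e2 e3 e4
    have hdq : 2 ≤ G.d q (G.N F) :=
      d_two33 (t.qT' c) t.tw.1 (t.TTT e1) e3 (t.TTne e1).2.symm
    rw [← add_sum_erase TT _ e1, val_low33 e2, h1, h2]
    have hrest : 2 ≤ ∑ u ∈ TT.erase w, G.val33 F u := by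
      apply rest33 c
      · exact fun u hu => t.TTT (mem_of_mem_erase hu)
      · rw [card_erase_of_mem e1, t.TT4 c]
      · intro u hu u' huu
        rw [mem_erase] at hu ⊢
        refine ⟨?_, t.twTT c hu.2 huu⟩
        rintro rfl
        exact not_low33 ⟨_, huu.sym33⟩ e2
      · intro u hu u' huu
        left
        rw [mem_erase] at hu
        have hu' := t.twTT c hu.2 huu
        rcases t.covf c hu.2 hx with g | g | g | g
        · exfalso
          obtain ⟨y, k1, k2, k3⟩ := g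
          rw [huniq y k1 k2] at k3
          have k4 : x1 ∈ G.nb u' := huu.nb33 k3 (fun e => c.ndisj t.x1F (e ▸ t.TTT hu'))
          have k5 : u' ≠ w := by
            rintro rfl
            exact not_low33 ⟨_, huu.sym33⟩ e2
          have : 3 ≤ G.d x1 TT := d_three33 e1 e4 hu.2 (G.sym _ _ k3) hu' (G.sym _ _ k4)
            (Ne.symm hu.1) k5.symm huu.ne33
          omega
        · obtain ⟨y, k1, k2, k3⟩ := g
          refine ⟨y, ?_, k2, k3⟩
          rw [mem_erase]
          refine ⟨?_, k1⟩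
          rintro rfl
          exact h3 u hu.2 (G.sym _ _ k3)
        · exfalso
          obtain ⟨v, k1, v', k2, k3, k4, k5⟩ := g
          have e := pairs5 c.th c.n9 huu k3 (G.sym _ _ k4) (G.sym _ _ k5)
          have kw : v ≠ w := by
            rintro rfl
            exact not_low33 ⟨_, k3⟩ e2
          have kw' : v' ≠ w := by
            rintro rfl
            exact not_low33 ⟨_, k3.sym33⟩ e2
          have ku' : u' ≠ w := by
            rintro rfl
            exact not_low33 ⟨_, huu.sym33⟩ e2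
          have h8 := four_le5 (S := TT.erase w) (mem_erase.2 hu) (mem_erase.2 ⟨ku', hu'⟩)
            (mem_erase.2 ⟨kw, k1⟩) (mem_erase.2 ⟨kw', k2⟩) e.1 e.2.1 e.2.2.1 e.2.2.2.1
            e.2.2.2.2.1 e.2.2.2.2.2
          rw [card_erase_of_mem e1, t.TT4 c] at h8
          omega
        · exact absurd g.1 (not_low33 ⟨_, huu⟩)
      · intro hnl hnt
        have hall : ∀ u ∈ TT, u ∈ G.nb x1 := by
          intro u hu
          by_cases huw : u = w
          · exact huw ▸ e4
          · have hu1 : u ∈ TT.erase w := mem_erase.2 ⟨huw, hu⟩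
            rcases t.covf c hu hx with g | g | g | g
            · obtain ⟨y, k1, k2, k3⟩ := g
              rw [huniq y k1 k2] at k3
              exact G.sym _ _ k3
            · obtain ⟨y, k1, k2, k3⟩ := g
              by_cases hyw : y = w
              · exact absurd (G.sym _ _ (hyw ▸ k3)) (h3 u hu)
              · exact absurd k2 (hnl y (mem_erase.2 ⟨hyw, k1⟩))
            · obtain ⟨v, k1, v', k2, k3, k4, k5⟩ := g
              have kw : v ≠ w := by
                rintro rfl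
                exact not_low33 ⟨_, k3⟩ e2
              exact absurd ⟨_, k3⟩ (hnt v (mem_erase.2 ⟨kw, k1⟩))
            · exact absurd g.1 (hnl u hu1)
        rw [d_full33 hall, t.TT4 c] at hcap
        omega
    have e5 : (2 : ℤ) ≤ (G.d q (G.N F) : ℤ) := by exact_mod_cast hdq
    push_cast
    linarith
  · obtain ⟨a, b, e1, e2, e3, -, e5, e6, e7⟩ := g
    have hb : b ∈ G.N F := e2.resolve_left (fun h => HL_ne33 e3 (huniq b h e3.2.1))
    have ha : a ∈ G.N F := e1.resolve_left (fun h =>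
      c.ndisj ((c.hlF e1 e2 (Or.inl t.x1F) e3).1 h) hb)
    have hbTT : b ∈ TT := by
      rcases t.memT hb with h | h | h
      · exact absurd e7 (h ▸ G.irr _)
      · exact absurd e3.2.1 (h ▸ not_low33 ⟨_, t.tw.sym33⟩)
      · exact h
    have hat : ¬ G.IsTw a := c.th.notHL c.n9 _ _ _ e3
    have haTT : a ∈ TT := by
      rcases t.memT ha with h | h | h
      · exact absurd e6 (h ▸ G.irr _)
      · exact absurd ⟨_, t.tw.sym33⟩ (h ▸ hat)
      · exact h
    have hal : ¬ G.Low a := by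
      have := e3.1
      intro h
      unfold Low at h
      omega
    have hab : a ≠ b := ne_of_nb5 e3.2.2.1
    have hba : a ∈ G.nb b := G.sym _ _ e3.2.2.1
    obtain ⟨hbf, hbf'⟩ := t.wf (Or.inl hbTT)
    have h1 := c.exp1 hb
    have h2 : 3 ≤ G.d b (G.N F) := d_three33 t.qT (G.sym _ _ e7) (t.qT' c)
      (G.sym _ _ (t.nbq' hbTT e7)) ha hba t.tw.ne33 (t.TTne haTT).1.symm (t.TTne haTT).2.symm
    have h3 := c.vis hb (Or.inl e3.2.1)
    have hdq : 3 ≤ G.d q (G.N F) := d_three33 (t.qT' c) t.tw.1 hb e7 ha e6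
      (t.TTne hbTT).2.symm (t.TTne haTT).2.symm hab.symm
    have hb' : b ∈ TT.erase a := mem_erase.2 ⟨hab.symm, hbTT⟩
    rw [← add_sum_erase TT _ haTT, ← add_sum_erase (TT.erase a) _ hb', val_hub33 hal hat,
      val_low33 e3.2.1]
    set S := (TT.erase a).erase b with hS
    have hS2 : S.card = 2 := by
      rw [hS, card_erase_of_mem hb', card_erase_of_mem haTT, t.TT4 c]
    have hSTT : ∀ u ∈ S, u ∈ TT ∧ u ≠ a ∧ u ≠ b := by
      intro u hu
      rw [hS, mem_erase, mem_erase] at hu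
      exact ⟨hu.2.2, hu.2.1, hu.1⟩
    have hbS : ∀ u ∈ S, u ∉ G.nb b := by
      intro u hu hub
      obtain ⟨k1, k2, k3⟩ := hSTT u hu
      have h4 : ({q, q', a} : Finset V).card = 3 := by
        rw [card_eq_three]
        exact ⟨q, q', a, t.tw.ne33, (t.TTne haTT).1.symm, (t.TTne haTT).2.symm, rfl⟩
      have h5 : ({u, q, q', a} : Finset V).card = 4 := by
        rw [card_insert_of_notMem, h4]
        simp only [mem_insert, mem_singleton, not_or]
        exact ⟨(t.TTne k1).1, (t.TTne k1).2, k2⟩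
      have h6 : ({u, q, q', a} : Finset V).card ≤ G.d b (G.N F) := by
        unfold d
        apply card_le_card
        intro z hz
        rw [mem_inter]
        simp only [mem_insert, mem_singleton] at hz
        rcases hz with rfl | rfl | rfl | rfl
        · exact ⟨hub, t.TTT k1⟩
        · exact ⟨G.sym _ _ e7, t.qT⟩
        · exact ⟨G.sym _ _ (t.nbq' hbTT e7), t.qT' c⟩
        · exact ⟨hba, ha⟩
      omega
    have hrest : 2 ≤ ∑ u ∈ S, G.val33 F u := by
      -- a twin in `S` has its partner in `S`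
      have hcl : ∀ u ∈ S, ∀ u', G.Tw u u' → u' ∈ S := by
        intro u hu u' huu
        obtain ⟨k1, k2, k3⟩ := hSTT u hu
        rw [hS, mem_erase, mem_erase]
        refine ⟨?_, ?_, t.twTT c k1 huu⟩
        · rintro rfl
          exact not_low33 ⟨_, huu.sym33⟩ e3.2.1
        · rintro rfl
          exact hat ⟨_, huu.sym33⟩
      by_cases hlow : ∃ u ∈ S, G.Low u
      · obtain ⟨u, hu, hul⟩ := hlow
        have hpos : ∀ w ∈ S, 0 ≤ G.val33 F w := by
          intro w hw
          by_cases hwl : G.Low w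
          · have := c.val_low4 (t.TTT (hSTT w hw).1) hwl
            linarith
          · rw [val_hub33 hwl]
            rintro ⟨w', hww⟩
            have k1 := hcl w hw w' hww
            have k2 : u ≠ w := by
              rintro rfl
              exact hwl hul
            have k3 : u ≠ w' := by
              rintro rfl
              exact not_low33 ⟨_, hww.sym33⟩ hul
            have := three_le33 hu hw k1 k2 k3 hww.ne33
            omega
        have k1 := single_le_sum hpos hu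
        have k2 := c.val_low4 (t.TTT (hSTT u hu).1) hul
        linarith
      · exfalso
        push Not at hlow
        have hall : ∀ u ∈ S, u ∈ G.nb x1 := by
          intro u hu
          obtain ⟨k1, k2, k3⟩ := hSTT u hu
          rcases t.covf c k1 hx with g | g | g | g
          · obtain ⟨y, m1, m2, m3⟩ := g
            rw [huniq y m1 m2] at m3
            exact G.sym _ _ m3
          · obtain ⟨y, m1, m2, m3⟩ := g
            exfalso
            have m4 : y ≠ a := by
              rintro rfl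
              exact hal m2
            by_cases m5 : y = b
            · exact hbS u hu (G.sym _ _ (m5 ▸ m3))
            · refine hlow y ?_ m2
              rw [hS, mem_erase, mem_erase]
              exact ⟨m5, m4, m1⟩
          · exfalso
            obtain ⟨v, m1, v', m2, m3, m4, m5⟩ := g
            have g : ∀ y y', y ∈ TT → G.Tw y y' → y ∈ S := by
              intro y y' n1 n2
              rw [hS, mem_erase, mem_erase]
              refine ⟨?_, ?_, n1⟩
              · rintro rfl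
                exact not_low33 ⟨_, n2⟩ e3.2.1
              · rintro rfl
                exact hat ⟨_, n2⟩
            have := three_le33 hu (g v v' m1 m3) (g v' v m2 m3.sym33) (ne_of_nb5 m4)
              (ne_of_nb5 m5) m3.ne33
            omega
          · exact absurd g.1 (hlow u hu)
        obtain ⟨u1, u2, hne, hSe⟩ := card_eq_two.1 hS2
        have m1 : u1 ∈ S := by rw [hSe]; simp
        have m2 : u2 ∈ S := by rw [hSe]; simp
        have : 3 ≤ G.d x1 TT := d_three33 haTT e5 (hSTT u1 m1).1 (hall u1 m1) (hSTT u2 m2).1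
          (hall u2 m2) (hSTT u1 m1).2.1.symm (hSTT u2 m2).2.1.symm hne
        omega
    have e8 : (3 : ℤ) ≤ (G.d q (G.N F) : ℤ) := by exact_mod_cast hdq
    have e9 : (3 : ℤ) ≤ (G.d b (G.N F) : ℤ) := by exact_mod_cast h2
    have e10 : (2 : ℤ) ≤ (G.d b F : ℤ) := by exact_mod_cast h1
    linarith

end T

/-! #### `HL f f' t` -/

/-- with `HL f f' t` -/
structure H (G : CG V) (F : Finset V) (q q' f f' x1 x2 : V) (TT : Finset V) (t : V) : Prop
    extends B33 G F q q' f f' x1 x2 TT where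
  hl : G.HL f f' t
  tTT : t ∈ TT
  nf : ∀ x, x ∈ G.nb f ↔ x = f' ∨ x ∈ TT ∨ x = x1 ∨ x = x2
  nf' : ∀ x, x ∈ G.nb f' ↔ x = f ∨ ((x ∈ TT ∨ x = x1 ∨ x = x2) ∧ x ≠ t)
  low : ∀ y ∈ F, G.Low y → y = f'

namespace H

variable {t : V}

theorem swapx (h : H G F q q' f f' x1 x2 TT t) : H G F q q' f f' x2 x1 TT t := by
  refine ⟨h.toB33.swapx, h.hl, h.tTT, fun x => ?_, fun x => ?_, h.low⟩
  · rw [h.nf]; tauto
  · rw [h.nf']; tauto

theorem tl (h : H G F q q' f f' x1 x2 TT t) (c : Lf33 G F) : G.Low t := c.leaf.sat _ _ _ h.hl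

theorem ftw (h : H G F q q' f f' x1 x2 TT t) (c : Lf33 G F) : ¬ G.IsTw f :=
  c.th.notHL c.n9 _ _ _ h.hl

theorem f'tw (h : H G F q q' f f' x1 x2 TT t) : ¬ G.IsTw f' := not_tw33 h.hl.2.1

theorem x1l (h : H G F q q' f f' x1 x2 TT t) : ¬ G.Low x1 := fun e => h.n1f' (h.low x1 h.x1F e)

theorem wf (h : H G F q q' f f' x1 x2 TT t) {w : V} (hw : w ∈ TT ∨ w = x1 ∨ w = x2)
    (hne : w ≠ t) : f ∈ G.nb w ∧ f' ∈ G.nb w :=
  ⟨G.sym _ _ ((h.nf w).2 (Or.inr hw)), G.sym _ _ ((h.nf' w).2 (Or.inr ⟨hw, hne⟩))⟩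

theorem htw (h : H G F q q' f f' x1 x2 TT t) (c : Lf33 G F) : ∀ v ∈ TT, ∀ v', G.Tw v v' →
    f ∈ G.nb v ∧ f' ∈ G.nb v := by
  intro v hv v' hvv
  refine h.wf (Or.inl hv) ?_
  rintro rfl
  exact not_low33 ⟨_, hvv⟩ (h.tl c)

theorem exc (h : H G F q q' f f' x1 x2 TT t) (c : Lf33 G F) :
    ∃ w ∈ TT, G.Low w ∧ w ∈ G.nb q ∧ w ∈ G.nb x1 := by
  rcases h.toB33.covq c (fun y hy hy' hq => by
    rw [h.low y hy hy'] at hq
    exact absurd (G.sym _ _ hq) (h.toB33.swapf.fq c).1) (h.htw c) with g | g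
  · exact g
  · obtain ⟨a, b, -, -, -, e, -⟩ := g
    exact absurd e h.x1l

/-- a twin in `F` is `x1` or `x2` -/
theorem twF (h : H G F q q' f f' x1 x2 TT t) (c : Lf33 G F) {v v' : V} (hv : v ∈ F)
    (e : G.Tw v v') : G.Tw x1 x2 ∧ (v = x1 ∨ v = x2) := by
  have g : ∀ y y', y ∈ F → G.Tw y y' → y = x1 ∨ y = x2 := by
    intro y y' k1 k2
    rcases (h.mem y).1 k1 with e | e | e | e
    · exact Or.inl e
    · exact Or.inr e
    · exact absurd ⟨_, k2⟩ (e ▸ h.ftw c)
    · exact absurd ⟨_, k2⟩ (e ▸ h.f'tw)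
  rcases g v v' hv e with h1 | h1
  · rcases g v' v (c.twF hv e) e.sym33 with h2 | h2
    · exact absurd (h1.trans h2.symm) e.ne33
    · exact ⟨h1 ▸ h2 ▸ e, Or.inl h1⟩
  · rcases g v' v (c.twF hv e) e.sym33 with h2 | h2
    · exact ⟨h1 ▸ h2 ▸ e.sym33, Or.inr h1⟩
    · exact absurd (h1.trans h2.symm) e.ne33

/-- covers of the edge `f' w` -/
theorem covf (h : H G F q q' f f' x1 x2 TT t) (c : Lf33 G F) {w : V} (hw : w ∈ TT)
    (hwt : w ≠ t) :
    (∃ y ∈ TT, y ≠ t ∧ G.Low y ∧ y ∈ G.nb w) ∨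
    (G.Tw x1 x2 ∧ x1 ∈ G.nb w ∧ x2 ∈ G.nb w) ∨
    (∃ v ∈ TT, ∃ v' ∈ TT, v ≠ t ∧ v' ≠ t ∧ G.Tw v v' ∧ v ∈ G.nb w ∧ v' ∈ G.nb w) ∨
    (t ∈ G.nb w ∧ ∃ a ∈ TT, a ∈ G.nb w ∧ ¬ G.Low a ∧ ¬ G.IsTw a) ∨ (G.Low w) ∨
    (¬ G.IsTw w ∧ ∃ a ∈ TT, a ≠ t ∧ G.Low a) := by
  have hwf : w ∈ G.nb f' := (h.nf' w).2 (Or.inr ⟨Or.inl hw, hwt⟩)
  have hTT : ∀ y, y ∈ G.N F → y ∈ G.nb f' → y ∈ TT ∧ y ≠ t := by
    intro y hy hyf
    refine ⟨h.toB33.swapf.fT c hy hyf, ?_⟩
    rintro rfl
    exact HL_bt33 h.hl hyf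
  rcases c.cov (Or.inl h.fF') (Or.inr (h.TTT hw)) (Or.inl h.fF') hwf with
    g | g | g | g | g
  · obtain ⟨y, e1, e2, e3, e4⟩ := g
    left
    rcases e1 with e1 | e1
    · rw [h.low y e1 e2] at e3
      exact absurd e3 (G.irr _)
    · exact ⟨y, (hTT y e1 e3).1, (hTT y e1 e3).2, e2, e4⟩
  · obtain ⟨v, v', e1, -, e2, e3, e4, e5, e6⟩ := g
    rcases e1 with e1 | e1
    · right; left
      obtain ⟨k1, k2⟩ := h.twF c e1 e2
      obtain ⟨-, k3⟩ := h.twF c (c.twF e1 e2) e2.sym33
      refine ⟨k1, ?_⟩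
      rcases k2 with k2 | k2
      · rcases k3 with k3 | k3
        · exact absurd (k2.trans k3.symm) e2.ne33
        · exact ⟨k2 ▸ e5, k3 ▸ e6⟩
      · rcases k3 with k3 | k3
        · exact ⟨k3 ▸ e6, k2 ▸ e5⟩
        · exact absurd (k2.trans k3.symm) e2.ne33
    · right; right; left
      have k1 := hTT v e1 e3
      have k2 := hTT v' (c.twT e1 e2) e4
      exact ⟨v, k1.1, v', k2.1, k1.2, k2.2, e2, e5, e6⟩
  · obtain ⟨a, b, e1, e2, e3, e4, e5, e6, e7⟩ := g
    right; right; right; left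
    have hb : b ∈ G.N F := e2.resolve_left (fun k => HL_ne33 e3 (h.low b k e3.2.1))
    have ha : a ∈ G.N F := e1.resolve_left (fun k =>
      c.ndisj ((c.hlF e1 e2 (Or.inl h.fF') e3).1 k) hb)
    have hbf : b ∉ G.nb f' := fun k => HL_bt33 e3 (G.sym _ _ k)
    have hbt : b = t := by
      rcases h.memT hb with k | k | k
      · exact absurd e3.2.1 (k ▸ not_low33 ⟨_, h.tw⟩)
      · exact absurd e3.2.1 (k ▸ not_low33 ⟨_, h.tw.sym33⟩)
      · by_contra hne
        exact hbf ((h.nf' b).2 (Or.inr ⟨Or.inl k, hne⟩))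
    refine ⟨hbt ▸ e7, a, (hTT a ha e5).1, e6, ?_, c.th.notHL c.n9 _ _ _ e3⟩
    have := e3.1
    intro k
    unfold Low at k
    omega
  · exact Or.inr (Or.inr (Or.inr (Or.inr (Or.inl g.choose_spec.choose_spec.2.2.2.1))))
  · obtain ⟨a, b, e1, e2, e3, e4, e5, e6, e7⟩ := g
    right; right; right; right; right
    refine ⟨e5, ?_⟩
    rcases e1 with e1 | e1
    · rw [h.low a e1 e3.1] at e6
      exact absurd e6 (G.irr _)
    · exact ⟨a, (hTT a e1 e6).1, (hTT a e1 e6).2, e3.1⟩

/-- a low vertex `w ≠ t` of `TT` adjacent to `q` and `x1` -/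
theorem caseI (h : H G F q q' f f' x1 x2 TT t) (c : Lf33 G F) {w : V} (hw : w ∈ TT)
    (hwt : w ≠ t) (hl : G.Low w) (hq : w ∈ G.nb q) (hx : w ∈ G.nb x1) :
    12 ≤ ∑ w ∈ G.N F, G.val33 F w := by
  obtain ⟨h1, h2⟩ := h.wf (Or.inl hw) hwt
  have h3 : 3 ≤ G.d w F := d_three33 h.x1F (G.sym _ _ hx) h.fF h1 h.fF' h2 h.n1f h.n1f' h.nff
  have h4 : 2 ≤ G.d w (G.N F) :=
    d_two33 h.qT (G.sym _ _ hq) (h.qT' c) (G.sym _ _ (h.nbq' hw hq)) h.tw.ne33
  have h5 := c.vis (h.TTT hw) (Or.inl hl)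
  have hwTT : ∀ z ∈ TT, z ∉ G.nb w := by
    intro z hz hzw
    have : 3 ≤ G.d w (G.N F) := d_three33 h.qT (G.sym _ _ hq) (h.qT' c)
      (G.sym _ _ (h.nbq' hw hq)) (h.TTT hz) hzw h.tw.ne33 (h.TTne hz).1.symm (h.TTne hz).2.symm
    omega
  have hx2w : x2 ∉ G.nb w := by
    intro hz
    have h6 : ({x1, f, f'} : Finset V).card = 3 := by
      rw [card_eq_three]
      exact ⟨x1, f, f', h.n1f, h.n1f', h.nff, rfl⟩
    have h7 : ({x2, x1, f, f'} : Finset V).card = 4 := by
      rw [card_insert_of_notMem, h6]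
      simp only [mem_insert, mem_singleton, not_or]
      exact ⟨h.n12.symm, h.n2f, h.n2f'⟩
    have h8 : ({x2, x1, f, f'} : Finset V).card ≤ G.d w F := by
      unfold d
      apply card_le_card
      intro z hz'
      rw [mem_inter]
      simp only [mem_insert, mem_singleton] at hz'
      rcases hz' with rfl | rfl | rfl | rfl
      · exact ⟨hz, h.x2F⟩
      · exact ⟨G.sym _ _ hx, h.x1F⟩
      · exact ⟨h1, h.fF⟩
      · exact ⟨h2, h.fF'⟩
    omega
  have hxx : ¬ G.Tw x1 x2 := by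
    intro e
    refine hx2w (G.sym _ _ (e.nb33 hx ?_))
    rintro rfl
    exact c.ndisj h.x2F (h.TTT hw)
  have hdq : 2 ≤ G.d q (G.N F) :=
    d_two33 (h.qT' c) h.tw.1 (h.TTT hw) hq (h.TTne hw).2.symm
  have htl := h.tl c
  have hvt := c.val_low4 (h.TTT h.tTT) htl
  have htw' : t ∈ TT.erase w := mem_erase.2 ⟨hwt.symm, h.tTT⟩
  rw [h.sumT c, ← add_sum_erase TT _ hw, ← add_sum_erase (TT.erase w) _ htw', val_low33 hl]
  set S := (TT.erase w).erase t with hS
  have hS2 : S.card = 2 := by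
    rw [hS, card_erase_of_mem htw', card_erase_of_mem hw, h.TT4 c]
  have hSTT : ∀ u ∈ S, u ∈ TT ∧ u ≠ w ∧ u ≠ t := by
    intro u hu
    rw [hS, mem_erase, mem_erase] at hu
    exact ⟨hu.2.2, hu.2.1, hu.1⟩
  have hTS : ∀ y y', y ∈ TT → G.Tw y y' → y ∈ S := by
    intro y y' n1 n2
    rw [hS, mem_erase, mem_erase]
    refine ⟨?_, ?_, n1⟩
    · rintro rfl
      exact not_low33 ⟨_, n2⟩ htl
    · rintro rfl
      exact not_low33 ⟨_, n2⟩ hl
  have hpos : ∀ u ∈ S, 0 ≤ G.val33 F u := by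
    intro u hu
    obtain ⟨k1, k2, k3⟩ := hSTT u hu
    by_cases hul : G.Low u
    · have := c.val_low4 (h.TTT k1) hul
      linarith
    · rw [val_hub33 hul]
      rintro ⟨u', huu⟩
      have hu'TT := h.twTT c k1 huu
      have hu' := hTS u' u hu'TT huu.sym33
      have hSe : S = {u, u'} := by
        symm
        apply eq_of_subset_of_card_le
        · intro z hz
          rw [mem_insert, mem_singleton] at hz
          rcases hz with rfl | rfl <;> assumption
        · rw [hS2, card_pair huu.ne33]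
      -- a low vertex of `TT` different from `t` is `w`
      have hlw : ∀ y ∈ TT, y ≠ t → G.Low y → y = w := by
        intro y m1 m2 m3
        by_contra hne
        have m4 : y ∈ S := by
          rw [hS, mem_erase, mem_erase]
          exact ⟨m2, hne, m1⟩
        rw [hSe, mem_insert, mem_singleton] at m4
        rcases m4 with rfl | rfl
        · exact hul m3
        · exact not_low33 ⟨_, huu.sym33⟩ m3
      rcases h.covf c k1 k3 with g | g | g | g | g | g
      · obtain ⟨y, m1, m2, m3, m4⟩ := g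
        rw [hlw y m1 m2 m3] at m4
        exact hwTT u k1 (G.sym _ _ m4)
      · exact hxx g.1
      · obtain ⟨v, m1, v', m2, -, -, m5, m6, m7⟩ := g
        have e := pairs5 c.th c.n9 huu m5 (G.sym _ _ m6) (G.sym _ _ m7)
        have m8 := hTS v v' m1 m5
        rw [hSe, mem_insert, mem_singleton] at m8
        rcases m8 with m8 | m8
        · exact e.2.1 m8.symm
        · exact e.2.2.2.1 m8.symm
      · obtain ⟨-, a, m1, m2, m3, m4⟩ := g
        have m5 : a ∈ S := by
          rw [hS, mem_erase, mem_erase]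
          refine ⟨?_, ?_, m1⟩
          · rintro rfl
            exact m3 htl
          · rintro rfl
            exact m3 hl
        rw [hSe, mem_insert, mem_singleton] at m5
        rcases m5 with rfl | rfl
        · exact m4 ⟨_, huu⟩
        · exact m4 ⟨_, huu.sym33⟩
      · exact hul g
      · exact g.1 ⟨_, huu⟩
  have hs := sum_nonneg hpos
  have e8 : (2 : ℤ) ≤ (G.d q (G.N F) : ℤ) := by exact_mod_cast hdq
  have e9 : (2 : ℤ) ≤ (G.d w (G.N F) : ℤ) := by exact_mod_cast h4
  have e10 : (3 : ℤ) ≤ (G.d w F : ℤ) := by exact_mod_cast h3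
  linarith

/-- `t` is adjacent to `q`, `x1` and `x2` -/
theorem caseII (h : H G F q q' f f' x1 x2 TT t) (c : Lf33 G F) (hq : t ∈ G.nb q)
    (hx1 : t ∈ G.nb x1) (hx2 : t ∈ G.nb x2) : 12 ≤ ∑ w ∈ G.N F, G.val33 F w := by
  have htl := h.tl c
  have htT := h.TTT h.tTT
  have hft : f ∈ G.nb t := G.sym _ _ (HL_t33 h.hl)
  have h3 : 3 ≤ G.d t F := d_three33 h.x1F (G.sym _ _ hx1) h.x2F (G.sym _ _ hx2) h.fF hft
    h.n12 h.n1f h.n2f
  have h4 : 2 ≤ G.d t (G.N F) :=
    d_two33 h.qT (G.sym _ _ hq) (h.qT' c) (G.sym _ _ (h.nbq' h.tTT hq)) h.tw.ne33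
  have h5 := c.vis htT (Or.inl htl)
  have htTT : ∀ z ∈ TT, z ∉ G.nb t := by
    intro z hz hzw
    have : 3 ≤ G.d t (G.N F) := d_three33 h.qT (G.sym _ _ hq) (h.qT' c)
      (G.sym _ _ (h.nbq' h.tTT hq)) (h.TTT hz) hzw h.tw.ne33 (h.TTne hz).1.symm
      (h.TTne hz).2.symm
    omega
  have hdq : 2 ≤ G.d q (G.N F) :=
    d_two33 (h.qT' c) h.tw.1 htT hq (h.TTne h.tTT).2.symm
  have hx1t : x1 ≠ t := fun e => c.ndisj h.x1F (e ▸ htT)
  obtain ⟨g1, g2⟩ := h.wf (Or.inr (Or.inl rfl)) hx1t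
  -- if `x1`, `x2` are twins then `x1` has at most one neighbour in `TT` besides `t`
  have hcap : G.Tw x1 x2 → ∀ u ∈ TT, ∀ u' ∈ TT, u ≠ t → u' ≠ t → u ∈ G.nb x1 → u' ∈ G.nb x1 →
      u = u' := by
    intro e u hu u' hu' n1 n2 m1 m2
    by_contra hne
    have k1 : 3 ≤ G.d x1 F := d_three33 h.x2F e.1 h.fF g1 h.fF' g2 h.n2f h.n2f' h.nff
    have k2 : 3 ≤ G.d x1 TT := d_three33 h.tTT hx1 hu m1 hu' m2 n1.symm n2.symm hne
    have k3 := c.dF h.x1F
    have k4 := h.dx1T c
    have k5 := e.2.1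
    omega
  rw [h.sumT c, ← add_sum_erase TT _ h.tTT, val_low33 htl]
  have hrest : 2 ≤ ∑ u ∈ TT.erase t, G.val33 F u := by
    apply rest33 c
    · exact fun u hu => h.TTT (mem_of_mem_erase hu)
    · rw [card_erase_of_mem h.tTT, h.TT4 c]
    · intro u hu u' huu
      rw [mem_erase] at hu ⊢
      refine ⟨?_, h.twTT c hu.2 huu⟩
      rintro rfl
      exact not_low33 ⟨_, huu.sym33⟩ htl
    · intro u hu u' huu
      rw [mem_erase] at hu
      have hu' := h.twTT c hu.2 huu
      have hu't : u' ≠ t := by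
        rintro rfl
        exact not_low33 ⟨_, huu.sym33⟩ htl
      rcases h.covf c hu.2 hu.1 with g | g | g | g | g | g
      · obtain ⟨y, m1, m2, m3, m4⟩ := g
        exact Or.inl ⟨y, mem_erase.2 ⟨m2, m1⟩, m3, m4⟩
      · exfalso
        obtain ⟨m1, m2, m3⟩ := g
        have m4 : x1 ∈ G.nb u' := huu.nb33 m2 (fun e => c.ndisj h.x1F (e ▸ h.TTT hu'))
        exact huu.ne33 (hcap m1 u hu.2 u' hu' hu.1 hu't (G.sym _ _ m2) (G.sym _ _ m4))
      · exfalso
        obtain ⟨v, m1, v', m2, m3, m4, m5, m6, m7⟩ := g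
        have e := pairs5 c.th c.n9 huu m5 (G.sym _ _ m6) (G.sym _ _ m7)
        have h8 := four_le5 (S := TT.erase t) (mem_erase.2 hu) (mem_erase.2 ⟨hu't, hu'⟩)
          (mem_erase.2 ⟨m3, m1⟩) (mem_erase.2 ⟨m4, m2⟩) e.1 e.2.1 e.2.2.1 e.2.2.2.1
          e.2.2.2.2.1 e.2.2.2.2.2
        rw [card_erase_of_mem h.tTT, h.TT4 c] at h8
        omega
      · exact absurd (G.sym _ _ g.1) (htTT u hu.2)
      · exact absurd g (not_low33 ⟨_, huu⟩)
      · exact absurd ⟨_, huu⟩ g.1
    · intro hnl hnt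
      have hall : ∀ u ∈ TT, u ≠ t → G.Tw x1 x2 ∧ u ∈ G.nb x1 := by
        intro u hu hut
        have hu1 : u ∈ TT.erase t := mem_erase.2 ⟨hut, hu⟩
        rcases h.covf c hu hut with g | g | g | g | g | g
        · obtain ⟨y, m1, m2, m3, -⟩ := g
          exact absurd m3 (hnl y (mem_erase.2 ⟨m2, m1⟩))
        · exact ⟨g.1, G.sym _ _ g.2.1⟩
        · obtain ⟨v, m1, v', -, m3, -, m5, -⟩ := g
          exact absurd ⟨_, m5⟩ (hnt v (mem_erase.2 ⟨m3, m1⟩))
        · exact absurd (G.sym _ _ g.1) (htTT u hu)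
        · exact absurd g (hnl u hu1)
        · obtain ⟨-, a, m1, m2, m3⟩ := g
          exact absurd m3 (hnl a (mem_erase.2 ⟨m2, m1⟩))
      have hc3 : (TT.erase t).card = 3 := by rw [card_erase_of_mem h.tTT, h.TT4 c]
      obtain ⟨u1, u2, u3, e12, -, -, hS⟩ := card_eq_three.1 hc3
      have m1 : u1 ∈ TT.erase t := by rw [hS]; simp
      have m2 : u2 ∈ TT.erase t := by rw [hS]; simp
      rw [mem_erase] at m1 m2
      have k1 := hall u1 m1.2 m1.1
      have k2 := hall u2 m2.2 m2.1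
      exact e12 (hcap k1.1 u1 m1.2 u2 m2.2 m1.1 m2.1 k1.2 k2.2)
  have e8 : (2 : ℤ) ≤ (G.d q (G.N F) : ℤ) := by exact_mod_cast hdq
  have e9 : (2 : ℤ) ≤ (G.d t (G.N F) : ℤ) := by exact_mod_cast h4
  have e10 : (3 : ℤ) ≤ (G.d t F : ℤ) := by exact_mod_cast h3
  linarith

theorem main (h : H G F q q' f f' x1 x2 TT t) (c : Lf33 G F) :
    12 ≤ ∑ w ∈ G.N F, G.val33 F w := by
  obtain ⟨w1, a1, a2, a3, a4⟩ := h.exc c
  obtain ⟨w2, b1, b2, b3, b4⟩ := h.swapx.exc c
  by_cases e1 : w1 = t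
  · by_cases e2 : w2 = t
    · rw [e1] at a3 a4
      rw [e2] at b4
      exact h.caseII c a3 a4 b4
    · exact h.swapx.caseI c b1 e2 b2 b3 b4
  · exact h.caseI c a1 e1 a2 a3 a4

end H

end B33

/-- U18c -/
theorem stLeaf4_33 (G : CG V) (hst : G.StLeaf) (hth : G.StTwHL) (hP : G.StP4)
    (hgen : G.StGenericU) (hK : G.StK4) : G.StLeaf4 := by
  intro F hF h4
  have c : Lf33 G F := ⟨hF, hst, hth⟩
  by_cases hK4 : ∀ x ∈ F, ∀ y ∈ F, G.IsTw x ∧ (x ≠ y → y ∈ G.nb x)
  · exact hK F hF h4 hK4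
  have goal : 28 ≤ 16 * (G.l F : ℤ) + ∑ w ∈ G.N F, G.val33 F w → 0 ≤ G.P4 F := by
    intro h
    rw [P4_val33 hP c.frag, h4]
    push_cast
    linarith
  by_cases hL : 2 ≤ G.l F
  · exact goal (c.two h4 hL)
  have hL1 : G.l F ≤ 1 := by omega
  by_cases hB : ∀ w ∈ G.N F, G.IsTw w → 3 ≤ G.d w F
  · by_cases hwide : ∀ l ∈ G.N F, G.Low l → ∀ q ∈ G.nb l, G.IsTw q → q ∈ G.N F →
        4 ≤ ((G.nb l ∪ G.nb q) ∩ F).card
    · rw [hst.sum F hF]
      refine hgen _ c.torso ?_ ?_
      · constructor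
        · intro l hl v hv h1 h2 h3 h4 h6
          have m1 : l ∈ F := (c.memR.1 hl).resolve_right (fun h => by
            rw [c.I1 h] at h1
            exact absurd h1 (singleton_ne_empty _))
          have m2 : v ∈ F := (c.memR.1 hv).resolve_right (fun h => by
            rw [c.I1 h] at h2
            exact absurd h2 (singleton_ne_empty _))
          exact hst.e4 F hF l m1 v m2 h3 h4 h6
        · intro w hw v hv h1 h2 h3 h4 h6 h7
          have m1 : w ∈ F := (c.memR.1 hw).resolve_right (fun h => by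
            rw [c.I1 h] at h1
            exact absurd h1 (singleton_ne_empty _))
          have m2 : v ∈ F := (c.memR.1 hv).resolve_right (fun h => by
            rw [c.I1 h] at h2
            exact absurd h2 (singleton_ne_empty _))
          rcases hst.e5 F hF w m1 v m2 h3 h4 h6 h7 with h8 | h8
          · exact h8
          · exact absurd h8.2 hK4
      · intro z hz B hB1
        have m1 : z ∈ G.N F := (c.memR.1 hz).resolve_left (fun h => by
          rw [c.I0 h] at hB1
          exact absurd hB1.symm (singleton_ne_empty _))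
        rw [c.I1 m1] at hB1
        have hB' : G.Co F = B := singleton_injective hB1
        subst hB'
        unfold Wide
        rw [c.coCo]
        refine ⟨c.exp1 m1, fun h => hB z m1 h, ?_⟩
        intro h1 v hv h2 h3
        refine hwide z m1 h1 v hv h2 ?_
        have : G.Co F ∈ G.I {G.Co F} v := by rw [h3]; exact mem_singleton_self _
        unfold I at this
        rw [mem_filter, c.coN] at this
        exact this.2
    · push Not at hwide
      obtain ⟨l, hl, hlow, q, hq, htw, hqT, hcard⟩ := hwide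
      obtain ⟨q', X, TT, s⟩ := sit33 c hl hqT hlow hq htw (by omega) (hB q hqT htw)
      exact goal (s.four c h4 hL1 (fun w hw => c.val_nonneg (s.TTT hw)
        (fun h => hB w (s.TTT hw) h)))
  · push Not at hB
    obtain ⟨q, hqT, ⟨q', hqq⟩, hd⟩ := hB
    rcases c.exp2 hqT hqq with h1 | ⟨h1, h2, -, h3⟩
    · omega
    · have hX : (G.nb q ∩ F).card = 2 := h1
      obtain ⟨x1, x2, hx12, hXe⟩ := card_eq_two.1 hX
      have hE : (F \ G.nb q).card = 2 := by
        have := card_sdiff_add_card_inter F (G.nb q)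
        rw [inter_comm, hX, h4] at this
        omega
      obtain ⟨f, f', hff, hEe⟩ := card_eq_two.1 hE
      have mX : ∀ x, x ∈ F → (x ∈ G.nb q ↔ x = x1 ∨ x = x2) := by
        intro x hx
        have : x ∈ G.nb q ∩ F ↔ x = x1 ∨ x = x2 := by rw [hXe, mem_insert, mem_singleton]
        rw [← this, mem_inter]
        exact ⟨fun h => ⟨h, hx⟩, fun h => h.1⟩
      have hx1 : x1 ∈ G.nb q ∩ F := by rw [hXe]; simp
      have hx2 : x2 ∈ G.nb q ∩ F := by rw [hXe]; simp
      have hf : f ∈ F \ G.nb q := by rw [hEe]; simp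
      have hf' : f' ∈ F \ G.nb q := by rw [hEe]; simp
      rw [mem_inter] at hx1 hx2
      rw [mem_sdiff] at hf hf'
      have b : B33 G F q q' f f' x1 x2 (G.N F \ {q, q'}) := by
        refine ⟨hqT, hqq, ?_, mX, hx12, hff, ?_, ?_, ?_, ?_, ?_, rfl⟩
        · intro x
          constructor
          · intro hx
            by_cases hxq : x ∈ G.nb q
            · rcases (mX x hx).1 hxq with e | e
              · exact Or.inl e
              · exact Or.inr (Or.inl e)
            · have : x ∈ F \ G.nb q := mem_sdiff.2 ⟨hx, hxq⟩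
              rw [hEe, mem_insert, mem_singleton] at this
              exact Or.inr (Or.inr this)
          · rintro (rfl | rfl | rfl | rfl)
            · exact hx1.2
            · exact hx2.2
            · exact hf.1
            · exact hf'.1
        · rintro rfl
          exact hf.2 hx1.1
        · rintro rfl
          exact hf'.2 hx1.1
        · rintro rfl
          exact hf.2 hx2.1
        · rintro rfl
          exact hf'.2 hx2.1
        · intro w
          rw [← hEe, h3, hXe, mem_union, mem_insert, mem_singleton]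
      have hfrag : G.Frag {f, f'} := by rw [← hEe]; exact h2
      -- the form `HL`
      have hHL : ∀ f f' t : V, B33 G F q q' f f' x1 x2 (G.N F \ {q, q'}) →
          t ∈ G.N {f, f'} → G.HL f f' t → (∀ x, x ∈ G.nb f ↔ x = f' ∨ x ∈ G.N {f, f'}) →
          (∀ x, x ∈ G.nb f' ↔ x = f ∨ (x ∈ G.N {f, f'} ∧ x ≠ t)) → 0 ≤ G.P4 F := by
        intro f f' t b e1 e2 e3 e4
        have htl := hF.sat _ _ _ e2
        have huniq : ∀ y ∈ F, G.Low y → y = f' := fun y hy hy' =>
          l_uniq33 hL1 hy hy' b.fF' e2.2.1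
        have htTT : t ∈ G.N F \ {q, q'} := by
          rcases (b.NE t).1 e1 with e | e | e
          · exact e
          · exact absurd (huniq t (e ▸ b.x1F) htl) (e ▸ b.n1f')
          · exact absurd (huniq t (e ▸ b.x2F) htl) (e ▸ b.n2f')
        have hh : B33.H G F q q' f f' x1 x2 (G.N F \ {q, q'}) t := by
          refine ⟨b, e2, htTT, fun x => ?_, fun x => ?_, huniq⟩
          · rw [e3, b.NE]
          · rw [e4, b.NE]
        apply goal
        have h5 := hh.main c
        have h6 := l_one33 b.fF' e2.2.1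
        have h7 : G.l F = 1 := by omega
        rw [h7]
        push_cast
        linarith
      rcases two33 hff hfrag with e | e | e | e
      · exact absurd (l_two33 hf.1 e.1 hf'.1 e.2 hff) hL
      · obtain ⟨e1, e2, -⟩ := e
        have t : B33.T G F q q' f f' x1 x2 (G.N F \ {q, q'}) := ⟨b, e1, e2⟩
        rcases Nat.lt_or_ge (G.l F) 1 with e3 | e3
        · exact (t.zero c (by omega)).elim
        · have e4 : G.l F = 1 := by omega
          obtain ⟨y, hy, hyl⟩ := l_ex33 (F := F) (G := G) (by omega)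
          apply goal
          rw [e4]
          rcases (b.mem y).1 hy with e | e | e | e
          · have := t.one c hL1 (e ▸ hyl)
            push_cast
            linarith
          · have t' : B33.T G F q q' f f' x2 x1 (G.N F \ {q, q'}) := ⟨b.swapx, e1, e2⟩
            have := t'.one c hL1 (e ▸ hyl)
            push_cast
            linarith
          · exact absurd (e ▸ hyl) (not_low33 ⟨_, e1⟩)
          · exact absurd (e ▸ hyl) (not_low33 ⟨_, e1.sym33⟩)
      · obtain ⟨t, e1, e2, e3, e4⟩ := e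
        exact hHL f f' t b e1 e2 e3 e4
      · obtain ⟨t, e1, e2, e3, e4⟩ := e
        refine hHL f' f t b.swapf ?_ e2 ?_ ?_
        · rw [pair_comm]; exact e1
        · intro x
          rw [pair_comm, e3]
        · intro x
          rw [pair_comm, e4]

end CG

end Pool.Agent.Lib.MP_e95c01_co.N
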