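import Pool.Agent.Lib.MP_e95c01_co.U.LeafV33

/-!
# U18d: leaves with five vertices
-/

namespace Pool.Agent.Lib.MP_e95c01_co.N

open Finset

variable {V : Type} [Fintype V] [DecidableEq V]

namespace CG

variable {G : CG V} {F : Finset V}

/-- expansion of a pair of twins in `N F` -/
theorem Lf33.exp2 (c : Lf33 G F) {w w' : V} (hw : w ∈ G.N F) (h : G.Tw w w') :
    3 ≤ G.d w F ∨ (G.d w F = 2 ∧ G.Frag (F \ G.nb w) ∧ (F \ G.nb w).card ≤ 2 ∧
      G.N (F \ G.nb w) = (G.N F \ {w, w'}) ∪ (G.nb w ∩ F)) := by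
  have hw' := c.twT hw h
  have hZ : ({w, w'} : Finset V) ⊆ G.N F := by
    intro x hx
    simp only [mem_insert, mem_singleton] at hx
    rcases hx with rfl | rfl <;> assumption
  have hN : ∀ x ∈ F, (x ∈ G.N {w, w'} ↔ x ∈ G.nb w) := by
    intro x hx
    rw [c.NZ hZ hx]
    constructor
    · rintro ⟨u, hu, h4⟩
      simp only [mem_insert, mem_singleton] at hu
      rcases hu with rfl | rfl
      · exact h4
      · exact h.sym33.nb33 h4 (fun e => c.ndisj hx (e ▸ hw))
    · exact fun h4 => ⟨w, by simp, h4⟩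
  have hN1 : G.N {w, w'} ∩ F = G.nb w ∩ F := by
    ext x
    rw [mem_inter, mem_inter]
    exact ⟨fun h4 => ⟨(hN x h4.2).1 h4.1, h4.2⟩, fun h4 => ⟨(hN x h4.2).2 h4.1, h4.2⟩⟩
  have hN2 : F \ G.N {w, w'} = F \ G.nb w := by
    ext x
    rw [mem_sdiff, mem_sdiff]
    constructor
    · exact fun h4 => ⟨h4.1, fun h5 => h4.2 ((hN x h4.1).2 h5)⟩
    · exact fun h4 => ⟨h4.1, fun h5 => h4.2 ((hN x h4.1).1 h5)⟩
  have hc : ({w, w'} : Finset V).card = 2 := card_pair h.ne33
  have h4 := c.leaf.four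
  rcases c.st.exp F c.leaf _ ⟨w, by simp⟩ hZ with h5 | h5 | ⟨h5, h6, h7, h8⟩
  · left
    have h9 : G.nb w ∩ F = F := by rw [← hN1, inter_eq_right.2 h5]
    unfold d
    rw [h9]
    omega
  · left
    rw [hN1, hc] at h5
    exact h5
  · right
    rw [hN1, hc] at h5
    rw [hN2] at h6 h7
    rw [hN2, hN1] at h8
    exact ⟨h5, h6, h7, h8⟩

theorem Lf33.five (c : Lf33 G F) (h5 : 5 ≤ F.card) {w : V} (hw : w ∈ G.N F) (h : G.IsTw w) :
    3 ≤ G.d w F := by
  obtain ⟨w', hww⟩ := h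
  rcases c.exp2 hw hww with h1 | ⟨h1, -, h2, -⟩
  · exact h1
  · exfalso
    have h3 := card_sdiff_add_card_inter F (G.nb w)
    have h4 : (F ∩ G.nb w).card = 2 := by rw [inter_comm]; exact h1
    omega

theorem Lf33.val_nonneg (c : Lf33 G F) {w : V} (hw : w ∈ G.N F)
    (h3 : G.IsTw w → 3 ≤ G.d w F) : 0 ≤ G.val33 F w := by
  by_cases h : G.Low w
  · rw [val_low33 h]
    have := c.exp1 hw
    omega
  · by_cases h' : G.IsTw w
    · rw [val_tw33 h']
      have h1 := h3 h'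
      obtain ⟨w', hww⟩ := h'
      have h2 : 1 ≤ G.d w (G.N F) := d_one33 (c.twT hw hww) hww.1
      omega
    · rw [val_hub33 h h']

/-- the situation with twins outside of `X` -/
structure Tws33 (G : CG V) (F : Finset V) (l q q' : V) (X TT : Finset V) (f f' : V) : Prop
    extends Sit33 G F l q q' X TT where
  E : F \ X = {f, f'}
  tf : G.Tw f f'
  nf : ∀ x, x ∈ G.nb f ↔ x = f' ∨ x ∈ TT ∨ x ∈ X

namespace Tws33

variable {l q q' : V} {X TT : Finset V} {f f' : V}

theorem fF (s : Tws33 G F l q q' X TT f f') : f ∈ F ∧ f ∉ X := by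
  rw [← mem_sdiff, s.E]
  simp

theorem fF' (s : Tws33 G F l q q' X TT f f') : f' ∈ F ∧ f' ∉ X := by
  rw [← mem_sdiff, s.E]
  simp

theorem memF (s : Tws33 G F l q q' X TT f f') {x : V} (hx : x ∈ F) :
    x ∈ X ∨ x = f ∨ x = f' := by
  by_cases h : x ∈ X
  · exact Or.inl h
  · right
    have : x ∈ F \ X := mem_sdiff.2 ⟨hx, h⟩
    rw [s.E, mem_insert, mem_singleton] at this
    exact this

theorem TX (s : Tws33 G F l q q' X TT f f') (c : Lf33 G F) {x : V} (h : x ∈ TT) : x ∉ X :=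
  fun h1 => c.ndisj (s.XF h1) (s.TTT h)

theorem XT (s : Tws33 G F l q q' X TT f f') (c : Lf33 G F) {x : V} (h : x ∈ X) : x ∉ TT :=
  fun h1 => c.ndisj (s.XF h) (s.TTT h1)

theorem wf (s : Tws33 G F l q q' X TT f f') {w : V} (hw : w ∈ TT ∨ w ∈ X) :
    f ∈ G.nb w ∧ f' ∈ G.nb w := by
  have h1 := (s.nf w).2 (Or.inr hw)
  refine ⟨G.sym _ _ h1, G.sym _ _ (s.tf.nb33 h1 ?_)⟩
  rintro rfl
  rcases hw with h | h
  · exact (s.TTne h).1 (absurd (s.TTT h) (fun h2 => (mem_N37.1 h2).1 s.fF'.1))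
  · exact s.fF'.2 h

theorem dE (s : Tws33 G F l q q' X TT f f') {w : V} (hw : w ∈ TT ∨ w ∈ X) :
    G.d w (F \ X) = 2 := by
  rw [s.E, ← card_pair s.tf.ne33]
  apply d_full33
  intro x hx
  rw [mem_insert, mem_singleton] at hx
  rcases hx with rfl | rfl
  · exact (s.wf hw).1
  · exact (s.wf hw).2

/-- the partner of a twin in `X` -/
theorem twX (s : Tws33 G F l q q' X TT f f') (c : Lf33 G F) {y y' : V} (hy : y ∈ X)
    (h : G.Tw y y') : y' ∈ X := by
  rcases s.memF (c.twF (s.XF hy) h) with h1 | h1 | h1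
  · exact h1
  · rw [h1] at h
    have := c.th.uniq c.n9 _ _ _ h.sym33 s.tf
    exact absurd (this ▸ hy) s.fF'.2
  · rw [h1] at h
    have := c.th.uniq c.n9 _ _ _ h.sym33 s.tf.sym33
    exact absurd (this ▸ hy) s.fF.2

theorem twTT (s : Tws33 G F l q q' X TT f f') (c : Lf33 G F) {y y' : V} (hy : y ∈ TT)
    (h : G.Tw y y') : y' ∈ TT := by
  rcases (s.memT c).1 (c.twT (s.TTT hy) h) with h1 | h1 | h1 | h1
  · exact absurd s.low (h1 ▸ not_low33 ⟨y, h.sym33⟩)
  · rw [h1] at h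
    have := c.th.uniq c.n9 _ _ _ h.sym33 s.tw
    exact absurd this (s.TTne hy).2.2
  · rw [h1] at h
    have := c.th.uniq c.n9 _ _ _ h.sym33 s.tw.sym33
    exact absurd this (s.TTne hy).2.1
  · exact h1

/-- covers of the edges at `f` -/
theorem CT (s : Tws33 G F l q q' X TT f f') (c : Lf33 G F) {w : V} (hw : w ∈ TT ∨ w ∈ X) :
    (∃ y, (y ∈ TT ∨ y ∈ X) ∧ G.Low y ∧ y ∈ G.nb w) ∨
    (∃ v v', G.Tw v v' ∧ v ∈ G.nb w ∧ v' ∈ G.nb w ∧
      ((v ∈ TT ∧ v' ∈ TT) ∨ (v ∈ X ∧ v' ∈ X))) ∨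
    (G.Low w ∧ ∃ a b, (a ∈ TT ∨ a ∈ X) ∧ (b ∈ TT ∨ b ∈ X) ∧ G.Low b ∧ b ≠ w ∧
      a ∈ G.nb w) := by
  have hw' : w ∈ F ∨ w ∈ G.N F := by
    rcases hw with h | h
    · exact Or.inr (s.TTT h)
    · exact Or.inl (s.XF h)
  have hnl : ¬ G.Low f' := not_low33 ⟨_, s.tf.sym33⟩
  rcases c.covT (Or.inl s.fF.1) hw' (Or.inl s.fF.1) ((s.nf w).2 (Or.inr hw)) ⟨_, s.tf⟩ with
    h | h | h
  · obtain ⟨y, -, h1, h2, h3⟩ := h
    left
    refine ⟨y, ((s.nf y).1 h2).resolve_left ?_, h1, h3⟩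
    rintro rfl
    exact hnl h1
  · obtain ⟨v, v', -, -, h1, h2, h3, h4, h5⟩ := h
    right; left
    have g : ∀ u u' : V, G.Tw u u' → u ∈ G.nb f → u' ∈ G.nb f → u ∈ TT ∨ u ∈ X := by
      intro u u' g1 g2 g3
      refine ((s.nf u).1 g2).resolve_left ?_
      rintro rfl
      have := c.th.uniq c.n9 _ _ _ g1 s.tf.sym33
      rw [this] at g3
      exact G.irr _ g3
    refine ⟨v, v', h1, h4, h5, ?_⟩
    rcases g v v' h1 h2 h3 with h6 | h6
    · exact Or.inl ⟨h6, s.twTT c h6 h1⟩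
    · exact Or.inr ⟨h6, s.twX c h6 h1⟩
  · obtain ⟨a, b, -, -, h1, h2, h3, h4, h5⟩ := h
    right; right
    refine ⟨h2, a, b, ((s.nf a).1 h4).resolve_left ?_, ((s.nf b).1 h5).resolve_left ?_, h1.2.1,
      HL_ne33 h1, h3⟩
    · rintro rfl
      exact c.th.notHL c.n9 _ _ _ h1 ⟨_, s.tf.sym33⟩
    · rintro rfl
      exact hnl h1.2.1

theorem dTTF (s : Tws33 G F l q q' X TT f f') {t : V} (ht : t ∈ TT) :
    G.d t F = G.d t X + 2 := by
  rw [s.dFsplit t, s.dE (Or.inl ht)]

/-- low vertices in `TT` -/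
theorem val6 (s : Tws33 G F l q q' X TT f f') (c : Lf33 G F) {t : V} (ht : t ∈ TT)
    (hl : G.Low t) : 6 ≤ G.val33 F t := by
  rw [val_low33 hl, s.dTTF ht]
  have key : 1 ≤ G.d t X ∨ 1 ≤ G.d t (G.N F) := by
    have g : ∀ y, (y ∈ TT ∨ y ∈ X) → y ∈ G.nb t → 1 ≤ G.d t X ∨ 1 ≤ G.d t (G.N F) := by
      intro y hy h1
      rcases hy with h | h
      · exact Or.inr (d_one33 (s.TTT h) h1)
      · exact Or.inl (d_one33 h h1)
    rcases s.CT c (Or.inl ht) with h | h | h
    · obtain ⟨y, h1, -, h2⟩ := h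
      exact g y h1 h2
    · obtain ⟨v, v', -, h2, -, h3⟩ := h
      exact g v (h3.imp (fun h => h.1) (fun h => h.1)) h2
    · obtain ⟨-, a, b, h1, -, -, -, h2⟩ := h
      exact g a h1 h2
  omega

/-- degree of a vertex of `X` -/
theorem degX (s : Tws33 G F l q q' X TT f f') (c : Lf33 G F) {x : V} (hx : x ∈ X) :
    G.d x X + 2 + G.d x {l, q, q'} + G.d x TT = (G.nb x).card := by
  have h1 := s.deg c (s.XF hx)
  rw [s.dE (Or.inr hx)] at h1
  exact h1

/-- the cover of `q y` -/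
theorem covq (s : Tws33 G F l q q' X TT f f') (c : Lf33 G F) {y : V}
    (hy : y ∈ X) (hyl : y ∉ G.nb l) (hlow : ∀ x ∈ X, G.Low x → x = y) :
    ∃ v v', G.Tw v v' ∧ v ∈ X ∧ v' ∈ X ∧ v ∈ G.nb y ∧ v' ∈ G.nb y := by
  have hyF := s.XF hy
  have hql : ¬ G.Low q' := not_low33 ⟨_, s.tw.sym33⟩
  rcases c.covT (Or.inr s.qT) (Or.inl hyF) (Or.inr hyF) ((s.qX y hyF).2 hy) ⟨_, s.tw⟩ with
    h | h | h
  · obtain ⟨w, h1, h2, h3, h4⟩ := h
    exfalso
    rcases s.nbq c h3 h1 with h5 | h5 | h5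
    · exact hyl (G.sym _ _ (h5 ▸ h4))
    · exact hql (h5 ▸ h2)
    · exact G.irr _ (hlow w h5 h2 ▸ h4)
  · obtain ⟨v, v', h1, h1', h2, h3, h4, h5, h6⟩ := h
    have g : ∀ u u', (u ∈ F ∨ u ∈ G.N F) → G.Tw u u' → u ∈ G.nb q → u' ∈ G.nb q → u ∈ X := by
      intro u u' g1 g2 g3 g4
      rcases s.nbq c g3 g1 with h7 | h7 | h7
      · exact absurd s.low (h7 ▸ not_low33 ⟨_, g2⟩)
      · rw [h7] at g2
        have := c.th.uniq c.n9 _ _ _ g2 s.tw.sym33
        rw [this] at g4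
        exact absurd g4 (G.irr _)
      · exact h7
    exact ⟨v, v', h2, g v v' h1 h2 h3 h4, g v' v h1' h2.sym33 h4 h3, h5, h6⟩
  · obtain ⟨a, b, h1, h2, h3, h4, h5, h6, h7⟩ := h
    exfalso
    rcases s.nbq c h7 h2 with h8 | h8 | h8
    · rcases s.nbq c h6 h1 with h9 | h9 | h9
      · rw [h8, h9] at h3
        exact G.irr _ h3.2.2.1
      · exact c.th.notHL c.n9 _ _ _ h3 ⟨_, h9 ▸ s.tw.sym33⟩
      · have h10 := (c.hlF h1 h2 (Or.inl hyF) h3).1 (s.XF h9)
        rw [h8] at h10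
        exact c.ndisj h10 s.lT
    · exact hql (h8 ▸ h3.2.1)
    · exact HL_ne33 h3 (hlow b h8 h3.2.1)

/-- a low or twin vertex of `X` has at most one neighbour in `TT` -/
theorem cap (s : Tws33 G F l q q' X TT f f') (c : Lf33 G F) (hL : G.l F ≤ 1) {y : V}
    (hy : y ∈ X) (h : G.Low y ∨ G.IsTw y) : G.d y TT ≤ 1 := by
  have h1 := s.degX c hy
  by_cases h2 : y ∈ G.nb l
  · have h3 := s.dxZ3 c hy h2
    rcases h with h | ⟨y', h⟩
    · unfold Low at h
      omega
    · have h4 : 1 ≤ G.d y X := d_one33 (s.twX c hy h) h.1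
      have h5 := h.2.1
      omega
  · have h3 := s.dxZ c hy
    rcases h with h | ⟨y', h⟩
    · obtain ⟨v, v', g1, g2, g3, g4, g5⟩ := s.covq c hy h2
        (fun x hx hx' => l_uniq33 hL (s.XF hx) hx' (s.XF hy) h)
      have h4 : 2 ≤ G.d y X := d_two33 g2 g4 g3 g5 g1.ne33
      unfold Low at h
      omega
    · exfalso
      have h4 := s.twX c hy h
      rcases s.cases c with ⟨h5, -⟩ | ⟨x3, -, h5, h6, -⟩
      · exact h2 (h5 y hy)
      · have h7 : y = x3 := by
          by_contra h8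
          exact h2 (h6 y hy h8)
        have h8 := h6 y' h4 (fun e => h.ne33 (h7.trans e.symm))
        refine h2 (G.sym _ _ (h.sym33.nb33 (G.sym _ _ h8) ?_))
        rintro rfl
        exact c.ndisj (s.XF hy) s.lT

/-- two twins in `TT` and in `X` cannot cover each other -/
theorem noTT (s : Tws33 G F l q q' X TT f f') (c : Lf33 G F) (hL : G.l F ≤ 1) {v v' : V}
    (hv : v ∈ TT) (h : G.Tw v v') : ∃ t ∈ TT, G.Low t ∧ t ∈ G.nb v := by
  have hv' := s.twTT c hv h
  rcases s.CT c (Or.inl hv) with g | g | g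
  · obtain ⟨y, h1, h2, h3⟩ := g
    rcases h1 with h1 | h1
    · exact ⟨y, h1, h2, h3⟩
    · exfalso
      have h4 := s.cap c hL h1 (Or.inl h2)
      have h5 : y ≠ v' := fun e => s.XT c h1 (e ▸ hv')
      have h6 : 2 ≤ G.d y TT :=
        d_two33 hv (G.sym _ _ h3) hv' (G.sym _ _ (h.nb33 h3 h5)) h.ne33
      omega
  · exfalso
    obtain ⟨u, u', h1, h2, h3, h4 | h4⟩ := g
    · have e := pairs5 c.th c.n9 h h1 (G.sym _ _ h2) (G.sym _ _ h3)
      have h5 := four_le5 hv hv' h4.1 h4.2 e.1 e.2.1 e.2.2.1 e.2.2.2.1 e.2.2.2.2.1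
        e.2.2.2.2.2
      have h6 := s.TT3 c
      omega
    · have h6 := s.cap c hL h4.1 (Or.inr ⟨_, h1⟩)
      have h5 : u ≠ v' := fun e => s.XT c h4.1 (e ▸ hv')
      have h7 : 2 ≤ G.d u TT :=
        d_two33 hv (G.sym _ _ h2) hv' (G.sym _ _ (h.nb33 h2 h5)) h.ne33
      omega
  · exact absurd g.1 (not_low33 ⟨_, h⟩)

/-- one low vertex in `F`: there is a low vertex in `TT` -/
theorem exlow (s : Tws33 G F l q q' X TT f f') (c : Lf33 G F) (hL : G.l F = 1) :
    ∃ t ∈ TT, G.Low t := by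
  by_contra hno
  push Not at hno
  have hL1 : G.l F ≤ 1 := hL.le
  have K : ∀ t ∈ TT, ∃ y ∈ X, (G.Low y ∨ G.IsTw y) ∧ t ∈ G.nb y := by
    intro t ht
    rcases s.CT c (Or.inl ht) with g | g | g
    · obtain ⟨y, h1, h2, h3⟩ := g
      rcases h1 with h1 | h1
      · exact absurd h2 (hno y h1)
      · exact ⟨y, h1, Or.inl h2, G.sym _ _ h3⟩
    · obtain ⟨u, u', h1, h2, h3, h4 | h4⟩ := g
      · obtain ⟨t', h5, h6, -⟩ := s.noTT c hL1 h4.1 h1
        exact absurd h6 (hno t' h5)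
      · exact ⟨u, h4.1, Or.inr ⟨_, h1⟩, G.sym _ _ h2⟩
    · exact absurd g.1 (hno t ht)
  obtain ⟨t1, t2, t3, e12, e13, e23, hTT⟩ := card_eq_three.1 (s.TT3 c)
  have m1 : t1 ∈ TT := by rw [hTT]; simp
  have m2 : t2 ∈ TT := by rw [hTT]; simp
  have m3 : t3 ∈ TT := by rw [hTT]; simp
  obtain ⟨y1, a1, b1, c1⟩ := K t1 m1
  obtain ⟨y2, a2, b2, c2⟩ := K t2 m2
  obtain ⟨y3, a3, b3, c3⟩ := K t3 m3
  have two : ∀ y ∈ X, (G.Low y ∨ G.IsTw y) → ∀ t ∈ TT, ∀ t' ∈ TT, t ∈ G.nb y → t' ∈ G.nb y →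
      t = t' := by
    intro y hy h t ht t' ht' h1 h2
    by_contra hne
    have h3 := s.cap c hL1 hy h
    have h4 : 2 ≤ G.d y TT := d_two33 ht h1 ht' h2 hne
    omega
  have d12 : y1 ≠ y2 := fun e => e12 (two y1 a1 b1 t1 m1 t2 m2 c1 (e ▸ c2))
  have d13 : y1 ≠ y3 := fun e => e13 (two y1 a1 b1 t1 m1 t3 m3 c1 (e ▸ c3))
  have d23 : y2 ≠ y3 := fun e => e23 (two y2 a2 b2 t2 m2 t3 m3 c2 (e ▸ c3))
  have hX : X = {y1, y2, y3} := by
    symm
    apply eq_of_subset_of_card_le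
    · intro x hx
      simp only [mem_insert, mem_singleton] at hx
      rcases hx with rfl | rfl | rfl <;> assumption
    · rw [s.X3, card_eq_three.2 ⟨y1, y2, y3, d12, d13, d23, rfl⟩]
  have key : ∀ y ∈ X, ∀ t ∈ TT, t ∈ G.nb y → G.IsTw y →
      (∀ y' ∈ X, y' ≠ y → ∃ t' ∈ TT, t' ≠ t ∧ t' ∈ G.nb y') → False := by
    rintro y hy t ht h1 ⟨p, h2⟩ h3
    have h4 := s.twX c hy h2
    obtain ⟨t', h5, h6, h7⟩ := h3 p h4 h2.ne33.symm
    have h8 : t ∈ G.nb p := h2.nb33 h1 (fun e => s.TX c ht (e ▸ h4))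
    exact h6 (two p h4 (Or.inr ⟨_, h2.sym33⟩) t' h5 t ht h7 h8)
  by_cases hl1 : G.Low y1
  · have hl2 : ¬ G.Low y2 := fun h => d12 (l_uniq33 hL1 (s.XF a1) hl1 (s.XF a2) h)
    refine key y2 a2 t2 m2 c2 (b2.resolve_left hl2) ?_
    intro y' hy' hne
    rw [hX] at hy'
    simp only [mem_insert, mem_singleton] at hy'
    rcases hy' with rfl | rfl | rfl
    · exact ⟨t1, m1, e12, c1⟩
    · exact absurd rfl hne
    · exact ⟨t3, m3, e23.symm, c3⟩
  · refine key y1 a1 t1 m1 c1 (b1.resolve_left hl1) ?_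
    intro y' hy' hne
    rw [hX] at hy'
    simp only [mem_insert, mem_singleton] at hy'
    rcases hy' with rfl | rfl | rfl
    · exact absurd rfl hne
    · exact ⟨t2, m2, e12.symm, c2⟩
    · exact ⟨t3, m3, e13.symm, c3⟩

/-- no low vertex in `F`: all of `X` is adjacent to `l` -/
theorem zeroA (s : Tws33 G F l q q' X TT f f') (c : Lf33 G F) (hL : G.l F = 0) :
    ∀ x ∈ X, x ∈ G.nb l := by
  rcases s.cases c with ⟨h, -⟩ | ⟨x3, h1, h2, h3, -⟩
  · exact h
  · exfalso
    have hnl : ∀ x ∈ X, ¬ G.Low x := fun x hx => l_zero33 hL (s.XF hx)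
    obtain ⟨v, v', g1, g2, g3, g4, g5⟩ := s.covq c h1 h2
      (fun x hx h => absurd h (hnl x hx))
    have hv3 : v ≠ x3 := (ne_of_nb5 g4).symm
    have hv3' : v' ≠ x3 := (ne_of_nb5 g5).symm
    have hvl := h3 v g2 hv3
    have h4 := s.degX c g2
    have h5 := s.dxZ3 c g2 hvl
    have h6 : 2 ≤ G.d v X := d_two33 g3 g1.1 h1 (G.sym _ _ g4) hv3'
    have h7 : G.d v TT = 0 := by
      have := g1.2.1
      omega
    rcases s.CT c (Or.inr g2) with g | g | g
    · obtain ⟨y, e1, e2, e3⟩ := g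
      rcases e1 with e1 | e1
      · exact of_zero33 h7 e1 e3
      · exact hnl y e1 e2
    · obtain ⟨u, u', e1, e2, e3, e4 | e4⟩ := g
      · exact of_zero33 h7 e4.1 e2
      · have e := pairs5 c.th c.n9 g1 e1 (G.sym _ _ e2) (G.sym _ _ e3)
        have h8 := four_le5 g2 g3 e4.1 e4.2 e.1 e.2.1 e.2.2.1 e.2.2.2.1 e.2.2.2.2.1
          e.2.2.2.2.2
        have h9 := s.X3
        omega
    · exact hnl v g2 g.1

/-- no low vertex in `F`: every vertex of `X` has a low neighbour in `TT` -/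
theorem zeroX (s : Tws33 G F l q q' X TT f f') (c : Lf33 G F) (hL : G.l F = 0) {x : V}
    (hx : x ∈ X) : ∃ t ∈ TT, G.Low t ∧ t ∈ G.nb x := by
  have hA := s.zeroA c hL
  have hL1 : G.l F ≤ 1 := by omega
  have hnl : ∀ x ∈ X, ¬ G.Low x := fun x hx => l_zero33 hL (s.XF hx)
  rcases s.CT c (Or.inr hx) with g | g | g
  · obtain ⟨y, e1, e2, e3⟩ := g
    rcases e1 with e1 | e1
    · exact ⟨y, e1, e2, e3⟩
    · exact absurd e2 (hnl y e1)
  · exfalso
    obtain ⟨v, v', e1, e2, e3, e4 | e4⟩ := g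
    · -- the pair is in `TT`
      obtain ⟨t, f1, f2, f3⟩ := s.noTT c hL1 e4.1 e1
      have hvx : x ∈ G.nb v := G.sym _ _ e2
      have hvx' : x ∈ G.nb v' := G.sym _ _ e3
      have n1 : t ≠ v := (ne_of_nb5 f3).symm
      have n2 : t ≠ v' := by
        rintro rfl
        exact not_low33 ⟨_, e1.sym33⟩ f2
      -- `v` is full
      have h1 := c.vis (s.TTT e4.1) (Or.inr ⟨_, e1⟩)
      rw [s.dTTF e4.1] at h1
      have h2 : 2 ≤ G.d v (G.N F) := d_two33 (s.TTT e4.2) e1.1 (s.TTT f1) f3 n2.symm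
      have h3 : 1 ≤ G.d v X := d_one33 hx hvx
      have onlyx : ∀ z ∈ X, z ∈ G.nb v → z = x := by
        intro z hz hzv
        by_contra hne
        have : 2 ≤ G.d v X := d_two33 hz hzv hx hvx hne
        omega
      have tw1 : ∀ z ∈ X, ¬ G.Tw x z := by
        intro z hz h
        have h4 : z ∈ G.nb v := h.adj33 hvx (fun e => s.TX c e4.1 (e ▸ hz))
        exact h.ne33 (onlyx z hz h4).symm
      -- the other vertices of `X` are adjacent to `t`
      have adj : ∀ z ∈ X, z ≠ x → z ∈ G.nb t := by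
        intro z hz hne
        rcases s.CT c (Or.inr hz) with g | g | g
        · obtain ⟨y, k1, k2, k3⟩ := g
          rcases k1 with k1 | k1
          · have : y = t := by
              by_contra hyt
              have y1 : y ≠ v := by
                rintro rfl
                exact not_low33 ⟨_, e1⟩ k2
              have y2 : y ≠ v' := by
                rintro rfl
                exact not_low33 ⟨_, e1.sym33⟩ k2
              have h5 := four_le5 k1 f1 e4.1 e4.2 hyt y1 y2 n1 n2 e1.ne33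
              have h6 := s.TT3 c
              omega
            exact G.sym _ _ (this ▸ k3)
          · exact absurd k2 (hnl y k1)
        · exfalso
          obtain ⟨u, u', k1, k2, k3, k4 | k4⟩ := g
          · -- a pair of `TT`: it is `v v'`
            have hu : u = v ∨ u = v' := by
              by_contra hcon
              push Not at hcon
              have y1 : u ≠ t := by
                rintro rfl
                exact not_low33 ⟨_, k1⟩ f2
              have h5 := four_le5 k4.1 f1 e4.1 e4.2 y1 hcon.1 hcon.2 n1 n2 e1.ne33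
              have h6 := s.TT3 c
              omega
            rcases hu with rfl | rfl
            · exact hne (onlyx z hz (G.sym _ _ k2))
            · refine hne (onlyx z hz (e1.sym33.nb33 (G.sym _ _ k2) ?_))
              rintro rfl
              exact s.XT c hz e4.1
          · -- a pair of `X`: it contains `x`
            have hu : u = x ∨ u' = x := by
              by_contra hcon
              push Not at hcon
              have h5 := four_le5 k4.1 k4.2 hz hx k1.ne33 (ne_of_nb5 k2).symm hcon.1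
                (ne_of_nb5 k3).symm hcon.2 hne
              have h6 := s.X3
              omega
            rcases hu with rfl | rfl
            · exact tw1 _ k4.2 k1
            · exact tw1 _ k4.1 k1.sym33
        · exact absurd g.1 (hnl z hz)
      have h4 := c.vis (s.TTT f1) (Or.inl f2)
      rw [s.dTTF f1] at h4
      have h5 : 2 ≤ G.d t (G.N F) := by
        refine d_two33 (s.TTT e4.1) (G.sym _ _ f3) (s.TTT e4.2) ?_ e1.ne33
        exact G.sym _ _ (e1.nb33 f3 n2)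
      have h6 : 2 ≤ G.d t X := by
        have h7 : (X.erase x).card = 2 := by rw [card_erase_of_mem hx, s.X3]
        rw [← h7]
        unfold d
        apply card_le_card
        intro z hz
        rw [mem_erase] at hz
        exact mem_inter.2 ⟨adj z hz.2 hz.1, hz.2⟩
      omega
    · -- the pair is in `X`
      have h4 := s.degX c e4.1
      have h5 := s.dxZ3 c e4.1 (hA v e4.1)
      have h6 : 2 ≤ G.d v X := d_two33 e4.2 e1.1 hx (G.sym _ _ e2) (ne_of_nb5 e3).symm
      have h7 : G.d v TT = 0 := by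
        have := e1.2.1
        omega
      rcases s.CT c (Or.inr e4.1) with g | g | g
      · obtain ⟨y, k1, k2, k3⟩ := g
        rcases k1 with k1 | k1
        · exact of_zero33 h7 k1 k3
        · exact hnl y k1 k2
      · obtain ⟨u, u', k1, k2, k3, k4 | k4⟩ := g
        · exact of_zero33 h7 k4.1 k2
        · have e := pairs5 c.th c.n9 e1 k1 (G.sym _ _ k2) (G.sym _ _ k3)
          have h8 := four_le5 e4.1 e4.2 k4.1 k4.2 e.1 e.2.1 e.2.2.1 e.2.2.2.1 e.2.2.2.2.1
            e.2.2.2.2.2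
          have h9 := s.X3
          omega
      · exact hnl v e4.1 g.1
  · exact absurd g.1 (hnl x hx)

/-- no low vertex in `F`: two low vertices in `TT` -/
theorem zeroTwo (s : Tws33 G F l q q' X TT f f') (c : Lf33 G F) (hL : G.l F = 0) :
    2 ≤ (TT.filter fun t => G.Low t).card := by
  have hA := s.zeroA c hL
  have hL1 : G.l F ≤ 1 := by omega
  have hnl : ∀ x ∈ X, ¬ G.Low x := fun x hx => l_zero33 hL (s.XF hx)
  by_contra hcon
  obtain ⟨x0, hx0⟩ : X.Nonempty := by rw [← Finset.card_pos, s.X3]; norm_num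
  obtain ⟨t, ht, htl, -⟩ := s.zeroX c hL hx0
  have only : ∀ u ∈ TT, G.Low u → u = t := by
    intro u hu hul
    by_contra hne
    exact hcon (two_le5 (mem_filter.2 ⟨hu, hul⟩) (mem_filter.2 ⟨ht, htl⟩) hne)
  have hadj : ∀ x ∈ X, x ∈ G.nb t := by
    intro x hx
    obtain ⟨u, h1, h2, h3⟩ := s.zeroX c hL hx
    rw [only u h1 h2] at h3
    exact G.sym _ _ h3
  have h1 : G.d t X = 3 := by rw [d_full33 hadj, s.X3]
  have h2 := c.vis (s.TTT ht) (Or.inl htl)
  rw [s.dTTF ht] at h2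
  have h3 : G.d t (G.N F) = 0 := by omega
  -- another vertex of `TT`
  obtain ⟨t2, ht2, hne⟩ : ∃ t2 ∈ TT, t2 ≠ t := by
    by_contra h
    push Not at h
    have : TT ⊆ {t} := fun z hz => mem_singleton.2 (h z hz)
    have h4 := card_le_card this
    rw [s.TT3 c, card_singleton] at h4
    omega
  have ht2l : ¬ G.Low t2 := fun h => hne (only t2 ht2 h)
  rcases s.CT c (Or.inl ht2) with g | g | g
  · obtain ⟨y, k1, k2, k3⟩ := g
    rcases k1 with k1 | k1
    · rw [only y k1 k2] at k3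
      exact of_zero33 h3 (s.TTT ht2) (G.sym _ _ k3)
    · exact hnl y k1 k2
  · obtain ⟨u, u', k1, k2, k3, k4 | k4⟩ := g
    · obtain ⟨t', g1, g2, g3⟩ := s.noTT c hL1 k4.1 k1
      rw [only t' g1 g2] at g3
      exact of_zero33 h3 (s.TTT k4.1) (G.sym _ _ g3)
    · have h4 := s.cap c hL1 k4.1 (Or.inr ⟨_, k1⟩)
      have h5 : 2 ≤ G.d u TT :=
        d_two33 ht2 (G.sym _ _ k2) ht (G.sym _ _ (hadj u k4.1)) hne
      omega
  · exact ht2l g.1

/-- the sum over the low vertices of `TT` -/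
theorem zeroSum (s : Tws33 G F l q q' X TT f f') (c : Lf33 G F) (hL : G.l F = 0)
    (hpos : ∀ w ∈ TT, 0 ≤ G.val33 F w) : 20 ≤ ∑ w ∈ TT, G.val33 F w := by
  set M := TT.filter (fun t => G.Low t) with hM
  have h1 : ∑ w ∈ M, G.val33 F w ≤ ∑ w ∈ TT, G.val33 F w :=
    sum_le_sum_of_subset_of_nonneg (filter_subset _ _) (fun w hw _ => hpos w hw)
  have h2 : ∑ w ∈ M, (4 + 4 * (G.d w X : ℤ)) ≤ ∑ w ∈ M, G.val33 F w := by
    refine sum_le_sum fun w hw => ?_
    rw [hM, mem_filter] at hw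
    rw [val_low33 hw.2, s.dTTF hw.1]
    push_cast
    omega
  have h3 : (∑ w ∈ M, G.d w X) = ∑ x ∈ X, G.d x M := by
    have e1 : ∀ w ∈ M, G.d w X = ∑ x ∈ X, if x ∈ G.nb w then 1 else 0 := by
      intro w _
      rw [← card_filter]
      unfold d
      congr 1
      ext x
      rw [mem_inter, mem_filter, and_comm]
    have e2 : ∀ x ∈ X, G.d x M = ∑ w ∈ M, if x ∈ G.nb w then 1 else 0 := by
      intro x _
      rw [← card_filter]
      unfold d
      congr 1
      ext w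
      exact ⟨fun h => mem_filter.2 ⟨(mem_inter.1 h).2, G.sym _ _ (mem_inter.1 h).1⟩,
        fun h => mem_inter.2 ⟨G.sym _ _ (mem_filter.1 h).2, (mem_filter.1 h).1⟩⟩
    rw [sum_congr rfl e1, sum_congr rfl e2, sum_comm]
  have h4 : 3 ≤ ∑ x ∈ X, G.d x M := by
    have : ∑ x ∈ X, 1 ≤ ∑ x ∈ X, G.d x M := by
      refine sum_le_sum fun x hx => ?_
      obtain ⟨t, k1, k2, k3⟩ := s.zeroX c hL hx
      exact d_one33 (mem_filter.2 ⟨k1, k2⟩) k3
    rw [sum_const, smul_eq_mul, mul_one, s.X3] at this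
    exact this
  have h5 := s.zeroTwo c hL
  rw [sum_add_distrib, sum_const, ← mul_sum, nsmul_eq_mul] at h2
  have h6 : (∑ w ∈ M, (G.d w X : ℤ)) = ((∑ x ∈ X, G.d x M : ℕ) : ℤ) := by
    rw [← h3]
    push_cast
    rfl
  rw [h6] at h2
  have h7 : (3 : ℤ) ≤ ((∑ x ∈ X, G.d x M : ℕ) : ℤ) := by exact_mod_cast h4
  have h8 : (2 : ℤ) ≤ (M.card : ℤ) := by exact_mod_cast h5
  linarith

end Tws33

/-- the situation with `HL f f' t` outside of `X` -/
theorem hlval33 (c : Lf33 G F) {l q q' : V} {X TT : Finset V} (s : Sit33 G F l q q' X TT)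
    {f f' t : V} (hE : F \ X = {f, f'}) (h : G.HL f f' t) (ht : t ∈ TT ∨ t ∈ X)
    (hL : G.l F ≤ 1) : t ∈ TT ∧ 6 ≤ G.val33 F t := by
  have hfF : f ∈ F ∧ f ∉ X := by
    rw [← mem_sdiff, hE]
    simp
  have hfF' : f' ∈ F ∧ f' ∉ X := by
    rw [← mem_sdiff, hE]
    simp
  have htl := c.leaf.sat _ _ _ h
  have huniq : ∀ y ∈ F, G.Low y → y = f' := fun y hy hy' => l_uniq33 hL hy hy' hfF'.1 h.2.1
  have htT : t ∈ TT := by
    rcases ht with h1 | h1
    · exact h1
    · exact absurd (huniq t (s.XF h1) htl ▸ h1) hfF'.2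
  refine ⟨htT, ?_⟩
  rw [val_low33 htl]
  have h1 := c.exp1 (s.TTT htT)
  have key : 3 ≤ G.d t F ∨ 1 ≤ G.d t (G.N F) := by
    rcases c.cov (Or.inl hfF.1) (Or.inr (s.TTT htT)) (Or.inl hfF.1) (HL_t33 h) with
      g | g | g | g | g
    · obtain ⟨w, k1, k2, k3, k4⟩ := g
      rcases k1 with k1 | k1
      · exfalso
        rw [huniq w k1 k2] at k4
        exact HL_bt33 h (G.sym _ _ k4)
      · exact Or.inr (d_one33 k1 k4)
    · obtain ⟨v, v', k1, k1', k2, k3, k4, k5, k6⟩ := g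
      rcases k1 with k1 | k1
      · left
        exact d_three33 k1 k5 (c.twF k1 k2) k6 hfF.1 (G.sym _ _ (HL_t33 h)) k2.ne33
          (ne_of_nb5 k3).symm (ne_of_nb5 k4).symm
      · exact Or.inr (d_one33 k1 k5)
    · obtain ⟨a, b, -, -, -, k1, -⟩ := g
      exfalso
      have := h.1
      unfold Low at k1
      omega
    · obtain ⟨a, b, k1, k2, k3, k4, k5, k6, k7⟩ := g
      rcases k1 with k1 | k1
      · exfalso
        have k8 := (c.hlF (Or.inl k1) k2 (Or.inr (s.TTT htT)) k3).1 k1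
        have k9 := huniq b k8 k3.2.1
        rw [k9] at k3
        have := c.th.one c.n9 _ _ _ _ k3 h
        rw [this] at k6
        exact G.irr _ k6
      · exact Or.inr (d_one33 k1 k5)
    · obtain ⟨a, b, k1, k2, k3, -, -, k4, k5⟩ := g
      rcases k2 with k2 | k2
      · exfalso
        rw [huniq b k2 k3.2.1] at k5
        exact HL_bt33 h (G.sym _ _ k5)
      · exact Or.inr (d_one33 k2 k5)
  omega

/-- U18d -/
theorem stLeaf5_33 (G : CG V) (hst : G.StLeaf) (hth : G.StTwHL) (hP : G.StP4)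
    (hgen : G.StGenericU) : G.StLeaf5 := by
  intro F hF h5
  have c : Lf33 G F := ⟨hF, hst, hth⟩
  have hpos : ∀ w ∈ G.N F, 0 ≤ G.val33 F w := fun w hw =>
    c.val_nonneg hw (fun h => c.five h5.ge hw h)
  have hval := P4_val33 hP c.frag
  rw [h5] at hval
  by_cases hL : 2 ≤ G.l F
  · rw [hval]
    have h1 := sum_nonneg hpos
    have h2 : (2 : ℤ) ≤ (G.l F : ℤ) := by exact_mod_cast hL
    push_cast
    linarith
  · have hL1 : G.l F ≤ 1 := by omega
    by_cases hwide : ∀ l ∈ G.N F, G.Low l → ∀ q ∈ G.nb l, G.IsTw q → q ∈ G.N F →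
        4 ≤ ((G.nb l ∪ G.nb q) ∩ F).card
    · -- no exceptions
      rw [hst.sum F hF]
      refine hgen _ c.torso ?_ ?_
      · constructor
        · intro l hl v hv h1 h2 h3 h4 h6
          have m1 : l ∈ F := (c.memR.1 hl).resolve_right (fun h => by
            rw [c.I1 h] at h1
            exact absurd h1 (singleton_ne_empty _))
          have m2 : v ∈ F := (c.memR.1 hv).resolve_right (fun h => by
            rw [c.I1 h] at h2
            exact absurd h2 (singleton_ne_empty _))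
          exact hst.e4 F hF l m1 v m2 h3 h4 h6
        · intro w hw v hv h1 h2 h3 h4 h6 h7
          have m1 : w ∈ F := (c.memR.1 hw).resolve_right (fun h => by
            rw [c.I1 h] at h1
            exact absurd h1 (singleton_ne_empty _))
          have m2 : v ∈ F := (c.memR.1 hv).resolve_right (fun h => by
            rw [c.I1 h] at h2
            exact absurd h2 (singleton_ne_empty _))
          rcases hst.e5 F hF w m1 v m2 h3 h4 h6 h7 with h8 | h8
          · exact h8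
          · exact absurd h8.1 (by omega)
      · intro z hz B hB
        have m1 : z ∈ G.N F := (c.memR.1 hz).resolve_left (fun h => by
          rw [c.I0 h] at hB
          exact absurd hB.symm (singleton_ne_empty _))
        rw [c.I1 m1] at hB
        have hB' : G.Co F = B := singleton_injective hB
        subst hB'
        unfold Wide
        rw [c.coCo]
        refine ⟨c.exp1 m1, fun h => c.five h5.ge m1 h, ?_⟩
        intro h1 v hv h2 h3
        refine hwide z m1 h1 v hv h2 ?_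
        have : G.Co F ∈ G.I {G.Co F} v := by rw [h3]; exact mem_singleton_self _
        unfold I at this
        rw [mem_filter, c.coN] at this
        exact this.2
    · push Not at hwide
      obtain ⟨l, hl, hlow, q, hq, htw, hqT, hcard⟩ := hwide
      obtain ⟨q', X, TT, s⟩ := sit33 c hl hqT hlow hq htw (by omega) (c.five h5.ge hqT htw)
      have hTTpos : ∀ w ∈ TT, 0 ≤ G.val33 F w := fun w hw => hpos w (s.TTT hw)
      have hlF := c.exp1 s.lT
      have hlT := s.dlT c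
      rw [s.valZ c] at hval
      have hE2 : (F \ X).card = 2 := by
        rw [card_sdiff_of_subset s.XF, s.X3, h5]
      obtain ⟨f, f', hne, hE⟩ := card_eq_two.1 hE2
      have hfrag := s.frag
      rw [hE] at hfrag
      have hNE : ∀ x, x ∈ G.N {f, f'} ↔ x ∈ TT ∨ x ∈ X := by
        intro x
        rw [← hE, s.NE, mem_union]
      have hfF : f ∈ F := (mem_sdiff.1 (hE ▸ mem_insert_self f {f'} : f ∈ F \ X)).1
      have hfF' : f' ∈ F := (mem_sdiff.1 (hE ▸ (by simp) : f' ∈ F \ X)).1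
      -- the end of the proof from one low vertex of value 6
      have fin : ∀ t ∈ TT, 6 ≤ G.val33 F t → G.l F = 1 → 0 ≤ G.P4 F := by
        intro t ht h1 h2
        have h3 := single_le_sum hTTpos ht
        rw [hval, h2]
        push_cast
        have e1 : (2 : ℤ) ≤ (G.d l F : ℤ) := by exact_mod_cast hlF
        have e2 : (2 : ℤ) ≤ (G.d l (G.N F) : ℤ) := by exact_mod_cast hlT
        linarith
      rcases two33 hne hfrag with h | h | h | h
      · exfalso
        exact hL (l_two33 hfF h.1 hfF' h.2 hne)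
      · obtain ⟨h1, h2, -⟩ := h
        have s' : Tws33 G F l q q' X TT f f' := ⟨s, hE, h1, fun x => by
          rw [h2 x, hNE x]⟩
        rcases Nat.lt_or_ge (G.l F) 1 with h3 | h3
        · have h4 : G.l F = 0 := by omega
          have h6 := s'.zeroSum c h4 hTTpos
          have hA := s'.zeroA c h4
          have h7 : G.d l F = 3 := by
            rw [s.dlF c, d_full33 hA, s.X3]
          rw [hval, h4, h7]
          push_cast
          have e2 : (2 : ℤ) ≤ (G.d l (G.N F) : ℤ) := by exact_mod_cast hlT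
          linarith
        · have h4 : G.l F = 1 := by omega
          obtain ⟨t, h6, h7⟩ := s'.exlow c h4
          exact fin t h6 (s'.val6 c h6 h7) h4
      · obtain ⟨t, h1, h2, -⟩ := h
        have h3 := hlval33 c s hE h2 ((hNE t).1 h1) hL1
        have h4 := l_one33 hfF' h2.2.1
        exact fin t h3.1 h3.2 (by omega)
      · obtain ⟨t, h1, h2, -⟩ := h
        have hE' : F \ X = {f', f} := by rw [hE, pair_comm]
        have h3 := hlval33 c s hE' h2 ((hNE t).1 h1) hL1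
        have h4 := l_one33 hfF h2.2.1
        exact fin t h3.1 h3.2 (by omega)

end CG

end Pool.Agent.Lib.MP_e95c01_co.N
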