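import Pool.Agent.Lib.MP_e95c01_co.U.Aux5

/-!
# U9: low vertices in one neighbourhood
-/

namespace Pool.Agent.Lib.MP_e95c01_co.N

open Finset

variable {V : Type} [Fintype V] [DecidableEq V]

namespace CG

variable {G : CG V} {Fa : Finset (Finset V)}

/-- hidden neighbours, neighbours in `N B` and in `Co B` -/
theorem split5 {z : V} {B H K C : Finset V} {k : ℕ} (hk : (G.nb z).card = k)
    (hH : H ⊆ G.nb z ∩ B) (hK : K ⊆ G.nb z ∩ G.N B) (hC : C ⊆ G.nb z ∩ G.Co B) :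
    H.card + K.card + C.card ≤ k := by
  have h1 := d_split76 (G := G) z B
  have h2 := Finset.card_le_card hH
  have h3 := Finset.card_le_card hK
  have h4 := Finset.card_le_card hC
  unfold d at h1
  omega

/-- the twin of a vertex of `R` lies on the same side -/
theorem tw_N5 (h7 : G.StTwHL) (hT : G.TorsoU Fa) {v w : V} (hv : v ∈ R Fa) (h : G.Tw v w)
    {B : Finset V} (hB : B ∈ Fa) (hN : v ∈ G.N B) : w ∈ G.N B := by
  have h1 := (h7.twI Fa hT.reg v hv w h).2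
  have h2 : B ∈ G.I Fa v := mem_I76.2 ⟨hB, hN⟩
  rw [← h1] at h2
  exact (mem_I76.1 h2).2

theorem tw_Co5 (h7 : G.StTwHL) (hT : G.TorsoU Fa) {v w : V} (hv : v ∈ R Fa) (h : G.Tw v w)
    {B : Finset V} (hB : B ∈ Fa) (hN : v ∈ G.Co B) : w ∈ G.Co B := by
  have h1 := h7.twI Fa hT.reg v hv w h
  rw [mem_Co76]
  refine ⟨mem_R76.1 h1.1 B hB, fun h2 => (mem_Co76.1 hN).2 ?_⟩
  exact tw_N5 h7 hT h1.1 (h7.symm _ _ h) hB h2

theorem side5 {x : V} {B : Finset V} (hx : x ∈ R Fa) (hB : B ∈ Fa) :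
    x ∈ G.N B ∨ x ∈ G.Co B := by
  by_cases h : x ∈ G.N B
  · exact Or.inl h
  · exact Or.inr (mem_Co76.2 ⟨mem_R76.1 hx B hB, h⟩)

theorem lowK_5 (h7 : G.StTwHL) (h6 : G.StCh4) (hT : G.TorsoU Fa) {z : V} (hz : z ∈ R Fa)
    (hl : G.Low z) {B : Finset V} (hI : G.I Fa z = {B}) (hd : 2 ≤ G.d z (G.Co B)) :
    0 ≤ G.ch4 Fa z ∨ ∃ v, G.LowEx Fa B z v := by
  have hB : B ∈ G.I Fa z := by rw [hI]; exact mem_singleton_self _
  have hBF := (mem_I76.1 hB).1
  have hBN := (mem_I76.1 hB).2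
  have hch := ((h6 hT.n9 Fa hT.reg z hz).1 hl).2.1 B hI
  by_cases hneg : 0 ≤ G.ch4 Fa z
  · exact Or.inl hneg
  right
  have hsum : G.d z (G.Co B) + G.tl Fa z + G.tA Fa z ≤ 2 := by
    by_contra hc
    apply hneg
    rw [hch]
    have : (3 : ℤ) ≤ (G.d z (G.Co B) : ℤ) + (G.tl Fa z : ℤ) + (G.tA Fa z : ℤ) := by
      have : 3 ≤ G.d z (G.Co B) + G.tl Fa z + G.tA Fa z := by omega
      exact_mod_cast this
    linarith
  have hd2 : G.d z (G.Co B) = 2 := by omega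
  have htl : G.tl Fa z = 0 := by omega
  have htA : G.tA Fa z = 0 := by omega
  have hch2 : G.ch4 Fa z = -2 := by
    rw [hch, hd2, htl, htA]
    norm_num
  -- pairs of twins covering the edges
  have hpair : ∀ x ∈ G.nb z ∩ G.Co B, ∃ v w, v ∈ G.nR Fa z ∧ w ∈ G.nR Fa z ∧ G.Tw v w ∧
      x ∈ G.nb v ∧ x ∈ G.nb w := by
    intro x hx
    rcases cov5 hT hz (nR_Co5 hz hI hx) (m_Co5 hI (mem_inter.1 hx).2) with h | h | h | h | h
    · obtain ⟨w, h1, h2, h3⟩ := h
      have := tl_mem5 h1 h2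
      omega
    · exact h
    · obtain ⟨a, b, h1, h2⟩ := h
      have := tA_mem5 h1 h2
      omega
    · obtain ⟨a, b, h1, h2, h3⟩ := h
      have := tl_mem5 h1 h2.2.1
      omega
    · obtain ⟨a, b, h1, h2⟩ := h
      have := tl_mem5 h1 h2.1
      omega
  -- the pairs are in `N B`
  have hN : ∀ x ∈ G.nb z ∩ G.Co B, ∀ v w, v ∈ G.nR Fa z → w ∈ G.nR Fa z → G.Tw v w →
      x ∈ G.nb v → x ∈ G.nb w → v ∈ G.N B := by
    intro x hx v w h1 h2 h3 h4 h5
    rcases side5 (G := G) (mem_nR76.1 h1).2 hBF with h | h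
    · exact h
    exfalso
    have hw := tw_Co5 h7 hT (mem_nR76.1 h1).2 h3 hBF h
    have e1 : v ≠ x := ne_of_nb5 h4
    have e2 : w ≠ x := ne_of_nb5 h5
    have e3 : v ≠ w := ne_of_nb5 h3.1
    have h8 : ({v, w, x} : Finset V) ⊆ G.nb z ∩ G.Co B := by
      intro y hy
      simp only [mem_insert, mem_singleton] at hy
      rcases hy with rfl | rfl | rfl
      · exact mem_inter.2 ⟨(mem_nR76.1 h1).1, h⟩
      · exact mem_inter.2 ⟨(mem_nR76.1 h2).1, hw⟩
      · exact hx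
    have h9 := Finset.card_le_card h8
    have h10 : ({v, w, x} : Finset V).card = 3 := by
      rw [Finset.card_insert_of_notMem, Finset.card_pair e2]
      simp [e1, e3]
    unfold d at hd2
    omega
  have hdc : (G.nb z ∩ G.Co B).card = 2 := hd2
  obtain ⟨x1, x2, hne, hxx⟩ := Finset.card_eq_two.1 hdc
  have hx1 : x1 ∈ G.nb z ∩ G.Co B := by rw [hxx]; simp
  have hx2 : x2 ∈ G.nb z ∩ G.Co B := by rw [hxx]; simp
  obtain ⟨v, w, a1, a2, a3, a4, a5⟩ := hpair x1 hx1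
  obtain ⟨v', w', b1, b2, b3, b4, b5⟩ := hpair x2 hx2
  have av := hN x1 hx1 v w a1 a2 a3 a4 a5
  have aw := hN x1 hx1 w v a2 a1 (h7.symm _ _ a3) a5 a4
  have bv := hN x2 hx2 v' w' b1 b2 b3 b4 b5
  have bw := hN x2 hx2 w' v' b2 b1 (h7.symm _ _ b3) b5 b4
  -- the same pair
  have hsame : v ≠ v' → v ≠ w' → False := by
    intro e1 e2
    have e3 : w ≠ v' := by
      rintro rfl
      exact e2 (h7.uniq hT.n9 _ _ _ (h7.symm _ _ a3) b3)
    have e4 : w ≠ w' := by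
      rintro rfl
      exact e1 (h7.uniq hT.n9 _ _ _ (h7.symm _ _ a3) (h7.symm _ _ b3))
    have hK : ({v, w, v', w'} : Finset V) ⊆ G.nb z ∩ G.N B := by
      intro y hy
      simp only [mem_insert, mem_singleton] at hy
      rcases hy with rfl | rfl | rfl | rfl
      · exact mem_inter.2 ⟨(mem_nR76.1 a1).1, av⟩
      · exact mem_inter.2 ⟨(mem_nR76.1 a2).1, aw⟩
      · exact mem_inter.2 ⟨(mem_nR76.1 b1).1, bv⟩
      · exact mem_inter.2 ⟨(mem_nR76.1 b2).1, bw⟩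
    have hc : 4 ≤ ({v, w, v', w'} : Finset V).card :=
      four_le5 (by simp) (by simp) (by simp) (by simp) (ne_of_nb5 a3.1) e1 e2 e3 e4
        (ne_of_nb5 b3.1)
    have h8 := split5 (G := G) (z := z) hl (Finset.Subset.refl (G.nb z ∩ B)) hK
      (Finset.Subset.refl (G.nb z ∩ G.Co B))
    have h9 := d_pos76 hBN
    unfold d at h9
    omega
  have hvx2 : x2 ∈ G.nb v := by
    by_cases e1 : v = v'
    · rw [e1]; exact b4
    · by_cases e2 : v = w'
      · rw [e2]; exact b5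
      · exact (hsame e1 e2).elim
  have hwv : w ∈ G.nb v := a3.1
  have hvz : z ∈ G.nb v := G.sym _ _ (mem_nR76.1 a1).1
  have hKv : ({w, z} : Finset V) ⊆ G.nb v ∩ G.N B := by
    intro y hy
    simp only [mem_insert, mem_singleton] at hy
    rcases hy with rfl | rfl
    · exact mem_inter.2 ⟨hwv, aw⟩
    · exact mem_inter.2 ⟨hvz, hBN⟩
  have hwz : w ≠ z := fun e => by
    subst e
    exact G.irr _ (mem_nR76.1 a2).1
  have hcKv : ({w, z} : Finset V).card = 2 := Finset.card_pair hwz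
  have hvR := (mem_nR76.1 a1).2
  have hBv : B ∈ G.I Fa v := mem_I76.2 ⟨hBF, av⟩
  have hhid := h7.hid Fa hT.reg hT.big v hvR ⟨w, a3⟩
  have hsubv : G.nb z ∩ G.Co B ⊆ G.nb v := by
    rw [hxx]
    intro y hy
    simp only [mem_insert, mem_singleton] at hy
    rcases hy with rfl | rfl
    · exact a4
    · exact hvx2
  refine ⟨v, ⟨w, a3⟩, (mem_nR76.1 a1).1, ?_, hd2, hsubv, ?_, htl, htA, hch2⟩
  · -- `I v = {B}`
    rw [Finset.eq_singleton_iff_unique_mem]
    refine ⟨hBv, ?_⟩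
    intro B' hB'
    by_contra hne'
    have g1 := hhid B hBv
    have g2 := hhid B' hB'
    have hdis := (hT.reg.dis B' (mem_I76.1 hB').1 B hBF hne')
    have hBB' : Disjoint (G.nb v ∩ B) (G.nb v ∩ B') := by
      rw [Finset.disjoint_left]
      intro y hy hy'
      exact Finset.disjoint_left.1 hdis.1 (mem_inter.1 hy').2 (mem_inter.1 hy).2
    have hCo : (G.nb z ∩ G.Co B) ∪ (G.nb v ∩ B') ⊆ G.nb v ∩ G.Co B := by
      intro y hy
      rw [mem_union] at hy
      rcases hy with hy | hy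
      · exact mem_inter.2 ⟨hsubv hy, (mem_inter.1 hy).2⟩
      · rw [mem_inter] at hy ⊢
        refine ⟨hy.1, mem_Co76.2 ⟨fun h => Finset.disjoint_left.1 hdis.1 hy.2 h, ?_⟩⟩
        intro h
        exact Finset.disjoint_left.1 (hT.reg.dis B hBF B' (mem_I76.1 hB').1 (Ne.symm hne')).2 h hy.2
    have hdj : Disjoint (G.nb z ∩ G.Co B) (G.nb v ∩ B') := by
      rw [Finset.disjoint_left]
      intro y hy hy'
      exact mem_R76.1 (mem_nR76.1 (nR_Co5 hz hI hy)).2 B' (mem_I76.1 hB').1 (mem_inter.1 hy').2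
    have g3 := split5 (G := G) (z := v) a3.2.1 (Finset.Subset.refl (G.nb v ∩ B)) hKv hCo
    rw [Finset.card_union_of_disjoint hdj] at g3
    unfold d at g1 g2
    omega
  · have g1 := hhid B hBv
    have g3 := split5 (G := G) (z := v) a3.2.1 (Finset.Subset.refl (G.nb v ∩ B)) hKv
      (Finset.Subset.refl (G.nb v ∩ G.Co B))
    unfold d at g1 ⊢
    omega

theorem stLowK_5 (G : CG V) (h7 : G.StTwHL) (h6 : G.StCh4) : G.StLowK :=
  fun _ hT _ hz hl _ hI hd => lowK_5 h7 h6 hT hz hl hI hd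

end CG

end Pool.Agent.Lib.MP_e95c01_co.N
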