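import Pool.Agent.Lib.MP_e95c01_co.U.StCovU1
import Pool.Agent.Lib.MP_e95c01_co.N.Basic37

/-!
# U14: thin torsos with one vertex on each side
-/

namespace Pool.Agent.Lib.MP_e95c01_co.N

open Finset

variable {V : Type} [Fintype V] [DecidableEq V]

namespace CG

variable {G : CG V}

/-- the payments cancel -/
theorem pay_zero1 (Fa : Finset (Finset V)) :
    ∑ z ∈ R Fa, ∑ x ∈ G.nR Fa z,
      (if G.m Fa x z ≤ 1 then G.pi4 x z - G.pi4 z x else 0) = 0 := by
  have h1 : ∀ z, ∑ x ∈ G.nR Fa z, (if G.m Fa x z ≤ 1 then G.pi4 x z - G.pi4 z x else 0) =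
      ∑ x ∈ R Fa, (if x ∈ G.nb z then
        (if G.m Fa x z ≤ 1 then G.pi4 x z - G.pi4 z x else 0) else 0) := by
    intro z
    unfold nR
    rw [inter_comm, ← filter_mem_eq_inter, sum_filter]
  rw [sum_congr rfl fun z _ => h1 z]
  set f : V → V → ℤ := fun z x => if x ∈ G.nb z then
        (if G.m Fa x z ≤ 1 then G.pi4 x z - G.pi4 z x else 0) else 0 with hf
  have h2 : ∀ z x, f z x = - f x z := by
    intro z x
    rw [hf]
    simp only
    by_cases h3 : x ∈ G.nb z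
    · rw [if_pos h3, if_pos (G.sym _ _ h3), m_symm1 x z]
      split_ifs
      · ring
      · rfl
    · rw [if_neg h3, if_neg fun h => h3 (G.sym _ _ h)]
      rfl
  have h3 : ∑ z ∈ R Fa, ∑ x ∈ R Fa, f z x = - ∑ z ∈ R Fa, ∑ x ∈ R Fa, f z x := by
    calc ∑ z ∈ R Fa, ∑ x ∈ R Fa, f z x = ∑ x ∈ R Fa, ∑ z ∈ R Fa, f z x := sum_comm
      _ = ∑ x ∈ R Fa, ∑ z ∈ R Fa, - f x z := sum_congr rfl fun x _ => sum_congr rfl fun z _ => h2 z x
      _ = - ∑ z ∈ R Fa, ∑ x ∈ R Fa, f z x := by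
        rw [← sum_neg_distrib]
        exact sum_congr rfl fun x _ => sum_neg_distrib _
  linarith

/-- the charge without the payments -/
noncomputable def D1 (G : CG V) (Fa : Finset (Finset V)) (z : V) : ℤ :=
  (2 - ((G.I Fa z).card : ℤ)) * G.a4 z +
    G.c4 z * ((((G.I Fa z).card : ℤ) - 2) * ((G.nb z).card : ℤ) +
      ∑ x ∈ G.nR Fa z, (2 - (G.m Fa x z : ℤ)))

theorem sum_ch4_1 (Fa : Finset (Finset V)) :
    ∑ z ∈ R Fa, G.ch4 Fa z = ∑ z ∈ R Fa, G.D1 Fa z := by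
  have h1 := pay_zero1 (G := G) Fa
  unfold ch4
  rw [sum_add_distrib, h1, add_zero]
  rfl

/-- two opposite fragments -/
structure St1 (G : CG V) (A B : Finset V) : Prop where
  ne : A ≠ B
  reg : G.Reg {A, B}
  sub : R {A, B} ⊆ G.N A ∪ G.N B

theorem St1.symm {A B : Finset V} (h : G.St1 A B) : G.St1 B A := by
  have hp : ({B, A} : Finset (Finset V)) = {A, B} := pair_comm B A
  exact ⟨h.ne.symm, by rw [hp]; exact h.reg, by rw [hp, union_comm]; exact h.sub⟩

theorem memR2_1 {A B : Finset V} {z : V} : z ∈ R ({A, B} : Finset (Finset V)) ↔ z ∉ A ∧ z ∉ B := by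
  rw [mem_R1]
  simp

theorem memI2_1 {A B C : Finset V} {z : V} : C ∈ G.I {A, B} z ↔ (C = A ∨ C = B) ∧ z ∈ G.N C := by
  unfold I
  rw [mem_filter]
  simp

theorem St1.NA {A B : Finset V} (h : G.St1 A B) {z : V} (hz : z ∈ G.N A) : z ∉ A ∧ z ∉ B := by
  have h1 := NR1 h.reg (by simp : A ∈ ({A, B} : Finset (Finset V))) hz
  exact memR2_1.1 h1

theorem St1.IA {A B : Finset V} {z : V} (hz : z ∈ G.N A \ G.N B) : G.I {A, B} z = {A} := by
  rw [mem_sdiff] at hz
  ext C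
  rw [memI2_1, mem_singleton]
  constructor
  · rintro ⟨rfl | rfl, h⟩
    · rfl
    · exact absurd h hz.2
  · rintro rfl
    exact ⟨Or.inl rfl, hz.1⟩

theorem St1.IC {A B : Finset V} {z : V} (hz : z ∈ G.N A ∩ G.N B) : G.I {A, B} z = {A, B} := by
  rw [mem_inter] at hz
  ext C
  rw [memI2_1, mem_insert, mem_singleton]
  constructor
  · rintro ⟨h, -⟩
    exact h
  · rintro (rfl | rfl)
    · exact ⟨Or.inl rfl, hz.1⟩
    · exact ⟨Or.inr rfl, hz.2⟩

theorem St1.cases {A B : Finset V} (h : G.St1 A B) {v : V} (hA : v ∉ A) (hB : v ∉ B) :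
    v ∈ G.N A \ G.N B ∨ v ∈ G.N B \ G.N A ∨ v ∈ G.N A ∩ G.N B := by
  have := h.sub (memR2_1.2 ⟨hA, hB⟩)
  rw [mem_union] at this
  simp only [mem_inter, mem_sdiff]
  tauto

theorem St1.R_eq {A B : Finset V} (h : G.St1 A B) :
    R ({A, B} : Finset (Finset V)) =
      ((G.N A \ G.N B) ∪ (G.N B \ G.N A)) ∪ (G.N A ∩ G.N B) := by
  ext v
  constructor
  · intro hv
    rw [memR2_1] at hv
    rcases h.cases hv.1 hv.2 with h1 | h1 | h1
    · exact mem_union_left _ (mem_union_left _ h1)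
    · exact mem_union_left _ (mem_union_right _ h1)
    · exact mem_union_right _ h1
  · intro hv
    rw [mem_union, mem_union] at hv
    rw [memR2_1]
    rcases hv with (hv | hv) | hv
    · exact h.NA (mem_sdiff.1 hv).1
    · exact (h.symm.NA (mem_sdiff.1 hv).1).symm
    · exact h.NA (mem_inter.1 hv).1

theorem St1.sum {A B : Finset V} (h : G.St1 A B) (f : V → ℤ) :
    ∑ z ∈ R ({A, B} : Finset (Finset V)), f z =
      ∑ z ∈ G.N A \ G.N B, f z + ∑ z ∈ G.N B \ G.N A, f z + ∑ z ∈ G.N A ∩ G.N B, f z := by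
  rw [h.R_eq, sum_union, sum_union]
  · rw [disjoint_left]
    intro v h1 h2
    exact (mem_sdiff.1 h2).2 (mem_sdiff.1 h1).1
  · rw [disjoint_left]
    intro v h1 h2
    rw [mem_inter] at h2
    rcases mem_union.1 h1 with h3 | h3
    · exact (mem_sdiff.1 h3).2 h2.2
    · exact (mem_sdiff.1 h3).2 h2.1

theorem St1.card_eq {A B : Finset V} (h : G.St1 A B) :
    (G.N A \ G.N B).card = (G.N B \ G.N A).card := by
  have h1 := (h.reg.frag A (by simp)).2.1
  have h2 := (h.reg.frag B (by simp)).2.1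
  have h3 := card_sdiff_add_card_inter (G.N A) (G.N B)
  have h4 := card_sdiff_add_card_inter (G.N B) (G.N A)
  rw [inter_comm] at h4
  omega

section one

variable {A B : Finset V} {s y : V}

theorem St1.adj (h : G.St1 A B) (hS : G.N A \ G.N B = {s}) (hY : G.N B \ G.N A = {y}) :
    y ∈ G.nb s := by
  have hs : s ∈ G.N A \ G.N B := by rw [hS]; exact mem_singleton_self s
  rw [mem_sdiff] at hs
  have h1 := (G.stCo_37 A (h.reg.frag A (by simp))).2.1
  have h2 : s ∈ G.N (G.Co A) := by rw [h1]; exact hs.1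
  obtain ⟨-, u, hu, hsu⟩ := mem_N1.1 h2
  rw [mem_Co1] at hu
  have huB : u ∉ B := by
    intro huB
    exact hs.2 (mem_N1.2 ⟨(h.NA hs.1).2, u, huB, hsu⟩)
  have hus : u ∈ G.nb s := G.sym _ _ hsu
  rcases h.cases hu.1 huB with h3 | h3 | h3
  · exact absurd (mem_sdiff.1 h3).1 hu.2
  · rw [hY, mem_singleton] at h3
    rwa [h3] at hus
  · exact absurd (mem_inter.1 h3).1 hu.2

theorem St1.notTw (h : G.St1 A B) (hS : G.N A \ G.N B = {s}) (hY : G.N B \ G.N A = {y}) :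
    ¬ G.IsTw s := by
  have hys := h.adj hS hY
  have hs : s ∈ G.N A \ G.N B := by rw [hS]; exact mem_singleton_self s
  have hy : y ∈ G.N B \ G.N A := by rw [hY]; exact mem_singleton_self y
  rw [mem_sdiff] at hs hy
  obtain ⟨hsA, hsB⟩ := h.NA hs.1
  obtain ⟨hyB, hyA⟩ := h.symm.NA hy.1
  have hnotB : ∀ v ∈ B, v ∉ G.nb s := by
    intro v hv hvs
    exact hs.2 (mem_N1.2 ⟨hsB, v, hv, G.sym _ _ hvs⟩)
  have hnotA : ∀ v ∈ A, y ∉ G.nb v := by
    intro v hv hvy
    exact hy.2 (mem_N1.2 ⟨hyA, v, hv, hvy⟩)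
  rintro ⟨w, hw1, -, hw3⟩
  have hyw : y ∈ G.cl w := by rw [← hw3]; exact mem_cl1.2 (Or.inr hys)
  have hwB : w ∉ B := fun hwB => hnotB w hwB hw1
  rcases mem_cl1.1 hyw with h1 | h1
  · subst h1
    obtain ⟨-, u, hu, hsu⟩ := mem_N1.1 hs.1
    have huy : u ∈ G.cl y := by rw [← hw3]; exact mem_cl1.2 (Or.inr (G.sym _ _ hsu))
    rcases mem_cl1.1 huy with h2 | h2
    · subst h2
      exact hyA hu
    · exact hnotA u hu (G.sym _ _ h2)
  · have hwA : w ∉ A := fun hwA => hnotA w hwA h1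
    rcases h.cases hwA hwB with h2 | h2 | h2
    · rw [hS, mem_singleton] at h2
      subst h2
      exact G.irr _ hw1
    · rw [hY, mem_singleton] at h2
      subst h2
      exact G.irr _ h1
    · rw [mem_inter] at h2
      obtain ⟨-, v, hv, hwv⟩ := mem_N1.1 h2.2
      have hvs : v ∈ G.cl s := by rw [hw3]; exact mem_cl1.2 (Or.inr (G.sym _ _ hwv))
      rcases mem_cl1.1 hvs with h3 | h3
      · subst h3
        exact hsB hv
      · exact hnotB v hv h3

theorem St1.nRs (h : G.St1 A B) (hS : G.N A \ G.N B = {s}) (hY : G.N B \ G.N A = {y}) :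
    G.nR {A, B} s = insert y (G.nb s ∩ (G.N A ∩ G.N B)) := by
  have hys := h.adj hS hY
  ext v
  unfold nR
  rw [h.R_eq, hS, hY]
  simp only [mem_inter, mem_union, mem_singleton, mem_insert]
  constructor
  · rintro ⟨h1, (h2 | h2) | h2⟩
    · subst h2
      exact absurd h1 (G.irr v)
    · exact Or.inl h2
    · exact Or.inr ⟨h1, h2⟩
  · rintro (h1 | ⟨h1, h2⟩)
    · subst h1
      exact ⟨hys, Or.inl (Or.inr rfl)⟩
    · exact ⟨h1, Or.inr h2⟩

theorem c4_low1 {v : V} (h : G.Low v) : G.c4 v = 2 := by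
  unfold c4
  rw [if_pos h]

theorem c4_hub1 {v : V} (h : ¬ G.Low v) (h' : ¬ G.IsTw v) : G.c4 v = 0 := by
  unfold c4
  rw [if_neg h, if_neg h']

theorem c4_tw1 {v : V} (h' : G.IsTw v) : G.c4 v = 1 := by
  have h : ¬ G.Low v := by
    obtain ⟨w, -, h1, -⟩ := h'
    unfold Low
    omega
  unfold c4
  rw [if_neg h, if_pos h']

theorem c4_nonneg1 (v : V) : 0 ≤ G.c4 v := by
  unfold c4
  split_ifs <;> norm_num

theorem St1.Ds (h : G.St1 A B) (hS : G.N A \ G.N B = {s}) (hY : G.N B \ G.N A = {y}) :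
    G.D1 {A, B} s = -2 + ∑ _c ∈ G.nb s ∩ (G.N A ∩ G.N B), G.c4 s := by
  have hys := h.adj hS hY
  have hs : s ∈ G.N A \ G.N B := by rw [hS]; exact mem_singleton_self s
  have hy : y ∈ G.N B \ G.N A := by rw [hY]; exact mem_singleton_self y
  have hI := St1.IA hs
  have hIy : G.I {A, B} y = {B} := by
    rw [pair_comm]
    exact St1.IA hy
  have hyC : y ∉ G.nb s ∩ (G.N A ∩ G.N B) := by
    intro h1
    exact (mem_sdiff.1 hy).2 (mem_inter.1 (mem_inter.1 h1).2).1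
  have hsum : ∑ x ∈ G.nR {A, B} s, (2 - (G.m {A, B} x s : ℤ)) =
      2 + ((G.nb s ∩ (G.N A ∩ G.N B)).card : ℤ) := by
    rw [h.nRs hS hY, sum_insert hyC]
    have h1 : G.m {A, B} y s = 0 := by
      unfold m
      rw [hIy, hI, card_eq_zero, ← disjoint_iff_inter_eq_empty, disjoint_singleton]
      exact h.ne.symm
    have h2 : ∀ x ∈ G.nb s ∩ (G.N A ∩ G.N B), (2 - (G.m {A, B} x s : ℤ)) = 1 := by
      intro x hx
      unfold m
      rw [St1.IC (mem_inter.1 hx).2, hI, inter_singleton_of_mem (mem_insert_self _ _),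
        card_singleton]
      norm_num
    rw [h1, sum_congr rfl h2, sum_const, nsmul_eq_mul, mul_one]
    norm_num
  have hdeg : ((G.nb s).card : ℤ) = ((G.nb s ∩ A).card : ℤ) + 1 +
      ((G.nb s ∩ (G.N A ∩ G.N B)).card : ℤ) := by
    have h1 : G.nb s = (G.nb s ∩ A) ∪ insert y (G.nb s ∩ (G.N A ∩ G.N B)) := by
      rw [← h.nRs hS hY]
      ext v
      unfold nR
      rw [mem_union, mem_inter, mem_inter, memR2_1]
      constructor
      · intro hv
        by_cases h1 : v ∈ A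
        · exact Or.inl ⟨hv, h1⟩
        · refine Or.inr ⟨hv, h1, ?_⟩
          intro h2
          exact (mem_sdiff.1 hs).2 (mem_N1.2 ⟨(h.NA (mem_sdiff.1 hs).1).2, v, h2, G.sym _ _ hv⟩)
      · rintro (h1 | h1)
        · exact h1.1
        · exact h1.1
    have h2 : Disjoint (G.nb s ∩ A) (insert y (G.nb s ∩ (G.N A ∩ G.N B))) := by
      rw [disjoint_left]
      intro v hv hv'
      rw [mem_inter] at hv
      rcases mem_insert.1 hv' with h3 | h3
      · subst h3
        exact (h.symm.NA (mem_sdiff.1 hy).1).2 hv.2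
      · exact (h.NA (mem_inter.1 (mem_inter.1 h3).2).1).1 hv.2
    have h3 := congrArg Finset.card h1
    rw [card_union_of_disjoint h2, card_insert_of_notMem hyC] at h3
    omega
  unfold D1
  rw [hI, card_singleton, hsum, sum_const, nsmul_eq_mul]
  by_cases hl : G.Low s
  · rw [c4_low1 hl]
    unfold a4
    rw [if_pos hl]
    have h6 : (G.nb s).card = 6 := hl
    push_cast
    omega
  · rw [c4_hub1 hl (h.notTw hS hY)]
    unfold a4
    rw [if_neg hl]
    norm_num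

theorem St1.Dc (h : G.St1 A B) (hS : G.N A \ G.N B = {s}) (hY : G.N B \ G.N A = {y}) {c : V}
    (hc : c ∈ G.N A ∩ G.N B) :
    G.D1 {A, B} c = (if s ∈ G.nb c then G.c4 c else 0) + (if y ∈ G.nb c then G.c4 c else 0) := by
  have hs : s ∈ G.N A \ G.N B := by rw [hS]; exact mem_singleton_self s
  have hy : y ∈ G.N B \ G.N A := by rw [hY]; exact mem_singleton_self y
  have hI := St1.IC hc
  have hIs : G.I {A, B} s = {A} := St1.IA hs
  have hIy : G.I {A, B} y = {B} := by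
    rw [pair_comm]
    exact St1.IA hy
  have h1 : ∑ x ∈ G.nR {A, B} c, (2 - (G.m {A, B} x c : ℤ)) =
      (if s ∈ G.nb c then 1 else 0) + (if y ∈ G.nb c then 1 else 0) := by
    unfold nR
    rw [inter_comm, ← filter_mem_eq_inter, sum_filter, h.sum, hS, hY, sum_singleton, sum_singleton]
    have h2 : ∑ x ∈ G.N A ∩ G.N B, (if x ∈ G.nb c then (2 - (G.m {A, B} x c : ℤ)) else 0) = 0 := by
      apply sum_eq_zero
      intro x hx
      have h3 : G.m {A, B} x c = 2 := by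
        unfold m
        rw [St1.IC hx, hI, inter_self, card_pair h.ne]
      rw [h3]
      norm_num
    have h4 : G.m {A, B} s c = 1 := by
      unfold m
      rw [hIs, hI, singleton_inter_of_mem (mem_insert_self _ _), card_singleton]
    have h5 : G.m {A, B} y c = 1 := by
      unfold m
      rw [hIy, hI, singleton_inter_of_mem (by simp), card_singleton]
    rw [h2, h4, h5]
    norm_num
  unfold D1
  rw [h1, hI, card_pair h.ne]
  split_ifs <;> push_cast <;> ring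

theorem St1.total (h : G.St1 A B) (hS : G.N A \ G.N B = {s}) (hY : G.N B \ G.N A = {y}) :
    ∑ z ∈ R {A, B}, G.ch4 {A, B} z = -4 +
      ∑ c ∈ G.nb s ∩ (G.N A ∩ G.N B), (G.c4 s + G.c4 c) +
      ∑ c ∈ G.nb y ∩ (G.N A ∩ G.N B), (G.c4 y + G.c4 c) := by
  rw [sum_ch4_1, h.sum, hS, hY, sum_singleton, sum_singleton, h.Ds hS hY,
    sum_congr rfl fun c hc => h.Dc hS hY hc, sum_add_distrib]
  have h1 : G.D1 {A, B} y = -2 + ∑ c ∈ G.nb y ∩ (G.N A ∩ G.N B), G.c4 y := by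
    have h2 := h.symm.Ds hY hS
    rw [pair_comm, inter_comm (G.N B)] at h2
    exact h2
  have h2 : ∀ u : V, ∑ c ∈ G.N A ∩ G.N B, (if u ∈ G.nb c then G.c4 c else 0) =
      ∑ c ∈ G.nb u ∩ (G.N A ∩ G.N B), G.c4 c := by
    intro u
    rw [← sum_filter]
    apply sum_congr _ fun _ _ => rfl
    ext c
    constructor
    · intro h3
      rw [mem_filter] at h3
      exact mem_inter.2 ⟨G.sym _ _ h3.2, h3.1⟩
    · intro h3
      obtain ⟨h4, h5⟩ := mem_inter.1 h3
      exact mem_filter.2 ⟨h5, G.sym _ _ h4⟩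
  rw [h1, h2, h2, sum_add_distrib, sum_add_distrib]
  ring

/-- what the cover gives at `y` -/
def Has1 (G : CG V) (C : Finset V) (y : V) : Prop :=
  (∃ c ∈ C, c ∈ G.nb y ∧ G.Low c) ∨
  (∃ c ∈ C, ∃ c' ∈ C, c ≠ c' ∧ c ∈ G.nb y ∧ c' ∈ G.nb y ∧ G.IsTw c ∧ G.IsTw c') ∨
  (G.Low y ∧ ∃ c ∈ C, c ∈ G.nb y)

theorem has_two1 {C : Finset V} {y : V} (h : G.Has1 C y) :
    2 ≤ ∑ c ∈ G.nb y ∩ C, (G.c4 y + G.c4 c) := by
  have h0 : ∀ c ∈ G.nb y ∩ C, 0 ≤ G.c4 y + G.c4 c := fun c _ =>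
    add_nonneg (c4_nonneg1 y) (c4_nonneg1 c)
  rcases h with h | h | h
  · obtain ⟨c, h1, h2, h3⟩ := h
    have h4 := single_le_sum h0 (mem_inter.2 ⟨h2, h1⟩)
    have h5 := c4_low1 h3
    have h6 := c4_nonneg1 (G := G) y
    linarith
  · obtain ⟨c, h1, c', h1', hne, h2, h2', h3, h3'⟩ := h
    have hsub : ({c, c'} : Finset V) ⊆ G.nb y ∩ C := by
      intro x hx
      rw [mem_insert, mem_singleton] at hx
      rcases hx with rfl | rfl
      · exact mem_inter.2 ⟨h2, h1⟩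
      · exact mem_inter.2 ⟨h2', h1'⟩
    have h4 := sum_le_sum_of_subset_of_nonneg hsub fun c hc _ => h0 c hc
    rw [sum_pair hne, c4_tw1 h3, c4_tw1 h3'] at h4
    have h6 := c4_nonneg1 (G := G) y
    linarith
  · obtain ⟨h3, c, h1, h2⟩ := h
    have h4 := single_le_sum h0 (mem_inter.2 ⟨h2, h1⟩)
    have h5 := c4_low1 h3
    have h6 := c4_nonneg1 (G := G) c
    linarith

/-- the pair of `HL` is in `C` -/
theorem St1.hlC (h : G.St1 A B) (hsat : G.Sat) (hS : G.N A \ G.N B = {s})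
    (hY : G.N B \ G.N A = {y}) {a b : V} (hl : G.HL a b y) (hsb : s ∈ G.nb b) (hsa : s ≠ a) :
    G.Has1 (G.N A ∩ G.N B) y ∧ G.Has1 (G.N A ∩ G.N B) s := by
  have hs : s ∈ G.N A \ G.N B := by rw [hS]; exact mem_singleton_self s
  have hy : y ∈ G.N B \ G.N A := by rw [hY]; exact mem_singleton_self y
  rw [mem_sdiff] at hs hy
  obtain ⟨hsA, hsB⟩ := h.NA hs.1
  obtain ⟨hyB, hyA⟩ := h.symm.NA hy.1
  have hlow := hsat a b y hl
  obtain ⟨-, hb, hba, hxb, hcl⟩ := hl
  have hab : a ∈ G.nb b := G.sym _ _ hba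
  have hya : y ∈ G.nb a := by
    have h1 : y ∈ G.cl a := by rw [hcl]; exact mem_insert_self _ _
    rcases mem_cl1.1 h1 with h2 | h2
    · subst h2
      exact absurd (mem_cl1.2 (Or.inr hab)) hxb
    · exact h2
  have hsa' : s ∈ G.nb a := by
    have h1 : s ∈ G.cl a := by rw [hcl]; exact mem_insert_of_mem (mem_cl1.2 (Or.inr hsb))
    exact (mem_cl1.1 h1).resolve_left hsa
  have haC : a ∈ G.N A ∩ G.N B := by
    have h1 : a ∉ A := fun h1 => hy.2 (mem_N1.2 ⟨hyA, a, h1, hya⟩)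
    have h2 : a ∉ B := fun h1 => hs.2 (mem_N1.2 ⟨hsB, a, h1, hsa'⟩)
    rcases h.cases h1 h2 with h3 | h3 | h3
    · rw [hS, mem_singleton] at h3
      exact absurd h3.symm hsa
    · rw [hY, mem_singleton] at h3
      subst h3
      exact absurd hya (G.irr _)
    · exact h3
  have hbC : b ∈ G.N A ∩ G.N B := by
    have h1 : b ∉ A := by
      intro h1
      rw [mem_inter] at haC
      obtain ⟨-, u, hu, hau⟩ := mem_N1.1 haC.2
      have h2 : u ∈ G.cl a := mem_cl1.2 (Or.inr (G.sym _ _ hau))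
      rw [hcl, mem_insert, mem_cl1] at h2
      have huA : u ∉ A ∧ u ∉ G.N A := by
        have h3 := h.reg.dis A (by simp) B (by simp) h.ne
        exact ⟨disjoint_right.1 h3.1 hu, disjoint_right.1 h3.2 hu⟩
      rcases h2 with h2 | h2 | h2
      · subst h2
        exact hyB hu
      · subst h2
        exact huA.1 h1
      · rcases nb_B1 h1 h2 with h3 | h3
        · exact huA.1 h3
        · exact huA.2 h3
    have h2 : b ∉ B := fun h1 => hs.2 (mem_N1.2 ⟨hsB, b, h1, hsb⟩)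
    rcases h.cases h1 h2 with h3 | h3 | h3
    · rw [hS, mem_singleton] at h3
      subst h3
      exact absurd hsb (G.irr _)
    · rw [hY, mem_singleton] at h3
      subst h3
      exact absurd (mem_cl1.2 (Or.inl rfl)) hxb
    · exact h3
  exact ⟨Or.inr (Or.inr ⟨hlow, a, haC, G.sym _ _ hya⟩), Or.inl ⟨b, hbC, G.sym _ _ hsb, hb⟩⟩

/-- the pair of `LL` is in `C` -/
theorem St1.llC (h : G.St1 A B) (hS : G.N A \ G.N B = {s})
    (hY : G.N B \ G.N A = {y}) {a b : V} (hl : G.LL a b y s) :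
    G.Has1 (G.N A ∩ G.N B) y := by
  have hs : s ∈ G.N A \ G.N B := by rw [hS]; exact mem_singleton_self s
  have hy : y ∈ G.N B \ G.N A := by rw [hY]; exact mem_singleton_self y
  rw [mem_sdiff] at hs hy
  obtain ⟨hsA, hsB⟩ := h.NA hs.1
  obtain ⟨hyB, hyA⟩ := h.symm.NA hy.1
  have hya := ll_nb1 hl
  have hsb := ll_nb1 (ll_symm1 hl)
  obtain ⟨h1, h2, h3, h4, h5, h6, h7⟩ := hl
  have haA : a ∉ A := fun h1 => hy.2 (mem_N1.2 ⟨hyA, a, h1, hya⟩)
  have hbB : b ∉ B := fun h1 => hs.2 (mem_N1.2 ⟨hsB, b, h1, hsb⟩)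
  have haB : a ∉ B := by
    intro haB
    have hbN := (nb_B1 (G := G) haB h3).resolve_left hbB
    have hbA : b ∉ A := (h.symm.NA hbN).2
    have hbC : b ∈ G.N A ∩ G.N B := by
      rcases h.cases hbA hbB with h8 | h8 | h8
      · exact absurd hbN (mem_sdiff.1 h8).2
      · rw [hY, mem_singleton] at h8
        subst h8
        exact absurd (mem_cl1.2 (Or.inl rfl)) h5
      · exact h8
    rw [mem_inter] at hbC
    obtain ⟨-, u, hu, hbu⟩ := mem_N1.1 hbC.1
    have huB : u ∉ B ∧ u ∉ G.N B := by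
      have h9 := h.reg.dis B (by simp) A (by simp) h.ne.symm
      exact ⟨disjoint_right.1 h9.1 hu, disjoint_right.1 h9.2 hu⟩
    have h8 : u ∈ insert s (G.cl a) := by
      rw [h7]
      exact mem_insert_of_mem (mem_cl1.2 (Or.inr (G.sym _ _ hbu)))
    rw [mem_insert, mem_cl1] at h8
    rcases h8 with h8 | h8 | h8
    · subst h8
      exact hsA hu
    · subst h8
      exact huB.1 haB
    · rcases nb_B1 haB h8 with h9 | h9
      · exact huB.1 h9
      · exact huB.2 h9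
  have haC : a ∈ G.N A ∩ G.N B := by
    rcases h.cases haA haB with h8 | h8 | h8
    · rw [hS, mem_singleton] at h8
      subst h8
      exact absurd (mem_cl1.2 (Or.inl rfl)) h6
    · rw [hY, mem_singleton] at h8
      subst h8
      exact absurd hya (G.irr _)
    · exact h8
  exact Or.inl ⟨a, haC, G.sym _ _ hya, h1⟩

theorem St1.cover (h : G.St1 A B) (hsat : G.Sat) (hsm : G.StSmall) (hS : G.N A \ G.N B = {s})
    (hY : G.N B \ G.N A = {y}) (hcov : G.SCov y s) :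
    G.Has1 (G.N A ∩ G.N B) y ∧ G.Has1 (G.N A ∩ G.N B) s := by
  have hs : s ∈ G.N A \ G.N B := by rw [hS]; exact mem_singleton_self s
  have hy : y ∈ G.N B \ G.N A := by rw [hY]; exact mem_singleton_self y
  rw [mem_sdiff] at hs hy
  obtain ⟨hsA, hsB⟩ := h.NA hs.1
  obtain ⟨hyB, hyA⟩ := h.symm.NA hy.1
  have hsym := h.symm
  have hcomm : G.N B ∩ G.N A = G.N A ∩ G.N B := inter_comm _ _
  have hys := h.adj hS hY
  have hne : y ≠ s := by
    rintro rfl
    exact G.irr _ hys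
  have hC : ∀ w, y ∈ G.nb w → s ∈ G.nb w → w ∈ G.N A ∩ G.N B := by
    intro w h1 h2
    have h3 : w ∉ A := fun h3 => hy.2 (mem_N1.2 ⟨hyA, w, h3, h1⟩)
    have h4 : w ∉ B := fun h4 => hs.2 (mem_N1.2 ⟨hsB, w, h4, h2⟩)
    rcases h.cases h3 h4 with h5 | h5 | h5
    · rw [hS, mem_singleton] at h5
      subst h5
      exact absurd h2 (G.irr _)
    · rw [hY, mem_singleton] at h5
      subst h5
      exact absurd h1 (G.irr _)
    · exact h5
  obtain ⟨E, hE, hEc, hyE, hsE⟩ := hcov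
  rcases hsm E hE hEc y s hyE hsE hne with h1 | h1 | h1 | h1 | h1
  · obtain ⟨w, -, h2, h3, h4⟩ := h1
    have h5 := hC w h3 h4
    exact ⟨Or.inl ⟨w, h5, G.sym _ _ h3, h2⟩, Or.inl ⟨w, h5, G.sym _ _ h4, h2⟩⟩
  · obtain ⟨v, -, w, -, h2, h3, h4, h5, h6⟩ := h1
    have hvC := hC v h3 h4
    have hcl := h2.2.2
    have hyw : y ∈ G.nb w := by
      have h7 : y ∈ G.cl w := by rw [← hcl]; exact mem_cl1.2 (Or.inr h3)
      exact (mem_cl1.1 h7).resolve_left h5
    have hsw : s ∈ G.nb w := by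
      have h7 : s ∈ G.cl w := by rw [← hcl]; exact mem_cl1.2 (Or.inr h4)
      exact (mem_cl1.1 h7).resolve_left h6
    have hwC := hC w hyw hsw
    have hvw : v ≠ w := by
      rintro rfl
      exact G.irr _ h2.1
    have hv : G.IsTw v := ⟨w, h2⟩
    have hw : G.IsTw w := by
      refine ⟨v, G.sym _ _ h2.1, ?_, hcl.symm⟩
      have h8 := congrArg Finset.card hcl
      unfold cl at h8
      rw [card_insert_of_notMem (G.irr v), card_insert_of_notMem (G.irr w), h2.2.1] at h8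
      omega
    exact ⟨Or.inr (Or.inl ⟨v, hvC, w, hwC, hvw, G.sym _ _ h3, G.sym _ _ hyw, hv, hw⟩),
      Or.inr (Or.inl ⟨v, hvC, w, hwC, hvw, G.sym _ _ h4, G.sym _ _ hsw, hv, hw⟩)⟩
  · obtain ⟨a, -, b, -, h2, h3, h4⟩ := h1
    exact h.hlC hsat hS hY h2 h3 h4
  · obtain ⟨a, -, b, -, h2, h3, h4⟩ := h1
    have h5 := hsym.hlC hsat hY hS h2 h3 h4
    rw [hcomm] at h5
    exact h5.symm
  · obtain ⟨a, -, b, -, h2⟩ := h1
    have h5 := hsym.llC hY hS (ll_symm1 h2)
    rw [hcomm] at h5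
    exact ⟨h.llC hS hY h2, h5⟩

end one

/-- U14 -/
theorem stThin1_1 (G : CG V) (hsm : G.StSmall) : G.StThin1 := by
  intro A B hst hc hcov
  have h : G.St1 A B := ⟨hst.ne, hst.reg, hst.sub⟩
  obtain ⟨s, hS⟩ := card_eq_one.1 hc
  obtain ⟨y, hY⟩ := card_eq_one.1 (h.card_eq.symm.trans hc)
  have hs : s ∈ G.N A \ G.N B := by rw [hS]; exact mem_singleton_self s
  have hy : y ∈ G.N B \ G.N A := by rw [hY]; exact mem_singleton_self y
  have hys := h.adj hS hY
  obtain ⟨h1, h2⟩ := h.cover hst.sat hsm hS hY (hcov y hy s hs (G.sym _ _ hys))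
  have h3 := has_two1 h1
  have h4 := has_two1 h2
  have htot := h.total hS hY
  refine ⟨by linarith, ?_⟩
  intro s' hs' hlow q hq q' hq' hne hqs hqs' hqt hqt'
  rw [hS, mem_singleton] at hs'
  subst hs'
  have h0 : ∀ c ∈ G.nb s' ∩ (G.N A ∩ G.N B), 0 ≤ G.c4 s' + G.c4 c := fun c _ =>
    add_nonneg (c4_nonneg1 _) (c4_nonneg1 c)
  have hsub : ({q, q'} : Finset V) ⊆ G.nb s' ∩ (G.N A ∩ G.N B) := by
    intro x hx
    rw [mem_insert, mem_singleton] at hx
    rcases hx with rfl | rfl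
    · exact mem_inter.2 ⟨hqs, hq⟩
    · exact mem_inter.2 ⟨hqs', hq'⟩
  have h5 := sum_le_sum_of_subset_of_nonneg hsub fun c hc _ => h0 c hc
  rw [sum_pair hne, c4_tw1 hqt, c4_tw1 hqt', c4_low1 hlow] at h5
  rw [htot, c4_low1 hlow]
  linarith

end CG

end Pool.Agent.Lib.MP_e95c01_co.N
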