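import Pool.Agent.Lib.MP_e95c01_co.U.StThin1_1

/-!
# U15: thin torsos with two vertices on each side
-/

namespace Pool.Agent.Lib.MP_e95c01_co.N

open Finset

variable {V : Type} [Fintype V] [DecidableEq V]

namespace CG

variable {G : CG V} {A B : Finset V}

/-- the contribution of a vertex in exactly one of the two neighbourhoods, together with what it
brings to the common part -/
noncomputable def W2 (G : CG V) (A B : Finset V) (x : V) : ℤ :=
  G.a4 x + G.c4 x * ((G.d x (G.Co A) : ℤ) - (G.d x A : ℤ)) +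
    ∑ c ∈ G.nb x ∩ (G.N A ∩ G.N B), G.c4 c

theorem St1.notB (h : G.St1 A B) {x : V} (hx : x ∈ G.N A \ G.N B) {u : V}
    (hu : u ∈ G.nb x) : u ∉ B := by
  intro h1
  exact (mem_sdiff.1 hx).2 (mem_N1.2 ⟨(h.NA (mem_sdiff.1 hx).1).2, u, h1, G.sym _ _ hu⟩)

/-- neighbours of `x`, split in three parts -/
theorem deg_split2 (A : Finset V) (x : V) :
    (G.nb x).card = G.d x A + G.d x (G.Co A) + (G.nb x ∩ G.N A).card := by
  have h1 : G.nb x = (G.nb x ∩ A) ∪ ((G.nb x ∩ G.Co A) ∪ (G.nb x ∩ G.N A)) := by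
    ext v
    simp only [mem_union, mem_inter, mem_Co1]
    tauto
  have h2 : Disjoint (G.nb x ∩ G.Co A) (G.nb x ∩ G.N A) := by
    rw [disjoint_left]
    intro v h3 h4
    exact (mem_Co1.1 (mem_inter.1 h3).2).2 (mem_inter.1 h4).2
  have h3 : Disjoint (G.nb x ∩ A) ((G.nb x ∩ G.Co A) ∪ (G.nb x ∩ G.N A)) := by
    rw [disjoint_left]
    intro v h3 h4
    rcases mem_union.1 h4 with h5 | h5
    · exact (mem_Co1.1 (mem_inter.1 h5).2).1 (mem_inter.1 h3).2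
    · exact (mem_N1.1 (mem_inter.1 h5).2).1 (mem_inter.1 h3).2
  have h4 := congrArg Finset.card h1
  rw [card_union_of_disjoint h3, card_union_of_disjoint h2] at h4
  unfold d
  omega

theorem St1.D1s (h : G.St1 A B) {x : V} (hx : x ∈ G.N A \ G.N B) :
    G.D1 {A, B} x = G.a4 x + G.c4 x * ((G.d x (G.Co A) : ℤ) - (G.d x A : ℤ)) := by
  have hI := St1.IA hx
  have hxA := h.NA (mem_sdiff.1 hx).1
  have hnR : G.nR {A, B} x = (G.nb x ∩ G.Co A) ∪ (G.nb x ∩ G.N A) := by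
    ext v
    unfold nR
    rw [mem_inter, memR2_1, mem_union, mem_inter, mem_inter, mem_Co1]
    constructor
    · rintro ⟨h1, h2, -⟩
      by_cases h3 : v ∈ G.N A
      · exact Or.inr ⟨h1, h3⟩
      · exact Or.inl ⟨h1, h2, h3⟩
    · rintro (⟨h1, h2, -⟩ | ⟨h1, h2⟩)
      · exact ⟨h1, h2, h.notB hx h1⟩
      · exact ⟨h1, h.NA h2⟩
  have hdis : Disjoint (G.nb x ∩ G.Co A) (G.nb x ∩ G.N A) := by
    rw [disjoint_left]
    intro v h3 h4
    exact (mem_Co1.1 (mem_inter.1 h3).2).2 (mem_inter.1 h4).2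
  have h1 : ∀ v ∈ G.nb x ∩ G.Co A, (2 - (G.m {A, B} v x : ℤ)) = 2 := by
    intro v hv
    have h2 : G.m {A, B} v x = 0 := by
      unfold m
      rw [hI, card_eq_zero]
      ext D
      simp only [mem_inter, mem_singleton, notMem_empty, iff_false, not_and]
      intro h3 h4
      subst h4
      exact (mem_Co1.1 (mem_inter.1 hv).2).2 (memI2_1.1 h3).2
    rw [h2]
    norm_num
  have h2 : ∀ v ∈ G.nb x ∩ G.N A, (2 - (G.m {A, B} v x : ℤ)) = 1 := by
    intro v hv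
    have h2 : G.m {A, B} v x = 1 := by
      unfold m
      rw [hI, inter_singleton_of_mem (memI2_1.2 ⟨Or.inl rfl, (mem_inter.1 hv).2⟩), card_singleton]
    rw [h2]
    norm_num
  have hdeg := deg_split2 (G := G) A x
  unfold D1
  rw [hI, card_singleton, hnR, sum_union hdis, sum_congr rfl h1, sum_congr rfl h2, sum_const,
    sum_const, hdeg]
  unfold d
  push_cast
  simp only [nsmul_eq_mul]
  ring

theorem St1.D1c (h : G.St1 A B) {c : V} (hc : c ∈ G.N A ∩ G.N B) :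
    G.D1 {A, B} c = ∑ x ∈ G.N A \ G.N B, (if x ∈ G.nb c then G.c4 c else 0) +
      ∑ x ∈ G.N B \ G.N A, (if x ∈ G.nb c then G.c4 c else 0) := by
  have hI := St1.IC hc
  have h1 : ∑ x ∈ G.nR {A, B} c, (2 - (G.m {A, B} x c : ℤ)) =
      ∑ x ∈ G.N A \ G.N B, (if x ∈ G.nb c then (1 : ℤ) else 0) +
      ∑ x ∈ G.N B \ G.N A, (if x ∈ G.nb c then (1 : ℤ) else 0) := by
    unfold nR
    rw [inter_comm, ← filter_mem_eq_inter, sum_filter, h.sum]
    have h2 : ∑ x ∈ G.N A ∩ G.N B, (if x ∈ G.nb c then (2 - (G.m {A, B} x c : ℤ)) else 0) = 0 := by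
      apply sum_eq_zero
      intro x hx
      have h3 : G.m {A, B} x c = 2 := by
        unfold m
        rw [St1.IC hx, hI, inter_self, card_pair h.ne]
      rw [h3]
      norm_num
    have h4 : ∀ x ∈ G.N A \ G.N B, (if x ∈ G.nb c then (2 - (G.m {A, B} x c : ℤ)) else 0) =
        (if x ∈ G.nb c then (1 : ℤ) else 0) := by
      intro x hx
      have h3 : G.m {A, B} x c = 1 := by
        unfold m
        rw [St1.IA hx, hI, singleton_inter_of_mem (mem_insert_self _ _), card_singleton]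
      rw [h3]
      norm_num
    have h5 : ∀ x ∈ G.N B \ G.N A, (if x ∈ G.nb c then (2 - (G.m {A, B} x c : ℤ)) else 0) =
        (if x ∈ G.nb c then (1 : ℤ) else 0) := by
      intro x hx
      have h6 : G.I {A, B} x = {B} := by
        rw [pair_comm]
        exact St1.IA hx
      have h3 : G.m {A, B} x c = 1 := by
        unfold m
        rw [h6, hI, singleton_inter_of_mem (by simp), card_singleton]
      rw [h3]
      norm_num
    rw [h2, sum_congr rfl h4, sum_congr rfl h5]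
    ring
  unfold D1
  rw [h1, hI, card_pair h.ne, mul_add, mul_add, mul_sum, mul_sum]
  have h6 : ∀ x : V, G.c4 c * (if x ∈ G.nb c then (1 : ℤ) else 0) =
      (if x ∈ G.nb c then G.c4 c else 0) := by
    intro x
    split_ifs <;> ring
  simp only [h6]
  push_cast
  ring

theorem St1.total2 (h : G.St1 A B) :
    ∑ z ∈ R {A, B}, G.ch4 {A, B} z = ∑ x ∈ G.N A \ G.N B, G.W2 A B x +
      ∑ x ∈ G.N B \ G.N A, G.W2 B A x := by
  have hcomm : ({B, A} : Finset (Finset V)) = {A, B} := pair_comm B A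
  rw [sum_ch4_1, h.sum, sum_congr rfl fun x hx => h.D1s hx]
  have h1 : ∀ x ∈ G.N B \ G.N A, G.D1 {A, B} x =
      G.a4 x + G.c4 x * ((G.d x (G.Co B) : ℤ) - (G.d x B : ℤ)) := by
    intro x hx
    rw [← hcomm]
    exact h.symm.D1s hx
  rw [sum_congr rfl h1, sum_congr rfl fun c hc => h.D1c hc,
    sum_add_distrib (s := G.N A ∩ G.N B)]
  have h2 : ∀ S : Finset V, ∑ c ∈ G.N A ∩ G.N B, ∑ x ∈ S, (if x ∈ G.nb c then G.c4 c else 0) =
      ∑ x ∈ S, ∑ c ∈ G.nb x ∩ (G.N A ∩ G.N B), G.c4 c := by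
    intro S
    rw [sum_comm]
    apply sum_congr rfl
    intro u _
    rw [← sum_filter]
    apply sum_congr _ fun _ _ => rfl
    ext c
    constructor
    · intro h3
      rw [mem_filter] at h3
      exact mem_inter.2 ⟨G.sym _ _ h3.2, h3.1⟩
    · intro h3
      obtain ⟨h4, h5⟩ := mem_inter.1 h3
      exact mem_filter.2 ⟨h5, G.sym _ _ h4⟩
  rw [h2, h2]
  have h3 : ∀ (S : Finset V) (f g : V → ℤ), ∑ x ∈ S, f x + ∑ x ∈ S, g x = ∑ x ∈ S, (f x + g x) :=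
    fun S f g => sum_add_distrib.symm
  unfold W2
  rw [inter_comm (G.N B) (G.N A), ← h3 (G.N A \ G.N B)
    (fun x => G.a4 x + G.c4 x * ((G.d x (G.Co A) : ℤ) - (G.d x A : ℤ))), ← h3 (G.N B \ G.N A)
    (fun x => G.a4 x + G.c4 x * ((G.d x (G.Co B) : ℤ) - (G.d x B : ℤ)))]
  ring

theorem St1.comp2 (h : G.St1 A B) (hY : (G.N B \ G.N A).card = 2) {x : V}
    (hx : x ∈ G.N A \ G.N B) (hd : 2 ≤ G.d x (G.Co A)) :
    G.nb x ∩ G.Co A = G.N B \ G.N A := by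
  apply eq_of_subset_of_card_le
  · intro u hu
    have h1 := mem_inter.1 hu
    have h2 := mem_Co1.1 h1.2
    have h3 := h.notB hx h1.1
    rcases h.cases h2.1 h3 with h4 | h4 | h4
    · exact absurd (mem_sdiff.1 h4).1 h2.2
    · exact h4
    · exact absurd (mem_inter.1 h4).1 h2.2
  · rw [hY]
    exact hd

/-- two vertices on each side -/
structure St2 (G : CG V) (A B : Finset V) : Prop where
  st : G.St1 A B
  cS : (G.N A \ G.N B).card = 2
  cY : (G.N B \ G.N A).card = 2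
  adj : ∀ x ∈ G.N A \ G.N B, ∀ y ∈ G.N B \ G.N A, y ∈ G.nb x
  rS : ∀ x ∈ G.N A \ G.N B, G.d x (G.Co A) = 2
  rY : ∀ y ∈ G.N B \ G.N A, G.d y (G.Co B) = 2
  n9 : 9 ≤ Fintype.card V
  sat : G.Sat
  tw : G.StTwHL
  cov : G.CovU {A, B}
  bigA : 3 ≤ A.card
  bigB : 3 ≤ B.card

theorem St2.mk2 (hst : G.Strip A B) (hc : (G.N A \ G.N B).card = 2) (hcov : G.CovU {A, B})
    (hd : ∀ z ∈ R {A, B}, ∀ D, G.I {A, B} z = {D} → 2 ≤ G.d z (G.Co D)) (htw : G.StTwHL) :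
    G.St2 A B := by
  have h : G.St1 A B := ⟨hst.ne, hst.reg, hst.sub⟩
  have hc' : (G.N B \ G.N A).card = 2 := h.card_eq.symm.trans hc
  have hdS : ∀ x ∈ G.N A \ G.N B, 2 ≤ G.d x (G.Co A) := by
    intro x hx
    exact hd x (by rw [memR2_1]; exact h.NA (mem_sdiff.1 hx).1) A (St1.IA hx)
  have hdY : ∀ x ∈ G.N B \ G.N A, 2 ≤ G.d x (G.Co B) := by
    intro x hx
    refine hd x (by rw [memR2_1]; exact (h.symm.NA (mem_sdiff.1 hx).1).symm) B ?_
    rw [pair_comm]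
    exact St1.IA hx
  refine ⟨h, hc, hc', ?_, ?_, ?_, hst.n9, hst.sat, htw, hcov, hst.bigA, hst.bigB⟩
  · intro x hx y hy
    have h1 := h.comp2 hc' hx (hdS x hx)
    rw [← h1] at hy
    exact (mem_inter.1 hy).1
  · intro x hx
    unfold d
    rw [h.comp2 hc' hx (hdS x hx), hc']
  · intro x hx
    unfold d
    rw [h.symm.comp2 hc hx (hdY x hx), hc]

theorem cov_symm2 {S : Finset V} {x z : V} (h : G.CovIn S x z) : G.CovIn S z x := by
  rcases h with ⟨w, h1, h2, h3, h4⟩ | ⟨v, h1, w, h2, h3, h4, h5, h6, h7⟩ | h | h |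
    ⟨a, ha, b, hb, h⟩
  · exact Or.inl ⟨w, h1, h2, h4, h3⟩
  · exact Or.inr (Or.inl ⟨v, h1, w, h2, h3, h5, h4, h7, h6⟩)
  · exact Or.inr (Or.inr (Or.inr (Or.inl h)))
  · exact Or.inr (Or.inr (Or.inl h))
  · exact Or.inr (Or.inr (Or.inr (Or.inr ⟨b, hb, a, ha, ll_symm1 h⟩)))

theorem m_zero2 {x y : V} (h : G.St1 A B) (hx : x ∈ G.N A \ G.N B) (hy : y ∈ G.N B \ G.N A) :
    G.m {A, B} x y = 0 := by
  have h6 : G.I {A, B} y = {B} := by
    rw [pair_comm]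
    exact St1.IA hy
  unfold m
  rw [St1.IA hx, h6, card_eq_zero, ← disjoint_iff_inter_eq_empty, disjoint_singleton]
  exact h.ne

theorem St2.symm (h : G.St2 A B) : G.St2 B A := by
  refine ⟨h.st.symm, h.cY, h.cS, ?_, h.rY, h.rS, h.n9, h.sat, h.tw, ?_, h.bigB, h.bigA⟩
  · intro x hx y hy
    exact G.sym _ _ (h.adj y hy x hx)
  · rw [pair_comm]
    exact h.cov

theorem St2.cv (h : G.St2 A B) {x y : V} (hx : x ∈ G.N A \ G.N B) (hy : y ∈ G.N B \ G.N A) :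
    G.CovIn (R {A, B}) x y := by
  refine h.cov x ?_ y ?_ (h.adj x hx y hy) (m_zero2 h.st hx hy)
  · rw [memR2_1]
    exact h.st.NA (mem_sdiff.1 hx).1
  · rw [memR2_1]
    exact (h.st.symm.NA (mem_sdiff.1 hy).1).symm

theorem St2.loc (h : G.St2 A B) {w : V} (hw : w ∈ R {A, B}) :
    w ∈ (G.N A \ G.N B) ∪ (G.N B \ G.N A) ∨ w ∈ G.N A ∩ G.N B := by
  rw [memR2_1] at hw
  rcases h.st.cases hw.1 hw.2 with h1 | h1 | h1
  · exact Or.inl (mem_union_left _ h1)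
  · exact Or.inl (mem_union_right _ h1)
  · exact Or.inr h1

/-! ### values -/

theorem v_nonneg2 (S : Finset V) : 0 ≤ ∑ c ∈ S, G.c4 c := sum_nonneg fun c _ => c4_nonneg1 c

theorem v_low2 {S : Finset V} {c : V} (hc : c ∈ S) (hl : G.Low c) : 2 ≤ ∑ c ∈ S, G.c4 c := by
  have h1 : G.c4 c ≤ ∑ c ∈ S, G.c4 c := single_le_sum (fun c _ => c4_nonneg1 c) hc
  rw [c4_low1 hl] at h1
  exact h1

theorem v_tw2 {S : Finset V} {c c' : V} (hc : c ∈ S) (hc' : c' ∈ S) (hne : c ≠ c')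
    (h1 : G.IsTw c) (h2 : G.IsTw c') : 2 ≤ ∑ c ∈ S, G.c4 c := by
  have hsub : ({c, c'} : Finset V) ⊆ S := by
    intro x hx
    rw [mem_insert, mem_singleton] at hx
    rcases hx with rfl | rfl
    · exact hc
    · exact hc'
  have h3 := sum_le_sum_of_subset_of_nonneg (f := fun c => G.c4 c) hsub
    fun c _ _ => c4_nonneg1 c
  rw [sum_pair hne, c4_tw1 h1, c4_tw1 h2] at h3
  exact h3

theorem u_nonneg2 (S : Finset V) : 0 ≤ ∑ c ∈ S, (1 + G.c4 c) :=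
  sum_nonneg fun c _ => add_nonneg zero_le_one (c4_nonneg1 c)

theorem u_low2 {S : Finset V} {c : V} (hc : c ∈ S) (hl : G.Low c) :
    3 ≤ ∑ c ∈ S, (1 + G.c4 c) := by
  have h1 : 1 + G.c4 c ≤ ∑ c ∈ S, (1 + G.c4 c) :=
    single_le_sum (fun c _ => add_nonneg zero_le_one (c4_nonneg1 c)) hc
  rw [c4_low1 hl] at h1
  linarith

theorem u_two2 {S : Finset V} {c c' : V} (hc : c ∈ S) (hc' : c' ∈ S) (hne : c ≠ c') :
    (1 + G.c4 c) + (1 + G.c4 c') ≤ ∑ c ∈ S, (1 + G.c4 c) := by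
  have hsub : ({c, c'} : Finset V) ⊆ S := by
    intro x hx
    rw [mem_insert, mem_singleton] at hx
    rcases hx with rfl | rfl
    · exact hc
    · exact hc'
  have h3 := sum_le_sum_of_subset_of_nonneg (f := fun c => 1 + G.c4 c) hsub
    fun c _ _ => add_nonneg zero_le_one (c4_nonneg1 c)
  rw [sum_pair hne] at h3
  exact h3

/-- `nb x ∩ N A` in two parts -/
theorem nA_split2 (x : V) : (G.nb x ∩ G.N A).card =
    (G.nb x ∩ (G.N A \ G.N B)).card + (G.nb x ∩ (G.N A ∩ G.N B)).card := by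
  have h1 : G.nb x ∩ G.N A = (G.nb x ∩ (G.N A \ G.N B)) ∪ (G.nb x ∩ (G.N A ∩ G.N B)) := by
    ext v
    simp only [mem_union, mem_inter, mem_sdiff]
    tauto
  have h2 : Disjoint (G.nb x ∩ (G.N A \ G.N B)) (G.nb x ∩ (G.N A ∩ G.N B)) := by
    rw [disjoint_left]
    intro v h3 h4
    exact (mem_sdiff.1 (mem_inter.1 h3).2).2 (mem_inter.1 (mem_inter.1 h4).2).2
  rw [h1, card_union_of_disjoint h2]

theorem St2.Wlow (h : G.St2 A B) {x : V} (hx : x ∈ G.N A \ G.N B) (hl : G.Low x) :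
    G.W2 A B x = 2 + 2 * ((G.nb x ∩ G.N A).card : ℤ) +
      ∑ c ∈ G.nb x ∩ (G.N A ∩ G.N B), G.c4 c := by
  have h1 := deg_split2 (G := G) A x
  have h2 := h.rS x hx
  have h3 : (G.nb x).card = 6 := hl
  unfold W2
  rw [c4_low1 hl]
  unfold a4
  rw [if_pos hl, h2]
  have h4 : (G.d x A : ℤ) = 4 - ((G.nb x ∩ G.N A).card : ℤ) := by omega
  rw [h4]
  push_cast
  ring

theorem St2.Wlow' (h : G.St2 A B) {x : V} (hx : x ∈ G.N A \ G.N B) (hl : G.Low x) :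
    2 ≤ G.W2 A B x := by
  have h1 := h.Wlow hx hl
  have h2 := v_nonneg2 (G := G) (G.nb x ∩ (G.N A ∩ G.N B))
  have h3 : (0 : ℤ) ≤ ((G.nb x ∩ G.N A).card : ℤ) := Int.natCast_nonneg _
  linarith

theorem St2.Whub {x : V} (hl : ¬ G.Low x) (ht : ¬ G.IsTw x) :
    G.W2 A B x = -2 + ∑ c ∈ G.nb x ∩ (G.N A ∩ G.N B), G.c4 c := by
  unfold W2
  rw [c4_hub1 hl ht]
  unfold a4
  rw [if_neg hl]
  ring

theorem St2.twS (h : G.St2 A B) {v : V} (hv : v ∈ G.N A \ G.N B) (ht : G.IsTw v) :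
    ∃ v', G.N A \ G.N B = {v, v'} ∧ v ≠ v' ∧ G.Tw v v' ∧ G.Tw v' v := by
  obtain ⟨v', hv'⟩ := ht
  have hvR : v ∈ R {A, B} := by
    rw [memR2_1]
    exact h.st.NA (mem_sdiff.1 hv).1
  obtain ⟨h1, h2⟩ := h.tw.twI {A, B} h.st.reg v hvR v' hv'
  have h3 := St1.IA hv
  rw [h3] at h2
  have h4 : v' ∈ G.N A \ G.N B := by
    rw [mem_sdiff]
    constructor
    · have h5 : A ∈ G.I {A, B} v' := by rw [h2]; exact mem_singleton_self _
      exact (memI2_1.1 h5).2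
    · intro h5
      have h6 : B ∈ G.I {A, B} v' := memI2_1.2 ⟨Or.inr rfl, h5⟩
      rw [h2, mem_singleton] at h6
      exact h.st.ne h6.symm
  have hne : v ≠ v' := by
    rintro rfl
    exact G.irr _ hv'.1
  refine ⟨v', ?_, hne, hv', h.tw.symm _ _ hv'⟩
  symm
  apply eq_of_subset_of_card_le
  · intro u hu
    rw [mem_insert, mem_singleton] at hu
    rcases hu with rfl | rfl
    · exact hv
    · exact h4
  · rw [h.cS, card_pair hne]

/-- a pair of twins on one side -/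
theorem St2.Wtw (h : G.St2 A B) {v v' : V} (hS : G.N A \ G.N B = {v, v'}) (hne : v ≠ v')
    (h1 : G.Tw v v') (h2 : G.Tw v' v) :
    G.nb v' ∩ (G.N A ∩ G.N B) = G.nb v ∩ (G.N A ∩ G.N B) ∧
    (G.nb v ∩ (G.N A ∩ G.N B)).card ≤ 2 ∧
    G.W2 A B v = -4 + ∑ c ∈ G.nb v ∩ (G.N A ∩ G.N B), (1 + G.c4 c) ∧
    G.W2 A B v' = -4 + ∑ c ∈ G.nb v ∩ (G.N A ∩ G.N B), (1 + G.c4 c) := by
  have hvS : v ∈ G.N A \ G.N B := by rw [hS]; exact mem_insert_self _ _
  have hvS' : v' ∈ G.N A \ G.N B := by rw [hS]; simp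
  have heq : G.nb v' ∩ (G.N A ∩ G.N B) = G.nb v ∩ (G.N A ∩ G.N B) := by
    ext c
    rw [mem_inter (s₁ := G.nb v'), mem_inter (s₁ := G.nb v)]
    have h5 : ∀ u u' : V, G.Tw u u' → u ∈ G.N A \ G.N B → u' ∈ G.N A \ G.N B →
        c ∈ G.N A ∩ G.N B → c ∈ G.nb u → c ∈ G.nb u' := by
      intro u u' h6 h7 h8 h9 h10
      have h11 : c ∈ G.cl u' := by rw [← h6.2.2]; exact mem_cl1.2 (Or.inr h10)
      rcases mem_cl1.1 h11 with h12 | h12
      · subst h12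
        exact absurd (mem_inter.1 h9).2 (mem_sdiff.1 h8).2
      · exact h12
    constructor
    · rintro ⟨h6, h7⟩
      exact ⟨h5 v' v h2 hvS' hvS h7 h6, h7⟩
    · rintro ⟨h6, h7⟩
      exact ⟨h5 v v' h1 hvS hvS' h7 h6, h7⟩
  have key : ∀ u u' : V, G.N A \ G.N B = {u, u'} → u ≠ u' → G.Tw u u' →
      (G.nb u ∩ (G.N A ∩ G.N B)).card ≤ 2 ∧
      G.W2 A B u = -4 + ∑ c ∈ G.nb u ∩ (G.N A ∩ G.N B), (1 + G.c4 c) := by
    intro u u' hS' hne' h6
    have huS : u ∈ G.N A \ G.N B := by rw [hS']; exact mem_insert_self _ _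
    have h7 := deg_split2 (G := G) A u
    have h8 := nA_split2 (G := G) (A := A) (B := B) u
    have h9 : G.nb u ∩ (G.N A \ G.N B) = {u'} := by
      rw [hS']
      ext w
      simp only [mem_inter, mem_insert, mem_singleton]
      constructor
      · rintro ⟨h10, h11 | h11⟩
        · subst h11
          exact absurd h10 (G.irr _)
        · exact h11
      · rintro rfl
        exact ⟨h6.1, Or.inr rfl⟩
    rw [h9, card_singleton] at h8
    have h10 := h.rS u huS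
    have h11 := h6.2.1
    have huR : u ∈ R {A, B} := by
      rw [memR2_1]
      exact h.st.NA (mem_sdiff.1 huS).1
    have hbig : ∀ D ∈ ({A, B} : Finset (Finset V)), 3 ≤ D.card := by
      intro D hD
      rw [mem_insert, mem_singleton] at hD
      rcases hD with rfl | rfl
      · exact h.bigA
      · exact h.bigB
    have h12 : 2 ≤ G.d u A := h.tw.hid {A, B} h.st.reg hbig u huR ⟨u', h6⟩ A
      (by rw [St1.IA huS]; exact mem_singleton_self _)
    refine ⟨by omega, ?_⟩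
    have hlow : ¬ G.Low u := by
      intro h13
      unfold Low at h13
      omega
    unfold W2
    rw [c4_tw1 ⟨u', h6⟩]
    unfold a4
    rw [if_neg hlow, h10, sum_add_distrib, sum_const]
    have h4 : (G.d u A : ℤ) = 4 - ((G.nb u ∩ (G.N A ∩ G.N B)).card : ℤ) := by omega
    rw [h4]
    simp only [nsmul_eq_mul]
    push_cast
    ring
  obtain ⟨k1, k2⟩ := key v v' hS hne h1
  obtain ⟨-, k4⟩ := key v' v (by rw [hS, pair_comm]) hne.symm h2
  rw [heq] at k4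
  exact ⟨heq, k1, k2, k4⟩

/-! ### covers -/

theorem tw_low2 {v : V} (h : G.IsTw v) : ¬ G.Low v := by
  obtain ⟨w, -, h1, -⟩ := h
  intro h2
  unfold Low at h2
  omega

/-- cover of an edge `x z`, `z` not low; the only low vertex of the two sides may be `x` -/
theorem St2.covA (h : G.St2 A B) {x z : V} (hcov : G.CovIn (R {A, B}) x z) (hzl : ¬ G.Low z)
    (honly : ∀ w ∈ (G.N A \ G.N B) ∪ (G.N B \ G.N A), G.Low w → w = x)
    (hnt : ∀ w ∈ (G.N A \ G.N B) ∪ (G.N B \ G.N A), ¬ G.IsTw w) :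
    2 ≤ ∑ c ∈ G.nb z ∩ (G.N A ∩ G.N B), G.c4 c := by
  have hlow : ∀ w ∈ R {A, B}, G.Low w → w ≠ x → z ∈ G.nb w →
      2 ≤ ∑ c ∈ G.nb z ∩ (G.N A ∩ G.N B), G.c4 c := by
    intro w hw hl hne hzw
    rcases h.loc hw with h1 | h1
    · exact absurd (honly w h1 hl) hne
    · exact v_low2 (mem_inter.2 ⟨G.sym _ _ hzw, h1⟩) hl
  rcases hcov with ⟨w, h1, h2, h3, h4⟩ | ⟨v, h1, w, h2, h3, h4, h5, h6, h7⟩ |
    ⟨a, ha, b, hb, h1, h2, h3⟩ | ⟨a, ha, b, hb, h1, h2, h3⟩ | ⟨a, ha, b, hb, h1⟩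
  · refine hlow w h1 h2 ?_ h4
    rintro rfl
    exact G.irr _ h3
  · have h8 := h.tw.symm _ _ h3
    have hv : v ∈ G.N A ∩ G.N B := (h.loc h1).resolve_left fun h9 => hnt v h9 ⟨w, h3⟩
    have hw : w ∈ G.N A ∩ G.N B := (h.loc h2).resolve_left fun h9 => hnt w h9 ⟨v, h8⟩
    have hzw : z ∈ G.nb w := by
      have h9 : z ∈ G.cl w := by rw [← h3.2.2]; exact mem_cl1.2 (Or.inr h5)
      exact (mem_cl1.1 h9).resolve_left h7
    have hne : v ≠ w := by
      rintro rfl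
      exact G.irr _ h3.1
    exact v_tw2 (mem_inter.2 ⟨G.sym _ _ h5, hv⟩) (mem_inter.2 ⟨G.sym _ _ hzw, hw⟩) hne
      ⟨w, h3⟩ ⟨v, h8⟩
  · refine hlow b hb h1.2.1 ?_ h2
    rintro rfl
    exact h1.2.2.2.1 (mem_cl1.2 (Or.inl rfl))
  · exact absurd (h.sat a b z h1) hzl
  · refine hlow b hb h1.2.1 ?_ (ll_nb1 (ll_symm1 h1))
    rintro rfl
    exact h1.2.2.2.2.1 (mem_cl1.2 (Or.inl rfl))

/-- the pair form of a cover -/
theorem St2.pair2 (h : G.St2 A B) {x z : V}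
    (hpair : ∀ v ∈ (G.N A \ G.N B) ∪ (G.N B \ G.N A), ∀ w, G.Tw v w →
      x = v ∨ x = w ∨ z = v ∨ z = w) {v w : V} (h1 : v ∈ R {A, B}) (h2 : w ∈ R {A, B})
    (h3 : G.Tw v w) (h4 : x ∈ G.nb v) (h5 : z ∈ G.nb v) (h6 : x ≠ w) (h7 : z ≠ w) :
    ∃ q ∈ G.N A ∩ G.N B, ∃ q' ∈ G.N A ∩ G.N B, q ≠ q' ∧ G.IsTw q ∧ G.IsTw q' ∧
      q ∈ G.nb x ∧ q' ∈ G.nb x ∧ q ∈ G.nb z ∧ q' ∈ G.nb z := by
  have h8 := h.tw.symm _ _ h3
  have hxv : x ≠ v := by
    rintro rfl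
    exact G.irr _ h4
  have hzv : z ≠ v := by
    rintro rfl
    exact G.irr _ h5
  have hv : v ∈ G.N A ∩ G.N B := by
    refine (h.loc h1).resolve_left fun h9 => ?_
    rcases hpair v h9 w h3 with h10 | h10 | h10 | h10
    · exact hxv h10
    · exact h6 h10
    · exact hzv h10
    · exact h7 h10
  have hw : w ∈ G.N A ∩ G.N B := by
    refine (h.loc h2).resolve_left fun h9 => ?_
    rcases hpair w h9 v h8 with h10 | h10 | h10 | h10
    · exact h6 h10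
    · exact hxv h10
    · exact h7 h10
    · exact hzv h10
  have hzw : z ∈ G.nb w := by
    have h9 : z ∈ G.cl w := by rw [← h3.2.2]; exact mem_cl1.2 (Or.inr h5)
    exact (mem_cl1.1 h9).resolve_left h7
  have hxw : x ∈ G.nb w := by
    have h9 : x ∈ G.cl w := by rw [← h3.2.2]; exact mem_cl1.2 (Or.inr h4)
    exact (mem_cl1.1 h9).resolve_left h6
  have hne : v ≠ w := by
    rintro rfl
    exact G.irr _ h3.1
  exact ⟨v, hv, w, hw, hne, ⟨w, h3⟩, ⟨v, h8⟩, G.sym _ _ h4, G.sym _ _ hxw, G.sym _ _ h5,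
    G.sym _ _ hzw⟩

/-- cover of an edge `x z` of two non-low vertices, `z` a twin vertex, no low vertex on the
sides -/
theorem St2.covB (h : G.St2 A B) {x z : V} (hcov : G.CovIn (R {A, B}) x z) (hx : ¬ G.Low x)
    (hz : G.IsTw z) (hno : ∀ w ∈ (G.N A \ G.N B) ∪ (G.N B \ G.N A), ¬ G.Low w)
    (hpair : ∀ v ∈ (G.N A \ G.N B) ∪ (G.N B \ G.N A), ∀ w, G.Tw v w →
      x = v ∨ x = w ∨ z = v ∨ z = w) :
    (∃ c ∈ G.N A ∩ G.N B, G.Low c ∧ c ∈ G.nb x ∧ c ∈ G.nb z) ∨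
    (∃ q ∈ G.N A ∩ G.N B, ∃ q' ∈ G.N A ∩ G.N B, q ≠ q' ∧ G.IsTw q ∧ G.IsTw q' ∧
      q ∈ G.nb x ∧ q' ∈ G.nb x ∧ q ∈ G.nb z ∧ q' ∈ G.nb z) := by
  rcases hcov with ⟨w, h1, h2, h3, h4⟩ | ⟨v, h1, w, h2, h3, h4, h5, h6, h7⟩ |
    ⟨a, ha, b, hb, h1, h2, h3⟩ | ⟨a, ha, b, hb, h1, h2, h3⟩ | ⟨a, ha, b, hb, h1⟩
  · have hw : w ∈ G.N A ∩ G.N B := (h.loc h1).resolve_left fun h9 => hno w h9 h2
    exact Or.inl ⟨w, hw, h2, G.sym _ _ h3, G.sym _ _ h4⟩
  · exact Or.inr (h.pair2 hpair h1 h2 h3 h4 h5 h6 h7)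
  · exact absurd (h.sat a b x h1) hx
  · exact absurd (h.sat a b z h1) (tw_low2 hz)
  · exact absurd hz (h.tw.twLL a b x z h1).2

/-- cover of an edge `x z`, `x` low, `z` a twin vertex -/
theorem St2.covC (h : G.St2 A B) {x x2 z z2 : V} (hS : G.N A \ G.N B = {x, x2})
    (hY : G.N B \ G.N A = {z, z2}) (hzz : G.Tw z z2) (hxl : G.Low x) (hx2 : ¬ G.IsTw x2)
    (hcov : G.CovIn (R {A, B}) x z) :
    (∃ c ∈ G.N A ∩ G.N B, G.Low c ∧ c ∈ G.nb x ∧ c ∈ G.nb z) ∨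
    (G.Low x2 ∧ x2 ∈ G.nb x) ∨
    (∃ q ∈ G.N A ∩ G.N B, ∃ q' ∈ G.N A ∩ G.N B, q ≠ q' ∧ G.IsTw q ∧ G.IsTw q' ∧
      q ∈ G.nb x ∧ q' ∈ G.nb x ∧ q ∈ G.nb z ∧ q' ∈ G.nb z) ∨
    (∃ a ∈ G.nb x ∩ G.N A, ∃ b, G.Low b ∧ b ∈ G.nb z ∧
      (b ∈ G.N A ∩ G.N B ∨ (b = x2 ∧ a ∈ G.nb x2))) := by
  have hzt : G.IsTw z := ⟨z2, hzz⟩
  have hzt2 : G.IsTw z2 := ⟨z, h.tw.symm _ _ hzz⟩
  have hxt : ¬ G.IsTw x := fun h1 => tw_low2 h1 hxl
  have hT : ∀ w ∈ (G.N A \ G.N B) ∪ (G.N B \ G.N A), w = x ∨ w = x2 ∨ w = z ∨ w = z2 := by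
    intro w hw
    rw [mem_union, hS, hY] at hw
    simp only [mem_insert, mem_singleton] at hw
    tauto
  have hpair : ∀ v ∈ (G.N A \ G.N B) ∪ (G.N B \ G.N A), ∀ w, G.Tw v w →
      x = v ∨ x = w ∨ z = v ∨ z = w := by
    intro v hv w hvw
    rcases hT v hv with rfl | rfl | rfl | rfl
    · exact Or.inl rfl
    · exact absurd ⟨w, hvw⟩ hx2
    · exact Or.inr (Or.inr (Or.inl rfl))
    · exact Or.inr (Or.inr (Or.inr (h.tw.uniq h.n9 _ _ _ (h.tw.symm _ _ hzz) hvw)))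
  rcases hcov with ⟨w, h1, h2, h3, h4⟩ | ⟨v, h1, w, h2, h3, h4, h5, h6, h7⟩ |
    ⟨a, ha, b, hb, h1, h2, h3⟩ | ⟨a, ha, b, hb, h1, h2, h3⟩ | ⟨a, ha, b, hb, h1⟩
  · rcases h.loc h1 with h5 | h5
    · rcases hT w h5 with rfl | rfl | rfl | rfl
      · exact absurd h3 (G.irr _)
      · exact Or.inr (Or.inl ⟨h2, G.sym _ _ h3⟩)
      · exact absurd h4 (G.irr _)
      · exact absurd h2 (tw_low2 hzt2)
    · exact Or.inl ⟨w, h5, h2, G.sym _ _ h3, G.sym _ _ h4⟩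
  · exact Or.inr (Or.inr (Or.inl (h.pair2 hpair h1 h2 h3 h4 h5 h6 h7)))
  · have hat : ¬ G.IsTw a := h.tw.notHL h.n9 a b x h1
    obtain ⟨ha7, hbl, hba, hxb, hcl⟩ := h1
    have hbx : b ≠ x := by
      rintro rfl
      exact hxb (mem_cl1.2 (Or.inl rfl))
    have hax : x ∈ G.nb a := by
      have h4 : x ∈ G.cl a := by rw [hcl]; exact mem_insert_self _ _
      rcases mem_cl1.1 h4 with h5 | h5
      · subst h5
        exact absurd (mem_cl1.2 (Or.inr (G.sym _ _ hba))) hxb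
      · exact h5
    have haA : a ∈ G.N A := by
      rcases h.loc ha with h5 | h5
      · rcases hT a h5 with rfl | rfl | rfl | rfl
        · exact absurd hax (G.irr _)
        · have h6 : a ∈ G.N A \ G.N B := by rw [hS]; simp
          exact (mem_sdiff.1 h6).1
        · exact absurd hzt hat
        · exact absurd hzt2 hat
      · exact (mem_inter.1 h5).1
    refine Or.inr (Or.inr (Or.inr ⟨a, mem_inter.2 ⟨G.sym _ _ hax, haA⟩, b, hbl, G.sym _ _ h2, ?_⟩))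
    rcases h.loc hb with h5 | h5
    · rcases hT b h5 with rfl | rfl | rfl | rfl
      · exact absurd rfl hbx
      · exact Or.inr ⟨rfl, G.sym _ _ hba⟩
      · exact absurd hbl (tw_low2 hzt)
      · exact absurd hbl (tw_low2 hzt2)
    · exact Or.inl h5
  · exact absurd (h.sat a b z h1) (tw_low2 hzt)
  · exact absurd hzt (h.tw.twLL a b x z h1).2

/-! ### the four cases -/

/-- no twins on the sides -/
theorem St2.caseA (h : G.St2 A B)
    (hnt : ∀ w ∈ (G.N A \ G.N B) ∪ (G.N B \ G.N A), ¬ G.IsTw w) :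
    0 ≤ ∑ x ∈ G.N A \ G.N B, G.W2 A B x + ∑ x ∈ G.N B \ G.N A, G.W2 B A x := by
  obtain ⟨s1, s2, hs12, hS⟩ := card_eq_two.1 h.cS
  obtain ⟨y1, y2, hy12, hY⟩ := card_eq_two.1 h.cY
  have hs1 : s1 ∈ G.N A \ G.N B := by rw [hS]; simp
  have hs2 : s2 ∈ G.N A \ G.N B := by rw [hS]; simp
  have hy1 : y1 ∈ G.N B \ G.N A := by rw [hY]; simp
  have hy2 : y2 ∈ G.N B \ G.N A := by rw [hY]; simp
  have hT : ∀ w ∈ (G.N A \ G.N B) ∪ (G.N B \ G.N A), w = s1 ∨ w = s2 ∨ w = y1 ∨ w = y2 := by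
    intro w hw
    rw [mem_union, hS, hY] at hw
    simp only [mem_insert, mem_singleton] at hw
    tauto
  have hlowS : ∀ s ∈ G.N A \ G.N B, G.Low s → 2 ≤ G.W2 A B s := fun s hs hl => h.Wlow' hs hl
  have hlowY : ∀ s ∈ G.N B \ G.N A, G.Low s → 2 ≤ G.W2 B A s := fun s hs hl =>
    h.symm.Wlow' hs hl
  have hhubS : ∀ s ∈ G.N A \ G.N B, ¬ G.Low s → -2 ≤ G.W2 A B s := by
    intro s hs hl
    have h1 := St2.Whub (G := G) (A := A) (B := B) hl (hnt s (mem_union_left _ hs))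
    have h2 := v_nonneg2 (G := G) (G.nb s ∩ (G.N A ∩ G.N B))
    linarith
  have hhubY : ∀ s ∈ G.N B \ G.N A, ¬ G.Low s → -2 ≤ G.W2 B A s := by
    intro s hs hl
    have h1 := St2.Whub (G := G) (A := B) (B := A) hl (hnt s (mem_union_right _ hs))
    have h2 := v_nonneg2 (G := G) (G.nb s ∩ (G.N B ∩ G.N A))
    linarith
  have hcS : ∀ s ∈ G.N A \ G.N B, ¬ G.Low s → ∀ y ∈ G.N B \ G.N A,
      (∀ w ∈ (G.N A \ G.N B) ∪ (G.N B \ G.N A), G.Low w → w = y) → 0 ≤ G.W2 A B s := by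
    intro s hs hl y hy ho
    have h1 := St2.Whub (G := G) (A := A) (B := B) hl (hnt s (mem_union_left _ hs))
    have h2 := h.covA (cov_symm2 (h.cv hs hy)) hl ho hnt
    linarith
  have hcY : ∀ y ∈ G.N B \ G.N A, ¬ G.Low y → ∀ s ∈ G.N A \ G.N B,
      (∀ w ∈ (G.N A \ G.N B) ∪ (G.N B \ G.N A), G.Low w → w = s) → 0 ≤ G.W2 B A y := by
    intro y hy hl s hs ho
    have h1 := St2.Whub (G := G) (A := B) (B := A) hl (hnt y (mem_union_right _ hy))
    have h2 := h.covA (h.cv hs hy) hl ho hnt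
    rw [inter_comm (G.N B)] at h1
    linarith
  rw [hS, hY, sum_pair hs12, sum_pair hy12]
  by_cases l1 : G.Low s1 <;> by_cases l2 : G.Low s2 <;> by_cases l3 : G.Low y1 <;>
    by_cases l4 : G.Low y2
  · linarith [hlowS s1 hs1 l1, hlowS s2 hs2 l2, hlowY y1 hy1 l3, hlowY y2 hy2 l4]
  · linarith [hlowS s1 hs1 l1, hlowS s2 hs2 l2, hlowY y1 hy1 l3, hhubY y2 hy2 l4]
  · linarith [hlowS s1 hs1 l1, hlowS s2 hs2 l2, hhubY y1 hy1 l3, hlowY y2 hy2 l4]
  · linarith [hlowS s1 hs1 l1, hlowS s2 hs2 l2, hhubY y1 hy1 l3, hhubY y2 hy2 l4]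
  · linarith [hlowS s1 hs1 l1, hhubS s2 hs2 l2, hlowY y1 hy1 l3, hlowY y2 hy2 l4]
  · linarith [hlowS s1 hs1 l1, hhubS s2 hs2 l2, hlowY y1 hy1 l3, hhubY y2 hy2 l4]
  · linarith [hlowS s1 hs1 l1, hhubS s2 hs2 l2, hhubY y1 hy1 l3, hlowY y2 hy2 l4]
  · have ho : ∀ w ∈ (G.N A \ G.N B) ∪ (G.N B \ G.N A), G.Low w → w = s1 := by
      intro w hw hl
      rcases hT w hw with rfl | rfl | rfl | rfl
      · rfl
      all_goals contradiction
    linarith [hlowS s1 hs1 l1, hhubS s2 hs2 l2, hcY y1 hy1 l3 s1 hs1 ho, hcY y2 hy2 l4 s1 hs1 ho]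
  · linarith [hhubS s1 hs1 l1, hlowS s2 hs2 l2, hlowY y1 hy1 l3, hlowY y2 hy2 l4]
  · linarith [hhubS s1 hs1 l1, hlowS s2 hs2 l2, hlowY y1 hy1 l3, hhubY y2 hy2 l4]
  · linarith [hhubS s1 hs1 l1, hlowS s2 hs2 l2, hhubY y1 hy1 l3, hlowY y2 hy2 l4]
  · have ho : ∀ w ∈ (G.N A \ G.N B) ∪ (G.N B \ G.N A), G.Low w → w = s2 := by
      intro w hw hl
      rcases hT w hw with rfl | rfl | rfl | rfl
      · contradiction
      · rfl
      all_goals contradiction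
    linarith [hhubS s1 hs1 l1, hlowS s2 hs2 l2, hcY y1 hy1 l3 s2 hs2 ho, hcY y2 hy2 l4 s2 hs2 ho]
  · linarith [hhubS s1 hs1 l1, hhubS s2 hs2 l2, hlowY y1 hy1 l3, hlowY y2 hy2 l4]
  · have ho : ∀ w ∈ (G.N A \ G.N B) ∪ (G.N B \ G.N A), G.Low w → w = y1 := by
      intro w hw hl
      rcases hT w hw with rfl | rfl | rfl | rfl
      · contradiction
      · contradiction
      · rfl
      · contradiction
    linarith [hhubY y2 hy2 l4, hlowY y1 hy1 l3, hcS s1 hs1 l1 y1 hy1 ho, hcS s2 hs2 l2 y1 hy1 ho]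
  · have ho : ∀ w ∈ (G.N A \ G.N B) ∪ (G.N B \ G.N A), G.Low w → w = y2 := by
      intro w hw hl
      rcases hT w hw with rfl | rfl | rfl | rfl
      · contradiction
      · contradiction
      · contradiction
      · rfl
    linarith [hhubY y1 hy1 l3, hlowY y2 hy2 l4, hcS s1 hs1 l1 y2 hy2 ho, hcS s2 hs2 l2 y2 hy2 ho]
  · have ho : ∀ u, ∀ w ∈ (G.N A \ G.N B) ∪ (G.N B \ G.N A), G.Low w → w = u := by
      intro u w hw hl
      rcases hT w hw with rfl | rfl | rfl | rfl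
      all_goals contradiction
    linarith [hcS s1 hs1 l1 y1 hy1 (ho _), hcS s2 hs2 l2 y1 hy1 (ho _),
      hcY y1 hy1 l3 s1 hs1 (ho _), hcY y2 hy2 l4 s1 hs1 (ho _)]

/-- `x` low, `z`, `z2` twins -/
theorem St2.caseC (h : G.St2 A B) {x x2 z z2 : V} (hS : G.N A \ G.N B = {x, x2}) (hxx : x ≠ x2)
    (hY : G.N B \ G.N A = {z, z2}) (hzne : z ≠ z2) (hzz : G.Tw z z2) (hxl : G.Low x)
    (hx2 : ¬ G.IsTw x2) :
    0 ≤ ∑ x ∈ G.N A \ G.N B, G.W2 A B x + ∑ x ∈ G.N B \ G.N A, G.W2 B A x := by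
  have hx : x ∈ G.N A \ G.N B := by rw [hS]; simp
  have hx' : x2 ∈ G.N A \ G.N B := by rw [hS]; simp
  have hz : z ∈ G.N B \ G.N A := by rw [hY]; simp
  obtain ⟨-, -, w1, w2⟩ := h.symm.Wtw hY hzne hzz (h.tw.symm _ _ hzz)
  rw [inter_comm (G.N B)] at w1 w2
  have w3 := h.Wlow hx hxl
  have hv := v_nonneg2 (G := G) (G.nb x ∩ (G.N A ∩ G.N B))
  have hv2 := v_nonneg2 (G := G) (G.nb x2 ∩ (G.N A ∩ G.N B))
  have hu := u_nonneg2 (G := G) (G.nb z ∩ (G.N A ∩ G.N B))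
  have he : (0 : ℤ) ≤ ((G.nb x ∩ G.N A).card : ℤ) := Int.natCast_nonneg _
  have he2 : (0 : ℤ) ≤ ((G.nb x2 ∩ G.N A).card : ℤ) := Int.natCast_nonneg _
  have hone : ∀ u a : V, a ∈ G.nb u ∩ G.N A → (1 : ℤ) ≤ ((G.nb u ∩ G.N A).card : ℤ) := by
    intro u a h1
    have h2 : 0 < (G.nb u ∩ G.N A).card := card_pos.2 ⟨a, h1⟩
    omega
  have hC : ∀ c, c ∈ G.N A ∩ G.N B → c ∈ G.N A := fun c h1 => (mem_inter.1 h1).1
  have hcov := h.covC hS hY hzz hxl hx2 (h.cv hx hz)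
  rw [hS, hY, sum_pair hxx, sum_pair hzne]
  by_cases l2 : G.Low x2
  · have w4 := h.Wlow hx' l2
    rcases hcov with ⟨c, h1, h2, h3, h4⟩ | ⟨-, h1⟩ | ⟨q, h1, q', h2, h3, h4, h5, h6, h7, h8, h9⟩ |
      ⟨a, h1, b, h2, h3, h4 | ⟨h4, h5⟩⟩
    · have k1 := u_low2 (mem_inter.2 ⟨h4, h1⟩) h2
      linarith
    · have k1 := hone x x2 (mem_inter.2 ⟨h1, (mem_sdiff.1 hx').1⟩)
      have k2 := hone x2 x (mem_inter.2 ⟨G.sym _ _ h1, (mem_sdiff.1 hx).1⟩)
      linarith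
    · have k1 := u_two2 (G := G) (mem_inter.2 ⟨h8, h1⟩) (mem_inter.2 ⟨h9, h2⟩) h3
      rw [c4_tw1 h4, c4_tw1 h5] at k1
      linarith
    · have k1 := u_low2 (mem_inter.2 ⟨h3, h4⟩) h2
      linarith
    · have k1 := hone x a h1
      have k2 := hone x2 a (mem_inter.2 ⟨h5, (mem_inter.1 h1).2⟩)
      linarith
  · have w4 := St2.Whub (G := G) (A := A) (B := B) l2 hx2
    rcases hcov with ⟨c, h1, h2, h3, h4⟩ | ⟨h1, -⟩ | ⟨q, h1, q', h2, h3, h4, h5, h6, h7, h8, h9⟩ |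
      ⟨a, h1, b, h2, h3, h4 | ⟨h4, h5⟩⟩
    · have k1 := u_low2 (mem_inter.2 ⟨h4, h1⟩) h2
      have k2 := hone x c (mem_inter.2 ⟨h3, hC c h1⟩)
      have k3 := v_low2 (mem_inter.2 ⟨h3, h1⟩) h2
      linarith
    · exact absurd h1 l2
    · have k1 := u_two2 (G := G) (mem_inter.2 ⟨h8, h1⟩) (mem_inter.2 ⟨h9, h2⟩) h3
      rw [c4_tw1 h4, c4_tw1 h5] at k1
      linarith
    · have k1 := u_low2 (mem_inter.2 ⟨h3, h4⟩) h2
      have k2 := hone x a h1
      linarith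
    · subst h4
      exact absurd h2 l2

/-- `x`, `x2` hubs, `z`, `z2` twins -/
theorem St2.caseB (h : G.St2 A B) {x x2 z z2 : V} (hS : G.N A \ G.N B = {x, x2}) (hxx : x ≠ x2)
    (hY : G.N B \ G.N A = {z, z2}) (hzne : z ≠ z2) (hzz : G.Tw z z2) (hxl : ¬ G.Low x)
    (hxt : ¬ G.IsTw x) (hxl2 : ¬ G.Low x2) (hxt2 : ¬ G.IsTw x2) :
    0 ≤ ∑ x ∈ G.N A \ G.N B, G.W2 A B x + ∑ x ∈ G.N B \ G.N A, G.W2 B A x ∨
    (-2 ≤ ∑ x ∈ G.N A \ G.N B, G.W2 A B x + ∑ x ∈ G.N B \ G.N A, G.W2 B A x ∧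
      ∃ c ∈ G.N A ∩ G.N B, G.Low c ∧ (∀ u ∈ (G.N A \ G.N B) ∪ (G.N B \ G.N A), c ∈ G.nb u) ∧
        G.nb z ∩ (G.N A ∩ G.N B) = {c}) := by
  have hx : x ∈ G.N A \ G.N B := by rw [hS]; simp
  have hx' : x2 ∈ G.N A \ G.N B := by rw [hS]; simp
  have hz : z ∈ G.N B \ G.N A := by rw [hY]; simp
  have hzt : G.IsTw z := ⟨z2, hzz⟩
  have hzt2 : G.IsTw z2 := ⟨z, h.tw.symm _ _ hzz⟩
  obtain ⟨heq, hle, w1, w2⟩ := h.symm.Wtw hY hzne hzz (h.tw.symm _ _ hzz)
  rw [inter_comm (G.N B)] at w1 w2 hle heq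
  have w3 := St2.Whub (G := G) (A := A) (B := B) hxl hxt
  have w4 := St2.Whub (G := G) (A := A) (B := B) hxl2 hxt2
  have hT : ∀ w ∈ (G.N A \ G.N B) ∪ (G.N B \ G.N A), w = x ∨ w = x2 ∨ w = z ∨ w = z2 := by
    intro w hw
    rw [mem_union, hS, hY] at hw
    simp only [mem_insert, mem_singleton] at hw
    tauto
  have hno : ∀ w ∈ (G.N A \ G.N B) ∪ (G.N B \ G.N A), ¬ G.Low w := by
    intro w hw
    rcases hT w hw with rfl | rfl | rfl | rfl
    · exact hxl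
    · exact hxl2
    · exact tw_low2 hzt
    · exact tw_low2 hzt2
  have hpair : ∀ u, ∀ v ∈ (G.N A \ G.N B) ∪ (G.N B \ G.N A), ∀ w, G.Tw v w →
      u = v ∨ u = w ∨ z = v ∨ z = w := by
    intro u v hv w hvw
    rcases hT v hv with rfl | rfl | rfl | rfl
    · exact absurd ⟨w, hvw⟩ hxt
    · exact absurd ⟨w, hvw⟩ hxt2
    · exact Or.inr (Or.inr (Or.inl rfl))
    · exact Or.inr (Or.inr (Or.inr (h.tw.uniq h.n9 _ _ _ (h.tw.symm _ _ hzz) hvw)))
  have hcov1 := h.covB (h.cv hx hz) hxl hzt hno (hpair x)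
  have hcov2 := h.covB (h.cv hx' hz) hxl2 hzt hno (hpair x2)
  -- a pair and a low vertex do not fit in `nb z`
  have hfit : ∀ q ∈ G.N A ∩ G.N B, ∀ q' ∈ G.N A ∩ G.N B, q ≠ q' → G.IsTw q → G.IsTw q' →
      q ∈ G.nb z → q' ∈ G.nb z → ∀ c ∈ G.N A ∩ G.N B, G.Low c → c ∈ G.nb z → False := by
    intro q h1 q' h2 h3 h4 h5 h6 h7 c h8 h9 h10
    have h11 : ({c, q, q'} : Finset V) ⊆ G.nb z ∩ (G.N A ∩ G.N B) := by
      intro u hu
      simp only [mem_insert, mem_singleton] at hu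
      rcases hu with rfl | rfl | rfl
      · exact mem_inter.2 ⟨h10, h8⟩
      · exact mem_inter.2 ⟨h6, h1⟩
      · exact mem_inter.2 ⟨h7, h2⟩
    have h12 := card_le_card h11
    have h13 : c ≠ q := by
      rintro rfl
      exact tw_low2 h4 h9
    have h14 : c ≠ q' := by
      rintro rfl
      exact tw_low2 h5 h9
    have h15 : ({c, q, q'} : Finset V).card = 3 := by
      rw [card_eq_three]
      exact ⟨c, q, q', h13, h14, h3, rfl⟩
    omega
  rw [hS, hY, sum_pair hxx, sum_pair hzne]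
  rcases hcov1 with ⟨c, h1, h2, h3, h4⟩ | ⟨q, h1, q', h2, h3, h4, h5, h6, h7, h8, h9⟩
  · rcases hcov2 with ⟨c', h1', h2', h3', h4'⟩ |
      ⟨q, h1', q', h2', h3', h4', h5', h6', h7', h8', h9'⟩
    · have k1 := v_low2 (mem_inter.2 ⟨h3, h1⟩) h2
      have k2 := v_low2 (mem_inter.2 ⟨h3', h1'⟩) h2'
      by_cases h5 : ∃ e ∈ G.nb z ∩ (G.N A ∩ G.N B), e ≠ c
      · obtain ⟨e, h6, h7⟩ := h5
        have k3 := u_two2 (G := G) (mem_inter.2 ⟨h4, h1⟩) h6 h7.symm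
        rw [c4_low1 h2] at k3
        have k4 := c4_nonneg1 (G := G) e
        left
        linarith
      · have k3 := u_low2 (mem_inter.2 ⟨h4, h1⟩) h2
        have h6 : ∀ e ∈ G.nb z ∩ (G.N A ∩ G.N B), e = c := by
          intro e he
          by_contra h7
          exact h5 ⟨e, he, h7⟩
        have h7 : c' = c := h6 c' (mem_inter.2 ⟨h4', h1'⟩)
        subst h7
        right
        refine ⟨by linarith, c', h1, h2, ?_, ?_⟩
        · intro u hu
          rcases mem_union.1 hu with h8 | h8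
          · simp only [mem_insert, mem_singleton] at h8
            rcases h8 with rfl | rfl
            · exact h3
            · exact h3'
          · simp only [mem_insert, mem_singleton] at h8
            rcases h8 with rfl | rfl
            · exact h4
            · have h9 : c' ∈ G.nb u ∩ (G.N A ∩ G.N B) := by
                rw [heq]
                exact mem_inter.2 ⟨h4, h1⟩
              exact (mem_inter.1 h9).1
        · ext e
          rw [mem_singleton]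
          constructor
          · exact h6 e
          · intro he
            rw [he]
            exact mem_inter.2 ⟨h4, h1⟩
    · exact (hfit q h1' q' h2' h3' h4' h5' h8' h9' c h1 h2 h4).elim
  · rcases hcov2 with ⟨c', h1', h2', h3', h4'⟩ |
      ⟨p, h1', p', h2', h3', h4', h5', h6', h7', h8', h9'⟩
    · exact (hfit q h1 q' h2 h3 h4 h5 h8 h9 c' h1' h2' h4').elim
    · have k1 := v_tw2 (mem_inter.2 ⟨h6, h1⟩) (mem_inter.2 ⟨h7, h2⟩) h3 h4 h5
      have k2 := v_tw2 (mem_inter.2 ⟨h6', h1'⟩) (mem_inter.2 ⟨h7', h2'⟩) h3' h4' h5'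
      have k3 := u_two2 (G := G) (mem_inter.2 ⟨h8, h1⟩) (mem_inter.2 ⟨h9, h2⟩) h3
      rw [c4_tw1 h4, c4_tw1 h5] at k3
      left
      linarith

/-- two pairs of twins -/
theorem St2.caseD (h : G.St2 A B) {x x2 z z2 : V} (hS : G.N A \ G.N B = {x, x2}) (hxx : x ≠ x2)
    (hxtw : G.Tw x x2) (hY : G.N B \ G.N A = {z, z2}) (hzne : z ≠ z2) (hzz : G.Tw z z2) :
    0 ≤ ∑ x ∈ G.N A \ G.N B, G.W2 A B x + ∑ x ∈ G.N B \ G.N A, G.W2 B A x ∨
    (-4 ≤ ∑ x ∈ G.N A \ G.N B, G.W2 A B x + ∑ x ∈ G.N B \ G.N A, G.W2 B A x ∧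
      ∃ c ∈ G.N A ∩ G.N B, G.Low c ∧
        (∀ u ∈ (G.N A \ G.N B) ∪ (G.N B \ G.N A), c ∈ G.nb u)) := by
  have hx : x ∈ G.N A \ G.N B := by rw [hS]; simp
  have hz : z ∈ G.N B \ G.N A := by rw [hY]; simp
  have hzt : G.IsTw z := ⟨z2, hzz⟩
  have hzt2 : G.IsTw z2 := ⟨z, h.tw.symm _ _ hzz⟩
  have hxt : G.IsTw x := ⟨x2, hxtw⟩
  have hxt2 : G.IsTw x2 := ⟨x, h.tw.symm _ _ hxtw⟩
  obtain ⟨heq, -, w1, w2⟩ := h.symm.Wtw hY hzne hzz (h.tw.symm _ _ hzz)
  obtain ⟨heq', -, w3, w4⟩ := h.Wtw hS hxx hxtw (h.tw.symm _ _ hxtw)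
  rw [inter_comm (G.N B)] at w1 w2 heq
  have hT : ∀ w ∈ (G.N A \ G.N B) ∪ (G.N B \ G.N A), w = x ∨ w = x2 ∨ w = z ∨ w = z2 := by
    intro w hw
    rw [mem_union, hS, hY] at hw
    simp only [mem_insert, mem_singleton] at hw
    tauto
  have hno : ∀ w ∈ (G.N A \ G.N B) ∪ (G.N B \ G.N A), ¬ G.Low w := by
    intro w hw
    rcases hT w hw with rfl | rfl | rfl | rfl
    · exact tw_low2 hxt
    · exact tw_low2 hxt2
    · exact tw_low2 hzt
    · exact tw_low2 hzt2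
  have hpair : ∀ v ∈ (G.N A \ G.N B) ∪ (G.N B \ G.N A), ∀ w, G.Tw v w →
      x = v ∨ x = w ∨ z = v ∨ z = w := by
    intro v hv w hvw
    rcases hT v hv with rfl | rfl | rfl | rfl
    · exact Or.inl rfl
    · exact Or.inr (Or.inl (h.tw.uniq h.n9 _ _ _ (h.tw.symm _ _ hxtw) hvw))
    · exact Or.inr (Or.inr (Or.inl rfl))
    · exact Or.inr (Or.inr (Or.inr (h.tw.uniq h.n9 _ _ _ (h.tw.symm _ _ hzz) hvw)))
  have hcov := h.covB (h.cv hx hz) (tw_low2 hxt) hzt hno hpair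
  rw [hS, hY, sum_pair hxx, sum_pair hzne]
  rcases hcov with ⟨c, h1, h2, h3, h4⟩ | ⟨q, h1, q', h2, h3, h4, h5, h6, h7, h8, h9⟩
  · have k1 := u_low2 (mem_inter.2 ⟨h3, h1⟩) h2
    have k2 := u_low2 (mem_inter.2 ⟨h4, h1⟩) h2
    right
    refine ⟨by linarith, c, h1, h2, ?_⟩
    intro u hu
    rcases mem_union.1 hu with h8 | h8
    · simp only [mem_insert, mem_singleton] at h8
      rcases h8 with rfl | rfl
      · exact h3
      · have h9 : c ∈ G.nb u ∩ (G.N A ∩ G.N B) := by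
          rw [heq']
          exact mem_inter.2 ⟨h3, h1⟩
        exact (mem_inter.1 h9).1
    · simp only [mem_insert, mem_singleton] at h8
      rcases h8 with rfl | rfl
      · exact h4
      · have h9 : c ∈ G.nb u ∩ (G.N A ∩ G.N B) := by
          rw [heq]
          exact mem_inter.2 ⟨h4, h1⟩
        exact (mem_inter.1 h9).1
  · have k1 := u_two2 (G := G) (mem_inter.2 ⟨h8, h1⟩) (mem_inter.2 ⟨h9, h2⟩) h3
    have k2 := u_two2 (G := G) (mem_inter.2 ⟨h6, h1⟩) (mem_inter.2 ⟨h7, h2⟩) h3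
    rw [c4_tw1 h4, c4_tw1 h5] at k1 k2
    left
    linarith

/-- a low vertex of the common part adjacent to the four side vertices -/
theorem St2.degC (h : G.St2 A B) {c : V} (hc : c ∈ G.N A ∩ G.N B) (hl : G.Low c)
    (hall : ∀ u ∈ (G.N A \ G.N B) ∪ (G.N B \ G.N A), c ∈ G.nb u) :
    G.d c A = 1 ∧ G.d c B = 1 ∧ G.nb c ∩ G.N B = G.N B \ G.N A ∧
      G.nb c ∩ G.N A = G.N A \ G.N B := by
  have h1 := deg_split2 (G := G) A c
  have h2 := nA_split2 (G := G) (A := A) (B := B) c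
  have h2' := nA_split2 (G := G) (A := B) (B := A) c
  have hS : G.nb c ∩ (G.N A \ G.N B) = G.N A \ G.N B := by
    apply inter_eq_right.2
    intro u hu
    exact G.sym _ _ (hall u (mem_union_left _ hu))
  have hY : G.nb c ∩ (G.N B \ G.N A) = G.N B \ G.N A := by
    apply inter_eq_right.2
    intro u hu
    exact G.sym _ _ (hall u (mem_union_right _ hu))
  rw [hS, h.cS] at h2
  rw [hY, h.cY, inter_comm (G.N B)] at h2'
  have h3 : 0 < G.d c A := by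
    obtain ⟨-, u, hu, hcu⟩ := mem_N1.1 (mem_inter.1 hc).1
    exact card_pos.2 ⟨u, mem_inter.2 ⟨G.sym _ _ hcu, hu⟩⟩
  have h4 : 0 < G.d c B := by
    obtain ⟨-, u, hu, hcu⟩ := mem_N1.1 (mem_inter.1 hc).2
    exact card_pos.2 ⟨u, mem_inter.2 ⟨G.sym _ _ hcu, hu⟩⟩
  have h5 : G.d c B + 2 ≤ G.d c (G.Co A) := by
    have h6 : (G.nb c ∩ B) ∪ (G.N B \ G.N A) ⊆ G.nb c ∩ G.Co A := by
      intro u hu
      rcases mem_union.1 hu with h7 | h7
      · obtain ⟨h8, h9⟩ := mem_inter.1 h7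
        have h10 := h.st.reg.dis A (by simp) B (by simp) h.st.ne
        exact mem_inter.2 ⟨h8, mem_Co1.2 ⟨disjoint_right.1 h10.1 h9, disjoint_right.1 h10.2 h9⟩⟩
      · have h8 : u ∈ G.nb c := G.sym _ _ (hall u (mem_union_right _ h7))
        exact mem_inter.2 ⟨h8, mem_Co1.2 ⟨(h.st.symm.NA (mem_sdiff.1 h7).1).2, (mem_sdiff.1 h7).2⟩⟩
    have h7 : Disjoint (G.nb c ∩ B) (G.N B \ G.N A) := by
      rw [disjoint_left]
      intro u h8 h9
      exact (mem_N1.1 (mem_sdiff.1 h9).1).1 (mem_inter.1 h8).2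
    have h8 := card_le_card h6
    rw [card_union_of_disjoint h7, h.cY] at h8
    exact h8
  have h6 : (G.nb c).card = 6 := hl
  have h7 : (G.nb c ∩ (G.N A ∩ G.N B)).card = 0 := by omega
  refine ⟨by omega, by omega, ?_, ?_⟩
  · symm
    apply eq_of_subset_of_card_le
    · intro u hu
      exact mem_inter.2 ⟨G.sym _ _ (hall u (mem_union_right _ hu)), (mem_sdiff.1 hu).1⟩
    · rw [h2', h7, h.cY]
  · symm
    apply eq_of_subset_of_card_le
    · intro u hu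
      exact mem_inter.2 ⟨G.sym _ _ (hall u (mem_union_left _ hu)), (mem_sdiff.1 hu).1⟩
    · rw [h2, h7, h.cS]

/-- two vertices of `N B` with the same single neighbour in `B` -/
theorem one_nb2 {b p c : V} (hB : G.Frag B) (hb3 : 3 ≤ B.card) (hb : b ∈ B) (hp : p ∈ G.N B)
    (hc : c ∈ G.N B) (hpc : p ≠ c) (h1 : ∀ u ∈ B, u ∈ G.nb p → u = b)
    (h2 : ∀ u ∈ B, u ∈ G.nb c → u = b) : False := by
  have h3 : G.N (B.erase b) ⊆ insert b (((G.N B).erase p).erase c) := by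
    intro v hv
    obtain ⟨hv1, u, hu, huv⟩ := mem_N1.1 hv
    obtain ⟨hub, huB⟩ := mem_erase.1 hu
    rw [mem_insert]
    by_cases h4 : v = b
    · exact Or.inl h4
    · right
      have h5 : v ∉ B := fun h5 => hv1 (mem_erase.2 ⟨h4, h5⟩)
      have h6 : v ∈ G.N B := mem_N1.2 ⟨h5, u, huB, huv⟩
      refine mem_erase.2 ⟨?_, mem_erase.2 ⟨?_, h6⟩⟩
      · rintro rfl
        exact hub (h2 u huB (G.sym _ _ huv))
      · rintro rfl
        exact hub (h1 u huB (G.sym _ _ huv))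
  have h4 := card_le_card h3
  have h5 := card_insert_le b (((G.N B).erase p).erase c)
  have h6 : (((G.N B).erase p).erase c).card = 4 := by
    rw [card_erase_of_mem (mem_erase.2 ⟨hpc.symm, hc⟩), card_erase_of_mem hp, hB.2.1]
  have h7 : (B.erase b).Nonempty := by
    rw [← card_pos, card_erase_of_mem hb]
    omega
  have h8 : (G.Co (B.erase b)).Nonempty := by
    obtain ⟨v, hv⟩ := hB.2.2
    refine ⟨v, mem_Co1.2 ⟨fun h9 => (mem_Co1.1 hv).1 (mem_erase.1 h9).2, fun h9 => ?_⟩⟩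
    rcases mem_insert.1 (h3 h9) with h10 | h10
    · subst h10
      exact (mem_Co1.1 hv).1 hb
    · exact (mem_Co1.1 hv).2 (mem_erase.1 (mem_erase.1 h10).2).2
  have h9 := G.stN6_37 (B.erase b) h7 h8
  omega

/-- the exceptional case with twins in `N A` and hubs in `N B` does not occur -/
theorem St2.mirror (h : G.St2 A B) (hsm : G.StSmall)
    (hlast : ∀ b ∈ B, ∀ c ∈ G.N B, c ∈ G.nb b → G.d c B = 1 → G.SCov b c) {c s s' : V}
    (hS : G.N A \ G.N B = {s, s'}) (hss : G.Tw s s')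
    (hY : ∀ y ∈ G.N B \ G.N A, ¬ G.Low y ∧ ¬ G.IsTw y) (hc : c ∈ G.N A ∩ G.N B)
    (hl : G.Low c) (hall : ∀ u ∈ (G.N A \ G.N B) ∪ (G.N B \ G.N A), c ∈ G.nb u)
    (honly : G.nb s ∩ (G.N A ∩ G.N B) = {c}) : False := by
  obtain ⟨hdA, hdB, hnB, hnA⟩ := h.degC hc hl hall
  have hA := h.st.reg.frag A (by simp)
  have hB := h.st.reg.frag B (by simp)
  obtain ⟨hcA, hcB⟩ := h.st.NA (mem_inter.1 hc).1
  have hs : s ∈ G.N A \ G.N B := by rw [hS]; simp
  have hdis := h.st.reg.dis A (by simp) B (by simp) h.st.ne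
  have hdis' := h.st.reg.dis B (by simp) A (by simp) h.st.ne.symm
  have hAB : ∀ u ∈ A, u ∉ B ∧ u ∉ G.N B := fun u hu =>
    ⟨disjoint_left.1 hdis.1 hu, disjoint_right.1 hdis'.2 hu⟩
  have hBA : ∀ u ∈ B, u ∉ A ∧ u ∉ G.N A := fun u hu =>
    ⟨disjoint_left.1 hdis'.1 hu, disjoint_right.1 hdis.2 hu⟩
  have hStw : ∀ u ∈ G.N A \ G.N B, ¬ G.Low u := by
    intro u hu
    rw [hS, mem_insert, mem_singleton] at hu
    rcases hu with rfl | rfl
    · exact tw_low2 ⟨s', hss⟩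
    · exact tw_low2 ⟨s, h.tw.symm _ _ hss⟩
  obtain ⟨b, hb⟩ := card_eq_one.1 hdB
  obtain ⟨al, hal⟩ := card_eq_one.1 hdA
  have hb' : b ∈ G.nb c ∩ B := by rw [hb]; exact mem_singleton_self _
  have hal' : al ∈ G.nb c ∩ A := by rw [hal]; exact mem_singleton_self _
  rw [mem_inter] at hb' hal'
  have hbc : c ∈ G.nb b := G.sym _ _ hb'.1
  -- neighbours of `c`
  have hnbc : ∀ u ∈ G.nb c, u = b ∨ u = al ∨ u ∈ G.N A \ G.N B ∨ u ∈ G.N B \ G.N A := by
    intro u hu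
    by_cases h1 : u ∈ A
    · right; left
      have h2 : u ∈ G.nb c ∩ A := mem_inter.2 ⟨hu, h1⟩
      rw [hal, mem_singleton] at h2
      exact h2
    by_cases h2 : u ∈ B
    · left
      have h3 : u ∈ G.nb c ∩ B := mem_inter.2 ⟨hu, h2⟩
      rw [hb, mem_singleton] at h3
      exact h3
    rcases h.st.cases h1 h2 with h3 | h3 | h3
    · exact Or.inr (Or.inr (Or.inl h3))
    · exact Or.inr (Or.inr (Or.inr h3))
    · exfalso
      have h4 : u ∈ G.nb c ∩ G.N B := mem_inter.2 ⟨hu, (mem_inter.1 h3).2⟩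
      rw [hnB] at h4
      exact (mem_sdiff.1 h4).2 (mem_inter.1 h3).1
  -- common neighbours of `b` and `c`
  have hcom : ∀ u ∈ G.nb c, b ∈ G.nb u → u ∈ G.N B \ G.N A := by
    intro u hu hbu
    rcases hnbc u hu with h1 | h1 | h1 | h1
    · subst h1
      exact absurd hbu (G.irr _)
    · subst h1
      rcases nb_B1 hal'.2 hbu with h2 | h2
      · exact absurd h2 (hBA b hb'.2).1
      · exact absurd h2 (hBA b hb'.2).2
    · exact absurd hb'.2 (h.st.notB h1 hbu)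
    · exact h1
  -- a low neighbour of `c` that is not adjacent to `b`
  have hlow : ∀ u ∈ G.nb c, G.Low u → b ∉ G.cl u → u = al := by
    intro u hu hul hbu
    rcases hnbc u hu with h1 | h1 | h1 | h1
    · subst h1
      exact absurd (mem_cl1.2 (Or.inl rfl)) hbu
    · exact h1
    · exact absurd hul (hStw u h1)
    · exact absurd hul (hY u h1).1
  -- the last contradiction
  have hfin : ∀ a, a ≠ c → b ∈ G.nb a → al ∈ G.nb a → (∀ u ∈ G.cl a, u = b ∨ u = c ∨ u ∈ G.cl al) →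
      False := by
    intro a hac hba hala hcl
    have haA : a ∉ A := by
      intro h1
      rcases nb_B1 h1 hba with h2 | h2
      · exact absurd h2 (hBA b hb'.2).1
      · exact absurd h2 (hBA b hb'.2).2
    have haB : a ∉ B := by
      intro h1
      rcases nb_B1 h1 hala with h2 | h2
      · exact absurd h2 (hAB al hal'.2).1
      · exact absurd h2 (hAB al hal'.2).2
    have haN : a ∈ G.N B := mem_N1.2 ⟨haB, b, hb'.2, G.sym _ _ hba⟩
    refine one_nb2 hB h.bigB hb'.2 haN (mem_inter.1 hc).2 hac ?_ ?_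
    · intro u hu hua
      rcases hcl u (mem_cl1.2 (Or.inr hua)) with h1 | h1 | h1
      · exact h1
      · subst h1
        exact absurd hu hcB
      · exfalso
        rcases mem_cl1.1 h1 with h2 | h2
        · subst h2
          exact (hBA u hu).1 hal'.2
        · rcases nb_B1 hal'.2 h2 with h3 | h3
          · exact (hBA u hu).1 h3
          · exact (hBA u hu).2 h3
    · intro u hu huc
      have h3 : u ∈ G.nb c ∩ B := mem_inter.2 ⟨huc, hu⟩
      rw [hb, mem_singleton] at h3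
      exact h3
  obtain ⟨E, hE, hEc, hbE, hcE⟩ := hlast b hb'.2 c (mem_inter.1 hc).2 hbc hdB
  have hne : b ≠ c := by
    rintro rfl
    exact G.irr _ hbc
  rcases hsm E hE hEc b c hbE hcE hne with ⟨w, -, h2, h3, h4⟩ | ⟨v, -, w, -, h3, h4, h5, h6, h7⟩ |
    ⟨a, -, b', -, h1, h2, h3⟩ | ⟨a, -, b', -, h1, h2, h3⟩ | ⟨a, -, b', -, h1⟩
  · exact (hY w (hcom w (G.sym _ _ h4) h3)).1 h2
  · exact (hY v (hcom v (G.sym _ _ h5) h4)).2 ⟨w, h3⟩
  · -- `HL a b' b`, `c` adjacent to `b'`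
    obtain ⟨ha7, hbl, hba, hxb, hcl⟩ := h1
    have h5 := hlow b' (G.sym _ _ h2) hbl hxb
    subst h5
    have hab : b ∈ G.nb a := by
      have h6 : b ∈ G.cl a := by rw [hcl]; exact mem_insert_self _ _
      rcases mem_cl1.1 h6 with h7 | h7
      · subst h7
        exact absurd (mem_cl1.2 (Or.inr (G.sym _ _ hba))) hxb
      · exact h7
    refine hfin a h3.symm hab hba ?_
    intro u hu
    rw [hcl, mem_insert] at hu
    tauto
  · -- `HL a b' c`, `b` adjacent to `b'`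
    obtain ⟨ha7, hbl, hba, hxb, hcl⟩ := h1
    have hac : c ∈ G.nb a := by
      have h6 : c ∈ G.cl a := by rw [hcl]; exact mem_insert_self _ _
      rcases mem_cl1.1 h6 with h7 | h7
      · subst h7
        exact absurd (mem_cl1.2 (Or.inr (G.sym _ _ hba))) hxb
      · exact h7
    have hab : b ∈ G.nb a := by
      have h6 : b ∈ G.cl a := by rw [hcl]; exact mem_insert_of_mem (mem_cl1.2 (Or.inr h2))
      exact (mem_cl1.1 h6).resolve_left h3
    have haY := hcom a (G.sym _ _ hac) hab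
    have hsa : s ∈ G.cl a := mem_cl1.2 (Or.inr (G.sym _ _ (h.adj s hs a haY)))
    rw [hcl, mem_insert, mem_cl1] at hsa
    rcases hsa with h5 | h5 | h5
    · subst h5
      exact (mem_sdiff.1 hs).2 (mem_inter.1 hc).2
    · subst h5
      exact h.st.notB hs h2 hb'.2
    · have h6 : b' ∉ B := h.st.notB hs (G.sym _ _ h5)
      have h7 : b' ∉ A := by
        intro h7
        rcases nb_B1 h7 h2 with h8 | h8
        · exact (hBA b hb'.2).1 h8
        · exact (hBA b hb'.2).2 h8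
      rcases h.st.cases h7 h6 with h8 | h8 | h8
      · exact hStw b' h8 hbl
      · exact (hY b' h8).1 hbl
      · have h9 : b' ∈ G.nb s ∩ (G.N A ∩ G.N B) := mem_inter.2 ⟨G.sym _ _ h5, h8⟩
        rw [honly, mem_singleton] at h9
        subst h9
        exact hxb (mem_cl1.2 (Or.inl rfl))
  · -- `LL a b' b c`
    have h2 := ll_nb1 h1
    have h3 := ll_nb1 (ll_symm1 h1)
    obtain ⟨hal1, hbl1, hba, -, hx1, hx2, hcl⟩ := h1
    have h5 := hlow b' (G.sym _ _ h3) hbl1 hx1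
    subst h5
    refine hfin a ?_ h2 hba ?_
    · rintro rfl
      exact hx2 (mem_cl1.2 (Or.inl rfl))
    · intro u hu
      have h6 : u ∈ insert c (G.cl a) := mem_insert_of_mem hu
      rw [hcl, mem_insert] at h6
      tauto

/-- U15 -/
theorem stThin2_37 (G : CG V) (hsm : G.StSmall) (htw : G.StTwHL) : G.StThin2 := by
  intro A B hst hc hcov hd hlast
  have h := St2.mk2 hst hc hcov hd htw
  rw [h.st.total2]
  have hex : ∀ z z2, G.N B \ G.N A = {z, z2} → G.Tw z z2 → ∀ c ∈ G.N A ∩ G.N B, G.Low c →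
      (∀ u ∈ (G.N A \ G.N B) ∪ (G.N B \ G.N A), c ∈ G.nb u) →
      ∃ c ∈ G.N A ∩ G.N B, ∃ q q', G.Low c ∧ G.d c B = 1 ∧
        G.Tw q q' ∧ G.nb c ∩ G.N B = {q, q'} := by
    intro z z2 hY hzz c hc hl hall
    obtain ⟨-, h1, h2, -⟩ := h.degC hc hl hall
    exact ⟨c, hc, z, z2, hl, h1, hzz, h2.trans hY⟩
  by_cases hS : ∃ v ∈ G.N A \ G.N B, G.IsTw v
  · obtain ⟨s, hs, hst'⟩ := hS
    obtain ⟨s', hS, hne, htw1, htw2⟩ := h.twS hs hst'
    by_cases hY : ∃ v ∈ G.N B \ G.N A, G.IsTw v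
    · obtain ⟨y, hy, hyt⟩ := hY
      obtain ⟨y', hY, hne', htw3, htw4⟩ := h.symm.twS hy hyt
      rcases h.caseD hS hne htw1 hY hne' htw3 with h1 | ⟨h1, c, h2, h3, h4⟩
      · exact Or.inl h1
      · exact Or.inr ⟨h1, hex y y' hY htw3 c h2 h3 h4⟩
    · have hnt : ∀ v ∈ G.N B \ G.N A, ¬ G.IsTw v := fun v hv h1 => hY ⟨v, hv, h1⟩
      obtain ⟨y1, y2, hy12, hY12⟩ := card_eq_two.1 h.cY
      have hy1 : y1 ∈ G.N B \ G.N A := by rw [hY12]; simp
      have hy2 : y2 ∈ G.N B \ G.N A := by rw [hY12]; simp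
      left
      by_cases l1 : G.Low y1
      · have h1 := h.symm.caseC hY12 hy12 hS hne htw1 l1 (hnt y2 hy2)
        linarith
      by_cases l2 : G.Low y2
      · have h1 := h.symm.caseC (by rw [hY12, pair_comm]) hy12.symm hS hne htw1 l2 (hnt y1 hy1)
        linarith
      rcases h.symm.caseB hY12 hy12 hS hne htw1 l1 (hnt y1 hy1) l2 (hnt y2 hy2) with
        h1 | ⟨h1, c, h2, h3, h4, h5⟩
      · linarith
      · exfalso
        rw [inter_comm] at h2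
        rw [inter_comm (G.N B)] at h5
        refine h.mirror hsm hlast hS htw1 ?_ h2 h3 ?_ h5
        · intro y hy
          rw [hY12, mem_insert, mem_singleton] at hy
          rcases hy with rfl | rfl
          · exact ⟨l1, hnt _ hy1⟩
          · exact ⟨l2, hnt _ hy2⟩
        · intro u hu
          rw [union_comm] at hu
          exact h4 u hu
  · have hntS : ∀ v ∈ G.N A \ G.N B, ¬ G.IsTw v := fun v hv h1 => hS ⟨v, hv, h1⟩
    by_cases hY : ∃ v ∈ G.N B \ G.N A, G.IsTw v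
    · obtain ⟨y, hy, hyt⟩ := hY
      obtain ⟨y', hY, hne', htw3, htw4⟩ := h.symm.twS hy hyt
      obtain ⟨s1, s2, hs12, hS12⟩ := card_eq_two.1 h.cS
      have hs1 : s1 ∈ G.N A \ G.N B := by rw [hS12]; simp
      have hs2 : s2 ∈ G.N A \ G.N B := by rw [hS12]; simp
      by_cases l1 : G.Low s1
      · exact Or.inl (h.caseC hS12 hs12 hY hne' htw3 l1 (hntS s2 hs2))
      by_cases l2 : G.Low s2
      · exact Or.inl (h.caseC (by rw [hS12, pair_comm]) hs12.symm hY hne' htw3 l2 (hntS s1 hs1))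
      rcases h.caseB hS12 hs12 hY hne' htw3 l1 (hntS s1 hs1) l2 (hntS s2 hs2) with
        h1 | ⟨h1, c, h2, h3, h4, -⟩
      · exact Or.inl h1
      · exact Or.inr ⟨by linarith, hex y y' hY htw3 c h2 h3 h4⟩
    · left
      apply h.caseA
      intro w hw
      rcases mem_union.1 hw with h1 | h1
      · exact hntS w h1
      · exact fun h2 => hY ⟨w, h1, h2⟩

end CG

end Pool.Agent.Lib.MP_e95c01_co.N
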