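import Pool.Agent.Lib.MP_e95c01_co.U.StHub5
import Pool.Agent.Lib.MP_e95c01_co.U.StLowK5

/-!
# U16: three vertices on each side
-/

namespace Pool.Agent.Lib.MP_e95c01_co.N

open Finset

variable {V : Type} [Fintype V] [DecidableEq V]

namespace CG

section strip

variable {G : CG V} {A B : Finset V}

theorem Strip.symm72 (h : G.Strip A B) : G.Strip B A := by
  have hp : ({B, A} : Finset (Finset V)) = {A, B} := pair_comm B A
  exact ⟨h.ne.symm, by rw [hp]; exact h.reg, h.bigB, h.bigA, h.n9, h.sat,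
    by rw [hp, union_comm]; exact h.sub⟩

theorem Strip.torso72 (h : G.Strip A B) (hc : G.CovU {A, B}) : G.TorsoU {A, B} := by
  refine ⟨h.reg, ?_, h.n9, h.sat, hc⟩
  intro C hC
  rw [mem_insert, mem_singleton] at hC
  rcases hC with rfl | rfl
  · exact h.bigA
  · exact h.bigB

theorem Strip.NA_R72 (h : G.Strip A B) {z : V} (hz : z ∈ G.N A) :
    z ∈ R ({A, B} : Finset (Finset V)) :=
  N_sub_R76 h.reg (mem_insert_self _ _) hz

theorem Strip.NB_R72 (h : G.Strip A B) {z : V} (hz : z ∈ G.N B) :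
    z ∈ R ({A, B} : Finset (Finset V)) :=
  N_sub_R76 h.reg (mem_insert_of_mem (mem_singleton_self _)) hz

theorem IA72 {z : V} (hz : z ∈ G.N A \ G.N B) : G.I {A, B} z = {A} := by
  rw [mem_sdiff] at hz
  ext C
  rw [mem_I76, mem_insert, mem_singleton, mem_singleton]
  constructor
  · rintro ⟨rfl | rfl, h⟩
    · rfl
    · exact absurd h hz.2
  · rintro rfl
    exact ⟨Or.inl rfl, hz.1⟩

theorem IB72 {z : V} (hz : z ∈ G.N B \ G.N A) : G.I {A, B} z = {B} := by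
  rw [pair_comm]
  exact IA72 hz

theorem IC72 (hne : A ≠ B) {z : V} (hz : z ∈ G.N A ∩ G.N B) : (G.I {A, B} z).card = 2 := by
  rw [mem_inter] at hz
  have h1 : G.I {A, B} z = {A, B} := by
    ext C
    rw [mem_I76, mem_insert, mem_singleton]
    constructor
    · rintro ⟨h, -⟩
      exact h
    · rintro (rfl | rfl)
      · exact ⟨Or.inl rfl, hz.1⟩
      · exact ⟨Or.inr rfl, hz.2⟩
  rw [h1, card_pair hne]

theorem Strip.ofI72 (h : G.Strip A B) {z : V} (hI : G.I {A, B} z = {A}) :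
    z ∈ G.N A \ G.N B := by
  have h1 : A ∈ G.I {A, B} z := by rw [hI]; exact mem_singleton_self _
  rw [mem_sdiff]
  refine ⟨(mem_I76.1 h1).2, fun h2 => ?_⟩
  have h3 : B ∈ G.I {A, B} z := mem_I76.2 ⟨mem_insert_of_mem (mem_singleton_self _), h2⟩
  rw [hI, mem_singleton] at h3
  exact h.ne h3.symm

theorem Strip.co72 (h : G.Strip A B) {z : V} (hz : z ∈ G.N A \ G.N B) :
    G.nb z ∩ G.Co A = G.nb z ∩ (G.N B \ G.N A) := by
  rw [mem_sdiff] at hz
  have hzR := mem_R76.1 (h.NA_R72 hz.1)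
  ext v
  rw [mem_inter, mem_inter, mem_Co76, mem_sdiff]
  constructor
  · rintro ⟨h1, h2, h3⟩
    refine ⟨h1, ?_, h3⟩
    have hvB : v ∉ B := fun hv =>
      hz.2 (mem_N76.2 ⟨hzR B (mem_insert_of_mem (mem_singleton_self _)), v, hv, G.sym _ _ h1⟩)
    have hvR : v ∈ R ({A, B} : Finset (Finset V)) := by
      rw [mem_R76]
      intro C hC
      rw [mem_insert, mem_singleton] at hC
      rcases hC with rfl | rfl
      · exact h2
      · exact hvB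
    rcases mem_union.1 (h.sub hvR) with h4 | h4
    · exact absurd h4 h3
    · exact h4
  · rintro ⟨h1, h2, h3⟩
    exact ⟨h1, mem_R76.1 (h.NB_R72 h2) A (mem_insert_self _ _), h3⟩

theorem Strip.R_eq72 (h : G.Strip A B) :
    R ({A, B} : Finset (Finset V)) =
      ((G.N A \ G.N B) ∪ (G.N B \ G.N A)) ∪ (G.N A ∩ G.N B) := by
  ext v
  constructor
  · intro hv
    have := h.sub hv
    rw [mem_union] at this
    simp only [mem_union, mem_inter, mem_sdiff]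
    by_cases h1 : v ∈ G.N A <;> by_cases h2 : v ∈ G.N B <;> simp_all
  · intro hv
    simp only [mem_union, mem_inter, mem_sdiff] at hv
    rcases hv with (hv | hv) | hv
    · exact h.NA_R72 hv.1
    · exact h.NB_R72 hv.1
    · exact h.NA_R72 hv.1

theorem Strip.sum72 (h : G.Strip A B) (f : V → ℤ) :
    ∑ z ∈ R ({A, B} : Finset (Finset V)), f z =
      ∑ z ∈ G.N A \ G.N B, f z + ∑ z ∈ G.N B \ G.N A, f z + ∑ z ∈ G.N A ∩ G.N B, f z := by
  rw [h.R_eq72, sum_union, sum_union]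
  · rw [disjoint_left]
    intro v h1 h2
    exact (mem_sdiff.1 h2).2 (mem_sdiff.1 h1).1
  · rw [disjoint_left]
    intro v h1 h2
    rw [mem_inter] at h2
    rcases mem_union.1 h1 with h3 | h3
    · exact (mem_sdiff.1 h3).2 h2.2
    · exact (mem_sdiff.1 h3).2 h2.1

theorem Strip.card_eq72 (h : G.Strip A B) :
    (G.N A \ G.N B).card = (G.N B \ G.N A).card := by
  have h1 := (h.reg.frag A (by simp)).2.1
  have h2 := (h.reg.frag B (by simp)).2.1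
  have h3 := card_sdiff_add_card_inter (G.N A) (G.N B)
  have h4 := card_sdiff_add_card_inter (G.N B) (G.N A)
  rw [inter_comm] at h4
  omega

/-- the vertices in both neighbourhoods -/
theorem Strip.mid72 (h : G.Strip A B) (h6 : G.StCh4) {z : V} (hz : z ∈ G.N A ∩ G.N B) :
    0 ≤ G.ch4 {A, B} z := by
  have hI := IC72 h.ne hz
  obtain ⟨c1, c2, c3⟩ := h6 h.n9 _ h.reg z (h.NA_R72 (mem_inter.1 hz).1)
  by_cases hl : G.Low z
  · exact (c1 hl).2.2 (by omega)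
  · by_cases ht : G.IsTw z
    · exact (c2 ht).2.2 (by omega)
    · have := (c3 ⟨hl, ht⟩).2.2 (by omega)
      have h0 : (0 : ℤ) ≤ (G.qn {A, B} z : ℤ) := by positivity
      linarith

end strip

section general

variable {G : CG V} {Fa : Finset (Finset V)}

theorem tw_ch72 (h6 : G.StCh4) (hT : G.TorsoU Fa) {z : V} (hz : z ∈ R Fa) (ht : G.IsTw z)
    {D : Finset V} (hI : G.I Fa z = {D}) (hd : 3 ≤ G.d z (G.Co D)) {a b : ℕ}
    (ha : a ≤ G.tl Fa z) (hb : b ≤ G.tt Fa z) : 3 * (a : ℤ) + b - 5 ≤ G.ch4 Fa z := by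
  rw [((h6 hT.n9 Fa hT.reg z hz).2.1 ht).2.1 D hI]
  have h1 : (3 : ℤ) ≤ (G.d z (G.Co D) : ℤ) := by exact_mod_cast hd
  have h2 : (a : ℤ) ≤ (G.tl Fa z : ℤ) := by exact_mod_cast ha
  have h3 : (b : ℤ) ≤ (G.tt Fa z : ℤ) := by exact_mod_cast hb
  linarith

theorem hub_ch72 (h6 : G.StCh4) (hT : G.TorsoU Fa) {z : V} (hz : z ∈ R Fa) (hh : G.Hub z)
    {D : Finset V} (hI : G.I Fa z = {D}) {a b : ℕ}
    (ha : a ≤ G.tp Fa z) (hb : b ≤ G.tt Fa z) : 2 * (a : ℤ) + b - 2 ≤ G.ch4 Fa z := by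
  rw [((h6 hT.n9 Fa hT.reg z hz).2.2 hh).2.1 D hI]
  have h2 : (a : ℤ) ≤ (G.tp Fa z : ℤ) := by exact_mod_cast ha
  have h3 : (b : ℤ) ≤ (G.tt Fa z : ℤ) := by exact_mod_cast hb
  linarith

/-- a low neighbour of a hub with two neighbours on the other side -/
theorem hub_tp72 (h7 : G.StTwHL) (hT : G.TorsoU Fa) {z w : V} (hz : z ∈ R Fa)
    {D : Finset V} (hI : G.I Fa z = {D}) (hd : 2 ≤ G.d z (G.Co D)) (hw : w ∈ G.nR Fa z)
    (hl : G.Low w) : 1 ≤ G.tp Fa z := by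
  by_cases hHL : ∃ b, G.HL z b w
  · obtain ⟨b, h⟩ := hHL
    have hb : b ∈ G.nR Fa z := by
      refine nR_of5 hz h.2.2.1 ?_
      intro B' hB' hbB
      rw [hI, mem_singleton] at hB'
      subst hB'
      have h1 : G.nb z ∩ G.Co B' ⊆ {w} := by
        intro x hx
        rw [mem_inter] at hx
        have h2 : x ∈ insert w (G.cl b) := by
          rw [← h.2.2.2.2, cl]
          exact mem_insert_of_mem hx.1
        rw [mem_insert] at h2
        rcases h2 with h2 | h2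
        · rw [mem_singleton]
          exact h2
        · exfalso
          rw [cl, mem_insert] at h2
          rcases h2 with h2 | h2
          · subst h2
            exact (mem_Co76.1 hx.2).1 hbB
          · exact nb_Co76 hx.2 (G.sym _ _ h2) hbB
      have h2 := Finset.card_le_card h1
      rw [Finset.card_singleton] at h2
      unfold d at hd
      omega
    obtain ⟨h1, h2, h3⟩ := HLb_paid5 h7 hT h hb
    exact tp_mem5 h1 h2 h3
  · exact tp_mem5 hw hl hHL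

/-- a hub adjacent to a low vertex and to a pair of twins -/
theorem hub_two72 (h7 : G.StTwHL) (h6 : G.StCh4) (hT : G.TorsoU Fa) {z l q q' : V}
    (hz : z ∈ R Fa) (hh : G.Hub z) {D : Finset V} (hI : G.I Fa z = {D})
    (hd : 2 ≤ G.d z (G.Co D)) (hl : l ∈ G.nR Fa z) (hll : G.Low l) (hq : q ∈ G.nR Fa z)
    (hq' : q' ∈ G.nR Fa z) (hqq : G.Tw q q') : 2 ≤ G.ch4 Fa z := by
  have h1 := hub_tp72 h7 hT hz hI hd hl hll
  have h2 := hub_tt5 hh hq hq' hqq (h7.symm _ _ hqq)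
  have := hub_ch72 h6 hT hz hh hI h1 h2
  push_cast at this
  linarith

/-- a hub with a covered edge to a twin vertex on the other side -/
theorem hub_cov72 (h7 : G.StTwHL) (h6 : G.StCh4) (hT : G.TorsoU Fa) {z q q' : V}
    (hz : z ∈ R Fa) (hh : G.Hub z) {D : Finset V} (hI : G.I Fa z = {D})
    (hd : 2 ≤ G.d z (G.Co D)) (hq : q ∈ G.nR Fa z)
    (hq' : q' ∈ G.nR Fa z) (hqq : G.Tw q q') (hqD : q ∈ G.Co D) : 2 ≤ G.ch4 Fa z := by
  have h2 := hub_tt5 hh hq hq' hqq (h7.symm _ _ hqq)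
  have key : 1 ≤ G.tp Fa z ∨ 4 ≤ G.tt Fa z := by
    rcases cov5 hT hz hq (m_Co5 hI hqD) with h | h | h | h | h
    · obtain ⟨w, k1, k2, k3⟩ := h
      exact Or.inl (hub_tp72 h7 hT hz hI hd k1 k2)
    · obtain ⟨v, w, k1, k2, k3, k4, k5⟩ := h
      obtain ⟨e1, e2, e3, e4, e5, e6⟩ := pairs5 h7 hT.n9 hqq k3 k4 k5
      have hn : ∀ y, ¬ G.Tw z y := fun y h => hh.2 ⟨y, h⟩
      exact Or.inr (tt_four5 hq ⟨⟨q', hqq⟩, hn _⟩ hq' ⟨⟨q, h7.symm _ _ hqq⟩, hn _⟩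
        k1 ⟨⟨w, k3⟩, hn _⟩ k2 ⟨⟨v, h7.symm _ _ k3⟩, hn _⟩ e1 e2 e3 e4 e5 e6)
    · obtain ⟨a, b, k1, k2⟩ := h
      exact absurd (hT.sat _ _ _ k2) hh.1
    · obtain ⟨a, b, k1, k2, k3⟩ := h
      exfalso
      have k4 : (G.nb q).card = 6 := hT.sat _ _ _ k2
      have k5 := hqq.2.1
      omega
    · obtain ⟨a, b, k1, k2⟩ := h
      exact absurd ⟨q', hqq⟩ (h7.twLL _ _ _ _ k2).2
  rcases key with key | key
  · have := hub_ch72 h6 hT hz hh hI key h2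
    push_cast at this
    linarith
  · have := hub_ch72 h6 hT hz hh hI (Nat.zero_le _) key
    push_cast at this
    linarith

end general

/-- the hypotheses on the torso -/
structure Ctx72 (G : CG V) (A B : Finset V) : Prop where
  h6 : G.StCh4
  h7 : G.StTwHL
  h8 : G.StHub
  h9 : G.StLowK
  h10 : G.StTwK
  st : G.Strip A B
  cov : G.CovU {A, B}
  three : (G.N A \ G.N B).card = 3
  exp : ∀ z ∈ R {A, B}, ∀ D, G.I {A, B} z = {D} → 2 ≤ G.d z (G.Co D) ∧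
    (G.IsTw z → 3 ≤ G.d z (G.Co D))

variable {G : CG V} {A B : Finset V}

theorem Ctx72.symm (h : G.Ctx72 A B) : G.Ctx72 B A := by
  have hp : ({B, A} : Finset (Finset V)) = {A, B} := pair_comm B A
  exact ⟨h.h6, h.h7, h.h8, h.h9, h.h10, h.st.symm72, by rw [hp]; exact h.cov,
    by rw [← h.st.card_eq72]; exact h.three, by rw [hp]; exact h.exp⟩

theorem Ctx72.lb (h : G.Ctx72 A B) {x : V} (hx : x ∈ R {A, B}) {D : Finset V}
    (hI : G.I {A, B} x = {D}) : -2 ≤ G.ch4 {A, B} x := by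
  have hT := h.st.torso72 h.cov
  obtain ⟨d2, d3⟩ := h.exp x hx D hI
  by_cases hl : G.Low x
  · rcases h.h9 _ hT x hx hl D hI d2 with h1 | ⟨v, hv⟩
    · linarith
    · have := hv.2.2.2.2.2.2.2.2
      linarith
  · by_cases ht : G.IsTw x
    · rcases h.h10 _ hT x hx ht D hI (d3 ht) with h1 | ⟨v, hv⟩
      · linarith
      · have := hv.2.2.2.2.2.2.2.2
        linarith
    · have := (h.h8 _ hT x hx ⟨hl, ht⟩).2 D hI d2
      linarith

/-- a twin vertex is adjacent to the whole other side -/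
theorem Ctx72.full (h : G.Ctx72 A B) {q : V} (hq : q ∈ G.N A \ G.N B) (ht : G.IsTw q) :
    G.N B \ G.N A ⊆ G.nb q := by
  have h1 := (h.exp q (h.st.NA_R72 (mem_sdiff.1 hq).1) A (IA72 hq)).2 ht
  unfold d at h1
  rw [h.st.co72 hq] at h1
  have h2 : G.nb q ∩ (G.N B \ G.N A) = G.N B \ G.N A := by
    apply eq_of_subset_of_card_le inter_subset_right
    rw [← h.st.card_eq72, h.three]
    exact h1
  rw [← h2]
  exact inter_subset_left

theorem Ctx72.twin (h : G.Ctx72 A B) {q q' : V} (hq : q ∈ G.N A \ G.N B) (ht : G.Tw q q') :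
    q' ∈ G.N A \ G.N B := by
  have h1 := h.h7.twI _ h.st.reg q (h.st.NA_R72 (mem_sdiff.1 hq).1) q' ht
  exact h.st.ofI72 (by rw [h1.2, IA72 hq])

theorem not_low_tw72 {q q' : V} (h : G.Tw q q') : ¬ G.Low q := by
  intro h1
  have h2 : (G.nb q).card = 6 := h1
  have h3 := h.2.1
  omega

omit [Fintype V] in
theorem three_eq72 {S : Finset V} (hS : S.card = 3) {a b c : V} (ha : a ∈ S) (hb : b ∈ S)
    (hc : c ∈ S) (h1 : a ≠ b) (h2 : a ≠ c) (h3 : b ≠ c) : ({a, b, c} : Finset V) = S := by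
  apply eq_of_subset_of_card_le
  · intro x hx
    simp only [mem_insert, mem_singleton] at hx
    rcases hx with rfl | rfl | rfl <;> assumption
  · rw [hS, card_insert_of_notMem, card_pair h3]
    simp [h1, h2]

omit [Fintype V] in
theorem sum_three72 {a b c : V} (f : V → ℤ) (h1 : a ≠ b) (h2 : a ≠ c) (h3 : b ≠ c) :
    ∑ x ∈ ({a, b, c} : Finset V), f x = f a + f b + f c := by
  rw [sum_insert, sum_pair h3]
  · ring
  · simp [h1, h2]

/-- the data of a low vertex and a pair of twins on one side -/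
structure Trip72 (G : CG V) (A B : Finset V) (l q q' : V) : Prop where
  ml : l ∈ G.N A \ G.N B
  mq : q ∈ G.N A \ G.N B
  low : G.Low l
  tw : G.Tw q q'
  adj : l ∈ G.nb q

theorem Trip72.q' (h : G.Ctx72 A B) {l q q' : V} (t : G.Trip72 A B l q q') :
    q' ∈ G.N A \ G.N B := h.twin t.mq t.tw

theorem Trip72.ne1 {l q q' : V} (t : G.Trip72 A B l q q') : l ≠ q := by
  rintro rfl
  exact not_low_tw72 t.tw t.low

theorem Trip72.ne2 (h : G.Ctx72 A B) {l q q' : V} (t : G.Trip72 A B l q q') : l ≠ q' := by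
  rintro rfl
  exact not_low_tw72 (h.h7.symm _ _ t.tw) t.low

theorem Trip72.swap (h : G.Ctx72 A B) {l q q' : V} (t : G.Trip72 A B l q q') :
    G.Trip72 A B l q' q :=
  ⟨t.ml, t.q' h, t.low, h.h7.symm _ _ t.tw, Tw_nb5 t.tw t.adj (t.ne2 h)⟩

theorem Trip72.eq (h : G.Ctx72 A B) {l q q' : V} (t : G.Trip72 A B l q q') :
    ({l, q, q'} : Finset V) = G.N A \ G.N B :=
  three_eq72 h.three t.ml t.mq (t.q' h) t.ne1 (t.ne2 h) (ne_of_nb5 t.tw.1)

theorem Trip72.sum (h : G.Ctx72 A B) {l q q' : V} (t : G.Trip72 A B l q q') (f : V → ℤ) :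
    ∑ x ∈ G.N A \ G.N B, f x = f l + f q + f q' := by
  rw [← t.eq h, sum_three72 f t.ne1 (t.ne2 h) (ne_of_nb5 t.tw.1)]

/-- hubs on the other side adjacent to `l` -/
theorem Trip72.hub (h : G.Ctx72 A B) {l q q' : V} (t : G.Trip72 A B l q q') {s : V}
    (hs : s ∈ G.N B \ G.N A) (hh : G.Hub s) (hl : s ∈ G.nb l) : 2 ≤ G.ch4 {A, B} s := by
  have hT := h.st.torso72 h.cov
  have hsR := h.st.NB_R72 (mem_sdiff.1 hs).1
  have hf := h.full t.mq ⟨q', t.tw⟩ hs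
  have hf' := h.full (t.q' h) ⟨q, h.h7.symm _ _ t.tw⟩ hs
  refine hub_two72 h.h7 h.h6 hT (l := l) (q := q) (q' := q') hsR hh (IB72 hs)
    (h.exp s hsR B (IB72 hs)).1 ?_ t.low ?_ ?_ t.tw
  · exact mem_nR76.2 ⟨G.sym _ _ hl, h.st.NA_R72 (mem_sdiff.1 t.ml).1⟩
  · exact mem_nR76.2 ⟨G.sym _ _ hf, h.st.NA_R72 (mem_sdiff.1 t.mq).1⟩
  · exact mem_nR76.2 ⟨G.sym _ _ hf', h.st.NA_R72 (mem_sdiff.1 (t.q' h)).1⟩

/-- exceptional twin vertices -/
theorem Trip72.caseT (h : G.Ctx72 A B) {l q q' : V} (t : G.Trip72 A B l q q')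
    (hO : ∀ s ∈ G.N B \ G.N A, G.Hub s ∧ s ∈ G.nb l) :
    0 ≤ ∑ z ∈ G.N A \ G.N B, G.ch4 {A, B} z + ∑ z ∈ G.N B \ G.N A, G.ch4 {A, B} z := by
  have h1 : ∑ z ∈ G.N B \ G.N A, (2 : ℤ) ≤ ∑ z ∈ G.N B \ G.N A, G.ch4 {A, B} z :=
    sum_le_sum fun s hs => t.hub h hs (hO s hs).1 (hO s hs).2
  rw [sum_const, ← h.st.card_eq72, h.three] at h1
  have h2 := h.lb (h.st.NA_R72 (mem_sdiff.1 t.ml).1) (IA72 t.ml)
  have h3 := h.lb (h.st.NA_R72 (mem_sdiff.1 t.mq).1) (IA72 t.mq)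
  have h4 := h.lb (h.st.NA_R72 (mem_sdiff.1 (t.q' h)).1) (IA72 (t.q' h))
  rw [t.sum h]
  norm_num at h1
  linarith

/-- the twin vertex `q` is not exceptional if `l` is not adjacent to the whole other side -/
theorem Trip72.qpos (h : G.Ctx72 A B) {l q q' : V} (t : G.Trip72 A B l q q')
    (hl : ¬ G.N B \ G.N A ⊆ G.nb l) : 0 ≤ G.ch4 {A, B} q := by
  have hT := h.st.torso72 h.cov
  have hqR := h.st.NA_R72 (mem_sdiff.1 t.mq).1
  rcases h.h10 _ hT q hqR ⟨q', t.tw⟩ A (IA72 t.mq)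
    ((h.exp q hqR A (IA72 t.mq)).2 ⟨q', t.tw⟩) with h1 | ⟨l', hl'⟩
  · exact h1
  · exfalso
    obtain ⟨k1, -, k3, k4, -⟩ := hl'
    have k5 := h.st.ofI72 k3
    have k6 : l' = l := by
      rw [← t.eq h] at k5
      simp only [mem_insert, mem_singleton] at k5
      rcases k5 with rfl | rfl | rfl
      · rfl
      · exact absurd k1 (not_low_tw72 t.tw)
      · exact absurd k1 (not_low_tw72 (h.h7.symm _ _ t.tw))
    subst k6
    rw [h.st.co72 t.ml, h.st.co72 t.mq] at k4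
    apply hl
    intro s hs
    have k7 : s ∈ G.nb q ∩ (G.N B \ G.N A) := mem_inter.2 ⟨h.full t.mq ⟨q', t.tw⟩ hs, hs⟩
    rw [← k4] at k7
    exact (mem_inter.1 k7).1

/-- exceptional low vertices, two hubs -/
theorem Trip72.caseL2 (h : G.Ctx72 A B) {l q q' : V} (t : G.Trip72 A B l q q')
    {s1 s2 : V} (h12 : s1 ≠ s2) (e : G.nb l ∩ (G.N B \ G.N A) = {s1, s2})
    (hh1 : G.Hub s1) (hh2 : G.Hub s2) :
    0 ≤ ∑ z ∈ G.N A \ G.N B, G.ch4 {A, B} z + ∑ z ∈ G.N B \ G.N A, G.ch4 {A, B} z := by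
  have m1 : s1 ∈ G.nb l ∩ (G.N B \ G.N A) := by rw [e]; simp
  have m2 : s2 ∈ G.nb l ∩ (G.N B \ G.N A) := by rw [e]; simp
  have hne : ¬ G.N B \ G.N A ⊆ G.nb l := by
    intro hc
    have k1 := card_le_card (subset_inter hc (Subset.refl _))
    rw [e, card_pair h12, ← h.st.card_eq72, h.three] at k1
    omega
  have hex : ∃ s3 ∈ G.N B \ G.N A, s3 ∉ ({s1, s2} : Finset V) := by
    by_contra hc
    push Not at hc
    have k1 := card_le_card (show G.N B \ G.N A ⊆ {s1, s2} from hc)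
    rw [card_pair h12, ← h.st.card_eq72, h.three] at k1
    omega
  obtain ⟨s3, hs3, h3⟩ := hex
  simp only [mem_insert, mem_singleton, not_or] at h3
  have hO := three_eq72 (by rw [← h.st.card_eq72]; exact h.three) (mem_inter.1 m1).2
    (mem_inter.1 m2).2 hs3 h12 (Ne.symm h3.1) (Ne.symm h3.2)
  have c1 := h.lb (h.st.NA_R72 (mem_sdiff.1 t.ml).1) (IA72 t.ml)
  have c2 := t.qpos h hne
  have c3 := (t.swap h).qpos h hne
  have c4 := t.hub h (mem_inter.1 m1).2 hh1 (mem_inter.1 m1).1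
  have c5 := t.hub h (mem_inter.1 m2).2 hh2 (mem_inter.1 m2).1
  have c6 := h.lb (h.st.NB_R72 (mem_sdiff.1 hs3).1) (IB72 hs3)
  rw [t.sum h, ← hO, sum_three72 _ h12 (Ne.symm h3.1) (Ne.symm h3.2)]
  linarith

/-- number of twin neighbours on the other side -/
theorem Ctx72.tt2 (h : G.Ctx72 A B) {q v w : V} (hq : q ∈ G.N A \ G.N B) (ht : G.IsTw q)
    (hv : v ∈ G.N B \ G.N A) (hw : w ∈ G.N B \ G.N A) (hvw : G.Tw v w) :
    2 ≤ G.tt {A, B} q := by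
  have hf := h.full hq ht
  have hno : ∀ x ∈ G.N B \ G.N A, ¬ G.Tw q x := by
    intro x hx hqx
    exact (mem_sdiff.1 hx).2 (mem_sdiff.1 (h.twin hq hqx)).1
  exact tt_two5 (mem_nR76.2 ⟨hf hv, h.st.NB_R72 (mem_sdiff.1 hv).1⟩) ⟨⟨w, hvw⟩, hno v hv⟩
    (mem_nR76.2 ⟨hf hw, h.st.NB_R72 (mem_sdiff.1 hw).1⟩) ⟨⟨v, h.h7.symm _ _ hvw⟩, hno w hw⟩
    (ne_of_nb5 hvw.1)

/-- exceptional low vertices, twins on the other side -/
theorem Trip72.caseL1 (h : G.Ctx72 A B) {l q q' : V} (t : G.Trip72 A B l q q')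
    {s : V} (hs : s ∈ G.N B \ G.N A) (hsl : s ∈ G.nb l) (hst : G.IsTw s) :
    0 ≤ ∑ z ∈ G.N A \ G.N B, G.ch4 {A, B} z + ∑ z ∈ G.N B \ G.N A, G.ch4 {A, B} z := by
  classical
  have hT := h.st.torso72 h.cov
  have hT' := h.symm.st.torso72 h.symm.cov
  have hp : ({B, A} : Finset (Finset V)) = {A, B} := pair_comm B A
  obtain ⟨s', hss⟩ := hst
  have hs' := h.symm.twin hs hss
  have hss' := h.h7.symm _ _ hss
  have hls' : l ∈ G.nb s' := by
    refine Tw_nb5 hss (G.sym _ _ hsl) ?_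
    rintro rfl
    exact not_low_tw72 hss' t.low
  have hne : s ≠ s' := ne_of_nb5 hss.1
  have hlR := h.st.NA_R72 (mem_sdiff.1 t.ml).1
  have hqR := h.st.NA_R72 (mem_sdiff.1 t.mq).1
  have hq'R := h.st.NA_R72 (mem_sdiff.1 (t.q' h)).1
  have hsR := h.st.NB_R72 (mem_sdiff.1 hs).1
  have hs'R := h.st.NB_R72 (mem_sdiff.1 hs').1
  -- the third vertex
  have hex : ∃ s3 ∈ G.N B \ G.N A, s3 ∉ ({s, s'} : Finset V) := by
    by_contra hc
    push Not at hc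
    have k1 := card_le_card (show G.N B \ G.N A ⊆ {s, s'} from hc)
    rw [card_pair hne, ← h.st.card_eq72, h.three] at k1
    omega
  obtain ⟨s3, hs3, h3⟩ := hex
  simp only [mem_insert, mem_singleton, not_or] at h3
  have hO := three_eq72 (by rw [← h.st.card_eq72]; exact h.three) hs hs' hs3 hne
    (Ne.symm h3.1) (Ne.symm h3.2)
  have hs3R := h.st.NB_R72 (mem_sdiff.1 hs3).1
  have c1 := h.lb hlR (IA72 t.ml)
  have c6 := h.lb hs3R (IB72 hs3)
  -- the twins `s`, `s'`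
  have hts : 2 ≤ G.tt {A, B} s := by
    rw [← hp]
    exact h.symm.tt2 hs ⟨s', hss⟩ t.mq (t.q' h) t.tw
  have hts' : 2 ≤ G.tt {A, B} s' := by
    rw [← hp]
    exact h.symm.tt2 hs' ⟨s, hss'⟩ t.mq (t.q' h) t.tw
  have c4 := tw_ch72 h.h6 hT hsR ⟨s', hss⟩ (IB72 hs) ((h.exp s hsR B (IB72 hs)).2 ⟨s', hss⟩)
    (tl_mem5 (mem_nR76.2 ⟨G.sym _ _ hsl, hlR⟩) t.low) hts
  have c5 := tw_ch72 h.h6 hT hs'R ⟨s, hss'⟩ (IB72 hs')
    ((h.exp s' hs'R B (IB72 hs')).2 ⟨s, hss'⟩)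
    (tl_mem5 (mem_nR76.2 ⟨hls', hlR⟩) t.low) hts'
  -- the twins `q`, `q'`
  have htq := h.tt2 t.mq ⟨q', t.tw⟩ hs hs' hss
  have htq' := h.tt2 (t.q' h) ⟨q, h.h7.symm _ _ t.tw⟩ hs hs' hss
  have dq := (h.exp q hqR A (IA72 t.mq)).2 ⟨q', t.tw⟩
  have dq' := (h.exp q' hq'R A (IA72 (t.q' h))).2 ⟨q, h.h7.symm _ _ t.tw⟩
  have hlq : l ∈ G.nR {A, B} q := mem_nR76.2 ⟨t.adj, hlR⟩
  have hlq' : l ∈ G.nR {A, B} q' := mem_nR76.2 ⟨(t.swap h).adj, hlR⟩
  have f3 := h.full t.mq ⟨q', t.tw⟩ hs3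
  have f3' := h.full (t.q' h) ⟨q, h.h7.symm _ _ t.tw⟩ hs3
  rw [t.sum h, ← hO, sum_three72 _ hne (Ne.symm h3.1) (Ne.symm h3.2)]
  have hl3 : l ≠ s3 := by
    rintro rfl
    exact (mem_sdiff.1 t.ml).2 (mem_sdiff.1 hs3).1
  by_cases hlow : G.Low s3
  · have c2 := tw_ch72 h.h6 hT hqR ⟨q', t.tw⟩ (IA72 t.mq) dq
      (tl_two5 hlq t.low (mem_nR76.2 ⟨f3, hs3R⟩) hlow hl3) htq
    have c3 := tw_ch72 h.h6 hT hq'R ⟨q, h.h7.symm _ _ t.tw⟩ (IA72 (t.q' h)) dq'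
      (tl_two5 hlq' t.low (mem_nR76.2 ⟨f3', hs3R⟩) hlow hl3) htq'
    push_cast at c2 c3 c4 c5
    linarith
  · have c2 := tw_ch72 h.h6 hT hqR ⟨q', t.tw⟩ (IA72 t.mq) dq (tl_mem5 hlq t.low) htq
    have c3 := tw_ch72 h.h6 hT hq'R ⟨q, h.h7.symm _ _ t.tw⟩ (IA72 (t.q' h)) dq'
      (tl_mem5 hlq' t.low) htq'
    have hh : G.Hub s3 := by
      refine ⟨hlow, ?_⟩
      rintro ⟨s3', h33⟩
      have k1 := h.symm.twin hs3 h33
      rw [← hO] at k1
      simp only [mem_insert, mem_singleton] at k1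
      rcases k1 with rfl | rfl | rfl
      · exact h3.2 (h.h7.uniq h.st.n9 _ _ _ (h.h7.symm _ _ h33) hss)
      · exact h3.1 (h.h7.uniq h.st.n9 _ _ _ (h.h7.symm _ _ h33) hss')
      · exact G.irr _ h33.1
    have hqB : q ∈ G.Co B := by
      have k1 := mem_sdiff.1 t.mq
      exact mem_Co76.2 ⟨mem_R76.1 hqR B (mem_insert_of_mem (mem_singleton_self _)), k1.2⟩
    have c7 := hub_cov72 h.h7 h.h6 hT hs3R hh (IB72 hs3) (h.exp s3 hs3R B (IB72 hs3)).1
      (mem_nR76.2 ⟨G.sym _ _ f3, hqR⟩) (mem_nR76.2 ⟨G.sym _ _ f3', hq'R⟩) t.tw hqB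
    push_cast at c2 c3 c4 c5
    linarith

/-- one side -/
theorem Ctx72.side (h : G.Ctx72 A B) : (∀ z ∈ G.N A \ G.N B, 0 ≤ G.ch4 {A, B} z) ∨
    0 ≤ ∑ z ∈ G.N A \ G.N B, G.ch4 {A, B} z + ∑ z ∈ G.N B \ G.N A, G.ch4 {A, B} z := by
  have hT := h.st.torso72 h.cov
  by_cases hall : ∀ z ∈ G.N A \ G.N B, 0 ≤ G.ch4 {A, B} z
  · exact Or.inl hall
  right
  push Not at hall
  obtain ⟨z, hz, hneg⟩ := hall
  have hzR := h.st.NA_R72 (mem_sdiff.1 hz).1
  obtain ⟨d2, d3⟩ := h.exp z hzR A (IA72 hz)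
  by_cases hl : G.Low z
  · rcases h.h9 _ hT z hzR hl A (IA72 hz) d2 with h1 | ⟨q, hq⟩
    · omega
    obtain ⟨⟨q', hqq⟩, k2, k3, k4, -, -, k7, -, -⟩ := hq
    have t : G.Trip72 A B z q q' := ⟨hz, h.st.ofI72 k3, hl, hqq, G.sym _ _ k2⟩
    unfold d at k4
    rw [h.st.co72 hz] at k4
    obtain ⟨s1, s2, h12, e⟩ := card_eq_two.1 k4
    have m1 : s1 ∈ G.nb z ∩ (G.N B \ G.N A) := by rw [e]; simp
    have m2 : s2 ∈ G.nb z ∩ (G.N B \ G.N A) := by rw [e]; simp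
    rw [mem_inter] at m1 m2
    by_cases t1 : G.IsTw s1
    · exact t.caseL1 h m1.2 m1.1 t1
    by_cases t2 : G.IsTw s2
    · exact t.caseL1 h m2.2 m2.1 t2
    have hnl : ∀ s ∈ G.N B \ G.N A, s ∈ G.nb z → ¬ G.Low s := by
      intro s hs hsz hsl
      have := tl_mem5 (mem_nR76.2 ⟨hsz, h.st.NB_R72 (mem_sdiff.1 hs).1⟩) hsl
      omega
    exact t.caseL2 h h12 e ⟨hnl s1 m1.2 m1.1, t1⟩ ⟨hnl s2 m2.2 m2.1, t2⟩
  · by_cases ht : G.IsTw z
    · rcases h.h10 _ hT z hzR ht A (IA72 hz) (d3 ht) with h1 | ⟨l, hl'⟩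
      · omega
      obtain ⟨k1, k2, k3, k4, k5, k6, -, -, -⟩ := hl'
      obtain ⟨z', hzz⟩ := ht
      have t : G.Trip72 A B l z z' := ⟨h.st.ofI72 k3, hz, k1, hzz, k2⟩
      refine t.caseT h ?_
      intro s hs
      have m1 : s ∈ G.nb z ∩ G.Co A := by
        rw [h.st.co72 hz]
        exact mem_inter.2 ⟨h.full hz ⟨z', hzz⟩ hs, hs⟩
      refine ⟨k6 s m1, ?_⟩
      rw [← k4] at m1
      exact (mem_inter.1 m1).1
    · have := (h.h8 _ hT z hzR ⟨hl, ht⟩).2 A (IA72 hz) d2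
      omega

theorem stThin3_72 (G : CG V) (h7 : G.StTwHL) (h6 : G.StCh4) (h8 : G.StHub) (h9 : G.StLowK)
    (h10 : G.StTwK) : G.StThin3 := by
  intro A B hst h3 hcov hexp
  have h : G.Ctx72 A B := ⟨h6, h7, h8, h9, h10, hst, hcov, h3, hexp⟩
  have hp : ({B, A} : Finset (Finset V)) = {A, B} := pair_comm B A
  have hC : 0 ≤ ∑ z ∈ G.N A ∩ G.N B, G.ch4 {A, B} z :=
    sum_nonneg fun z hz => hst.mid72 h6 hz
  rw [hst.sum72]
  rcases h.side with h1 | h1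
  · rcases h.symm.side with h2 | h2
    · rw [hp] at h2
      have e1 := sum_nonneg h1
      have e2 := sum_nonneg h2
      linarith
    · rw [hp] at h2
      linarith
  · linarith

end CG

end Pool.Agent.Lib.MP_e95c01_co.N
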