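import Pool.Agent.Lib.MP_e95c01_co.U.Bridge76

/-!
# U7: twins and `HL`
-/

namespace Pool.Agent.Lib.MP_e95c01_co.N

open Finset

variable {V : Type} [Fintype V] [DecidableEq V]

namespace CG

theorem nomut76 {G : CG V} (h9 : 9 ≤ Fintype.card V) {a b t b' t' : V} (h : G.HL a b t)
    (h' : G.HL a b' t') : t ≠ b' := by
  rintro rfl
  obtain ⟨h1, h2⟩ := hl_iff76.1 h
  obtain ⟨h3, h4⟩ := hl_iff76.1 h'
  have hta : t ∈ G.nb a := h1.ta
  have hba : b ∈ G.nb a := G.sym _ _ h1.ab
  have hbt : b ∉ G.nb t := fun hh => h1.nt (G.sym _ _ hh)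
  have ht'b : t' = b := by
    by_contra hne
    exact hbt (h3.mem_b hba h1.tb.symm (Ne.symm hne))
  rw [ht'b] at h3
  have h5 : (((G.nb a).erase b).erase t).card = 5 := by
    rw [card_erase_of_mem (mem_erase.2 ⟨h1.tb, hta⟩), card_erase_of_mem hba, h1.card h2]
  have h6 : ({a, b, t} : Finset V).card ≤ 3 := card_le_three
  refine no5_76 (G := G) (Z := {a, b, t}) (T := ((G.nb a).erase b).erase t)
    (insert_nonempty _ _) ?_ ?_ h5.le (by omega)
  · rw [disjoint_left]
    intro x hx hx'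
    rw [mem_erase, mem_erase] at hx'
    rw [mem_insert, mem_insert, mem_singleton] at hx
    rcases hx with h7 | h7 | h7
    · rw [h7] at hx'
      exact G.irr _ hx'.2.2
    · exact hx'.2.1 h7
    · exact hx'.1 h7
  · intro x hx y hy
    rw [mem_union, mem_erase, mem_erase, mem_insert, mem_insert, mem_singleton]
    have h7 : y ≠ a → y ∈ G.nb a := by
      intro hya
      rw [mem_insert, mem_insert, mem_singleton] at hx
      rcases hx with h8 | h8 | h8
      · rw [← h8]; exact hy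
      · rw [h8] at hy
        exact h1.mem_a hy hya
      · rw [h8] at hy
        exact h3.mem_a hy hya
    by_cases hya : y = a
    · exact Or.inl (Or.inl hya)
    by_cases hyb : y = b
    · exact Or.inl (Or.inr (Or.inl hyb))
    by_cases hyt : y = t
    · exact Or.inl (Or.inr (Or.inr hyt))
    exact Or.inr ⟨hyt, hyb, h7 hya⟩

theorem notHL76 {G : CG V} (h9 : 9 ≤ Fintype.card V) {a b t : V} (h : G.HL a b t) :
    ¬ G.IsTw a := by
  rw [isTw_iff76]
  rintro ⟨u, hu⟩
  obtain ⟨h1, h2⟩ := hl_iff76.1 h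
  exact hl_tw76 h9 h1 h2 hu

theorem twLL76 {G : CG V} {a b t u : V} (h : G.LL a b t u) : ¬ G.IsTw t := by
  rw [isTw_iff76]
  rintro ⟨v, hv⟩
  obtain ⟨h1, h2, h3, h4, h5, h6, h7⟩ := h
  have hta : t ∈ G.cl a := by
    have : t ∈ insert u (G.cl a) := by rw [h7]; exact mem_insert_self _ _
    rw [mem_insert] at this
    exact this.resolve_left h4
  have hta' : t ∈ G.nb a := by
    rw [mem_cl76] at hta
    rcases hta with h8 | h8
    · exact absurd h8.symm (hv.ne_low h1)
    · exact h8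
  have hva : v ∈ G.nb a := G.sym _ _ ((hv.iff (hv.ne_low h1) (hv.ne_low' h1)).1 (G.sym _ _ hta'))
  have hvb : v ∈ G.cl b := by
    have : v ∈ insert t (G.cl b) := by
      rw [← h7]
      exact mem_insert_of_mem (mem_cl76.2 (Or.inr hva))
    rw [mem_insert] at this
    exact this.resolve_left hv.ne.symm
  rw [mem_cl76] at hvb
  rcases hvb with h8 | h8
  · exact hv.ne_low' h2 h8.symm
  · exact h5 (mem_cl76.2 (Or.inr (G.sym _ _
      ((hv.iff (hv.ne_low h2) (hv.ne_low' h2)).2 (G.sym _ _ h8)))))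

theorem LL.symm76 {G : CG V} {a b t u : V} (h : G.LL a b t u) : G.LL b a u t :=
  ⟨h.2.1, h.1, G.sym _ _ h.2.2.1, h.2.2.2.1.symm, h.2.2.2.2.2.1, h.2.2.2.2.1,
    h.2.2.2.2.2.2.symm⟩

theorem mem_R76 {Fa : Finset (Finset V)} {v : V} : v ∈ R Fa ↔ ∀ B ∈ Fa, v ∉ B := by
  rw [R, mem_compl, mem_biUnion]
  constructor
  · intro h B hB hv
    exact h ⟨B, hB, hv⟩
  · rintro h ⟨B, hB, hv⟩
    exact h B hB hv

theorem twI76 {G : CG V} {Fa : Finset (Finset V)} (hreg : G.Reg Fa) {v w : V} (hv : v ∈ R Fa)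
    (h : G.Tw76 v w) : w ∈ R Fa ∧ G.I Fa w = G.I Fa v := by
  have hw : w ∈ R Fa := by
    rw [mem_R76]
    intro B hB hwB
    have hvB := mem_R76.1 hv B hB
    obtain ⟨hCf, hCN, hCC⟩ := G.stCo_37 B (hreg.frag B hB)
    have hvN : v ∈ G.N B := mem_N37.2 ⟨hvB, w, hwB, G.sym _ _ h.adj⟩
    obtain ⟨u, hu, huv⟩ := nbr_in37 (F := G.Co B) (by rw [hCN]; exact hvN)
    rw [mem_Co37'] at hu
    have huw : u ≠ w := fun hh => hu.1 (by rw [hh]; exact hwB)
    exact hu.2 w hwB ((h.iff (nb_ne76 huv) huw).1 huv)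
  refine ⟨hw, ?_⟩
  ext B
  simp only [I, mem_filter]
  constructor
  · rintro ⟨hB, h1⟩
    obtain ⟨u, hu, huw⟩ := nbr_in37 h1
    refine ⟨hB, mem_N37.2 ⟨mem_R76.1 hv B hB, u, hu, G.sym _ _ ?_⟩⟩
    exact (h.iff (fun hh => mem_R76.1 hv B hB (by rw [← hh]; exact hu)) (nb_ne76 huw)).2 huw
  · rintro ⟨hB, h1⟩
    obtain ⟨u, hu, huv⟩ := nbr_in37 h1
    refine ⟨hB, mem_N37.2 ⟨mem_R76.1 hw B hB, u, hu, G.sym _ _ ?_⟩⟩
    exact (h.iff (nb_ne76 huv) (fun hh => mem_R76.1 hw B hB (by rw [← hh]; exact hu))).1 huv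

/-- U7 -/
theorem stTwHL_76 (G : CG V) : G.StTwHL where
  symm v w h := tw_iff76.2 (tw_iff76.1 h).symm
  uniq h9 v w w' h h' := mate76 h9 (tw_iff76.1 h) (tw_iff76.1 h')
  notHL h9 a b t h := notHL76 h9 h
  nomut h9 a b t b' t' h h' := nomut76 h9 h h'
  two h9 a b t b' t' h h' hne := by
    have h1 := h.2.2.2.2
    have h2 := h'.2.2.2.2
    have hbb : b ≠ b' := by
      rintro rfl
      have h3 : t ∈ insert t' (G.cl b) := by
        rw [← h2, h1]
        exact mem_insert_self _ _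
      rw [mem_insert] at h3
      rcases h3 with h3 | h3
      · exact hne h3
      · exact h.2.2.2.1 h3
    have hbt' : b ≠ t' := fun hh => nomut76 h9 h' h hh.symm
    have e1 : b ∈ G.nb b' := by
      have h3 : b ∈ insert t' (G.cl b') := by
        rw [← h2]
        exact mem_cl76.2 (Or.inr h.2.2.1)
      rw [mem_insert, mem_cl76] at h3
      rcases h3 with h3 | h3 | h3
      · exact absurd h3 hbt'
      · exact absurd h3 hbb
      · exact h3
    refine ⟨e1, ?_, hbb⟩
    have h3 : t' ∈ insert t (G.cl b) := by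
      rw [← h1, h2]
      exact mem_insert_self _ _
    rw [mem_insert, mem_cl76] at h3
    rcases h3 with h3 | h3 | h3
    · exact absurd h3.symm hne
    · exact absurd h3.symm hbt'
    · exact G.sym _ _ h3
  one h9 a a' b t h h' := by
    by_contra hne
    have h1 : G.cl a = G.cl a' := h.2.2.2.2.trans h'.2.2.2.2.symm
    have h2 : a' ∈ G.nb a := by
      have h3 : a' ∈ G.cl a := by
        rw [h1]
        exact mem_cl76.2 (Or.inl rfl)
      rw [mem_cl76] at h3
      exact h3.resolve_left (Ne.symm hne)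
    exact notHL76 h9 h ⟨a', h2, h.1, h1⟩
  twLL a b t u h := ⟨twLL76 h, twLL76 h.symm76⟩
  twI Fa hreg v hv w h := twI76 hreg hv (tw_iff76.1 h)
  hlI Fa hreg a ha b hb t ht h := by
    obtain ⟨h1, h2⟩ := hl_iff76.1 h
    ext B
    simp only [I, mem_filter]
    constructor
    · rintro ⟨hB, h3⟩
      obtain ⟨u, hu, hua⟩ := nbr_in37 h3
      refine ⟨hB, mem_N37.2 ⟨mem_R76.1 hb B hB, u, hu, G.sym _ _ ?_⟩⟩
      exact h1.mem_b hua (fun hh => mem_R76.1 hb B hB (by rw [← hh]; exact hu))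
        (fun hh => mem_R76.1 ht B hB (by rw [← hh]; exact hu))
    · rintro ⟨hB, h3⟩
      obtain ⟨u, hu, hub⟩ := nbr_in37 h3
      refine ⟨hB, mem_N37.2 ⟨mem_R76.1 ha B hB, u, hu, G.sym _ _ ?_⟩⟩
      exact h1.mem_a hub (fun hh => mem_R76.1 ha B hB (by rw [← hh]; exact hu))
  hid Fa hreg hbig v hv htw B hB := by
    rw [isTw_iff76] at htw
    obtain ⟨w, h⟩ := htw
    obtain ⟨hw, hI⟩ := twI76 hreg hv h
    have hB' : B ∈ G.I Fa w := by rw [hI]; exact hB
    rw [I, mem_filter] at hB hB'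
    obtain ⟨hBF, hvN⟩ := hB
    obtain ⟨-, hwN⟩ := hB'
    by_contra hcon
    obtain ⟨b, hb, hbv⟩ := nbr_in37 hvN
    have h1 : G.nb v ∩ B = {b} := by
      have h2 : (G.nb v ∩ B).card ≤ 1 := by
        unfold d at hcon
        omega
      rw [card_le_one] at h2
      have h3 : b ∈ G.nb v ∩ B := mem_inter.2 ⟨hbv, hb⟩
      ext x
      rw [mem_singleton]
      exact ⟨fun hx => h2 x hx b h3, fun hx => by rw [hx]; exact h3⟩
    have hvB : v ∉ B := mem_R76.1 hv B hBF
    have hwB : w ∉ B := mem_R76.1 hw B hBF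
    have h2 : G.N (B.erase b) ⊆ insert b (((G.N B).erase v).erase w) := by
      intro x hx
      obtain ⟨h3, u, hu, hux⟩ := mem_N37.1 hx
      rw [mem_erase] at h3 hu
      rw [mem_insert, mem_erase, mem_erase]
      by_cases hxb : x = b
      · exact Or.inl hxb
      right
      have hxB : x ∉ B := fun hh => h3 ⟨hxb, hh⟩
      have hxv : x ≠ v := by
        rintro rfl
        have : u ∈ G.nb x ∩ B := mem_inter.2 ⟨G.sym _ _ hux, hu.2⟩
        rw [h1, mem_singleton] at this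
        exact hu.1 this
      have hxw : x ≠ w := by
        rintro rfl
        have huv : u ∈ G.nb v := (h.iff (fun hh => hvB (by rw [← hh]; exact hu.2))
          (fun hh => hwB (by rw [← hh]; exact hu.2))).2 (G.sym _ _ hux)
        have : u ∈ G.nb v ∩ B := mem_inter.2 ⟨huv, hu.2⟩
        rw [h1, mem_singleton] at this
        exact hu.1 this
      exact ⟨hxw, hxv, mem_N37.2 ⟨hxB, u, hu.2, hux⟩⟩
    have h3 : (insert b (((G.N B).erase v).erase w)).card ≤ 5 := by
      have h4 := card_insert_le b (((G.N B).erase v).erase w)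
      rw [card_erase_of_mem (mem_erase.2 ⟨h.ne.symm, hwN⟩), card_erase_of_mem hvN,
        (hreg.frag B hBF).2.1] at h4
      omega
    have h4 : (B.erase b).Nonempty := by
      rw [← Finset.card_pos, card_erase_of_mem hb]
      have := hbig B hBF
      omega
    have h5 := G.stN6_37 _ h4 ((hreg.frag B hBF).2.2.mono (Co_anti37 (erase_subset _ _)))
    have h6 := card_le_card h2
    omega

end CG

end Pool.Agent.Lib.MP_e95c01_co.N
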