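import Pool.Agent.Lib.MP_e95c01_co.U.StLowK5

/-!
# U10: twin vertices in one neighbourhood
-/

namespace Pool.Agent.Lib.MP_e95c01_co.N

open Finset

variable {V : Type} [Fintype V] [DecidableEq V]

namespace CG

variable {G : CG V} {Fa : Finset (Finset V)}

theorem twK_5 (h7 : G.StTwHL) (h6 : G.StCh4) (hT : G.TorsoU Fa) {z : V} (hz : z ∈ R Fa)
    (ht : G.IsTw z) {B : Finset V} (hI : G.I Fa z = {B}) (hd : 3 ≤ G.d z (G.Co B)) :
    0 ≤ G.ch4 Fa z ∨ ∃ l, G.TwEx Fa B z l := by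
  have hB : B ∈ G.I Fa z := by rw [hI]; exact mem_singleton_self _
  have hBF := (mem_I76.1 hB).1
  have hBN := (mem_I76.1 hB).2
  have hch := ((h6 hT.n9 Fa hT.reg z hz).2.1 ht).2.1 B hI
  have hhid := h7.hid Fa hT.reg hT.big z hz ht B hB
  obtain ⟨z', hzz⟩ := ht
  have ht : G.IsTw z := ⟨z', hzz⟩
  have hz7 : (G.nb z).card = 7 := hzz.2.1
  have hznl : ¬ G.Low z := fun h => by
    have : (G.nb z).card = 6 := h
    omega
  by_cases hneg : 0 ≤ G.ch4 Fa z
  · exact Or.inl hneg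
  right
  have hsum : G.d z (G.Co B) + 3 * G.tl Fa z + G.tt Fa z ≤ 7 := by
    by_contra hc
    apply hneg
    rw [hch]
    have : (8 : ℤ) ≤ (G.d z (G.Co B) : ℤ) + 3 * (G.tl Fa z : ℤ) + (G.tt Fa z : ℤ) := by
      have : 8 ≤ G.d z (G.Co B) + 3 * G.tl Fa z + G.tt Fa z := by omega
      exact_mod_cast this
    linarith
  -- a pair of twins other than the pair of `z`
  have hpt : ∀ x v w, v ∈ G.nR Fa z → w ∈ G.nR Fa z → G.Tw v w → x ∈ G.nb v → x ∈ G.nb w →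
      (G.IsTw v ∧ ¬ G.Tw z v) ∧ (G.IsTw w ∧ ¬ G.Tw z w) := by
    intro x v w h1 h2 h3 h4 h5
    refine ⟨⟨⟨w, h3⟩, ?_⟩, ⟨v, h7.symm _ _ h3⟩, ?_⟩
    · intro h
      have := h7.uniq hT.n9 _ _ _ (h7.symm _ _ h) h3
      subst this
      exact G.irr _ (mem_nR76.1 h2).1
    · intro h
      have := h7.uniq hT.n9 _ _ _ (h7.symm _ _ h) (h7.symm _ _ h3)
      subst this
      exact G.irr _ (mem_nR76.1 h1).1
  have hne : (G.nb z ∩ G.Co B).Nonempty := by
    rw [← Finset.card_pos]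
    unfold d at hd
    omega
  have hz'N : z' ∈ G.N B := tw_N5 h7 hT hz hzz hBF hBN
  by_cases htl : G.tl Fa z = 0
  · exfalso
    have hpair : ∀ x ∈ G.nb z ∩ G.Co B, ∃ v w, v ∈ G.nR Fa z ∧ w ∈ G.nR Fa z ∧ G.Tw v w ∧
        x ∈ G.nb v ∧ x ∈ G.nb w := by
      intro x hx
      rcases cov5 hT hz (nR_Co5 hz hI hx) (m_Co5 hI (mem_inter.1 hx).2) with h | h | h | h | h
      · obtain ⟨w, h1, h2, h3⟩ := h
        have := tl_mem5 h1 h2
        omega
      · exact h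
      · obtain ⟨a, b, h1, h2⟩ := h
        exact absurd (hT.sat _ _ _ h2) hznl
      · obtain ⟨a, b, h1, h2, h3⟩ := h
        have := tl_mem5 h1 h2.2.1
        omega
      · obtain ⟨a, b, h1, h2⟩ := h
        have := tl_mem5 h1 h2.1
        omega
    -- the pairs lie in `Co B`
    have hCo : ∀ x ∈ G.nb z ∩ G.Co B, ∀ v w, v ∈ G.nR Fa z → w ∈ G.nR Fa z → G.Tw v w →
        x ∈ G.nb v → x ∈ G.nb w → v ∈ G.Co B := by
      intro x hx v w h1 h2 h3 h4 h5
      rcases side5 (G := G) (mem_nR76.1 h1).2 hBF with h | h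
      swap
      · exact h
      exfalso
      have hw := tw_N5 h7 hT (mem_nR76.1 h1).2 h3 hBF h
      obtain ⟨⟨-, e1⟩, -, e2⟩ := hpt x v w h1 h2 h3 h4 h5
      have e3 : z' ≠ v := fun e => e1 (e ▸ hzz)
      have e4 : z' ≠ w := fun e => e2 (e ▸ hzz)
      have hK : ({z', v, w} : Finset V) ⊆ G.nb z ∩ G.N B := by
        intro y hy
        simp only [mem_insert, mem_singleton] at hy
        rcases hy with rfl | rfl | rfl
        · exact mem_inter.2 ⟨hzz.1, hz'N⟩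
        · exact mem_inter.2 ⟨(mem_nR76.1 h1).1, h⟩
        · exact mem_inter.2 ⟨(mem_nR76.1 h2).1, hw⟩
      have hc : ({z', v, w} : Finset V).card = 3 := by
        rw [Finset.card_insert_of_notMem, Finset.card_pair (ne_of_nb5 h3.1)]
        simp [e3, e4]
      have h8 := split5 (G := G) (z := z) hz7 (Finset.Subset.refl (G.nb z ∩ B)) hK
        (Finset.Subset.refl (G.nb z ∩ G.Co B))
      unfold d at hd hhid
      omega
    obtain ⟨x, hx⟩ := hne
    obtain ⟨v, w, a1, a2, a3, a4, a5⟩ := hpair x hx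
    have av := hCo x hx v w a1 a2 a3 a4 a5
    have aw := hCo x hx w v a2 a1 (h7.symm _ _ a3) a5 a4
    have hv : v ∈ G.nb z ∩ G.Co B := mem_inter.2 ⟨(mem_nR76.1 a1).1, av⟩
    have hw : w ∈ G.nb z ∩ G.Co B := mem_inter.2 ⟨(mem_nR76.1 a2).1, aw⟩
    obtain ⟨v', w', b1, b2, b3, b4, b5⟩ := hpair v hv
    have bv := hCo v hv v' w' b1 b2 b3 b4 b5
    have bw := hCo v hv w' v' b2 b1 (h7.symm _ _ b3) b5 b4
    obtain ⟨e1, e2, e3, e4, e5, e6⟩ := pairs5 h7 hT.n9 a3 b3 b4 b5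
    obtain ⟨p1, p2⟩ := hpt x v w a1 a2 a3 a4 a5
    obtain ⟨p3, p4⟩ := hpt v v' w' b1 b2 b3 b4 b5
    have q1 := tt_four5 a1 p1 a2 p2 b1 p3 b2 p4 e1 e2 e3 e4 e5 e6
    have q2 : 4 ≤ (G.nb z ∩ G.Co B).card := four_le5 hv hw
      (mem_inter.2 ⟨(mem_nR76.1 b1).1, bv⟩) (mem_inter.2 ⟨(mem_nR76.1 b2).1, bw⟩) e1 e2 e3 e4 e5 e6
    unfold d at hsum
    omega
  have htl1 : G.tl Fa z = 1 := by omega
  -- no twins
  have hnt : ∀ x v w, v ∈ G.nR Fa z → w ∈ G.nR Fa z → G.Tw v w → x ∈ G.nb v → x ∈ G.nb w →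
      False := by
    intro x v w h1 h2 h3 h4 h5
    obtain ⟨p1, p2⟩ := hpt x v w h1 h2 h3 h4 h5
    have := tt_two5 h1 p1 h2 p2 (ne_of_nb5 h3.1)
    omega
  have htt : ∀ x ∈ G.nR Fa z, G.IsTw x → G.Tw z x := by
    intro x hx hxt
    by_contra hn
    obtain ⟨y, hxy⟩ := hxt
    have hzy : z ∈ G.nb y := by
      refine Tw_nb5 hxy (G.sym _ _ (mem_nR76.1 hx).1) ?_
      rintro rfl
      exact hn (h7.symm _ _ hxy)
    exact hnt z x y hx (mem_nR76.2 ⟨G.sym _ _ hzy, (h7.twI Fa hT.reg x (mem_nR76.1 hx).2 y hxy).1⟩)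
      hxy (G.sym _ _ (mem_nR76.1 hx).1) hzy
  have htt0 : G.tt Fa z = 0 := by
    classical
    rw [tt, Finset.card_eq_zero, Finset.eq_empty_iff_forall_notMem]
    intro x hx
    rw [mem_filter] at hx
    exact hx.2.2 (htt x hx.1 hx.2.1)
  obtain ⟨l, hl⟩ := Finset.card_pos.1 (by
    rw [tl] at htl1
    rw [htl1]
    exact Nat.one_pos)
  rw [mem_filter] at hl
  obtain ⟨hlR, hll⟩ := hl
  have huni : ∀ x ∈ G.nR Fa z, G.Low x → x = l := by
    intro x hx hxl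
    by_contra hne
    have := tl_two5 hx hxl hlR hll hne
    omega
  have hcov : ∀ x ∈ G.nb z ∩ G.Co B, x ∈ G.nb l := by
    intro x hx
    have hxR := nR_Co5 hz hI hx
    rcases cov5 hT hz hxR (m_Co5 hI (mem_inter.1 hx).2) with h | h | h | h | h
    · obtain ⟨w, h1, h2, h3⟩ := h
      have := huni w h1 h2
      subst this
      exact h3
    · obtain ⟨v, w, h1, h2, h3, h4, h5⟩ := h
      exact (hnt x v w h1 h2 h3 h4 h5).elim
    · obtain ⟨a, b, h1, h2⟩ := h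
      exact absurd (hT.sat _ _ _ h2) hznl
    · obtain ⟨a, b, h1, h2, h3⟩ := h
      exfalso
      have k1 := huni b h1 h2.2.1
      have k2 := huni x hxR (hT.sat _ _ _ h2)
      refine h2.2.2.2.1 ?_
      rw [k1, k2, cl]
      exact mem_insert_self _ _
    · obtain ⟨a, b, h1, h2⟩ := h
      exact absurd ht (h7.twLL _ _ _ _ h2).1
  have hlN : l ∈ G.N B := by
    rcases side5 (G := G) (mem_nR76.1 hlR).2 hBF with h | h
    · exact h
    · exfalso
      exact G.irr _ (hcov l (mem_inter.2 ⟨(mem_nR76.1 hlR).1, h⟩))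
  have hzl : z ∈ G.nb l := G.sym _ _ (mem_nR76.1 hlR).1
  have hz'l : z' ∈ G.nb l := by
    refine G.sym _ _ (Tw_nb5 hzz (mem_nR76.1 hlR).1 ?_)
    rintro rfl
    have h1 := (h7.symm _ _ hzz).2.1
    have h2 : (G.nb l).card = 6 := hll
    omega
  have hK : ({z, z'} : Finset V) ⊆ G.nb l ∩ G.N B := by
    intro y hy
    simp only [mem_insert, mem_singleton] at hy
    rcases hy with rfl | rfl
    · exact mem_inter.2 ⟨hzl, hBN⟩
    · exact mem_inter.2 ⟨hz'l, hz'N⟩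
  have hKc : ({z, z'} : Finset V).card = 2 := Finset.card_pair (ne_of_nb5 hzz.1)
  have hCl : G.nb z ∩ G.Co B ⊆ G.nb l ∩ G.Co B := fun y hy =>
    mem_inter.2 ⟨hcov y hy, (mem_inter.1 hy).2⟩
  have hlB := d_pos76 hlN
  have hs1 := split5 (G := G) (z := l) hll (Finset.Subset.refl (G.nb l ∩ B)) hK
    (Finset.Subset.refl (G.nb l ∩ G.Co B))
  have hc2 := Finset.card_le_card hCl
  have hd3 : G.d z (G.Co B) = 3 := by
    unfold d at hd hlB ⊢
    omega
  refine ⟨l, hll, (mem_nR76.1 hlR).1, ?_, ?_, hd3, ?_, htl1, htt0, ?_⟩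
  · rw [Finset.eq_singleton_iff_unique_mem]
    refine ⟨mem_I76.2 ⟨hBF, hlN⟩, ?_⟩
    intro B' hB'
    by_contra hne'
    obtain ⟨hB'F, hB'N⟩ := mem_I76.1 hB'
    have g2 := d_pos76 hB'N
    have hdis := hT.reg.dis B' hB'F B hBF hne'
    have hCo : (G.nb z ∩ G.Co B) ∪ (G.nb l ∩ B') ⊆ G.nb l ∩ G.Co B := by
      intro y hy
      rw [mem_union] at hy
      rcases hy with hy | hy
      · exact hCl hy
      · rw [mem_inter] at hy ⊢
        refine ⟨hy.1, mem_Co76.2 ⟨fun h => Finset.disjoint_left.1 hdis.1 hy.2 h, ?_⟩⟩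
        intro h
        exact Finset.disjoint_left.1 (hT.reg.dis B hBF B' hB'F (Ne.symm hne')).2 h hy.2
    have hdj : Disjoint (G.nb z ∩ G.Co B) (G.nb l ∩ B') := by
      rw [Finset.disjoint_left]
      intro y hy hy'
      exact mem_R76.1 (mem_nR76.1 (nR_Co5 hz hI hy)).2 B' hB'F (mem_inter.1 hy').2
    have g3 := Finset.card_le_card hCo
    rw [Finset.card_union_of_disjoint hdj] at g3
    unfold d at g2 hd3 hlB
    omega
  · symm
    refine Finset.eq_of_subset_of_card_le hCl ?_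
    unfold d at hd3 hlB
    omega
  · intro x hx
    have hxR := nR_Co5 hz hI hx
    refine ⟨?_, ?_⟩
    · intro hxl
      have := huni x hxR hxl
      subst this
      exact G.irr _ (hcov x hx)
    · intro hxt
      have h1 := htt x hxR hxt
      have h2 := h7.uniq hT.n9 _ _ _ hzz h1
      subst h2
      exact (mem_Co76.1 (mem_inter.1 hx).2).2 hz'N
  · rw [hch, hd3, htl1, htt0]
    norm_num

theorem stTwK_5 (G : CG V) (h7 : G.StTwHL) (h6 : G.StCh4) : G.StTwK :=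
  fun _ hT _ hz ht _ hI hd => twK_5 h7 h6 hT hz ht hI hd

end CG

end Pool.Agent.Lib.MP_e95c01_co.N
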