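import Pool.Agent.Lib.MP_e95c01_co.U.Transfer37
import Pool.Agent.Lib.MP_e95c01_co.N.StStruct53
import Pool.Agent.Lib.MP_e95c01_co.U.Bridge76
import Pool.Agent.Lib.MP_e95c01_co.U.StTwHL76
import Pool.Agent.Lib.MP_e95c01_co.U.StCovU1
import Pool.Agent.Lib.MP_e95c01_co.U.Ident11
import Pool.Agent.Lib.MP_e95c01_co.U.StCh4_11
import Pool.Agent.Lib.MP_e95c01_co.U.StHub5
import Pool.Agent.Lib.MP_e95c01_co.U.StLowK5
import Pool.Agent.Lib.MP_e95c01_co.U.StTwK5
import Pool.Agent.Lib.MP_e95c01_co.U.StNeedy26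
import Pool.Agent.Lib.MP_e95c01_co.U.StCap26
import Pool.Agent.Lib.MP_e95c01_co.U.StGenericU26
import Pool.Agent.Lib.MP_e95c01_co.U.StClosed27
import Pool.Agent.Lib.MP_e95c01_co.U.StLeaf27
import Pool.Agent.Lib.MP_e95c01_co.U.StK4_33
import Pool.Agent.Lib.MP_e95c01_co.U.StLeaf4_33
import Pool.Agent.Lib.MP_e95c01_co.U.StLeaf5_33
import Pool.Agent.Lib.MP_e95c01_co.U.StF3_36
import Pool.Agent.Lib.MP_e95c01_co.U.StThin1_1
import Pool.Agent.Lib.MP_e95c01_co.U.StAdd4_1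
import Pool.Agent.Lib.MP_e95c01_co.U.StThin3_72
import Pool.Agent.Lib.MP_e95c01_co.U.StThin2_37

/-!
# Assembly
-/

namespace Pool.Agent.Lib.MP_e95c01_co.N

namespace CG

variable {V : Type} [Fintype V] [DecidableEq V]

theorem gen37 (G : CG V) : G.StGenericU := by
  have htw := G.stTwHL_76
  have hch := G.stCh4_11 htw
  exact G.stGenericU_26 hch (G.stLowK_5 htw hch) (G.stTwK_5 htw hch) (G.stNeedy_26 htw hch)
    (G.stCap_26 htw hch (G.stHub_5 htw hch))

theorem mainU37 (G : CG V) : G.StMainU := by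
  have htw := G.stTwHL_76
  have hch := G.stCh4_11 htw
  have hst := G.stStruct_53 G.stN6_37 G.stCo_37
  have hsm := G.stSmall_76
  have h2 := G.stThin2_37 hsm htw
  have hcov := G.stCovU_1
  have hid := G.stIdentU_11
  have hps := G.stPsumU_11
  have hgen := G.gen37
  have hhub := G.stHub_5 htw hch
  have hlk := G.stLowK_5 htw hch
  have htk := G.stTwK_5 htw hch
  have ht1 := G.stThin1_1 hsm
  have ht3 := G.stThin3_72 htw hch hhub hlk htk
  have hleaf := G.stLeaf_27 hsm htw hcov hid hps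
  have hK4 := G.stK4_33 hleaf htw G.stP4_11
  have hl4 := G.stLeaf4_33 hleaf htw G.stP4_11 hgen hK4
  have hl5 := G.stLeaf5_33 hleaf htw G.stP4_11 hgen
  have hl6 := G.stLeaf6_27 hleaf htw hgen
  exact G.stMainU_37 hst htw hsm hcov hid hps hgen ht1 h2 ht3 hl4 hl5 hl6 G.stF3_36
    (G.stAdd4_1 hid hps ht1)

theorem closed37 (G : CG V) : G.StClosed13 :=
  G.stClosed13_27 G.stSmall_76 G.stCovU_1 G.stIdentU_11 G.stPsumU_11 G.gen37

/-- every 6-contraction-critical graph has `n ≤ 4 n_6` -/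
theorem stC4 (G : CG V) : G.StC4 :=
  G.stC4_37 (fun G' => G'.mainU37) (fun G' => G'.closed37) (fun G' => G'.stPsumU_11)

end CG

end Pool.Agent.Lib.MP_e95c01_co.N
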