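import Pool.Agent.Lib.MP_e95c01_co.U.Aux5
import Pool.Agent.Lib.MP_e95c01_co.N.Basic37

/-!
# Facts on leaves: neighbours, covers, expansion
-/

namespace Pool.Agent.Lib.MP_e95c01_co.N

open Finset

variable {V : Type} [Fintype V] [DecidableEq V]

namespace CG

variable {G : CG V} {F : Finset V}

/-! ### numbers of neighbours -/

theorem d_union33 (v : V) {A B : Finset V} (h : Disjoint A B) :
    G.d v (A ∪ B) = G.d v A + G.d v B := by
  unfold d
  rw [inter_union_distrib_left]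
  exact card_union_of_disjoint (disjoint_of_subset_left inter_subset_right
    (disjoint_of_subset_right inter_subset_right h))

theorem d_mono33 (v : V) {A B : Finset V} (h : A ⊆ B) : G.d v A ≤ G.d v B :=
  card_le_card (inter_subset_inter_left h)

theorem d_le33 (v : V) (S : Finset V) : G.d v S ≤ S.card := card_le_card inter_subset_right

theorem d_full33 {v : V} {S : Finset V} (h : ∀ x ∈ S, x ∈ G.nb v) : G.d v S = S.card := by
  unfold d
  rw [inter_eq_right.2 h]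

theorem d_zero33 {v : V} {S : Finset V} (h : ∀ x ∈ S, x ∉ G.nb v) : G.d v S = 0 := by
  unfold d
  rw [Finset.card_eq_zero, eq_empty_iff_forall_notMem]
  intro x hx
  rw [mem_inter] at hx
  exact h x hx.2 hx.1

theorem of_zero33 {v : V} {S : Finset V} (h : G.d v S = 0) {x : V} (hx : x ∈ S) : x ∉ G.nb v := by
  unfold d at h
  rw [Finset.card_eq_zero, eq_empty_iff_forall_notMem] at h
  intro h1
  exact h x (mem_inter.2 ⟨h1, hx⟩)

theorem d_one33 {v : V} {S : Finset V} {x : V} (hx : x ∈ S) (h : x ∈ G.nb v) : 1 ≤ G.d v S := by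
  unfold d
  rw [Nat.succ_le_iff, Finset.card_pos]
  exact ⟨x, mem_inter.2 ⟨h, hx⟩⟩

theorem d_two33 {v : V} {S : Finset V} {x y : V} (hx : x ∈ S) (h : x ∈ G.nb v) (hy : y ∈ S)
    (h' : y ∈ G.nb v) (hne : x ≠ y) : 2 ≤ G.d v S := by
  unfold d
  exact two_le5 (mem_inter.2 ⟨h, hx⟩) (mem_inter.2 ⟨h', hy⟩) hne

omit [Fintype V] in
theorem three_le33 {S : Finset V} {a b c : V} (ha : a ∈ S) (hb : b ∈ S) (hc : c ∈ S)
    (h1 : a ≠ b) (h2 : a ≠ c) (h4 : b ≠ c) : 3 ≤ S.card := by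
  rw [← Finset.card_eq_three.2 ⟨a, b, c, h1, h2, h4, rfl⟩]
  apply Finset.card_le_card
  intro x hx
  simp only [mem_insert, mem_singleton] at hx
  rcases hx with rfl | rfl | rfl <;> assumption

theorem d_three33 {v : V} {S : Finset V} {x y z : V} (hx : x ∈ S) (h : x ∈ G.nb v) (hy : y ∈ S)
    (h' : y ∈ G.nb v) (hz : z ∈ S) (h'' : z ∈ G.nb v) (h1 : x ≠ y) (h2 : x ≠ z) (h3 : y ≠ z) :
    3 ≤ G.d v S := by
  unfold d
  exact three_le33 (mem_inter.2 ⟨h, hx⟩) (mem_inter.2 ⟨h', hy⟩) (mem_inter.2 ⟨h'', hz⟩) h1 h2 h3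

theorem ne33 {a b : V} (h : b ∈ G.nb a) : a ≠ b := ne_of_nb5 h

theorem sym33 {a b : V} (h : b ∈ G.nb a) : a ∈ G.nb b := G.sym _ _ h

/-! ### twins -/

theorem Tw.sym33 {v w : V} (h : G.Tw v w) : G.Tw w v := by
  refine ⟨G.sym _ _ h.1, ?_, h.2.2.symm⟩
  have h1 := congrArg Finset.card h.2.2
  rw [cl, cl, card_insert_of_notMem (G.irr v), card_insert_of_notMem (G.irr w), h.2.1] at h1
  omega

theorem Tw.ne33 {v w : V} (h : G.Tw v w) : v ≠ w := ne_of_nb5 h.1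

theorem Tw.deg33 {v w : V} (h : G.Tw v w) : (G.nb w).card = 7 := h.sym33.2.1

theorem Tw.nb33 {v w x : V} (h : G.Tw v w) (hx : x ∈ G.nb v) (hne : x ≠ w) : x ∈ G.nb w :=
  Tw_nb5 h hx hne

theorem Tw.adj33 {v w x : V} (h : G.Tw v w) (hx : v ∈ G.nb x) (hne : x ≠ w) : w ∈ G.nb x :=
  G.sym _ _ (Tw_nb5 h (G.sym _ _ hx) hne)

theorem Tw.d33 {v w : V} (h : G.Tw v w) {S : Finset V} (hv : v ∉ S) (hw : w ∉ S) :
    G.d v S = G.d w S := by
  unfold d
  congr 1
  ext x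
  rw [mem_inter, mem_inter]
  constructor
  · rintro ⟨h1, h2⟩
    exact ⟨h.nb33 h1 (fun e => hw (e ▸ h2)), h2⟩
  · rintro ⟨h1, h2⟩
    exact ⟨h.sym33.nb33 h1 (fun e => hv (e ▸ h2)), h2⟩

theorem not_low33 {v : V} (h : G.IsTw v) : ¬ G.Low v := by
  obtain ⟨w, hw⟩ := h
  intro h1
  have h2 := hw.2.1
  unfold Low at h1
  omega

theorem not_tw33 {v : V} (h : G.Low v) : ¬ G.IsTw v := fun h1 => not_low33 h1 h

/-! ### the third fragment of two vertices -/

theorem HL_t33 {a b t : V} (h : G.HL a b t) : t ∈ G.nb a := HL_nb5 h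

theorem HL_bt33 {a b t : V} (h : G.HL a b t) : t ∉ G.nb b := fun h1 =>
  h.2.2.2.1 (by rw [cl]; exact mem_insert_of_mem h1)

theorem HL_ne33 {a b t : V} (h : G.HL a b t) : b ≠ t := fun h1 =>
  h.2.2.2.1 (by rw [cl, h1]; exact mem_insert_self _ _)

theorem HL_nb33 {a b t x : V} (h : G.HL a b t) (hx : x ∈ G.nb b) (hne : x ≠ a) : x ∈ G.nb a := by
  have h1 : x ∈ G.cl a := by
    rw [h.2.2.2.2, cl]
    exact mem_insert_of_mem (mem_insert_of_mem hx)
  rw [cl, mem_insert] at h1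
  exact h1.resolve_left hne

theorem HL_cl33 {a b t x : V} (h : G.HL a b t) (hx : x ∈ G.nb a) : x = t ∨ x = b ∨ x ∈ G.nb b := by
  have h1 : x ∈ insert t (G.cl b) := by
    rw [← h.2.2.2.2, cl]
    exact mem_insert_of_mem hx
  rw [mem_insert, cl, mem_insert] at h1
  exact h1

/-! ### fragments of two vertices -/

/-- the possible forms of a fragment of two vertices -/
theorem two33 {f f' : V} (hne : f ≠ f') (hE : G.Frag {f, f'}) :
    (G.Low f ∧ G.Low f') ∨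
    (G.Tw f f' ∧ (∀ x, x ∈ G.nb f ↔ x = f' ∨ x ∈ G.N {f, f'}) ∧
      (∀ x, x ∈ G.nb f' ↔ x = f ∨ x ∈ G.N {f, f'})) ∨
    (∃ t ∈ G.N {f, f'}, G.HL f f' t ∧ (∀ x, x ∈ G.nb f ↔ x = f' ∨ x ∈ G.N {f, f'}) ∧
      (∀ x, x ∈ G.nb f' ↔ x = f ∨ (x ∈ G.N {f, f'} ∧ x ≠ t))) ∨
    (∃ t ∈ G.N {f, f'}, G.HL f' f t ∧ (∀ x, x ∈ G.nb f' ↔ x = f ∨ x ∈ G.N {f, f'}) ∧
      (∀ x, x ∈ G.nb f ↔ x = f' ∨ (x ∈ G.N {f, f'} ∧ x ≠ t))) := by
  set N := G.N {f, f'} with hN
  have hNc : N.card = 6 := hE.2.1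
  have hfN : f ∉ N := fun h => (mem_N37.1 h).1 (mem_insert_self _ _)
  have hfN' : f' ∉ N := fun h => (mem_N37.1 h).1 (mem_insert_of_mem (mem_singleton_self _))
  have h1 : ∀ x ∈ G.nb f, x = f' ∨ x ∈ N := by
    intro x hx
    by_cases h : x = f'
    · exact Or.inl h
    · right
      rw [hN, mem_N37]
      refine ⟨?_, f, mem_insert_self _ _, hx⟩
      rw [mem_insert, mem_singleton, not_or]
      exact ⟨(ne_of_nb5 hx).symm, h⟩
  have h2 : ∀ x ∈ G.nb f', x = f ∨ x ∈ N := by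
    intro x hx
    by_cases h : x = f
    · exact Or.inl h
    · right
      rw [hN, mem_N37]
      refine ⟨?_, f', mem_insert_of_mem (mem_singleton_self _), hx⟩
      rw [mem_insert, mem_singleton, not_or]
      exact ⟨h, (ne_of_nb5 hx).symm⟩
  have d1 := G.deg f
  have d2 := G.deg f'
  have c1 : (G.nb f).card ≤ 7 := by
    have : G.nb f ⊆ insert f' N := fun x hx => mem_insert.2 (h1 x hx)
    have := card_le_card this
    rw [card_insert_of_notMem hfN'] at this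
    omega
  have c2 : (G.nb f').card ≤ 7 := by
    have : G.nb f' ⊆ insert f N := fun x hx => mem_insert.2 (h2 x hx)
    have := card_le_card this
    rw [card_insert_of_notMem hfN] at this
    omega
  by_cases hadj : f' ∈ G.nb f
  · have hadj' := G.sym _ _ hadj
    -- the general statement for one full side
    have full : ∀ a b : V, a ∉ N → b ∉ N → b ∈ G.nb a → (∀ x ∈ G.nb a, x = b ∨ x ∈ N) →
        (G.nb a).card = 7 → ∀ x, x ∈ G.nb a ↔ x = b ∨ x ∈ N := by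
      intro a b ha hb hab h hc
      have e : G.nb a = insert b N := by
        apply eq_of_subset_of_card_le (fun x hx => mem_insert.2 (h x hx))
        rw [card_insert_of_notMem hb, hc, hNc]
      intro x
      rw [e, mem_insert]
    have half : ∀ a b : V, a ∉ N → b ∉ N → a ≠ b → b ∈ G.nb a → a ∈ G.nb b →
        (∀ x ∈ G.nb a, x = b ∨ x ∈ N) → (∀ x ∈ G.nb b, x = a ∨ x ∈ N) →
        (G.nb a).card = 7 → (G.nb b).card = 6 → ∃ t ∈ N, G.HL a b t ∧
          (∀ x, x ∈ G.nb a ↔ x = b ∨ x ∈ N) ∧ (∀ x, x ∈ G.nb b ↔ x = a ∨ (x ∈ N ∧ x ≠ t)) := by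
      intro a b ha hb hab hba hba' hA hB hca hcb
      have hfull := full a b ha hb hba hA hca
      have e1 : (N \ G.nb b).card = 1 := by
        have e2 : G.nb b = insert a (N ∩ G.nb b) := by
          ext x
          rw [mem_insert, mem_inter]
          constructor
          · intro hx
            rcases hB x hx with h | h
            · exact Or.inl h
            · exact Or.inr ⟨h, hx⟩
          · rintro (h | h)
            · rw [h]; exact hba'
            · exact h.2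
        have e3 : (N ∩ G.nb b).card = 5 := by
          have := congrArg Finset.card e2
          rw [card_insert_of_notMem (fun h => ha (mem_inter.1 h).1), hcb] at this
          omega
        have e4 := card_sdiff_add_card_inter N (G.nb b)
        omega
      obtain ⟨t, ht⟩ := card_eq_one.1 e1
      have ht1 : t ∈ N ∧ t ∉ G.nb b := by
        rw [← mem_sdiff, ht]
        exact mem_singleton_self _
      have htu : ∀ x ∈ N, x ∉ G.nb b → x = t := by
        intro x hx hx'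
        have : x ∈ N \ G.nb b := mem_sdiff.2 ⟨hx, hx'⟩
        rw [ht, mem_singleton] at this
        exact this
      have hbiff : ∀ x, x ∈ G.nb b ↔ x = a ∨ (x ∈ N ∧ x ≠ t) := by
        intro x
        constructor
        · intro hx
          rcases hB x hx with h | h
          · exact Or.inl h
          · exact Or.inr ⟨h, fun e => ht1.2 (e ▸ hx)⟩
        · rintro (h | ⟨h, h'⟩)
          · rw [h]; exact hba'
          · by_contra hx
            exact h' (htu x h hx)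
      refine ⟨t, ht1.1, ⟨hca, hcb, hba, ?_, ?_⟩, hfull, hbiff⟩
      · rw [cl, mem_insert, not_or]
        exact ⟨fun e => hb (e ▸ ht1.1), ht1.2⟩
      · ext x
        rw [cl, cl, mem_insert, mem_insert, mem_insert, hfull, hbiff]
        constructor
        · rintro (h | h | h)
          · exact Or.inr (Or.inr (Or.inl h))
          · exact Or.inr (Or.inl h)
          · by_cases e : x = t
            · exact Or.inl e
            · exact Or.inr (Or.inr (Or.inr ⟨h, e⟩))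
        · rintro (h | h | h | h)
          · rw [h]; exact Or.inr (Or.inr ht1.1)
          · exact Or.inr (Or.inl h)
          · exact Or.inl h
          · exact Or.inr (Or.inr h.1)
    rcases Nat.lt_or_ge (G.nb f).card 7 with c3 | c3
    · rcases Nat.lt_or_ge (G.nb f').card 7 with c4 | c4
      · left
        exact ⟨by unfold Low; omega, by unfold Low; omega⟩
      · right; right; right
        exact half f' f hfN' hfN hne.symm hadj' hadj h2 h1 (by omega) (by omega)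
    · rcases Nat.lt_or_ge (G.nb f').card 7 with c4 | c4
      · right; right; left
        exact half f f' hfN hfN' hne hadj hadj' h1 h2 (by omega) (by omega)
      · right; left
        have g1 := full f f' hfN hfN' hadj h1 (by omega)
        have g2 := full f' f hfN' hfN hadj' h2 (by omega)
        refine ⟨⟨hadj, by omega, ?_⟩, g1, g2⟩
        ext x
        rw [cl, cl, mem_insert, mem_insert, g1, g2]
        tauto
  · left
    have c3 : G.nb f ⊆ N := fun x hx => (h1 x hx).resolve_left (fun e => hadj (e ▸ hx))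
    have c4 : G.nb f' ⊆ N := fun x hx => (h2 x hx).resolve_left (fun e =>
      hadj (G.sym _ _ (e ▸ hx)))
    have c5 := card_le_card c3
    have c6 := card_le_card c4
    exact ⟨by unfold Low; omega, by unfold Low; omega⟩

/-! ### leaves -/

/-- the facts on a leaf that are used -/
structure Lf33 (G : CG V) (F : Finset V) : Prop where
  leaf : G.Leaf F
  st : G.StLeaf
  th : G.StTwHL

namespace Lf33

theorem n9 (c : Lf33 G F) : 9 ≤ Fintype.card V := by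
  have := c.leaf.n13
  omega

theorem frag (c : Lf33 G F) : G.Frag F := c.leaf.big.1

theorem torso (c : Lf33 G F) : G.TorsoU {G.Co F} := c.st.torso F c.leaf

theorem memR (c : Lf33 G F) {z : V} : z ∈ R {G.Co F} ↔ z ∈ F ∨ z ∈ G.N F :=
  (c.st.mem F c.leaf z).1

theorem I0 (c : Lf33 G F) {z : V} (hz : z ∈ F) : G.I {G.Co F} z = ∅ :=
  (c.st.mem F c.leaf z).2.1 hz

theorem I1 (c : Lf33 G F) {z : V} (hz : z ∈ G.N F) : G.I {G.Co F} z = {G.Co F} :=
  (c.st.mem F c.leaf z).2.2 hz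

theorem ndisj (_ : Lf33 G F) {z : V} (hz : z ∈ F) : z ∉ G.N F := fun h => (mem_N37.1 h).1 hz

theorem disj (c : Lf33 G F) : Disjoint F (G.N F) := by
  rw [disjoint_left]
  exact fun v hv => c.ndisj hv

theorem nbF (_ : Lf33 G F) {z x : V} (hz : z ∈ F) (hx : x ∈ G.nb z) : x ∈ F ∨ x ∈ G.N F := by
  by_cases h : x ∈ F
  · exact Or.inl h
  · exact Or.inr (mem_N37.2 ⟨h, z, hz, hx⟩)

theorem dF (c : Lf33 G F) {z : V} (hz : z ∈ F) : G.d z F + G.d z (G.N F) = (G.nb z).card := by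
  rw [← d_union33 z c.disj]
  unfold d
  rw [inter_eq_left.2]
  intro x hx
  exact mem_union.2 (c.nbF hz hx)

theorem dT (c : Lf33 G F) (z : V) :
    G.d z F + G.d z (G.N F) + G.d z (G.Co F) = (G.nb z).card := by
  rw [← d_union33 z c.disj, ← d_union33 z (by rw [Co]; exact disjoint_compl_right)]
  unfold d
  rw [Co, union_compl, inter_univ]

theorem coN (c : Lf33 G F) : G.N (G.Co F) = G.N F := (G.stCo_37 F c.frag).2.1

theorem coCo (c : Lf33 G F) : G.Co (G.Co F) = F := (G.stCo_37 F c.frag).2.2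

theorem cardT (c : Lf33 G F) : (G.N F).card = 6 := c.frag.2.1

theorem hid1 (c : Lf33 G F) {z : V} (hz : z ∈ G.N F) : 1 ≤ G.d z (G.Co F) := by
  rw [← c.coN, mem_N37] at hz
  obtain ⟨-, u, hu, hzu⟩ := hz
  exact d_one33 hu (G.sym _ _ hzu)

theorem hid2 (c : Lf33 G F) {z : V} (hz : z ∈ G.N F) (h : G.IsTw z) : 2 ≤ G.d z (G.Co F) := by
  have h1 := c.th.hid {G.Co F} c.torso.reg c.torso.big z (c.memR.2 (Or.inr hz)) h (G.Co F)
  rw [c.I1 hz, mem_singleton] at h1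
  exact h1 rfl

/-- visible degree of a vertex of `N F` that is low or a twin -/
theorem vis (c : Lf33 G F) {z : V} (hz : z ∈ G.N F) (h : G.Low z ∨ G.IsTw z) :
    G.d z F + G.d z (G.N F) ≤ 5 := by
  have h1 := c.dT z
  rcases h with h | h
  · have h2 := c.hid1 hz
    unfold Low at h
    omega
  · have h2 := c.hid2 hz h
    obtain ⟨w, hw⟩ := h
    have h3 := hw.2.1
    omega

theorem twF (c : Lf33 G F) {v w : V} (hv : v ∈ F) (h : G.Tw v w) : w ∈ F := by
  obtain ⟨h1, h2⟩ := c.th.twI {G.Co F} c.torso.reg v (c.memR.2 (Or.inl hv)) w h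
  rcases c.memR.1 h1 with h3 | h3
  · exact h3
  · rw [c.I0 hv, c.I1 h3] at h2
    exact absurd h2 (singleton_ne_empty _)

theorem twT (c : Lf33 G F) {v w : V} (hv : v ∈ G.N F) (h : G.Tw v w) : w ∈ G.N F := by
  obtain ⟨h1, h2⟩ := c.th.twI {G.Co F} c.torso.reg v (c.memR.2 (Or.inr hv)) w h
  rcases c.memR.1 h1 with h3 | h3
  · rw [c.I0 h3, c.I1 hv] at h2
    exact absurd h2.symm (singleton_ne_empty _)
  · exact h3

theorem hlF (c : Lf33 G F) {a b t : V} (ha : a ∈ F ∨ a ∈ G.N F) (hb : b ∈ F ∨ b ∈ G.N F)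
    (ht : t ∈ F ∨ t ∈ G.N F) (h : G.HL a b t) : (a ∈ F ↔ b ∈ F) := by
  have h1 := c.th.hlI {G.Co F} c.torso.reg a (c.memR.2 ha) b (c.memR.2 hb) t (c.memR.2 ht) h
  constructor
  · intro h2
    rcases hb with h3 | h3
    · exact h3
    · rw [c.I0 h2, c.I1 h3] at h1
      exact absurd h1.symm (singleton_ne_empty _)
  · intro h2
    rcases ha with h3 | h3
    · exact h3
    · rw [c.I0 h2, c.I1 h3] at h1
      exact absurd h1 (singleton_ne_empty _)

/-- the forms of the cover of an edge `x z` with an end in `F` -/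
theorem cov (c : Lf33 G F) {x z : V} (hx : x ∈ F ∨ x ∈ G.N F) (hz : z ∈ F ∨ z ∈ G.N F)
    (h0 : x ∈ F ∨ z ∈ F) (hxz : z ∈ G.nb x) :
    (∃ w, (w ∈ F ∨ w ∈ G.N F) ∧ G.Low w ∧ w ∈ G.nb x ∧ w ∈ G.nb z) ∨
    (∃ v w, (v ∈ F ∨ v ∈ G.N F) ∧ (w ∈ F ∨ w ∈ G.N F) ∧ G.Tw v w ∧ v ∈ G.nb x ∧ w ∈ G.nb x ∧
      v ∈ G.nb z ∧ w ∈ G.nb z) ∨
    (∃ a b, (a ∈ F ∨ a ∈ G.N F) ∧ (b ∈ F ∨ b ∈ G.N F) ∧ G.HL a b x ∧ G.Low x ∧ a ∈ G.nb x ∧
      a ∈ G.nb z ∧ b ∈ G.nb z) ∨
    (∃ a b, (a ∈ F ∨ a ∈ G.N F) ∧ (b ∈ F ∨ b ∈ G.N F) ∧ G.HL a b z ∧ G.Low z ∧ a ∈ G.nb z ∧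
      a ∈ G.nb x ∧ b ∈ G.nb x) ∨
    (∃ a b, (a ∈ F ∨ a ∈ G.N F) ∧ (b ∈ F ∨ b ∈ G.N F) ∧ G.LL a b x z ∧ ¬ G.IsTw x ∧
      ¬ G.IsTw z ∧ a ∈ G.nb x ∧ b ∈ G.nb z) := by
  have hm : G.m {G.Co F} x z = 0 := by
    unfold m
    rcases h0 with h | h
    · rw [c.I0 h, empty_inter, card_empty]
    · rw [c.I0 h, inter_empty, card_empty]
  rcases c.torso.cov x (c.memR.2 hx) z (c.memR.2 hz) hxz hm with h | h | h | h | h
  · obtain ⟨w, hw, h1, h2, h3⟩ := h
    exact Or.inl ⟨w, c.memR.1 hw, h1, G.sym _ _ h2, G.sym _ _ h3⟩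
  · obtain ⟨v, hv, w, hw, h1, h2, h3, h4, h5⟩ := h
    exact Or.inr (Or.inl ⟨v, w, c.memR.1 hv, c.memR.1 hw, h1, G.sym _ _ h2,
      h1.adj33 (G.sym _ _ h2) h4, G.sym _ _ h3, h1.adj33 (G.sym _ _ h3) h5⟩)
  · obtain ⟨a, ha, b, hb, h1, h2, h3⟩ := h
    exact Or.inr (Or.inr (Or.inl ⟨a, b, c.memR.1 ha, c.memR.1 hb, h1, c.leaf.sat _ _ _ h1,
      G.sym _ _ (HL_t33 h1), G.sym _ _ (HL_nb33 h1 h2 h3), G.sym _ _ h2⟩))
  · obtain ⟨a, ha, b, hb, h1, h2, h3⟩ := h
    exact Or.inr (Or.inr (Or.inr (Or.inl ⟨a, b, c.memR.1 ha, c.memR.1 hb, h1,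
      c.leaf.sat _ _ _ h1, G.sym _ _ (HL_t33 h1), G.sym _ _ (HL_nb33 h1 h2 h3), G.sym _ _ h2⟩)))
  · obtain ⟨a, ha, b, hb, h1⟩ := h
    obtain ⟨h2, h3⟩ := c.th.twLL _ _ _ _ h1
    have h4 : G.LL b a z x := by
      obtain ⟨e1, e2, e3, e4, e5, e6, e7⟩ := h1
      exact ⟨e2, e1, G.sym _ _ e3, e4.symm, e6, e5, e7.symm⟩
    exact Or.inr (Or.inr (Or.inr (Or.inr ⟨a, b, c.memR.1 ha, c.memR.1 hb, h1, h2, h3,
      G.sym _ _ (LL_nb5 h1), G.sym _ _ (LL_nb5 h4)⟩)))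

/-- covers at a twin vertex -/
theorem covT (c : Lf33 G F) {x z : V} (hx : x ∈ F ∨ x ∈ G.N F) (hz : z ∈ F ∨ z ∈ G.N F)
    (h0 : x ∈ F ∨ z ∈ F) (hxz : z ∈ G.nb x) (ht : G.IsTw x) :
    (∃ w, (w ∈ F ∨ w ∈ G.N F) ∧ G.Low w ∧ w ∈ G.nb x ∧ w ∈ G.nb z) ∨
    (∃ v w, (v ∈ F ∨ v ∈ G.N F) ∧ (w ∈ F ∨ w ∈ G.N F) ∧ G.Tw v w ∧ v ∈ G.nb x ∧ w ∈ G.nb x ∧
      v ∈ G.nb z ∧ w ∈ G.nb z) ∨
    (∃ a b, (a ∈ F ∨ a ∈ G.N F) ∧ (b ∈ F ∨ b ∈ G.N F) ∧ G.HL a b z ∧ G.Low z ∧ a ∈ G.nb z ∧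
      a ∈ G.nb x ∧ b ∈ G.nb x) := by
  rcases c.cov hx hz h0 hxz with h | h | h | h | h
  · exact Or.inl h
  · exact Or.inr (Or.inl h)
  · obtain ⟨a, b, -, -, -, h1, -⟩ := h
    exact absurd h1 (not_low33 ht)
  · exact Or.inr (Or.inr h)
  · obtain ⟨a, b, -, -, -, h1, -⟩ := h
    exact absurd ht h1

/-- the neighbours of a subset of `N F` in `F` -/
theorem NZ (c : Lf33 G F) {Z : Finset V} (hZ : Z ⊆ G.N F) {x : V} (hx : x ∈ F) :
    x ∈ G.N Z ↔ ∃ z ∈ Z, x ∈ G.nb z := by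
  rw [mem_N37]
  constructor
  · exact fun h => h.2
  · exact fun h => ⟨fun h1 => c.ndisj hx (hZ h1), h⟩

theorem exp1 (c : Lf33 G F) {z : V} (hz : z ∈ G.N F) : 2 ≤ G.d z F := by
  have h0 : ({z} : Finset V) ⊆ G.N F := singleton_subset_iff.2 hz
  have h1 := c.st.exp F c.leaf {z} (singleton_nonempty _) h0
  have h2 : G.N {z} ∩ F = G.nb z ∩ F := by
    ext x
    rw [mem_inter, mem_inter]
    constructor
    · rintro ⟨h3, h4⟩
      rw [c.NZ h0 h4] at h3
      obtain ⟨u, hu, h5⟩ := h3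
      rw [mem_singleton] at hu
      rw [hu] at h5
      exact ⟨h5, h4⟩
    · rintro ⟨h3, h4⟩
      exact ⟨(c.NZ h0 h4).2 ⟨z, mem_singleton_self _, h3⟩, h4⟩
  have h4 := c.leaf.four
  have h5 : (G.N {z} ∩ F).card = G.d z F := by rw [h2]; rfl
  rcases h1 with h | h | ⟨h, -, h', -⟩
  · rw [← h5, inter_eq_right.2 h]
    omega
  · rw [card_singleton, h5] at h
    omega
  · rw [card_singleton] at h
    have h6 := card_sdiff_add_card_inter F (G.N {z})
    rw [inter_comm, h] at h6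
    omega

end Lf33

end CG

end Pool.Agent.Lib.MP_e95c01_co.N
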