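import Pool.Agent.Lib.MP_e95c01_co.U.Aux5
import Pool.Agent.Lib.MP_e95c01_co.N.Basic37

/-!
# U21: adding an edge
-/

namespace Pool.Agent.Lib.MP_e95c01_co.N

open Finset

variable {V : Type} [Fintype V] [DecidableEq V]

namespace CG

/-- the graph with one more edge `b t` -/
def addE5 (G : CG V) (b t : V) (h : b ≠ t) : CG V where
  nb v := if v = b then insert t (G.nb b) else if v = t then insert b (G.nb t) else G.nb v
  irr v := by
    by_cases h1 : v = b
    · subst h1
      rw [if_pos rfl, mem_insert, not_or]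
      exact ⟨h, G.irr _⟩
    · rw [if_neg h1]
      by_cases h2 : v = t
      · subst h2
        rw [if_pos rfl, mem_insert, not_or]
        exact ⟨h1, G.irr _⟩
      · rw [if_neg h2]
        exact G.irr _
  sym u v hv := by
    by_cases h1 : u = b
    · subst h1
      rw [if_pos rfl, mem_insert] at hv
      rcases hv with hv | hv
      · subst hv
        rw [if_neg h.symm, if_pos rfl]
        exact mem_insert_self _ _
      · have h2 := G.sym _ _ hv
        have h3 : v ≠ u := (ne_of_nb5 hv).symm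
        rw [if_neg h3]
        by_cases h4 : v = t
        · rw [if_pos h4]
          exact mem_insert_self _ _
        · rw [if_neg h4]
          exact h2
    · rw [if_neg h1] at hv
      by_cases h2 : u = t
      · subst h2
        rw [if_pos rfl, mem_insert] at hv
        rcases hv with hv | hv
        · rw [if_pos hv]
          exact mem_insert_self _ _
        · have h4 := G.sym _ _ hv
          by_cases h3 : v = b
          · rw [if_pos h3]
            exact mem_insert_self _ _
          · rw [if_neg h3, if_neg (ne_of_nb5 hv).symm]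
            exact h4
      · rw [if_neg h2] at hv
        have h4 := G.sym _ _ hv
        by_cases h3 : v = b
        · rw [if_pos h3]
          subst h3
          exact mem_insert_of_mem h4
        · rw [if_neg h3]
          by_cases h5 : v = t
          · rw [if_pos h5]
            subst h5
            exact mem_insert_of_mem h4
          · rw [if_neg h5]
            exact h4
  deg v := by
    have h1 := G.deg v
    refine h1.trans (Finset.card_le_card ?_)
    by_cases h2 : v = b
    · subst h2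
      rw [if_pos rfl]
      exact subset_insert _ _
    · rw [if_neg h2]
      by_cases h3 : v = t
      · subst h3
        rw [if_pos rfl]
        exact subset_insert _ _
      · rw [if_neg h3]
  conn S T hS hd hn hv := by
    refine G.conn S T hS hd ?_ hv
    intro u hu
    refine Subset.trans ?_ (hn u hu)
    by_cases h2 : u = b
    · subst h2
      rw [if_pos rfl]
      exact subset_insert _ _
    · rw [if_neg h2]
      by_cases h3 : u = t
      · subst h3
        rw [if_pos rfl]
        exact subset_insert _ _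
      · rw [if_neg h3]

variable {G : CG V}

theorem mem_addE5 {b t : V} {h : b ≠ t} {u v : V} :
    v ∈ (G.addE5 b t h).nb u ↔ v ∈ G.nb u ∨ (u = b ∧ v = t) ∨ (u = t ∧ v = b) := by
  show v ∈ (if u = b then insert t (G.nb b) else if u = t then insert b (G.nb t) else G.nb u) ↔ _
  by_cases h1 : u = b
  · subst h1
    rw [if_pos rfl, mem_insert]
    constructor
    · rintro (h2 | h2)
      · exact Or.inr (Or.inl ⟨rfl, h2⟩)
      · exact Or.inl h2
    · rintro (h2 | h2 | h2)
      · exact Or.inr h2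
      · exact Or.inl h2.2
      · exact absurd h2.1 h
  · rw [if_neg h1]
    by_cases h2 : u = t
    · subst h2
      rw [if_pos rfl, mem_insert]
      constructor
      · rintro (h3 | h3)
        · exact Or.inr (Or.inr ⟨rfl, h3⟩)
        · exact Or.inl h3
      · rintro (h3 | h3 | h3)
        · exact Or.inr h3
        · exact absurd h3.1 h1
        · exact Or.inl h3.2
    · rw [if_neg h2]
      constructor
      · exact Or.inl
      · rintro (h3 | h3 | h3)
        · exact h3
        · exact absurd h3.1 h1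
        · exact absurd h3.1 h2

/-- a fragment that does not separate `b` from `t` -/
theorem N_addE5 {b t : V} {h : b ≠ t} {E : Finset V} (h1 : ¬ (b ∈ E ∧ t ∈ G.Co E))
    (h2 : ¬ (t ∈ E ∧ b ∈ G.Co E)) : (G.addE5 b t h).N E = G.N E := by
  ext v
  rw [mem_N76, mem_N76]
  constructor
  · rintro ⟨h3, u, hu, hv⟩
    refine ⟨h3, ?_⟩
    rw [mem_addE5] at hv
    rcases hv with hv | ⟨rfl, rfl⟩ | ⟨rfl, rfl⟩
    · exact ⟨u, hu, hv⟩
    · by_contra hc
      exact h1 ⟨hu, mem_Co76.2 ⟨h3, fun h4 => hc (mem_N76.1 h4).2⟩⟩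
    · by_contra hc
      exact h2 ⟨hu, mem_Co76.2 ⟨h3, fun h4 => hc (mem_N76.1 h4).2⟩⟩
  · rintro ⟨h3, u, hu, hv⟩
    exact ⟨h3, u, hu, mem_addE5.2 (Or.inl hv)⟩

theorem frag_addE5 {b t : V} {h : b ≠ t} {E : Finset V} (hE : G.Frag E)
    (h1 : ¬ (b ∈ E ∧ t ∈ G.Co E)) (h2 : ¬ (t ∈ E ∧ b ∈ G.Co E)) :
    (G.addE5 b t h).Frag E ∧ (G.addE5 b t h).N E = G.N E := by
  have h3 := N_addE5 (h := h) h1 h2
  refine ⟨⟨hE.1, ?_, ?_⟩, h3⟩
  · rw [h3]
    exact hE.2.1
  · rw [Co, h3]
    exact hE.2.2

/-- a fragment that separates `b` from `t` is moved over `a` -/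
theorem move5 {a b t : V} (h : G.HL a b t) (ht : ¬ G.Low t) (hbt : b ≠ t) {E : Finset V}
    (hE : G.Frag E) (hb : b ∈ E) (hC : t ∈ G.Co E) :
    ∃ E', (G.addE5 b t hbt).Frag E' ∧ ∀ v ∈ G.N E, v ≠ a → v ∈ (G.addE5 b t hbt).N E' := by
  have hat : t ∈ G.nb a := HL_nb5 h
  have haE : a ∉ E := nb_Co76 hC (G.sym _ _ hat)
  have haN : a ∈ G.N E := mem_N76.2 ⟨haE, b, hb, G.sym _ _ h.2.2.1⟩
  obtain ⟨E1, hE1⟩ : ∃ E1, E1 = insert a E := ⟨_, rfl⟩
  have hsub : G.N E1 ⊆ insert t ((G.N E).erase a) := by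
    intro v hv
    rw [mem_N76, hE1] at hv
    obtain ⟨h1, u, hu, hvu⟩ := hv
    rw [mem_insert, not_or] at h1
    rw [mem_insert, mem_erase]
    rw [mem_insert] at hu
    rcases hu with hu | hu
    · subst hu
      have h2 : v ∈ insert t (G.cl b) := by
        rw [← h.2.2.2.2, cl]
        exact mem_insert_of_mem hvu
      rw [mem_insert] at h2
      rcases h2 with h2 | h2
      · exact Or.inl h2
      · right
        rw [cl, mem_insert] at h2
        rcases h2 with h2 | h2
        · subst h2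
          exact absurd hb h1.2
        · exact ⟨h1.1, mem_N76.2 ⟨h1.2, b, hb, h2⟩⟩
    · exact Or.inr ⟨h1.1, mem_N76.2 ⟨h1.2, u, hu, hvu⟩⟩
  have hcard : (insert t ((G.N E).erase a)).card ≤ 6 := by
    refine (Finset.card_insert_le _ _).trans ?_
    rw [Finset.card_erase_of_mem haN, hE.2.1]
  -- the other side is not empty
  have hne : (G.Co E1).Nonempty := by
    have h1 : ∃ s ∈ G.Co E, s ≠ t := by
      by_contra hc
      push Not at hc
      have h2 : G.nb t ⊆ G.N E := by
        intro v hv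
        by_contra hvN
        have h3 : v ∈ G.Co E := mem_Co76.2 ⟨nb_Co76 hC hv, hvN⟩
        exact ne_of_nb5 hv (hc v h3).symm
      have h3 := Finset.card_le_card h2
      rw [hE.2.1] at h3
      exact ht (le_antisymm h3 (G.deg t))
    obtain ⟨s, hs, hst⟩ := h1
    refine ⟨s, mem_Co76.2 ⟨?_, ?_⟩⟩
    · rw [hE1, mem_insert, not_or]
      refine ⟨?_, (mem_Co76.1 hs).1⟩
      rintro rfl
      exact (mem_Co76.1 hs).2 haN
    · intro h2
      have h3 := hsub h2
      rw [mem_insert, mem_erase] at h3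
      rcases h3 with h3 | h3
      · exact hst h3
      · exact (mem_Co76.1 hs).2 h3.2
  have hne1 : E1.Nonempty := ⟨a, by rw [hE1]; exact mem_insert_self _ _⟩
  have h6 := G.stN6_37 E1 hne1 hne
  have heq : G.N E1 = insert t ((G.N E).erase a) :=
    Finset.eq_of_subset_of_card_le hsub (hcard.trans h6)
  have hF : G.Frag E1 := by
    refine ⟨hne1, ?_, hne⟩
    have := Finset.card_le_card hsub
    omega
  have htN : t ∈ G.N E1 := by
    rw [heq]
    exact mem_insert_self _ _
  have hbE1 : b ∈ E1 := by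
    rw [hE1]
    exact mem_insert_of_mem hb
  obtain ⟨k1, k2⟩ := frag_addE5 (h := hbt) hF (fun h1 => (mem_Co76.1 h1.2).2 htN)
    (fun h1 => (mem_Co76.1 h1.2).1 hbE1)
  refine ⟨E1, k1, ?_⟩
  intro v hv hva
  rw [k2, heq]
  exact mem_insert_of_mem (mem_erase.2 ⟨hva, hv⟩)

/-- edges that avoid `a` -/
theorem avoid5 {a b t : V} (h : G.HL a b t) (ht : ¬ G.Low t) (hbt : b ≠ t) {E : Finset V}
    (hE : G.Frag E) {x y : V} (hx : x ∈ G.N E) (hy : y ∈ G.N E) (hxa : x ≠ a) (hya : y ≠ a) :
    ∃ E', (G.addE5 b t hbt).Frag E' ∧ x ∈ (G.addE5 b t hbt).N E' ∧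
      y ∈ (G.addE5 b t hbt).N E' := by
  by_cases h1 : b ∈ E ∧ t ∈ G.Co E
  · obtain ⟨E', k1, k2⟩ := move5 h ht hbt hE h1.1 h1.2
    exact ⟨E', k1, k2 x hx hxa, k2 y hy hya⟩
  · by_cases h2 : t ∈ E ∧ b ∈ G.Co E
    · obtain ⟨c1, c2, c3⟩ := G.stCo_37 E hE
      obtain ⟨E', k1, k2⟩ := move5 h ht hbt c1 h2.2 (by rw [c3]; exact h2.1)
      exact ⟨E', k1, k2 x (by rw [c2]; exact hx) hxa, k2 y (by rw [c2]; exact hy) hya⟩
    · obtain ⟨k1, k2⟩ := frag_addE5 (h := hbt) hE h1 h2
      exact ⟨E, k1, by rw [k2]; exact hx, by rw [k2]; exact hy⟩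

/-- fragments that have `b` or `t` in the neighbourhood -/
theorem near5 {b t : V} (hbt : b ≠ t) {E : Finset V} (hE : G.Frag E)
    (h : b ∈ G.N E ∨ t ∈ G.N E) :
    (G.addE5 b t hbt).Frag E ∧ (G.addE5 b t hbt).N E = G.N E := by
  refine frag_addE5 hE ?_ ?_
  · rintro ⟨h1, h2⟩
    rcases h with h | h
    · exact (mem_N76.1 h).1 h1
    · exact (mem_Co76.1 h2).2 h
  · rintro ⟨h1, h2⟩
    rcases h with h | h
    · exact (mem_Co76.1 h2).2 h
    · exact (mem_N76.1 h).1 h1

/-- images under automorphisms -/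
theorem frag_map5 (e : V ≃ V) (he : ∀ u v, v ∈ G.nb u → e v ∈ G.nb (e u)) {E : Finset V}
    (hE : G.Frag E) : G.Frag (E.map e.toEmbedding) ∧
      G.N (E.map e.toEmbedding) = (G.N E).map e.toEmbedding := by
  have hN : (G.N E).map e.toEmbedding ⊆ G.N (E.map e.toEmbedding) := by
    intro v hv
    rw [mem_map] at hv
    obtain ⟨w, hw, rfl⟩ := hv
    obtain ⟨h1, u, hu, hwu⟩ := mem_N76.1 hw
    rw [mem_N76]
    refine ⟨?_, e u, mem_map_of_mem _ hu, he _ _ hwu⟩
    intro h2
    rw [mem_map] at h2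
    obtain ⟨w', hw', h3⟩ := h2
    have h4 : w' = w := e.injective h3
    subst h4
    exact h1 hw'
  have he' : ∀ u v, e v ∈ G.nb (e u) → v ∈ G.nb u := by
    intro u v h
    -- the map on the neighbourhoods is injective and the numbers of pairs agree
    have h1 : ∀ w, (G.nb w).map e.toEmbedding ⊆ G.nb (e w) := by
      intro w x hx
      rw [mem_map] at hx
      obtain ⟨y, hy, rfl⟩ := hx
      exact he _ _ hy
    have h2 : ∀ w, (G.nb w).card ≤ (G.nb (e w)).card := by
      intro w
      have := Finset.card_le_card (h1 w)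
      rwa [Finset.card_map] at this
    have h3 : ∑ w, (G.nb w).card = ∑ w, (G.nb (e w)).card :=
      (Equiv.sum_comp e fun w => (G.nb w).card).symm
    have h4 := (Finset.sum_eq_sum_iff_of_le (fun w _ => h2 w)).1 h3 u (mem_univ _)
    have h5 : (G.nb u).map e.toEmbedding = G.nb (e u) :=
      Finset.eq_of_subset_of_card_le (h1 u) (by rw [Finset.card_map]; exact h4.ge)
    rw [← h5, mem_map] at h
    obtain ⟨y, hy, h6⟩ := h
    have h7 : y = v := e.injective h6
    subst h7
    exact hy
  have hN' : G.N (E.map e.toEmbedding) = (G.N E).map e.toEmbedding := by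
    apply Subset.antisymm _ hN
    intro v hv
    obtain ⟨h1, u, hu, hvu⟩ := mem_N76.1 hv
    rw [mem_map] at hu
    obtain ⟨u', hu', rfl⟩ := hu
    obtain ⟨w, rfl⟩ := e.surjective v
    refine mem_map_of_mem e.toEmbedding (mem_N76.2 ⟨?_, u', hu', he' _ _ hvu⟩)
    intro h2
    exact h1 (mem_map_of_mem e.toEmbedding h2)
  refine ⟨⟨?_, ?_, ?_⟩, hN'⟩
  · exact hE.1.map
  · rw [hN', Finset.card_map]
    exact hE.2.1
  · obtain ⟨c, hc⟩ := hE.2.2
    refine ⟨e c, ?_⟩
    rw [mem_Co76, hN']
    refine ⟨?_, ?_⟩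
    · intro h2
      rw [mem_map] at h2
      obtain ⟨w, hw, h3⟩ := h2
      have h4 : w = c := e.injective h3
      subst h4
      exact (mem_Co76.1 hc).1 hw
    · intro h2
      rw [mem_map] at h2
      obtain ⟨w, hw, h3⟩ := h2
      have h4 : w = c := e.injective h3
      subst h4
      exact (mem_Co76.1 hc).2 hw

/-- in the new graph `a` and `b` are twins; the exchange of `a` and `b` is an automorphism -/
theorem swap5 {a b t : V} (h : G.HL a b t) (hbt : b ≠ t) :
    ∀ u v, v ∈ (G.addE5 b t hbt).nb u →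
      Equiv.swap a b v ∈ (G.addE5 b t hbt).nb (Equiv.swap a b u) := by
  have hab : a ≠ b := ne_of_nb5 h.2.2.1
  have hat : t ∈ G.nb a := HL_nb5 h
  have hta : a ≠ t := ne_of_nb5 hat
  -- common neighbours
  have key : ∀ x, x ≠ a → x ≠ b → (x ∈ (G.addE5 b t hbt).nb a ↔ x ∈ (G.addE5 b t hbt).nb b) := by
    intro x hxa hxb
    have h1 : x ∈ G.cl a ↔ x ∈ insert t (G.cl b) := by rw [h.2.2.2.2]
    rw [cl, mem_insert, mem_insert, cl, mem_insert] at h1
    rw [mem_addE5, mem_addE5]
    constructor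
    · rintro (h2 | h2 | h2)
      · rcases h1.1 (Or.inr h2) with h3 | h3 | h3
        · exact Or.inr (Or.inl ⟨rfl, h3⟩)
        · exact absurd h3 hxb
        · exact Or.inl h3
      · exact absurd h2.1 hab
      · exact absurd h2.1 hta
    · rintro (h2 | h2 | h2)
      · rcases h1.2 (Or.inr (Or.inr h2)) with h3 | h3
        · exact absurd h3 hxa
        · exact Or.inl h3
      · rcases h1.2 (Or.inl h2.2) with h3 | h3
        · exact absurd h3 hxa
        · exact Or.inl h3
      · exact absurd h2.1 hbt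
  intro u v hv
  have hne : u ≠ v := ne_of_nb5 hv
  by_cases hua : u = a
  · subst hua
    rw [Equiv.swap_apply_left]
    by_cases hvb : v = b
    · subst hvb
      rw [Equiv.swap_apply_right]
      exact (G.addE5 v t hbt).sym _ _ hv
    · rw [Equiv.swap_apply_of_ne_of_ne hne.symm hvb]
      exact (key v hne.symm hvb).1 hv
  · by_cases hub : u = b
    · subst hub
      rw [Equiv.swap_apply_right]
      by_cases hva : v = a
      · subst hva
        rw [Equiv.swap_apply_left]
        exact (G.addE5 u t hbt).sym _ _ hv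
      · rw [Equiv.swap_apply_of_ne_of_ne hva hne.symm]
        exact (key v hva hne.symm).2 hv
    · rw [Equiv.swap_apply_of_ne_of_ne hua hub]
      by_cases hva : v = a
      · subst hva
        rw [Equiv.swap_apply_left]
        exact (G.addE5 b t hbt).sym _ _ ((key u hua hub).1 ((G.addE5 b t hbt).sym _ _ hv))
      · by_cases hvb : v = b
        · subst hvb
          rw [Equiv.swap_apply_right]
          exact (G.addE5 v t hbt).sym _ _ ((key u hua hub).2 ((G.addE5 v t hbt).sym _ _ hv))
        · rw [Equiv.swap_apply_of_ne_of_ne hva hvb]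
          exact hv

theorem crit_addE5 (hG : G.Crit) {a b t : V} (h : G.HL a b t) (ht : ¬ G.Low t) (hbt : b ≠ t) :
    (G.addE5 b t hbt).Crit := by
  have hab : a ≠ b := ne_of_nb5 h.2.2.1
  have hat : t ∈ G.nb a := HL_nb5 h
  have hta : a ≠ t := ne_of_nb5 hat
  -- edges at `a`
  have hA : ∀ y, y ∈ (G.addE5 b t hbt).nb a → ∃ E, (G.addE5 b t hbt).Frag E ∧
      a ∈ (G.addE5 b t hbt).N E ∧ y ∈ (G.addE5 b t hbt).N E := by
    intro y hy
    have hya : y ∈ G.nb a := by
      rw [mem_addE5] at hy
      rcases hy with hy | hy | hy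
      · exact hy
      · exact absurd hy.1 hab
      · exact absurd hy.1 hta
    by_cases hyb : y = b ∨ y = t
    · obtain ⟨E, h1, h2, h3⟩ := hG a y hya
      obtain ⟨k1, k2⟩ := near5 (G := G) hbt h1 (by
        rcases hyb with rfl | rfl
        · exact Or.inl h3
        · exact Or.inr h3)
      exact ⟨E, k1, by rw [k2]; exact h2, by rw [k2]; exact h3⟩
    · rw [not_or] at hyb
      have h1 : y ∈ G.nb b := by
        have h2 : y ∈ insert t (G.cl b) := by
          rw [← h.2.2.2.2, cl]
          exact mem_insert_of_mem hya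
        rw [mem_insert, cl, mem_insert] at h2
        rcases h2 with h2 | h2 | h2
        · exact absurd h2 hyb.2
        · exact absurd h2 hyb.1
        · exact h2
      obtain ⟨E, h2, h3, h4⟩ := hG b y h1
      obtain ⟨k1, k2⟩ := near5 (G := G) hbt h2 (Or.inl h3)
      obtain ⟨m1, m2⟩ := frag_map5 (G := G.addE5 b t hbt) (Equiv.swap a b) (swap5 h hbt) k1
      refine ⟨_, m1, ?_, ?_⟩
      · rw [m2, k2]
        have := mem_map_of_mem (Equiv.swap a b).toEmbedding h3
        simpa using this
      · rw [m2, k2]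
        have h5 := mem_map_of_mem (Equiv.swap a b).toEmbedding h4
        have h6 : Equiv.swap a b y = y :=
          Equiv.swap_apply_of_ne_of_ne (ne_of_nb5 hya).symm hyb.1
        simpa [h6] using h5
  -- the new edge
  have hB : ∃ E, (G.addE5 b t hbt).Frag E ∧
      b ∈ (G.addE5 b t hbt).N E ∧ t ∈ (G.addE5 b t hbt).N E := by
    obtain ⟨E, h1, h2, h3⟩ := hA t (mem_addE5.2 (Or.inl hat))
    obtain ⟨m1, m2⟩ := frag_map5 (G := G.addE5 b t hbt) (Equiv.swap a b) (swap5 h hbt) h1
    refine ⟨_, m1, ?_, ?_⟩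
    · rw [m2]
      have := mem_map_of_mem (Equiv.swap a b).toEmbedding h2
      simpa using this
    · rw [m2]
      have h5 := mem_map_of_mem (Equiv.swap a b).toEmbedding h3
      have h6 : Equiv.swap a b t = t := Equiv.swap_apply_of_ne_of_ne hta.symm hbt.symm
      simpa [h6] using h5
  intro x y hxy
  by_cases hxa : x = a
  · subst hxa
    exact hA y hxy
  · by_cases hya : y = a
    · subst hya
      obtain ⟨E, h1, h2, h3⟩ := hA x ((G.addE5 b t hbt).sym _ _ hxy)
      exact ⟨E, h1, h3, h2⟩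
    · rcases mem_addE5.1 hxy with h1 | ⟨rfl, rfl⟩ | ⟨rfl, rfl⟩
      · obtain ⟨E, h2, h3, h4⟩ := hG x y h1
        exact avoid5 h ht hbt h2 h3 h4 hxa hya
      · exact hB
      · obtain ⟨E, h1, h2, h3⟩ := hB
        exact ⟨E, h1, h3, h2⟩

theorem stSat_5 (G : CG V) : G.StSat := by
  intro hG _ a b t h ht
  have hbt : b ≠ t := by
    rintro rfl
    exact h.2.2.2.1 (by rw [cl]; exact mem_insert_self _ _)
  have hmono : ∀ v, G.nb v ⊆ (G.addE5 b t hbt).nb v := fun v x hx => mem_addE5.2 (Or.inl hx)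
  refine ⟨G.addE5 b t hbt, crit_addE5 hG h ht hbt, ?_, ?_⟩
  · rw [l, l]
    apply Finset.card_le_card
    intro v hv
    rw [mem_filter] at hv ⊢
    refine ⟨hv.1, ?_⟩
    have h1 := Finset.card_le_card (hmono v)
    have h2 := G.deg v
    have h3 : ((G.addE5 b t hbt).nb v).card = 6 := hv.2
    show (G.nb v).card = 6
    omega
  · refine Finset.sum_lt_sum (fun v _ => Finset.card_le_card (hmono v)) ⟨b, mem_univ _, ?_⟩
    apply Finset.card_lt_card
    rw [Finset.ssubset_iff_of_subset (hmono b)]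
    exact ⟨t, mem_addE5.2 (Or.inr (Or.inl ⟨rfl, rfl⟩)),
      fun h1 => h.2.2.2.1 (by rw [cl]; exact mem_insert_of_mem h1)⟩

end CG

end Pool.Agent.Lib.MP_e95c01_co.N
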