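import Pool.Agent.Lib.MP_e95c01_co.U.MainU37
import Pool.Agent.Lib.MP_e95c01_co.N4.Closed76

/-!
# U23: the theorem for `CG`
-/

namespace Pool.Agent.Lib.MP_e95c01_co.N

open Finset

variable {V : Type} [Fintype V] [DecidableEq V]

namespace CG

theorem HL.hl76_37 {G : CG V} {a b t : V} (h : G.HL a b t) : G.HL76 a b t := by
  obtain ⟨h1, h2, h3, h4, h5⟩ := h
  have hta : t ≠ a := by
    rintro rfl
    exact h4 (mem_cl37.2 (Or.inr (G.sym _ _ h3)))
  have hba : b ≠ a := by
    rintro rfl
    exact G.irr _ h3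
  refine ⟨G.sym _ _ h3, ?_, ?_, ?_⟩
  · rintro rfl
    exact h4 (mem_cl37.2 (Or.inl rfl))
  · intro h
    exact h4 (mem_cl37.2 (Or.inr h))
  · ext x
    rw [mem_insert, mem_insert, mem_erase]
    constructor
    · intro hx
      have hxa : x ≠ a := by
        rintro rfl
        exact G.irr _ hx
      have h6 : x ∈ insert t (G.cl b) := by
        rw [← h5]
        exact mem_cl37.2 (Or.inr hx)
      rcases mem_insert.1 h6 with h6 | h6
      · exact Or.inl h6
      · rcases mem_cl37.1 h6 with h6 | h6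
        · exact Or.inr (Or.inl h6)
        · exact Or.inr (Or.inr ⟨hxa, h6⟩)
    · rintro (h6 | h6 | ⟨h6, h7⟩)
      · have h8 : x ∈ G.cl a := by
          rw [h5, h6]
          exact mem_insert_self _ _
        rcases mem_cl37.1 h8 with h8 | h8
        · exact absurd (h6.symm.trans h8) hta
        · exact h8
      · rw [h6]
        exact h3
      · have h8 : x ∈ G.cl a := by
          rw [h5]
          exact mem_insert_of_mem (mem_cl37.2 (Or.inr h7))
        rcases mem_cl37.1 h8 with h8 | h8
        · exact absurd h8 h6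
        · exact h8

theorem Sat76.sat37 {G : CG V} (h : G.Sat76) : G.Sat := fun a b t hl => h a b t hl.hl76_37 hl.2.1

theorem stC4_37 (G : CG V) (hm : ∀ G' : CG V, G'.StMainU) (h13 : ∀ G' : CG V, G'.StClosed13)
    (hps : ∀ G' : CG V, G'.StPsumU) : G.StC4 := by
  intro hG
  refine sat_red76 4 ?_ G hG
  intro G hcr hs
  have hsat := hs.sat37
  by_cases hex : ∃ F, G.Big F
  · obtain ⟨F, hF⟩ := hex
    obtain ⟨hCf, hCN, hCC⟩ := G.stCo_37 F hF.1
    have hC : G.Big (G.Co F) := ⟨hCf, hF.2.2, by rw [hCC]; exact hF.2.1⟩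
    have h1 := hm G hcr hsat F hF
    have h2 := hm G hcr hsat _ hC
    have h3 := (hps G F hF.1).1
    have h4 : (Fintype.card V : ℤ) ≤ ((4 * G.l univ : ℕ) : ℤ) := by
      push_cast
      linarith
    exact_mod_cast h4
  · push Not at hex
    by_cases h12 : Fintype.card V ≤ 12
    · exact small76 hcr hs hex h12
    · exact h13 G hcr hsat (by omega) hex

end CG

end Pool.Agent.Lib.MP_e95c01_co.N
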