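import Pool.Agent.Lib.MP_e95c01_co.N.Defs37

/-!
# All 6-contraction-critical graphs: definitions and statements

The functional `P4`, twins, pairs of a vertex of degree 7 and a low vertex, charges.
-/

namespace Pool.Agent.Lib.MP_e95c01_co.N

open Finset

variable {V : Type} [Fintype V] [DecidableEq V] (G : CG V)

namespace CG

/-- closed neighbourhood -/
def cl (v : V) : Finset V := insert v (G.nb v)

/-- twins of degree 7 -/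
def Tw (v w : V) : Prop := w ∈ G.nb v ∧ (G.nb v).card = 7 ∧ G.cl v = G.cl w

/-- twin vertex -/
def IsTw (v : V) : Prop := ∃ w, G.Tw v w

/-- neither low nor a twin vertex -/
def Hub (v : V) : Prop := ¬ G.Low v ∧ ¬ G.IsTw v

/-- `a` of degree 7, `b` low, `N[a]` is the disjoint union of `N[b]` and `t` -/
def HL (a b t : V) : Prop :=
  (G.nb a).card = 7 ∧ G.Low b ∧ b ∈ G.nb a ∧ t ∉ G.cl b ∧ G.cl a = insert t (G.cl b)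

/-- two adjacent low vertices with four common neighbours; `t` is adjacent to `a` only and `u` is
adjacent to `b` only -/
def LL (a b t u : V) : Prop :=
  G.Low a ∧ G.Low b ∧ b ∈ G.nb a ∧ t ≠ u ∧ t ∉ G.cl b ∧ u ∉ G.cl a ∧
    insert u (G.cl a) = insert t (G.cl b)

/-- saturated: the third vertex of `HL` is low -/
def Sat : Prop := ∀ a b t, G.HL a b t → G.Low t

/-- the pair `x z` is covered by a fragment of at most two vertices inside `S` -/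
def CovIn (S : Finset V) (x z : V) : Prop :=
  (∃ w ∈ S, G.Low w ∧ x ∈ G.nb w ∧ z ∈ G.nb w) ∨
  (∃ v ∈ S, ∃ w ∈ S, G.Tw v w ∧ x ∈ G.nb v ∧ z ∈ G.nb v ∧ x ≠ w ∧ z ≠ w) ∨
  (∃ a ∈ S, ∃ b ∈ S, G.HL a b x ∧ z ∈ G.nb b ∧ z ≠ a) ∨
  (∃ a ∈ S, ∃ b ∈ S, G.HL a b z ∧ x ∈ G.nb b ∧ x ≠ a) ∨
  (∃ a ∈ S, ∃ b ∈ S, G.LL a b x z)

/-- every edge of `R` without a common member of the family is covered inside `R` -/
def CovU (Fa : Finset (Finset V)) : Prop :=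
  ∀ x ∈ R Fa, ∀ z ∈ R Fa, z ∈ G.nb x → G.m Fa x z = 0 → G.CovIn (R Fa) x z

/-- half of the initial weight of a vertex (times two) -/
def a4 (v : V) : ℤ := if G.Low v then 6 else -2

open Classical in
/-- the coefficient of a vertex -/
noncomputable def c4 (v : V) : ℤ := if G.Low v then 2 else if G.IsTw v then 1 else 0

/-- the functional (twice `8 l(F) - 2|F| - 6 + ...`) -/
noncomputable def P4 (S : Finset V) : ℤ :=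
  ∑ v ∈ S, 2 * G.a4 v +
    ∑ w ∈ G.N S, (G.a4 w + G.c4 w * ((G.d w S : ℤ) - (G.d w (G.Co S) : ℤ)))

open Classical in
/-- what `w` pays to `x` -/
noncomputable def pi4 (w x : V) : ℤ :=
  if G.Low w then (if ¬ G.Low x ∧ ¬ ∃ b, G.HL x b w then 2 else 0)
  else if G.IsTw w then (if G.Hub x then 1 else 0) else 0

/-- the charge of `z` after the first rule -/
noncomputable def ch4 (Fa : Finset (Finset V)) (z : V) : ℤ :=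
  (2 - ((G.I Fa z).card : ℤ)) * G.a4 z +
    G.c4 z * ((((G.I Fa z).card : ℤ) - 2) * ((G.nb z).card : ℤ) +
      ∑ x ∈ G.nR Fa z, (2 - (G.m Fa x z : ℤ))) +
    ∑ x ∈ G.nR Fa z, (if G.m Fa x z ≤ 1 then G.pi4 x z - G.pi4 z x else 0)

open Classical in
/-- number of low neighbours in `R` -/
noncomputable def tl (Fa : Finset (Finset V)) (z : V) : ℕ :=
  ((G.nR Fa z).filter fun x => G.Low x).card

open Classical in
/-- number of twin vertices adjacent to `z` in `R`, the twin of `z` not counted -/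
noncomputable def tt (Fa : Finset (Finset V)) (z : V) : ℕ :=
  ((G.nR Fa z).filter fun x => G.IsTw x ∧ ¬ G.Tw z x).card

open Classical in
/-- number of neighbours `a` of `z` in `R` with `HL a b z` for some `b` -/
noncomputable def tA (Fa : Finset (Finset V)) (z : V) : ℕ :=
  ((G.nR Fa z).filter fun x => ∃ b, G.HL x b z).card

open Classical in
/-- number of low vertices that pay `z` -/
noncomputable def tp (Fa : Finset (Finset V)) (z : V) : ℕ :=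
  ((G.nR Fa z).filter fun x => G.Low x ∧ ¬ ∃ b, G.HL z b x).card

/-- the torsos that are considered -/
structure TorsoU (Fa : Finset (Finset V)) : Prop where
  reg : G.Reg Fa
  big : ∀ B ∈ Fa, 3 ≤ B.card
  n9 : 9 ≤ Fintype.card V
  sat : G.Sat
  cov : G.CovU Fa

/-- a low or twin vertex `z` with `I z = {B}` is well expanded -/
def Wide (Fa : Finset (Finset V)) (B : Finset V) (z : V) : Prop :=
  2 ≤ G.d z (G.Co B) ∧ (G.IsTw z → 3 ≤ G.d z (G.Co B)) ∧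
  (G.Low z → ∀ v ∈ G.nb z, G.IsTw v → G.I Fa v = {B} → 4 ≤ ((G.nb z ∪ G.nb v) ∩ G.Co B).card)

/-- expansion at the vertices that are in no neighbourhood of the family -/
structure Exp0 (Fa : Finset (Finset V)) : Prop where
  e4 : ∀ l ∈ R Fa, ∀ v ∈ R Fa, G.I Fa l = ∅ → G.I Fa v = ∅ → G.Low l → G.IsTw v → l ∈ G.nb v →
    (G.nb l ∩ G.nb v).card ≤ 3
  e5 : ∀ w ∈ R Fa, ∀ v ∈ R Fa, G.I Fa w = ∅ → G.I Fa v = ∅ → G.IsTw w → G.IsTw v → w ∈ G.nb v →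
    ¬ G.Tw v w → (G.nb w ∩ G.nb v).card ≤ 3

/-- twin vertices that need a payment -/
def Needy (Fa : Finset (Finset V)) (v : V) : Prop :=
  v ∈ R Fa ∧ G.IsTw v ∧ G.I Fa v = ∅ ∧ G.ch4 Fa v < 0

/-- the hub `x` pays 1 to the needy twin vertex `v` -/
def Qual (Fa : Finset (Finset V)) (x v : V) : Prop :=
  G.Needy Fa v ∧ G.Hub x ∧ x ∈ G.nb v ∧
    (G.I Fa x ≠ ∅ ∨ ∃ q ∈ G.nb x ∩ G.nb v, G.IsTw q ∧ ¬ G.Tw v q ∧ G.I Fa q ≠ ∅)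

/-- the low vertex `l` pays half of its charge to the needy twin vertex `v` -/
def PL (Fa : Finset (Finset V)) (l v : V) : Prop :=
  G.Needy Fa v ∧ G.Low l ∧ l ∈ G.nb v ∧ G.I Fa l ≠ ∅ ∧ 3 ≤ (G.nb l ∩ G.nb v).card

/-- the exceptional low vertices -/
def LowEx (Fa : Finset (Finset V)) (B : Finset V) (z v : V) : Prop :=
  G.IsTw v ∧ v ∈ G.nb z ∧ G.I Fa v = {B} ∧ G.d z (G.Co B) = 2 ∧ G.nb z ∩ G.Co B ⊆ G.nb v ∧
    G.d v (G.Co B) ≤ 3 ∧ G.tl Fa z = 0 ∧ G.tA Fa z = 0 ∧ G.ch4 Fa z = -2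

/-- the exceptional twin vertices -/
def TwEx (Fa : Finset (Finset V)) (B : Finset V) (z l : V) : Prop :=
  G.Low l ∧ l ∈ G.nb z ∧ G.I Fa l = {B} ∧ G.nb l ∩ G.Co B = G.nb z ∩ G.Co B ∧
    G.d z (G.Co B) = 3 ∧ (∀ x ∈ G.nb z ∩ G.Co B, G.Hub x) ∧ G.tl Fa z = 1 ∧ G.tt Fa z = 0 ∧
    G.ch4 Fa z = -2

open Classical in
/-- number of needy twin vertices paid by `x` -/
noncomputable def qn (Fa : Finset (Finset V)) (x : V) : ℕ := (univ.filter fun v => G.Qual Fa x v).card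

/-! ## Statements -/

/-- U1: fragments of at most two vertices -/
def StSmall : Prop := ∀ E : Finset V, G.Frag E → E.card ≤ 2 → ∀ x z, x ∈ G.N E → z ∈ G.N E →
  x ≠ z → G.CovIn E x z

/-- U3: the family inside `F` (as `StFam`, with the maximality at the end) -/
def StFamE : Prop := G.Crit → ∀ F : Finset V, G.Big F → 4 ≤ F.card → ∃ Fa : Finset (Finset V),
    (∀ B ∈ Fa, G.Big B ∧ B ⊂ F) ∧
    (∀ B ∈ Fa, ∀ B' ∈ Fa, B ≠ B' → Disjoint B B' ∧ Disjoint (G.N B) B') ∧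
    (∀ z ∈ F, (∀ A ∈ Fa, z ∉ A) → ∀ v ∈ G.nb z, ¬ G.SCov z v →
      ∃ A ∈ Fa, z ∈ G.N A ∧ (v ∈ A ∨ v ∈ G.N A)) ∧
    (∀ B ∈ Fa, ∀ Z : Finset V, Z.Nonempty → Z ⊆ F → Z ⊆ G.N B →
      (∀ z ∈ Z, ∀ A ∈ Fa, A ≠ B → z ∉ G.N A) →
      Z.card < (G.N Z ∩ G.Co B).card ∨ (Fa = {B} ∧ Z = F \ B)) ∧
    (Fa.Nonempty → ∀ Z : Finset V, Z.Nonempty → Z ⊆ G.N F → (∀ z ∈ Z, ∀ A ∈ Fa, z ∉ G.N A) →
      Z.card < (G.N Z ∩ F).card ∨ ∃ B, Fa = {B} ∧ G.N Z ∩ F = F \ B ∧ (F \ B).card = Z.card) ∧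
    (Fa = ∅ → ∀ B, G.Big B → ¬ B ⊂ F) ∧
    (Fa.Nonempty → ∀ B, G.Big B → B ⊆ F → ∃ A ∈ Fa, ¬ Disjoint B (A ∪ G.N A))

/-- U4: covers inside `R` -/
def StCovU : Prop := G.StSmall → ∀ Fa : Finset (Finset V), G.Reg Fa →
  (∀ z ∈ R Fa, ∀ B, G.I Fa z = {B} → 2 ≤ G.d z (G.Co B)) →
  ∀ x ∈ R Fa, ∀ z ∈ R Fa, z ∈ G.nb x → G.m Fa x z = 0 → G.SCov x z → G.CovIn (R Fa) x z

/-- U5a: identity -/
def StIdentU : Prop := ∀ Fa : Finset (Finset V), G.Reg Fa →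
  ∑ v : V, 2 * G.a4 v - ∑ B ∈ Fa, G.P4 B = ∑ z ∈ R Fa, G.ch4 Fa z

/-- U5b -/
def StPsumU : Prop := ∀ F : Finset V, G.Frag F →
  G.P4 F + G.P4 (G.Co F) = 16 * (G.l univ : ℤ) - 4 * (Fintype.card V : ℤ) ∧
  ∑ v : V, 2 * G.a4 v = 16 * (G.l univ : ℤ) - 4 * (Fintype.card V : ℤ)

/-- U7: twins and `HL` -/
structure StTwHL : Prop where
  symm : ∀ v w, G.Tw v w → G.Tw w v
  uniq : 9 ≤ Fintype.card V → ∀ v w w', G.Tw v w → G.Tw v w' → w = w'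
  notHL : 9 ≤ Fintype.card V → ∀ a b t, G.HL a b t → ¬ G.IsTw a
  nomut : 9 ≤ Fintype.card V → ∀ a b t b' t', G.HL a b t → G.HL a b' t' → t ≠ b'
  two : 9 ≤ Fintype.card V → ∀ a b t b' t', G.HL a b t → G.HL a b' t' → t ≠ t' →
    b ∈ G.nb b' ∧ b ∈ G.nb t' ∧ b ≠ b'
  one : 9 ≤ Fintype.card V → ∀ a a' b t, G.HL a b t → G.HL a' b t → a = a'
  twLL : ∀ a b t u, G.LL a b t u → ¬ G.IsTw t ∧ ¬ G.IsTw u
  twI : ∀ Fa : Finset (Finset V), G.Reg Fa → ∀ v ∈ R Fa, ∀ w, G.Tw v w →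
    w ∈ R Fa ∧ G.I Fa w = G.I Fa v
  hlI : ∀ Fa : Finset (Finset V), G.Reg Fa → ∀ a ∈ R Fa, ∀ b ∈ R Fa, ∀ t ∈ R Fa, G.HL a b t →
    G.I Fa a = G.I Fa b
  hid : ∀ Fa : Finset (Finset V), G.Reg Fa → (∀ B ∈ Fa, 3 ≤ B.card) → ∀ v ∈ R Fa, G.IsTw v →
    ∀ B ∈ G.I Fa v, 2 ≤ G.d v B

/-- U6: the charges -/
def StCh4 : Prop := 9 ≤ Fintype.card V → ∀ Fa : Finset (Finset V), G.Reg Fa → ∀ z ∈ R Fa,
  (G.Low z → (G.I Fa z = ∅ → G.ch4 Fa z = 2 * ((G.tl Fa z : ℤ) + (G.tA Fa z : ℤ))) ∧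
    (∀ B, G.I Fa z = {B} → G.ch4 Fa z =
      2 * ((G.d z (G.Co B) : ℤ) + (G.tl Fa z : ℤ) + (G.tA Fa z : ℤ) - 3)) ∧
    (2 ≤ (G.I Fa z).card → 0 ≤ G.ch4 Fa z)) ∧
  (G.IsTw z → (G.I Fa z = ∅ → G.ch4 Fa z = 3 * (G.tl Fa z : ℤ) + (G.tt Fa z : ℤ) - 10) ∧
    (∀ B, G.I Fa z = {B} → G.ch4 Fa z =
      (G.d z (G.Co B) : ℤ) + 3 * (G.tl Fa z : ℤ) + (G.tt Fa z : ℤ) - 8) ∧
    (2 ≤ (G.I Fa z).card → 0 ≤ G.ch4 Fa z)) ∧
  (G.Hub z → (G.I Fa z = ∅ → G.ch4 Fa z = 2 * (G.tp Fa z : ℤ) + (G.tt Fa z : ℤ) - 4) ∧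
    (∀ B, G.I Fa z = {B} → G.ch4 Fa z = 2 * (G.tp Fa z : ℤ) + (G.tt Fa z : ℤ) - 2) ∧
    (2 ≤ (G.I Fa z).card → (G.qn Fa z : ℤ) ≤ G.ch4 Fa z))

/-- U8: hubs -/
def StHub : Prop := ∀ Fa : Finset (Finset V), G.TorsoU Fa → ∀ z ∈ R Fa, G.Hub z →
  (G.I Fa z = ∅ → 0 ≤ G.ch4 Fa z) ∧
  (∀ B, G.I Fa z = {B} → 2 ≤ G.d z (G.Co B) → 0 ≤ G.ch4 Fa z)

/-- U9: low vertices in one neighbourhood -/
def StLowK : Prop := ∀ Fa : Finset (Finset V), G.TorsoU Fa → ∀ z ∈ R Fa, G.Low z →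
  ∀ B, G.I Fa z = {B} → 2 ≤ G.d z (G.Co B) → 0 ≤ G.ch4 Fa z ∨ ∃ v, G.LowEx Fa B z v

/-- U10: twin vertices in one neighbourhood -/
def StTwK : Prop := ∀ Fa : Finset (Finset V), G.TorsoU Fa → ∀ z ∈ R Fa, G.IsTw z →
  ∀ B, G.I Fa z = {B} → 3 ≤ G.d z (G.Co B) → 0 ≤ G.ch4 Fa z ∨ ∃ l, G.TwEx Fa B z l

open Classical in
/-- U11: the needy twin vertices are paid -/
def StNeedy : Prop := ∀ Fa : Finset (Finset V), G.TorsoU Fa → G.Exp0 Fa →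
  (∀ z ∈ R Fa, ∀ B, G.I Fa z = {B} → G.IsTw z → 3 ≤ G.d z (G.Co B)) →
  (∀ z ∈ R Fa, G.Low z → 0 ≤ G.ch4 Fa z) → ∀ v, G.Needy Fa v →
  - (2 * G.ch4 Fa v) ≤ 2 * ((univ.filter fun x => G.Qual Fa x v).card : ℤ) +
    ∑ l ∈ univ.filter (fun l => G.PL Fa l v), G.ch4 Fa l

open Classical in
/-- U12: nobody pays too much -/
structure StCap : Prop where
  low : ∀ Fa : Finset (Finset V), G.TorsoU Fa → G.Exp0 Fa → ∀ l,
    (univ.filter fun v => G.PL Fa l v).card ≤ 2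
  hub0 : ∀ Fa : Finset (Finset V), G.TorsoU Fa → G.Exp0 Fa → ∀ x ∈ R Fa, G.Hub x →
    G.I Fa x = ∅ → (G.qn Fa x : ℤ) ≤ G.ch4 Fa x
  hub1 : ∀ Fa : Finset (Finset V), G.TorsoU Fa → G.Exp0 Fa → ∀ x ∈ R Fa, G.Hub x →
    ∀ B, G.I Fa x = {B} → 2 ≤ G.d x (G.Co B) → (G.qn Fa x : ℤ) ≤ G.ch4 Fa x

/-- U13: torsos without exceptions -/
def StGenericU : Prop := ∀ Fa : Finset (Finset V), G.TorsoU Fa → G.Exp0 Fa →
  (∀ z ∈ R Fa, ∀ B, G.I Fa z = {B} → G.Wide Fa B z) → 0 ≤ ∑ z ∈ R Fa, G.ch4 Fa z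

/-- U5c: the formula for `P4` with the neighbours in `F` and in `N F` -/
def StP4 : Prop := ∀ F : Finset V, G.Frag F →
  G.P4 F = 16 * (G.l F : ℤ) - 4 * (F.card : ℤ) - 12 +
    (∑ w ∈ (G.N F).filter (fun w => G.Low w), (4 * (G.d w F : ℤ) + 2 * (G.d w (G.N F) : ℤ) - 4)) +
    (open Classical in
      ∑ w ∈ (G.N F).filter (fun w => G.IsTw w), (2 * (G.d w F : ℤ) + (G.d w (G.N F) : ℤ) - 7))

/-! ### thin torsos -/

/-- two opposite fragments; every other vertex is in one of the two neighbourhoods -/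
structure Strip (A B : Finset V) : Prop where
  ne : A ≠ B
  reg : G.Reg {A, B}
  bigA : 3 ≤ A.card
  bigB : 3 ≤ B.card
  n9 : 9 ≤ Fintype.card V
  sat : G.Sat
  sub : R {A, B} ⊆ G.N A ∪ G.N B

/-- U14: one vertex on each side -/
def StThin1 : Prop := ∀ A B : Finset V, G.Strip A B → (G.N A \ G.N B).card = 1 →
  (∀ y ∈ G.N B \ G.N A, ∀ s ∈ G.N A \ G.N B, s ∈ G.nb y → G.SCov y s) →
  0 ≤ ∑ z ∈ R {A, B}, G.ch4 {A, B} z ∧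
  (∀ s ∈ G.N A \ G.N B, G.Low s → ∀ q ∈ G.N A ∩ G.N B, ∀ q' ∈ G.N A ∩ G.N B, q ≠ q' →
    q ∈ G.nb s → q' ∈ G.nb s → G.IsTw q → G.IsTw q' → 4 ≤ ∑ z ∈ R {A, B}, G.ch4 {A, B} z)

/-- U15: two vertices on each side -/
def StThin2 : Prop := ∀ A B : Finset V, G.Strip A B → (G.N A \ G.N B).card = 2 →
  G.CovU {A, B} → (∀ z ∈ R {A, B}, ∀ D, G.I {A, B} z = {D} → 2 ≤ G.d z (G.Co D)) →
  (∀ b ∈ B, ∀ c ∈ G.N B, c ∈ G.nb b → G.d c B = 1 → G.SCov b c) →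
  0 ≤ ∑ z ∈ R {A, B}, G.ch4 {A, B} z ∨
  (-4 ≤ ∑ z ∈ R {A, B}, G.ch4 {A, B} z ∧ ∃ c ∈ G.N A ∩ G.N B, ∃ q q', G.Low c ∧ G.d c B = 1 ∧
    G.Tw q q' ∧ G.nb c ∩ G.N B = {q, q'})

/-- U16: three vertices on each side -/
def StThin3 : Prop := ∀ A B : Finset V, G.Strip A B → (G.N A \ G.N B).card = 3 →
  G.CovU {A, B} → (∀ z ∈ R {A, B}, ∀ D, G.I {A, B} z = {D} → 2 ≤ G.d z (G.Co D) ∧
    (G.IsTw z → 3 ≤ G.d z (G.Co D))) →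
  0 ≤ ∑ z ∈ R {A, B}, G.ch4 {A, B} z

/-! ### small fragments -/

/-- a big fragment without big proper subfragments -/
structure Leaf (F : Finset V) : Prop where
  big : G.Big F
  n13 : 13 ≤ Fintype.card V
  sat : G.Sat
  four : 4 ≤ F.card
  none : ∀ B, G.Big B → ¬ B ⊂ F
  cov : ∀ z ∈ F, ∀ v ∈ G.nb z, G.SCov z v

/-- U18a: the torso of a leaf -/
structure StLeaf : Prop where
  torso : ∀ F, G.Leaf F → G.TorsoU {G.Co F}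
  sum : ∀ F, G.Leaf F → G.P4 F = ∑ z ∈ R {G.Co F}, G.ch4 {G.Co F} z
  mem : ∀ F, G.Leaf F → ∀ z, (z ∈ R {G.Co F} ↔ z ∈ F ∨ z ∈ G.N F) ∧
    (z ∈ F → G.I {G.Co F} z = ∅) ∧ (z ∈ G.N F → G.I {G.Co F} z = {G.Co F})
  exp : ∀ F, G.Leaf F → ∀ Z : Finset V, Z.Nonempty → Z ⊆ G.N F → F ⊆ G.N Z ∨
    Z.card < (G.N Z ∩ F).card ∨ ((G.N Z ∩ F).card = Z.card ∧ G.Frag (F \ G.N Z) ∧
      (F \ G.N Z).card ≤ 2 ∧ G.N (F \ G.N Z) = (G.N F \ Z) ∪ (G.N Z ∩ F))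
  e4 : ∀ F, G.Leaf F → ∀ l ∈ F, ∀ v ∈ F, G.Low l → G.IsTw v → l ∈ G.nb v →
    (G.nb l ∩ G.nb v).card ≤ 3
  e5 : ∀ F, G.Leaf F → ∀ w ∈ F, ∀ v ∈ F, G.IsTw w → G.IsTw v → w ∈ G.nb v →
    ¬ G.Tw v w → (G.nb w ∩ G.nb v).card ≤ 3 ∨
      (F.card = 4 ∧ ∀ x ∈ F, ∀ y ∈ F, G.IsTw x ∧ (x ≠ y → y ∈ G.nb x))

/-- U18b: two adjacent pairs of twins -/
def StK4 : Prop := ∀ F, G.Leaf F → F.card = 4 →
  (∀ x ∈ F, ∀ y ∈ F, G.IsTw x ∧ (x ≠ y → y ∈ G.nb x)) → 0 ≤ G.P4 F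

/-- U18c -/
def StLeaf4 : Prop := ∀ F, G.Leaf F → F.card = 4 → 0 ≤ G.P4 F

/-- U18d -/
def StLeaf5 : Prop := ∀ F, G.Leaf F → F.card = 5 → 0 ≤ G.P4 F

/-- U18e -/
def StLeaf6 : Prop := ∀ F, G.Leaf F → 6 ≤ F.card → 0 ≤ G.P4 F

/-- U19: fragments with three vertices -/
def StF3 : Prop := G.Sat → ∀ F, G.Big F → F.card = 3 →
  (∀ z ∈ F, ∀ v ∈ G.nb z, v ∉ F → G.SCov z v) →
  0 ≤ G.P4 F ∧ (∀ c ∈ G.N F, ∀ q q', G.Low c → G.d c F = 1 → G.Tw q q' →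
    G.nb c ∩ G.N F = {q, q'} → 4 ≤ G.P4 F)

/-- U20a: larger fragments with a low vertex that has one neighbour inside -/
def StAdd4 : Prop := G.Crit → G.Sat → ∀ F, G.Big F → 4 ≤ F.card →
  (∀ B, G.Big B → B ⊂ F → 0 ≤ G.P4 B) → ∀ c ∈ G.N F, ∀ q q', G.Low c → G.d c F = 1 →
    G.Tw q q' → G.nb c ∩ G.N F = {q, q'} → 4 ≤ G.P4 F

/-- U20: main lemma -/
def StMainU : Prop := G.Crit → G.Sat → ∀ F, G.Big F → 0 ≤ G.P4 F

/-- U22a: no big fragment, many vertices -/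
def StClosed13 : Prop := G.Crit → G.Sat → 13 ≤ Fintype.card V → (∀ F, ¬ G.Big F) →
  Fintype.card V ≤ 4 * G.l univ

/-- U22b: no big fragment, few vertices -/
def StClosed12 : Prop := G.Crit → Fintype.card V ≤ 12 → (∀ F, ¬ G.Big F) →
  Fintype.card V ≤ 4 * G.l univ

/-- U21: adding an edge -/
def StSat : Prop := G.Crit → 9 ≤ Fintype.card V → ∀ a b t, G.HL a b t → ¬ G.Low t →
  ∃ G' : CG V, G'.Crit ∧ G'.l univ ≤ G.l univ ∧ ∑ v, (G.nb v).card < ∑ v, (G'.nb v).card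

/-- U23: the theorem for `CG` -/
def StC4 : Prop := G.Crit → Fintype.card V ≤ 4 * G.l univ

end CG

end Pool.Agent.Lib.MP_e95c01_co.N
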