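import Pool.Agent.Lib.MP_e95c01_co.U.Leaf33

/-!
# Leaves: the value of `P4` as a sum over `N F`; three vertices of `N F` that expand badly
-/

namespace Pool.Agent.Lib.MP_e95c01_co.N

open Finset

variable {V : Type} [Fintype V] [DecidableEq V]

namespace CG

variable {G : CG V} {F : Finset V}

open Classical in
/-- the contribution of a vertex of `N F` -/
noncomputable def val33 (G : CG V) (F : Finset V) (w : V) : ℤ :=
  if G.Low w then 4 * (G.d w F : ℤ) + 2 * (G.d w (G.N F) : ℤ) - 4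
  else if G.IsTw w then 2 * (G.d w F : ℤ) + (G.d w (G.N F) : ℤ) - 7 else 0

theorem val_low33 {w : V} (h : G.Low w) :
    G.val33 F w = 4 * (G.d w F : ℤ) + 2 * (G.d w (G.N F) : ℤ) - 4 := by
  unfold val33
  rw [if_pos h]

theorem val_tw33 {w : V} (h : G.IsTw w) :
    G.val33 F w = 2 * (G.d w F : ℤ) + (G.d w (G.N F) : ℤ) - 7 := by
  unfold val33
  rw [if_neg (not_low33 h), if_pos h]

theorem val_hub33 {w : V} (h : ¬ G.Low w) (h' : ¬ G.IsTw w) : G.val33 F w = 0 := by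
  unfold val33
  rw [if_neg h, if_neg h']

theorem P4_val33 (hP : G.StP4) (hF : G.Frag F) :
    G.P4 F = 16 * (G.l F : ℤ) - 4 * (F.card : ℤ) - 12 + ∑ w ∈ G.N F, G.val33 F w := by
  classical
  rw [hP F hF, add_assoc]
  congr 1
  rw [sum_filter, sum_filter, ← sum_add_distrib]
  refine sum_congr rfl fun w _ => ?_
  by_cases h : G.Low w
  · rw [if_pos h, if_neg (not_tw33 h), val_low33 h, add_zero]
  · rw [if_neg h, zero_add]
    by_cases h' : G.IsTw w
    · rw [if_pos h', val_tw33 h']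
    · rw [if_neg h', val_hub33 h h']

theorem l_one33 {x : V} (hx : x ∈ F) (h : G.Low x) : 1 ≤ G.l F := by
  unfold l
  rw [Nat.succ_le_iff, Finset.card_pos]
  exact ⟨x, mem_filter.2 ⟨hx, h⟩⟩

theorem l_two33 {x y : V} (hx : x ∈ F) (h : G.Low x) (hy : y ∈ F) (h' : G.Low y) (hne : x ≠ y) :
    2 ≤ G.l F := by
  unfold l
  exact two_le5 (mem_filter.2 ⟨hx, h⟩) (mem_filter.2 ⟨hy, h'⟩) hne

theorem l_uniq33 (hl : G.l F ≤ 1) {x y : V} (hx : x ∈ F) (h : G.Low x) (hy : y ∈ F)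
    (h' : G.Low y) : x = y := by
  by_contra hne
  have := l_two33 hx h hy h' hne
  omega

theorem l_zero33 (hl : G.l F = 0) {x : V} (hx : x ∈ F) : ¬ G.Low x := by
  intro h
  have := l_one33 hx h
  omega

theorem l_ex33 (hl : G.l F ≠ 0) : ∃ x ∈ F, G.Low x := by
  by_contra h
  push Not at h
  apply hl
  unfold l
  rw [Finset.card_eq_zero, filter_eq_empty_iff]
  exact fun x hx => h x hx

/-- a low vertex `l` and twins `q q'` in `N F` with only three neighbours in `F` -/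
structure Sit33 (G : CG V) (F : Finset V) (l q q' : V) (X TT : Finset V) : Prop where
  lT : l ∈ G.N F
  qT : q ∈ G.N F
  low : G.Low l
  tw : G.Tw q q'
  ql : l ∈ G.nb q
  XF : X ⊆ F
  X3 : X.card = 3
  qX : ∀ x ∈ F, x ∈ G.nb q ↔ x ∈ X
  lX : ∀ x ∈ F, x ∈ G.nb l → x ∈ X
  frag : G.Frag (F \ X)
  NE : G.N (F \ X) = TT ∪ X
  TTe : TT = G.N F \ {l, q, q'}

theorem sit33 (c : Lf33 G F) {l q : V} (hl : l ∈ G.N F) (hq : q ∈ G.N F) (hlow : G.Low l)
    (hlq : q ∈ G.nb l) (htw : G.IsTw q) (h : ((G.nb l ∪ G.nb q) ∩ F).card ≤ 3)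
    (h3 : 3 ≤ G.d q F) : ∃ q' X TT, Sit33 G F l q q' X TT := by
  obtain ⟨q', hqq⟩ := htw
  have hq' := c.twT hq hqq
  have hZ : ({l, q, q'} : Finset V) ⊆ G.N F := by
    intro x hx
    simp only [mem_insert, mem_singleton] at hx
    rcases hx with rfl | rfl | rfl <;> assumption
  have hZ3 : ({l, q, q'} : Finset V).card = 3 := by
    rw [card_eq_three]
    refine ⟨l, q, q', ne_of_nb5 hlq, ?_, hqq.ne33, rfl⟩
    rintro rfl
    exact not_tw33 hlow ⟨q, hqq.sym33⟩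
  have hN : G.N {l, q, q'} ∩ F = (G.nb l ∪ G.nb q) ∩ F := by
    ext x
    rw [mem_inter, mem_inter]
    constructor
    · rintro ⟨h1, h2⟩
      rw [c.NZ hZ h2] at h1
      obtain ⟨u, hu, h4⟩ := h1
      simp only [mem_insert, mem_singleton] at hu
      refine ⟨?_, h2⟩
      rw [mem_union]
      rcases hu with rfl | rfl | rfl
      · exact Or.inl h4
      · exact Or.inr h4
      · exact Or.inr (hqq.sym33.nb33 h4 (fun e => c.ndisj h2 (e ▸ hq)))
    · rintro ⟨h1, h2⟩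
      refine ⟨(c.NZ hZ h2).2 ?_, h2⟩
      rcases mem_union.1 h1 with h1 | h1
      · exact ⟨l, by simp, h1⟩
      · exact ⟨q, by simp, h1⟩
  have h4 := c.leaf.four
  rcases c.st.exp F c.leaf _ ⟨l, by simp⟩ hZ with h5 | h5 | ⟨h5, h6, -, h7⟩
  · exfalso
    rw [← hN, inter_eq_right.2 h5] at h
    omega
  · exfalso
    rw [hN, hZ3] at h5
    omega
  · rw [hN, hZ3] at h5
    have hX : G.nb q ∩ F = (G.nb l ∪ G.nb q) ∩ F := by
      apply eq_of_subset_of_card_le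
      · exact inter_subset_inter_right subset_union_right
      · rw [h5]; exact h3
    have hsd : F \ G.N {l, q, q'} = F \ (G.nb q ∩ F) := by
      rw [hX, ← hN]
      ext x
      simp only [mem_sdiff, mem_inter]
      tauto
    refine ⟨q', G.nb q ∩ F, G.N F \ {l, q, q'}, hl, hq, hlow, hqq, G.sym _ _ hlq,
      inter_subset_right, by rw [hX, h5], ?_, ?_, ?_, ?_, rfl⟩
    · intro x hx
      rw [mem_inter]
      exact ⟨fun h8 => ⟨h8, hx⟩, fun h8 => h8.1⟩
    · intro x hx h8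
      rw [hX, mem_inter, mem_union]
      exact ⟨Or.inl h8, hx⟩
    · rw [← hsd]; exact h6
    · rw [← hsd, h7, hN, ← hX]

namespace Sit33

variable {l q q' : V} {X TT : Finset V}

theorem qT' (s : Sit33 G F l q q' X TT) (c : Lf33 G F) : q' ∈ G.N F := c.twT s.qT s.tw

theorem lne (s : Sit33 G F l q q' X TT) : l ≠ q := (ne_of_nb5 s.ql).symm

theorem lne' (s : Sit33 G F l q q' X TT) : l ≠ q' := by
  intro e
  exact not_tw33 s.low ⟨q, e ▸ s.tw.sym33⟩

theorem ql' (s : Sit33 G F l q q' X TT) : l ∈ G.nb q' := s.tw.nb33 s.ql s.lne'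

theorem Z3 (s : Sit33 G F l q q' X TT) : ({l, q, q'} : Finset V).card = 3 :=
  card_eq_three.2 ⟨l, q, q', s.lne, s.lne', s.tw.ne33, rfl⟩

theorem ZT (s : Sit33 G F l q q' X TT) (c : Lf33 G F) : ({l, q, q'} : Finset V) ⊆ G.N F := by
  intro x hx
  simp only [mem_insert, mem_singleton] at hx
  rcases hx with rfl | rfl | rfl
  · exact s.lT
  · exact s.qT
  · exact s.qT' c

theorem memT (s : Sit33 G F l q q' X TT) (c : Lf33 G F) {w : V} :
    w ∈ G.N F ↔ w = l ∨ w = q ∨ w = q' ∨ w ∈ TT := by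
  rw [s.TTe, mem_sdiff]
  simp only [mem_insert, mem_singleton, not_or]
  constructor
  · intro h
    by_cases h1 : w = l
    · exact Or.inl h1
    · by_cases h2 : w = q
      · exact Or.inr (Or.inl h2)
      · by_cases h3 : w = q'
        · exact Or.inr (Or.inr (Or.inl h3))
        · exact Or.inr (Or.inr (Or.inr ⟨h, h1, h2, h3⟩))
  · rintro (h | h | h | h)
    · rw [h]; exact s.lT
    · rw [h]; exact s.qT
    · rw [h]; exact s.qT' c
    · exact h.1

theorem TTT (s : Sit33 G F l q q' X TT) {w : V} (hw : w ∈ TT) : w ∈ G.N F := by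
  rw [s.TTe, mem_sdiff] at hw
  exact hw.1

theorem TTne (s : Sit33 G F l q q' X TT) {w : V} (hw : w ∈ TT) : w ≠ l ∧ w ≠ q ∧ w ≠ q' := by
  rw [s.TTe, mem_sdiff] at hw
  simpa [not_or] using hw.2

theorem TT3 (s : Sit33 G F l q q' X TT) (c : Lf33 G F) : TT.card = 3 := by
  rw [s.TTe, card_sdiff_of_subset (s.ZT c), c.cardT, s.Z3]

theorem qX' (s : Sit33 G F l q q' X TT) (c : Lf33 G F) {x : V} (hx : x ∈ F) :
    x ∈ G.nb q' ↔ x ∈ X := by
  rw [← s.qX x hx]
  constructor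
  · exact fun h => s.tw.sym33.nb33 h (fun e => c.ndisj hx (e ▸ s.qT))
  · exact fun h => s.tw.nb33 h (fun e => c.ndisj hx (e ▸ s.qT' c))

theorem dqF (s : Sit33 G F l q q' X TT) : G.d q F = 3 := by
  rw [← s.X3]
  unfold d
  congr 1
  ext x
  rw [mem_inter]
  constructor
  · exact fun h => (s.qX x h.2).1 h.1
  · exact fun h => ⟨(s.qX x (s.XF h)).2 h, s.XF h⟩

theorem dqF' (s : Sit33 G F l q q' X TT) (c : Lf33 G F) : G.d q' F = 3 := by
  rw [← s.X3]
  unfold d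
  congr 1
  ext x
  rw [mem_inter]
  constructor
  · exact fun h => (s.qX' c h.2).1 h.1
  · exact fun h => ⟨(s.qX' c (s.XF h)).2 h, s.XF h⟩

theorem dqT (s : Sit33 G F l q q' X TT) (c : Lf33 G F) : G.d q (G.N F) = 2 := by
  have h1 := c.vis s.qT (Or.inr ⟨_, s.tw⟩)
  have h2 := s.dqF
  have h3 : 2 ≤ G.d q (G.N F) := d_two33 s.lT s.ql (s.qT' c) s.tw.1 s.lne'
  omega

theorem dqT' (s : Sit33 G F l q q' X TT) (c : Lf33 G F) : G.d q' (G.N F) = 2 := by
  have h1 := c.vis (s.qT' c) (Or.inr ⟨_, s.tw.sym33⟩)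
  have h2 := s.dqF' c
  have h3 : 2 ≤ G.d q' (G.N F) := d_two33 s.lT s.ql' s.qT s.tw.sym33.1 s.lne
  omega

theorem dTsplit (s : Sit33 G F l q q' X TT) (c : Lf33 G F) (x : V) :
    G.d x (G.N F) = G.d x {l, q, q'} + G.d x TT := by
  rw [s.TTe, ← d_union33 x disjoint_sdiff, union_sdiff_of_subset (s.ZT c)]

theorem dFsplit (s : Sit33 G F l q q' X TT) (x : V) :
    G.d x F = G.d x X + G.d x (F \ X) := by
  rw [← d_union33 x disjoint_sdiff, union_sdiff_of_subset s.XF]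

theorem qTT (s : Sit33 G F l q q' X TT) (c : Lf33 G F) {w : V} (hw : w ∈ TT) : w ∉ G.nb q := by
  have h1 := s.dqT c
  rw [s.dTsplit c] at h1
  have h2 : 2 ≤ G.d q {l, q, q'} := d_two33 (by simp) s.ql (by simp) s.tw.1 s.lne'
  have h3 : G.d q TT = 0 := by omega
  exact of_zero33 h3 hw

/-- neighbours of `q` -/
theorem nbq (s : Sit33 G F l q q' X TT) (c : Lf33 G F) {w : V} (h : w ∈ G.nb q)
    (hw : w ∈ F ∨ w ∈ G.N F) : w = l ∨ w = q' ∨ w ∈ X := by
  rcases hw with hw | hw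
  · exact Or.inr (Or.inr ((s.qX w hw).1 h))
  · rcases (s.memT c).1 hw with h1 | h1 | h1 | h1
    · exact Or.inl h1
    · exact absurd h (h1 ▸ G.irr _)
    · exact Or.inr (Or.inl h1)
    · exact absurd h (s.qTT c h1)

theorem valZ (s : Sit33 G F l q q' X TT) (c : Lf33 G F) :
    ∑ w ∈ G.N F, G.val33 F w = 2 + (4 * (G.d l F : ℤ) + 2 * (G.d l (G.N F) : ℤ) - 4) +
      ∑ w ∈ TT, G.val33 F w := by
  rw [s.TTe, ← sum_sdiff (s.ZT c), add_comm]
  congr 1
  rw [sum_insert, sum_insert, sum_singleton, val_low33 s.low, val_tw33 ⟨_, s.tw⟩,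
    val_tw33 ⟨_, s.tw.sym33⟩, s.dqF, s.dqT c, s.dqF' c, s.dqT' c]
  · push_cast
    ring
  · rw [mem_singleton]; exact s.tw.ne33
  · rw [mem_insert, mem_singleton, not_or]; exact ⟨s.lne, s.lne'⟩

theorem dlT (s : Sit33 G F l q q' X TT) (c : Lf33 G F) : 2 ≤ G.d l (G.N F) :=
  d_two33 s.qT (G.sym _ _ s.ql) (s.qT' c) (G.sym _ _ s.ql') s.tw.ne33

theorem dlZ (s : Sit33 G F l q q' X TT) : 2 ≤ G.d l {l, q, q'} :=
  d_two33 (by simp) (G.sym _ _ s.ql) (by simp) (G.sym _ _ s.ql') s.tw.ne33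

/-- neighbours of a vertex of `X` among the three vertices -/
theorem dxZ (s : Sit33 G F l q q' X TT) (c : Lf33 G F) {x : V} (hx : x ∈ X) :
    2 ≤ G.d x {l, q, q'} :=
  d_two33 (by simp) (G.sym _ _ ((s.qX x (s.XF hx)).2 hx)) (by simp)
    (G.sym _ _ ((s.qX' c (s.XF hx)).2 hx)) s.tw.ne33

theorem dxZ3 (s : Sit33 G F l q q' X TT) (c : Lf33 G F) {x : V} (hx : x ∈ X) (h : x ∈ G.nb l) :
    3 ≤ G.d x {l, q, q'} :=
  d_three33 (by simp) (G.sym _ _ h) (by simp) (G.sym _ _ ((s.qX x (s.XF hx)).2 hx)) (by simp)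
    (G.sym _ _ ((s.qX' c (s.XF hx)).2 hx)) s.lne s.lne' s.tw.ne33

/-- degree of a vertex of `F` -/
theorem deg (s : Sit33 G F l q q' X TT) (c : Lf33 G F) {x : V} (hx : x ∈ F) :
    G.d x X + G.d x (F \ X) + G.d x {l, q, q'} + G.d x TT = (G.nb x).card := by
  have h1 := c.dF hx
  have h2 := s.dFsplit x
  have h3 := s.dTsplit c x
  omega

/-- `{l, q, q'}` has no neighbour in `F \ X` -/
theorem zE (s : Sit33 G F l q q' X TT) (c : Lf33 G F) {x : V} (hx : x ∈ F \ X) :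
    l ∉ G.nb x ∧ q ∉ G.nb x ∧ q' ∉ G.nb x := by
  rw [mem_sdiff] at hx
  refine ⟨fun h => hx.2 (s.lX x hx.1 (G.sym _ _ h)), fun h => hx.2 ?_, fun h => hx.2 ?_⟩
  · exact (s.qX x hx.1).1 (G.sym _ _ h)
  · exact (s.qX' c hx.1).1 (G.sym _ _ h)

theorem dlF (s : Sit33 G F l q q' X TT) (_ : Lf33 G F) : G.d l F = G.d l X := by
  rw [s.dFsplit l]
  have : G.d l (F \ X) = 0 := d_zero33 fun x hx h => by
    rw [mem_sdiff] at hx
    exact hx.2 (s.lX x hx.1 h)
  omega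

/-- either all of `X` is adjacent to `l`, or all but one vertex -/
theorem cases (s : Sit33 G F l q q' X TT) (c : Lf33 G F) :
    ((∀ x ∈ X, x ∈ G.nb l) ∧ G.d l F = 3 ∧ G.d l (G.N F) = 2) ∨
    (∃ x3 ∈ X, x3 ∉ G.nb l ∧ (∀ x ∈ X, x ≠ x3 → x ∈ G.nb l) ∧ G.d l F = 2) := by
  have h1 := c.exp1 s.lT
  have h2 := s.dlF c
  have h3 : G.d l X ≤ 3 := by rw [← s.X3]; exact d_le33 _ _
  have h4 := c.vis s.lT (Or.inl s.low)
  have h5 := s.dlT c
  have h6 : (X \ G.nb l).card + G.d l X = 3 := by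
    rw [← s.X3]
    unfold d
    rw [inter_comm, card_sdiff_add_card_inter]
  rcases Nat.lt_or_ge (G.d l X) 3 with h7 | h7
  · right
    have h8 : (X \ G.nb l).card = 1 := by omega
    obtain ⟨x3, hx3⟩ := card_eq_one.1 h8
    have h9 : x3 ∈ X \ G.nb l := by rw [hx3]; exact mem_singleton_self _
    rw [mem_sdiff] at h9
    refine ⟨x3, h9.1, h9.2, ?_, by omega⟩
    intro x hx hne
    by_contra h
    have : x ∈ X \ G.nb l := mem_sdiff.2 ⟨hx, h⟩
    rw [hx3, mem_singleton] at this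
    exact hne this
  · left
    refine ⟨?_, by omega, by omega⟩
    intro x hx
    by_contra h
    have : x ∈ X \ G.nb l := mem_sdiff.2 ⟨hx, h⟩
    have := card_pos.2 ⟨x, this⟩
    omega

/-- a twin of a vertex of `X` whose complement in `F` has no twin of it -/
theorem E_NE (s : Sit33 G F l q q' X TT) {w : V} : w ∈ G.N (F \ X) ↔ w ∈ TT ∨ w ∈ X := by
  rw [s.NE, mem_union]

end Sit33

end CG

end Pool.Agent.Lib.MP_e95c01_co.N
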