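import Pool.Agent.Lib.MP_e95c01_co.U.StCap26

/-!
# U11: tools for the payments and the type (2,0)
-/

namespace Pool.Agent.Lib.MP_e95c01_co.N

open Finset

variable {V : Type} [Fintype V] [DecidableEq V]

namespace CG

namespace Cap26

variable {G : CG V} {Fa : Finset (Finset V)} {v v' : V}

theorem in_Co {y : V} {B : Finset V} (hy : y ∈ R Fa) (hB : B ∈ Fa) (h : B ∉ G.I Fa y) :
    y ∈ G.Co B :=
  mem_Co76.2 ⟨mem_R76.1 hy B hB, fun h2 => h (mem_I76.2 ⟨hB, h2⟩)⟩

namespace Ctx

/-- a hub in some neighbourhood pays -/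
theorem qual_of (_c : Ctx G Fa v v') (hv : G.Needy Fa v) {x : V} (hx : G.Hub x)
    (hxv : x ∈ G.nb v) (hI : G.I Fa x ≠ ∅) : G.Qual Fa x v :=
  ⟨hv, hx, hxv, Or.inl hI⟩

/-- a low vertex with three neighbours in `S` -/
theorem lowB (c : Ctx G Fa v v') (hv : G.Needy Fa v) {l : V} (hl : G.Low l)
    (hlv : l ∈ G.nb v) (h4 : 4 ≤ (G.nb l ∩ G.nb v).card) :
    G.PL Fa l v ∧ ∃ B, G.I Fa l = {B} ∧
      ∀ Y : Finset V, Y ⊆ G.nb l ∩ G.nb v → v' ∉ Y → (∀ y ∈ Y, B ∉ G.I Fa y) →
        2 + Y.card ≤ G.d l (G.Co B) := by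
  have hlR := nbR c.vR c.vI hlv
  have hne : G.I Fa l ≠ ∅ := by
    intro h0
    have := c.e.e4 l hlR v c.vR h0 c.vI hl ⟨v', c.tw⟩ hlv
    omega
  refine ⟨⟨hv, hl, hlv, hne, by omega⟩, ?_⟩
  obtain ⟨B, hB⟩ := nonempty_iff_ne_empty.2 hne
  have hone : G.I Fa l = {B} := by
    apply eq_singleton_iff_unique_mem.2
    refine ⟨hB, fun B' hB' => ?_⟩
    by_contra hBB
    obtain ⟨h, h1, h2, h3⟩ := hidden hB
    obtain ⟨k, k1, k2, k3⟩ := hidden hB'
    have hhk : h ≠ k := by
      rintro rfl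
      have := (c.t.reg.dis B' (mem_I76.1 hB').1 B (mem_I76.1 hB).1 hBB).1
      exact disjoint_left.1 this k2 h2
    have h5 : Disjoint (G.nb l ∩ G.nb v) {v, h, k} := by
      rw [disjoint_left]
      intro y hy hy'
      rw [mem_inter] at hy
      simp only [mem_insert, mem_singleton] at hy'
      rcases hy' with rfl | rfl | rfl
      · exact G.irr _ hy.2
      · exact h3 (nbR c.vR c.vI hy.2)
      · exact k3 (nbR c.vR c.vI hy.2)
    have h6 : (G.nb l ∩ G.nb v) ∪ {v, h, k} ⊆ G.nb l := by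
      intro y hy
      rw [mem_union, mem_inter] at hy
      simp only [mem_insert, mem_singleton] at hy
      rcases hy with hy | rfl | rfl | rfl
      · exact hy.1
      · exact G.sym _ _ hlv
      · exact h1
      · exact k1
    have h7 := card_le_card h6
    rw [card_union_of_disjoint h5, card_eq_three.2 ⟨v, h, k, ?_, ?_, hhk, rfl⟩] at h7
    · have h8 : (G.nb l).card = 6 := hl
      omega
    · rintro rfl
      exact h3 c.vR
    · rintro rfl
      exact k3 c.vR
  refine ⟨B, hone, fun Y hY hvY hYB => ?_⟩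
  have hBF := (mem_I76.1 hB).1
  have hvCo : v ∈ G.Co B := in_Co c.vR hBF (by rw [c.vI]; exact notMem_empty _)
  have hv'R : v' ∈ R Fa := nbR c.vR c.vI c.mem'
  have hv'Co : v' ∈ G.Co B := by
    refine in_Co hv'R hBF ?_
    rw [(c.h7.twI Fa c.t.reg v c.vR v' c.tw).2, c.vI]
    exact notMem_empty _
  have hvY' : v ∉ Y := fun h => G.irr _ (mem_inter.1 (hY h)).2
  have hlv' : l ≠ v' := by
    rintro rfl
    exact tw_low (c.h7.symm _ _ c.tw) hl
  have h5 : insert v (insert v' Y) ⊆ G.nb l ∩ G.Co B := by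
    intro y hy
    rw [mem_insert, mem_insert] at hy
    rw [mem_inter]
    rcases hy with rfl | rfl | hy
    · exact ⟨G.sym _ _ hlv, hvCo⟩
    · exact ⟨c.adj' hlv hlv', hv'Co⟩
    · have := mem_inter.1 (hY hy)
      exact ⟨this.1, in_Co (nbR c.vR c.vI this.2) hBF (hYB y hy)⟩
  have h6 := card_le_card h5
  rw [card_insert_of_notMem, card_insert_of_notMem hvY] at h6
  · unfold d
    omega
  · rw [mem_insert, not_or]
    exact ⟨(nb_ne c.mem').symm, hvY'⟩

theorem PL_R (_c : Ctx G Fa v v') {l : V} (h : G.PL Fa l v) : l ∈ R Fa ∧ G.Low l :=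
  ⟨nbR h.1.1 h.1.2.2.1 h.2.2.1, h.2.1⟩

open Classical in
theorem sum1 (c : Ctx G Fa v v') (h0 : ∀ z ∈ R Fa, G.Low z → 0 ≤ G.ch4 Fa z) (S : Finset V)
    (hS : ∀ l ∈ S, G.PL Fa l v) :
    ∑ l ∈ S, G.ch4 Fa l ≤ ∑ l ∈ univ.filter (fun l => G.PL Fa l v), G.ch4 Fa l := by
  apply sum_le_sum_of_subset_of_nonneg
  · intro l hl
    exact mem_filter.2 ⟨mem_univ _, hS l hl⟩
  · intro l hl _
    obtain ⟨h1, h2⟩ := c.PL_R (mem_filter.1 hl).2
    exact h0 l h1 h2

open Classical in
/-- the charge of a low vertex in one neighbourhood -/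
theorem ch_low (c : Ctx G Fa v v') (h6 : G.StCh4) {l : V} (hl : G.Low l) (hlR : l ∈ R Fa)
    {B : Finset V} (hB : G.I Fa l = {B}) : G.ch4 Fa l =
      2 * ((G.d l (G.Co B) : ℤ) + (G.tl Fa l : ℤ) + (G.tA Fa l : ℤ) - 3) :=
  ((h6 c.t.n9 Fa c.t.reg l hlR).1 hl).2.1 B hB

open Classical in
theorem tl_pos (_c : Ctx G Fa v v') {z w : V} (hw : w ∈ G.nb z) (hwR : w ∈ R Fa) (hl : G.Low w) :
    1 ≤ G.tl Fa z := by
  unfold tl
  rw [Nat.one_le_iff_ne_zero, ← Nat.pos_iff_ne_zero, card_pos]
  exact ⟨w, mem_filter.2 ⟨mem_nR76.2 ⟨hw, hwR⟩, hl⟩⟩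

open Classical in
theorem tA_pos (_c : Ctx G Fa v v') {z a b : V} (ha : a ∈ G.nb z) (haR : a ∈ R Fa)
    (h : G.HL a b z) : 1 ≤ G.tA Fa z := by
  unfold tA
  rw [Nat.one_le_iff_ne_zero, ← Nat.pos_iff_ne_zero, card_pos]
  exact ⟨a, mem_filter.2 ⟨mem_nR76.2 ⟨ha, haR⟩, b, h⟩⟩

/-- the vertices of `HL` -/
theorem hl_nb {a b t : V} (h : G.HL a b t) (_c : Ctx G Fa v v') :
    a ∈ G.nb t ∧ a ∈ G.nb b ∧ ¬ G.Low a := by
  obtain ⟨h1, h2, h3, h4, h5⟩ := h
  have h6 : ¬ G.Low a := by
    intro h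
    have h' : (G.nb a).card = 6 := h
    omega
  have h7 : t ≠ a := by
    rintro rfl
    exact h4 (mem_cl.2 (Or.inr (G.sym _ _ h3)))
  have h8 : t ∈ G.cl a := by
    rw [h5]
    exact mem_insert_self _ _
  exact ⟨G.sym _ _ ((mem_cl.1 h8).resolve_left h7), G.sym _ _ h3, h6⟩

open Classical in
/-- the type (2,0) -/
theorem ty20 (c : Ctx G Fa v v') (hv : G.Needy Fa v) (h6 : G.StCh4)
    (h0 : ∀ z ∈ R Fa, G.Low z → 0 ≤ G.ch4 Fa z) (h2 : G.tl Fa v = 2)
    (hno : ∀ x ∈ G.nb v, x ≠ v' → ¬ G.IsTw x) :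
    - (2 * G.ch4 Fa v) ≤ 2 * ((univ.filter fun x => G.Qual Fa x v).card : ℤ) +
      ∑ l ∈ univ.filter (fun l => G.PL Fa l v), G.ch4 Fa l := by
  have htt : G.tt Fa v = 0 := by
    unfold tt
    rw [card_eq_zero, filter_eq_empty_iff, c.nR_eq]
    rintro x hx ⟨h3, h4⟩
    refine hno x hx ?_ h3
    rintro rfl
    exact h4 c.tw
  have hch : G.ch4 Fa v = -4 := by
    rw [((h6 c.t.n9 Fa c.t.reg v c.vR).2.1 ⟨v', c.tw⟩).1 c.vI, h2, htt]
    norm_num
  -- the two low vertices
  obtain ⟨l1, hl1, h1v⟩ : ∃ l, G.Low l ∧ l ∈ G.nb v := by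
    have h3 : 0 < G.tl Fa v := by omega
    unfold tl at h3
    rw [c.nR_eq, card_pos] at h3
    obtain ⟨l, hl⟩ := h3
    rw [mem_filter] at hl
    exact ⟨l, hl.2, hl.1⟩
  obtain ⟨l2, h21, hl2, h2v, hall⟩ := c.lows h2 hl1 h1v
  have tv' := c.h7.symm _ _ c.tw
  have l1v' : l1 ≠ v' := by
    rintro rfl
    exact tw_low tv' hl1
  have l2v' : l2 ≠ v' := by
    rintro rfl
    exact tw_low tv' hl2
  have l1R := nbR c.vR c.vI h1v
  have l2R := nbR c.vR c.vI h2v
  set H : Finset V := G.nb v \ {v', l1, l2} with hH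
  have hHc : H.card = 4 := by
    have h3 : ({v', l1, l2} : Finset V) ⊆ G.nb v := by
      intro y hy
      simp only [mem_insert, mem_singleton] at hy
      rcases hy with rfl | rfl | rfl
      exacts [c.mem', h1v, h2v]
    rw [hH, card_sdiff_of_subset h3, c.card_nb,
      card_eq_three.2 ⟨v', l1, l2, l1v'.symm, l2v'.symm, h21.symm, rfl⟩]
  have memH : ∀ x, x ∈ H ↔ x ∈ G.nb v ∧ x ≠ v' ∧ x ≠ l1 ∧ x ≠ l2 := by
    intro x
    rw [hH, mem_sdiff]
    simp only [mem_insert, mem_singleton, not_or]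
  have hub : ∀ x ∈ H, G.Hub x := by
    intro x hx
    obtain ⟨g1, g2, g3, g4⟩ := (memH x).1 hx
    refine ⟨fun h => ?_, hno x g1 g2⟩
    rcases hall x h g1 with h5 | h5
    · exact g3 h5
    · exact g4 h5
  have hdomH : H ⊆ (H ∩ G.nb l1) ∪ (H ∩ G.nb l2) := by
    intro x hx
    rw [mem_union, mem_inter, mem_inter]
    obtain ⟨g1, g2, g3, g4⟩ := (memH x).1 hx
    rcases c.dom g1 g2 with h | h | h
    · obtain ⟨w, e1, e2, e3⟩ := h
      rcases hall w e1 e2 with h5 | h5
      · exact Or.inl ⟨hx, h5 ▸ e3⟩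
      · exact Or.inr ⟨hx, h5 ▸ e3⟩
    · obtain ⟨a, b, e1, e2, -, e4, -⟩ := h
      exact absurd ⟨b, e1⟩ (hno a e2 e4)
    · exact absurd h.1 (hub x hx).1
  have hf1 := c.f1 hl1 h1v
  have hf2 := c.f1 hl2 h2v
  have hcard := card_le_card hdomH
  have hui := card_union_add_card_inter (H ∩ G.nb l1) (H ∩ G.nb l2)
  by_cases hadj : l2 ∈ G.nb l1
  · -- adjacent low vertices
    have hadj' := G.sym _ _ hadj
    have bd : ∀ l m : V, l ∈ G.nb v → m ∈ G.nb v → l ≠ v' → m ≠ v' → m ∈ G.nb l → m ∉ H →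
        (H ∩ G.nb l).card + 2 ≤ (G.nb l ∩ G.nb v).card := by
      intro l m g1 g2 g3 g4 g5 g6
      have h3 : Disjoint (H ∩ G.nb l) {v', m} := by
        rw [disjoint_left]
        intro y hy hy'
        rw [mem_inter] at hy
        rw [mem_insert, mem_singleton] at hy'
        rcases hy' with rfl | rfl
        · exact ((memH _).1 hy.1).2.1 rfl
        · exact g6 hy.1
      have h4 : (H ∩ G.nb l) ∪ {v', m} ⊆ G.nb l ∩ G.nb v := by
        intro y hy
        rw [mem_union, mem_inter, mem_insert, mem_singleton] at hy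
        rw [mem_inter]
        rcases hy with hy | rfl | rfl
        · exact ⟨hy.2, ((memH y).1 hy.1).1⟩
        · exact ⟨c.adj' g1 g3, c.mem'⟩
        · exact ⟨g5, g2⟩
      have h5 := card_le_card h4
      rwa [card_union_of_disjoint h3, card_pair g4.symm] at h5
    have b1 := bd l1 l2 h1v h2v l1v' l2v' hadj (fun h => ((memH _).1 h).2.2.2 rfl)
    have b2 := bd l2 l1 h2v h1v l2v' l1v' hadj' (fun h => ((memH _).1 h).2.2.1 rfl)
    have d1 : (H ∩ G.nb l1).card = 2 := by omega
    have d2 : (H ∩ G.nb l2).card = 2 := by omega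
    have d3 : ((H ∩ G.nb l1) ∩ (H ∩ G.nb l2)).card = 0 := by omega
    obtain ⟨p1, B1, i1, y1⟩ := c.lowB hv hl1 h1v (by omega)
    obtain ⟨p2, B2, i2, y2⟩ := c.lowB hv hl2 h2v (by omega)
    have e1 := c.ch_low h6 hl1 l1R i1
    have e2 := c.ch_low h6 hl2 l2R i2
    have t1 := c.tl_pos hadj l2R hl2
    have t2 := c.tl_pos hadj' l1R hl1
    have z1 := y1 ((H ∩ G.nb l1).filter fun x => G.I Fa x = ∅) (by
        intro y hy
        rw [mem_filter, mem_inter] at hy
        exact mem_inter.2 ⟨hy.1.2, ((memH y).1 hy.1.1).1⟩) (by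
        intro h
        rw [mem_filter, mem_inter] at h
        exact ((memH _).1 h.1.1).2.1 rfl) (by
        intro y hy
        rw [(mem_filter.1 hy).2]
        exact notMem_empty _)
    have z2 := y2 ((H ∩ G.nb l2).filter fun x => G.I Fa x = ∅) (by
        intro y hy
        rw [mem_filter, mem_inter] at hy
        exact mem_inter.2 ⟨hy.1.2, ((memH y).1 hy.1.1).1⟩) (by
        intro h
        rw [mem_filter, mem_inter] at h
        exact ((memH _).1 h.1.1).2.1 rfl) (by
        intro y hy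
        rw [(mem_filter.1 hy).2]
        exact notMem_empty _)
    have f1 := card_filter_add_card_filter_not (s := H ∩ G.nb l1) (fun x => G.I Fa x = ∅)
    have f2 := card_filter_add_card_filter_not (s := H ∩ G.nb l2) (fun x => G.I Fa x = ∅)
    have g1 : ((H ∩ G.nb l1).filter fun x => ¬ G.I Fa x = ∅).card +
        ((H ∩ G.nb l2).filter fun x => ¬ G.I Fa x = ∅).card ≤
        (univ.filter fun x => G.Qual Fa x v).card := by
      rw [← card_union_of_disjoint]
      · apply card_le_card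
        intro y hy
        rw [mem_union, mem_filter, mem_filter, mem_inter, mem_inter] at hy
        rw [mem_filter]
        refine ⟨mem_univ _, ?_⟩
        rcases hy with hy | hy
        · exact c.qual_of hv (hub y hy.1.1) ((memH y).1 hy.1.1).1 hy.2
        · exact c.qual_of hv (hub y hy.1.1) ((memH y).1 hy.1.1).1 hy.2
      · rw [card_eq_zero] at d3
        rw [disjoint_left]
        intro y hy hy'
        have : y ∈ (H ∩ G.nb l1) ∩ (H ∩ G.nb l2) :=
          mem_inter.2 ⟨(mem_filter.1 hy).1, (mem_filter.1 hy').1⟩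
        rw [d3] at this
        exact absurd this (notMem_empty _)
    have g2 := c.sum1 h0 {l1, l2} (by
      intro l hl
      rw [mem_insert, mem_singleton] at hl
      rcases hl with rfl | rfl
      exacts [p1, p2])
    rw [sum_pair h21.symm] at g2
    rw [hch]
    omega
  · -- non-adjacent low vertices
    have hadj' : l1 ∉ G.nb l2 := fun h => hadj (G.sym _ _ h)
    have hHL : ∀ l m : V, G.Low l → l ∈ G.nb v → l ≠ v' → l ∉ G.nb m →
        (∀ w, G.Low w → w ∈ G.nb v → w = l ∨ w = m) → ∃ a ∈ G.nb v, G.HL a m l := by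
      intro l m g1 g2 g3 g4 g5
      rcases c.dom g2 g3 with h | h | h
      · obtain ⟨w, e1, e2, e3⟩ := h
        rcases g5 w e1 e2 with h5 | h5
        · rw [h5] at e3
          exact absurd e3 (G.irr _)
        · rw [h5] at e3
          exact absurd e3 g4
      · obtain ⟨a, b, e1, e2, -, e4, -⟩ := h
        exact absurd ⟨b, e1⟩ (hno a e2 e4)
      · obtain ⟨-, a, b, e1, e2, e3, e4⟩ := h
        rcases g5 b e3 e2 with h5 | h5
        · rw [h5] at e4
          exact absurd (mem_cl.2 (Or.inl rfl)) e4.2.2.2.1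
        · rw [h5] at e4
          exact ⟨a, e1, e4⟩
    obtain ⟨a, av, ha⟩ := hHL l1 l2 hl1 h1v l1v' hadj' hall
    obtain ⟨a', av', ha'⟩ := hHL l2 l1 hl2 h2v l2v' hadj (fun w g g' => (hall w g g').symm)
    have haa : a ≠ a' := by
      rintro rfl
      exact c.h7.nomut c.t.n9 _ _ _ _ _ ha ha' rfl
    obtain ⟨a1, a2, a3⟩ := hl_nb ha c
    obtain ⟨a4, a5, a6⟩ := hl_nb ha' c
    have ntw : ∀ {a b t : V}, G.HL a b t → a ≠ v' := by
      rintro a b t h rfl
      exact c.h7.notHL c.t.n9 _ _ _ h ⟨v, tv'⟩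
    have aH : a ∈ H := (memH a).2 ⟨av, ntw ha, fun h => a3 (h ▸ hl1), fun h => a3 (h ▸ hl2)⟩
    have aH' : a' ∈ H := (memH a').2 ⟨av', ntw ha', fun h => a6 (h ▸ hl1), fun h => a6 (h ▸ hl2)⟩
    have bd : ∀ l : V, l ∈ G.nb v → l ≠ v' →
        (H ∩ G.nb l).card + 1 ≤ (G.nb l ∩ G.nb v).card := by
      intro l g1 g3
      have h3 : v' ∉ H ∩ G.nb l := by
        rw [mem_inter]
        exact fun h => ((memH _).1 h.1).2.1 rfl
      have h4 : insert v' (H ∩ G.nb l) ⊆ G.nb l ∩ G.nb v := by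
        intro y hy
        rw [mem_insert, mem_inter] at hy
        rw [mem_inter]
        rcases hy with rfl | hy
        · exact ⟨c.adj' g1 g3, c.mem'⟩
        · exact ⟨hy.2, ((memH y).1 hy.1).1⟩
      have h5 := card_le_card h4
      rwa [card_insert_of_notMem h3] at h5
    have b1 := bd l1 h1v l1v'
    have b2 := bd l2 h2v l2v'
    have i0 : ({a, a'} : Finset V) ⊆ (H ∩ G.nb l1) ∩ (H ∩ G.nb l2) := by
      intro y hy
      rw [mem_insert, mem_singleton] at hy
      rw [mem_inter, mem_inter, mem_inter]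
      rcases hy with rfl | rfl
      · exact ⟨⟨aH, a1⟩, aH, a2⟩
      · exact ⟨⟨aH', a5⟩, aH', a4⟩
    have i1 := card_le_card i0
    rw [card_pair haa] at i1
    have d1 : (H ∩ G.nb l1).card = 3 := by omega
    have d2 : (H ∩ G.nb l2).card = 3 := by omega
    have d3 : ((H ∩ G.nb l1) ∩ (H ∩ G.nb l2)).card ≤ 2 := by omega
    have d4 : (H ∩ G.nb l1) ∩ (H ∩ G.nb l2) = {a, a'} :=
      (eq_of_subset_of_card_le i0 (by rw [card_pair haa]; exact d3)).symm
    -- the fourth hubs
    have fourth : ∀ l : V, (H ∩ G.nb l).card = 3 → ∃ y ∈ H ∩ G.nb l, y ≠ a ∧ y ≠ a' := by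
      intro l hl
      by_contra hcon
      push Not at hcon
      have h3 : H ∩ G.nb l ⊆ {a, a'} := by
        intro y hy
        rw [mem_insert, mem_singleton]
        by_cases h : y = a
        · exact Or.inl h
        · exact Or.inr (hcon y hy h)
      have h4 := card_le_card h3
      rw [hl, card_pair haa] at h4
      omega
    obtain ⟨u1, hu1, u1a, u1a'⟩ := fourth l1 d1
    obtain ⟨u2, hu2, u2a, u2a'⟩ := fourth l2 d2
    have hu12 : u1 ≠ u2 := by
      rintro rfl
      have : u1 ∈ (H ∩ G.nb l1) ∩ (H ∩ G.nb l2) := mem_inter.2 ⟨hu1, hu2⟩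
      rw [d4, mem_insert, mem_singleton] at this
      rcases this with h | h
      · exact u1a h
      · exact u1a' h
    rw [mem_inter] at hu1 hu2
    obtain ⟨p1, B1, j1, y1⟩ := c.lowB hv hl1 h1v (by omega)
    obtain ⟨p2, B2, j2, y2⟩ := c.lowB hv hl2 h2v (by omega)
    have e1 := c.ch_low h6 hl1 l1R j1
    have e2 := c.ch_low h6 hl2 l2R j2
    have aR := nbR c.vR c.vI av
    have aR' := nbR c.vR c.vI av'
    have t1 := c.tA_pos a1 aR ha
    have t2 := c.tA_pos a4 aR' ha'
    have ia := c.h7.hlI Fa c.t.reg a aR l2 l2R l1 l1R ha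
    have ia' := c.h7.hlI Fa c.t.reg a' aR' l1 l1R l2 l2R ha'
    have qa : G.Qual Fa a v := c.qual_of hv (hub a aH) av (by
      rw [ia, j2]
      exact singleton_ne_empty _)
    have qa' : G.Qual Fa a' v := c.qual_of hv (hub a' aH') av' (by
      rw [ia', j1]
      exact singleton_ne_empty _)
    have w1 : G.I Fa u1 = ∅ → 3 ≤ G.d l1 (G.Co B1) := by
      intro h
      have := y1 {u1} (by
        rw [singleton_subset_iff, mem_inter]
        exact ⟨hu1.2, ((memH _).1 hu1.1).1⟩) (by
        rw [mem_singleton]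
        exact fun h => ((memH _).1 hu1.1).2.1 h.symm) (by
        intro y hy
        rw [mem_singleton.1 hy, h]
        exact notMem_empty _)
      rw [card_singleton] at this
      omega
    have w2 : G.I Fa u2 = ∅ → 3 ≤ G.d l2 (G.Co B2) := by
      intro h
      have := y2 {u2} (by
        rw [singleton_subset_iff, mem_inter]
        exact ⟨hu2.2, ((memH _).1 hu2.1).1⟩) (by
        rw [mem_singleton]
        exact fun h => ((memH _).1 hu2.1).2.1 h.symm) (by
        intro y hy
        rw [mem_singleton.1 hy, h]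
        exact notMem_empty _)
      rw [card_singleton] at this
      omega
    have w1' := y1 ∅ (empty_subset _) (notMem_empty _) (fun y hy => absurd hy (notMem_empty _))
    have w2' := y2 ∅ (empty_subset _) (notMem_empty _) (fun y hy => absurd hy (notMem_empty _))
    rw [card_empty] at w1' w2'
    have g2 := c.sum1 h0 {l1, l2} (by
      intro l hl
      rw [mem_insert, mem_singleton] at hl
      rcases hl with rfl | rfl
      exacts [p1, p2])
    rw [sum_pair h21.symm] at g2
    have hqq : ∀ L : List V, L.Nodup → (∀ x ∈ L, G.Qual Fa x v) →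
        L.length ≤ (univ.filter fun x => G.Qual Fa x v).card := by
      intro L hL hq
      exact len_le hL fun x hx => mem_filter.2 ⟨mem_univ _, hq x hx⟩
    have qu : ∀ u ∈ H, G.I Fa u ≠ ∅ → G.Qual Fa u v := fun u hu hI =>
      c.qual_of hv (hub u hu) ((memH u).1 hu).1 hI
    rw [hch]
    by_cases z1 : G.I Fa u1 = ∅
    · by_cases z2 : G.I Fa u2 = ∅
      · have h3 := hqq [a, a'] (by
          simp only [List.nodup_cons, List.mem_cons, List.not_mem_nil, or_false,
            List.nodup_nil, and_true, not_false_eq_true]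
          exact haa) (by
          intro x hx
          simp only [List.mem_cons, List.not_mem_nil, or_false] at hx
          rcases hx with rfl | rfl
          exacts [qa, qa'])
        have h4 := w1 z1
        have h5 := w2 z2
        simp only [List.length_cons, List.length_nil] at h3
        omega
      · have h3 := hqq [a, a', u2] (by
          simp only [List.nodup_cons, List.mem_cons, List.not_mem_nil, or_false, not_or,
            List.nodup_nil, and_true, not_false_eq_true]
          exact ⟨⟨haa, Ne.symm u2a⟩, Ne.symm u2a'⟩) (by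
          intro x hx
          simp only [List.mem_cons, List.not_mem_nil, or_false] at hx
          rcases hx with rfl | rfl | rfl
          exacts [qa, qa', qu _ hu2.1 z2])
        have h4 := w1 z1
        simp only [List.length_cons, List.length_nil] at h3
        omega
    · by_cases z2 : G.I Fa u2 = ∅
      · have h3 := hqq [a, a', u1] (by
          simp only [List.nodup_cons, List.mem_cons, List.not_mem_nil, or_false, not_or,
            List.nodup_nil, and_true, not_false_eq_true]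
          exact ⟨⟨haa, Ne.symm u1a⟩, Ne.symm u1a'⟩) (by
          intro x hx
          simp only [List.mem_cons, List.not_mem_nil, or_false] at hx
          rcases hx with rfl | rfl | rfl
          exacts [qa, qa', qu _ hu1.1 z1])
        have h4 := w2 z2
        simp only [List.length_cons, List.length_nil] at h3
        omega
      · have h3 := hqq [a, a', u1, u2] (by
          simp only [List.nodup_cons, List.mem_cons, List.not_mem_nil, or_false, not_or,
            List.nodup_nil, and_true, not_false_eq_true]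
          exact ⟨⟨haa, Ne.symm u1a, Ne.symm u2a⟩, ⟨Ne.symm u1a', Ne.symm u2a'⟩, hu12⟩) (by
          intro x hx
          simp only [List.mem_cons, List.not_mem_nil, or_false] at hx
          rcases hx with rfl | rfl | rfl | rfl
          exacts [qa, qa', qu _ hu1.1 z1, qu _ hu2.1 z2])
        simp only [List.length_cons, List.length_nil] at h3
        omega

end Ctx

end Cap26

end CG

end Pool.Agent.Lib.MP_e95c01_co.N
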