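import Pool.Agent.Lib.MP_e95c01_co.U.Nee20_26

/-!
# U11: the type (2,1)
-/

namespace Pool.Agent.Lib.MP_e95c01_co.N

open Finset

variable {V : Type} [Fintype V] [DecidableEq V]

namespace CG

namespace Cap26

variable {G : CG V} {Fa : Finset (Finset V)} {v v' : V}

/-- two hidden neighbours -/
theorem hidden2 (h7 : G.StTwHL) (t : G.TorsoU Fa) {p : V} (hpR : p ∈ R Fa) (hp : G.IsTw p)
    {B : Finset V} (hB : B ∈ G.I Fa p) : 2 ≤ (G.nb p ∩ B).card :=
  h7.hid Fa t.reg t.big p hpR hp B hB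

namespace Ctx

/-- a twin vertex with two further neighbours in `S` -/
theorem twB (c : Ctx G Fa v v') {p : V} (hp : G.IsTw p) (hpv : p ∈ G.nb v) (hne : p ≠ v')
    (h4 : 4 ≤ (G.nb p ∩ G.nb v).card) :
    ∃ B, G.I Fa p = {B} ∧ (∀ y ∈ G.nb p, y = v ∨ y ∈ G.nb v ∨ y ∈ B) := by
  have hnt : ¬ G.Tw v p := fun h => hne (c.h7.uniq c.t.n9 _ _ _ h c.tw)
  have hpR := nbR c.vR c.vI hpv
  have hne0 : G.I Fa p ≠ ∅ := by
    intro h0
    have := c.e.e5 p hpR v c.vR h0 c.vI hp ⟨v', c.tw⟩ hpv hnt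
    omega
  obtain ⟨B, hB⟩ := nonempty_iff_ne_empty.2 hne0
  have hBF := (mem_I76.1 hB).1
  have h1 := hidden2 c.h7 c.t hpR hp hB
  have h2 : Disjoint (G.nb p ∩ B) (G.nb p ∩ G.nb v) := by
    rw [disjoint_left]
    intro y hy hy'
    rw [mem_inter] at hy hy'
    exact mem_R76.1 (nbR c.vR c.vI hy'.2) B hBF hy.2
  have h3 : v ∉ (G.nb p ∩ B) ∪ (G.nb p ∩ G.nb v) := by
    rw [mem_union, mem_inter, mem_inter]
    rintro (h | h)
    · exact mem_R76.1 c.vR B hBF h.2
    · exact G.irr _ h.2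
  have h5 : insert v ((G.nb p ∩ B) ∪ (G.nb p ∩ G.nb v)) ⊆ G.nb p := by
    intro y hy
    rw [mem_insert, mem_union, mem_inter, mem_inter] at hy
    rcases hy with rfl | hy | hy
    · exact G.sym _ _ hpv
    · exact hy.1
    · exact hy.1
  obtain ⟨p', hp'⟩ := hp
  have hall : ∀ y ∈ G.nb p, y = v ∨ y ∈ G.nb v ∨ y ∈ B := by
    intro y hy
    by_contra hcon
    rw [not_or, not_or] at hcon
    have h7 : y ∉ insert v ((G.nb p ∩ B) ∪ (G.nb p ∩ G.nb v)) := by
      rw [mem_insert, mem_union, mem_inter, mem_inter]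
      rintro (h | h | h)
      · exact hcon.1 h
      · exact hcon.2.2 h.2
      · exact hcon.2.1 h.2
    have h8 := card_le_card (insert_subset hy h5)
    rw [card_insert_of_notMem h7, card_insert_of_notMem h3, card_union_of_disjoint h2,
      hp'.2.1] at h8
    omega
  refine ⟨B, ?_, hall⟩
  apply eq_singleton_iff_unique_mem.2
  refine ⟨hB, fun B' hB' => ?_⟩
  by_contra hBB
  obtain ⟨h, g1, g2, g3⟩ := hidden hB'
  rcases hall h g1 with h9 | h9 | h9
  · rw [h9] at g3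
    exact g3 c.vR
  · exact g3 (nbR c.vR c.vI h9)
  · have := (c.t.reg.dis B' (mem_I76.1 hB').1 B hBF hBB).1
    exact disjoint_left.1 this g2 h9

/-- the third vertex seen from the member of `p` -/
theorem third (c : Ctx G Fa v v') {p p' l u : V} (hp : G.Tw p p') (hpv : p ∈ G.nb v)
    {B : Finset V} (hI : G.I Fa p = {B}) (hd : 3 ≤ G.d p (G.Co B))
    (hall : ∀ y ∈ G.nb p, y = v ∨ y ∈ G.nb v ∨ y ∈ B)
    (hc : ∀ y ∈ G.nb p, y ∈ G.nb v → y = v' ∨ y = p' ∨ y = l ∨ y = u) (hl : B ∈ G.I Fa l) :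
    B ∉ G.I Fa u := by
  intro hu
  have hpR := nbR c.vR c.vI hpv
  have hBp : B ∈ G.I Fa p := by
    rw [hI]
    exact mem_singleton_self _
  have hBp' : B ∈ G.I Fa p' := by
    rw [(c.h7.twI Fa c.t.reg p hpR p' hp).2]
    exact hBp
  have h1 : G.nb p ∩ G.Co B ⊆ {v, v'} := by
    intro y hy
    rw [mem_inter] at hy
    obtain ⟨h2, h3⟩ := hy
    have h4 := mem_Co76.1 h3
    rw [mem_insert, mem_singleton]
    rcases hall y h2 with h5 | h5 | h5
    · exact Or.inl h5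
    · rcases hc y h2 h5 with h6 | h6 | h6 | h6
      · exact Or.inr h6
      · rw [h6] at h4
        exact absurd (mem_I76.1 hBp').2 h4.2
      · rw [h6] at h4
        exact absurd (mem_I76.1 hl).2 h4.2
      · rw [h6] at h4
        exact absurd (mem_I76.1 hu).2 h4.2
    · exact absurd h5 h4.1
  have h2 := (card_le_card h1).trans card_le_two
  unfold d at hd
  omega

omit [Fintype V] in
/-- the common neighbours are exactly the four given ones -/
theorem exact4 {s : Finset V} {a b d e : V} (hs : s.card ≤ 4) (nd : ([a, b, d, e] : List V).Nodup)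
    (ha : a ∈ s) (hb : b ∈ s) (hd : d ∈ s) (he : e ∈ s) :
    ∀ y ∈ s, y = a ∨ y = b ∨ y = d ∨ y = e := by
  intro y hy
  by_contra hcon
  rw [not_or, not_or, not_or] at hcon
  have h : 5 ≤ s.card := by
    refine len_le (l := [y, a, b, d, e]) ?_ ?_
    · rw [List.nodup_cons]
      refine ⟨?_, nd⟩
      simp only [List.mem_cons, List.not_mem_nil, or_false, not_or]
      exact hcon
    · intro x hx
      simp only [List.mem_cons, List.not_mem_nil, or_false] at hx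
      rcases hx with rfl | rfl | rfl | rfl | rfl
      exacts [hy, ha, hb, hd, he]
  omega

/-- a low vertex with three neighbours in `S` has charge at least 2 if it is in two
neighbourhoods -/
theorem ch_two (c : Ctx G Fa v v') {l u : V} (hl : G.Low l) (hlv : l ∈ G.nb v)
    (hu : u ∈ G.nb l) (huR : u ∈ R Fa) (hum : G.I Fa u = ∅) (huv : u ≠ v) (huv' : u ≠ v')
    (hk : 2 ≤ (G.I Fa l).card) : 2 ≤ G.ch4 Fa l := by
  classical
  have hlR := nbR c.vR c.vI hlv
  have tv' := c.h7.symm _ _ c.tw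
  have hlv' : l ≠ v' := by
    rintro rfl
    exact tw_low tv' hl
  have hv'R : v' ∈ R Fa := nbR c.vR c.vI c.mem'
  have hv'I : G.I Fa v' = ∅ := by rw [(c.h7.twI Fa c.t.reg v c.vR v' c.tw).2, c.vI]
  have h6 : (G.nb l).card = 6 := hl
  have hnr := nR_card76 c.t.reg hlR hl
  -- terms
  have hterm : ∀ x ∈ G.nR Fa l, - (2 * (((G.I Fa l).card : ℤ) - 2)) ≤
      2 * (2 - (G.m Fa x l : ℤ)) +
        (if G.m Fa x l ≤ 1 then G.pi4 x l - G.pi4 l x else 0) := by
    intro x hx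
    have hm : G.m Fa x l ≤ (G.I Fa l).card := card_le_card inter_subset_right
    have hp1 : 0 ≤ G.pi4 x l := by
      unfold pi4
      split_ifs <;> norm_num
    have hp2 : G.pi4 l x ≤ 2 := by
      unfold pi4
      split_ifs <;> norm_num
    split_ifs with h
    · have : (G.m Fa x l : ℤ) ≤ 1 := by exact_mod_cast h
      have h2 : (2 : ℤ) ≤ ((G.I Fa l).card : ℤ) := by exact_mod_cast hk
      linarith
    · have h2 : (G.m Fa x l : ℤ) ≤ ((G.I Fa l).card : ℤ) := by exact_mod_cast hm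
      linarith
  have hgood : ∀ x ∈ G.nR Fa l, G.I Fa x = ∅ → 2 ≤ 2 * (2 - (G.m Fa x l : ℤ)) +
      (if G.m Fa x l ≤ 1 then G.pi4 x l - G.pi4 l x else 0) := by
    intro x hx h0
    have hm : G.m Fa x l = 0 := m_left h0
    have hp1 : 0 ≤ G.pi4 x l := by
      unfold pi4
      split_ifs <;> norm_num
    have hp2 : G.pi4 l x ≤ 2 := by
      unfold pi4
      split_ifs <;> norm_num
    rw [hm, if_pos (by norm_num)]
    push_cast
    linarith
  set X : Finset V := {v, v', u} with hX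
  have hXs : X ⊆ G.nR Fa l := by
    intro y hy
    rw [hX] at hy
    simp only [mem_insert, mem_singleton] at hy
    rw [mem_nR76]
    rcases hy with rfl | rfl | rfl
    · exact ⟨G.sym _ _ hlv, c.vR⟩
    · exact ⟨c.adj' hlv hlv', hv'R⟩
    · exact ⟨hu, huR⟩
  have hXc : X.card = 3 :=
    card_eq_three.2 ⟨v, v', u, (nb_ne c.mem').symm, Ne.symm huv, Ne.symm huv', rfl⟩
  have hXI : ∀ x ∈ X, G.I Fa x = ∅ := by
    intro x hx
    rw [hX] at hx
    simp only [mem_insert, mem_singleton] at hx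
    rcases hx with rfl | rfl | rfl
    exacts [c.vI, hv'I, hum]
  set F : V → ℤ := fun x => 2 * (2 - (G.m Fa x l : ℤ)) +
    (if G.m Fa x l ≤ 1 then G.pi4 x l - G.pi4 l x else 0) with hF
  have hch : G.ch4 Fa l = 6 * (((G.I Fa l).card : ℤ) - 2) + ∑ x ∈ G.nR Fa l, F x := by
    unfold ch4 a4 c4
    rw [if_pos hl, if_pos hl, h6, hF, sum_add_distrib, ← mul_sum]
    push_cast
    ring
  have hsplit := sum_sdiff (f := F) hXs
  have s1 : (6 : ℤ) ≤ ∑ x ∈ X, F x := by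
    have : ∑ x ∈ X, (2 : ℤ) ≤ ∑ x ∈ X, F x :=
      sum_le_sum fun x hx => hgood x (hXs hx) (hXI x hx)
    rw [sum_const, hXc] at this
    simpa using this
  have s2 : - ((((G.nR Fa l) \ X).card : ℤ) * (2 * (((G.I Fa l).card : ℤ) - 2))) ≤
      ∑ x ∈ G.nR Fa l \ X, F x := by
    have : ∑ x ∈ G.nR Fa l \ X, (- (2 * (((G.I Fa l).card : ℤ) - 2))) ≤
        ∑ x ∈ G.nR Fa l \ X, F x :=
      sum_le_sum fun x hx => hterm x (mem_sdiff.1 hx).1
    rw [sum_const, nsmul_eq_mul] at this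
    linarith
  have hcd : ((G.nR Fa l) \ X).card = (G.nR Fa l).card - 3 := by
    rw [card_sdiff_of_subset hXs, hXc]
  have h3 : 3 ≤ (G.nR Fa l).card := by
    rw [← hXc]
    exact card_le_card hXs
  -- `card nR ≤ 6 - k`
  have h5 : ((G.nR Fa l) \ X).card ≤ 1 := by omega
  have h8 : (2 : ℤ) ≤ ((G.I Fa l).card : ℤ) := by exact_mod_cast hk
  have h9 : ((((G.nR Fa l) \ X).card : ℤ) * (2 * (((G.I Fa l).card : ℤ) - 2))) ≤
      2 * (((G.I Fa l).card : ℤ) - 2) := by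
    have h10 : (((G.nR Fa l) \ X).card : ℤ) ≤ 1 := by exact_mod_cast h5
    have := mul_le_mul_of_nonneg_right h10 (by linarith : (0 : ℤ) ≤ 2 * (((G.I Fa l).card : ℤ) - 2))
    linarith
  rw [hch, ← hsplit]
  linarith

/-- the configuration of type (2,1) -/
structure Cfg (G : CG V) (Fa : Finset (Finset V)) (v v' l1 l2 p p' x1 x2 : V) : Prop where
  c : Ctx G Fa v v'
  hv : G.Needy Fa v
  h6 : G.StCh4
  h0 : ∀ z ∈ R Fa, G.Low z → 0 ≤ G.ch4 Fa z
  t3 : ∀ z ∈ R Fa, ∀ B, G.I Fa z = {B} → G.IsTw z → 3 ≤ G.d z (G.Co B)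
  hl1 : G.Low l1
  hl2 : G.Low l2
  l1v : l1 ∈ G.nb v
  l2v : l2 ∈ G.nb v
  l12 : l1 ≠ l2
  hp : G.Tw p p'
  pv : p ∈ G.nb v
  pv' : p' ∈ G.nb v
  pn : p ≠ v'
  pn' : p' ≠ v'
  pl : p ∈ G.nb l1
  x1v : x1 ∈ G.nb v
  x2v : x2 ∈ G.nb v
  x1h : G.Hub x1
  x2h : G.Hub x2
  x12 : x1 ≠ x2
  lows : ∀ w, G.Low w → w ∈ G.nb v → w = l1 ∨ w = l2
  tws : ∀ x ∈ G.nb v, x ≠ v' → G.IsTw x → x = p ∨ x = p'

namespace Cfg

variable {l1 l2 p p' x1 x2 : V}

theorem swap (g : Cfg G Fa v v' l1 l2 p p' x1 x2) : Cfg G Fa v v' l1 l2 p p' x2 x1 :=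
  { g with x1v := g.x2v, x2v := g.x1v, x1h := g.x2h, x2h := g.x1h, x12 := g.x12.symm }

theorem swapl (g : Cfg G Fa v v' l1 l2 p p' x1 x2) (h : p ∈ G.nb l2) :
    Cfg G Fa v v' l2 l1 p p' x1 x2 :=
  { g with hl1 := g.hl2, hl2 := g.hl1, l1v := g.l2v, l2v := g.l1v, l12 := g.l12.symm, pl := h,
           lows := fun w h1 h2 => (g.lows w h1 h2).symm }

theorem nl {a b x : V} (hab : G.Tw a b) (hx : G.Low x) : a ≠ x := by
  rintro rfl
  exact tw_low hab hx

theorem nh {a b x : V} (hab : G.Tw a b) (hx : G.Hub x) : a ≠ x := by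
  rintro rfl
  exact hx.2 ⟨b, hab⟩

theorem lh {a x : V} (ha : G.Low a) (hx : G.Hub x) : a ≠ x := by
  rintro rfl
  exact hx.1 ha

theorem tv' (g : Cfg G Fa v v' l1 l2 p p' x1 x2) : G.Tw v' v := g.c.h7.symm _ _ g.c.tw

theorem tp' (g : Cfg G Fa v v' l1 l2 p p' x1 x2) : G.Tw p' p := g.c.h7.symm _ _ g.hp

theorem l1v' (g : Cfg G Fa v v' l1 l2 p p' x1 x2) : l1 ≠ v' := (nl g.tv' g.hl1).symm

theorem l2v' (g : Cfg G Fa v v' l1 l2 p p' x1 x2) : l2 ≠ v' := (nl g.tv' g.hl2).symm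

theorem xv' (g : Cfg G Fa v v' l1 l2 p p' x1 x2) : x1 ≠ v' := (nh g.tv' g.x1h).symm

/-- domination -/
theorem dom' (g : Cfg G Fa v v' l1 l2 p p' x1 x2) {u : V} (hu : u ∈ G.nb v) (hne : u ≠ v') :
    u ∈ G.nb l1 ∨ u ∈ G.nb l2 ∨ (u ∈ G.nb p ∧ u ≠ p') ∨
      (G.Low u ∧ ∃ a ∈ G.nb v, ∃ b, (b = l1 ∨ b = l2) ∧ b ≠ u ∧ G.HL a b u) := by
  rcases g.c.dom hu hne with h | h | h
  · obtain ⟨w, e1, e2, e3⟩ := h
    rcases g.lows w e1 e2 with h5 | h5
    · exact Or.inl (h5 ▸ e3)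
    · exact Or.inr (Or.inl (h5 ▸ e3))
  · obtain ⟨a, b, e1, e2, e3, e4, e5, e6, e7⟩ := h
    rcases g.tws a e2 e4 ⟨b, e1⟩ with h5 | h5
    · subst h5
      have : b = p' := g.c.h7.uniq g.c.t.n9 _ _ _ e1 g.hp
      exact Or.inr (Or.inr (Or.inl ⟨e6, this ▸ e7⟩))
    · subst h5
      have h6 : b = p := g.c.h7.uniq g.c.t.n9 _ _ _ e1 g.tp'
      have h7 : u ≠ p := h6 ▸ e7
      have h8 : u ≠ a := nb_ne e6
      exact Or.inr (Or.inr (Or.inl ⟨(tw_iff g.hp h7 h8).2 e6, h8⟩))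
  · obtain ⟨h1, a, b, e1, e2, e3, e4⟩ := h
    refine Or.inr (Or.inr (Or.inr ⟨h1, a, e1, b, g.lows b e3 e2, ?_, e4⟩))
    rintro rfl
    exact e4.2.2.2.1 (mem_cl.2 (Or.inl rfl))

theorem domh (g : Cfg G Fa v v' l1 l2 p p' x1 x2) {u : V} (hu : u ∈ G.nb v) (hh : G.Hub u) :
    u ∈ G.nb l1 ∨ u ∈ G.nb l2 ∨ u ∈ G.nb p := by
  rcases g.dom' hu (nh g.tv' hh).symm with h | h | h | h
  · exact Or.inl h
  · exact Or.inr (Or.inl h)
  · exact Or.inr (Or.inr h.1)
  · exact absurd h.1 hh.1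

/-- the pair is adjacent to a neighbour of `p` -/
theorem pp (g : Cfg G Fa v v' l1 l2 p p' x1 x2) {u : V} (hu : u ∈ G.nb p) (hne : u ≠ p') :
    p ∈ G.nb u ∧ p' ∈ G.nb u := by
  obtain ⟨h1, h2, -⟩ := tw_adj g.hp hu hne
  exact ⟨h1, h2⟩

theorem l1p (g : Cfg G Fa v v' l1 l2 p p' x1 x2) : l1 ∈ G.nb p ∧ p' ∈ G.nb l1 := by
  have h := G.sym _ _ g.pl
  exact ⟨h, (g.pp h (nl g.tp' g.hl1).symm).2⟩

/-- three neighbours of the low vertex in `S` -/
theorem four (g : Cfg G Fa v v' l1 l2 p p' x1 x2) : 4 ≤ (G.nb l1 ∩ G.nb v).card := by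
  by_contra hcon
  obtain ⟨q1, q2⟩ := g.l1p
  have tv := g.tv'
  have tp := g.tp'
  have hpp : p ≠ p' := (nb_ne g.hp.1).symm
  have ex : ∀ y ∈ G.nb l1, y ∈ G.nb v → y = v' ∨ y = p ∨ y = p' := by
    intro y h1 h2
    by_contra hc
    rw [not_or, not_or] at hc
    obtain ⟨e1, e2, e3⟩ := hc
    have h : 4 ≤ (G.nb l1 ∩ G.nb v).card := by
      refine len_le (l := [v', p, p', y]) ?_ ?_
      · simp only [List.nodup_cons, List.mem_cons, List.not_mem_nil, or_false, not_or,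
          List.nodup_nil, and_true, not_false_eq_true]
        exact ⟨⟨g.pn.symm, g.pn'.symm, Ne.symm e1⟩, ⟨hpp, Ne.symm e2⟩, Ne.symm e3⟩
      · intro x hx
        simp only [List.mem_cons, List.not_mem_nil, or_false] at hx
        rw [mem_inter]
        rcases hx with rfl | rfl | rfl | rfl
        exacts [⟨g.c.adj' g.l1v g.l1v', g.c.mem'⟩, ⟨g.pl, g.pv⟩, ⟨q2, g.pv'⟩, ⟨h1, h2⟩]
    exact hcon h
  have hl2 : l2 ∈ G.nb p ∧ l2 ≠ p' := by
    rcases g.dom' g.l2v g.l2v' with h | h | h | h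
    · rcases ex l2 h g.l2v with h | h | h
      · exact absurd h g.l2v'
      · exact absurd h.symm (nl g.hp g.hl2)
      · exact absurd h.symm (nl tp g.hl2)
    · exact absurd h (G.irr _)
    · exact h
    · obtain ⟨-, a, e1, b, e2, e3, e4⟩ := h
      have e5 : b = l1 := by
        rcases e2 with h | h
        · exact h
        · exact absurd h e3
      rw [e5] at e4
      have e6 := g.c.h7.notHL g.c.t.n9 _ _ _ e4
      have e7 := (hl_nb e4 g.c).2.1
      rcases ex a e7 e1 with h | h | h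
      · exact absurd ⟨v, h ▸ tv⟩ e6
      · exact absurd ⟨p', h ▸ g.hp⟩ e6
      · exact absurd ⟨p, h ▸ tp⟩ e6
  obtain ⟨r1, r2⟩ := g.pp hl2.1 hl2.2
  have hf := (g.c.f2 ⟨p', g.hp⟩ g.pv g.pn).1
  have ex2 := exact4 hf (a := v') (b := p') (d := l1) (e := l2) (by
      simp only [List.nodup_cons, List.mem_cons, List.not_mem_nil, or_false, not_or,
        List.nodup_nil, and_true, not_false_eq_true]
      exact ⟨⟨g.pn'.symm, g.l1v'.symm, g.l2v'.symm⟩, ⟨nl tp g.hl1, nl tp g.hl2⟩, g.l12⟩)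
    (mem_inter.2 ⟨g.c.adj' g.pv g.pn, g.c.mem'⟩) (mem_inter.2 ⟨g.hp.1, g.pv'⟩)
    (mem_inter.2 ⟨q1, g.l1v⟩) (mem_inter.2 ⟨hl2.1, g.l2v⟩)
  have hx : ∀ x ∈ G.nb v, G.Hub x → x ∈ G.nb l2 := by
    intro x hx hh
    rcases g.domh hx hh with h | h | h
    · rcases ex x h hx with h | h | h
      · exact absurd h.symm (nh tv hh)
      · exact absurd h.symm (nh g.hp hh)
      · exact absurd h.symm (nh tp hh)
    · exact h
    · rcases ex2 x (mem_inter.2 ⟨h, hx⟩) with h | h | h | h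
      · exact absurd h.symm (nh tv hh)
      · exact absurd h.symm (nh tp hh)
      · exact absurd h.symm (lh g.hl1 hh)
      · exact absurd h.symm (lh g.hl2 hh)
  have hf1 := g.c.f1 g.hl2 g.l2v
  have h5 : 5 ≤ (G.nb l2 ∩ G.nb v).card := by
    refine len_le (l := [v', p, p', x1, x2]) ?_ ?_
    · simp only [List.nodup_cons, List.mem_cons, List.not_mem_nil, or_false, not_or,
        List.nodup_nil, and_true, not_false_eq_true]
      exact ⟨⟨g.pn.symm, g.pn'.symm, nh tv g.x1h, nh tv g.x2h⟩,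
        ⟨hpp, nh g.hp g.x1h, nh g.hp g.x2h⟩, ⟨nh tp g.x1h, nh tp g.x2h⟩, g.x12⟩
    · intro x hx'
      simp only [List.mem_cons, List.not_mem_nil, or_false] at hx'
      rw [mem_inter]
      rcases hx' with rfl | rfl | rfl | rfl | rfl
      exacts [⟨g.c.adj' g.l2v g.l2v', g.c.mem'⟩, ⟨r1, g.pv⟩, ⟨r2, g.pv'⟩,
        ⟨hx _ g.x1v g.x1h, g.x1v⟩, ⟨hx _ g.x2v g.x2h, g.x2v⟩]
  omega

/-- the common neighbours of `l1` and `v` if `u` is one of them -/
theorem exl (g : Cfg G Fa v v' l1 l2 p p' x1 x2) {u : V} (hu : u ∈ G.nb l1) (huv : u ∈ G.nb v)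
    (h1 : u ≠ v') (h2 : u ≠ p) (h3 : u ≠ p') :
    ∀ y ∈ G.nb l1, y ∈ G.nb v → y = v' ∨ y = p ∨ y = p' ∨ y = u := by
  intro y e1 e2
  refine exact4 (g.c.f1 g.hl1 g.l1v) (by
      simp only [List.nodup_cons, List.mem_cons, List.not_mem_nil, or_false, not_or,
        List.nodup_nil, and_true, not_false_eq_true]
      exact ⟨⟨g.pn.symm, g.pn'.symm, Ne.symm h1⟩, ⟨(nb_ne g.hp.1).symm, Ne.symm h2⟩, Ne.symm h3⟩)
    (mem_inter.2 ⟨g.c.adj' g.l1v g.l1v', g.c.mem'⟩) (mem_inter.2 ⟨g.pl, g.pv⟩)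
    (mem_inter.2 ⟨g.l1p.2, g.pv'⟩) (mem_inter.2 ⟨hu, huv⟩) y (mem_inter.2 ⟨e1, e2⟩)

/-- the common neighbours of `p` and `v` if `u` is one of them -/
theorem exp (g : Cfg G Fa v v' l1 l2 p p' x1 x2) {u : V} (hu : u ∈ G.nb p) (huv : u ∈ G.nb v)
    (h1 : u ≠ v') (h2 : u ≠ p') (h3 : u ≠ l1) :
    4 ≤ (G.nb p ∩ G.nb v).card ∧
    ∀ y ∈ G.nb p, y ∈ G.nb v → y = v' ∨ y = p' ∨ y = l1 ∨ y = u := by
  have nd : ([v', p', l1, u] : List V).Nodup := by
    simp only [List.nodup_cons, List.mem_cons, List.not_mem_nil, or_false, not_or,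
      List.nodup_nil, and_true, not_false_eq_true]
    exact ⟨⟨g.pn'.symm, g.l1v'.symm, Ne.symm h1⟩, ⟨nl g.tp' g.hl1, Ne.symm h2⟩, Ne.symm h3⟩
  have m1 : v' ∈ G.nb p ∩ G.nb v := mem_inter.2 ⟨g.c.adj' g.pv g.pn, g.c.mem'⟩
  have m2 : p' ∈ G.nb p ∩ G.nb v := mem_inter.2 ⟨g.hp.1, g.pv'⟩
  have m3 : l1 ∈ G.nb p ∩ G.nb v := mem_inter.2 ⟨g.l1p.1, g.l1v⟩
  have m4 : u ∈ G.nb p ∩ G.nb v := mem_inter.2 ⟨hu, huv⟩
  refine ⟨len_le nd ?_, fun y e1 e2 => exact4 (g.c.f2 ⟨p', g.hp⟩ g.pv g.pn).1 nd m1 m2 m3 m4 y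
    (mem_inter.2 ⟨e1, e2⟩)⟩
  intro x hx
  simp only [List.mem_cons, List.not_mem_nil, or_false] at hx
  rcases hx with rfl | rfl | rfl | rfl
  exacts [m1, m2, m3, m4]

open Classical in
/-- the right side -/
noncomputable def rhs (G : CG V) (Fa : Finset (Finset V)) (v : V) : ℤ :=
  2 * ((univ.filter fun x => G.Qual Fa x v).card : ℤ) +
      ∑ l ∈ univ.filter (fun l => G.PL Fa l v), G.ch4 Fa l

open Classical in
theorem rhs_le (g : Cfg G Fa v v' l1 l2 p p' x1 x2) (L : List V) (hL : L.Nodup)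
    (hq : ∀ x ∈ L, G.Qual Fa x v) (S : Finset V) (hS : ∀ l ∈ S, G.PL Fa l v) :
    2 * (L.length : ℤ) + ∑ l ∈ S, G.ch4 Fa l ≤ rhs G Fa v := by
  have h1 : L.length ≤ (univ.filter fun x => G.Qual Fa x v).card :=
    len_le hL fun x hx => mem_filter.2 ⟨mem_univ _, hq x hx⟩
  have h2 := g.c.sum1 g.h0 S hS
  have h3 : (L.length : ℤ) ≤ ((univ.filter fun x => G.Qual Fa x v).card : ℤ) := by
    exact_mod_cast h1
  unfold rhs
  linarith

theorem r0 (g : Cfg G Fa v v' l1 l2 p p' x1 x2) {l : V} (hl : G.PL Fa l v)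
    (h : 4 ≤ G.ch4 Fa l) : 4 ≤ rhs G Fa v := by
  have := g.rhs_le [] List.nodup_nil (by simp) {l} (by simpa using hl)
  rw [sum_singleton] at this
  simp only [List.length_nil] at this
  push_cast at this
  linarith

theorem r1 (g : Cfg G Fa v v' l1 l2 p p' x1 x2) {l x : V} (hx : G.Qual Fa x v)
    (hl : G.PL Fa l v) (h : 2 ≤ G.ch4 Fa l) : 4 ≤ rhs G Fa v := by
  have := g.rhs_le [x] (List.nodup_singleton _) (by simpa using hx) {l} (by simpa using hl)
  rw [sum_singleton] at this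
  simp only [List.length_cons, List.length_nil] at this
  push_cast at this
  linarith

theorem r2 (g : Cfg G Fa v v' l1 l2 p p' x1 x2) {x y : V} (hx : G.Qual Fa x v)
    (hy : G.Qual Fa y v) (hxy : x ≠ y) : 4 ≤ rhs G Fa v := by
  have := g.rhs_le [x, y] (by simpa using hxy) (by simp [hx, hy]) ∅ (by simp)
  rw [sum_empty] at this
  simp only [List.length_cons, List.length_nil] at this
  push_cast at this
  linarith

theorem q1 (g : Cfg G Fa v v' l1 l2 p p' x1 x2) (h : G.I Fa x1 ≠ ∅) : G.Qual Fa x1 v :=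
  g.c.qual_of g.hv g.x1h g.x1v h

theorem qp (g : Cfg G Fa v v' l1 l2 p p' x1 x2) (h : x1 ∈ G.nb p) (hI : G.I Fa p ≠ ∅) :
    G.Qual Fa x1 v := by
  refine ⟨g.hv, g.x1h, g.x1v, Or.inr ⟨p, mem_inter.2 ⟨G.sym _ _ h, g.pv⟩, ⟨p', g.hp⟩, ?_, hI⟩⟩
  intro h1
  exact g.pn (g.c.h7.uniq g.c.t.n9 _ _ _ h1 g.c.tw)

theorem lR (g : Cfg G Fa v v' l1 l2 p p' x1 x2) {y : V} (hy : y ∈ G.nb v) : y ∈ R Fa :=
  nbR g.c.vR g.c.vI hy

/-- the pair is outside of the neighbourhood of the member of `l1` -/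
theorem dpair (g : Cfg G Fa v v' l1 l2 p p' x1 x2) {l B : _} (hl : p ∈ G.nb l ∧ p' ∈ G.nb l)
    (hB : B ∉ G.I Fa p)
    (hY : ∀ Y : Finset V, Y ⊆ G.nb l ∩ G.nb v → v' ∉ Y → (∀ y ∈ Y, B ∉ G.I Fa y) →
        2 + Y.card ≤ G.d l (G.Co B)) {x : V} (hx : x ∈ G.nb l) (hxv : x ∈ G.nb v)
    (hh : G.Hub x) : 4 ≤ G.d l (G.Co B) ∧ (G.I Fa x = ∅ → 5 ≤ G.d l (G.Co B)) := by
  have hpR := g.lR g.pv
  have hB' : B ∉ G.I Fa p' := by
    rw [(g.c.h7.twI Fa g.c.t.reg p hpR p' g.hp).2]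
    exact hB
  have hpp : p ≠ p' := (nb_ne g.hp.1).symm
  constructor
  · have := hY {p, p'} (by
      intro y hy
      rw [mem_insert, mem_singleton] at hy
      rw [mem_inter]
      rcases hy with rfl | rfl
      exacts [⟨hl.1, g.pv⟩, ⟨hl.2, g.pv'⟩]) (by
      rw [mem_insert, mem_singleton, not_or]
      exact ⟨g.pn.symm, g.pn'.symm⟩) (by
      intro y hy
      rw [mem_insert, mem_singleton] at hy
      rcases hy with rfl | rfl
      exacts [hB, hB'])
    rw [card_pair hpp] at this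
    exact this
  · intro h0
    have := hY {p, p', x} (by
      intro y hy
      rw [mem_insert, mem_insert, mem_singleton] at hy
      rw [mem_inter]
      rcases hy with rfl | rfl | rfl
      exacts [⟨hl.1, g.pv⟩, ⟨hl.2, g.pv'⟩, ⟨hx, hxv⟩]) (by
      rw [mem_insert, mem_insert, mem_singleton, not_or, not_or]
      exact ⟨g.pn.symm, g.pn'.symm, nh g.tv' hh⟩) (by
      intro y hy
      rw [mem_insert, mem_insert, mem_singleton] at hy
      rcases hy with rfl | rfl | rfl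
      · exact hB
      · exact hB'
      · rw [h0]
        exact notMem_empty _)
    rw [card_eq_three.2 ⟨p, p', x, hpp, nh g.hp hh, nh g.tp' hh, rfl⟩] at this
    exact this

/-- case (A2) -/
theorem caseA2 (g : Cfg G Fa v v' l1 l2 p p' x1 x2) (hl : l2 ∈ G.nb l1) {B : Finset V}
    (hB : G.I Fa l1 = {B}) (hpB : B ∈ G.I Fa p)
    (hY : ∀ Y : Finset V, Y ⊆ G.nb l1 ∩ G.nb v → v' ∉ Y → (∀ y ∈ Y, B ∉ G.I Fa y) →
        2 + Y.card ≤ G.d l1 (G.Co B)) (hPL : G.PL Fa l1 v) (hx : x1 ∈ G.nb p) :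
    4 ≤ rhs G Fa v := by
  have tv := g.tv'
  have tp := g.tp'
  have hIp : G.I Fa p ≠ ∅ := by
    intro h
    rw [h] at hpB
    exact absurd hpB (notMem_empty _)
  have hQ := g.qp hx hIp
  have exl := g.exl hl g.l2v g.l2v' (nl g.hp g.hl2).symm (nl tp g.hl2).symm
  obtain ⟨-, exp⟩ := g.exp hx g.x1v g.xv' (nh tp g.x1h).symm (lh g.hl1 g.x1h).symm
  have hx2 : x2 ∈ G.nb l2 := by
    rcases g.domh g.x2v g.x2h with h | h | h
    · rcases exl x2 h g.x2v with h | h | h | h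
      · exact absurd h.symm (nh tv g.x2h)
      · exact absurd h.symm (nh g.hp g.x2h)
      · exact absurd h.symm (nh tp g.x2h)
      · exact absurd h.symm (lh g.hl2 g.x2h)
    · exact h
    · rcases exp x2 h g.x2v with h | h | h | h
      · exact absurd h.symm (nh tv g.x2h)
      · exact absurd h.symm (nh tp g.x2h)
      · exact absurd h.symm (lh g.hl1 g.x2h)
      · exact absurd h.symm g.x12
  have hl' := G.sym _ _ hl
  have e1 := g.c.ch_low g.h6 g.hl1 (g.lR g.l1v) hB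
  have t1 := g.c.tl_pos hl (g.lR g.l2v) g.hl2
  have t2 := g.c.tl_pos hl' (g.lR g.l1v) g.hl1
  by_cases hB2 : B ∈ G.I Fa l2
  · -- the second low vertex pays
    have h3 : 3 ≤ (G.nb l2 ∩ G.nb v).card := by
      refine len_le (l := [v', l1, x2]) ?_ ?_
      · simp only [List.nodup_cons, List.mem_cons, List.not_mem_nil, or_false, not_or,
          List.nodup_nil, and_true, not_false_eq_true]
        exact ⟨⟨g.l1v'.symm, nh tv g.x2h⟩, lh g.hl1 g.x2h⟩
      · intro x hx'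
        simp only [List.mem_cons, List.not_mem_nil, or_false] at hx'
        rw [mem_inter]
        rcases hx' with rfl | rfl | rfl
        exacts [⟨g.c.adj' g.l2v g.l2v', g.c.mem'⟩, ⟨hl', g.l1v⟩, ⟨hx2, g.x2v⟩]
    have hI2 : G.I Fa l2 ≠ ∅ := by
      intro h
      rw [h] at hB2
      exact absurd hB2 (notMem_empty _)
    have hPL2 : G.PL Fa l2 v := ⟨g.hv, g.hl2, g.l2v, hI2, h3⟩
    by_cases hI : G.I Fa x2 = ∅
    · rcases Nat.lt_or_ge (G.I Fa l2).card 2 with hk | hk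
      · have h1 : (G.I Fa l2).card = 1 := by
          have := card_pos.2 ⟨B, hB2⟩
          omega
        obtain ⟨B', hB'⟩ := card_eq_one.1 h1
        have hBB : B = B' := by
          rw [hB', mem_singleton] at hB2
          exact hB2
        subst hBB
        have e2 := g.c.ch_low g.h6 g.hl2 (g.lR g.l2v) hB'
        have hBF := (mem_I76.1 hB2).1
        have hv'I : G.I Fa v' = ∅ := by
          rw [(g.c.h7.twI Fa g.c.t.reg v g.c.vR v' g.c.tw).2, g.c.vI]
        have h5 : ({v, v', x2} : Finset V) ⊆ G.nb l2 ∩ G.Co B := by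
          intro y hy
          simp only [mem_insert, mem_singleton] at hy
          rw [mem_inter]
          rcases hy with rfl | rfl | rfl
          · exact ⟨G.sym _ _ g.l2v, in_Co g.c.vR hBF (by rw [g.c.vI]; exact notMem_empty _)⟩
          · exact ⟨g.c.adj' g.l2v g.l2v', in_Co (g.lR g.c.mem') hBF
              (by rw [hv'I]; exact notMem_empty _)⟩
          · exact ⟨hx2, in_Co (g.lR g.x2v) hBF (by rw [hI]; exact notMem_empty _)⟩
        have h6 := card_le_card h5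
        rw [card_eq_three.2 ⟨v, v', x2, (nb_ne g.c.mem').symm, (nb_ne g.x2v).symm,
          nh tv g.x2h, rfl⟩] at h6
        refine g.r1 hQ hPL2 ?_
        rw [e2]
        unfold d
        omega
      · exact g.r1 hQ hPL2 (g.c.ch_two g.hl2 g.l2v hx2 (g.lR g.x2v) hI (nb_ne g.x2v)
          (nh tv g.x2h).symm hk)
    · exact g.r2 hQ (g.swap.q1 hI) g.x12
  · have h1 := hY {l2} (by
      rw [singleton_subset_iff, mem_inter]
      exact ⟨hl, g.l2v⟩) (by
      rw [mem_singleton]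
      exact g.l2v'.symm) (by
      intro y hy
      rw [mem_singleton.1 hy]
      exact hB2)
    rw [card_singleton] at h1
    refine g.r1 hQ hPL ?_
    rw [e1]
    omega

/-- case (B) -/
theorem caseB (g : Cfg G Fa v v' l1 l2 p p' x1 x2) (hx : x1 ∈ G.nb l1) : 4 ≤ rhs G Fa v := by
  have tv := g.tv'
  have tp := g.tp'
  have exl := g.exl hx g.x1v g.xv' (nh g.hp g.x1h).symm (nh tp g.x1h).symm
  obtain ⟨hPL, B, hB, hY⟩ := g.c.lowB g.hv g.hl1 g.l1v g.four
  have e1 := g.c.ch_low g.h6 g.hl1 (g.lR g.l1v) hB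
  have hBl : B ∈ G.I Fa l1 := by
    rw [hB]
    exact mem_singleton_self _
  -- the pair outside
  have good : B ∉ G.I Fa p → 4 ≤ rhs G Fa v := by
    intro h
    obtain ⟨h1, h2⟩ := g.dpair ⟨g.pl, g.l1p.2⟩ h hY hx g.x1v g.x1h
    by_cases h3 : G.I Fa x1 = ∅
    · have h4 := h2 h3
      refine g.r0 hPL ?_
      rw [e1]
      omega
    · refine g.r1 (g.q1 h3) hPL ?_
      rw [e1]
      omega
  by_cases hpB : B ∉ G.I Fa p
  · exact good hpB
  rw [not_not] at hpB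
  rcases g.dom' g.l2v g.l2v' with h | h | h | h
  · exfalso
    rcases exl l2 h g.l2v with h | h | h | h
    · exact g.l2v' h
    · exact nl g.hp g.hl2 h.symm
    · exact nl tp g.hl2 h.symm
    · exact lh g.hl2 g.x1h h
  · exact absurd h (G.irr _)
  · -- (B1)
    obtain ⟨h4, exp⟩ := g.exp h.1 g.l2v g.l2v' h.2 g.l12.symm
    obtain ⟨B', hB', hall⟩ := g.c.twB ⟨p', g.hp⟩ g.pv g.pn h4
    have hBB : B = B' := by
      rw [hB', mem_singleton] at hpB
      exact hpB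
    subst hBB
    have hd := g.t3 p (g.lR g.pv) B hB' ⟨p', g.hp⟩
    have h5 := g.c.third g.hp g.pv hB' hd hall exp hBl
    have hx2 : x2 ∈ G.nb l2 := by
      rcases g.domh g.x2v g.x2h with h | h | h
      · rcases exl x2 h g.x2v with h | h | h | h
        · exact absurd h.symm (nh tv g.x2h)
        · exact absurd h.symm (nh g.hp g.x2h)
        · exact absurd h.symm (nh tp g.x2h)
        · exact absurd h.symm g.x12
      · exact h
      · rcases exp x2 h g.x2v with h | h | h | h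
        · exact absurd h.symm (nh tv g.x2h)
        · exact absurd h.symm (nh tp g.x2h)
        · exact absurd h.symm (lh g.hl1 g.x2h)
        · exact absurd h.symm (lh g.hl2 g.x2h)
    obtain ⟨r1, r2⟩ := g.pp h.1 h.2
    have g2 := g.swapl r1
    obtain ⟨hPL2, B2, hB2, hY2⟩ := g2.c.lowB g2.hv g2.hl1 g2.l1v g2.four
    have e2 := g.c.ch_low g.h6 g.hl2 (g.lR g.l2v) hB2
    have hne : B2 ≠ B := by
      rintro rfl
      rw [hB2] at h5
      exact h5 (mem_singleton_self _)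
    have hp2 : B2 ∉ G.I Fa p := by
      rw [hB', mem_singleton]
      exact hne
    obtain ⟨k1, k2⟩ := g.dpair ⟨r1, r2⟩ hp2 hY2 hx2 g.x2v g.x2h
    by_cases h3 : G.I Fa x2 = ∅
    · have h6 := k2 h3
      refine g.r0 hPL2 ?_
      rw [e2]
      omega
    · refine g.r1 (g.swap.q1 h3) hPL2 ?_
      rw [e2]
      omega
  · -- (B2)
    exfalso
    obtain ⟨-, a, a1, b, b1, b2, hHL⟩ := h
    have hb : b = l1 := by
      rcases b1 with h | h
      · exact h
      · exact absurd h b2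
    rw [hb] at hHL
    have hnt := g.c.h7.notHL g.c.t.n9 _ _ _ hHL
    have ha : a = x1 := by
      rcases exl a (hl_nb hHL g.c).2.1 a1 with h | h | h | h
      · exact absurd ⟨v, h ▸ tv⟩ hnt
      · exact absurd ⟨p', h ▸ g.hp⟩ hnt
      · exact absurd ⟨p, h ▸ tp⟩ hnt
      · exact h
    rw [ha] at hHL
    have hI := g.c.h7.hlI Fa g.c.t.reg x1 (g.lR g.x1v) l1 (g.lR g.l1v) l2 (g.lR g.l2v) hHL
    have hpx : x1 ∈ G.nb p := by
      have h1 : p ∈ G.cl x1 := by
        rw [hHL.2.2.2.2, mem_insert]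
        exact Or.inr (mem_cl.2 (Or.inr g.pl))
      exact G.sym _ _ ((mem_cl.1 h1).resolve_left (nh g.hp g.x1h))
    obtain ⟨h4, exp⟩ := g.exp hpx g.x1v g.xv' (nh tp g.x1h).symm (lh g.hl1 g.x1h).symm
    obtain ⟨B', hB', hall⟩ := g.c.twB ⟨p', g.hp⟩ g.pv g.pn h4
    have hBB : B = B' := by
      rw [hB', mem_singleton] at hpB
      exact hpB
    subst hBB
    have hd := g.t3 p (g.lR g.pv) B hB' ⟨p', g.hp⟩
    have h5 := g.c.third g.hp g.pv hB' hd hall exp hBl
    rw [hI] at h5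
    exact h5 hBl

/-- case (A) -/
theorem caseA (g : Cfg G Fa v v' l1 l2 p p' x1 x2) (hl : l2 ∈ G.nb l1) : 4 ≤ rhs G Fa v := by
  have tv := g.tv'
  have tp := g.tp'
  have exl := g.exl hl g.l2v g.l2v' (nl g.hp g.hl2).symm (nl tp g.hl2).symm
  obtain ⟨hPL, B, hB, hY⟩ := g.c.lowB g.hv g.hl1 g.l1v g.four
  have e1 := g.c.ch_low g.h6 g.hl1 (g.lR g.l1v) hB
  have hl' := G.sym _ _ hl
  have t1 := g.c.tl_pos hl (g.lR g.l2v) g.hl2
  have t2 := g.c.tl_pos hl' (g.lR g.l1v) g.hl1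
  have hpp : p ≠ p' := (nb_ne g.hp.1).symm
  by_cases hpB : B ∉ G.I Fa p
  · have hB' : B ∉ G.I Fa p' := by
      rw [(g.c.h7.twI Fa g.c.t.reg p (g.lR g.pv) p' g.hp).2]
      exact hpB
    have := hY {p, p'} (by
      intro y hy
      rw [mem_insert, mem_singleton] at hy
      rw [mem_inter]
      rcases hy with rfl | rfl
      exacts [⟨g.pl, g.pv⟩, ⟨g.l1p.2, g.pv'⟩]) (by
      rw [mem_insert, mem_singleton, not_or]
      exact ⟨g.pn.symm, g.pn'.symm⟩) (by
      intro y hy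
      rw [mem_insert, mem_singleton] at hy
      rcases hy with rfl | rfl
      exacts [hpB, hB'])
    rw [card_pair hpp] at this
    refine g.r0 hPL ?_
    rw [e1]
    omega
  rw [not_not] at hpB
  by_cases h1 : x1 ∈ G.nb p
  · exact g.caseA2 hl hB hpB hY hPL h1
  by_cases h2 : x2 ∈ G.nb p
  · exact g.swap.caseA2 hl hB hpB hY hPL h2
  -- (A1)
  have hx : ∀ x ∈ G.nb v, G.Hub x → x ∉ G.nb p → x ∈ G.nb l2 := by
    intro x hx hh hn
    rcases g.domh hx hh with h | h | h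
    · rcases exl x h hx with h | h | h | h
      · exact absurd h.symm (nh tv hh)
      · exact absurd h.symm (nh g.hp hh)
      · exact absurd h.symm (nh tp hh)
      · exact absurd h.symm (lh g.hl2 hh)
    · exact h
    · exact absurd h hn
  have hx1 := hx _ g.x1v g.x1h h1
  have hx2 := hx _ g.x2v g.x2h h2
  have h4 : 4 ≤ (G.nb l2 ∩ G.nb v).card := by
    refine len_le (l := [v', l1, x1, x2]) ?_ ?_
    · simp only [List.nodup_cons, List.mem_cons, List.not_mem_nil, or_false, not_or,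
        List.nodup_nil, and_true, not_false_eq_true]
      exact ⟨⟨g.l1v'.symm, nh tv g.x1h, nh tv g.x2h⟩, ⟨lh g.hl1 g.x1h, lh g.hl1 g.x2h⟩, g.x12⟩
    · intro x hx'
      simp only [List.mem_cons, List.not_mem_nil, or_false] at hx'
      rw [mem_inter]
      rcases hx' with rfl | rfl | rfl | rfl
      exacts [⟨g.c.adj' g.l2v g.l2v', g.c.mem'⟩, ⟨hl', g.l1v⟩, ⟨hx1, g.x1v⟩, ⟨hx2, g.x2v⟩]
  obtain ⟨hPL2, B2, hB2, hY2⟩ := g.c.lowB g.hv g.hl2 g.l2v h4
  have e2 := g.c.ch_low g.h6 g.hl2 (g.lR g.l2v) hB2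
  have one : ∀ x ∈ G.nb v, G.Hub x → x ∈ G.nb l2 → G.I Fa x = ∅ → 3 ≤ G.d l2 (G.Co B2) := by
    intro x k1 k2 k3 k4
    have := hY2 {x} (by
      rw [singleton_subset_iff, mem_inter]
      exact ⟨k3, k1⟩) (by
      rw [mem_singleton]
      exact nh tv k2) (by
      intro y hy
      rw [mem_singleton.1 hy, k4]
      exact notMem_empty _)
    rw [card_singleton] at this
    exact this
  by_cases z1 : G.I Fa x1 = ∅
  · by_cases z2 : G.I Fa x2 = ∅
    · have := hY2 {x1, x2} (by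
        intro y hy
        rw [mem_insert, mem_singleton] at hy
        rw [mem_inter]
        rcases hy with rfl | rfl
        exacts [⟨hx1, g.x1v⟩, ⟨hx2, g.x2v⟩]) (by
        rw [mem_insert, mem_singleton, not_or]
        exact ⟨nh tv g.x1h, nh tv g.x2h⟩) (by
        intro y hy
        rw [mem_insert, mem_singleton] at hy
        rcases hy with rfl | rfl
        · rw [z1]
          exact notMem_empty _
        · rw [z2]
          exact notMem_empty _)
      rw [card_pair g.x12] at this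
      refine g.r0 hPL2 ?_
      rw [e2]
      omega
    · have h5 := one _ g.x1v g.x1h hx1 z1
      refine g.r1 (g.swap.q1 z2) hPL2 ?_
      rw [e2]
      omega
  · by_cases z2 : G.I Fa x2 = ∅
    · have h5 := one _ g.x2v g.x2h hx2 z2
      refine g.r1 (g.q1 z1) hPL2 ?_
      rw [e2]
      omega
    · exact g.r2 (g.q1 z1) (g.swap.q1 z2) g.x12

end Cfg

open Classical in
/-- the type (2,1) -/
theorem ty21 (c : Ctx G Fa v v') (hv : G.Needy Fa v) (h6 : G.StCh4)
    (h0 : ∀ z ∈ R Fa, G.Low z → 0 ≤ G.ch4 Fa z)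
    (t3 : ∀ z ∈ R Fa, ∀ B, G.I Fa z = {B} → G.IsTw z → 3 ≤ G.d z (G.Co B)) {p : V}
    (hpT : G.IsTw p) (hpv : p ∈ G.nb v) (hne : p ≠ v') :
    - (2 * G.ch4 Fa v) ≤ 2 * ((univ.filter fun x => G.Qual Fa x v).card : ℤ) +
      ∑ l ∈ univ.filter (fun l => G.PL Fa l v), G.ch4 Fa l := by
  obtain ⟨p', hp⟩ := hpT
  obtain ⟨m1, m2, m3, m4⟩ := c.mate hpv hne hp
  obtain ⟨h2, htw⟩ := c.types hp hpv hne
  obtain ⟨l1, hl1, l1v, pl⟩ := c.low_of hp hpv hne
  obtain ⟨l2, l21, hl2, l2v, lows⟩ := c.lows h2 hl1 l1v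
  have tv' := c.h7.symm _ _ c.tw
  have tp' := c.h7.symm _ _ hp
  -- the charge
  have hch : -2 ≤ G.ch4 Fa v := by
    have h1 := ((h6 c.t.n9 Fa c.t.reg v c.vR).2.1 ⟨v', c.tw⟩).1 c.vI
    have a1 := c.mem_tt hpv hne ⟨p', hp⟩
    have a2 := c.mem_tt m1 m2 ⟨p, tp'⟩
    have h3 : 2 ≤ G.tt Fa v := by
      unfold tt
      refine len_le (l := [p, p']) ?_ ?_
      · simp only [List.nodup_cons, List.mem_cons, List.not_mem_nil, or_false,
          List.nodup_nil, and_true, not_false_eq_true]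
        exact m4.symm
      · intro x hx
        simp only [List.mem_cons, List.not_mem_nil, or_false] at hx
        rcases hx with rfl | rfl
        · exact a1
        · exact a2
    rw [h1, h2]
    omega
  -- the two hubs
  have nd : ([v', l1, l2, p, p'] : List V).Nodup := by
    simp only [List.nodup_cons, List.mem_cons, List.not_mem_nil, or_false, not_or,
      List.nodup_nil, and_true, not_false_eq_true]
    exact ⟨⟨Cfg.nl tv' hl1, Cfg.nl tv' hl2, hne.symm, m2.symm⟩,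
      ⟨l21.symm, (Cfg.nl hp hl1).symm, (Cfg.nl tp' hl1).symm⟩,
      ⟨(Cfg.nl hp hl2).symm, (Cfg.nl tp' hl2).symm⟩, m4.symm⟩
  have hsub : ([v', l1, l2, p, p'] : List V).toFinset ⊆ G.nb v := by
    intro y hy
    rw [List.mem_toFinset] at hy
    simp only [List.mem_cons, List.not_mem_nil, or_false] at hy
    rcases hy with rfl | rfl | rfl | rfl | rfl
    exacts [c.mem', l1v, l2v, hpv, m1]
  have hX : (G.nb v \ ([v', l1, l2, p, p'] : List V).toFinset).card = 2 := by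
    rw [card_sdiff_of_subset hsub, List.toFinset_card_of_nodup nd, c.card_nb]
    rfl
  obtain ⟨x1, x2, hx12, hX2⟩ := card_eq_two.1 hX
  have hmem : ∀ x, x ∈ ({x1, x2} : Finset V) → x ∈ G.nb v ∧ G.Hub x := by
    intro x hx
    rw [← hX2, mem_sdiff, List.mem_toFinset] at hx
    simp only [List.mem_cons, List.not_mem_nil, or_false, not_or] at hx
    obtain ⟨g1, g2, g3, g4, g5, g6⟩ := hx
    refine ⟨g1, fun h => ?_, fun h => ?_⟩
    · rcases lows x h g1 with h | h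
      · exact g3 h
      · exact g4 h
    · rcases htw x g1 g2 h with h | h
      · exact g5 h
      · exact g6 h
  obtain ⟨x1v, x1h⟩ := hmem x1 (mem_insert_self _ _)
  obtain ⟨x2v, x2h⟩ := hmem x2 (mem_insert_of_mem (mem_singleton_self _))
  have g : Cfg G Fa v v' l1 l2 p p' x1 x2 :=
    { c := c, hv := hv, h6 := h6, h0 := h0, t3 := t3, hl1 := hl1, hl2 := hl2, l1v := l1v,
      l2v := l2v, l12 := l21.symm, hp := hp, pv := hpv, pv' := m1, pn := hne, pn' := m2,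
      pl := pl, x1v := x1v, x2v := x2v, x1h := x1h, x2h := x2h, x12 := hx12, lows := lows,
      tws := htw }
  have main : 4 ≤ Cfg.rhs G Fa v := by
    by_cases ha : l2 ∈ G.nb l1
    · exact g.caseA ha
    by_cases hb : x1 ∈ G.nb l1
    · exact g.caseB hb
    by_cases hb' : x2 ∈ G.nb l1
    · exact g.swap.caseB hb'
    exfalso
    have h4 := g.four
    have h5 : G.nb l1 ∩ G.nb v ⊆ {v', p, p'} := by
      intro y hy
      rw [mem_inter] at hy
      simp only [mem_insert, mem_singleton]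
      by_cases hy2 : y ∈ ([v', l1, l2, p, p'] : List V).toFinset
      · rw [List.mem_toFinset] at hy2
        simp only [List.mem_cons, List.not_mem_nil, or_false] at hy2
        rcases hy2 with h | h | h | h | h
        · exact Or.inl h
        · rw [h] at hy
          exact absurd hy.1 (G.irr _)
        · rw [h] at hy
          exact absurd hy.1 ha
        · exact Or.inr (Or.inl h)
        · exact Or.inr (Or.inr h)
      · have h6 : y ∈ ({x1, x2} : Finset V) := by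
          rw [← hX2]
          exact mem_sdiff.2 ⟨hy.2, hy2⟩
        rw [mem_insert, mem_singleton] at h6
        rcases h6 with h | h
        · rw [h] at hy
          exact absurd hy.1 hb
        · rw [h] at hy
          exact absurd hy.1 hb'
    have h6 := (card_le_card h5).trans card_le_three
    omega
  unfold Cfg.rhs at main
  linarith

end Ctx

end Cap26

end CG

end Pool.Agent.Lib.MP_e95c01_co.N
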