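import Pool.Agent.Lib.MP_e95c01_co.U.StCap26
import Pool.Agent.Lib.MP_e95c01_co.U.StTwHL5

/-!
# U11, type (3, 0): needy twin vertices with three low neighbours
-/

namespace Pool.Agent.Lib.MP_e95c01_co.N

open Finset

variable {V : Type} [Fintype V] [DecidableEq V]

namespace CG

namespace Needy5

open Cap26

variable {G : CG V} {Fa : Finset (Finset V)} {v v' : V}

theorem t_uniq {a b t t' : V} (h : G.HL a b t) (h' : G.HL a b t') : t = t' := by
  have h2 : t ∈ insert t' (G.cl b) := by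
    rw [← h'.2.2.2.2, h.2.2.2.2]
    exact mem_insert_self _ _
  rw [mem_insert] at h2
  rcases h2 with h2 | h2
  · exact h2
  · exact absurd h2 h.2.2.2.1

/-- at most two neighbours in `nb v - v'` -/
def Few (G : CG V) (v v' l : V) : Prop :=
  ∀ a b c, a ∈ G.nb l → b ∈ G.nb l → c ∈ G.nb l → a ∈ G.nb v → b ∈ G.nb v → c ∈ G.nb v →
    a ≠ v' → b ≠ v' → c ≠ v' → a ≠ b → a ≠ c → b ≠ c → False

theorem few_of (c : Ctx G Fa v v') {l : V} (hl : G.Low l) (hlv : l ∈ G.nb v)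
    (h3 : (G.nb l ∩ G.nb v).card ≤ 3) : Few G v v' l := by
  intro a b d h1 h2 h3' h4 h5 h6 h7 h8 h9 e1 e2 e3
  have hlv' : l ≠ v' := by
    rintro rfl
    exact tw_low (c.h7.symm _ _ c.tw) hl
  have : 4 ≤ (G.nb l ∩ G.nb v).card := by
    refine len_le (l := [v', a, b, d]) ?_ ?_
    · simp only [List.nodup_cons, List.mem_cons, List.not_mem_nil, or_false, not_or,
        List.nodup_nil, and_true, not_false_eq_true]
      exact ⟨⟨h7.symm, h8.symm, h9.symm⟩, ⟨e1, e2⟩, e3⟩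
    · intro x hx
      simp only [List.mem_cons, List.not_mem_nil, or_false] at hx
      rw [mem_inter]
      rcases hx with rfl | rfl | rfl | rfl
      · exact ⟨c.adj' hlv hlv', c.mem'⟩
      · exact ⟨h1, h4⟩
      · exact ⟨h2, h5⟩
      · exact ⟨h3', h6⟩
  omega

/-- the low vertex in the middle -/
theorem mid5 {c a b y1 y2 y3 : V} (fc : Few G v v' c) (fa : Few G v v' a) (fb : Few G v v' b)
    (hc : c ∈ G.nb v) (ha : a ∈ G.nb v) (hb : b ∈ G.nb v) (h1 : G.Low c) (h2 : G.Low a)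
    (h3 : G.Low b) (hcv : c ≠ v') (hav : a ≠ v') (hbv : b ≠ v') (hab : a ≠ b)
    (hca : a ∈ G.nb c) (hcb : b ∈ G.nb c)
    (hy : ∀ y ∈ ({y1, y2, y3} : Finset V), y ∈ G.nb v ∧ ¬ G.Low y ∧ y ≠ v' ∧
      (y ∈ G.nb c ∨ y ∈ G.nb a ∨ y ∈ G.nb b))
    (e1 : y1 ≠ y2) (e2 : y1 ≠ y3) (e3 : y2 ≠ y3) : False := by
  have nl : ∀ {x y : V}, G.Low x → ¬ G.Low y → x ≠ y := by
    rintro x y hx hy rfl
    exact hy hx
  have key : ∀ y ∈ ({y1, y2, y3} : Finset V), y ∈ G.nb a ∨ y ∈ G.nb b := by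
    intro y hyy
    obtain ⟨k1, k2, k3, k4⟩ := hy y hyy
    rcases k4 with k4 | k4
    · exact (fc a b y hca hcb k4 ha hb k1 hav hbv k3 hab (nl h2 k2) (nl h3 k2)).elim
    · exact k4
  have ka : ∀ y z, y ∈ ({y1, y2, y3} : Finset V) → z ∈ ({y1, y2, y3} : Finset V) → y ≠ z →
      y ∈ G.nb a → z ∈ G.nb a → False := by
    intro y z k1 k2 k3 k4 k5
    obtain ⟨m1, m2, m3, -⟩ := hy y k1
    obtain ⟨n1, n2, n3, -⟩ := hy z k2
    exact fa c y z (G.sym _ _ hca) k4 k5 hc m1 n1 hcv m3 n3 (nl h1 m2) (nl h1 n2) k3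
  have kb : ∀ y z, y ∈ ({y1, y2, y3} : Finset V) → z ∈ ({y1, y2, y3} : Finset V) → y ≠ z →
      y ∈ G.nb b → z ∈ G.nb b → False := by
    intro y z k1 k2 k3 k4 k5
    obtain ⟨m1, m2, m3, -⟩ := hy y k1
    obtain ⟨n1, n2, n3, -⟩ := hy z k2
    exact fb c y z (G.sym _ _ hcb) k4 k5 hc m1 n1 hcv m3 n3 (nl h1 m2) (nl h1 n2) k3
  have m1 : y1 ∈ ({y1, y2, y3} : Finset V) := by simp
  have m2 : y2 ∈ ({y1, y2, y3} : Finset V) := by simp
  have m3 : y3 ∈ ({y1, y2, y3} : Finset V) := by simp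
  rcases key y1 m1 with k1 | k1 <;> rcases key y2 m2 with k2 | k2 <;>
    rcases key y3 m3 with k3 | k3
  · exact ka y1 y2 m1 m2 e1 k1 k2
  · exact ka y1 y2 m1 m2 e1 k1 k2
  · exact ka y1 y3 m1 m3 e2 k1 k3
  · exact kb y2 y3 m2 m3 e3 k2 k3
  · exact ka y2 y3 m2 m3 e3 k2 k3
  · exact kb y1 y3 m1 m3 e2 k1 k3
  · exact kb y1 y2 m1 m2 e1 k1 k2
  · exact kb y1 y2 m1 m2 e1 k1 k2

/-- a low neighbour with many common neighbours -/
theorem exists5 (c : Ctx G Fa v v') (h3 : G.tl Fa v = 3)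
    (hnt : ∀ x ∈ G.nb v, x ≠ v' → ¬ G.IsTw x) :
    ∃ l, G.Low l ∧ l ∈ G.nb v ∧ 4 ≤ (G.nb l ∩ G.nb v).card := by
  classical
  by_contra hcon
  have few : ∀ l, G.Low l → l ∈ G.nb v → Few G v v' l := by
    intro l hl hlv
    refine few_of c hl hlv ?_
    by_contra h
    exact hcon ⟨l, hl, hlv, by omega⟩
  have tw' := c.h7.symm _ _ c.tw
  have nv' : ∀ {x : V}, G.Low x → x ≠ v' := by
    rintro x hx rfl
    exact tw_low tw' hx
  have nl : ∀ {x y : V}, G.Low x → ¬ G.Low y → x ≠ y := by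
    rintro x y hx hy rfl
    exact hy hx
  -- domination without twins
  have dom : ∀ u ∈ G.nb v, u ≠ v' → (∃ w, G.Low w ∧ w ∈ G.nb v ∧ u ∈ G.nb w) ∨
      (G.Low u ∧ ∃ a b, a ∈ G.nb v ∧ b ∈ G.nb v ∧ G.Low b ∧ G.HL a b u) := by
    intro u hu hun
    rcases c.dom hu hun with h | h | h
    · exact Or.inl h
    · obtain ⟨a, b, hab, h1, h2, h3, -⟩ := h
      exact absurd ⟨b, hab⟩ (hnt a h1 h3)
    · exact Or.inr h
  have domH : ∀ y ∈ G.nb v, y ≠ v' → ¬ G.Low y → ∃ w, G.Low w ∧ w ∈ G.nb v ∧ y ∈ G.nb w := by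
    intro y hy hyv hyl
    rcases dom y hy hyv with h | h
    · exact h
    · exact absurd h.1 hyl
  -- the hub of `HL`
  have hub : ∀ {a b t : V}, G.HL a b t → a ≠ v' ∧ ¬ G.Low a := by
    intro a b t h
    refine ⟨?_, fun h1 => ?_⟩
    · rintro rfl
      exact c.h7.notHL c.t.n9 _ _ _ h ⟨v, tw'⟩
    · have h2 : (G.nb a).card = 6 := h1
      have h3 := h.1
      omega
  obtain ⟨L, hL⟩ : ∃ L, L = (G.nb v).filter fun x => G.Low x := ⟨_, rfl⟩
  have memL : ∀ {x : V}, x ∈ L ↔ x ∈ G.nb v ∧ G.Low x := by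
    intro x
    rw [hL, mem_filter]
  have cL : L.card = 3 := by
    have h4 := h3
    unfold tl at h4
    rw [c.nR_eq] at h4
    rw [hL]
    convert h4
  obtain ⟨H, hH⟩ : ∃ H, H = (G.nb v \ L).erase v' := ⟨_, rfl⟩
  have memH : ∀ {x : V}, x ∈ H ↔ x ≠ v' ∧ x ∈ G.nb v ∧ ¬ G.Low x := by
    intro x
    rw [hH, mem_erase, mem_sdiff, memL]
    constructor
    · rintro ⟨k1, k2, k3⟩
      exact ⟨k1, k2, fun k4 => k3 ⟨k2, k4⟩⟩
    · rintro ⟨k1, k2, k3⟩
      exact ⟨k1, k2, fun k4 => k3 k4.2⟩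
  have cH : H.card = 3 := by
    have k1 : L ⊆ G.nb v := by
      rw [hL]
      exact filter_subset _ _
    have k2 : v' ∈ G.nb v \ L := by
      rw [mem_sdiff, memL]
      exact ⟨c.mem', fun h => tw_low tw' h.2⟩
    rw [hH, card_erase_of_mem k2, card_sdiff_of_subset k1, cL, c.card_nb]
  -- all low neighbours are one of three
  have third : ∀ {l b : V}, l ∈ L → b ∈ L → l ≠ b → ∃ l3 ∈ L, l3 ≠ l ∧ l3 ≠ b ∧
      ∀ w ∈ L, w = l ∨ w = b ∨ w = l3 := by
    intro l b hl hb hlb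
    have k1 : ((L.erase l).erase b).card = 1 := by
      rw [card_erase_of_mem (mem_erase.2 ⟨hlb.symm, hb⟩), card_erase_of_mem hl, cL]
    obtain ⟨l3, k2⟩ := card_eq_one.1 k1
    have k3 : l3 ∈ (L.erase l).erase b := by
      rw [k2]
      exact mem_singleton_self _
    rw [mem_erase, mem_erase] at k3
    refine ⟨l3, k3.2.2, k3.2.1, k3.1, ?_⟩
    intro w hw
    by_cases m1 : w = l
    · exact Or.inl m1
    · by_cases m2 : w = b
      · exact Or.inr (Or.inl m2)
      · have m3 : w ∈ (L.erase l).erase b := mem_erase.2 ⟨m2, mem_erase.2 ⟨m1, hw⟩⟩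
        rw [k2, mem_singleton] at m3
        exact Or.inr (Or.inr m3)
  by_cases hI : ∃ l ∈ L, ∀ w ∈ L, l ∉ G.nb w
  · obtain ⟨l, hlL, hno⟩ := hI
    obtain ⟨hlv, hl⟩ := memL.1 hlL
    rcases dom l hlv (nv' hl) with h | h
    · obtain ⟨w, k1, k2, k3⟩ := h
      exact hno w (memL.2 ⟨k2, k1⟩) k3
    obtain ⟨-, h, b, hhv, hbv, hb, hHL⟩ := h
    obtain ⟨hhv', hhl⟩ := hub hHL
    have hbL : b ∈ L := memL.2 ⟨hbv, hb⟩
    have hlb : l ≠ b := by
      rintro rfl
      exact hHL.2.2.2.1 (mem_cl.2 (Or.inl rfl))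
    obtain ⟨l3, h3L, n1, n2, hall⟩ := third hlL hbL hlb
    obtain ⟨h3v, h3l⟩ := memL.1 h3L
    have hhb : h ∈ G.nb b := G.sym _ _ hHL.2.2.1
    have hhl' : h ∈ G.nb l := G.sym _ _ (HL_nb5 hHL)
    rcases dom b hbv (nv' hb) with g | g
    · obtain ⟨w, k1, k2, k3⟩ := g
      have hw3 : w = l3 := by
        rcases hall w (memL.2 ⟨k2, k1⟩) with k4 | k4 | k4
        · subst k4
          exact absurd (G.sym _ _ k3) (hno b hbL)
        · subst k4
          exact absurd k3 (G.irr _)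
        · exact k4
      subst hw3
      have k5 : w ∈ G.cl h := by
        rw [hHL.2.2.2.2]
        exact mem_insert_of_mem (mem_cl.2 (Or.inr (G.sym _ _ k3)))
      have k6 : w ∈ G.nb h := (mem_cl.1 k5).resolve_left (nl k1 hhl)
      -- the two other hubs
      have k7 : (H.erase h).card = 2 := by
        rw [card_erase_of_mem (memH.2 ⟨hhv', hhv, hhl⟩), cH]
      obtain ⟨y1, y2, hy12, hyy⟩ := card_eq_two.1 k7
      have k8 : ∀ y ∈ H.erase h, y ∈ G.nb l := by
        intro y hy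
        rw [mem_erase, memH] at hy
        obtain ⟨m1, m2, m3, m4⟩ := hy
        obtain ⟨x, x1, x2, x3⟩ := domH y m3 m2 m4
        rcases hall x (memL.2 ⟨x2, x1⟩) with e | e | e
        · subst e
          exact x3
        · subst e
          exact (few x hb hbv h w y hhb (G.sym _ _ k3) x3 hhv k2 m3 hhv' (nv' k1) m2
            (nl k1 hhl).symm m1.symm (nl k1 m4)).elim
        · subst e
          exact (few x k1 k2 b h y k3 (G.sym _ _ k6) x3 hbv hhv m3 (nv' hb) hhv' m2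
            (nl hb hhl) (nl hb m4) m1.symm).elim
      have y1m : y1 ∈ H.erase h := by rw [hyy]; simp
      have y2m : y2 ∈ H.erase h := by rw [hyy]; simp
      have p1 := k8 y1 y1m
      have p2 := k8 y2 y2m
      rw [mem_erase, memH] at y1m y2m
      exact few l hl hlv h y1 y2 hhl' p1 p2 hhv y1m.2.2.1 y2m.2.2.1 hhv' y1m.2.1 y2m.2.1
        y1m.1.symm y2m.1.symm hy12
    · obtain ⟨-, h', b', hh'v, hb'v, hb', hHL'⟩ := g
      obtain ⟨hh'v', hh'l⟩ := hub hHL'
      have hb'b : b' ≠ b := by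
        rintro rfl
        exact hHL'.2.2.2.1 (mem_cl.2 (Or.inl rfl))
      rcases hall b' (memL.2 ⟨hb'v, hb'⟩) with e | e | e
      · subst e
        have hhh : h ≠ h' := by
          rintro rfl
          exact hlb (b_uniq_5 c.t.n9 hHL' hHL)
        have q1 : h' ∈ G.nb b := G.sym _ _ (HL_nb5 hHL')
        have q2 : h' ∈ G.nb b' := G.sym _ _ hHL'.2.2.1
        have r1 : l3 ∉ G.nb b := fun k => few b hb hbv h h' l3 hhb q1 k hhv hh'v h3v hhv' hh'v'
          (nv' h3l) hhh (nl h3l hhl).symm (nl h3l hh'l).symm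
        have r2 : l3 ∉ G.nb b' := fun k => few b' hb' hb'v h h' l3 hhl' q2 k hhv hh'v h3v hhv'
          hh'v' (nv' h3l) hhh (nl h3l hhl).symm (nl h3l hh'l).symm
        rcases dom l3 h3v (nv' h3l) with f | f
        · obtain ⟨w, k1, k2, k3⟩ := f
          rcases hall w (memL.2 ⟨k2, k1⟩) with k4 | k4 | k4
          · subst k4
            exact r2 k3
          · subst k4
            exact r1 k3
          · subst k4
            exact G.irr _ k3
        · obtain ⟨-, g, β, hgv, hβv, hβ, hG⟩ := f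
          obtain ⟨hgv', hgl⟩ := hub hG
          have hgβ : g ∈ G.nb β := G.sym _ _ hG.2.2.1
          rcases hall β (memL.2 ⟨hβv, hβ⟩) with k4 | k4 | k4
          · subst k4
            by_cases s1 : g = h
            · subst s1
              exact hlb (b_uniq_5 c.t.n9 hG hHL)
            · by_cases s2 : g = h'
              · subst s2
                exact n2 (t_uniq hG hHL')
              · exact few β hb' hb'v h h' g hhl' q2 hgβ hhv hh'v hgv hhv' hh'v' hgv' hhh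
                  (Ne.symm s1) (Ne.symm s2)
          · subst k4
            by_cases s1 : g = h
            · subst s1
              exact n1 (t_uniq hG hHL)
            · by_cases s2 : g = h'
              · subst s2
                exact hlb (b_uniq_5 c.t.n9 hHL' hG)
              · exact few β hb hbv h h' g hhb q1 hgβ hhv hh'v hgv hhv' hh'v' hgv' hhh
                  (Ne.symm s1) (Ne.symm s2)
          · subst k4
            exact hG.2.2.2.1 (mem_cl.2 (Or.inl rfl))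
      · exact hb'b e
      · subst e
        have q1 : h' ∈ G.nb b := G.sym _ _ (HL_nb5 hHL')
        have hhh : h' ≠ h := by
          rintro rfl
          exact hb'b (b_uniq_5 c.t.n9 hHL' hHL)
        have q2 : h' ∈ G.cl h := by
          rw [hHL.2.2.2.2]
          exact mem_insert_of_mem (mem_cl.2 (Or.inr q1))
        have q3 : h' ∈ G.nb h := (mem_cl.1 q2).resolve_left hhh
        have q4 : h ∈ G.cl h' := mem_cl.2 (Or.inr (G.sym _ _ q3))
        rw [hHL'.2.2.2.2, mem_insert] at q4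
        have q5 := q4.resolve_left (nl hb hhl).symm
        have q6 : b' ∈ G.cl h := cl_symm5.1 q5
        rw [hHL.2.2.2.2, mem_insert] at q6
        have q7 := q6.resolve_left n1
        exact hHL'.2.2.2.1 (cl_symm5.1 q7)
  · push Not at hI
    obtain ⟨y1, y2, y3, f1, f2, f3, hHe⟩ := card_eq_three.1 cH
    -- the middle vertex
    have hmid : ∃ m a b, m ∈ L ∧ a ∈ L ∧ b ∈ L ∧ a ≠ b ∧ a ∈ G.nb m ∧ b ∈ G.nb m ∧
        ∀ w ∈ L, w = m ∨ w = a ∨ w = b := by
      obtain ⟨l1, hl1⟩ := card_pos.1 (by rw [cL]; norm_num : 0 < L.card)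
      obtain ⟨l2, hl2, k12⟩ := hI l1 hl1
      have e12 : l1 ≠ l2 := nb_ne k12
      obtain ⟨l3, hl3, e31, e32, hall⟩ := third hl1 hl2 e12
      obtain ⟨w, hw, k3⟩ := hI l3 hl3
      rcases hall w hw with k4 | k4 | k4
      · subst k4
        refine ⟨w, l2, l3, hl1, hl2, hl3, Ne.symm e32, G.sym _ _ k12, k3, ?_⟩
        exact hall
      · subst k4
        refine ⟨w, l1, l3, hl2, hl1, hl3, Ne.symm e31, k12, k3, ?_⟩
        intro x hx
        rcases hall x hx with k | k | k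
        · exact Or.inr (Or.inl k)
        · exact Or.inl k
        · exact Or.inr (Or.inr k)
      · subst k4
        exact absurd k3 (G.irr _)
    obtain ⟨m, a, b, hm, ha, hb, hab, hma, hmb, hall⟩ := hmid
    obtain ⟨m1, m2⟩ := memL.1 hm
    obtain ⟨a1, a2⟩ := memL.1 ha
    obtain ⟨b1, b2⟩ := memL.1 hb
    refine mid5 (few m m2 m1) (few a a2 a1) (few b b2 b1) m1 a1 b1 m2 a2 b2 (nv' m2) (nv' a2)
      (nv' b2) hab hma hmb (y1 := y1) (y2 := y2) (y3 := y3) ?_ f1 f2 f3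
    intro y hy
    rw [← hHe, memH] at hy
    obtain ⟨k1, k2, k3⟩ := hy
    refine ⟨k2, k3, k1, ?_⟩
    obtain ⟨w, x1, x2, x3⟩ := domH y k2 k1 k3
    rcases hall w (memL.2 ⟨x2, x1⟩) with k | k | k
    · subst k
      exact Or.inl x3
    · subst k
      exact Or.inr (Or.inl x3)
    · subst k
      exact Or.inr (Or.inr x3)

open Classical in
/-- a low neighbour with four common neighbours pays, or one of the common neighbours is a hub
that pays -/
theorem pay5 (c : Ctx G Fa v v') (h6 : G.StCh4) (hN : G.Needy Fa v)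
    (hnt : ∀ x ∈ G.nb v, x ≠ v' → ¬ G.IsTw x) {l : V} (hl : G.Low l) (hlv : l ∈ G.nb v)
    (h4 : 4 ≤ (G.nb l ∩ G.nb v).card) :
    (G.PL Fa l v ∧ 2 ≤ G.ch4 Fa l) ∨ ∃ u, G.Qual Fa u v := by
  have hlR := nbR c.vR c.vI hlv
  have tw' := c.h7.symm _ _ c.tw
  have hlv' : l ≠ v' := by
    rintro rfl
    exact tw_low tw' hl
  have hIne : G.I Fa l ≠ ∅ := by
    intro h0
    have := c.e.e4 l hlR v c.vR h0 c.vI hl ⟨v', c.tw⟩ hlv
    omega
  obtain ⟨B, hB⟩ := nonempty_iff_ne_empty.2 hIne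
  obtain ⟨h, h1, h2, h3⟩ := hidden hB
  have hBF := (mem_I76.1 hB).1
  have hlN := (mem_I76.1 hB).2
  have hvN : G.nb l ∩ G.nb v ⊆ R Fa := fun x hx => nbR c.vR c.vI (mem_inter.1 hx).2
  have hh1 : h ∉ G.nb l ∩ G.nb v := fun k => h3 (hvN k)
  have hhv : h ≠ v := by
    rintro rfl
    exact h3 c.vR
  have hvm : v ∉ insert h (G.nb l ∩ G.nb v) := by
    rw [mem_insert, not_or]
    exact ⟨hhv.symm, fun k => G.irr _ (mem_inter.1 k).2⟩
  have hsub : insert v (insert h (G.nb l ∩ G.nb v)) ⊆ G.nb l := by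
    intro y hy
    rw [mem_insert, mem_insert, mem_inter] at hy
    rcases hy with rfl | rfl | hy
    · exact G.sym _ _ hlv
    · exact h1
    · exact hy.1
  have hc := card_le_card hsub
  have hl6 : (G.nb l).card = 6 := hl
  rw [card_insert_of_notMem hvm, card_insert_of_notMem hh1] at hc
  have heq : insert v (insert h (G.nb l ∩ G.nb v)) = G.nb l := by
    refine eq_of_subset_of_card_le hsub ?_
    rw [card_insert_of_notMem hvm, card_insert_of_notMem hh1]
    omega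
  have hIB : G.I Fa l = {B} := by
    rw [eq_singleton_iff_unique_mem]
    refine ⟨hB, ?_⟩
    intro B' hB'
    by_contra hne
    obtain ⟨h', k1, k2, k3⟩ := hidden hB'
    rw [← heq, mem_insert, mem_insert] at k1
    rcases k1 with k1 | k1 | k1
    · subst k1
      exact k3 c.vR
    · subst k1
      exact disjoint_left.1 (c.t.reg.dis B' (mem_I76.1 hB').1 B hBF hne).1 k2 h2
    · exact k3 (hvN k1)
  have hch := ((h6 c.t.n9 Fa c.t.reg l hlR).1 hl).2.1 B hIB
  have hPL : G.PL Fa l v := ⟨hN, hl, hlv, hIne, by omega⟩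
  by_cases hex : ∃ u, G.Qual Fa u v
  · exact Or.inr hex
  left
  refine ⟨hPL, ?_⟩
  -- every common neighbour is low or in `Co B`
  obtain ⟨C, hC⟩ : ∃ C, C = (G.nb l ∩ G.nb v).erase v' := ⟨_, rfl⟩
  have hv'm : v' ∈ G.nb l ∩ G.nb v := mem_inter.2 ⟨c.adj' hlv hlv', c.mem'⟩
  have cC : 3 ≤ C.card := by
    rw [hC, card_erase_of_mem hv'm]
    omega
  have hcase : ∀ u ∈ C, u ∈ G.Co B ∨ G.Low u := by
    intro u hu
    rw [hC, mem_erase, mem_inter] at hu
    obtain ⟨u1, u2, u3⟩ := hu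
    have uR := nbR c.vR c.vI u3
    by_cases k1 : G.Low u
    · exact Or.inr k1
    left
    rw [mem_Co76]
    refine ⟨mem_R76.1 uR B hBF, fun k2 => hex ⟨u, hN, ⟨k1, hnt u u3 u1⟩, u3, Or.inl ?_⟩⟩
    exact ne_empty_of_mem (mem_I76.2 ⟨hBF, k2⟩)
  have hvI' : G.I Fa v' = ∅ := by
    rw [(c.h7.twI Fa c.t.reg v c.vR v' c.tw).2]
    exact c.vI
  have hCo : ∀ x ∈ R Fa, G.I Fa x = ∅ → x ∈ G.Co B := by
    intro x hx hI
    rw [mem_Co76]
    refine ⟨mem_R76.1 hx B hBF, fun k => ?_⟩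
    have : B ∈ G.I Fa x := mem_I76.2 ⟨hBF, k⟩
    rw [hI] at this
    exact notMem_empty _ this
  have hv'R := (c.h7.twI Fa c.t.reg v c.vR v' c.tw).1
  -- count
  have hr : (C.filter fun u => u ∈ G.Co B).card + 2 ≤ G.d l (G.Co B) := by
    have k1 : insert v (insert v' (C.filter fun u => u ∈ G.Co B)) ⊆ G.nb l ∩ G.Co B := by
      intro x hx
      rw [mem_insert, mem_insert, mem_filter, hC, mem_erase, mem_inter] at hx
      rw [mem_inter]
      rcases hx with rfl | rfl | ⟨⟨k1, k2, k3⟩, k4⟩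
      · exact ⟨G.sym _ _ hlv, hCo _ c.vR c.vI⟩
      · exact ⟨c.adj' hlv hlv', hCo _ hv'R hvI'⟩
      · exact ⟨k2, k4⟩
    have k2 := card_le_card k1
    rw [card_insert_of_notMem, card_insert_of_notMem] at k2
    · unfold d
      omega
    · rw [mem_filter, hC, mem_erase]
      exact fun k => k.1.1 rfl
    · rw [mem_insert, mem_filter, hC, mem_erase, mem_inter]
      rintro (k | k)
      · exact G.irr _ (k ▸ c.tw.1)
      · exact G.irr _ k.1.2.2
  have htl : (C.filter fun u => G.Low u).card ≤ G.tl Fa l := by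
    unfold tl
    apply card_le_card
    intro x hx
    rw [mem_filter, hC, mem_erase, mem_inter] at hx
    obtain ⟨⟨k1, k2, k3⟩, k4⟩ := hx
    rw [mem_filter, mem_nR76]
    exact ⟨⟨k2, nbR c.vR c.vI k3⟩, k4⟩
  have hcov : C ⊆ (C.filter fun u => u ∈ G.Co B) ∪ (C.filter fun u => G.Low u) := by
    intro x hx
    rw [mem_union, mem_filter, mem_filter]
    rcases hcase x hx with k | k
    · exact Or.inl ⟨hx, k⟩
    · exact Or.inr ⟨hx, k⟩
  have hcc := (card_le_card hcov).trans (card_union_le _ _)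
  rw [hch]
  have h5 : 5 ≤ G.d l (G.Co B) + G.tl Fa l := by omega
  have h5' : (5 : ℤ) ≤ (G.d l (G.Co B) : ℤ) + (G.tl Fa l : ℤ) := by exact_mod_cast h5
  have h6' : (0 : ℤ) ≤ (G.tA Fa l : ℤ) := by positivity
  linarith

open Classical in
/-- U11 for the needy twin vertices with three low neighbours -/
theorem needy30_5 (c : Ctx G Fa v v') (h6 : G.StCh4) (hN : G.Needy Fa v)
    (hlow : ∀ z ∈ R Fa, G.Low z → 0 ≤ G.ch4 Fa z) (h3 : G.tl Fa v = 3) :
    - (2 * G.ch4 Fa v) ≤ 2 * ((univ.filter fun x => G.Qual Fa x v).card : ℤ) +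
      ∑ l ∈ univ.filter (fun l => G.PL Fa l v), G.ch4 Fa l := by
  have hnt : ∀ x ∈ G.nb v, x ≠ v' → ¬ G.IsTw x := by
    rintro x hx hxv ⟨y, hy⟩
    have := (c.types hy hx hxv).1
    omega
  have hch := ((h6 c.t.n9 Fa c.t.reg v c.vR).2.1 ⟨v', c.tw⟩).1 c.vI
  have hge : -1 ≤ G.ch4 Fa v := by
    rw [hch, h3]
    have : (0 : ℤ) ≤ (G.tt Fa v : ℤ) := by positivity
    push_cast
    linarith
  have hnn : ∀ l ∈ univ.filter (fun l => G.PL Fa l v), 0 ≤ G.ch4 Fa l := by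
    intro l hl
    obtain ⟨-, k1, k2, -, -⟩ := (mem_filter.1 hl).2
    exact hlow l (nbR c.vR c.vI k2) k1
  obtain ⟨l, k1, k2, k3⟩ := exists5 c h3 hnt
  rcases pay5 c h6 hN hnt k1 k2 k3 with ⟨m1, m2⟩ | ⟨u, hu⟩
  · have h7 := single_le_sum hnn (mem_filter.2 ⟨mem_univ l, m1⟩)
    have h8 : (0 : ℤ) ≤ ((univ.filter fun x => G.Qual Fa x v).card : ℤ) := by positivity
    linarith
  · have h7 := sum_nonneg hnn
    have h8 : 1 ≤ (univ.filter fun x => G.Qual Fa x v).card := by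
      rw [Nat.succ_le_iff, card_pos]
      exact ⟨u, mem_filter.2 ⟨mem_univ _, hu⟩⟩
    have h9 : (1 : ℤ) ≤ ((univ.filter fun x => G.Qual Fa x v).card : ℤ) := by exact_mod_cast h8
    linarith

end Needy5

end CG

end Pool.Agent.Lib.MP_e95c01_co.N
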