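import Pool.Agent.Lib.MP_e95c01_co.U.StTwHL76
import Pool.Agent.Lib.MP_e95c01_co.N4.Closed76

/-!
# U11, part A: basic facts at a twin vertex `v` with `I v = ∅`
-/

namespace Pool.Agent.Lib.MP_e95c01_co.N

open Finset

variable {V : Type} [Fintype V] [DecidableEq V]

namespace CG

section

variable {G : CG V} {Fa : Finset (Finset V)}

theorem mem_I76 {z : V} {B : Finset V} : B ∈ G.I Fa z ↔ B ∈ Fa ∧ z ∈ G.N B := by
  rw [I, mem_filter]

/-- neighbours of `z ∈ R` outside of `R` -/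
theorem hid_mem76 {z x : V} (hz : z ∈ R Fa) (hx : x ∈ G.nb z) {B : Finset V} (hB : B ∈ Fa)
    (hxB : x ∈ B) : B ∈ G.I Fa z :=
  mem_I76.2 ⟨hB, mem_N37.2 ⟨mem_R76.1 hz B hB, x, hxB, G.sym _ _ hx⟩⟩

theorem nb_R76 {v x : V} (hv : v ∈ R Fa) (hI : G.I Fa v = ∅) (hx : x ∈ G.nb v) : x ∈ R Fa := by
  rw [mem_R76]
  intro B hB hxB
  have := hid_mem76 hv hx hB hxB
  rw [hI] at this
  exact notMem_empty _ this

theorem co_of76 {z : V} (hz : z ∈ R Fa) {B : Finset V} (hB : B ∈ Fa) (h : B ∉ G.I Fa z) :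
    z ∈ G.Co B :=
  mem_Co37.2 ⟨mem_R76.1 hz B hB, fun hh => h (mem_I76.2 ⟨hB, hh⟩)⟩

theorem co_of_emp76 {z : V} (hz : z ∈ R Fa) {B : Finset V} (hB : B ∈ Fa)
    (h : G.I Fa z = ∅) : z ∈ G.Co B :=
  co_of76 hz hB (by rw [h]; exact notMem_empty _)

theorem sing_I76 {z : V} {B : Finset V} (h : G.I Fa z = {B}) : B ∈ Fa ∧ z ∈ G.N B := by
  apply mem_I76.1
  rw [h]
  exact mem_singleton_self _

theorem mem_nR76 {z x : V} : x ∈ G.nR Fa z ↔ x ∈ G.nb z ∧ x ∈ R Fa := by
  rw [nR, mem_inter]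

theorem d_ge76 {z : V} {S : Finset V} {L : List V} (hL : L.Nodup)
    (h : ∀ x ∈ L, x ∈ G.nb z ∧ x ∈ S) : L.length ≤ G.d z S := by
  unfold d
  exact nodup76 hL (fun x hx => mem_inter.2 (h x hx))

theorem tl_pos76 {z x : V} (hx : x ∈ G.nb z) (hR : x ∈ R Fa) (hl : G.Low x) :
    1 ≤ G.tl Fa z := by
  unfold tl
  rw [Nat.one_le_iff_ne_zero, ← Nat.pos_iff_ne_zero, Finset.card_pos]
  exact ⟨x, mem_filter.2 ⟨mem_nR76.2 ⟨hx, hR⟩, hl⟩⟩

theorem tA_pos76 {z a b : V} (hx : a ∈ G.nb z) (hR : a ∈ R Fa) (h : G.HL a b z) :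
    1 ≤ G.tA Fa z := by
  unfold tA
  rw [Nat.one_le_iff_ne_zero, ← Nat.pos_iff_ne_zero, Finset.card_pos]
  refine ⟨a, ?_⟩
  simp only [mem_filter]
  exact ⟨mem_nR76.2 ⟨hx, hR⟩, b, h⟩

/-- the situation at a twin vertex outside of all neighbourhoods -/
structure At76 (G : CG V) (Fa : Finset (Finset V)) (v v' : V) : Prop where
  tor : G.TorsoU Fa
  ex : G.Exp0 Fa
  tw : G.Tw76 v v'
  vR : v ∈ R Fa
  vI : G.I Fa v = ∅

variable {v v' : V}

theorem At76.mate (h : G.At76 Fa v v') : v' ∈ R Fa ∧ G.I Fa v' = ∅ := by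
  obtain ⟨h1, h2⟩ := twI76 h.tor.reg h.vR h.tw
  exact ⟨h1, by rw [h2, h.vI]⟩

theorem At76.mem_R (h : G.At76 Fa v v') {x : V} (hx : x ∈ G.nb v) : x ∈ R Fa :=
  nb_R76 h.vR h.vI hx

/-- domination of the neighbours of `v` -/
theorem At76.dom (h : G.At76 Fa v v') {u : V} (hu : u ∈ G.nb v) (huv : u ≠ v') :
    (∃ w, G.Low w ∧ w ∈ G.nb v ∧ u ∈ G.nb w) ∨
    (∃ w w', G.Tw76 w w' ∧ w ∈ G.nb v ∧ w' ∈ G.nb v ∧ w ≠ v' ∧ w' ≠ v' ∧ u ∈ G.nb w ∧
      u ≠ w' ∧ u ∈ G.nb w') ∨
    (G.Low u ∧ ∃ a b, a ∈ G.nb v ∧ b ∈ G.nb v ∧ a ≠ v' ∧ ¬ G.Low a ∧ ¬ G.IsTw a ∧ G.Low b ∧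
      G.HL a b u) := by
  have h9 := h.tor.n9
  have hm : G.m Fa v u = 0 := by
    unfold m
    rw [h.vI, empty_inter, card_empty]
  rcases h.tor.cov v h.vR u (h.mem_R hu) hu hm with h1 | h1 | h1 | h1 | h1
  · obtain ⟨w, -, h2, h3, h4⟩ := h1
    exact Or.inl ⟨w, h2, G.sym _ _ h3, h4⟩
  · obtain ⟨w, -, w', -, h2, h3, h4, h5, h6⟩ := h1
    rw [tw_iff76] at h2
    have hwu : w ∈ G.nb v := G.sym _ _ h3
    have h7 : v ∈ G.nb w' := (h2.iff (nb_ne76 h3) h5).1 h3
    refine Or.inr (Or.inl ⟨w, w', h2, hwu, G.sym _ _ h7, ?_, ?_, h4, h6,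
      (h2.iff (nb_ne76 h4) h6).1 h4⟩)
    · rintro rfl
      exact h5 (mate76 h9 h2 h.tw.symm).symm
    · rintro rfl
      exact nb_ne76 h3 (mate76 h9 h.tw.symm h2.symm)
  · obtain ⟨a, -, b, -, h2, -, -⟩ := h1
    exact absurd (h.tor.sat a b v h2) h.tw.not_low
  · obtain ⟨a, -, b, -, h2, h3, h4⟩ := h1
    have hlu := h.tor.sat a b u h2
    obtain ⟨h5, h6⟩ := hl_iff76.1 h2
    have hva : v ∈ G.nb a := h5.mem_a h3 h4
    have h7 := notHL76 h9 h2
    refine Or.inr (Or.inr ⟨hlu, a, b, G.sym _ _ hva, G.sym _ _ h3, ?_, ?_, h7, h6, h2⟩)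
    · rintro rfl
      exact h7 (isTw_iff76.2 ⟨v, h.tw.symm⟩)
    · intro h8
      have h9' := h5.card h6
      have h10 : (G.nb a).card = 6 := h8
      omega
  · obtain ⟨a, -, b, -, h2⟩ := h1
    exact absurd (isTw_iff76.2 ⟨v', h.tw⟩) (twLL76 h2)

/-- common neighbours of `v` and a low vertex -/
theorem At76.c3 (h : G.At76 Fa v v') {l : V} (hl : G.Low l) (hlv : l ∈ G.nb v) :
    ((G.nb l ∩ G.nb v).erase v').card ≤ 3 ∧
      (((G.nb l ∩ G.nb v).erase v').card = 3 → ∃ B, G.I Fa l = {B}) := by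
  have hvl : v ∈ G.nb l := G.sym _ _ hlv
  have hv'l : v' ∈ G.nb l :=
    G.sym _ _ ((h.tw.iff (h.tw.ne_low hl) (h.tw.ne_low' hl)).1 hlv)
  have hv'm : v' ∈ G.nb l ∩ G.nb v := mem_inter.2 ⟨hv'l, h.tw.adj⟩
  have hcard := card_erase_of_mem hv'm
  have hlR := h.mem_R hlv
  have hpos : 0 < (G.nb l ∩ G.nb v).card := Finset.card_pos.2 ⟨v', hv'm⟩
  by_cases hI : G.I Fa l = ∅
  · have h1 := h.ex.e4 l hlR v h.vR hI h.vI hl (isTw_iff76.2 ⟨v', h.tw⟩) hlv
    omega
  -- hidden neighbours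
  have hsub : ∀ HH : Finset V, HH ⊆ G.nb l → (∀ x ∈ HH, x ∉ R Fa) →
      ((G.nb l ∩ G.nb v).erase v').card + 2 + HH.card ≤ 6 := by
    intro HH h1 h2
    have h3 : insert v (insert v' (((G.nb l ∩ G.nb v).erase v') ∪ HH)) ⊆ G.nb l := by
      intro x hx
      rw [mem_insert, mem_insert, mem_union, mem_erase, mem_inter] at hx
      rcases hx with rfl | rfl | hx | hx
      · exact hvl
      · exact hv'l
      · exact hx.2.1
      · exact h1 hx
    have h4 := card_le_card h3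
    have h5 : Disjoint ((G.nb l ∩ G.nb v).erase v') HH := by
      rw [disjoint_left]
      intro x hx hx'
      rw [mem_erase, mem_inter] at hx
      exact h2 x hx' (h.mem_R hx.2.2)
    rw [card_insert_of_notMem, card_insert_of_notMem, card_union_of_disjoint h5] at h4
    · have h6 : (G.nb l).card = 6 := hl
      omega
    · rw [mem_union, mem_erase]
      rintro (h6 | h6)
      · exact h6.1 rfl
      · exact h2 v' h6 h.mate.1
    · rw [mem_insert, mem_union, mem_erase, mem_inter]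
      rintro (h6 | h6 | h6)
      · exact h.tw.ne h6
      · exact G.irr _ h6.2.2
      · exact h2 v h6 h.vR
  obtain ⟨B, hB⟩ := nonempty_iff_ne_empty.2 hI
  obtain ⟨hBF, hlB⟩ := mem_I76.1 hB
  obtain ⟨b, hb, hbl⟩ := nbr_in37 hlB
  have hbR : b ∉ R Fa := fun hh => mem_R76.1 hh B hBF hb
  constructor
  · have h1 := hsub {b} (by rw [singleton_subset_iff]; exact hbl)
      (by intro x hx; rw [mem_singleton] at hx; rw [hx]; exact hbR)
    rw [card_singleton] at h1
    omega
  · intro h3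
    refine ⟨B, ?_⟩
    ext B2
    rw [mem_singleton]
    constructor
    · intro hB2
      by_contra hne
      obtain ⟨hB2F, hlB2⟩ := mem_I76.1 hB2
      obtain ⟨b2, hb2, hb2l⟩ := nbr_in37 hlB2
      have hbb : b ≠ b2 := by
        rintro rfl
        exact (disjoint_left.1 (h.tor.reg.dis B hBF B2 hB2F (Ne.symm hne)).1) hb hb2
      have h1 := hsub {b, b2} (by
        intro x hx
        rw [mem_insert, mem_singleton] at hx
        rcases hx with rfl | rfl
        · exact hbl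
        · exact hb2l) (by
        intro x hx
        rw [mem_insert, mem_singleton] at hx
        rcases hx with rfl | rfl
        · exact hbR
        · exact fun hh => mem_R76.1 hh B2 hB2F hb2)
      rw [card_pair hbb] at h1
      omega
    · rintro rfl
      exact hB

/-- common neighbours of `v` and a twin vertex -/
theorem At76.c2 (h : G.At76 Fa v v') {p p' : V} (t : G.Tw76 p p') (hp : p ∈ G.nb v)
    (hpv : p ≠ v') :
    (((G.nb p ∩ G.nb v).erase v').erase p').card ≤ 2 ∧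
      ((((G.nb p ∩ G.nb v).erase v').erase p').card = 2 → ∃ B, G.I Fa p = {B} ∧
        ∀ z ∈ G.nb p, z ∈ G.Co B → z = v ∨ z = v' ∨ (z ∈ G.nb v ∧ z ≠ v' ∧ z ≠ p')) := by
  have h9 := h.tor.n9
  obtain ⟨hp', hp'v', hp'v⟩ := tw_mem76 h9 h.tw t hp hpv
  have hpne : p ≠ v := nb_ne76 hp
  have hvp : v ∈ G.nb p := G.sym _ _ hp
  have hv'p : v' ∈ G.nb p := G.sym _ _ ((h.tw.iff hpne hpv).1 hp)
  have hpR := h.mem_R hp
  have hp'R := h.mem_R hp'
  by_cases hI : G.I Fa p = ∅
  · have h1 := h.ex.e5 p hpR v h.vR hI h.vI (isTw_iff76.2 ⟨p', t⟩) (isTw_iff76.2 ⟨v', h.tw⟩) hp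
      (by
        intro hh
        exact hpv (mate76 h9 h.tw (tw_iff76.1 hh)).symm)
    have h2 : insert v' (insert p' (((G.nb p ∩ G.nb v).erase v').erase p')) ⊆
        G.nb p ∩ G.nb v := by
      intro x hx
      rw [mem_insert, mem_insert, mem_erase, mem_erase] at hx
      rcases hx with rfl | rfl | hx
      · exact mem_inter.2 ⟨hv'p, h.tw.adj⟩
      · exact mem_inter.2 ⟨t.adj, hp'⟩
      · exact hx.2.2
    have h3 := card_le_card h2
    rw [card_insert_of_notMem, card_insert_of_notMem] at h3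
    · constructor
      · omega
      · intro h4
        omega
    · rw [mem_erase]
      exact fun hh => hh.1 rfl
    · rw [mem_insert, mem_erase, mem_erase]
      rintro (h4 | h4)
      · exact hp'v' h4.symm
      · exact h4.2.1 rfl
  have hsub : ∀ HH : Finset V, HH ⊆ G.nb p → (∀ x ∈ HH, x ∉ R Fa) →
      (((G.nb p ∩ G.nb v).erase v').erase p').card + 3 + HH.card ≤ 7 ∧
      ((((G.nb p ∩ G.nb v).erase v').erase p').card + 3 + HH.card = 7 →
        insert v (insert v' (insert p' ((((G.nb p ∩ G.nb v).erase v').erase p') ∪ HH))) =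
          G.nb p) := by
    intro HH h1 h2
    have h3 : insert v (insert v' (insert p' ((((G.nb p ∩ G.nb v).erase v').erase p') ∪
        HH))) ⊆ G.nb p := by
      intro x hx
      rw [mem_insert, mem_insert, mem_insert, mem_union, mem_erase, mem_erase, mem_inter] at hx
      rcases hx with rfl | rfl | rfl | hx | hx
      · exact hvp
      · exact hv'p
      · exact t.adj
      · exact hx.2.2.1
      · exact h1 hx
    have h4 := card_le_card h3
    have h5 : Disjoint (((G.nb p ∩ G.nb v).erase v').erase p') HH := by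
      rw [disjoint_left]
      intro x hx hx'
      rw [mem_erase, mem_erase, mem_inter] at hx
      exact h2 x hx' (h.mem_R hx.2.2.2)
    have hc : (insert v (insert v' (insert p' ((((G.nb p ∩ G.nb v).erase v').erase p') ∪
        HH)))).card = (((G.nb p ∩ G.nb v).erase v').erase p').card + HH.card + 3 := by
      rw [card_insert_of_notMem, card_insert_of_notMem, card_insert_of_notMem,
        card_union_of_disjoint h5]
      · rw [mem_union, mem_erase]
        rintro (h6 | h6)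
        · exact h6.1 rfl
        · exact h2 p' h6 hp'R
      · rw [mem_insert, mem_union, mem_erase, mem_erase]
        rintro (h6 | h6 | h6)
        · exact hp'v' h6.symm
        · exact h6.2.1 rfl
        · exact h2 v' h6 h.mate.1
      · rw [mem_insert, mem_insert, mem_union, mem_erase, mem_erase, mem_inter]
        rintro (h6 | h6 | h6 | h6)
        · exact h.tw.ne h6
        · exact hp'v h6.symm
        · exact G.irr _ h6.2.2.2
        · exact h2 v h6 h.vR
    have hd : (G.nb p).card = 7 := t.deg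
    refine ⟨by omega, fun h6 => ?_⟩
    apply eq_of_subset_of_card_le h3
    omega
  obtain ⟨B, hB⟩ := nonempty_iff_ne_empty.2 hI
  obtain ⟨hBF, hlB⟩ := mem_I76.1 hB
  have hid := (stTwHL_76 G).hid Fa h.tor.reg h.tor.big p hpR (isTw_iff76.2 ⟨p', t⟩)
  have hB2 := hid B hB
  have hs := hsub (G.nb p ∩ B) inter_subset_left (by
    intro x hx hxR
    exact mem_R76.1 hxR B hBF (mem_inter.1 hx).2)
  have hdB : G.d p B = (G.nb p ∩ B).card := rfl
  constructor
  · omega
  · intro h3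
    refine ⟨B, ?_, ?_⟩
    · ext B2
      rw [mem_singleton]
      constructor
      · intro hB2'
        by_contra hne
        obtain ⟨hB2F, hlB2⟩ := mem_I76.1 hB2'
        have hB3 := hid B2 hB2'
        have hdB2 : G.d p B2 = (G.nb p ∩ B2).card := rfl
        have h1 := (hsub (G.nb p ∩ B ∪ G.nb p ∩ B2)
          (union_subset inter_subset_left inter_subset_left) (by
          intro x hx hxR
          rcases mem_union.1 hx with h4 | h4
          · exact mem_R76.1 hxR B hBF (mem_inter.1 h4).2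
          · exact mem_R76.1 hxR B2 hB2F (mem_inter.1 h4).2)).1
        rw [card_union_of_disjoint] at h1
        · omega
        · rw [disjoint_left]
          intro x hx hx'
          exact (disjoint_left.1 (h.tor.reg.dis B hBF B2 hB2F (Ne.symm hne)).1)
            (mem_inter.1 hx).2 (mem_inter.1 hx').2
      · rintro rfl
        exact hB
    · intro z hz hzC
      have h4 := hs.2 (by omega)
      rw [← h4, mem_insert, mem_insert, mem_insert, mem_union, mem_erase, mem_erase,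
        mem_inter] at hz
      rcases hz with h5 | h5 | h5 | h5 | h5
      · exact Or.inl h5
      · exact Or.inr (Or.inl h5)
      · exfalso
        -- `p'` lies in `N B`
        have h6 := (twI76 h.tor.reg hpR t).2
        have h7 : B ∈ G.I Fa p' := by rw [h6]; exact hB
        rw [h5] at hzC
        exact (mem_Co37.1 hzC).2 (mem_I76.1 h7).2
      · exact Or.inr (Or.inr ⟨h5.2.2.2, h5.2.1, h5.1⟩)
      · exact absurd (mem_inter.1 h5).2 (mem_Co37.1 hzC).1

end

end CG

end Pool.Agent.Lib.MP_e95c01_co.N
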