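import Pool.Agent.Lib.MP_e95c01_co.U.NeedyA76

/-!
# U11, part B: a twin vertex `v` with `I v = ∅` sees two lows
-/

namespace Pool.Agent.Lib.MP_e95c01_co.N

open Finset

variable {V : Type} [Fintype V] [DecidableEq V]

namespace CG

/-- a twin vertex outside of all neighbourhoods sees two lows -/
theorem At76.two {G : CG V} {Fa : Finset (Finset V)} {u v : V} (hat : G.At76 Fa u v) :
    ∃ b b', b ≠ b' ∧ G.Low b ∧ G.Low b' ∧ b ∈ G.nb u ∧ b' ∈ G.nb u := by
  by_contra hcon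
  push Not at hcon
  have h9 : 9 ≤ Fintype.card V := hat.tor.n9
  have h := hat.tw
  have huniq : ∀ b b', G.Low b → G.Low b' → b ∈ G.nb u → b' ∈ G.nb u → b = b' := by
    intro b b' h1 h2 h3 h4
    by_contra hne
    exact hcon b b' hne h1 h2 h3 h4
  have hScard : ((G.nb u).erase v).card = 6 := by
    rw [card_erase_of_mem h.adj, h.deg]
  -- domination
  have hdom : ∀ s ∈ G.nb u, s ≠ v →
      (∃ w, G.Low w ∧ w ∈ G.nb u ∧ s ∈ G.nb w) ∨
      (∃ w w', G.Tw76 w w' ∧ w ∈ G.nb u ∧ w' ∈ G.nb u ∧ w ≠ v ∧ w' ≠ v ∧ s ∈ G.nb w ∧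
        s ≠ w' ∧ s ∈ G.nb w') := by
    intro s hsu hsv
    rcases hat.dom hsu hsv with h1 | h1 | h1
    · exact Or.inl h1
    · exact Or.inr h1
    · obtain ⟨h2, a, b, h3, h4, h5, h6, -, h7, h8⟩ := h1
      exact absurd (huniq s b h2 h7 hsu h4) (hl_iff76.1 h8).1.tb
  -- three vertices in the common neighbourhood of a twin vertex
  have hc2 : ∀ w w', G.Tw76 w w' → w ∈ G.nb u → w ≠ v → ∀ a b c : V,
      a ∈ G.nb w → a ∈ G.nb u → a ≠ v → a ≠ w' → b ∈ G.nb w → b ∈ G.nb u → b ≠ v → b ≠ w' →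
      c ∈ G.nb w → c ∈ G.nb u → c ≠ v → c ≠ w' → a ≠ b → a ≠ c → b ≠ c → False := by
    intro w w' hw hwu hwv a b c a1 a2 a3 a4 b1 b2 b3 b4 c1 c2 c3 c4 hab hac hbc
    have h1 : ([a, b, c] : List V).Nodup := by simp [hab, hac, hbc]
    have h2 := nodup76 (s := ((G.nb w ∩ G.nb u).erase v).erase w') h1 (by
      intro x hx
      simp only [List.mem_cons, List.not_mem_nil, or_false] at hx
      rw [mem_erase, mem_erase, mem_inter]
      rcases hx with rfl | rfl | rfl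
      · exact ⟨a4, a3, a1, a2⟩
      · exact ⟨b4, b3, b1, b2⟩
      · exact ⟨c4, c3, c1, c2⟩)
    have h3 := (hat.c2 hw hwu hwv).1
    simp only [List.length_cons, List.length_nil] at h2
    omega
  by_cases ht : ∃ l, G.Low l ∧ l ∈ G.nb u
  · obtain ⟨l, hl, hlu⟩ := ht
    have hlv : l ≠ v := h.ne_low' hl
    rcases hdom l hlu hlv with h1 | h1
    · obtain ⟨w, h2, h3, h4⟩ := h1
      rw [huniq w l h2 hl h3 hlu] at h4
      exact G.irr _ h4
    obtain ⟨w1, w1', t1, a1, a2, a3, a4, a5, a6, a7⟩ := h1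
    have hCl := (hat.c3 hl hlu).1
    have hCw := (hat.c2 t1 a1 a3).1
    have hex : ∃ s ∈ (G.nb u).erase v, s ∉ (G.nb l ∩ G.nb u).erase v ∪
        ((G.nb w1 ∩ G.nb u).erase v).erase w1' := by
      by_contra hcon'
      push Not at hcon'
      have h5 := (card_le_card hcon').trans (card_union_le _ _)
      omega
    obtain ⟨s, hsS, hs'⟩ := hex
    rw [mem_erase] at hsS
    rw [mem_union, not_or, mem_erase, mem_inter, mem_erase, mem_erase, mem_inter] at hs'
    have hsl : s ∉ G.nb l := fun h1 => hs'.1 ⟨hsS.1, h1, hsS.2⟩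
    have hsw1 : s ≠ w1 := by
      rintro rfl
      exact hsl (G.sym _ _ a5)
    have hsw1' : s ≠ w1' := by
      rintro rfl
      exact hsl (G.sym _ _ a7)
    have hsnw : s ∉ G.nb w1 := fun h1 => hs'.2 ⟨hsw1', hsS.1, h1, hsS.2⟩
    rcases hdom s hsS.2 hsS.1 with h1 | h1
    · obtain ⟨w, h2, h3, h4⟩ := h1
      rw [huniq w l h2 hl h3 hlu] at h4
      exact hsl h4
    obtain ⟨w2, w2', t2, b1, b2, b3, b4, b5, b6, b7⟩ := h1
    have n1 : w2 ≠ w1 := by
      rintro rfl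
      exact hsnw b5
    have n2 : w2 ≠ w1' := by
      rintro rfl
      exact hsnw ((t1.iff hsw1 hsw1').2 b5)
    have n3 : w2' ≠ w1 := by
      rintro rfl
      exact hsnw b7
    have n4 : w2' ≠ w1' := by
      rintro rfl
      exact hsnw ((t1.iff hsw1 hsw1').2 b7)
    have lw1 : l ≠ w1 := t1.ne_low hl
    have lw1' : l ≠ w1' := t1.ne_low' hl
    have lw2 : l ≠ w2 := t2.ne_low hl
    have lw2' : l ≠ w2' := t2.ne_low' hl
    rcases hdom w2 b1 b3 with h1 | h1
    · obtain ⟨w, h2, h3, h4⟩ := h1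
      rw [huniq w l h2 hl h3 hlu] at h4
      have h5 : w2' ∈ G.nb l := G.sym _ _ ((t2.iff lw2 lw2').1 (G.sym _ _ h4))
      have h6 : ([w1, w1', w2, w2'] : List V).Nodup := by
        simp [t1.ne, n1.symm, n3.symm, n2.symm, n4.symm, t2.ne]
      have h7 := nodup76 (s := (G.nb l ∩ G.nb u).erase v) h6 (by
        intro x hx
        simp only [List.mem_cons, List.not_mem_nil, or_false] at hx
        rw [mem_erase, mem_inter]
        rcases hx with rfl | rfl | rfl | rfl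
        · exact ⟨a3, G.sym _ _ a5, a1⟩
        · exact ⟨a4, G.sym _ _ a7, a2⟩
        · exact ⟨b3, h4, b1⟩
        · exact ⟨b4, h5, b2⟩)
      simp only [List.length_cons, List.length_nil] at h7
      omega
    obtain ⟨w3, w3', t3, c1, c2, c3, c4, c5, c6, c7⟩ := h1
    -- `w2 ∈ nb w3`
    have m1 : w3 ≠ w2 := (nb_ne76 c5).symm
    have m2 : w3 ≠ w2' := by
      rintro rfl
      exact c6 (mate76 h9 t2.symm t3)
    have m3 : w3' ≠ w2 := c6.symm
    have m4 : w3' ≠ w2' := by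
      rintro rfl
      exact m1 (mate76 h9 t2.symm t3.symm).symm
    by_cases hp : w3 = w1 ∨ w3 = w1'
    · have h2 : w2 ∈ G.nb w1 := by
        rcases hp with hp | hp
        · rw [← hp]; exact c5
        · rw [hp] at c5
          exact (t1.iff n1 n2).2 c5
      have h3 : w2' ∈ G.nb w1 :=
        G.sym _ _ ((t2.iff n1.symm n3.symm).1 (G.sym _ _ h2))
      exact hc2 w1 w1' t1 a1 a3 l w2 w2' a5 hlu hlv lw1' h2 b1 b3 n2 h3 b2 b4 n4 lw2 lw2' t2.ne
    · rw [not_or] at hp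
      have m5 : w3' ≠ w1 := by
        rintro rfl
        exact hp.2 (mate76 h9 t1 t3.symm).symm
      have m6 : w3' ≠ w1' := by
        rintro rfl
        exact hp.1 (mate76 h9 t1.symm t3.symm).symm
      have lw3 : l ≠ w3 := t3.ne_low hl
      have lw3' : l ≠ w3' := t3.ne_low' hl
      have h6 : ([l, w1, w1', w2, w2', w3, w3'] : List V).Nodup := by
        simp [lw1, lw1', lw2, lw2', lw3, lw3', t1.ne, n1.symm, n3.symm, m5.symm, n2.symm,
          n4.symm, m6.symm, t2.ne, m1.symm, m3.symm, m2.symm, m4.symm, t3.ne, Ne.symm hp.1,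
          Ne.symm hp.2]
      have h7 := nodup76 (s := (G.nb u).erase v) h6 (by
        intro x hx
        simp only [List.mem_cons, List.not_mem_nil, or_false] at hx
        rw [mem_erase]
        rcases hx with rfl | rfl | rfl | rfl | rfl | rfl | rfl
        · exact ⟨hlv, hlu⟩
        · exact ⟨a3, a1⟩
        · exact ⟨a4, a2⟩
        · exact ⟨b3, b1⟩
        · exact ⟨b4, b2⟩
        · exact ⟨c3, c1⟩
        · exact ⟨c4, c2⟩)
      simp only [List.length_cons, List.length_nil] at h7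
      omega
  · push Not at ht
    have hdom' : ∀ s ∈ G.nb u, s ≠ v →
      (∃ w w', G.Tw76 w w' ∧ w ∈ G.nb u ∧ w' ∈ G.nb u ∧ w ≠ v ∧ w' ≠ v ∧ s ∈ G.nb w ∧
        s ≠ w' ∧ s ∈ G.nb w') := by
      intro s h1 h2
      rcases hdom s h1 h2 with h3 | h3
      · obtain ⟨w, h4, h5, -⟩ := h3
        exact absurd h5 (ht w h4)
      · exact h3
    -- dominators of dominators
    have step : ∀ s ∈ G.nb u, s ≠ v → ∃ w w' s', G.Tw76 w w' ∧ G.Tw76 s s' ∧ w ∈ G.nb u ∧
        w' ∈ G.nb u ∧ w ≠ v ∧ w' ≠ v ∧ s' ∈ G.nb u ∧ s' ≠ v ∧ s ∈ G.nb w ∧ s ∈ G.nb w' ∧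
        s' ∈ G.nb w ∧ s' ∈ G.nb w' := by
      intro s h1 h2
      obtain ⟨w, w', t1, a1, a2, a3, a4, a5, a6, a7⟩ := hdom' s h1 h2
      obtain ⟨x, x', t2, b1, b2, b3, b4, b5, b6, b7⟩ := hdom' w a1 a3
      have m1 : x' ≠ w' := by
        rintro rfl
        exact nb_ne76 b5 (mate76 h9 t1.symm t2.symm)
      have m2 : x ≠ w' := by
        rintro rfl
        exact b6 (mate76 h9 t1.symm t2)
      by_cases h3 : s = x
      · subst h3
        exact ⟨w, w', x', t1, t2, a1, a2, a3, a4, b2, b4, a5, a7, G.sym _ _ b7,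
          G.sym _ _ ((t1.iff b6.symm m1).1 (G.sym _ _ b7) |> fun h => G.sym _ _ h)⟩
      by_cases h4 : s = x'
      · subst h4
        exact ⟨w, w', x, t1, t2.symm, a1, a2, a3, a4, b1, b3, a5, a7, G.sym _ _ b5,
          G.sym _ _ ((t1.iff (nb_ne76 b5).symm m2).1 (G.sym _ _ b5) |> fun h => G.sym _ _ h)⟩
      exact (hc2 w w' t1 a1 a3 s x x' a5 h1 h2 a6 (G.sym _ _ b5) b1 b3 m2 (G.sym _ _ b7) b2 b4
        m1 h3 h4 t2.ne).elim
    have h1 : ((G.nb u).erase v).Nonempty := by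
      rw [← Finset.card_pos]; omega
    obtain ⟨s, hs1⟩ := h1
    rw [mem_erase] at hs1
    obtain ⟨w, w', s', t1, t2, a1, a2, a3, a4, a5, a6, a7, a8, a9, a10⟩ := step s hs1.2 hs1.1
    have hex : ∃ x ∈ (G.nb u).erase v, x ∉ ({w, w', s, s'} : Finset V) := by
      by_contra hcon'
      push Not at hcon'
      have h5 := (card_le_card hcon').trans card_le_four
      omega
    obtain ⟨x, hx1, hx2⟩ := hex
    rw [mem_erase] at hx1
    simp only [mem_insert, mem_singleton, not_or] at hx2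
    obtain ⟨xw, xw', xs, xs'⟩ := hx2
    obtain ⟨y, y', x', t3, t4, b1, b2, b3, b4, b5, b6, b7, b8, b9, b10⟩ := step x hx1.2 hx1.1
    have sw : s ≠ w := nb_ne76 a7
    have sw' : s ≠ w' := nb_ne76 a8
    have s'w : s' ≠ w := nb_ne76 a9
    have s'w' : s' ≠ w' := nb_ne76 a10
    -- `x` is not adjacent to `w`, `s`
    have e1 : x ∉ G.nb w := fun h3 =>
      hc2 w w' t1 a1 a3 x s s' h3 hx1.2 hx1.1 xw' a7 hs1.2 hs1.1 sw' a9 a5 a6 s'w' xs xs' t2.ne
    have e2 : x ∉ G.nb s := fun h3 =>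
      hc2 s s' t2 hs1.2 hs1.1 x w w' h3 hx1.2 hx1.1 xs' (G.sym _ _ a7) a1 a3 s'w.symm
        (G.sym _ _ a8) a2 a4 s'w'.symm xw xw' t1.ne
    have e3 : x ∉ G.nb w' := fun h3 => e1 ((t1.iff xw xw').2 h3)
    have e4 : x ∉ G.nb s' := fun h3 => e2 ((t2.iff xs xs').2 h3)
    have yw : y ≠ w := by rintro rfl; exact e1 b7
    have yw' : y ≠ w' := by rintro rfl; exact e3 b7
    have ys : y ≠ s := by rintro rfl; exact e2 b7
    have ys' : y ≠ s' := by rintro rfl; exact e4 b7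
    have y'w : y' ≠ w := by rintro rfl; exact e1 b8
    have y'w' : y' ≠ w' := by rintro rfl; exact e3 b8
    have y's : y' ≠ s := by rintro rfl; exact e2 b8
    have y's' : y' ≠ s' := by rintro rfl; exact e4 b8
    have xy : x ≠ y := nb_ne76 b7
    have xy' : x ≠ y' := nb_ne76 b8
    have h6 : ([w, w', s, s', x, y, y'] : List V).Nodup := by
      simp [t1.ne, sw.symm, s'w.symm, sw'.symm, s'w'.symm, t2.ne, Ne.symm xw, Ne.symm xw',
        Ne.symm xs, Ne.symm xs', yw.symm, yw'.symm, ys.symm, ys'.symm, y'w.symm, y'w'.symm,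
        y's.symm, y's'.symm, xy, xy', t3.ne]
    have h7 := nodup76 (s := (G.nb u).erase v) h6 (by
      intro z hz
      simp only [List.mem_cons, List.not_mem_nil, or_false] at hz
      rw [mem_erase]
      rcases hz with rfl | rfl | rfl | rfl | rfl | rfl | rfl
      · exact ⟨a3, a1⟩
      · exact ⟨a4, a2⟩
      · exact ⟨hs1.1, hs1.2⟩
      · exact ⟨a6, a5⟩
      · exact ⟨hx1.1, hx1.2⟩
      · exact ⟨b3, b1⟩
      · exact ⟨b4, b2⟩)
    simp only [List.length_cons, List.length_nil] at h7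
    omega

end CG

end Pool.Agent.Lib.MP_e95c01_co.N
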