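import Pool.Agent.Lib.MP_e95c01_co.U.NeedyB76

/-!
# U11, part C: payments; two lows and no further twins; three lows
-/

namespace Pool.Agent.Lib.MP_e95c01_co.N

open Finset

variable {V : Type} [Fintype V] [DecidableEq V]

namespace CG

section

variable {G : CG V} {Fa : Finset (Finset V)} {v v' : V}

/-- lower bound for the charge of a low neighbour of `v` -/
theorem At76.lowge (h : G.At76 Fa v v') (hch : G.StCh4) {l : V} (hl : G.Low l)
    (hlv : l ∈ G.nb v) {B : Finset V} (hI : G.I Fa l = {B}) (X : Finset V)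
    (hX : ∀ x ∈ X, x ∈ G.nb l ∧ x ∈ G.nb v ∧ x ≠ v' ∧ x ∈ G.Co B) :
    2 * ((X.card : ℤ) + (G.tl Fa l : ℤ) + (G.tA Fa l : ℤ) - 1) ≤ G.ch4 Fa l := by
  have hlR := h.mem_R hlv
  have h1 := ((hch h.tor.n9 Fa h.tor.reg l hlR).1 hl).2.1 B hI
  have hBF := (sing_I76 hI).1
  have hvl : v ∈ G.nb l := G.sym _ _ hlv
  have hv'l : v' ∈ G.nb l :=
    G.sym _ _ ((h.tw.iff (h.tw.ne_low hl) (h.tw.ne_low' hl)).1 hlv)
  have h2 : insert v (insert v' X) ⊆ G.nb l ∩ G.Co B := by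
    intro x hx
    rw [mem_insert, mem_insert] at hx
    rw [mem_inter]
    rcases hx with rfl | rfl | hx
    · exact ⟨hvl, co_of_emp76 h.vR hBF h.vI⟩
    · exact ⟨hv'l, co_of_emp76 h.mate.1 hBF h.mate.2⟩
    · exact ⟨(hX x hx).1, (hX x hx).2.2.2⟩
  have h3 := card_le_card h2
  rw [card_insert_of_notMem, card_insert_of_notMem] at h3
  · have h4 : G.d l (G.Co B) = (G.nb l ∩ G.Co B).card := rfl
    omega
  · exact fun hh => (hX v' hh).2.2.1 rfl
  · rw [mem_insert]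
    rintro (hh | hh)
    · exact h.tw.ne hh
    · exact G.irr _ (hX v hh).2.1

open Classical in
theorem At76.qual_ge (h : G.At76 Fa v v') (hn : G.Needy Fa v) (X : Finset V)
    (hX : ∀ x ∈ X, x ∈ G.nb v ∧ G.Hub x ∧ G.I Fa x ≠ ∅) :
    X.card ≤ (univ.filter fun x => G.Qual Fa x v).card := by
  have _ := h
  apply card_le_card
  intro x hx
  rw [mem_filter]
  obtain ⟨h1, h2, h3⟩ := hX x hx
  exact ⟨mem_univ _, hn, h2, h1, Or.inl h3⟩

open Classical in
theorem At76.pl_one (h : G.At76 Fa v v') (hpos : ∀ z ∈ R Fa, G.Low z → 0 ≤ G.ch4 Fa z)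
    {l : V} (hl : G.PL Fa l v) :
    G.ch4 Fa l ≤ ∑ l ∈ univ.filter (fun l => G.PL Fa l v), G.ch4 Fa l := by
  apply single_le_sum (f := fun l => G.ch4 Fa l)
  · intro x hx
    rw [mem_filter] at hx
    exact hpos x (h.mem_R hx.2.2.2.1) hx.2.2.1
  · rw [mem_filter]
    exact ⟨mem_univ _, hl⟩

open Classical in
theorem At76.pl_two (h : G.At76 Fa v v') (hpos : ∀ z ∈ R Fa, G.Low z → 0 ≤ G.ch4 Fa z)
    {l l' : V} (hne : l ≠ l') (hl : G.PL Fa l v) (hl' : G.PL Fa l' v) :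
    G.ch4 Fa l + G.ch4 Fa l' ≤ ∑ l ∈ univ.filter (fun l => G.PL Fa l v), G.ch4 Fa l := by
  rw [← sum_pair hne]
  apply sum_le_sum_of_subset_of_nonneg
  · intro x hx
    rw [mem_filter]
    rw [mem_insert, mem_singleton] at hx
    rcases hx with rfl | rfl
    · exact ⟨mem_univ _, hl⟩
    · exact ⟨mem_univ _, hl'⟩
  · intro x hx _
    rw [mem_filter] at hx
    exact hpos x (h.mem_R hx.2.2.2.1) hx.2.2.1

open Classical in
theorem At76.pl_nonneg (h : G.At76 Fa v v') (hpos : ∀ z ∈ R Fa, G.Low z → 0 ≤ G.ch4 Fa z) :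
    0 ≤ ∑ l ∈ univ.filter (fun l => G.PL Fa l v), G.ch4 Fa l := by
  apply sum_nonneg
  intro x hx
  rw [mem_filter] at hx
  exact hpos x (h.mem_R hx.2.2.2.1) hx.2.2.1

/-- a low vertex with three common neighbours with `v` (apart from `v'`) pays -/
theorem At76.pl_of (h : G.At76 Fa v v') (hn : G.Needy Fa v) {l : V} (hl : G.Low l)
    (hlv : l ∈ G.nb v) (hI : G.I Fa l ≠ ∅) (h2 : 2 ≤ ((G.nb l ∩ G.nb v).erase v').card) :
    G.PL Fa l v := by
  refine ⟨hn, hl, hlv, hI, ?_⟩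
  have hv'l : v' ∈ G.nb l :=
    G.sym _ _ ((h.tw.iff (h.tw.ne_low hl) (h.tw.ne_low' hl)).1 hlv)
  have h3 := card_erase_of_mem (mem_inter.2 ⟨hv'l, h.tw.adj⟩)
  omega

open Classical in
/-- two lows with `|C| = 3` that dominate four hubs -/
theorem At76.ty20 (h : G.At76 Fa v v') (hch : G.StCh4) (hn : G.Needy Fa v)
    (hpos : ∀ z ∈ R Fa, G.Low z → 0 ≤ G.ch4 Fa z) {l1 l2 : V} (hne : l1 ≠ l2)
    (L1 : G.Low l1) (L2 : G.Low l2) (m1 : l1 ∈ G.nb v) (m2 : l2 ∈ G.nb v)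
    (honly : ∀ b ∈ G.nb v, G.Low b → b = l1 ∨ b = l2)
    (hnt : ∀ q ∈ G.nb v, G.IsTw q → q = v') :
    8 ≤ 2 * ((univ.filter fun x => G.Qual Fa x v).card : ℤ) +
      ∑ l ∈ univ.filter (fun l => G.PL Fa l v), G.ch4 Fa l := by
  have h9 := h.tor.n9
  set H := ((G.nb v).erase v') \ {l1, l2} with hH
  have hHcard : H.card = 4 := by
    have e1 : ({l1, l2} : Finset V) ⊆ (G.nb v).erase v' := by
      intro z hz
      rw [mem_insert, mem_singleton] at hz
      rw [mem_erase]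
      rcases hz with rfl | rfl
      · exact ⟨h.tw.ne_low' L1, m1⟩
      · exact ⟨h.tw.ne_low' L2, m2⟩
    have e2 := card_sdiff_add_card_eq_card e1
    rw [← hH, card_pair hne, card_erase_of_mem h.tw.adj, h.tw.deg] at e2
    omega
  have hHm : ∀ x ∈ H, x ∈ G.nb v ∧ x ≠ v' ∧ x ≠ l1 ∧ x ≠ l2 ∧ G.Hub x := by
    intro x hx
    rw [hH, mem_sdiff, mem_erase, mem_insert, mem_singleton, not_or] at hx
    refine ⟨hx.1.2, hx.1.1, hx.2.1, hx.2.2, ?_, ?_⟩
    · intro hl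
      rcases honly x hx.1.2 hl with hh | hh
      · exact hx.2.1 hh
      · exact hx.2.2 hh
    · intro ht
      exact hx.1.1 (hnt x hx.1.2 ht)
  have hdomH : ∀ x ∈ H, x ∈ G.nb l1 ∨ x ∈ G.nb l2 := by
    intro x hx
    obtain ⟨e1, e2, e3, e4, e5⟩ := hHm x hx
    rcases h.dom e1 e2 with h1 | h1 | h1
    · obtain ⟨w, h2, h3, h4⟩ := h1
      rcases honly w h3 h2 with hh | hh
      · rw [hh] at h4; exact Or.inl h4
      · rw [hh] at h4; exact Or.inr h4
    · obtain ⟨w, w', t, h3, -, h4, -⟩ := h1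
      exact absurd (hnt w h3 (isTw_iff76.2 ⟨w', t⟩)) h4
    · exact absurd h1.1 e5.1
  have hsub : ∀ l : V, G.nb l ∩ H ⊆ (G.nb l ∩ G.nb v).erase v' := by
    intro l x hx
    rw [mem_inter] at hx
    obtain ⟨e1, e2, -⟩ := hHm x hx.2
    exact mem_erase.2 ⟨e2, mem_inter.2 ⟨hx.1, e1⟩⟩
  have hun : H ⊆ (G.nb l1 ∩ H) ∪ (G.nb l2 ∩ H) := by
    intro x hx
    rw [mem_union, mem_inter, mem_inter]
    rcases hdomH x hx with h1 | h1
    · exact Or.inl ⟨h1, hx⟩
    · exact Or.inr ⟨h1, hx⟩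
  have hc1 := card_le_card hun
  have hc2 := card_union_add_card_inter (G.nb l1 ∩ H) (G.nb l2 ∩ H)
  have c1 := h.c3 L1 m1
  have c2 := h.c3 L2 m2
  have s1 := card_le_card (hsub l1)
  have s2 := card_le_card (hsub l2)
  -- both lows have three common neighbours and `tl + tA ≥ 1`
  have key : ((G.nb l1 ∩ G.nb v).erase v').card = 3 ∧ ((G.nb l2 ∩ G.nb v).erase v').card = 3 ∧
      1 ≤ G.tl Fa l1 + G.tA Fa l1 ∧ 1 ≤ G.tl Fa l2 + G.tA Fa l2 := by
    have hl1H : l1 ∉ H := fun hh => (hHm l1 hh).2.2.1 rfl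
    have hl2H : l2 ∉ H := fun hh => (hHm l2 hh).2.2.2.1 rfl
    by_cases hadj : l2 ∈ G.nb l1
    · have hadj' := G.sym _ _ hadj
      have i1 : insert l2 (G.nb l1 ∩ H) ⊆ (G.nb l1 ∩ G.nb v).erase v' := by
        intro x hx
        rcases mem_insert.1 hx with rfl | hx
        · exact mem_erase.2 ⟨h.tw.ne_low' L2, mem_inter.2 ⟨hadj, m2⟩⟩
        · exact hsub l1 hx
      have i2 : insert l1 (G.nb l2 ∩ H) ⊆ (G.nb l2 ∩ G.nb v).erase v' := by
        intro x hx
        rcases mem_insert.1 hx with rfl | hx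
        · exact mem_erase.2 ⟨h.tw.ne_low' L1, mem_inter.2 ⟨hadj', m1⟩⟩
        · exact hsub l2 hx
      have j1 := card_le_card i1
      have j2 := card_le_card i2
      rw [card_insert_of_notMem (fun hh => hl2H (mem_inter.1 hh).2)] at j1
      rw [card_insert_of_notMem (fun hh => hl1H (mem_inter.1 hh).2)] at j2
      have k1 := tl_pos76 (Fa := Fa) hadj (h.mem_R m2) L2
      have k2 := tl_pos76 (Fa := Fa) hadj' (h.mem_R m1) L1
      omega
    · have hadj' : l1 ∉ G.nb l2 := fun hh => hadj (G.sym _ _ hh)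
      have hd : ∀ la lb, la ≠ lb → (∀ b ∈ G.nb v, G.Low b → b = la ∨ b = lb) →
          la ∈ G.nb v → la ≠ v' → G.Low la → la ∉ G.nb lb →
          ∃ a ∈ H, G.HL a lb la := by
        intro la lb hab ho ma hav La hn'
        rcases h.dom ma hav with h1 | h1 | h1
        · obtain ⟨w, h2, h3, h4⟩ := h1
          exfalso
          rcases ho w h3 h2 with hh | hh
          · rw [hh] at h4; exact G.irr _ h4
          · rw [hh] at h4; exact hn' h4
        · obtain ⟨w, w', t, h3, -, h4, -⟩ := h1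
          exact absurd (hnt w h3 (isTw_iff76.2 ⟨w', t⟩)) h4
        · obtain ⟨-, a, b, a1, a2, a3, a4, -, a5, a6⟩ := h1
          have hb : b = lb := by
            rcases ho b a2 a5 with hh | hh
            · exact absurd hh.symm (hl_iff76.1 a6).1.tb
            · exact hh
          rw [hb] at a6
          refine ⟨a, ?_, a6⟩
          rw [hH, mem_sdiff, mem_erase, mem_insert, mem_singleton, not_or]
          refine ⟨⟨a3, a1⟩, ?_, ?_⟩
          · rintro rfl; exact a4 L1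
          · rintro rfl; exact a4 L2
      obtain ⟨a, haH, ha⟩ := hd l1 l2 hne honly m1 (h.tw.ne_low' L1) L1 hadj'
      obtain ⟨a', haH', ha'⟩ := hd l2 l1 hne.symm (fun b h1 h2 => (honly b h1 h2).symm) m2
        (h.tw.ne_low' L2) L2 hadj
      have haa : a ≠ a' := by
        rintro rfl
        exact nomut76 h9 ha ha' rfl
      obtain ⟨e1, -⟩ := hl_iff76.1 ha
      obtain ⟨e2, -⟩ := hl_iff76.1 ha'
      have i1 : ({a, a'} : Finset V) ⊆ (G.nb l1 ∩ H) ∩ (G.nb l2 ∩ H) := by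
        intro x hx
        rw [mem_inter, mem_inter, mem_inter]
        rcases mem_insert.1 hx with rfl | hx
        · exact ⟨⟨G.sym _ _ e1.ta, haH⟩, e1.ab, haH⟩
        · rw [mem_singleton] at hx
          subst hx
          exact ⟨⟨e2.ab, haH'⟩, G.sym _ _ e2.ta, haH'⟩
      have j1 := card_le_card i1
      rw [card_pair haa] at j1
      have k1 := tA_pos76 (Fa := Fa) (G.sym _ _ e1.ta) (h.mem_R (hHm a haH).1) ha
      have k2 := tA_pos76 (Fa := Fa) (G.sym _ _ e2.ta) (h.mem_R (hHm a' haH').1) ha'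
      omega
  obtain ⟨f1, f2, t1, t2⟩ := key
  obtain ⟨B1, hB1⟩ := c1.2 f1
  obtain ⟨B2, hB2⟩ := c2.2 f2
  -- the hubs outside of all neighbourhoods
  have g : ∀ l B, G.Low l → l ∈ G.nb v → G.I Fa l = {B} → 1 ≤ G.tl Fa l + G.tA Fa l →
      2 * (((G.nb l ∩ H).filter fun x => G.I Fa x = ∅).card : ℤ) ≤ G.ch4 Fa l := by
    intro l B hl hlv hI ht
    have h1 := h.lowge hch hl hlv hI ((G.nb l ∩ H).filter fun x => G.I Fa x = ∅) (by
      intro x hx
      rw [mem_filter, mem_inter] at hx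
      obtain ⟨e1, e2, -⟩ := hHm x hx.1.2
      exact ⟨hx.1.1, e1, e2, co_of_emp76 (h.mem_R e1) (sing_I76 hI).1 hx.2⟩)
    omega
  have g1 := g l1 B1 L1 m1 hB1 t1
  have g2 := g l2 B2 L2 m2 hB2 t2
  have q1 := h.qual_ge hn (H.filter fun x => ¬ G.I Fa x = ∅) (by
    intro x hx
    rw [mem_filter] at hx
    obtain ⟨e1, e2, e3, e4, e5⟩ := hHm x hx.1
    exact ⟨e1, e5, hx.2⟩)
  have p1 : (H.filter fun x => G.I Fa x = ∅).card ≤
      ((G.nb l1 ∩ H).filter fun x => G.I Fa x = ∅).card +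
        ((G.nb l2 ∩ H).filter fun x => G.I Fa x = ∅).card := by
    refine (card_le_card ?_).trans (card_union_le _ _)
    intro x hx
    rw [mem_filter] at hx
    rw [mem_union, mem_filter, mem_filter, mem_inter, mem_inter]
    rcases hdomH x hx.1 with h1 | h1
    · exact Or.inl ⟨⟨h1, hx.1⟩, hx.2⟩
    · exact Or.inr ⟨⟨h1, hx.1⟩, hx.2⟩
  have p2 := card_filter_add_card_filter_not (s := H) (fun x => G.I Fa x = ∅)
  have p3 := h.pl_two hpos hne
    (h.pl_of hn L1 m1 (by rw [hB1]; exact singleton_ne_empty _) (by omega))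
    (h.pl_of hn L2 m2 (by rw [hB2]; exact singleton_ne_empty _) (by omega))
  omega

open Classical in
/-- a low vertex with `|C| = 3`, no twins -/
theorem At76.ty30a (h : G.At76 Fa v v') (hch : G.StCh4) (hn : G.Needy Fa v)
    (hpos : ∀ z ∈ R Fa, G.Low z → 0 ≤ G.ch4 Fa z) {l : V} (hl : G.Low l) (hlv : l ∈ G.nb v)
    (h3 : ((G.nb l ∩ G.nb v).erase v').card = 3)
    (hnt : ∀ q ∈ G.nb v, G.IsTw q → q = v') :
    2 ≤ 2 * ((univ.filter fun x => G.Qual Fa x v).card : ℤ) +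
      ∑ l ∈ univ.filter (fun l => G.PL Fa l v), G.ch4 Fa l := by
  obtain ⟨B, hB⟩ := (h.c3 hl hlv).2 h3
  have hPL := h.pl_of hn hl hlv (by rw [hB]; exact singleton_ne_empty _) (by omega)
  have p1 := h.pl_one hpos hPL
  have p0 := h.pl_nonneg hpos
  set C := (G.nb l ∩ G.nb v).erase v' with hC
  have hCm : ∀ x ∈ C, x ∈ G.nb l ∧ x ∈ G.nb v ∧ x ≠ v' := by
    intro x hx
    rw [hC, mem_erase, mem_inter] at hx
    exact ⟨hx.2.1, hx.2.2, hx.1⟩
  have h1 := h.lowge hch hl hlv hB (C.filter fun x => x ∈ G.Co B) (by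
    intro x hx
    rw [mem_filter] at hx
    obtain ⟨e1, e2, e3⟩ := hCm x hx.1
    exact ⟨e1, e2, e3, hx.2⟩)
  have h2 : (C.filter fun x => G.Low x).card ≤ G.tl Fa l := by
    unfold tl
    apply card_le_card
    intro x hx
    rw [mem_filter] at hx
    rw [mem_filter, mem_nR76]
    obtain ⟨e1, e2, e3⟩ := hCm x hx.1
    exact ⟨⟨e1, h.mem_R e2⟩, hx.2⟩
  by_cases hs : 2 ≤ (C.filter fun x => x ∈ G.Co B).card + (C.filter fun x => G.Low x).card
  · omega
  · -- a hub in `N B`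
    have h4 : ∃ x ∈ C, x ∉ (C.filter fun x => x ∈ G.Co B) ∪ (C.filter fun x => G.Low x) := by
      by_contra hcon
      push Not at hcon
      have h5 := (card_le_card hcon).trans (card_union_le _ _)
      omega
    obtain ⟨x, hx, hx'⟩ := h4
    rw [mem_union, mem_filter, mem_filter, not_or] at hx'
    obtain ⟨e1, e2, e3⟩ := hCm x hx
    have h5 : G.I Fa x ≠ ∅ := by
      intro hh
      exact hx'.1 ⟨hx, co_of_emp76 (h.mem_R e2) (sing_I76 hB).1 hh⟩
    have h6 : G.Hub x := by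
      refine ⟨fun hh => hx'.2 ⟨hx, hh⟩, fun hh => e3 (hnt x e2 hh)⟩
    have h7 := h.qual_ge hn {x} (by
      intro y hy
      rw [mem_singleton] at hy
      rw [hy]
      exact ⟨e2, h6, h5⟩)
    rw [card_singleton] at h7
    omega

end

end CG

end Pool.Agent.Lib.MP_e95c01_co.N
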