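import Pool.Agent.Lib.MP_e95c01_co.U.NeedyC76

/-!
# U11, part D: three lows, no further twins
-/

namespace Pool.Agent.Lib.MP_e95c01_co.N

open Finset

variable {V : Type} [Fintype V] [DecidableEq V]

namespace CG

section

variable {G : CG V} {Fa : Finset (Finset V)} {v v' : V}

/-- three lows at `v`, all `|C| ≤ 2` -/
structure T376 (G : CG V) (v v' x y z : V) : Prop where
  xy : x ≠ y
  xz : x ≠ z
  yz : y ≠ z
  lx : G.Low x
  ly : G.Low y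
  lz : G.Low z
  mx : x ∈ G.nb v
  my : y ∈ G.nb v
  mz : z ∈ G.nb v
  only : ∀ b ∈ G.nb v, G.Low b → b = x ∨ b = y ∨ b = z
  hC : ∀ l, G.Low l → l ∈ G.nb v → ((G.nb l ∩ G.nb v).erase v').card ≤ 2
  nt : ∀ q ∈ G.nb v, G.IsTw q → q = v'

theorem T376.rot {x y z : V} (h : G.T376 v v' x y z) : G.T376 v v' y z x :=
  ⟨h.yz, h.xy.symm, h.xz.symm, h.ly, h.lz, h.lx, h.my, h.mz, h.mx, fun b h1 h2 => by
    rcases h.only b h1 h2 with h3 | h3 | h3
    · exact Or.inr (Or.inr h3)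
    · exact Or.inl h3
    · exact Or.inr (Or.inl h3), h.hC, h.nt⟩

theorem T376.swap {x y z : V} (h : G.T376 v v' x y z) : G.T376 v v' y x z :=
  ⟨h.xy.symm, h.yz, h.xz, h.ly, h.lx, h.lz, h.my, h.mx, h.mz, fun b h1 h2 => by
    rcases h.only b h1 h2 with h3 | h3 | h3
    · exact Or.inr (Or.inl h3)
    · exact Or.inl h3
    · exact Or.inr (Or.inr h3), h.hC, h.nt⟩

theorem T376.three {x y z : V} (h : G.T376 v v' x y z) {l : V} (hl : G.Low l)
    (hlv : l ∈ G.nb v) {a b c : V} (a1 : a ∈ G.nb l) (a2 : a ∈ G.nb v) (a3 : a ≠ v')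
    (b1 : b ∈ G.nb l) (b2 : b ∈ G.nb v) (b3 : b ≠ v') (c1 : c ∈ G.nb l) (c2 : c ∈ G.nb v)
    (c3 : c ≠ v') (hab : a ≠ b) (hac : a ≠ c) (hbc : b ≠ c) : False := by
  have h1 : ([a, b, c] : List V).Nodup := by simp [hab, hac, hbc]
  have h2 := nodup76 (s := (G.nb l ∩ G.nb v).erase v') h1 (by
    intro x hx
    simp only [List.mem_cons, List.not_mem_nil, or_false] at hx
    rw [mem_erase, mem_inter]
    rcases hx with rfl | rfl | rfl
    · exact ⟨a3, a1, a2⟩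
    · exact ⟨b3, b1, b2⟩
    · exact ⟨c3, c1, c2⟩)
  have h3 := h.hC l hl hlv
  simp only [List.length_cons, List.length_nil] at h2
  omega

/-- the hubs -/
theorem At76.hubs30 (h : G.At76 Fa v v') {x y z : V} (t : G.T376 v v' x y z) :
    ∃ H : Finset V, H.card = 3 ∧ (∀ s ∈ H, s ∈ G.nb v ∧ s ≠ v' ∧ s ≠ x ∧ s ≠ y ∧ s ≠ z ∧
      ¬ G.Low s) ∧ (∀ s ∈ G.nb v, s ≠ v' → ¬ G.Low s → s ∈ H) ∧
      ∀ s ∈ H, s ∈ G.nb x ∨ s ∈ G.nb y ∨ s ∈ G.nb z := by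
  set H := ((G.nb v).erase v') \ {x, y, z} with hH
  have hcard : H.card = 3 := by
    have e1 : ({x, y, z} : Finset V) ⊆ (G.nb v).erase v' := by
      intro s hs
      rw [mem_insert, mem_insert, mem_singleton] at hs
      rw [mem_erase]
      rcases hs with rfl | rfl | rfl
      · exact ⟨h.tw.ne_low' t.lx, t.mx⟩
      · exact ⟨h.tw.ne_low' t.ly, t.my⟩
      · exact ⟨h.tw.ne_low' t.lz, t.mz⟩
    have e2 := card_sdiff_add_card_eq_card e1
    have e3 : ({x, y, z} : Finset V).card = 3 := card_eq_three.2 ⟨x, y, z, t.xy, t.xz, t.yz, rfl⟩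
    rw [← hH, e3, card_erase_of_mem h.tw.adj, h.tw.deg] at e2
    omega
  have hm : ∀ s ∈ H, s ∈ G.nb v ∧ s ≠ v' ∧ s ≠ x ∧ s ≠ y ∧ s ≠ z ∧ ¬ G.Low s := by
    intro s hs
    rw [hH, mem_sdiff, mem_erase, mem_insert, mem_insert, mem_singleton, not_or, not_or] at hs
    refine ⟨hs.1.2, hs.1.1, hs.2.1, hs.2.2.1, hs.2.2.2, ?_⟩
    intro hl
    rcases t.only s hs.1.2 hl with hh | hh | hh
    · exact hs.2.1 hh
    · exact hs.2.2.1 hh
    · exact hs.2.2.2 hh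
  refine ⟨H, hcard, hm, ?_, ?_⟩
  · intro s h1 h2 h3
    rw [hH, mem_sdiff, mem_erase, mem_insert, mem_insert, mem_singleton, not_or, not_or]
    refine ⟨⟨h2, h1⟩, ?_, ?_, ?_⟩
    · rintro rfl; exact h3 t.lx
    · rintro rfl; exact h3 t.ly
    · rintro rfl; exact h3 t.lz
  · intro s hs
    obtain ⟨e1, e2, -, -, -, e6⟩ := hm s hs
    rcases h.dom e1 e2 with h1 | h1 | h1
    · obtain ⟨w, h2, h3, h4⟩ := h1
      rcases t.only w h3 h2 with hh | hh | hh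
      · rw [hh] at h4; exact Or.inl h4
      · rw [hh] at h4; exact Or.inr (Or.inl h4)
      · rw [hh] at h4; exact Or.inr (Or.inr h4)
    · obtain ⟨w, w', t', h3, -, h4, -⟩ := h1
      exact absurd (t.nt w h3 (isTw_iff76.2 ⟨w', t'⟩)) h4
    · exact absurd h1.1 e6

theorem At76.t30A (h : G.At76 Fa v v') {x y z : V} (t : G.T376 v v' x y z)
    (hxy : y ∈ G.nb x) (hxz : z ∈ G.nb x) : False := by
  obtain ⟨H, h1, h2, -, h4⟩ := h.hubs30 t
  have hx' : x ≠ v' := h.tw.ne_low' t.lx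
  have hy' : y ≠ v' := h.tw.ne_low' t.ly
  have hz' : z ≠ v' := h.tw.ne_low' t.lz
  -- no hub at `x`
  have h5 : ∀ s ∈ H, s ∈ G.nb y ∨ s ∈ G.nb z := by
    intro s hs
    obtain ⟨e1, e2, e3, e4, e5, -⟩ := h2 s hs
    rcases h4 s hs with h6 | h6 | h6
    · exact (t.three t.lx t.mx hxy t.my hy' hxz t.mz hz' h6 e1 e2 t.yz e4.symm e5.symm).elim
    · exact Or.inl h6
    · exact Or.inr h6
  have h6 : ∀ w, G.Low w → w ∈ G.nb v → x ∈ G.nb w → (H.filter fun s => s ∈ G.nb w).card ≤ 1 := by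
    intro w hw hwv hxw
    rw [card_le_one]
    intro a ha b hb
    by_contra hab
    rw [mem_filter] at ha hb
    obtain ⟨e1, e2, e3, e4, e5, -⟩ := h2 a ha.1
    obtain ⟨f1, f2, f3, f4, f5, -⟩ := h2 b hb.1
    exact t.three hw hwv hxw t.mx hx' ha.2 e1 e2 hb.2 f1 f2 e3.symm f3.symm hab
  have h7 := h6 y t.ly t.my (G.sym _ _ hxy)
  have h8 := h6 z t.lz t.mz (G.sym _ _ hxz)
  have h9 : H ⊆ (H.filter fun s => s ∈ G.nb y) ∪ (H.filter fun s => s ∈ G.nb z) := by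
    intro s hs
    rw [mem_union, mem_filter, mem_filter]
    rcases h5 s hs with h10 | h10
    · exact Or.inl ⟨hs, h10⟩
    · exact Or.inr ⟨hs, h10⟩
  have h10 := (card_le_card h9).trans (card_union_le _ _)
  omega

theorem At76.t30B (h : G.At76 Fa v v') {x y z a : V} (t : G.T376 v v' x y z)
    (hxy : y ∈ G.nb x) (ha : G.HL a y z) (hav : a ∈ G.nb v) (hav' : a ≠ v') (hal : ¬ G.Low a) :
    False := by
  obtain ⟨H, h1, h2, h3, h4⟩ := h.hubs30 t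
  have hx' : x ≠ v' := h.tw.ne_low' t.lx
  have hy' : y ≠ v' := h.tw.ne_low' t.ly
  obtain ⟨e1, -⟩ := hl_iff76.1 ha
  have hax : a ∈ G.nb x := G.sym _ _ (e1.mem_a (G.sym _ _ hxy) (by
    rintro rfl
    exact hal t.lx))
  have hay : a ∈ G.nb y := e1.ab
  have haz : a ∈ G.nb z := G.sym _ _ e1.ta
  have haH : a ∈ H := h3 a hav hav' hal
  -- the other hubs are adjacent to `z`
  have h5 : ∀ s ∈ H, s ∈ G.nb z := by
    intro s hs
    by_cases hsa : s = a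
    · rw [hsa]; exact haz
    obtain ⟨f1, f2, f3, f4, f5, -⟩ := h2 s hs
    rcases h4 s hs with h6 | h6 | h6
    · exact (t.three t.lx t.mx hxy t.my hy' hax hav hav' h6 f1 f2
        (h2 a haH).2.2.2.1.symm f4.symm (Ne.symm hsa)).elim
    · exact (t.three t.ly t.my (G.sym _ _ hxy) t.mx hx' hay hav hav' h6 f1 f2
        (h2 a haH).2.2.1.symm f3.symm (Ne.symm hsa)).elim
    · exact h6
  have h6 : H ⊆ (G.nb z ∩ G.nb v).erase v' := by
    intro s hs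
    obtain ⟨f1, f2, -⟩ := h2 s hs
    exact mem_erase.2 ⟨f2, mem_inter.2 ⟨h5 s hs, f1⟩⟩
  have h7 := card_le_card h6
  have h8 := t.hC z t.lz t.mz
  omega

/-- a low vertex without low neighbours at `v` -/
theorem At76.t30hl (h : G.At76 Fa v v') {x y z : V} (t : G.T376 v v' x y z)
    (hzx : z ∉ G.nb x) (hzy : z ∉ G.nb y) : ∃ a b, a ∈ G.nb v ∧ a ≠ v' ∧ ¬ G.Low a ∧
      G.HL a b z ∧ (b = x ∨ b = y) := by
  rcases h.dom t.mz (h.tw.ne_low' t.lz) with h1 | h1 | h1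
  · obtain ⟨w, h2, h3, h4⟩ := h1
    exfalso
    rcases t.only w h3 h2 with hh | hh | hh
    · rw [hh] at h4; exact hzx h4
    · rw [hh] at h4; exact hzy h4
    · rw [hh] at h4; exact G.irr _ h4
  · obtain ⟨w, w', t', h3, -, h4, -⟩ := h1
    exact absurd (t.nt w h3 (isTw_iff76.2 ⟨w', t'⟩)) h4
  · obtain ⟨-, a, b, a1, a2, a3, a4, -, a5, a6⟩ := h1
    refine ⟨a, b, a1, a3, a4, a6, ?_⟩
    rcases t.only b a2 a5 with hh | hh | hh
    · exact Or.inl hh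
    · exact Or.inr hh
    · exact absurd hh.symm (hl_iff76.1 a6).1.tb

theorem At76.t30cyc (_h : G.At76 Fa v v') {x y z a1 a2 a3 : V} (t : G.T376 v v' x y z)
    (e1 : G.HL a1 y x) (e2 : G.HL a2 z y) (e3 : G.HL a3 x z) (m1 : a1 ∈ G.nb v)
    (m2 : a2 ∈ G.nb v) (m3 : a3 ∈ G.nb v) (n1 : a1 ≠ v') (n2 : a2 ≠ v') (n3 : a3 ≠ v')
    (l1 : ¬ G.Low a1) (h12 : a1 ≠ a2) (h13 : a1 ≠ a3) (h23 : a2 ≠ a3) :
    False := by
  obtain ⟨f1, -⟩ := hl_iff76.1 e1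
  obtain ⟨f2, -⟩ := hl_iff76.1 e2
  obtain ⟨f3, -⟩ := hl_iff76.1 e3
  -- `a2 ∈ nb y`, so `a2 ∈ nb a1`
  have h1 : a2 ∈ G.nb a1 := f1.mem_a (G.sym _ _ f2.ta) h12.symm
  -- `a1 ∈ nb a2`, so `a1 ∈ nb z`
  have h2 : a1 ∈ G.nb z := by
    apply f2.mem_b (G.sym _ _ h1)
    · rintro rfl; exact l1 t.lz
    · rintro rfl; exact l1 t.ly
  exact t.three t.lz t.mz h2 m1 n1 f2.ab m2 n2 (G.sym _ _ f3.ta) m3 n3 h12 h13 h23

theorem At76.t30C (h : G.At76 Fa v v') {x y z : V} (t : G.T376 v v' x y z)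
    (hxy : y ∉ G.nb x) (hxz : z ∉ G.nb x) (hyz : z ∉ G.nb y) : False := by
  have h9 := h.tor.n9
  have hyx : x ∉ G.nb y := fun hh => hxy (G.sym _ _ hh)
  have hzx : x ∉ G.nb z := fun hh => hxz (G.sym _ _ hh)
  have hzy : y ∉ G.nb z := fun hh => hyz (G.sym _ _ hh)
  obtain ⟨a3, b3, m3, n3, l3, e3, o3⟩ := h.t30hl t hxz hyz
  obtain ⟨a1, b1, m1, n1, l1, e1, o1⟩ := h.t30hl t.rot hyx hzx
  obtain ⟨a2, b2, m2, n2, l2, e2, o2⟩ := h.t30hl t.rot.rot hzy hxy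
  obtain ⟨f1, -⟩ := hl_iff76.1 e1
  obtain ⟨f2, -⟩ := hl_iff76.1 e2
  obtain ⟨f3, -⟩ := hl_iff76.1 e3
  have tHL := (stTwHL_76 G).two h9
  -- the heads are different
  have h12 : a1 ≠ a2 := by
    rintro rfl
    have h1 := (tHL a1 b1 x b2 y e1 e2 t.xy).1
    rcases o1 with rfl | rfl <;> rcases o2 with rfl | rfl
    · exact hzy h1
    · exact hxy h1
    · exact G.irr _ h1
    · exact hxz h1
  have h13 : a1 ≠ a3 := by
    rintro rfl
    have h1 := (tHL a1 b1 x b3 z e1 e3 t.xz).1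
    rcases o1 with rfl | rfl <;> rcases o3 with rfl | rfl
    · exact hxy h1
    · exact G.irr _ h1
    · exact hxz h1
    · exact hyz h1
  have h23 : a2 ≠ a3 := by
    rintro rfl
    have h1 := (tHL a2 b2 y b3 z e2 e3 t.yz).1
    rcases o2 with rfl | rfl <;> rcases o3 with rfl | rfl
    · exact hxz h1
    · exact hyz h1
    · exact G.irr _ h1
    · exact hyx h1
  rcases o1 with rfl | rfl
  · -- `b1 = y`
    rcases o3 with rfl | rfl
    · -- `b3 = x`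
      rcases o2 with rfl | rfl
      · -- `b2 = z`
        exact h.t30cyc t e1 e2 e3 m1 m2 m3 n1 n2 n3 l1 h12 h13 h23
      · -- `b2 = x`
        exact t.three t.lx t.mx (G.sym _ _ f1.ta) m1 n1 f2.ab m2 n2 f3.ab m3 n3 h12 h13 h23
    · -- `b3 = y`
      exact t.three t.ly t.my f1.ab m1 n1 (G.sym _ _ f2.ta) m2 n2 f3.ab m3 n3 h12 h13 h23
  · -- `b1 = z`
    rcases o2 with rfl | rfl
    · -- `b2 = z`
      exact t.three t.lz t.mz f1.ab m1 n1 f2.ab m2 n2 (G.sym _ _ f3.ta) m3 n3 h12 h13 h23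
    · -- `b2 = x`
      rcases o3 with rfl | rfl
      · -- `b3 = x`
        exact t.three t.lx t.mx (G.sym _ _ f1.ta) m1 n1 f2.ab m2 n2 f3.ab m3 n3 h12 h13 h23
      · -- `b3 = y`
        exact h.t30cyc t.rot.swap.rot.rot e1 e3 e2 m1 m3 m2 n1 n3 n2 l1 h13 h12 h23.symm

/-- with three lows and no further twins there is a low with `|C| = 3` -/
theorem At76.ty30b (h : G.At76 Fa v v') {x y z : V} (xy : x ≠ y) (xz : x ≠ z) (yz : y ≠ z)
    (lx : G.Low x) (ly : G.Low y) (lz : G.Low z) (mx : x ∈ G.nb v) (my : y ∈ G.nb v)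
    (mz : z ∈ G.nb v) (only : ∀ b ∈ G.nb v, G.Low b → b = x ∨ b = y ∨ b = z)
    (nt : ∀ q ∈ G.nb v, G.IsTw q → q = v') :
    ∃ l, G.Low l ∧ l ∈ G.nb v ∧ ((G.nb l ∩ G.nb v).erase v').card = 3 := by
  by_contra hcon
  push Not at hcon
  have t : G.T376 v v' x y z := ⟨xy, xz, yz, lx, ly, lz, mx, my, mz, only, fun l h1 h2 => by
    have h3 := (h.c3 h1 h2).1
    have h4 := hcon l h1 h2
    omega, nt⟩
  by_cases hxy : y ∈ G.nb x
  · by_cases hxz : z ∈ G.nb x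
    · exact h.t30A t hxy hxz
    by_cases hyz : z ∈ G.nb y
    · exact h.t30A t.rot hyz (G.sym _ _ hxy)
    obtain ⟨a, b, a1, a2, a3, a4, a5⟩ := h.t30hl t hxz hyz
    rcases a5 with rfl | rfl
    · exact h.t30B t.swap (G.sym _ _ hxy) a4 a1 a2 a3
    · exact h.t30B t hxy a4 a1 a2 a3
  by_cases hxz : z ∈ G.nb x
  · by_cases hyz : z ∈ G.nb y
    · exact h.t30A t.rot.rot (G.sym _ _ hxz) (G.sym _ _ hyz)
    have hyx : y ∉ G.nb x := hxy
    have hyz' : y ∉ G.nb z := fun hh => hyz (G.sym _ _ hh)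
    -- `y` has no low neighbour, `x ~ z`
    obtain ⟨a, b, a1, a2, a3, a4, a5⟩ := h.t30hl t.rot.rot hyz' hyx
    rcases a5 with rfl | rfl
    · exact h.t30B t.rot.rot.swap hxz a4 a1 a2 a3
    · exact h.t30B t.rot.rot (G.sym _ _ hxz) a4 a1 a2 a3
  by_cases hyz : z ∈ G.nb y
  · have hxy' : x ∉ G.nb y := fun hh => hxy (G.sym _ _ hh)
    have hxz' : x ∉ G.nb z := fun hh => hxz (G.sym _ _ hh)
    obtain ⟨a, b, a1, a2, a3, a4, a5⟩ := h.t30hl t.rot hxy' hxz'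
    rcases a5 with rfl | rfl
    · exact h.t30B t.rot.swap (G.sym _ _ hyz) a4 a1 a2 a3
    · exact h.t30B t.rot hyz a4 a1 a2 a3
  · exact h.t30C t hxy hxz hyz

end

end CG

end Pool.Agent.Lib.MP_e95c01_co.N
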