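import Pool.Agent.Lib.MP_e95c01_co.U.NeedyD76

/-!
# U11, part E: two lows and one further twin pair
-/

namespace Pool.Agent.Lib.MP_e95c01_co.N

open Finset

variable {V : Type} [Fintype V] [DecidableEq V]

namespace CG

section

variable {G : CG V} {Fa : Finset (Finset V)} {v v' : V}

theorem card_I76 (hreg : G.Reg Fa) {z : V} (_hz : z ∈ R Fa) :
    (G.I Fa z).card + (G.nR Fa z).card ≤ (G.nb z).card := by
  have h1 : ((G.I Fa z).biUnion fun B => G.nb z ∩ B).card = ∑ B ∈ G.I Fa z, (G.nb z ∩ B).card := by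
    apply card_biUnion
    intro B hB B' hB' hne
    change Disjoint (G.nb z ∩ B) (G.nb z ∩ B')
    rw [mem_coe] at hB hB'
    rw [disjoint_left]
    intro x hx hx'
    exact (disjoint_left.1 (hreg.dis B (mem_I76.1 hB).1 B' (mem_I76.1 hB').1 hne).1)
      (mem_inter.1 hx).2 (mem_inter.1 hx').2
  have h2 : (G.I Fa z).card ≤ ∑ B ∈ G.I Fa z, (G.nb z ∩ B).card := by
    rw [card_eq_sum_ones]
    apply sum_le_sum
    intro B hB
    obtain ⟨u, hu, huz⟩ := nbr_in37 (mem_I76.1 hB).2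
    exact Finset.card_pos.2 ⟨u, mem_inter.2 ⟨huz, hu⟩⟩
  have h3 : Disjoint ((G.I Fa z).biUnion fun B => G.nb z ∩ B) (G.nR Fa z) := by
    rw [disjoint_left]
    intro x hx hx'
    rw [mem_biUnion] at hx
    obtain ⟨B, hB, hxB⟩ := hx
    exact mem_R76.1 (mem_nR76.1 hx').2 B (mem_I76.1 hB).1 (mem_inter.1 hxB).2
  have h4 : ((G.I Fa z).biUnion fun B => G.nb z ∩ B) ∪ G.nR Fa z ⊆ G.nb z := by
    intro x hx
    rcases mem_union.1 hx with hx | hx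
    · rw [mem_biUnion] at hx
      obtain ⟨B, -, hxB⟩ := hx
      exact (mem_inter.1 hxB).1
    · exact (mem_nR76.1 hx).1
  have h5 := card_le_card h4
  rw [card_union_of_disjoint h3] at h5
  omega

/-- a low vertex in two neighbourhoods with four neighbours in `R`, one of them outside of all
neighbourhoods -/
theorem low2_76 (hreg : G.Reg Fa) {z x : V} (hz : z ∈ R Fa) (hl : G.Low z)
    (hI : 2 ≤ (G.I Fa z).card) (h4 : 4 ≤ (G.nR Fa z).card) (hx : x ∈ G.nb z) (hxR : x ∈ R Fa)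
    (hxI : G.I Fa x = ∅) : 2 ≤ G.ch4 Fa z := by
  classical
  have h1 := card_I76 hreg hz
  have h6 : (G.nb z).card = 6 := hl
  have h2 : (G.I Fa z).card = 2 := by omega
  have ha : G.a4 z = 6 := by unfold a4; rw [if_pos hl]
  have hc : G.c4 z = 2 := by unfold c4; rw [if_pos hl]
  unfold ch4
  rw [ha, hc, h2, h6]
  have hp1 : ∀ y, G.pi4 y z = 0 := by
    intro y
    unfold pi4
    have hh : ¬ G.Hub z := fun hh => hh.1 hl
    simp [hl, hh]
  have hp2 : ∀ y, G.pi4 z y ≤ 2 := by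
    intro y
    unfold pi4
    rw [if_pos hl]
    split_ifs <;> norm_num
  have hm : ∀ y, G.m Fa y z ≤ 2 := by
    intro y
    unfold m
    exact (card_le_card inter_subset_right).trans h2.le
  have hsum : 2 ≤ ∑ y ∈ G.nR Fa z, (2 * (2 - (G.m Fa y z : ℤ)) +
      (if G.m Fa y z ≤ 1 then G.pi4 y z - G.pi4 z y else 0)) := by
    have hterm : ∀ y ∈ G.nR Fa z, 0 ≤ (2 * (2 - (G.m Fa y z : ℤ)) +
        (if G.m Fa y z ≤ 1 then G.pi4 y z - G.pi4 z y else 0)) := by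
      intro y _
      have e1 := hp1 y
      have e2 := hp2 y
      have e3 := hm y
      split_ifs with e4
      · rw [e1]; omega
      · omega
    have hxm : G.m Fa x z = 0 := by
      unfold m
      rw [hxI, empty_inter, card_empty]
    refine le_trans ?_ (single_le_sum hterm (mem_nR76.2 ⟨hx, hxR⟩))
    rw [hxm, hp1 x]
    have e2 := hp2 x
    rw [if_pos (by norm_num)]
    push_cast
    omega
  rw [sum_add_distrib, ← mul_sum] at hsum
  push_cast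
  linarith

/-- two lows `l1, l2`, one further twin pair `p, p'`, two hubs `x1, x2` -/
structure T2176 (G : CG V) (v v' l1 l2 p p' x1 x2 : V) : Prop where
  ll : l1 ≠ l2
  L1 : G.Low l1
  L2 : G.Low l2
  m1 : l1 ∈ G.nb v
  m2 : l2 ∈ G.nb v
  t : G.Tw76 p p'
  mp : p ∈ G.nb v
  mp' : p' ∈ G.nb v
  pv : p ≠ v'
  pv' : p' ≠ v'
  hx : x1 ≠ x2
  X1 : G.Hub x1
  X2 : G.Hub x2
  n1 : x1 ∈ G.nb v
  n2 : x2 ∈ G.nb v
  only : ∀ b ∈ G.nb v, G.Low b → b = l1 ∨ b = l2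
  onlyt : ∀ q ∈ G.nb v, G.IsTw q → q = v' ∨ q = p ∨ q = p'
  all : ∀ s ∈ G.nb v, ¬ G.Low s → ¬ G.IsTw s → s = x1 ∨ s = x2

variable {l1 l2 p p' x1 x2 : V}

theorem T2176.swl (T : G.T2176 v v' l1 l2 p p' x1 x2) : G.T2176 v v' l2 l1 p p' x1 x2 :=
  ⟨T.ll.symm, T.L2, T.L1, T.m2, T.m1, T.t, T.mp, T.mp', T.pv, T.pv', T.hx, T.X1, T.X2, T.n1,
    T.n2, fun b h1 h2 => (T.only b h1 h2).symm, T.onlyt, T.all⟩

theorem T2176.swx (T : G.T2176 v v' l1 l2 p p' x1 x2) : G.T2176 v v' l1 l2 p p' x2 x1 :=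
  ⟨T.ll, T.L1, T.L2, T.m1, T.m2, T.t, T.mp, T.mp', T.pv, T.pv', T.hx.symm, T.X2, T.X1, T.n2,
    T.n1, T.only, T.onlyt, fun s h1 h2 h3 => (T.all s h1 h2 h3).symm⟩

theorem T2176.p_ne (T : G.T2176 v v' l1 l2 p p' x1 x2) {x : V} (hx : G.Hub x) : x ≠ p := by
  rintro rfl
  exact hx.2 (isTw_iff76.2 ⟨p', T.t⟩)

theorem T2176.p_ne' (T : G.T2176 v v' l1 l2 p p' x1 x2) {x : V} (hx : G.Hub x) : x ≠ p' := by
  rintro rfl
  exact hx.2 (isTw_iff76.2 ⟨p, T.t.symm⟩)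

theorem hub_ne76 {x l : V} (hx : G.Hub x) (hl : G.Low l) : x ≠ l := by
  rintro rfl
  exact hx.1 hl

theorem At76.hub_ne (h : G.At76 Fa v v') {x : V} (hx : G.Hub x) : x ≠ v' := by
  rintro rfl
  exact hx.2 (isTw_iff76.2 ⟨v, h.tw.symm⟩)

/-- adjacency to `p` and to `p'` -/
theorem T2176.pp (T : G.T2176 v v' l1 l2 p p' x1 x2) {s : V} (h1 : s ≠ p) (h2 : s ≠ p') :
    s ∈ G.nb p ↔ s ∈ G.nb p' := T.t.iff h1 h2

theorem At76.pC (_h : G.At76 Fa v v') (T : G.T2176 v v' l1 l2 p p' x1 x2) {l : V}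
    (hl : G.Low l) (hp : p ∈ G.nb l) : p' ∈ G.nb l :=
  G.sym _ _ ((T.t.iff (T.t.ne_low hl) (T.t.ne_low' hl)).1 (G.sym _ _ hp))

/-- domination of a hub -/
theorem At76.domx (h : G.At76 Fa v v') (T : G.T2176 v v' l1 l2 p p' x1 x2) {x : V}
    (hx : G.Hub x) (hxv : x ∈ G.nb v) : x ∈ G.nb l1 ∨ x ∈ G.nb l2 ∨ x ∈ G.nb p := by
  rcases h.dom hxv (h.hub_ne hx) with h1 | h1 | h1
  · obtain ⟨w, h2, h3, h4⟩ := h1
    rcases T.only w h3 h2 with hh | hh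
    · rw [hh] at h4; exact Or.inl h4
    · rw [hh] at h4; exact Or.inr (Or.inl h4)
  · obtain ⟨w, w', t, h3, -, h4, -, h5, -⟩ := h1
    rcases T.onlyt w h3 (isTw_iff76.2 ⟨w', t⟩) with hh | hh | hh
    · exact absurd hh h4
    · rw [hh] at h5; exact Or.inr (Or.inr h5)
    · rw [hh] at h5; exact Or.inr (Or.inr ((T.pp (T.p_ne hx) (T.p_ne' hx)).2 h5))
  · exact absurd h1.1 hx.1

theorem At76.domp (h : G.At76 Fa v v') (T : G.T2176 v v' l1 l2 p p' x1 x2) :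
    p ∈ G.nb l1 ∨ p ∈ G.nb l2 := by
  have h9 := h.tor.n9
  rcases h.dom T.mp T.pv with h1 | h1 | h1
  · obtain ⟨w, h2, h3, h4⟩ := h1
    rcases T.only w h3 h2 with hh | hh
    · rw [hh] at h4; exact Or.inl h4
    · rw [hh] at h4; exact Or.inr h4
  · obtain ⟨w, w', t, h3, -, h4, -, h5, h6, -⟩ := h1
    rcases T.onlyt w h3 (isTw_iff76.2 ⟨w', t⟩) with hh | hh | hh
    · exact absurd hh h4
    · rw [hh] at h5; exact absurd h5 (G.irr _)
    · rw [hh] at t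
      exact absurd (mate76 h9 T.t.symm t) h6
  · exact absurd h1.1 T.t.not_low

theorem At76.doml (h : G.At76 Fa v v') (T : G.T2176 v v' l1 l2 p p' x1 x2) :
    l2 ∈ G.nb l1 ∨ l2 ∈ G.nb p ∨ ∃ a, (a = x1 ∨ a = x2) ∧ G.HL a l1 l2 := by
  rcases h.dom T.m2 (h.tw.ne_low' T.L2) with h1 | h1 | h1
  · obtain ⟨w, h2, h3, h4⟩ := h1
    rcases T.only w h3 h2 with hh | hh
    · rw [hh] at h4; exact Or.inl h4
    · rw [hh] at h4; exact absurd h4 (G.irr _)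
  · obtain ⟨w, w', t, h3, -, h4, -, h5, -⟩ := h1
    rcases T.onlyt w h3 (isTw_iff76.2 ⟨w', t⟩) with hh | hh | hh
    · exact absurd hh h4
    · rw [hh] at h5; exact Or.inr (Or.inl h5)
    · rw [hh] at h5
      exact Or.inr (Or.inl ((T.pp (T.t.ne_low T.L2) (T.t.ne_low' T.L2)).2 h5))
  · obtain ⟨-, a, b, a1, a2, a3, a4, a5, a6, a7⟩ := h1
    right; right
    have hb : b = l1 := by
      rcases T.only b a2 a6 with hh | hh
      · exact hh
      · exact absurd hh.symm (hl_iff76.1 a7).1.tb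
    rw [hb] at a7
    exact ⟨a, T.all a a1 a4 a5, a7⟩

theorem At76.four (h : G.At76 Fa v v') {l : V} (hl : G.Low l) (hlv : l ∈ G.nb v)
    {L : List V} (hL : L.Nodup) (hm : ∀ s ∈ L, s ∈ G.nb l ∧ s ∈ G.nb v ∧ s ≠ v')
    (hlen : 4 ≤ L.length) : False := by
  have h1 := nodup76 (s := (G.nb l ∩ G.nb v).erase v') hL (by
    intro s hs
    obtain ⟨e1, e2, e3⟩ := hm s hs
    exact mem_erase.2 ⟨e3, mem_inter.2 ⟨e1, e2⟩⟩)
  have h2 := (h.c3 hl hlv).1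
  omega

theorem At76.ge_C (_h : G.At76 Fa v v') {l : V} {L : List V} (hL : L.Nodup)
    (hm : ∀ s ∈ L, s ∈ G.nb l ∧ s ∈ G.nb v ∧ s ≠ v') :
    L.length ≤ ((G.nb l ∩ G.nb v).erase v').card :=
  nodup76 hL (by
    intro s hs
    obtain ⟨e1, e2, e3⟩ := hm s hs
    exact mem_erase.2 ⟨e3, mem_inter.2 ⟨e1, e2⟩⟩)

theorem At76.ge_C' (_h : G.At76 Fa v v') {L : List V} (hL : L.Nodup)
    (hm : ∀ s ∈ L, s ∈ G.nb p ∧ s ∈ G.nb v ∧ s ≠ v' ∧ s ≠ p') :
    L.length ≤ (((G.nb p ∩ G.nb v).erase v').erase p').card :=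
  nodup76 hL (by
    intro s hs
    obtain ⟨e1, e2, e3, e4⟩ := hm s hs
    exact mem_erase.2 ⟨e4, mem_erase.2 ⟨e3, mem_inter.2 ⟨e1, e2⟩⟩⟩)

/-- three further common neighbours of `v` and `p` are impossible -/
theorem At76.p3 (h : G.At76 Fa v v') (T : G.T2176 v v' l1 l2 p p' x1 x2) {a b c : V}
    (a1 : a ∈ G.nb p) (a2 : a ∈ G.nb v) (a3 : a ≠ v') (a4 : a ≠ p')
    (b1 : b ∈ G.nb p) (b2 : b ∈ G.nb v) (b3 : b ≠ v') (b4 : b ≠ p')
    (c1 : c ∈ G.nb p) (c2 : c ∈ G.nb v) (c3 : c ≠ v') (c4 : c ≠ p')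
    (hab : a ≠ b) (hac : a ≠ c) (hbc : b ≠ c) : False := by
  have h1 := h.ge_C' (p := p) (p' := p') (L := [a, b, c]) (by simp [hab, hac, hbc]) (by
    intro s hs
    simp only [List.mem_cons, List.not_mem_nil, or_false] at hs
    rcases hs with rfl | rfl | rfl
    · exact ⟨a1, a2, a3, a4⟩
    · exact ⟨b1, b2, b3, b4⟩
    · exact ⟨c1, c2, c3, c4⟩)
  have h2 := (h.c2 T.t T.mp T.pv).1
  simp only [List.length_cons, List.length_nil] at h1
  omega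

/-- a low vertex adjacent to `p` has `|C| = 3` -/
theorem At76.full (h : G.At76 Fa v v') (T : G.T2176 v v' l1 l2 p p' x1 x2)
    (hp : p ∈ G.nb l1) : ((G.nb l1 ∩ G.nb v).erase v').card = 3 := by
  have hp' := h.pC T T.L1 hp
  by_contra hcon
  have h0 := (h.c3 T.L1 T.m1).1
  have hsm : ∀ s, s ∈ G.nb l1 → s ∈ G.nb v → s ≠ v' → s ≠ p → s ≠ p' → False := by
    intro s s1 s2 s3 s4 s5
    have h1 := h.ge_C (l := l1) (L := [p, p', s]) (by
      simp [T.t.ne, Ne.symm s4, Ne.symm s5]) (by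
      intro y hy
      simp only [List.mem_cons, List.not_mem_nil, or_false] at hy
      rcases hy with rfl | rfl | rfl
      · exact ⟨hp, T.mp, T.pv⟩
      · exact ⟨hp', T.mp', T.pv'⟩
      · exact ⟨s1, s2, s3⟩)
    simp only [List.length_cons, List.length_nil] at h1
    omega
  have hl2 : l2 ∉ G.nb l1 := fun hh => hsm l2 hh T.m2 (h.tw.ne_low' T.L2) (T.t.ne_low T.L2)
    (T.t.ne_low' T.L2)
  have hhub : ∀ x, G.Hub x → x ∈ G.nb v → x ∉ G.nb l1 := fun x hx hxv hh =>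
    hsm x hh hxv (h.hub_ne hx) (T.p_ne hx) (T.p_ne' hx)
  have h2 : l2 ∈ G.nb p := by
    rcases h.doml T with h1 | h1 | ⟨a, ha, h1⟩
    · exact absurd h1 hl2
    · exact h1
    · exfalso
      have h3 := (hl_iff76.1 h1).1.ab
      rcases ha with rfl | rfl
      · exact hhub _ T.X1 T.n1 h3
      · exact hhub _ T.X2 T.n2 h3
  have hl1p : l1 ∈ G.nb p := G.sym _ _ hp
  have hx2 : ∀ x, G.Hub x → x ∈ G.nb v → x ∈ G.nb l2 := by
    intro x hx hxv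
    rcases h.domx T hx hxv with h1 | h1 | h1
    · exact absurd h1 (hhub x hx hxv)
    · exact h1
    · exact (h.p3 T h1 hxv (h.hub_ne hx) (T.p_ne' hx) hl1p T.m1 (h.tw.ne_low' T.L1)
        (T.t.ne_low' T.L1) h2 T.m2 (h.tw.ne_low' T.L2) (T.t.ne_low' T.L2)
        (hub_ne76 hx T.L1) (hub_ne76 hx T.L2) T.ll).elim
  have hp2 : p ∈ G.nb l2 := G.sym _ _ h2
  refine h.four T.L2 T.m2 (L := [p, p', x1, x2]) (by
    simp [T.t.ne, (T.p_ne T.X1).symm, (T.p_ne T.X2).symm, (T.p_ne' T.X1).symm,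
      (T.p_ne' T.X2).symm, T.hx]) (by
    intro s hs
    simp only [List.mem_cons, List.not_mem_nil, or_false] at hs
    rcases hs with rfl | rfl | rfl | rfl
    · exact ⟨hp2, T.mp, T.pv⟩
    · exact ⟨h.pC T T.L2 hp2, T.mp', T.pv'⟩
    · exact ⟨hx2 _ T.X1 T.n1, T.n1, h.hub_ne T.X1⟩
    · exact ⟨hx2 _ T.X2 T.n2, T.n2, h.hub_ne T.X2⟩) (by simp)

end

end CG

end Pool.Agent.Lib.MP_e95c01_co.N
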