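import Pool.Agent.Lib.MP_e95c01_co.U.StThin1_1
import Pool.Agent.Lib.MP_e95c01_co.N.StStruct53

/-!
# U20a: larger fragments with a low vertex that has one neighbour inside
-/

namespace Pool.Agent.Lib.MP_e95c01_co.N

open Finset

variable {V : Type} [Fintype V] [DecidableEq V]

namespace CG

/-- U20a -/
theorem stAdd4_1 (G : CG V) (hid : G.StIdentU) (hps : G.StPsumU) (hth : G.StThin1) :
    G.StAdd4 := by
  intro hcr hsat F hF h4 hsub c hc q q' hlow hd htw hnb
  have hst := G.stStruct_53 G.stN6_37 G.stCo_37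
  obtain ⟨hCf, hCN, hCC⟩ := G.stCo_37 F hF.1
  -- the neighbour of `c` in `F`
  unfold d at hd
  obtain ⟨b, hb⟩ := card_eq_one.1 hd
  have hbm : b ∈ G.nb c ∩ F := by rw [hb]; exact mem_singleton_self b
  rw [mem_inter] at hbm
  obtain ⟨hbc, hbF⟩ := hbm
  have hcF : c ∉ F := (mem_N1.1 hc).1
  have honly : ∀ u ∈ F, u ∈ G.nb c → u = b := by
    intro u hu hu'
    have h1 : u ∈ G.nb c ∩ F := mem_inter.2 ⟨hu', hu⟩
    rw [hb, mem_singleton] at h1
    exact h1
  have hbN : b ∉ G.N F := fun h => (mem_N1.1 h).1 hbF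
  -- the smaller fragment
  have hBc : (F.erase b).card + 1 = F.card := card_erase_add_one hbF
  have hNB : G.N (F.erase b) ⊆ insert b ((G.N F).erase c) := by
    intro v hv
    obtain ⟨h1, u, hu, hvu⟩ := mem_N1.1 hv
    rw [mem_insert, mem_erase]
    by_cases hvb : v = b
    · exact Or.inl hvb
    · right
      have hvF : v ∉ F := fun h => h1 (mem_erase.2 ⟨hvb, h⟩)
      refine ⟨?_, mem_N1.2 ⟨hvF, u, (mem_erase.1 hu).2, hvu⟩⟩
      rintro rfl
      exact (mem_erase.1 hu).1 (honly u (mem_erase.1 hu).2 (G.sym _ _ hvu))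
  have hNc : (insert b ((G.N F).erase c)).card = 6 := by
    rw [card_insert_of_notMem (fun h => hbN (mem_erase.1 h).2), card_erase_of_mem hc, hF.1.2.1]
  have hcoB : c ∈ G.Co (F.erase b) := by
    rw [mem_Co1]
    refine ⟨fun h => hcF (mem_erase.1 h).2, ?_⟩
    intro h
    have := hNB h
    rw [mem_insert, mem_erase] at this
    rcases this with h1 | h1
    · subst h1
      exact hcF hbF
    · exact h1.1 rfl
  have hBne : (F.erase b).Nonempty := by
    rw [← card_pos]
    omega
  have h6 : 6 ≤ (G.N (F.erase b)).card := G.stN6_37 _ hBne ⟨c, hcoB⟩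
  have hNBe : G.N (F.erase b) = insert b ((G.N F).erase c) :=
    eq_of_subset_of_card_le hNB (by rw [hNc]; exact h6)
  have hBfr : G.Frag (F.erase b) := ⟨hBne, by rw [hNBe, hNc], ⟨c, hcoB⟩⟩
  have hBbig : G.Big (F.erase b) := by
    refine ⟨hBfr, by omega, ?_⟩
    refine hF.2.2.trans (card_le_card ?_)
    intro v hv
    rw [mem_Co1] at hv ⊢
    refine ⟨fun h => hv.1 (mem_erase.1 h).2, ?_⟩
    intro h
    rcases mem_insert.1 (hNB h) with h1 | h1
    · subst h1
      exact hv.1 hbF
    · exact hv.2 (mem_erase.1 h1).2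
  have hBss : F.erase b ⊂ F := erase_ssubset hbF
  have hP := hsub _ hBbig hBss
  -- the strip
  have hdisj : Disjoint (G.Co F) (F.erase b) := by
    rw [disjoint_left]
    intro v hv hv'
    exact (mem_Co1.1 hv).1 (mem_erase.1 hv').2
  have hne : G.Co F ≠ F.erase b := by
    intro h
    obtain ⟨v, hv⟩ := hBne
    exact disjoint_left.1 hdisj (by rw [h]; exact hv) hv
  have hd1 : Disjoint (G.N (G.Co F)) (F.erase b) := by
    rw [hCN, disjoint_left]
    intro v hv hv'
    exact (mem_N1.1 hv).1 (mem_erase.1 hv').2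
  have hd2 : Disjoint (G.N (F.erase b)) (G.Co F) := by
    rw [disjoint_left]
    intro v hv hv'
    rw [mem_Co1] at hv'
    rcases mem_insert.1 (hNB hv) with h1 | h1
    · subst h1
      exact hv'.1 hbF
    · exact hv'.2 (mem_erase.1 h1).2
  have hreg : G.Reg {G.Co F, F.erase b} := by
    constructor
    · intro D hD
      rw [mem_insert, mem_singleton] at hD
      rcases hD with rfl | rfl
      · exact hCf
      · exact hBfr
    · intro D hD D' hD' hDD
      rw [mem_insert, mem_singleton] at hD hD'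
      rcases hD with rfl | rfl <;> rcases hD' with rfl | rfl
      · exact absurd rfl hDD
      · exact ⟨hdisj, hd1⟩
      · exact ⟨hdisj.symm, hd2⟩
      · exact absurd rfl hDD
  have hcard : F.card + (G.N F).card + (G.Co F).card = Fintype.card V := by
    have h1 := G.part37 F (fun _ => True)
    simp only [filter_true, card_univ] at h1
    exact h1.symm
  have hstrip : G.Strip (G.Co F) (F.erase b) := by
    refine ⟨hne, hreg, hF.2.2, by omega, ?_, hsat, ?_⟩
    · have := hF.1.2.1
      have := hF.2.2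
      omega
    · intro v hv
      rw [memR2_1] at hv
      rw [mem_union, hCN, hNBe, mem_insert]
      by_cases hvF : v ∈ F
      · right
        left
        by_contra h
        exact hv.2 (mem_erase.2 ⟨h, hvF⟩)
      · left
        by_contra h
        exact hv.1 (mem_Co1.2 ⟨hvF, h⟩)
  have hS : G.N (G.Co F) \ G.N (F.erase b) = {c} := by
    rw [hCN, hNBe]
    ext v
    rw [mem_sdiff, mem_insert, mem_erase, mem_singleton]
    constructor
    · rintro ⟨h1, h2⟩
      by_contra h3
      exact h2 (Or.inr ⟨h3, h1⟩)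
    · rintro rfl
      refine ⟨hc, ?_⟩
      rintro (h1 | h1)
      · subst h1
        exact hcF hbF
      · exact h1.1 rfl
  have hY : ∀ y ∈ G.N (F.erase b) \ G.N (G.Co F), y = b := by
    intro y hy
    rw [hCN, hNBe, mem_sdiff, mem_insert, mem_erase] at hy
    rcases hy.1 with h1 | h1
    · exact h1
    · exact absurd h1.2 hy.2
  have hscov : G.SCov b c := by
    by_contra h
    rcases hst hcr F hF b hbF c (G.sym _ _ hbc) h with ⟨B', -, hB', hb', hc'⟩ | ⟨h1, -⟩
    · obtain ⟨-, u, hu, hcu⟩ := mem_N1.1 hc'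
      have h1 := honly u (hB'.1 hu) (G.sym _ _ hcu)
      subst h1
      exact (mem_N1.1 hb').1 hu
    · omega
  have hmem : ∀ x, x ∈ G.nb c → x ∈ G.N F → x ∈ G.N (G.Co F) ∩ G.N (F.erase b) := by
    intro x hx hx'
    rw [mem_inter, hCN, hNBe, mem_insert, mem_erase]
    refine ⟨hx', Or.inr ⟨?_, hx'⟩⟩
    rintro rfl
    exact G.irr _ hx
  have hqm : q ∈ G.nb c ∩ G.N F := by rw [hnb]; simp
  have hqm' : q' ∈ G.nb c ∩ G.N F := by rw [hnb]; simp
  rw [mem_inter] at hqm hqm'
  have hqq : q ≠ q' := by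
    rintro rfl
    exact G.irr _ htw.1
  have htw' : G.IsTw q' := by
    refine ⟨q, G.sym _ _ htw.1, ?_, htw.2.2.symm⟩
    have h8 := congrArg Finset.card htw.2.2
    unfold cl at h8
    rw [card_insert_of_notMem (G.irr q), card_insert_of_notMem (G.irr q'), htw.2.1] at h8
    omega
  have hmain := (hth _ _ hstrip (by rw [hS, card_singleton]) (by
    intro y hy s hs _
    rw [hS, mem_singleton] at hs
    rw [hY y hy, hs]
    exact hscov)).2 c (by rw [hS]; exact mem_singleton_self c) hlow q (hmem q hqm.1 hqm.2) q'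
      (hmem q' hqm'.1 hqm'.2) hqq hqm.1 hqm'.1 ⟨q', htw⟩ htw'
  have hI := hid _ hreg
  obtain ⟨hp1, hp2⟩ := hps F hF.1
  rw [sum_pair hne] at hI
  linarith

end CG

end Pool.Agent.Lib.MP_e95c01_co.N
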