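import Pool.Agent.Lib.MP_e95c01_co.U.StLeaf27
import Pool.Agent.Lib.MP_e95c01_co.U.Aux5
import Pool.Agent.Lib.MP_e95c01_co.U.Ident11

/-!
# U18b: leaves that consist of two adjacent pairs of twins
-/

namespace Pool.Agent.Lib.MP_e95c01_co.N

open Finset

variable {V : Type} [Fintype V] [DecidableEq V]

namespace CG

open Classical in
/-- the contribution of a vertex of `N F` to `P4 F` -/
noncomputable def val27 (G : CG V) (F : Finset V) (w : V) : ℤ :=
  (if G.Low w then 4 * (G.d w F : ℤ) + 2 * (G.d w (G.N F) : ℤ) - 4 else 0) +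
    (if G.IsTw w then 2 * (G.d w F : ℤ) + (G.d w (G.N F) : ℤ) - 7 else 0)

variable {G : CG V}

theorem P4_val27 {F : Finset V} (hF : G.Frag F) :
    G.P4 F = 16 * (G.l F : ℤ) - 4 * (F.card : ℤ) - 12 + ∑ w ∈ G.N F, G.val27 F w := by
  classical
  rw [G.stP4_11 F hF]
  simp only [val27, sum_add_distrib, sum_filter]
  ring

theorem val_low27 {F : Finset V} {w : V} (h : G.Low w) :
    G.val27 F w = 4 * (G.d w F : ℤ) + 2 * (G.d w (G.N F) : ℤ) - 4 := by
  have h1 : ¬ G.IsTw w := fun h2 => tw_not_low11 h2 h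
  rw [val27, if_pos h, if_neg h1, add_zero]

theorem val_tw27 {F : Finset V} {w : V} (h : G.IsTw w) :
    G.val27 F w = 2 * (G.d w F : ℤ) + (G.d w (G.N F) : ℤ) - 7 := by
  have h1 : ¬ G.Low w := tw_not_low11 h
  rw [val27, if_neg h1, if_pos h, zero_add]

theorem val_hub27 {F : Finset V} {w : V} (h : ¬ G.Low w) (h' : ¬ G.IsTw w) :
    G.val27 F w = 0 := by
  rw [val27, if_neg h, if_neg h', add_zero]

/-- covers of an edge at a twin vertex of a leaf -/
theorem cov27 (hs : G.StLeaf) (h7 : G.StTwHL) {F : Finset V} (hL : G.Leaf F) {x z : V} (hx : x ∈ F)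
    (hxt : G.IsTw x) (hz : z ∈ G.nb x) :
    (∃ w, (w ∈ F ∨ w ∈ G.N F) ∧ G.Low w ∧ w ∈ G.nb x ∧ w ∈ G.nb z) ∨
    (∃ v w, (v ∈ F ∨ v ∈ G.N F) ∧ (w ∈ F ∨ w ∈ G.N F) ∧ G.Tw v w ∧ v ∈ G.nb x ∧ w ∈ G.nb x ∧
      v ∈ G.nb z ∧ w ∈ G.nb z) ∨
    (∃ a b, (a ∈ F ∨ a ∈ G.N F) ∧ (b ∈ F ∨ b ∈ G.N F) ∧ G.HL a b z ∧ G.Low z ∧ b ∈ G.nb x ∧
      a ∈ G.nb x ∧ a ∈ G.nb z ∧ b ∉ G.nb z) := by
  have hT := hs.torso F hL
  have hmem := hs.mem F hL
  have hzR : z ∈ R {G.Co F} := by
    rw [(hmem z).1]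
    by_cases h : z ∈ F
    · exact Or.inl h
    · exact Or.inr (mem_N37.2 ⟨h, x, hx, hz⟩)
  have hxR := ((hmem x).1).2 (Or.inl hx)
  have hm : G.m {G.Co F} x z = 0 := by
    rw [m, ((hmem x).2.1) hx, empty_inter, card_empty]
  rcases hT.cov x hxR z hzR hz hm with ⟨w, hw, hl, h1, h2⟩ | ⟨v, hv, w, hw, htw, h1, h2, h3, h4⟩ |
    ⟨a, ha, b, hb, hHL, h1, h2⟩ | ⟨a, ha, b, hb, hHL, h1, h2⟩ | ⟨a, ha, b, hb, hLL⟩
  · exact Or.inl ⟨w, ((hmem w).1).1 hw, hl, G.sym _ _ h1, G.sym _ _ h2⟩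
  · right
    left
    exact ⟨v, w, ((hmem v).1).1 hv, ((hmem w).1).1 hw, htw, G.sym _ _ h1,
      G.sym _ _ (Tw_nb5 htw h1 h3), G.sym _ _ h2, G.sym _ _ (Tw_nb5 htw h2 h4)⟩
  · exact absurd (hL.sat a b x hHL) (tw_not_low11 hxt)
  · right
    right
    refine ⟨a, b, ((hmem a).1).1 ha, ((hmem b).1).1 hb, hHL, hL.sat a b z hHL, G.sym _ _ h1, ?_,
      G.sym _ _ (HL_nb5 hHL), ?_⟩
    · have h3 : x ∈ G.cl a := by
        rw [hHL.2.2.2.2]
        exact mem_insert_of_mem (mem_cl37.2 (Or.inr h1))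
      rcases mem_cl37.1 h3 with h4 | h4
      · exact absurd h4 h2
      · exact G.sym _ _ h4
    · intro h3
      exact hHL.2.2.2.1 (mem_cl37.2 (Or.inr (G.sym _ _ h3)))
  · exact absurd hxt (h7.twLL a b x z hLL).1

/-- two adjacent pairs of twins form a leaf -/
structure K27 (G : CG V) (F : Finset V) (f f' g g' : V) : Prop where
  leaf : G.Leaf F
  hs : G.StLeaf
  h7 : G.StTwHL
  eq : F = {f, f', g, g'}
  card : F.card = 4
  tf : G.Tw f f'
  tg : G.Tw g g'
  fg : f ≠ g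
  fg' : f ≠ g'
  gf' : g ≠ f'
  all : ∀ x ∈ F, ∀ y ∈ F, G.IsTw x ∧ (x ≠ y → y ∈ G.nb x)

namespace K27

variable {F : Finset V} {f f' g g' : V}

theorem symm (h : K27 G F f f' g g') : K27 G F g g' f f' := by
  refine ⟨h.leaf, h.hs, h.h7, ?_, h.card, h.tg, h.tf, h.fg.symm, h.gf', h.fg', h.all⟩
  rw [h.eq]
  ext x
  simp only [mem_insert, mem_singleton]
  tauto

theorem n9 (h : K27 G F f f' g g') : 9 ≤ Fintype.card V := by
  have := h.leaf.n13
  omega

theorem mf (h : K27 G F f f' g g') : f ∈ F := by rw [h.eq]; simp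
theorem mf' (h : K27 G F f f' g g') : f' ∈ F := by rw [h.eq]; simp
theorem mg (h : K27 G F f f' g g') : g ∈ F := by rw [h.eq]; simp
theorem mg' (h : K27 G F f f' g g') : g' ∈ F := by rw [h.eq]; simp

theorem tw (h : K27 G F f f' g g') {x : V} (hx : x ∈ F) : G.IsTw x := (h.all x hx x hx).1

theorem nlow (h : K27 G F f f' g g') {x : V} (hx : x ∈ F) : ¬ G.Low x := tw_not_low11 (h.tw hx)

theorem notF {x : V} (hx : x ∈ G.N F) : x ∉ F := (mem_N37.1 hx).1

theorem ne {x y : V} (hx : x ∈ G.N F) (hy : y ∈ F) : x ≠ y := fun h => notF hx (by rw [h]; exact hy)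

/-- a vertex of `N F` sees `f` iff it sees `f'` -/
theorem sf (h : K27 G F f f' g g') {x : V} (hx : x ∈ G.N F) : f ∈ G.nb x ↔ f' ∈ G.nb x :=
  ⟨fun h1 => G.sym _ _ (Tw_nb5 h.tf (G.sym _ _ h1) (ne hx h.mf')),
    fun h1 => G.sym _ _ (Tw_nb5 (h.h7.symm _ _ h.tf) (G.sym _ _ h1) (ne hx h.mf))⟩

theorem sees (h : K27 G F f f' g g') {x : V} (hx : x ∈ G.N F) : f ∈ G.nb x ∨ g ∈ G.nb x := by
  obtain ⟨-, u, hu, hxu⟩ := mem_N37.1 hx
  have h1 := G.sym _ _ hxu
  rw [h.eq, mem_insert, mem_insert, mem_insert, mem_singleton] at hu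
  rcases hu with rfl | rfl | rfl | rfl
  · exact Or.inl h1
  · exact Or.inl ((h.sf hx).2 h1)
  · exact Or.inr h1
  · exact Or.inr ((h.symm.sf hx).2 h1)

/-- the vertices of `N F` that see `f` but not `g` -/
def A (G : CG V) (F : Finset V) (f g : V) : Finset V := (G.N F ∩ G.nb f) \ G.nb g

/-- the vertices of `N F` that see `f` and `g` -/
def M (G : CG V) (F : Finset V) (f g : V) : Finset V := (G.N F ∩ G.nb f) ∩ G.nb g

theorem mem_A {x : V} : x ∈ A G F f g ↔ x ∈ G.N F ∧ f ∈ G.nb x ∧ g ∉ G.nb x := by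
  rw [A, mem_sdiff, mem_inter]
  constructor
  · rintro ⟨⟨h1, h2⟩, h3⟩
    exact ⟨h1, G.sym _ _ h2, fun h4 => h3 (G.sym _ _ h4)⟩
  · rintro ⟨h1, h2, h3⟩
    exact ⟨⟨h1, G.sym _ _ h2⟩, fun h4 => h3 (G.sym _ _ h4)⟩

theorem mem_M {x : V} : x ∈ M G F f g ↔ x ∈ G.N F ∧ f ∈ G.nb x ∧ g ∈ G.nb x := by
  rw [M, mem_inter, mem_inter]
  constructor
  · rintro ⟨⟨h1, h2⟩, h3⟩
    exact ⟨h1, G.sym _ _ h2, G.sym _ _ h3⟩
  · rintro ⟨h1, h2, h3⟩
    exact ⟨⟨h1, G.sym _ _ h2⟩, G.sym _ _ h3⟩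

theorem M_comm : M G F f g = M G F g f := by
  ext x
  rw [mem_M, mem_M]
  tauto

theorem card_nb (h : K27 G F f f' g g') : (G.N F ∩ G.nb f).card = 4 := by
  have h1 : G.nb f = (G.N F ∩ G.nb f) ∪ F.erase f := by
    ext x
    rw [mem_union, mem_inter, mem_erase]
    constructor
    · intro hx
      by_cases hF : x ∈ F
      · exact Or.inr ⟨(ne_of_nb5 hx).symm, hF⟩
      · exact Or.inl ⟨mem_N37.2 ⟨hF, f, h.mf, hx⟩, hx⟩
    · rintro (hx | hx)
      · exact hx.2
      · exact (h.all f h.mf x hx.2).2 hx.1.symm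
  have h2 : Disjoint (G.N F ∩ G.nb f) (F.erase f) := by
    rw [disjoint_left]
    intro x hx hx'
    exact notF (mem_inter.1 hx).1 (mem_erase.1 hx').2
  have h3 := card_union_of_disjoint h2
  rw [← h1, card_erase_of_mem h.mf, h.card, h.tf.2.1] at h3
  omega

theorem card_M (h : K27 G F f f' g g') : (M G F f g).card = 2 := by
  have h1 := card_union_add_card_inter (G.N F ∩ G.nb f) (G.N F ∩ G.nb g)
  have h2 : (G.N F ∩ G.nb f) ∪ (G.N F ∩ G.nb g) = G.N F := by
    ext x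
    rw [mem_union, mem_inter, mem_inter]
    constructor
    · rintro (h3 | h3)
      · exact h3.1
      · exact h3.1
    · intro hx
      rcases h.sees hx with h3 | h3
      · exact Or.inl ⟨hx, G.sym _ _ h3⟩
      · exact Or.inr ⟨hx, G.sym _ _ h3⟩
  have h3 : (G.N F ∩ G.nb f) ∩ (G.N F ∩ G.nb g) = M G F f g := by
    ext x
    rw [M, mem_inter, mem_inter, mem_inter, mem_inter, mem_inter]
    tauto
  rw [h2, h3, h.card_nb, h.symm.card_nb, h.leaf.big.1.2.1] at h1
  omega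

theorem card_A (h : K27 G F f f' g g') : (A G F f g).card = 2 := by
  have h1 := card_sdiff_add_card_inter (G.N F ∩ G.nb f) (G.nb g)
  have h2 := h.card_M
  rw [M] at h2
  rw [h2, h.card_nb] at h1
  rw [A]
  omega

theorem dA (h : K27 G F f f' g g') {x : V} (hx : x ∈ A G F f g) : 2 ≤ G.d x F := by
  rw [mem_A] at hx
  have hff : f ≠ f' := ne_of_nb5 h.tf.1
  rw [d]
  exact two_le5 (mem_inter.2 ⟨hx.2.1, h.mf⟩) (mem_inter.2 ⟨(h.sf hx.1).1 hx.2.1, h.mf'⟩) hff

theorem dM (h : K27 G F f f' g g') {x : V} (hx : x ∈ M G F f g) : G.d x F = 4 := by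
  rw [mem_M] at hx
  have h1 : G.nb x ∩ F = F := by
    rw [inter_eq_right]
    intro y hy
    rw [h.eq, mem_insert, mem_insert, mem_insert, mem_singleton] at hy
    rcases hy with rfl | rfl | rfl | rfl
    · exact hx.2.1
    · exact (h.sf hx.1).1 hx.2.1
    · exact hx.2.2
    · exact (h.symm.sf hx.1).1 hx.2.2
  rw [d, h1, h.card]

theorem le5 (h : K27 G F f f' g g') {x : V} (hx : x ∈ G.N F) (hlt : G.Low x ∨ G.IsTw x) :
    G.d x F + G.d x (G.N F) ≤ 5 := by
  have h1 := d_split76 (G := G) x F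
  have h0 : G.d x (G.N F) = (G.nb x ∩ G.N F).card := rfl
  rcases hlt with hl | ht
  · have h2 := d_Co_pos76 h.leaf.big.1 hx
    have h3 : (G.nb x).card = 6 := hl
    omega
  · have h2 := h.h7.hid {G.Co F} (h.hs.torso F h.leaf).reg (h.hs.torso F h.leaf).big x
      (((h.hs.mem F h.leaf x).1).2 (Or.inr hx)) ht (G.Co F) (by
        rw [((h.hs.mem F h.leaf x).2.2) hx]
        exact mem_singleton_self _)
    have h3 := tw_card11 ht
    omega

/-- a low or twin vertex of `M` has at most one neighbour in `N F` -/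
theorem M_one (h : K27 G F f f' g g') {x y z : V} (hx : x ∈ M G F f g)
    (hlt : G.Low x ∨ G.IsTw x) (hy : y ∈ G.N F) (hz : z ∈ G.N F) (hxy : y ∈ G.nb x)
    (hxz : z ∈ G.nb x) : y = z := by
  by_contra hne
  have h1 := h.le5 (mem_M.1 hx).1 hlt
  have h2 := h.dM hx
  have h3 : 2 ≤ G.d x (G.N F) := by
    rw [d]
    exact two_le5 (mem_inter.2 ⟨hxy, hy⟩) (mem_inter.2 ⟨hxz, hz⟩) hne
  omega

/-- twins of vertices of `N F` -/
theorem twT (h : K27 G F f f' g g') {x y : V} (hx : x ∈ G.N F) (hxy : G.Tw x y) : y ∈ G.N F := by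
  have h1 := h.h7.twI _ (h.hs.torso F h.leaf).reg x (((h.hs.mem F h.leaf x).1).2 (Or.inr hx)) y hxy
  rcases ((h.hs.mem F h.leaf y).1).1 h1.1 with h2 | h2
  · exfalso
    have h3 := h1.2
    rw [((h.hs.mem F h.leaf x).2.2) hx, ((h.hs.mem F h.leaf y).2.1) h2] at h3
    exact singleton_ne_empty _ h3.symm
  · exact h2

theorem twA (h : K27 G F f f' g g') {x y : V} (hx : x ∈ A G F f g) (hxy : G.Tw x y) :
    y ∈ A G F f g := by
  rw [mem_A] at hx ⊢
  refine ⟨h.twT hx.1 hxy, ?_, ?_⟩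
  · exact Tw_nb5 hxy hx.2.1 (ne (h.twT hx.1 hxy) h.mf).symm
  · intro h1
    exact hx.2.2 (Tw_nb5 (h.h7.symm _ _ hxy) h1 (ne hx.1 h.mg).symm)

/-- the twin of a vertex of `F` that is a neighbour of `f` and of a vertex of `A` -/
theorem covA (h : K27 G F f f' g g') {a : V} (ha : a ∈ A G F f g) :
    (∃ w, (w ∈ A G F f g ∨ w ∈ M G F f g) ∧ G.Low w ∧ w ∈ G.nb a) ∨
    (∃ v w, G.Tw v w ∧ (v ∈ A G F f g ∨ v ∈ M G F f g) ∧ (w ∈ A G F f g ∨ w ∈ M G F f g) ∧
      v ∈ G.nb a ∧ w ∈ G.nb a) ∨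
    (∃ x y, G.HL x y a ∧ G.Low a ∧ (x ∈ A G F f g ∨ x ∈ M G F f g) ∧
      (y ∈ A G F f g ∨ y ∈ M G F f g) ∧ x ∈ G.nb a ∧ y ∉ G.nb a) := by
  have ha' := mem_A.1 ha
  have hAM : ∀ w ∈ G.N F, w ∈ G.nb f → w ∈ A G F f g ∨ w ∈ M G F f g := by
    intro w hw hwf
    rw [mem_A, mem_M]
    have := G.sym _ _ hwf
    by_cases h1 : g ∈ G.nb w
    · exact Or.inr ⟨hw, this, h1⟩
    · exact Or.inl ⟨hw, this, h1⟩
  have hF : ∀ v ∈ F, v ∈ G.nb f → v ∈ G.nb a → v = f' := by
    intro v hv hvf hva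
    rw [h.eq, mem_insert, mem_insert, mem_insert, mem_singleton] at hv
    rcases hv with rfl | rfl | rfl | rfl
    · exact absurd hvf (G.irr _)
    · rfl
    · exact absurd hva ha'.2.2
    · exact absurd ((h.symm.sf ha'.1).2 hva) ha'.2.2
  have hF2 : ∀ v w, G.Tw v w → v ∈ F → v ∈ G.nb f → w ∈ G.nb f → v ∈ G.nb a → False := by
    intro v w hvw hv hvf hwf hva
    have h1 := hF v hv hvf hva
    subst h1
    have h2 := h.h7.uniq h.n9 _ _ _ hvw (h.h7.symm _ _ h.tf)
    rw [h2] at hwf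
    exact G.irr _ hwf
  rcases cov27 h.hs h.h7 h.leaf h.mf (h.tw h.mf) (G.sym _ _ ha'.2.1) with
    ⟨w, hw, hl, h1, h2⟩ | ⟨v, w, hv, hw, hvw, h1, h2, h3, h4⟩ |
    ⟨x, y, hx, hy, hHL, hla, h1, h2, h3, h4⟩
  · left
    rcases hw with hw | hw
    · exact absurd hl (h.nlow hw)
    · exact ⟨w, hAM w hw h1, hl, h2⟩
  · right
    left
    rcases hv with hv | hv
    · exact (hF2 v w hvw hv h1 h2 h3).elim
    rcases hw with hw | hw
    · exact (hF2 w v (h.h7.symm _ _ hvw) hw h2 h1 h4).elim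
    exact ⟨v, w, hvw, hAM v hv h1, hAM w hw h2, h3, h4⟩
  · right
    right
    rcases hx with hx | hx
    · exact absurd (h.tw hx) (h.h7.notHL h.n9 _ _ _ hHL)
    rcases hy with hy | hy
    · exact absurd hHL.2.1 (h.nlow hy)
    exact ⟨x, y, hHL, hla, hAM x hx h2, hAM y hy h1, h3, h4⟩

theorem card_HL {x y a : V} (h : G.HL x y a) : ¬ G.Low x := by
  intro h1
  have h2 : (G.nb x).card = 6 := h1
  have h3 := h.1
  omega

/-- HL with two vertices of different sets -/
theorem no_HL (h : K27 G F f f' g g') {x y a : V} (hHL : G.HL x y a) (ha : a ∈ G.N F) {u : V}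
    (hu : u ∈ F) (hyu : u ∈ G.nb y) (hxu : u ∉ G.nb x) (hx : x ∈ G.N F) : False := by
  have h1 : u ∈ G.cl x := by
    rw [hHL.2.2.2.2]
    exact mem_insert_of_mem (mem_cl37.2 (Or.inr hyu))
  rcases mem_cl37.1 h1 with h2 | h2
  · exact ne hx hu h2.symm
  · exact hxu h2

theorem no_HL' (h : K27 G F f f' g g') {x y a : V} (hHL : G.HL x y a) (ha : a ∈ G.N F) {u : V}
    (hu : u ∈ F) (hyu : u ∉ G.nb y) (hxu : u ∈ G.nb x) (hy : y ∈ G.N F) : False := by
  have h1 : u ∈ insert a (G.cl y) := by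
    rw [← hHL.2.2.2.2]
    exact mem_cl37.2 (Or.inr hxu)
  rcases mem_insert.1 h1 with h2 | h2
  · exact ne ha hu h2.symm
  rcases mem_cl37.1 h2 with h3 | h3
  · exact ne hy hu h3.symm
  · exact hyu h3

theorem val_A (h : K27 G F f f' g g') {a : V} (ha : a ∈ A G F f g) (hl : G.Low a) :
    4 + 2 * (G.d a (G.N F) : ℤ) ≤ G.val27 F a := by
  rw [val_low27 hl]
  have := h.dA ha
  omega

/-- the twins of `A` -/
theorem val_A0 (h : K27 G F f f' g g') {a a' : V} (hA : A G F f g = {a, a'})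
    (hnt : ¬ G.Tw a a') : 0 ≤ G.val27 F a := by
  have ha : a ∈ A G F f g := by rw [hA]; exact mem_insert_self _ _
  by_cases hl : G.Low a
  · have := h.val_A ha hl
    have h2 : (0 : ℤ) ≤ (G.d a (G.N F) : ℤ) := Int.natCast_nonneg _
    linarith
  by_cases ht : G.IsTw a
  · exfalso
    obtain ⟨w, hw⟩ := ht
    have h1 := h.twA ha hw
    rw [hA, mem_insert, mem_singleton] at h1
    rcases h1 with rfl | rfl
    · exact G.irr _ hw.1
    · exact hnt hw
  · rw [val_hub27 hl ht]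

theorem sum_A {a a' : V} (hne : a ≠ a') (hA : A G F f g = {a, a'}) :
    ∑ w ∈ A G F f g, G.val27 F w = G.val27 F a + G.val27 F a' := by
  rw [hA, sum_pair hne]

/-- first case: `M` is a pair of twins -/
theorem side1 (h : K27 G F f f' g g') {m m' : V} (hM : M G F f g = {m, m'}) (hmm : G.Tw m m') :
    12 ≤ ∑ w ∈ A G F f g, G.val27 F w := by
  obtain ⟨a, a', hne, hA⟩ := card_eq_two.1 h.card_A
  have hm : m ∈ M G F f g := by rw [hM]; simp
  have hm' : m' ∈ M G F f g := by rw [hM]; simp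
  have hMt : ∀ x ∈ M G F f g, ∃ y ∈ M G F f g, G.Tw x y := by
    intro x hx
    rw [hM, mem_insert, mem_singleton] at hx
    rcases hx with rfl | rfl
    · exact ⟨_, hm', hmm⟩
    · exact ⟨_, hm, h.h7.symm _ _ hmm⟩
  have hMA : ∀ x ∈ M G F f g, ∀ b ∈ A G F f g, x ∉ G.nb b := by
    intro x hx b hb hxb
    obtain ⟨y, hy, hxy⟩ := hMt x hx
    have h1 := h.M_one hx (Or.inr ⟨y, hxy⟩) (mem_A.1 hb).1 (mem_M.1 hy).1 (G.sym _ _ hxb) hxy.1
    rw [h1] at hb
    exact (mem_A.1 hb).2.2 (mem_M.1 hy).2.2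
  have key : ∀ b c, A G F f g = {b, c} → G.Low c ∧ c ∈ G.nb b := by
    intro b c hbc
    have hb : b ∈ A G F f g := by rw [hbc]; simp
    have hin : ∀ x ∈ A G F f g, x ∈ G.nb b → x = c := by
      intro x hx hxb
      rw [hbc, mem_insert, mem_singleton] at hx
      rcases hx with rfl | rfl
      · exact absurd hxb (G.irr _)
      · rfl
    rcases h.covA hb with ⟨w, hw, hl, h1⟩ | ⟨v, w, hvw, hv, hw, h1, h2⟩ |
      ⟨x, y, hHL, hla, hx, hy, h1, h2⟩
    · rcases hw with hw | hw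
      · rw [hin w hw h1] at hl h1
        exact ⟨hl, h1⟩
      · exact absurd h1 (hMA w hw b hb)
    · exfalso
      rcases hv with hv | hv
      · rcases hw with hw | hw
        · rw [hin v hv h1, hin w hw h2] at hvw
          exact G.irr _ hvw.1
        · exact hMA w hw b hb h2
      · exact hMA v hv b hb h1
    · exfalso
      rcases hx with hx | hx
      · rcases hy with hy | hy
        · have h3 := hin x hx h1
          have h4 : y ≠ b := by
            rintro rfl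
            exact hHL.2.2.2.1 (mem_cl37.2 (Or.inl rfl))
          have h5 : y = c := by
            rw [hbc, mem_insert, mem_singleton] at hy
            exact hy.resolve_left h4
          rw [h3, h5] at hHL
          exact G.irr _ hHL.2.2.1
        · obtain ⟨z, -, hz⟩ := hMt y hy
          exact tw_not_low11 ⟨z, hz⟩ hHL.2.1
      · obtain ⟨z, -, hz⟩ := hMt x hx
        exact h.h7.notHL h.n9 _ _ _ hHL ⟨z, hz⟩
  have ha : a ∈ A G F f g := by rw [hA]; simp
  have ha' : a' ∈ A G F f g := by rw [hA]; simp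
  obtain ⟨k1, k2⟩ := key a a' hA
  obtain ⟨k3, k4⟩ := key a' a (by rw [hA, pair_comm])
  rw [sum_A hne hA]
  have h1 := h.val_A ha k3
  have h2 := h.val_A ha' k1
  have h3 : 1 ≤ G.d a (G.N F) := by
    rw [d, Nat.succ_le_iff, card_pos]
    exact ⟨a', mem_inter.2 ⟨k2, (mem_A.1 ha').1⟩⟩
  have h4 : 1 ≤ G.d a' (G.N F) := by
    rw [d, Nat.succ_le_iff, card_pos]
    exact ⟨a, mem_inter.2 ⟨k4, (mem_A.1 ha).1⟩⟩
  omega

/-- second case: `M` is a pair of lows -/
theorem side2 (h : K27 G F f f' g g') {m m' : V} (hM : M G F f g = {m, m'}) (hne' : m ≠ m')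
    (hm : G.Low m) (hm' : G.Low m') :
    0 ≤ ∑ w ∈ A G F f g, G.val27 F w ∧ (4 ≤ ∑ w ∈ A G F f g, G.val27 F w ∨
      (1 ≤ G.d m (G.N F) ∧ 1 ≤ G.d m' (G.N F))) := by
  obtain ⟨a, a', hne, hA⟩ := card_eq_two.1 h.card_A
  have hmM : m ∈ M G F f g := by rw [hM]; simp
  have hmM' : m' ∈ M G F f g := by rw [hM]; simp
  have hMlow : ∀ x ∈ M G F f g, G.Low x := by
    intro x hx
    rw [hM, mem_insert, mem_singleton] at hx
    rcases hx with rfl | rfl
    · exact hm
    · exact hm'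
  have key : ∀ b c, A G F f g = {b, c} → G.Low b ∨ G.Low c ∨ ∃ x ∈ M G F f g, x ∈ G.nb b := by
    intro b c hbc
    have hb : b ∈ A G F f g := by rw [hbc]; simp
    have hin : ∀ x ∈ A G F f g, x ∈ G.nb b → x = c := by
      intro x hx hxb
      rw [hbc, mem_insert, mem_singleton] at hx
      rcases hx with rfl | rfl
      · exact absurd hxb (G.irr _)
      · rfl
    rcases h.covA hb with ⟨w, hw, hl, h1⟩ | ⟨v, w, hvw, hv, hw, h1, h2⟩ |
      ⟨x, y, hHL, hla, hx, hy, h1, h2⟩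
    · rcases hw with hw | hw
      · rw [hin w hw h1] at hl
        exact Or.inr (Or.inl hl)
      · exact Or.inr (Or.inr ⟨w, hw, h1⟩)
    · exfalso
      rcases hv with hv | hv
      · rcases hw with hw | hw
        · rw [hin v hv h1, hin w hw h2] at hvw
          exact G.irr _ hvw.1
        · exact tw_not_low11 ⟨v, h.h7.symm _ _ hvw⟩ (hMlow w hw)
      · exact tw_not_low11 ⟨w, hvw⟩ (hMlow v hv)
    · exact Or.inl hla
  have ha : a ∈ A G F f g := by rw [hA]; simp
  have ha' : a' ∈ A G F f g := by rw [hA]; simp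
  have hA' : A G F f g = {a', a} := by rw [hA, pair_comm]
  rw [sum_A hne hA]
  by_cases hlow : G.Low a ∨ G.Low a'
  · have hnt : ¬ G.Tw a a' := by
      intro ht
      rcases hlow with hl | hl
      · exact tw_not_low11 ⟨a', ht⟩ hl
      · exact tw_not_low11 ⟨a, h.h7.symm _ _ ht⟩ hl
    have hnt' : ¬ G.Tw a' a := fun ht => hnt (h.h7.symm _ _ ht)
    have h1 := h.val_A0 hA hnt
    have h2 := h.val_A0 hA' hnt'
    rcases hlow with hl | hl
    · have h3 := h.val_A ha hl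
      exact ⟨by omega, Or.inl (by omega)⟩
    · have h3 := h.val_A ha' hl
      exact ⟨by omega, Or.inl (by omega)⟩
  · rw [not_or] at hlow
    obtain ⟨x, hx, hxa⟩ := ((key a a' hA).resolve_left hlow.1).resolve_left hlow.2
    obtain ⟨y, hy, hya⟩ := ((key a' a hA').resolve_left hlow.2).resolve_left hlow.1
    have hxy : x ≠ y := by
      rintro rfl
      exact hne (h.M_one hx (Or.inl (hMlow x hx)) (mem_A.1 ha).1 (mem_A.1 ha').1
        (G.sym _ _ hxa) (G.sym _ _ hya))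
    have hd : ∀ z ∈ M G F f g, 1 ≤ G.d z (G.N F) := by
      intro z hz
      have h1 : z = x ∨ z = y := by
        rw [hM, mem_insert, mem_singleton] at hx hy hz
        rcases hz with rfl | rfl <;> rcases hx with rfl | rfl <;> rcases hy with rfl | rfl <;>
          simp_all
      rw [d, Nat.succ_le_iff, card_pos]
      rcases h1 with rfl | rfl
      · exact ⟨a, mem_inter.2 ⟨G.sym _ _ hxa, (mem_A.1 ha).1⟩⟩
      · exact ⟨a', mem_inter.2 ⟨G.sym _ _ hya, (mem_A.1 ha').1⟩⟩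
    have hnt : ¬ G.Tw a a' := by
      intro ht
      have h1 : x ∈ G.nb a' := Tw_nb5 ht hxa (by
        rintro rfl
        exact (mem_A.1 ha').2.2 (mem_M.1 hx).2.2)
      exact hne (h.M_one hx (Or.inl (hMlow x hx)) (mem_A.1 ha).1 (mem_A.1 ha').1
        (G.sym _ _ hxa) (G.sym _ _ h1))
    have hnt' : ¬ G.Tw a' a := fun ht => hnt (h.h7.symm _ _ ht)
    have h1 := h.val_A0 hA hnt
    have h2 := h.val_A0 hA' hnt'
    exact ⟨by omega, Or.inr ⟨hd m hmM, hd m' hmM'⟩⟩

/-- third case: `M` is a low and a hub -/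
theorem side3 (h : K27 G F f f' g g') {m k : V} (hM : M G F f g = {m, k}) (hmk : m ≠ k)
    (hm : G.Low m) (hk : ¬ G.Low k) (hkt : ¬ G.IsTw k) :
    8 ≤ ∑ w ∈ A G F f g, G.val27 F w := by
  obtain ⟨a, a', hne, hA⟩ := card_eq_two.1 h.card_A
  have hmM : m ∈ M G F f g := by rw [hM]; simp
  have hkM : k ∈ M G F f g := by rw [hM]; simp
  have hMlow : ∀ x ∈ M G F f g, G.Low x → x = m := by
    intro x hx hl
    rw [hM, mem_insert, mem_singleton] at hx
    rcases hx with rfl | rfl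
    · rfl
    · exact absurd hl hk
  have hMtw : ∀ x ∈ M G F f g, ¬ G.IsTw x := by
    intro x hx
    rw [hM, mem_insert, mem_singleton] at hx
    rcases hx with rfl | rfl
    · exact fun ht => tw_not_low11 ht hm
    · exact hkt
  have key : ∀ b c, A G F f g = {b, c} → (G.Low c ∧ c ∈ G.nb b) ∨ m ∈ G.nb b ∨ G.HL k m b := by
    intro b c hbc
    have hb : b ∈ A G F f g := by rw [hbc]; simp
    have hc : c ∈ A G F f g := by rw [hbc]; simp
    have hin : ∀ x ∈ A G F f g, x ∈ G.nb b → x = c := by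
      intro x hx hxb
      rw [hbc, mem_insert, mem_singleton] at hx
      rcases hx with rfl | rfl
      · exact absurd hxb (G.irr _)
      · rfl
    rcases h.covA hb with ⟨w, hw, hl, h1⟩ | ⟨v, w, hvw, hv, hw, h1, h2⟩ |
      ⟨x, y, hHL, hla, hx, hy, h1, h2⟩
    · rcases hw with hw | hw
      · rw [hin w hw h1] at hl h1
        exact Or.inl ⟨hl, h1⟩
      · rw [hMlow w hw hl] at h1
        exact Or.inr (Or.inl h1)
    · exfalso
      rcases hv with hv | hv
      · rcases hw with hw | hw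
        · rw [hin v hv h1, hin w hw h2] at hvw
          exact G.irr _ hvw.1
        · exact hMtw w hw ⟨v, h.h7.symm _ _ hvw⟩
      · exact hMtw v hv ⟨w, hvw⟩
    · right
      right
      have hyl := hHL.2.1
      rcases hy with hy | hy
      · exfalso
        have h4 : y ≠ b := by
          rintro rfl
          exact hHL.2.2.2.1 (mem_cl37.2 (Or.inl rfl))
        have h5 : y = c := by
          rw [hbc, mem_insert, mem_singleton] at hy
          exact hy.resolve_left h4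
        subst h5
        rcases hx with hx | hx
        · have h6 := hin x hx h1
          rw [h6] at hHL
          exact G.irr _ hHL.2.2.1
        · exact h.no_HL' hHL (mem_A.1 hb).1 h.mg (mem_A.1 hc).2.2 (mem_M.1 hx).2.2 (mem_A.1 hc).1
      · have h5 := hMlow y hy hyl
        subst h5
        rcases hx with hx | hx
        · exact (h.no_HL hHL (mem_A.1 hb).1 h.mg (mem_M.1 hy).2.2 (mem_A.1 hx).2.2
            (mem_A.1 hx).1).elim
        · have h6 : x = k := by
            rw [hM, mem_insert, mem_singleton] at hx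
            rcases hx with rfl | rfl
            · exact absurd hyl (card_HL hHL)
            · rfl
          rw [h6] at hHL
          exact hHL
  have ha : a ∈ A G F f g := by rw [hA]; simp
  have ha' : a' ∈ A G F f g := by rw [hA]; simp
  -- the exceptional forms at both vertices are impossible
  have hex : ∀ b c, A G F f g = {b, c} → b ≠ c → (m ∈ G.nb b ∨ G.HL k m b) →
      (m ∈ G.nb c ∨ G.HL k m c) → False := by
    intro b c hbc hbc' h1 h2
    have hb : b ∈ A G F f g := by rw [hbc]; simp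
    have hc : c ∈ A G F f g := by rw [hbc]; simp
    have hbk : ∀ z ∈ A G F f g, z ≠ k := by
      rintro z hz rfl
      exact (mem_A.1 hz).2.2 (mem_M.1 hkM).2.2
    rcases h1 with h1 | h1 <;> rcases h2 with h2 | h2
    · exact hbc' (h.M_one hmM (Or.inl hm) (mem_A.1 hb).1 (mem_A.1 hc).1 (G.sym _ _ h1)
        (G.sym _ _ h2))
    · exact hbk b hb (h.M_one hmM (Or.inl hm) (mem_A.1 hb).1 (mem_M.1 hkM).1 (G.sym _ _ h1)
        (G.sym _ _ h2.2.2.1))
    · exact hbk c hc (h.M_one hmM (Or.inl hm) (mem_A.1 hc).1 (mem_M.1 hkM).1 (G.sym _ _ h2)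
        (G.sym _ _ h1.2.2.1))
    · have h3 : b ∈ insert c (G.cl m) := by
        rw [← h2.2.2.2.2, h1.2.2.2.2]
        exact mem_insert_self _ _
      rcases mem_insert.1 h3 with h4 | h4
      · exact hbc' h4
      · exact h1.2.2.2.1 h4
  -- the value when the other vertex needs the low `b`
  have hval : ∀ b c, A G F f g = {b, c} → b ≠ c → (G.Low b ∧ b ∈ G.nb c) →
      (m ∈ G.nb b ∨ G.HL k m b) → 8 ≤ G.val27 F b + G.val27 F c := by
    intro b c hbc hbc' h1 h2
    have hb : b ∈ A G F f g := by rw [hbc]; simp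
    have hc : c ∈ A G F f g := by rw [hbc]; simp
    have h3 := h.val_A hb h1.1
    have h4 := h.val_A0 (a := c) (a' := b) (by rw [hbc, pair_comm]) (by
      intro ht
      exact tw_not_low11 ⟨c, h.h7.symm _ _ ht⟩ h1.1)
    have h5 : 2 ≤ G.d b (G.N F) := by
      rw [d]
      rcases h2 with h2 | h2
      · exact two_le5 (mem_inter.2 ⟨h2, (mem_M.1 hmM).1⟩)
          (mem_inter.2 ⟨G.sym _ _ h1.2, (mem_A.1 hc).1⟩) (by
          rintro rfl
          exact (mem_A.1 hc).2.2 (mem_M.1 hmM).2.2)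
      · exact two_le5 (mem_inter.2 ⟨G.sym _ _ (HL_nb5 h2), (mem_M.1 hkM).1⟩)
          (mem_inter.2 ⟨G.sym _ _ h1.2, (mem_A.1 hc).1⟩) (by
          rintro rfl
          exact (mem_A.1 hc).2.2 (mem_M.1 hkM).2.2)
    omega
  have hA' : A G F f g = {a', a} := by rw [hA, pair_comm]
  rw [sum_A hne hA]
  rcases key a a' hA with h1 | h1
  · rcases key a' a hA' with h2 | h2
    · have k1 := h.val_A ha h2.1
      have k2 := h.val_A ha' h1.1
      omega
    · have := hval a' a hA' hne.symm ⟨h1.1, h1.2⟩ h2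
      omega
  · rcases key a' a hA' with h2 | h2
    · exact hval a a' hA hne ⟨h2.1, h2.2⟩ h1
    · exact (hex a a' hA hne h1 h2).elim

theorem split (h : K27 G F f f' g g') : ∑ w ∈ G.N F, G.val27 F w =
    ∑ w ∈ A G F f g, G.val27 F w + ∑ w ∈ A G F g f, G.val27 F w +
      ∑ w ∈ M G F f g, G.val27 F w := by
  have h1 := sum_inter_add_sum_sdiff (G.N F) (G.nb f) (fun w => G.val27 F w)
  have h2 := sum_inter_add_sum_sdiff (G.N F ∩ G.nb f) (G.nb g) (fun w => G.val27 F w)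
  have h3 : G.N F \ G.nb f = A G F g f := by
    ext x
    rw [mem_sdiff, mem_A]
    constructor
    · rintro ⟨hx, hxf⟩
      have h4 : f ∉ G.nb x := fun h5 => hxf (G.sym _ _ h5)
      exact ⟨hx, (h.sees hx).resolve_left h4, h4⟩
    · rintro ⟨hx, -, h4⟩
      exact ⟨hx, fun h5 => h4 (G.sym _ _ h5)⟩
  have h4 : ∑ x ∈ (G.N F ∩ G.nb f) ∩ G.nb g, G.val27 F x = ∑ x ∈ M G F f g, G.val27 F x := rfl
  have h5 : ∑ x ∈ (G.N F ∩ G.nb f) \ G.nb g, G.val27 F x = ∑ x ∈ A G F f g, G.val27 F x := rfl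
  rw [h3] at h1
  rw [h4, h5] at h2
  linarith

theorem main (h : K27 G F f f' g g') : 28 ≤ ∑ w ∈ G.N F, G.val27 F w := by
  obtain ⟨m, m', hne, hM⟩ := card_eq_two.1 h.card_M
  rw [h.split, hM, sum_pair hne]
  have hmM : m ∈ M G F f g := by rw [hM]; simp
  have hmM' : m' ∈ M G F f g := by rw [hM]; simp
  have hMs : M G F g f = {m, m'} := by rw [← hM, M_comm]
  have vlow : ∀ x ∈ M G F f g, G.Low x → G.val27 F x = 12 + 2 * (G.d x (G.N F) : ℤ) := by
    intro x hx hl
    rw [val_low27 hl, h.dM hx]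
    push_cast
    ring
  have twlow : G.Low m → ¬ G.IsTw m' := by
    rintro hl ⟨w, hw⟩
    have h1 : w ∈ M G F f g := by
      rw [mem_M] at hmM' ⊢
      have h2 := h.twT hmM'.1 hw
      exact ⟨h2, Tw_nb5 hw hmM'.2.1 (ne h2 h.mf).symm, Tw_nb5 hw hmM'.2.2 (ne h2 h.mg).symm⟩
    rw [hM, mem_insert, mem_singleton] at h1
    rcases h1 with rfl | rfl
    · exact tw_not_low11 ⟨_, h.h7.symm _ _ hw⟩ hl
    · exact G.irr _ hw.1
  have twlow' : G.Low m' → ¬ G.IsTw m := by
    rintro hl ⟨w, hw⟩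
    have h1 : w ∈ M G F f g := by
      rw [mem_M] at hmM ⊢
      have h2 := h.twT hmM.1 hw
      exact ⟨h2, Tw_nb5 hw hmM.2.1 (ne h2 h.mf).symm, Tw_nb5 hw hmM.2.2 (ne h2 h.mg).symm⟩
    rw [hM, mem_insert, mem_singleton] at h1
    rcases h1 with rfl | rfl
    · exact G.irr _ hw.1
    · exact tw_not_low11 ⟨_, h.h7.symm _ _ hw⟩ hl
  have hMM : ∀ w ∈ G.N F, w ∈ G.nb f → w ∈ G.nb g → w = m ∨ w = m' := by
    intro w hw h1 h2
    have : w ∈ M G F f g := mem_M.2 ⟨hw, G.sym _ _ h1, G.sym _ _ h2⟩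
    rw [hM, mem_insert, mem_singleton] at this
    exact this
  have hF2 : ∀ v w, G.Tw v w → v ∈ F → v ∈ G.nb f → w ∈ G.nb f → v ∈ G.nb g → w ∈ G.nb g →
      False := by
    intro v w hvw hv hvf hwf hvg hwg
    rw [h.eq, mem_insert, mem_insert, mem_insert, mem_singleton] at hv
    rcases hv with rfl | rfl | rfl | rfl
    · exact G.irr _ hvf
    · have h2 := h.h7.uniq h.n9 _ _ _ hvw (h.h7.symm _ _ h.tf)
      rw [h2] at hwf
      exact G.irr _ hwf
    · exact G.irr _ hvg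
    · have h2 := h.h7.uniq h.n9 _ _ _ hvw (h.h7.symm _ _ h.tg)
      rw [h2] at hwg
      exact G.irr _ hwg
  have hcase : (G.Low m ∨ G.Low m') ∨ G.Tw m m' := by
    rcases cov27 h.hs h.h7 h.leaf h.mf (h.tw h.mf) ((h.all f h.mf g h.mg).2 h.fg) with
      ⟨w, hw, hl, h1, h2⟩ | ⟨v, w, hv, hw, hvw, h1, h2, h3, h4⟩ |
      ⟨x, y, hx, hy, hHL, hla, h1, h2, h3, h4⟩
    · rcases hw with hw | hw
      · exact absurd hl (h.nlow hw)
      · rcases hMM w hw h1 h2 with rfl | rfl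
        · exact Or.inl (Or.inl hl)
        · exact Or.inl (Or.inr hl)
    · right
      rcases hv with hv | hv
      · exact (hF2 v w hvw hv h1 h2 h3 h4).elim
      rcases hw with hw | hw
      · exact (hF2 w v (h.h7.symm _ _ hvw) hw h2 h1 h4 h3).elim
      rcases hMM v hv h1 h3 with rfl | rfl <;> rcases hMM w hw h2 h4 with rfl | rfl
      · exact absurd hvw.1 (G.irr _)
      · exact hvw
      · exact h.h7.symm _ _ hvw
      · exact absurd hvw.1 (G.irr _)
    · exact absurd hla (h.nlow h.mg)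
  rcases hcase with hl | ht
  swap
  · -- twins
    have h1 := h.side1 hM ht
    have h2 := h.symm.side1 hMs ht
    have h3 : ∀ x y, x ∈ M G F f g → y ∈ M G F f g → G.Tw x y → 2 ≤ G.val27 F x := by
      intro x y hx hy hxy
      rw [val_tw27 ⟨y, hxy⟩, h.dM hx]
      have h4 : 1 ≤ G.d x (G.N F) := by
        rw [d, Nat.succ_le_iff, card_pos]
        exact ⟨y, mem_inter.2 ⟨hxy.1, (mem_M.1 hy).1⟩⟩
      push_cast
      omega
    have h4 := h3 m m' hmM hmM' ht
    have h5 := h3 m' m hmM' hmM (h.h7.symm _ _ ht)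
    linarith
  by_cases hm : G.Low m
  · by_cases hm' : G.Low m'
    · obtain ⟨h1, h2⟩ := h.side2 hM hne hm hm'
      obtain ⟨h3, -⟩ := h.symm.side2 hMs hne hm hm'
      rw [vlow m hmM hm, vlow m' hmM' hm']
      rcases h2 with h2 | ⟨h4, h5⟩
      · omega
      · omega
    · have h1 := h.side3 hM hne hm hm' (twlow hm)
      have h2 := h.symm.side3 hMs hne hm hm' (twlow hm)
      rw [vlow m hmM hm, val_hub27 hm' (twlow hm)]
      omega
  · have hm' : G.Low m' := hl.resolve_left hm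
    have h1 := h.side3 (by rw [hM, pair_comm]) hne.symm hm' hm (twlow' hm')
    have h2 := h.symm.side3 (by rw [hMs, pair_comm]) hne.symm hm' hm (twlow' hm')
    rw [vlow m' hmM' hm', val_hub27 hm (twlow' hm')]
    omega

end K27

theorem stK4_27 (hs : G.StLeaf) (h7 : G.StTwHL) : G.StK4 := by
  intro F hL hc hall
  rw [P4_val27 hL.big.1]
  have hl : G.l F = 0 := by
    rw [l, card_eq_zero, filter_eq_empty_iff]
    intro x hx
    exact tw_not_low11 (hall x hx x hx).1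
  have key : ∃ f f' g g', K27 G F f f' g g' := by
    obtain ⟨f, hf⟩ := hL.big.1.1
    obtain ⟨f', hff⟩ := (hall f hf f hf).1
    have htwF : ∀ v ∈ F, ∀ w, G.Tw v w → w ∈ F := by
      intro v hv w hw
      have h1 := h7.twI _ (hs.torso F hL).reg v (((hs.mem F hL v).1).2 (Or.inl hv)) w hw
      rcases ((hs.mem F hL w).1).1 h1.1 with h | h
      · exact h
      · exfalso
        have h2 := h1.2
        rw [((hs.mem F hL v).2.1) hv, ((hs.mem F hL w).2.2) h] at h2
        exact singleton_ne_empty _ h2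
    have hf' := htwF f hf f' hff
    have hne : f ≠ f' := ne_of_nb5 hff.1
    have hex : ∃ g ∈ F, g ∉ ({f, f'} : Finset V) := by
      by_contra hno
      push Not at hno
      have h1 := card_le_card (show F ⊆ {f, f'} from hno)
      rw [card_pair hne] at h1
      omega
    obtain ⟨g, hg, hgf⟩ := hex
    rw [mem_insert, mem_singleton, not_or] at hgf
    obtain ⟨g', hgg⟩ := (hall g hg g hg).1
    have hg' := htwF g hg g' hgg
    have hgne : g ≠ g' := ne_of_nb5 hgg.1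
    have e1 : f ≠ g' := by
      rintro rfl
      exact hgf.2 (h7.uniq (by have := hL.n13; omega) _ _ _ (h7.symm _ _ hgg) hff)
    have e2 : f' ≠ g' := by
      rintro rfl
      exact hgf.1 (h7.uniq (by have := hL.n13; omega) _ _ _ (h7.symm _ _ hgg) (h7.symm _ _ hff))
    have h4 : ({f, f', g, g'} : Finset V).card = 4 := by
      rw [card_insert_of_notMem (by simp [hne, Ne.symm hgf.1, e1]),
        card_insert_of_notMem (by simp [Ne.symm hgf.2, e2]),
        card_insert_of_notMem (by simp [hgne]), card_singleton]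
    have heq : F = {f, f', g, g'} := by
      symm
      apply eq_of_subset_of_card_le
      · intro x hx
        rw [mem_insert, mem_insert, mem_insert, mem_singleton] at hx
        rcases hx with rfl | rfl | rfl | rfl <;> assumption
      · omega
    exact ⟨f, f', g, g', hL, hs, h7, heq, hc, hff, hgg, Ne.symm hgf.1, e1, hgf.2, hall⟩
  obtain ⟨f, f', g, g', h⟩ := key
  have := h.main
  rw [hl, hc]
  push_cast
  omega

end CG

end Pool.Agent.Lib.MP_e95c01_co.N
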