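import Pool.Agent.Lib.MP_e95c01_co.U.Nee21_26
import Pool.Agent.Lib.MP_e95c01_co.U.Needy30_5

/-!
# U11: the needy twin vertices are paid
-/

namespace Pool.Agent.Lib.MP_e95c01_co.N

open Finset

variable {V : Type} [Fintype V] [DecidableEq V]

namespace CG

open Classical in
/-- U11 -/
theorem stNeedy_26 (G : CG V) (h7 : G.StTwHL) (h6 : G.StCh4) : G.StNeedy := by
  intro Fa t e t3 h0 v hv
  obtain ⟨v', c⟩ := Cap26.ctx_of t e h7 h6 hv
  by_cases hex : ∃ p ∈ G.nb v, p ≠ v' ∧ G.IsTw p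
  · obtain ⟨p, hpv, hne, hp⟩ := hex
    exact c.ty21 hv h6 h0 t3 hp hpv hne
  · have hno : ∀ x ∈ G.nb v, x ≠ v' → ¬ G.IsTw x := fun x hx hne hT => hex ⟨x, hx, hne, hT⟩
    have hle := c.le
    have h1 : G.tl Fa v ≠ 1 := fun h => c.no_one h
    have h2 : G.tl Fa v ≠ 0 := by
      intro h
      -- no dominator at all
      obtain ⟨u, hu⟩ : ∃ u, u ∈ G.nb v ∧ u ≠ v' := by
        by_contra hcon
        push Not at hcon
        have h3 : G.nb v ⊆ {v'} := fun u hu => mem_singleton.2 (hcon u hu)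
        have h4 := card_le_card h3
        rw [c.card_nb, card_singleton] at h4
        omega
      have hlow : ∀ w, G.Low w → w ∈ G.nb v → False := by
        intro w hw hwv
        unfold tl at h
        rw [card_eq_zero, c.nR_eq] at h
        have : w ∈ (G.nb v).filter fun x => G.Low x := mem_filter.2 ⟨hwv, hw⟩
        rw [h] at this
        exact absurd this (notMem_empty _)
      rcases c.dom hu.1 hu.2 with h3 | h3 | h3
      · obtain ⟨w, g1, g2, -⟩ := h3
        exact hlow w g1 g2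
      · obtain ⟨a, b, g1, g2, -, g4, -⟩ := h3
        exact hno a g2 g4 ⟨b, g1⟩
      · obtain ⟨-, a, b, -, g2, g3, -⟩ := h3
        exact hlow b g3 g2
    have h3 : G.tl Fa v = 2 ∨ G.tl Fa v = 3 := by omega
    rcases h3 with h3 | h3
    · exact c.ty20 hv h6 h0 h3 hno
    · exact Needy5.needy30_5 c h6 hv h0 h3

end CG

end Pool.Agent.Lib.MP_e95c01_co.N
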