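import Pool.Agent.Lib.MP_e95c01_co.U.NeedyE76

/-!
# U11: the needy twin vertices are paid
-/

namespace Pool.Agent.Lib.MP_e95c01_co.N

open Finset

variable {V : Type} [Fintype V] [DecidableEq V]

namespace CG

section

variable {G : CG V} {Fa : Finset (Finset V)} {v v' l1 l2 p p' x1 x2 : V}

open Classical in
/-- the amount that `v` receives -/
noncomputable def pay76 (G : CG V) (Fa : Finset (Finset V)) (v : V) : ℤ :=
  2 * ((univ.filter fun x => G.Qual Fa x v).card : ℤ) +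
    ∑ l ∈ univ.filter (fun l => G.PL Fa l v), G.ch4 Fa l

/-- two payments of hubs, or one and a low vertex with charge at least 2, or ... -/
theorem At76.pay_ge (h : G.At76 Fa v v') (hpos : ∀ z ∈ R Fa, G.Low z → 0 ≤ G.ch4 Fa z)
    (X : Finset V) (hX : ∀ x ∈ X, G.Qual Fa x v) {l : V} (hl : G.PL Fa l v) :
    2 * (X.card : ℤ) + G.ch4 Fa l ≤ G.pay76 Fa v := by
  classical
  have h1 := h.pl_one hpos hl
  have h2 : X.card ≤ (univ.filter fun x => G.Qual Fa x v).card := by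
    apply card_le_card
    intro x hx
    rw [mem_filter]
    exact ⟨mem_univ _, hX x hx⟩
  unfold pay76
  omega

theorem qual_of76 (hn : G.Needy Fa v) {x : V} (hx : G.Hub x) (hxv : x ∈ G.nb v)
    (hI : G.I Fa x ≠ ∅) : G.Qual Fa x v := ⟨hn, hx, hxv, Or.inl hI⟩

theorem At76.qual_of' (h : G.At76 Fa v v') (hn : G.Needy Fa v)
    (T : G.T2176 v v' l1 l2 p p' x1 x2) {x : V} (hx : G.Hub x) (hxv : x ∈ G.nb v)
    (hxp : x ∈ G.nb p) (hI : G.I Fa p ≠ ∅) : G.Qual Fa x v := by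
  refine ⟨hn, hx, hxv, Or.inr ⟨p, mem_inter.2 ⟨G.sym _ _ hxp, T.mp⟩, isTw_iff76.2 ⟨p', T.t⟩,
    ?_, hI⟩⟩
  intro hh
  exact T.pv (mate76 h.tor.n9 h.tw (tw_iff76.1 hh)).symm

/-- `p, p'` and perhaps `x1` lie in `Co B` -/
theorem At76.fin1 (h : G.At76 Fa v v') (hch : G.StCh4) (hn : G.Needy Fa v)
    (hpos : ∀ z ∈ R Fa, G.Low z → 0 ≤ G.ch4 Fa z) (T : G.T2176 v v' l1 l2 p p' x1 x2)
    (hp : p ∈ G.nb l1) (hx1 : x1 ∈ G.nb l1) {B : Finset V} (hI : G.I Fa l1 = {B})
    (hpB : B ∉ G.I Fa p) : 4 ≤ G.pay76 Fa v := by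
  have hfull := h.full T hp
  have hPL := h.pl_of hn T.L1 T.m1 (by rw [hI]; exact singleton_ne_empty _) (by omega)
  have hp' := h.pC T T.L1 hp
  have hBF := (sing_I76 hI).1
  have hpC : p ∈ G.Co B := co_of76 (h.mem_R T.mp) hBF hpB
  have hpC' : p' ∈ G.Co B := by
    apply co_of76 (h.mem_R T.mp') hBF
    rw [(twI76 h.tor.reg (h.mem_R T.mp) T.t).2]
    exact hpB
  by_cases hxI : G.I Fa x1 = ∅
  · have h1 := h.lowge hch T.L1 T.m1 hI {p, p', x1} (by
      intro x hx
      rw [mem_insert, mem_insert, mem_singleton] at hx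
      rcases hx with rfl | rfl | rfl
      · exact ⟨hp, T.mp, T.pv, hpC⟩
      · exact ⟨hp', T.mp', T.pv', hpC'⟩
      · exact ⟨hx1, T.n1, h.hub_ne T.X1, co_of_emp76 (h.mem_R T.n1) hBF hxI⟩)
    have h2 : ({p, p', x1} : Finset V).card = 3 :=
      card_eq_three.2 ⟨p, p', x1, T.t.ne, (T.p_ne T.X1).symm, (T.p_ne' T.X1).symm, rfl⟩
    have h3 := h.pay_ge hpos ∅ (by simp) hPL
    rw [h2] at h1
    simp only [card_empty] at h3
    push_cast at h1 h3
    omega
  · have h1 := h.lowge hch T.L1 T.m1 hI {p, p'} (by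
      intro x hx
      rw [mem_insert, mem_singleton] at hx
      rcases hx with rfl | rfl
      · exact ⟨hp, T.mp, T.pv, hpC⟩
      · exact ⟨hp', T.mp', T.pv', hpC'⟩)
    have h3 := h.pay_ge hpos {x1} (by
      intro x hx
      rw [mem_singleton] at hx
      rw [hx]
      exact qual_of76 hn T.X1 T.n1 hxI) hPL
    rw [card_pair T.t.ne] at h1
    rw [card_singleton] at h3
    push_cast at h1 h3
    omega

/-- case (B), `x1 ∈ nb l1` -/
theorem At76.caseB' (h : G.At76 Fa v v') (hch : G.StCh4) (hn : G.Needy Fa v)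
    (hpos : ∀ z ∈ R Fa, G.Low z → 0 ≤ G.ch4 Fa z)
    (h3 : ∀ z ∈ R Fa, ∀ B, G.I Fa z = {B} → G.IsTw z → 3 ≤ G.d z (G.Co B))
    (T : G.T2176 v v' l1 l2 p p' x1 x2) (hp : p ∈ G.nb l1) (hl : l2 ∉ G.nb l1)
    (hx1 : x1 ∈ G.nb l1) : 4 ≤ G.pay76 Fa v := by
  have hfull := h.full T hp
  obtain ⟨B, hB⟩ := (h.c3 T.L1 T.m1).2 hfull
  have hp' := h.pC T T.L1 hp
  have hl1p : l1 ∈ G.nb p := G.sym _ _ hp
  have hx2 : x2 ∉ G.nb l1 := by
    intro hh
    refine h.four T.L1 T.m1 (L := [p, p', x1, x2]) (by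
      simp [T.t.ne, (T.p_ne T.X1).symm, (T.p_ne T.X2).symm, (T.p_ne' T.X1).symm,
        (T.p_ne' T.X2).symm, T.hx]) (by
      intro s hs
      simp only [List.mem_cons, List.not_mem_nil, or_false] at hs
      rcases hs with rfl | rfl | rfl | rfl
      · exact ⟨hp, T.mp, T.pv⟩
      · exact ⟨hp', T.mp', T.pv'⟩
      · exact ⟨hx1, T.n1, h.hub_ne T.X1⟩
      · exact ⟨hh, T.n2, h.hub_ne T.X2⟩) (by simp)
  -- two common neighbours with `p`
  have hc : ∀ a, a ∈ G.nb p → a ∈ G.nb v → a ≠ v' → a ≠ p' → a ≠ l1 →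
      ∃ B', G.I Fa p = {B'} ∧ (l1 ∈ G.Co B' ∨ a ∈ G.Co B') := by
    intro a a1 a2 a3 a4 a5
    have e1 := h.ge_C' (p := p) (p' := p') (L := [l1, a]) (by simp [Ne.symm a5]) (by
      intro s hs
      simp only [List.mem_cons, List.not_mem_nil, or_false] at hs
      rcases hs with rfl | rfl
      · exact ⟨hl1p, T.m1, h.tw.ne_low' T.L1, T.t.ne_low' T.L1⟩
      · exact ⟨a1, a2, a3, a4⟩)
    obtain ⟨c1, c2⟩ := h.c2 T.t T.mp T.pv
    simp only [List.length_cons, List.length_nil] at e1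
    obtain ⟨B', hB', hex⟩ := c2 (by omega)
    refine ⟨B', hB', ?_⟩
    have e2 := h3 p (h.mem_R T.mp) B' hB' (isTw_iff76.2 ⟨p', T.t⟩)
    have e3 : ∃ z ∈ G.nb p ∩ G.Co B', z ∉ ({v, v'} : Finset V) := by
      by_contra hcon
      push Not at hcon
      have e4 := (card_le_card hcon).trans card_le_two
      have e5 : G.d p (G.Co B') = (G.nb p ∩ G.Co B').card := rfl
      omega
    obtain ⟨z, hz, hz'⟩ := e3
    rw [mem_insert, mem_singleton, not_or] at hz'
    rw [mem_inter] at hz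
    rcases hex z hz.1 hz.2 with e6 | e6 | e6
    · exact absurd e6 hz'.1
    · exact absurd e6 hz'.2
    · by_cases z1 : z = l1
      · rw [z1] at hz; exact Or.inl hz.2
      by_cases z2 : z = a
      · rw [z2] at hz; exact Or.inr hz.2
      exact (h.p3 T hl1p T.m1 (h.tw.ne_low' T.L1) (T.t.ne_low' T.L1) a1 a2 a3 a4 hz.1 e6.1
        e6.2.1 e6.2.2 (Ne.symm a5) (Ne.symm z1) (Ne.symm z2)).elim
  rcases h.doml T with h1 | h1 | ⟨a, ha, h1⟩
  · exact absurd h1 hl
  · -- `p ~ l2`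
    obtain ⟨B', hB', hor⟩ := hc l2 h1 T.m2 (h.tw.ne_low' T.L2) (T.t.ne_low' T.L2) T.ll.symm
    have hpl2 : p ∈ G.nb l2 := G.sym _ _ h1
    rcases hor with h4 | h4
    · refine h.fin1 hch hn hpos T hp hx1 hB ?_
      rw [hB', mem_singleton]
      rintro rfl
      exact (mem_Co37.1 h4).2 (sing_I76 hB).2
    · have hfull2 := h.full T.swl hpl2
      obtain ⟨B2, hB2⟩ := (h.c3 T.L2 T.m2).2 hfull2
      have hx2l : x2 ∈ G.nb l2 := by
        rcases h.domx T T.X2 T.n2 with h5 | h5 | h5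
        · exact absurd h5 hx2
        · exact h5
        · exact (h.p3 T h5 T.n2 (h.hub_ne T.X2) (T.p_ne' T.X2) hl1p T.m1 (h.tw.ne_low' T.L1)
            (T.t.ne_low' T.L1) h1 T.m2 (h.tw.ne_low' T.L2) (T.t.ne_low' T.L2)
            (hub_ne76 T.X2 T.L1) (hub_ne76 T.X2 T.L2) T.ll).elim
      refine h.fin1 hch hn hpos T.swl.swx hpl2 hx2l hB2 ?_
      rw [hB', mem_singleton]
      rintro rfl
      exact (mem_Co37.1 h4).2 (sing_I76 hB2).2
  · -- `HL x1 l1 l2`
    obtain ⟨e1, -⟩ := hl_iff76.1 h1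
    have hax : a = x1 := by
      rcases ha with rfl | rfl
      · rfl
      · exact absurd e1.ab hx2
    rw [hax] at h1 e1
    have hx1p : x1 ∈ G.nb p := G.sym _ _ (e1.mem_a hp (T.p_ne T.X1).symm)
    obtain ⟨B', hB', hor⟩ := hc x1 hx1p T.n1 (h.hub_ne T.X1) (T.p_ne' T.X1)
      (hub_ne76 T.X1 T.L1)
    have hIx : G.I Fa x1 = G.I Fa l1 :=
      (stTwHL_76 G).hlI Fa h.tor.reg x1 (h.mem_R T.n1) l1 (h.mem_R T.m1) l2 (h.mem_R T.m2) h1
    refine h.fin1 hch hn hpos T hp hx1 hB ?_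
    rw [hB', mem_singleton]
    rintro rfl
    rcases hor with h4 | h4
    · exact (mem_Co37.1 h4).2 (sing_I76 hB).2
    · exact (mem_Co37.1 h4).2 (sing_I76 (hIx.trans hB)).2

theorem At76.caseB (h : G.At76 Fa v v') (hch : G.StCh4) (hn : G.Needy Fa v)
    (hpos : ∀ z ∈ R Fa, G.Low z → 0 ≤ G.ch4 Fa z)
    (h3 : ∀ z ∈ R Fa, ∀ B, G.I Fa z = {B} → G.IsTw z → 3 ≤ G.d z (G.Co B))
    (T : G.T2176 v v' l1 l2 p p' x1 x2) (hp : p ∈ G.nb l1) (hl : l2 ∉ G.nb l1) :
    4 ≤ G.pay76 Fa v := by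
  have hfull := h.full T hp
  have h1 : ∃ s ∈ (G.nb l1 ∩ G.nb v).erase v', s ∉ ({p, p'} : Finset V) := by
    by_contra hcon
    push Not at hcon
    have e4 := (card_le_card hcon).trans card_le_two
    omega
  obtain ⟨s, hs, hs'⟩ := h1
  rw [mem_insert, mem_singleton, not_or] at hs'
  rw [mem_erase, mem_inter] at hs
  have h2 : ¬ G.Low s := by
    intro hh
    rcases T.only s hs.2.2 hh with e | e
    · rw [e] at hs; exact G.irr _ hs.2.1
    · rw [e] at hs; exact hl hs.2.1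
  have h4 : ¬ G.IsTw s := by
    intro hh
    rcases T.onlyt s hs.2.2 hh with e | e | e
    · exact hs.1 e
    · exact hs'.1 e
    · exact hs'.2 e
  rcases T.all s hs.2.2 h2 h4 with e | e
  · rw [e] at hs
    exact h.caseB' hch hn hpos h3 T hp hl hs.2.1
  · rw [e] at hs
    exact h.caseB' hch hn hpos h3 T.swx hp hl hs.2.1

/-- case (A), `x1 ∈ nb p` -/
theorem At76.caseA2 (h : G.At76 Fa v v') (hch : G.StCh4) (hn : G.Needy Fa v)
    (hpos : ∀ z ∈ R Fa, G.Low z → 0 ≤ G.ch4 Fa z)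
    (T : G.T2176 v v' l1 l2 p p' x1 x2) (hp : p ∈ G.nb l1) (hl : l2 ∈ G.nb l1)
    {B : Finset V} (hB : G.I Fa l1 = {B}) (hpB : B ∈ G.I Fa p) (hx1 : x1 ∈ G.nb p)
    (hx2l : x2 ∉ G.nb l1) : 4 ≤ G.pay76 Fa v := by
  have hfull := h.full T hp
  have hPL := h.pl_of hn T.L1 T.m1 (by rw [hB]; exact singleton_ne_empty _) (by omega)
  have hl1p : l1 ∈ G.nb p := G.sym _ _ hp
  have hl' := G.sym _ _ hl
  have hIp : G.I Fa p ≠ ∅ := fun hh => by rw [hh] at hpB; exact notMem_empty _ hpB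
  have hq1 := h.qual_of' hn T T.X1 T.n1 hx1 hIp
  have hx2p : x2 ∉ G.nb p := fun hh =>
    h.p3 T hh T.n2 (h.hub_ne T.X2) (T.p_ne' T.X2) hl1p T.m1 (h.tw.ne_low' T.L1)
      (T.t.ne_low' T.L1) hx1 T.n1 (h.hub_ne T.X1) (T.p_ne' T.X1) (hub_ne76 T.X2 T.L1)
      T.hx.symm (hub_ne76 T.X1 T.L1).symm
  have hx2 : x2 ∈ G.nb l2 := by
    rcases h.domx T T.X2 T.n2 with h5 | h5 | h5
    · exact absurd h5 hx2l
    · exact h5
    · exact absurd h5 hx2p
  have hBF := (sing_I76 hB).1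
  have hl2R := h.mem_R T.m2
  have t1 := tl_pos76 (Fa := Fa) hl hl2R T.L2
  have t2 := tl_pos76 (Fa := Fa) hl' (h.mem_R T.m1) T.L1
  by_cases hl2 : B ∈ G.I Fa l2
  · have hPL2 := h.pl_of hn T.L2 T.m2
      (fun hh => by rw [hh] at hl2; exact notMem_empty _ hl2) (by
        have e1 := h.ge_C (l := l2) (L := [l1, x2]) (by simp [(hub_ne76 T.X2 T.L1).symm]) (by
          intro s hs
          simp only [List.mem_cons, List.not_mem_nil, or_false] at hs
          rcases hs with rfl | rfl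
          · exact ⟨hl', T.m1, h.tw.ne_low' T.L1⟩
          · exact ⟨hx2, T.n2, h.hub_ne T.X2⟩)
        simpa using e1)
    by_cases hxI : G.I Fa x2 = ∅
    · have hc2 : 2 ≤ G.ch4 Fa l2 := by
        by_cases hk : (G.I Fa l2).card ≤ 1
        · have e1 : G.I Fa l2 = {B} := by
            ext B2
            rw [mem_singleton]
            constructor
            · intro hh
              rw [card_le_one] at hk
              exact hk B2 hh B hl2
            · rintro rfl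
              exact hl2
          have e2 := h.lowge hch T.L2 T.m2 e1 {x2} (by
            intro x hx
            rw [mem_singleton] at hx
            rw [hx]
            exact ⟨hx2, T.n2, h.hub_ne T.X2, co_of_emp76 (h.mem_R T.n2) hBF hxI⟩)
          rw [card_singleton] at e2
          push_cast at e2
          omega
        · refine low2_76 h.tor.reg hl2R T.L2 (by omega) ?_ hx2 (h.mem_R T.n2) hxI
          have e1 : ([v, v', l1, x2] : List V).Nodup := by
            simp [h.tw.ne, (h.tw.ne_low T.L1).symm, (nb_ne76 T.n2).symm,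
              (h.tw.ne_low' T.L1).symm, (h.hub_ne T.X2).symm, (hub_ne76 T.X2 T.L1).symm]
          have e2 := nodup76 (s := G.nR Fa l2) e1 (by
            intro s hs
            simp only [List.mem_cons, List.not_mem_nil, or_false] at hs
            rw [mem_nR76]
            rcases hs with rfl | rfl | rfl | rfl
            · exact ⟨G.sym _ _ T.m2, h.vR⟩
            · exact ⟨G.sym _ _ ((h.tw.iff (h.tw.ne_low T.L2) (h.tw.ne_low' T.L2)).1 T.m2),
                h.mate.1⟩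
            · exact ⟨hl', h.mem_R T.m1⟩
            · exact ⟨hx2, h.mem_R T.n2⟩)
          simpa using e2
      have e3 := h.pay_ge hpos {x1} (by
        intro x hx
        rw [mem_singleton] at hx
        rw [hx]
        exact hq1) hPL2
      rw [card_singleton] at e3
      push_cast at e3
      omega
    · have e3 := h.pay_ge hpos {x1, x2} (by
        intro x hx
        rw [mem_insert, mem_singleton] at hx
        rcases hx with rfl | rfl
        · exact hq1
        · exact qual_of76 hn T.X2 T.n2 hxI) hPL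
      have e4 := hpos l1 (h.mem_R T.m1) T.L1
      rw [card_pair T.hx] at e3
      push_cast at e3
      omega
  · have e1 := h.lowge hch T.L1 T.m1 hB {l2} (by
      intro x hx
      rw [mem_singleton] at hx
      rw [hx]
      exact ⟨hl, T.m2, h.tw.ne_low' T.L2, co_of76 hl2R hBF hl2⟩)
    have e3 := h.pay_ge hpos {x1} (by
      intro x hx
      rw [mem_singleton] at hx
      rw [hx]
      exact hq1) hPL
    rw [card_singleton] at e1 e3
    push_cast at e1 e3
    omega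

theorem At76.caseA (h : G.At76 Fa v v') (hch : G.StCh4) (hn : G.Needy Fa v)
    (hpos : ∀ z ∈ R Fa, G.Low z → 0 ≤ G.ch4 Fa z)
    (T : G.T2176 v v' l1 l2 p p' x1 x2) (hp : p ∈ G.nb l1) (hl : l2 ∈ G.nb l1) :
    4 ≤ G.pay76 Fa v := by
  have hfull := h.full T hp
  obtain ⟨B, hB⟩ := (h.c3 T.L1 T.m1).2 hfull
  have hPL := h.pl_of hn T.L1 T.m1 (by rw [hB]; exact singleton_ne_empty _) (by omega)
  have hp' := h.pC T T.L1 hp
  have hl1p : l1 ∈ G.nb p := G.sym _ _ hp
  have hl' := G.sym _ _ hl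
  have hBF := (sing_I76 hB).1
  have t1 := tl_pos76 (Fa := Fa) hl (h.mem_R T.m2) T.L2
  have t2 := tl_pos76 (Fa := Fa) hl' (h.mem_R T.m1) T.L1
  -- no hub at `l1`
  have hx : ∀ x, G.Hub x → x ∈ G.nb v → x ∉ G.nb l1 := by
    intro x hx hxv hh
    refine h.four T.L1 T.m1 (L := [p, p', l2, x]) (by
      simp [T.t.ne, (T.p_ne hx).symm, (T.p_ne' hx).symm, (T.t.ne_low T.L2).symm,
        (T.t.ne_low' T.L2).symm, (hub_ne76 hx T.L2).symm]) (by
      intro s hs
      simp only [List.mem_cons, List.not_mem_nil, or_false] at hs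
      rcases hs with rfl | rfl | rfl | rfl
      · exact ⟨hp, T.mp, T.pv⟩
      · exact ⟨hp', T.mp', T.pv'⟩
      · exact ⟨hl, T.m2, h.tw.ne_low' T.L2⟩
      · exact ⟨hh, hxv, h.hub_ne hx⟩) (by simp)
  by_cases hpB : B ∈ G.I Fa p
  swap
  · have hpC : p ∈ G.Co B := co_of76 (h.mem_R T.mp) hBF hpB
    have hpC' : p' ∈ G.Co B := by
      apply co_of76 (h.mem_R T.mp') hBF
      rw [(twI76 h.tor.reg (h.mem_R T.mp) T.t).2]
      exact hpB
    have e1 := h.lowge hch T.L1 T.m1 hB {p, p'} (by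
      intro x hx
      rw [mem_insert, mem_singleton] at hx
      rcases hx with rfl | rfl
      · exact ⟨hp, T.mp, T.pv, hpC⟩
      · exact ⟨hp', T.mp', T.pv', hpC'⟩)
    have e3 := h.pay_ge hpos ∅ (by simp) hPL
    rw [card_pair T.t.ne] at e1
    rw [card_empty] at e3
    push_cast at e1 e3
    omega
  by_cases hx1 : x1 ∈ G.nb p
  · exact h.caseA2 hch hn hpos T hp hl hB hpB hx1 (hx x2 T.X2 T.n2)
  by_cases hx2 : x2 ∈ G.nb p
  · exact h.caseA2 hch hn hpos T.swx hp hl hB hpB hx2 (hx x1 T.X1 T.n1)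
  -- both hubs are dominated by `l2`
  have hd : ∀ x, G.Hub x → x ∈ G.nb v → x ∉ G.nb p → x ∈ G.nb l2 := by
    intro x hxh hxv hxp
    rcases h.domx T hxh hxv with h5 | h5 | h5
    · exact absurd h5 (hx x hxh hxv)
    · exact h5
    · exact absurd h5 hxp
  have d1 := hd x1 T.X1 T.n1 hx1
  have d2 := hd x2 T.X2 T.n2 hx2
  have e1 := h.ge_C (l := l2) (L := [l1, x1, x2]) (by
    simp [(hub_ne76 T.X1 T.L1).symm, (hub_ne76 T.X2 T.L1).symm, T.hx]) (by
    intro s hs
    simp only [List.mem_cons, List.not_mem_nil, or_false] at hs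
    rcases hs with rfl | rfl | rfl
    · exact ⟨hl', T.m1, h.tw.ne_low' T.L1⟩
    · exact ⟨d1, T.n1, h.hub_ne T.X1⟩
    · exact ⟨d2, T.n2, h.hub_ne T.X2⟩)
  simp only [List.length_cons, List.length_nil] at e1
  obtain ⟨c1, c2⟩ := h.c3 T.L2 T.m2
  obtain ⟨B2, hB2⟩ := c2 (by omega)
  have hPL2 := h.pl_of hn T.L2 T.m2 (by rw [hB2]; exact singleton_ne_empty _) (by omega)
  have e2 := h.lowge hch T.L2 T.m2 hB2 (({x1, x2} : Finset V).filter fun x => G.I Fa x = ∅) (by
    intro x hx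
    rw [mem_filter, mem_insert, mem_singleton] at hx
    obtain ⟨hx, hxI⟩ := hx
    rcases hx with rfl | rfl
    · exact ⟨d1, T.n1, h.hub_ne T.X1, co_of_emp76 (h.mem_R T.n1) (sing_I76 hB2).1 hxI⟩
    · exact ⟨d2, T.n2, h.hub_ne T.X2, co_of_emp76 (h.mem_R T.n2) (sing_I76 hB2).1 hxI⟩)
  have e3 := h.pay_ge hpos (({x1, x2} : Finset V).filter fun x => ¬ G.I Fa x = ∅) (by
    intro x hx
    rw [mem_filter, mem_insert, mem_singleton] at hx
    obtain ⟨hx, hxI⟩ := hx
    rcases hx with rfl | rfl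
    · exact qual_of76 hn T.X1 T.n1 hxI
    · exact qual_of76 hn T.X2 T.n2 hxI) hPL2
  have e4 := card_filter_add_card_filter_not (s := ({x1, x2} : Finset V))
    (fun x => G.I Fa x = ∅)
  rw [card_pair T.hx] at e4
  omega

end

/-- U11 -/
theorem stNeedy_76 (G : CG V) (hch : G.StCh4) : G.StNeedy := by
  classical
  intro Fa hT hE h3 hpos v hn
  obtain ⟨hvR, htw, hvI, hneg⟩ := hn
  have hn : G.Needy Fa v := ⟨hvR, htw, hvI, hneg⟩
  obtain ⟨v', hvv⟩ := isTw_iff76.1 htw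
  have h : G.At76 Fa v v' := ⟨hT, hE, hvv, hvR, hvI⟩
  have h9 := hT.n9
  have hc := ((hch h9 Fa hT.reg v hvR).2.1 htw).1 hvI
  rw [hc] at hneg ⊢
  have hnR : ∀ x, x ∈ G.nR Fa v ↔ x ∈ G.nb v := by
    intro x
    rw [mem_nR76]
    exact ⟨fun hh => hh.1, fun hh => ⟨hh, h.mem_R hh⟩⟩
  have hLf : ∀ x, x ∈ (G.nR Fa v).filter (fun x => G.Low x) ↔ x ∈ G.nb v ∧ G.Low x := by
    intro x
    rw [mem_filter, hnR]
  have hTf : ∀ x, x ∈ (G.nR Fa v).filter (fun x => G.IsTw x ∧ ¬ G.Tw v x) ↔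
      x ∈ G.nb v ∧ G.IsTw x ∧ ¬ G.Tw v x := by
    intro x
    rw [mem_filter, hnR]
  have htl : G.tl Fa v = ((G.nR Fa v).filter (fun x => G.Low x)).card := by
    unfold tl
    congr
  have htt : G.tt Fa v = ((G.nR Fa v).filter (fun x => G.IsTw x ∧ ¬ G.Tw v x)).card := by
    unfold tt
    congr
  have hTw : ∀ q, q ≠ v' → ¬ G.Tw v q := fun q hq hh =>
    hq (mate76 h9 hvv (tw_iff76.1 hh)).symm
  obtain ⟨b1, b2, bne, bl1, bl2, bm1, bm2⟩ := h.two
  have hge : 2 ≤ G.tl Fa v := by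
    rw [htl]
    have e1 := nodup76 (s := (G.nR Fa v).filter (fun x => G.Low x)) (l := [b1, b2])
      (by simp [bne]) (by
      intro x hx
      simp only [List.mem_cons, List.not_mem_nil, or_false] at hx
      rw [hLf]
      rcases hx with rfl | rfl
      · exact ⟨bm1, bl1⟩
      · exact ⟨bm2, bl2⟩)
    simpa using e1
  have hpay : G.pay76 Fa v = 2 * ((univ.filter fun x => G.Qual Fa x v).card : ℤ) +
    ∑ l ∈ univ.filter (fun l => G.PL Fa l v), G.ch4 Fa l := by
    unfold pay76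
    congr
  rcases (by omega : G.tl Fa v = 2 ∨ G.tl Fa v = 3) with h2 | h2
  · rw [htl] at h2
    obtain ⟨l1, l2, ll, hL⟩ := card_eq_two.1 h2
    have hmem : ∀ x, (x ∈ G.nb v ∧ G.Low x) ↔ (x = l1 ∨ x = l2) := by
      intro x
      rw [← hLf, hL, mem_insert, mem_singleton]
    obtain ⟨m1, L1⟩ := (hmem l1).2 (Or.inl rfl)
    obtain ⟨m2, L2⟩ := (hmem l2).2 (Or.inr rfl)
    have only : ∀ b ∈ G.nb v, G.Low b → b = l1 ∨ b = l2 := fun b e1 e2 => (hmem b).1 ⟨e1, e2⟩
    by_cases hex : ∃ p ∈ G.nb v, G.IsTw p ∧ p ≠ v'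
    swap
    · push Not at hex
      have e1 := h.ty20 hch hn hpos ll L1 L2 m1 m2 only hex
      rw [htl, h2]
      push_cast
      omega
    obtain ⟨p, mp, hpt, pv⟩ := hex
    obtain ⟨p', t⟩ := isTw_iff76.1 hpt
    obtain ⟨mp', pv', -⟩ := tw_mem76 h9 hvv t mp pv
    have hpt' : G.IsTw p' := isTw_iff76.2 ⟨p, t.symm⟩
    have htt2 : 2 ≤ G.tt Fa v := by
      rw [htt]
      have e1 := nodup76 (s := (G.nR Fa v).filter (fun x => G.IsTw x ∧ ¬ G.Tw v x))
        (l := [p, p']) (by simp [t.ne]) (by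
        intro x hx
        simp only [List.mem_cons, List.not_mem_nil, or_false] at hx
        rw [hTf]
        rcases hx with rfl | rfl
        · exact ⟨mp, hpt, hTw _ pv⟩
        · exact ⟨mp', hpt', hTw _ pv'⟩)
      simpa using e1
    have onlyt : ∀ q ∈ G.nb v, G.IsTw q → q = v' ∨ q = p ∨ q = p' := by
      intro q hq hqt
      by_contra hcon
      rw [not_or, not_or] at hcon
      obtain ⟨q1, q2, q3⟩ := hcon
      obtain ⟨q', tq⟩ := isTw_iff76.1 hqt
      obtain ⟨mq', qv', -⟩ := tw_mem76 h9 hvv tq hq q1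
      have r1 : q' ≠ p := by
        rintro rfl
        exact q3 (mate76 h9 t tq.symm).symm
      have r2 : q' ≠ p' := by
        rintro rfl
        exact q2 (mate76 h9 t.symm tq.symm).symm
      have e1 := nodup76 (s := (G.nR Fa v).filter (fun x => G.IsTw x ∧ ¬ G.Tw v x))
        (l := [p, p', q, q']) (by
          simp [t.ne, Ne.symm q2, Ne.symm q3, r1.symm, r2.symm, tq.ne]) (by
        intro x hx
        simp only [List.mem_cons, List.not_mem_nil, or_false] at hx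
        rw [hTf]
        rcases hx with rfl | rfl | rfl | rfl
        · exact ⟨mp, hpt, hTw _ pv⟩
        · exact ⟨mp', hpt', hTw _ pv'⟩
        · exact ⟨hq, hqt, hTw _ q1⟩
        · exact ⟨mq', isTw_iff76.2 ⟨_, tq.symm⟩, hTw _ qv'⟩)
      rw [← htt] at e1
      simp only [List.length_cons, List.length_nil] at e1
      omega
    -- the two hubs
    have hX : (((G.nb v).erase v') \ {l1, l2, p, p'}).card = 2 := by
      have e1 : ({l1, l2, p, p'} : Finset V) ⊆ (G.nb v).erase v' := by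
        intro z hz
        simp only [mem_insert, mem_singleton] at hz
        rw [mem_erase]
        rcases hz with rfl | rfl | rfl | rfl
        · exact ⟨hvv.ne_low' L1, m1⟩
        · exact ⟨hvv.ne_low' L2, m2⟩
        · exact ⟨pv, mp⟩
        · exact ⟨pv', mp'⟩
      have e2 : ({l1, l2, p, p'} : Finset V).card = 4 := by
        have e3 : ([l1, l2, p, p'] : List V).Nodup := by
          simp [ll, t.ne_low L1, t.ne_low' L1, t.ne_low L2, t.ne_low' L2, t.ne]
        have e4 := List.toFinset_card_of_nodup e3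
        simpa using e4
      have e3 := card_sdiff_add_card_eq_card e1
      rw [e2, card_erase_of_mem hvv.adj, hvv.deg] at e3
      omega
    obtain ⟨x1, x2, hx12, hXeq⟩ := card_eq_two.1 hX
    have hXm : ∀ x, (x = x1 ∨ x = x2) ↔
        (x ≠ v' ∧ x ∈ G.nb v) ∧ ¬ (x = l1 ∨ x = l2 ∨ x = p ∨ x = p') := by
      intro x
      have e1 : x ∈ ((G.nb v).erase v') \ {l1, l2, p, p'} ↔ x ∈ ({x1, x2} : Finset V) := by
        rw [hXeq]
      rw [mem_sdiff, mem_erase] at e1
      simp only [mem_insert, mem_singleton] at e1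
      exact e1.symm
    have hXh : ∀ x, (x = x1 ∨ x = x2) → G.Hub x ∧ x ∈ G.nb v := by
      intro x hx
      obtain ⟨⟨e1, e2⟩, e3⟩ := (hXm x).1 hx
      rw [not_or, not_or, not_or] at e3
      refine ⟨⟨fun hh => ?_, fun hh => ?_⟩, e2⟩
      · rcases only x e2 hh with e | e
        · exact e3.1 e
        · exact e3.2.1 e
      · rcases onlyt x e2 hh with e | e | e
        · exact e1 e
        · exact e3.2.2.1 e
        · exact e3.2.2.2 e
    have T : G.T2176 v v' l1 l2 p p' x1 x2 := ⟨ll, L1, L2, m1, m2, t, mp, mp', pv, pv', hx12,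
      (hXh x1 (Or.inl rfl)).1, (hXh x2 (Or.inr rfl)).1, (hXh x1 (Or.inl rfl)).2,
      (hXh x2 (Or.inr rfl)).2, only, onlyt, fun s s1 s2 s3 => by
        apply (hXm s).2
        refine ⟨⟨?_, s1⟩, ?_⟩
        · rintro rfl
          exact s3 (isTw_iff76.2 ⟨v, hvv.symm⟩)
        · rintro (rfl | rfl | rfl | rfl)
          · exact s2 L1
          · exact s2 L2
          · exact s3 hpt
          · exact s3 hpt'⟩
    have hfin : 4 ≤ G.pay76 Fa v := by
      rcases h.domp T with hd | hd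
      · by_cases hl : l2 ∈ G.nb l1
        · exact h.caseA hch hn hpos T hd hl
        · exact h.caseB hch hn hpos h3 T hd hl
      · by_cases hl : l1 ∈ G.nb l2
        · exact h.caseA hch hn hpos T.swl hd hl
        · exact h.caseB hch hn hpos h3 T.swl hd hl
    rw [hpay] at hfin
    rw [htl, h2]
    push_cast
    omega
  · have htt0 : G.tt Fa v = 0 := by omega
    have hnt : ∀ q ∈ G.nb v, G.IsTw q → q = v' := by
      intro q hq hqt
      by_contra hne
      rw [htt, card_eq_zero] at htt0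
      have e1 : q ∈ (G.nR Fa v).filter (fun x => G.IsTw x ∧ ¬ G.Tw v x) :=
        (hTf q).2 ⟨hq, hqt, hTw q hne⟩
      rw [htt0] at e1
      exact notMem_empty _ e1
    rw [htl] at h2
    obtain ⟨x, y, z, xy, xz, yz, hL⟩ := card_eq_three.1 h2
    have hmem : ∀ s, (s ∈ G.nb v ∧ G.Low s) ↔ (s = x ∨ s = y ∨ s = z) := by
      intro s
      rw [← hLf, hL, mem_insert, mem_insert, mem_singleton]
    obtain ⟨mx, lx⟩ := (hmem x).2 (Or.inl rfl)
    obtain ⟨my, ly⟩ := (hmem y).2 (Or.inr (Or.inl rfl))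
    obtain ⟨mz, lz⟩ := (hmem z).2 (Or.inr (Or.inr rfl))
    obtain ⟨l, e1, e2, e3⟩ := h.ty30b xy xz yz lx ly lz mx my mz
      (fun b e1 e2 => (hmem b).1 ⟨e1, e2⟩) hnt
    have e4 := h.ty30a hch hn hpos e1 e2 e3 hnt
    rw [htl, h2]
    push_cast
    omega

end CG

end Pool.Agent.Lib.MP_e95c01_co.N
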