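import Pool.Agent.Lib.MP_e95c01_co.U.C4_37
import Pool.Agent.Lib.MP_e95c01_co.N.Transfer53

/-!
# From `CG` to graphs
-/

namespace Pool.Agent.Lib.MP_e95c01_co.N

open Finset

namespace Transfer37

/-- the theorem for graphs -/
theorem transfer4 (hC4 : ∀ (V : Type) [Fintype V] [DecidableEq V] (C : CG V), C.StC4)
    {V : Type} [Finite V] (G : SimpleGraph V) (hG : Critical 6 G) :
    Nat.card V ≤ 4 * numDeg 6 G := by
  classical
  have := Fintype.ofFinite V
  by_cases hn : Nat.card V ≤ 7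
  · rw [Transfer53.seven G hG.1 hn]; omega
  · have h3 := hC4 V (Transfer53.cg G hG.1) (Transfer53.crit G hG (by omega))
    rw [Transfer53.l_univ, ← Nat.card_eq_fintype_card] at h3
    exact h3

/-- the lower bound for `c_6` -/
theorem quarter (h : ∀ (V : Type) [Finite V] (G : SimpleGraph V), Critical 6 G →
    Nat.card V ≤ 4 * numDeg 6 G) (hb : ∀ c ∈ {c : ℝ | 0 ≤ c ∧ Admissible 6 c}, c ≤ 1 / 3) :
    1 / 4 ≤ cc 6 := by
  apply le_csSup ⟨1 / 3, hb⟩
  refine ⟨by norm_num, ?_⟩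
  intro V _ G hG
  have h1 := h V G hG
  have h2 : (Nat.card V : ℝ) ≤ 4 * (numDeg 6 G : ℝ) := by exact_mod_cast h1
  linarith

end Transfer37

end Pool.Agent.Lib.MP_e95c01_co.N
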